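import Pool.Agent.Work.MP_03df5c_pb.Interface1
import Pool.Agent.Work.MP_03df5c_h91.Indep

/-!
# Block T1: transfer of linear independence to `ℚ(π)`
-/

open Finset Filter Topology

namespace Pool.Agent.Work.MP_03df5c_pb

namespace BT1

open Pool.Agent.Work.MP_03df5c_h91 Polynomial

/-- a polynomial is `E(X²) + X O(X²)` -/
theorem even_odd (Q : ℚ[X]) : ∃ E O : ℚ[X], Q = expand ℚ 2 E + X * expand ℚ 2 O := by
  induction Q using Polynomial.induction_on' with
  | add p q hp hq =>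
    obtain ⟨E, O, h⟩ := hp
    obtain ⟨E', O', h'⟩ := hq
    refine ⟨E + E', O + O', ?_⟩
    rw [map_add, map_add]
    conv_lhs => rw [h, h']
    ring
  | monomial n a =>
    rcases Nat.even_or_odd' n with ⟨c, rfl | rfl⟩
    · refine ⟨monomial c a, 0, ?_⟩
      rw [expand_monomial, map_zero, mul_zero, add_zero, mul_comm]
    · refine ⟨0, monomial c a, ?_⟩
      rw [expand_monomial, map_zero, zero_add, X_mul_monomial, mul_comm]

theorem zetaR_two : zetaR 2 = Real.pi ^ 2 / 6 := by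
  unfold zetaR
  have h := hasSum_zeta_two
  have h2 : HasSum (fun n : ℕ => (1 : ℝ) / ((n + 1 : ℕ) : ℝ) ^ 2) (Real.pi ^ 2 / 6) := by
    have h3 := (hasSum_nat_add_iff' (f := fun n : ℕ => (1 : ℝ) / (n : ℝ) ^ 2) 1).2 h
    simpa using h3
  have h4 := h2.tsum_eq
  push_cast at h4
  exact h4

/-- a nonzero family of polynomials without the common power of `X` -/
theorem divide {m : ℕ} (P : Fin (m + 1) → ℚ[X]) (h : ∃ j, P j ≠ 0) :
    ∃ (n : ℕ) (Q : Fin (m + 1) → ℚ[X]), (∀ j, P j = X ^ n * Q j) ∧ ∃ j, (Q j).coeff 0 ≠ 0 := by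
  classical
  have hex : ∃ n, ∃ j, (P j).coeff n ≠ 0 := by
    obtain ⟨j, hj⟩ := h
    by_contra hc
    push Not at hc
    apply hj
    ext n
    rw [hc n j, coeff_zero]
  have h1 : ∀ j, X ^ (Nat.find hex) ∣ P j := by
    intro j
    rw [X_pow_dvd_iff]
    intro d hd
    by_contra hc
    exact Nat.find_min hex hd ⟨j, hc⟩
  choose Q hQ using h1
  obtain ⟨j, hj⟩ := Nat.find_spec hex
  refine ⟨Nat.find hex, Q, hQ, j, ?_⟩
  rw [hQ j] at hj
  have e := coeff_X_pow_mul (Q j) (Nat.find hex) 0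
  rw [zero_add] at e
  rwa [e] at hj

end BT1

open BT1 Pool.Agent.Work.MP_03df5c_h91

open Polynomial in
theorem p_T1 : S_T1 := by
  intro p hp m k hk hT hli
  classical
  rw [Fintype.linearIndependent_iff]
  intro g hg
  by_contra hne
  push Not at hne
  obtain ⟨i0, hi0⟩ := hne
  -- numerators and denominators
  have hrs : ∀ i, ∃ r s : ℚ[X], ((g i : ℝ)) * aeval Real.pi s = aeval Real.pi r ∧
      aeval Real.pi s ≠ 0 := by
    intro i
    obtain ⟨r, s, h⟩ := (IntermediateField.mem_adjoin_simple_iff ℚ (g i : ℝ)).1 (g i).2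
    by_cases hs : aeval Real.pi s = 0
    · refine ⟨0, 1, ?_, ?_⟩
      · rw [h, hs, div_zero, map_zero, zero_mul]
      · rw [map_one]; exact one_ne_zero
    · refine ⟨r, s, ?_, hs⟩
      rw [h, div_mul_cancel₀ _ hs]
  choose r s hrs hs using hrs
  obtain ⟨v, hv⟩ : ∃ v : Fin (m + 1) → ℝ, v = Fin.cons 1 (fun i => zetaR (k i)) := ⟨_, rfl⟩
  have hg' : ∑ j, (g j : ℝ) * v j = 0 := by
    rw [hv]
    exact hg
  obtain ⟨P, hP⟩ : ∃ P : Fin (m + 1) → ℚ[X], P = fun j => r j * ∏ l ∈ univ.erase j, s l := ⟨_, rfl⟩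
  have hPe : ∀ j, aeval Real.pi (P j) = (g j : ℝ) * aeval Real.pi (∏ l, s l) := by
    intro j
    rw [hP, ← Finset.mul_prod_erase univ s (mem_univ j), map_mul, map_mul, ← hrs j]
    ring
  have hD : aeval Real.pi (∏ l, s l) ≠ 0 := by
    rw [map_prod]
    exact Finset.prod_ne_zero_iff.2 (fun l _ => hs l)
  have hPsum : ∑ j, aeval Real.pi (P j) * v j = 0 := by
    have : ∑ j, aeval Real.pi (P j) * v j = (∑ j, (g j : ℝ) * v j) * aeval Real.pi (∏ l, s l) := by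
      rw [Finset.sum_mul]
      apply Finset.sum_congr rfl
      intro j _
      rw [hPe j]
      ring
    rw [this, hg', zero_mul]
  have hP0 : ∃ j, P j ≠ 0 := by
    refine ⟨i0, ?_⟩
    intro h0
    have h1 := hPe i0
    rw [h0, map_zero] at h1
    rcases mul_eq_zero.1 h1.symm with h2 | h2
    · exact hi0 (Subtype.ext h2)
    · exact hD h2
  obtain ⟨n0, Q, hQ, j0, hj0⟩ := divide P hP0
  have hQsum : ∑ j, aeval Real.pi (Q j) * v j = 0 := by
    have h1 : ∑ j, aeval Real.pi (P j) * v j = Real.pi ^ n0 * ∑ j, aeval Real.pi (Q j) * v j := by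
      rw [Finset.mul_sum]
      apply Finset.sum_congr rfl
      intro j _
      rw [hQ j, map_mul, map_pow, aeval_X]
      ring
    rw [h1] at hPsum
    exact (mul_eq_zero.1 hPsum).resolve_left (pow_ne_zero _ Real.pi_ne_zero)
  choose E O hEO using fun j => even_odd (Q j)
  -- the polynomials in several variables
  obtain ⟨V, hV⟩ : ∃ V : Fin (m + 1) → MvPolynomial (Fin (m + 1)) ℚ,
      V = Fin.cons 1 (fun i => MvPolynomial.X (Fin.succ i)) := ⟨_, rfl⟩
  obtain ⟨Y, hY⟩ : ∃ Y : MvPolynomial (Fin (m + 1)) ℚ, Y = 6 * MvPolynomial.X 0 := ⟨_, rfl⟩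
  obtain ⟨A, hA⟩ : ∃ A : MvPolynomial (Fin (m + 1)) ℚ, A = ∑ j, aeval Y (E j) * V j := ⟨_, rfl⟩
  obtain ⟨B, hB⟩ : ∃ B : MvPolynomial (Fin (m + 1)) ℚ, B = ∑ j, aeval Y (O j) * V j := ⟨_, rfl⟩
  -- real values
  obtain ⟨φ, hφ⟩ : ∃ φ : MvPolynomial (Fin (m + 1)) ℚ →ₐ[ℚ] ℝ,
      φ = MvPolynomial.aeval (fun i => zetaR ((Fin.cons 2 k : Fin (m + 1) → ℕ) i)) := ⟨_, rfl⟩
  obtain ⟨ψ, hψ⟩ : ∃ ψ : MvPolynomial (Fin (m + 1)) ℚ →ₐ[ℚ] ℚ_[p],
      ψ = MvPolynomial.aeval (fun i => zetaP p ((Fin.cons 2 k : Fin (m + 1) → ℕ) i)) := ⟨_, rfl⟩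
  have φV : ∀ j, φ (V j) = v j := by
    intro j
    rw [hV, hv, hφ]
    refine Fin.cases ?_ (fun i => ?_) j
    · rw [Fin.cons_zero, Fin.cons_zero, map_one]
    · rw [Fin.cons_succ, Fin.cons_succ, MvPolynomial.aeval_X, Fin.cons_succ]
  have φY : φ Y = Real.pi ^ 2 := by
    rw [hY, hφ, map_mul, MvPolynomial.aeval_X, Fin.cons_zero, zetaR_two, map_ofNat]
    ring
  have ψV : ∀ j, ψ (V j) = (Fin.cons 1 (fun i => zetaP p (k i)) : Fin (m + 1) → ℚ_[p]) j := by
    intro j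
    rw [hV, hψ]
    refine Fin.cases ?_ (fun i => ?_) j
    · rw [Fin.cons_zero, Fin.cons_zero, map_one]
    · rw [Fin.cons_succ, Fin.cons_succ, MvPolynomial.aeval_X, Fin.cons_succ]
  have ψY : ψ Y = 0 := by
    rw [hY, hψ, map_mul, MvPolynomial.aeval_X, Fin.cons_zero, zetaP_even even_two (le_refl 2), mul_zero]
  have φp : ∀ R : ℚ[X], φ (aeval Y R) = aeval (Real.pi ^ 2) R := by
    intro R
    rw [← φY, aeval_algHom_apply]
  have ψp : ∀ R : ℚ[X], ψ (aeval Y R) = ((R.coeff 0 : ℚ) : ℚ_[p]) := by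
    intro R
    rw [← aeval_algHom_apply, ψY, ← coeff_zero_eq_aeval_zero']
    rfl
  have hexp : ∀ R : ℚ[X], aeval Real.pi (expand ℚ 2 R) = aeval (Real.pi ^ 2) R := by
    intro R
    rw [expand_aeval]
  have hAB : φ A + Real.pi * φ B = 0 := by
    rw [hA, hB, map_sum, map_sum, Finset.mul_sum, ← Finset.sum_add_distrib, ← hQsum]
    apply Finset.sum_congr rfl
    intro j _
    rw [map_mul, map_mul, φp, φp, φV]
    conv_rhs => rw [hEO j, map_add, map_mul, hexp, hexp, aeval_X]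
    ring
  have hrel : φ (A ^ 2 - Y * B ^ 2) = 0 := by
    rw [map_sub, map_mul, map_pow, map_pow, φY]
    have h1 : φ A = - (Real.pi * φ B) := by linarith
    rw [h1]
    ring
  rw [hφ] at hrel
  have h2 := hT _ hrel
  rw [← hψ, map_sub, map_mul, ψY, zero_mul, sub_zero, map_pow] at h2
  have h3 : ψ A = 0 := pow_eq_zero_iff (two_ne_zero) |>.1 h2
  rw [hA, map_sum] at h3
  have h4 : ∑ j, (E j).coeff 0 • (Fin.cons 1 (fun i => zetaP p (k i)) : Fin (m + 1) → ℚ_[p]) j = 0 := by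
    rw [← h3]
    apply Finset.sum_congr rfl
    intro j _
    rw [map_mul, ψp, ψV, Rat.smul_def]
  have h5 := Fintype.linearIndependent_iff.1 hli (fun j => (E j).coeff 0) h4 j0
  apply hj0
  rw [hEO j0, coeff_add, mul_comm X, coeff_mul_X_zero, add_zero]
  have h6 : (expand ℚ 2 (E j0)).coeff 0 = (E j0).coeff 0 := by
    have := coeff_expand_mul (R := ℚ) (p := 2) (by norm_num) (E j0) 0
    rwa [zero_mul] at this
  rw [h6]
  exact h5

end Pool.Agent.Work.MP_03df5c_pb
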