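import Pool.Agent.Work.MP_03df5c_pb.Interface3

/-!
# Item (a): the common inequality of the dimensions (helper29)
-/

open Finset Filter Topology

namespace Pool.Agent.Work.MP_03df5c_pb

open Pool.Agent.Work.MP_03df5c_h91

/-- A: the dimension over `ℚ(x)` of the span of `1, ζ(k_1), …, ζ(k_m)` is at least the dimension over `ℚ` of the span of
`1, ζ_p(k_1), …, ζ_p(k_m)`, for all `x ≠ 0` in `π ℚ[π, ζ(k_1), …, ζ(k_m)]`. -/
def S_A : Prop := ∀ (p : ℕ) [Fact p.Prime] (m : ℕ) (k : Fin m → ℕ), (∀ i, 3 ≤ k i ∧ Odd (k i)) →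
  Transfers (m + 1) (Fin.cons 2 k) p →
  ∀ y ∈ Algebra.adjoin ℚ ({Real.pi} ∪ Set.range (fun i => zetaR (k i))), Real.pi * y ≠ 0 →
    Module.finrank ℚ (Submodule.span ℚ ({(1 : ℚ_[p])} ∪ Set.range (fun i => zetaP p (k i)))) ≤
      Module.finrank (IntermediateField.adjoin ℚ {Real.pi * y})
        (Submodule.span (IntermediateField.adjoin ℚ {Real.pi * y})
          ({(1 : ℝ)} ∪ Set.range (fun i => zetaR (k i))))

/-- a spanning set which is the union of `{1}` and a finite family contains an independent family with `1` of the size of the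
dimension -/
theorem BA.extract {A : Type*} [Field A] [Algebra ℚ A] {m : ℕ} (g : Fin m → A) :
    ∃ (n : ℕ) (e : Fin n → Fin m), LinearIndependent ℚ (Fin.cons 1 (fun i => g (e i)) : Fin (n + 1) → A) ∧
      Module.finrank ℚ (Submodule.span ℚ ({(1 : A)} ∪ Set.range g)) = n + 1 := by
  classical
  set W : Set A := {(1 : A)} ∪ Set.range g with hW
  have hWf : W.Finite := (Set.finite_singleton _).union (Set.finite_range g)
  have h1 : LinearIndepOn ℚ id ({(1 : A)} : Set A) := by
    have h := (LinearIndepOn.singleton (R := ℚ) (v := (id : A → A)) (i := (1 : A)))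
    exact h one_ne_zero
  obtain ⟨b, hbW, h1b, hspan, hb⟩ :=
    exists_linearIndepOn_id_extension h1 (t := W) (by rw [hW]; exact Set.subset_union_left)
  have hone : (1 : A) ∈ b := h1b rfl
  have hbf : b.Finite := hWf.subset hbW
  have hsp : Submodule.span ℚ W = Submodule.span ℚ b :=
    le_antisymm (Submodule.span_le.2 hspan) (Submodule.span_mono hbW)
  set T : Finset A := hbf.toFinset.erase 1 with hT
  have hTb : ∀ x ∈ T, x ∈ b ∧ x ≠ 1 := by
    intro x hx
    rw [hT, Finset.mem_erase, Set.Finite.mem_toFinset] at hx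
    exact ⟨hx.2, hx.1⟩
  have hex : ∀ i : Fin T.card, ∃ j : Fin m, ((T.equivFin.symm i : T) : A) = g j := by
    intro i
    obtain ⟨h2, h3⟩ := hTb _ (T.equivFin.symm i).2
    rcases hbW h2 with h4 | ⟨j, h4⟩
    · exact absurd h4 h3
    · exact ⟨j, h4.symm⟩
  choose k hk4 using hex
  set f : Fin (T.card + 1) → b :=
    Fin.cons ⟨1, hone⟩ (fun i => ⟨(T.equivFin.symm i : T), (hTb _ (T.equivFin.symm i).2).1⟩) with hf
  have hfi : Function.Injective f := by
    intro i j hij
    induction i using Fin.cases with
    | zero =>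
      induction j using Fin.cases with
      | zero => rfl
      | succ j =>
        exfalso
        rw [hf, Fin.cons_zero, Fin.cons_succ] at hij
        exact (hTb _ (T.equivFin.symm j).2).2 (congrArg Subtype.val hij).symm
    | succ i =>
      induction j using Fin.cases with
      | zero =>
        exfalso
        rw [hf, Fin.cons_zero, Fin.cons_succ] at hij
        exact (hTb _ (T.equivFin.symm i).2).2 (congrArg Subtype.val hij)
      | succ j =>
        rw [hf, Fin.cons_succ, Fin.cons_succ] at hij
        have h4 := Subtype.ext_iff.1 hij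
        have h5 : ((T.equivFin.symm i : T) : A) = ((T.equivFin.symm j : T) : A) := h4
        rw [T.equivFin.symm.injective (Subtype.ext h5)]
  have hLI : LinearIndependent ℚ (Fin.cons 1 (fun i => g (k i)) : Fin (T.card + 1) → A) := by
    have h6 := LinearIndependent.comp hb f hfi
    have h7 : (fun x : b => id (x : A)) ∘ f = Fin.cons 1 (fun i => g (k i)) := by
      funext i
      induction i using Fin.cases with
      | zero => rfl
      | succ i =>
        change ((T.equivFin.symm i : T) : A) = g (k i)
        exact hk4 i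
    rw [← h7]
    exact h6
  refine ⟨T.card, k, hLI, ?_⟩
  rw [hsp]
  have : Fintype b := hbf.fintype
  have h9 : Module.finrank ℚ (Submodule.span ℚ b) = b.toFinset.card :=
    finrank_span_set_eq_card hb
  rw [h9, hT, Finset.card_erase_of_mem (by rw [Set.Finite.mem_toFinset]; exact hone)]
  have h10 : hbf.toFinset = b.toFinset := by
    ext x; simp
  have h11 : 0 < b.toFinset.card := Finset.card_pos.2 ⟨1, by simpa using hone⟩
  rw [h10]
  omega

theorem p_A (hT2 : S_T2) : S_A := by
  intro p hp m k hk hT y hy hy0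
  obtain ⟨n, e, hLI, hfin⟩ := BA.extract (fun i => zetaP p (k i))
  have h1 := hT2 p m k hk hT y hy hy0 n e hLI
  rw [hfin]
  have hWf : ({(1 : ℝ)} ∪ Set.range (fun i => zetaR (k i)) : Set ℝ).Finite :=
    (Set.finite_singleton _).union (Set.finite_range _)
  have := FiniteDimensional.span_of_finite (IntermediateField.adjoin ℚ {Real.pi * y}) hWf
  have h2 := finrank_span_eq_card h1
  rw [Fintype.card_fin] at h2
  rw [← h2]
  refine Submodule.finrank_mono (Submodule.span_mono ?_)
  rintro x ⟨i, rfl⟩
  induction i using Fin.cases with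
  | zero => exact Or.inl rfl
  | succ i => exact Or.inr ⟨e i, rfl⟩

end Pool.Agent.Work.MP_03df5c_pb
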