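import Pool.Agent.Work.MP_03df5c_pb.Interface1

/-! # Block C1: pigeonhole (helper96) -/

open Finset

namespace Pool.Agent.Work.MP_03df5c_pb

theorem p_C1 : S_C1 := by
  intro p _ m η hη h0 N H hcard
  let z : Fin (m + 1) → ℤ_[p] := fun i => ⟨η i, hη i⟩
  let f : (Fin (m + 1) → Fin (H + 1)) → (Fin m → ZMod (p ^ N)) := fun e i =>
    PadicInt.toZModPow N (((e i.succ : ℕ) : ℤ_[p]) - ((e 0 : ℕ) : ℤ_[p]) * z i.succ)
  haveI : NeZero (p ^ N) := ⟨pow_ne_zero _ (Fact.out : p.Prime).ne_zero⟩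
  haveI : Fintype (ZMod (p ^ N)) := ZMod.fintype _
  have hc : Fintype.card (Fin m → ZMod (p ^ N)) < Fintype.card (Fin (m + 1) → Fin (H + 1)) := by
    rw [Fintype.card_fun, Fintype.card_fun, ZMod.card, Fintype.card_fin, Fintype.card_fin,
      Fintype.card_fin, ← pow_mul]
    exact hcard
  obtain ⟨e, e', hne, hfe⟩ := Fintype.exists_ne_map_eq_of_card_lt f hc
  refine ⟨fun i => ((e i : ℕ) : ℤ) - ((e' i : ℕ) : ℤ), ?_, ?_, ?_⟩
  · intro h
    apply hne
    funext i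
    apply Fin.ext
    have := congrFun h i
    simp only [Pi.zero_apply] at this
    omega
  · intro i
    have h1 := (e i).2
    have h2 := (e' i).2
    change |((e i : ℕ) : ℤ) - ((e' i : ℕ) : ℤ)| ≤ (H : ℤ)
    rw [abs_le]
    constructor <;> omega
  · intro i
    refine Fin.cases ?_ ?_ i
    · rw [h0, mul_one, sub_self, norm_zero]
      positivity
    · intro j
      have h1 := congrFun hfe j
      have h2 : PadicInt.toZModPow N ((((e j.succ : ℕ) : ℤ_[p]) - ((e 0 : ℕ) : ℤ_[p]) * z j.succ) -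
          (((e' j.succ : ℕ) : ℤ_[p]) - ((e' 0 : ℕ) : ℤ_[p]) * z j.succ)) = 0 := by
        rw [map_sub, sub_eq_zero]
        exact h1
      have h3 : ((((e j.succ : ℕ) : ℤ_[p]) - ((e 0 : ℕ) : ℤ_[p]) * z j.succ) -
          (((e' j.succ : ℕ) : ℤ_[p]) - ((e' 0 : ℕ) : ℤ_[p]) * z j.succ)) ∈
          Ideal.span {(p : ℤ_[p]) ^ N} := by
        rw [← PadicInt.ker_toZModPow, RingHom.mem_ker]
        exact h2
      have h4 := (PadicInt.norm_le_pow_iff_mem_span_pow _ N).2 h3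
      rw [PadicInt.norm_def] at h4
      rw [zpow_neg, zpow_natCast] at h4
      refine le_trans (le_of_eq ?_) h4
      congr 1
      push_cast
      change _ = ((e j.succ : ℕ) : ℚ_[p]) - ((e 0 : ℕ) : ℚ_[p]) * η j.succ -
        (((e' j.succ : ℕ) : ℚ_[p]) - ((e' 0 : ℕ) : ℚ_[p]) * η j.succ)
      ring

end Pool.Agent.Work.MP_03df5c_pb
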