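import Pool.Agent.Work.MP_03df5c_pb.Interface1

/-!
# Block C2: primitive approximations
-/

open Finset Filter Topology

namespace Pool.Agent.Work.MP_03df5c_pb

namespace BC2

theorem dvd_of_norm (p : ℕ) [hp : Fact p.Prime] (z : ℤ) (v : ℕ)
    (h : ‖(z : ℚ_[p])‖ ≤ ((p : ℝ) ^ v)⁻¹) : (p : ℤ) ^ v ∣ z := by
  have h1 := (Padic.norm_int_le_pow_iff_dvd (p := p) z v).1 (by
    rw [zpow_neg, zpow_natCast]
    exact h)
  exact_mod_cast h1

theorem norm_pow_nat (p : ℕ) [hp : Fact p.Prime] (v : ℕ) :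
    ‖((p : ℚ_[p]) ^ v)‖ = ((p : ℝ) ^ v)⁻¹ := by
  rw [norm_pow, Padic.norm_p, inv_pow]

end BC2

open BC2 in
theorem p_C2 (h1 : S_C1) : S_C2 := by
  intro p hp m η hη h0 M0
  have hp1 : 1 < p := hp.out.one_lt
  have hp0 : 0 < p := hp.out.pos
  have hpR : (1 : ℝ) < p := by exact_mod_cast hp1
  have hpR0 : (0 : ℝ) < p := by linarith
  set M1 := max M0 1 with hM1
  have hM1' : 1 ≤ M1 := le_max_right _ _
  have hM0 : M0 ≤ M1 := le_max_left _ _
  set N0 := (m + 1) * M1 with hN0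
  have hpow : p ^ (N0 * m) < (p ^ (m * M1) + 1) ^ (m + 1) := by
    have e : p ^ (N0 * m) = (p ^ (m * M1)) ^ (m + 1) := by
      rw [← pow_mul]
      congr 1
      rw [hN0]
      ring
    rw [e]
    exact Nat.pow_lt_pow_left (Nat.lt_succ_self _) (Nat.succ_ne_zero m)
  obtain ⟨e, he, hb, ha⟩ := h1 p m η hη h0 N0 (p ^ (m * M1)) hpow
  -- `e 0 ≠ 0`
  have hlt : m * M1 < N0 := by
    rw [hN0, add_mul, one_mul]
    omega
  have he0 : e 0 ≠ 0 := by
    intro hz
    apply he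
    funext i
    have h2 := ha i
    rw [hz, Int.cast_zero, zero_mul, sub_zero] at h2
    have h3 := dvd_of_norm p (e i) N0 h2
    by_contra hne
    have h4 := Int.le_of_dvd (abs_pos.2 hne) ((dvd_abs _ _).2 h3)
    have h5 := hb i
    have h6 : ((p ^ (m * M1) : ℕ) : ℤ) < (p : ℤ) ^ N0 := by
      push_cast
      exact pow_lt_pow_right₀ (by exact_mod_cast hp1) hlt
    omega
  set v := padicValInt p (e 0) with hv
  have hv0 : (p : ℤ) ^ v ∣ e 0 := padicValInt_dvd (p := p) (e 0)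
  have hv1 : ¬ (p : ℤ) ^ (v + 1) ∣ e 0 := by
    intro h2
    have := (padicValInt_dvd_iff (p := p) (v + 1) (e 0)).1 h2
    rcases this with h3 | h3
    · exact he0 h3
    · omega
  have hvle : v ≤ m * M1 := by
    have h4 := Int.le_of_dvd (abs_pos.2 he0) ((dvd_abs _ _).2 hv0)
    have h5 := hb 0
    have h6 : (p : ℤ) ^ v ≤ (p : ℤ) ^ (m * M1) := by
      refine h4.trans (h5.trans ?_)
      push_cast
      exact le_refl _
    exact (pow_le_pow_iff_right₀ (by exact_mod_cast hp1)).1 h6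
  have hdv : ∀ i, (p : ℤ) ^ v ∣ e i := by
    intro i
    apply dvd_of_norm
    have h2 : (e i : ℚ_[p]) = ((e i : ℚ_[p]) - (e 0 : ℚ_[p]) * η i) + (e 0 : ℚ_[p]) * η i := by ring
    rw [h2]
    refine (Padic.nonarchimedean _ _).trans (max_le ?_ ?_)
    · refine (ha i).trans ?_
      apply inv_anti₀ (by positivity)
      exact pow_le_pow_right₀ hpR.le (by omega)
    · rw [norm_mul]
      obtain ⟨c, hc⟩ := hv0
      have h3 : ‖(e 0 : ℚ_[p])‖ ≤ ((p : ℝ) ^ v)⁻¹ := by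
        rw [hc]
        push_cast
        rw [norm_mul, norm_pow_nat]
        exact mul_le_of_le_one_right (by positivity) (Padic.norm_int_le_one c)
      calc ‖(e 0 : ℚ_[p])‖ * ‖η i‖ ≤ ((p : ℝ) ^ v)⁻¹ * 1 :=
            mul_le_mul h3 (hη i) (norm_nonneg _) (by positivity)
        _ = _ := mul_one _
  choose e' he' using hdv
  have hpv : (0 : ℝ) < (p : ℝ) ^ v := by positivity
  have hpvQ : ((p : ℚ_[p]) ^ v) ≠ 0 := pow_ne_zero _ (by exact_mod_cast hp0.ne')
  refine ⟨N0 - v, ?_, e', ?_, ?_, ?_⟩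
  · rw [hN0, add_mul, one_mul]
    omega
  · intro h2
    apply hv1
    rw [he' 0, pow_succ]
    exact mul_dvd_mul_left _ h2
  · intro i
    have h2 : |(e i : ℝ)| ≤ (p : ℝ) ^ (m * M1) := by
      have := hb i
      have h3 : ((|e i| : ℤ) : ℝ) ≤ (((p ^ (m * M1) : ℕ) : ℤ) : ℝ) := by exact_mod_cast this
      rw [Int.cast_abs] at h3
      refine h3.trans (le_of_eq ?_)
      push_cast
      rfl
    have h3 : |(e i : ℝ)| = (p : ℝ) ^ v * |(e' i : ℝ)| := by
      rw [he' i]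
      push_cast
      rw [abs_mul, abs_of_pos hpv]
    have h4 : |(e' i : ℝ)| ≤ (p : ℝ) ^ (m * M1 - v) := by
      rw [h3] at h2
      have h5 : (p : ℝ) ^ (m * M1) = (p : ℝ) ^ v * (p : ℝ) ^ (m * M1 - v) := by
        rw [← pow_add]
        congr 1
        omega
      rw [h5] at h2
      exact le_of_mul_le_mul_left h2 hpv
    refine h4.trans ?_
    rw [← Real.rpow_natCast]
    apply Real.rpow_le_rpow_of_exponent_le hpR.le
    rw [Nat.cast_sub hvle, Nat.cast_sub (by omega : v ≤ N0)]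
    have h6 : (N0 : ℝ) = ((m : ℝ) + 1) * M1 := by
      rw [hN0]
      push_cast
      ring
    have hm1 : (0 : ℝ) < (m : ℝ) + 1 := by positivity
    rw [h6]
    push_cast
    have h7 : (((m : ℝ) + 1) * M1 - v) * ((m : ℝ) / ((m : ℝ) + 1)) =
        (m : ℝ) * M1 - v * ((m : ℝ) / ((m : ℝ) + 1)) := by
      field_simp
    rw [h7]
    have h8 : (m : ℝ) / ((m : ℝ) + 1) ≤ 1 := by
      rw [div_le_one hm1]
      linarith
    have h9 : (0 : ℝ) ≤ v := by positivity
    nlinarith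
  · intro i
    have h2 := ha i
    have h3 : (e i : ℚ_[p]) - (e 0 : ℚ_[p]) * η i =
        (p : ℚ_[p]) ^ v * ((e' i : ℚ_[p]) - (e' 0 : ℚ_[p]) * η i) := by
      rw [he' i, he' 0]
      push_cast
      ring
    rw [h3, norm_mul, norm_pow_nat] at h2
    have h4 : ((p : ℝ) ^ N0)⁻¹ = ((p : ℝ) ^ v)⁻¹ * ((p : ℝ) ^ (N0 - v))⁻¹ := by
      rw [← mul_inv, ← pow_add]
      congr 2
      omega
    rw [h4] at h2
    exact le_of_mul_le_mul_left h2 (by positivity)

end Pool.Agent.Work.MP_03df5c_pb
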