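import Pool.Agent.Work.MP_03df5c_pb.Interface1

/-!
# Block C3: the criterion for a family containing `1`
-/

set_option autoImplicit false

open Finset Filter Topology

namespace Pool.Agent.Work.MP_03df5c_pb

namespace BC3

/-- growth: a linear function beats a logarithm -/
theorem eventually_lin (δ c1 b : ℝ) (hδ : 0 < δ) (hb : 0 ≤ b) :
    ∃ K0 : ℕ, 1 ≤ K0 ∧ ∀ K : ℕ, K0 ≤ K → c1 + b * Real.log ((K : ℝ) + 1) < δ * K := by
  have h1 : Tendsto (fun x : ℝ => Real.log x ^ 1 / (1 * x + (-1))) atTop (𝓝 0) :=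
    Real.tendsto_pow_log_div_mul_add_atTop 1 (-1) 1 one_ne_zero
  have h2 : Tendsto (fun K : ℕ => (K : ℝ) + 1) atTop atTop :=
    tendsto_atTop_add_const_right _ _ tendsto_natCast_atTop_atTop
  have h3 := h1.comp h2
  have hε : 0 < δ / (2 * (b + 1)) := by positivity
  have h4 : ∀ᶠ K : ℕ in atTop, Real.log ((K : ℝ) + 1) ^ 1 / (1 * ((K : ℝ) + 1) + (-1)) < δ / (2 * (b + 1)) :=
    h3.eventually (gt_mem_nhds hε)
  have h5 : ∀ᶠ K : ℕ in atTop, 2 * c1 / δ < (K : ℝ) :=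
    tendsto_natCast_atTop_atTop.eventually (eventually_gt_atTop _)
  obtain ⟨K0, hK0⟩ := (h4.and (h5.and (eventually_ge_atTop 1))).exists_forall_of_atTop
  refine ⟨max K0 1, le_max_right _ _, fun K hK => ?_⟩
  obtain ⟨h6, h7, h8⟩ := hK0 K (le_trans (le_max_left _ _) hK)
  have hKpos : (0 : ℝ) < K := by exact_mod_cast h8
  rw [pow_one, one_mul, add_neg_cancel_right, div_lt_iff₀ hKpos] at h6
  have hlog : 0 ≤ Real.log ((K : ℝ) + 1) := Real.log_nonneg (by linarith)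
  have h9 : b * Real.log ((K : ℝ) + 1) ≤ δ / 2 * K := by
    have h10 : b * Real.log ((K : ℝ) + 1) ≤ (b + 1) * (δ / (2 * (b + 1)) * K) := by
      apply mul_le_mul (by linarith) h6.le hlog (by linarith)
    have h11 : (b + 1) * (δ / (2 * (b + 1)) * K) = δ / 2 * K := by
      field_simp
    linarith
  have h12 : c1 < δ / 2 * K := by
    rw [div_lt_iff₀ hδ] at h7
    linarith
  linarith

/-- the integer `∑ c e` -/
theorem arith (p : ℕ) [Fact p.Prime] (m : ℕ) (η : Fin (m + 1) → ℚ_[p]) (c e : Fin (m + 1) → ℤ) (s N : ℕ)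
    (hs : ‖∑ i, (c i : ℚ_[p]) * η i‖ = ((p : ℝ) ^ s)⁻¹) (he : ¬ (p : ℤ) ∣ e 0)
    (hN : s < N) (hη : ∀ i, ‖(e i : ℚ_[p]) - (e 0 : ℚ_[p]) * η i‖ ≤ ((p : ℝ) ^ N)⁻¹) :
    (p : ℝ) ^ s ≤ |((∑ i, c i * e i : ℤ) : ℝ)| := by
  have hp1 : (1 : ℝ) < p := by exact_mod_cast (Fact.out : p.Prime).one_lt
  have hp0 : (0 : ℝ) < p := by linarith
  have h0 : ‖(e 0 : ℚ_[p])‖ = 1 := by
    apply le_antisymm (Padic.norm_int_le_one _)
    by_contra h
    push Not at h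
    exact he (Padic.norm_intCast_lt_one_iff.1 h)
  have e1 : ((∑ i, c i * e i : ℤ) : ℚ_[p]) = (e 0 : ℚ_[p]) * ∑ i, (c i : ℚ_[p]) * η i +
      ∑ i, (c i : ℚ_[p]) * ((e i : ℚ_[p]) - (e 0 : ℚ_[p]) * η i) := by
    push_cast
    rw [mul_sum, ← sum_add_distrib]
    apply sum_congr rfl
    intro i _
    ring
  have h1 : ‖(e 0 : ℚ_[p]) * ∑ i, (c i : ℚ_[p]) * η i‖ = ((p : ℝ) ^ s)⁻¹ := by
    rw [norm_mul, h0, one_mul, hs]
  have h2 : ‖∑ i, (c i : ℚ_[p]) * ((e i : ℚ_[p]) - (e 0 : ℚ_[p]) * η i)‖ ≤ ((p : ℝ) ^ N)⁻¹ := by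
    apply IsUltrametricDist.norm_sum_le_of_forall_le_of_nonneg (by positivity)
    intro i _
    rw [norm_mul]
    calc ‖(c i : ℚ_[p])‖ * ‖(e i : ℚ_[p]) - (e 0 : ℚ_[p]) * η i‖ ≤ 1 * ((p : ℝ) ^ N)⁻¹ := by
          apply mul_le_mul (Padic.norm_int_le_one _) (hη i) (norm_nonneg _) zero_le_one
      _ = _ := one_mul _
  have h3 : ((p : ℝ) ^ N)⁻¹ < ((p : ℝ) ^ s)⁻¹ := by
    apply inv_strictAnti₀ (by positivity)
    exact pow_lt_pow_right₀ hp1 hN
  have h4 : ‖((∑ i, c i * e i : ℤ) : ℚ_[p])‖ = ((p : ℝ) ^ s)⁻¹ := by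
    rw [e1, Padic.add_eq_max_of_ne (by rw [h1]; exact ne_of_gt (lt_of_le_of_lt h2 h3)), h1]
    exact max_eq_left (le_trans h2 h3.le)
  have h5 : (∑ i, c i * e i : ℤ) ≠ 0 := by
    intro h
    rw [h, Int.cast_zero, norm_zero] at h4
    have : (0 : ℝ) < ((p : ℝ) ^ s)⁻¹ := by positivity
    linarith
  have h6 : ((p : ℤ) ^ s) ∣ (∑ i, c i * e i : ℤ) := by
    rw [← Padic.norm_int_le_pow_iff_dvd, h4]
    rw [zpow_neg, zpow_natCast]
  have h7 : ((p : ℤ) ^ s) ≤ |(∑ i, c i * e i : ℤ)| :=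
    Int.le_of_dvd (abs_pos.2 h5) ((dvd_abs _ _).2 h6)
  have h8 : (((p : ℤ) ^ s : ℤ) : ℝ) ≤ ((|(∑ i, c i * e i : ℤ)| : ℤ) : ℝ) := by exact_mod_cast h7
  push_cast at h8 ⊢
  exact h8

end BC3

open BC3 in
theorem p_C3 (h2 : S_C2) : S_C3 := by
  intro p _ m η hη h0 c ψ α β C n0 hα hβ hn hψ hstep hc
  have hpp : p.Prime := Fact.out
  have hp1 : (1 : ℝ) < p := by exact_mod_cast hpp.one_lt
  have hp0 : (0 : ℝ) < p := by linarith
  have hL : 0 < Real.log p := Real.log_pos hp1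
  by_contra hcon
  push Not at hcon
  have hm : (0 : ℝ) < (m : ℝ) + 1 := by positivity
  set δ : ℝ := α * Real.log p / ((m : ℝ) + 1) - β with hδdef
  have hδ : 0 < δ := by
    rw [hδdef, sub_pos, lt_div_iff₀ hm]
    exact hcon
  obtain ⟨K0, hK01, hK0⟩ := eventually_lin δ (Real.log (((m : ℝ) + 1) * C) + n0 * Real.log p) (2 * n0) hδ
    (by positivity)
  obtain ⟨N, hN, e, he0, he1, he2⟩ := h2 p m η hη h0 (ψ K0 + 1)
  -- the index `K`
  have hex : ∃ n, K0 ≤ n ∧ N ≤ ψ n := by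
    obtain ⟨n, hn1⟩ := exists_nat_gt ((N : ℝ) / α)
    refine ⟨max n K0, le_max_right _ _, ?_⟩
    have h3 := hψ (max n K0) (le_trans hK01 (le_max_right _ _))
    have h4 : (N : ℝ) ≤ α * ((max n K0 : ℕ) : ℝ) := by
      rw [div_lt_iff₀ hα] at hn1
      have h5 : (n : ℝ) ≤ ((max n K0 : ℕ) : ℝ) := by exact_mod_cast le_max_left n K0
      have h6 : α * (n : ℝ) ≤ α * ((max n K0 : ℕ) : ℝ) := mul_le_mul_of_nonneg_left h5 hα.le
      linarith
    exact_mod_cast le_trans h4 h3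
  obtain ⟨n, ⟨hn1, hn2⟩, hmin⟩ : ∃ n, (K0 ≤ n ∧ N ≤ ψ n) ∧ ∀ n' < n, ¬ (K0 ≤ n' ∧ N ≤ ψ n') := by
    classical
    exact ⟨Nat.find hex, Nat.find_spec hex, fun n' h => Nat.find_min hex h⟩
  have hne : n ≠ K0 := by
    rintro rfl
    omega
  obtain ⟨K, rfl⟩ : ∃ K, n = K + 1 := ⟨n - 1, by omega⟩
  have hKK : K0 ≤ K := by omega
  have hK1 : 1 ≤ K := le_trans hK01 hKK
  have hKN : ψ K < N := by
    by_contra h
    exact hmin K (by omega) ⟨hKK, by omega⟩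
  have hKpos : (0 : ℝ) < K := by exact_mod_cast hK1
  have hA := arith p m η (c K) e (ψ K) N (hn K hK1) he0 hKN he2
  -- the upper bound
  have hB : |((∑ i, c K i * e i : ℤ) : ℝ)| ≤ ((m : ℝ) + 1) *
      ((C * ((K : ℝ) + 1) ^ n0 * Real.exp (β * K)) * (p : ℝ) ^ ((N : ℝ) * (m / (m + 1)))) := by
    push_cast
    calc |∑ i, (c K i : ℝ) * (e i : ℝ)| ≤ ∑ i, |(c K i : ℝ) * (e i : ℝ)| := abs_sum_le_sum_abs _ _
      _ ≤ ∑ _i : Fin (m + 1), ((C * ((K : ℝ) + 1) ^ n0 * Real.exp (β * K)) * (p : ℝ) ^ ((N : ℝ) * (m / (m + 1)))) := by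
          apply sum_le_sum
          intro i _
          rw [abs_mul]
          exact mul_le_mul (hc K hK1 i) (he1 i) (abs_nonneg _) (le_trans (abs_nonneg _) (hc K hK1 i))
      _ = _ := by
          rw [sum_const, card_univ, Fintype.card_fin, nsmul_eq_mul]
          push_cast
          ring
  have hAB := le_trans hA hB
  have hpos : (0 : ℝ) < (p : ℝ) ^ ψ K := by positivity
  have hC : 0 < C := by
    by_contra h
    push Not at h
    have h5 : ((m : ℝ) + 1) * ((C * ((K : ℝ) + 1) ^ n0 * Real.exp (β * K)) * (p : ℝ) ^ ((N : ℝ) * (m / (m + 1)))) ≤ 0 := by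
      apply mul_nonpos_of_nonneg_of_nonpos hm.le
      apply mul_nonpos_of_nonpos_of_nonneg
      · apply mul_nonpos_of_nonpos_of_nonneg
        · apply mul_nonpos_of_nonpos_of_nonneg h
          positivity
        · positivity
      · positivity
    linarith
  have hlog := Real.log_le_log hpos hAB
  have hexp : Real.log (((m : ℝ) + 1) * ((C * ((K : ℝ) + 1) ^ n0 * Real.exp (β * K)) *
      (p : ℝ) ^ ((N : ℝ) * (m / (m + 1))))) = Real.log (((m : ℝ) + 1) * C) + n0 * Real.log ((K : ℝ) + 1) + β * K +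
        ((N : ℝ) * (m / (m + 1))) * Real.log p := by
    have e1 : ((m : ℝ) + 1) * ((C * ((K : ℝ) + 1) ^ n0 * Real.exp (β * K)) * (p : ℝ) ^ ((N : ℝ) * (m / (m + 1)))) =
        (((m : ℝ) + 1) * C) * ((K : ℝ) + 1) ^ n0 * Real.exp (β * K) * (p : ℝ) ^ ((N : ℝ) * (m / (m + 1))) := by ring
    rw [e1, Real.log_mul (by positivity) (by positivity), Real.log_mul (by positivity) (by positivity),
      Real.log_mul (by positivity) (by positivity), Real.log_pow, Real.log_exp, Real.log_rpow hp0]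
  rw [hexp, Real.log_pow] at hlog
  -- `N` against `ψ K`
  have hNK : N ≤ ψ K + n0 * (Nat.log p (K + 1) + 1) := le_trans hn2 (hstep K hK1)
  have hlogn : (Nat.log p (K + 1) : ℝ) * Real.log p ≤ Real.log ((K : ℝ) + 1) := by
    have h5 : p ^ Nat.log p (K + 1) ≤ K + 1 := Nat.pow_log_le_self p (by omega)
    have h6 : ((p : ℝ) ^ Nat.log p (K + 1)) ≤ (K : ℝ) + 1 := by exact_mod_cast h5
    have h7 := Real.log_le_log (by positivity) h6
    rwa [Real.log_pow] at h7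
  have hNR : (N : ℝ) ≤ ψ K + n0 * (Nat.log p (K + 1) + 1) := by exact_mod_cast hNK
  have hn0 : (0 : ℝ) ≤ n0 := by positivity
  have hNL : (N : ℝ) * Real.log p ≤ ψ K * Real.log p + n0 * (Real.log ((K : ℝ) + 1) + Real.log p) := by
    have h5 := mul_le_mul_of_nonneg_right hNR hL.le
    have h6 : (n0 : ℝ) * ((Nat.log p (K + 1) : ℝ) * Real.log p) ≤ n0 * Real.log ((K : ℝ) + 1) :=
      mul_le_mul_of_nonneg_left hlogn hn0
    nlinarith
  have hμ0 : 0 ≤ (m : ℝ) / (m + 1) := by positivity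
  have hμ1 : (m : ℝ) / (m + 1) ≤ 1 := by
    rw [div_le_one hm]
    linarith
  have hlK : 0 ≤ Real.log ((K : ℝ) + 1) := Real.log_nonneg (by linarith)
  have hmain : (ψ K : ℝ) * Real.log p * (1 - (m : ℝ) / (m + 1)) ≤
      Real.log (((m : ℝ) + 1) * C) + n0 * Real.log ((K : ℝ) + 1) + β * K +
        n0 * (Real.log ((K : ℝ) + 1) + Real.log p) := by
    have h5 : ((N : ℝ) * Real.log p) * ((m : ℝ) / (m + 1)) ≤
        (ψ K * Real.log p + n0 * (Real.log ((K : ℝ) + 1) + Real.log p)) * ((m : ℝ) / (m + 1)) :=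
      mul_le_mul_of_nonneg_right hNL hμ0
    have h6 : (n0 * (Real.log ((K : ℝ) + 1) + Real.log p)) * ((m : ℝ) / (m + 1)) ≤
        (n0 * (Real.log ((K : ℝ) + 1) + Real.log p)) * 1 :=
      mul_le_mul_of_nonneg_left hμ1 (by positivity)
    nlinarith
  have hone : 1 - (m : ℝ) / (m + 1) = 1 / (m + 1) := by
    field_simp
    ring
  rw [hone] at hmain
  have hαK : α * K * Real.log p * (1 / (m + 1)) ≤ (ψ K : ℝ) * Real.log p * (1 / (m + 1)) := by
    apply mul_le_mul_of_nonneg_right _ (by positivity)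
    exact mul_le_mul_of_nonneg_right (hψ K hK1) hL.le
  have hfin := hK0 K hKK
  have e9 : δ * K = α * K * Real.log p * (1 / (m + 1)) - β * K := by
    rw [hδdef]
    ring
  rw [e9] at hfin
  linarith

end Pool.Agent.Work.MP_03df5c_pb
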