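import Pool.Agent.Work.MP_03df5c_pb.Interface1

/-!
# Block C4: the criterion with the dimension of the span
-/

open Finset Filter Topology

namespace Pool.Agent.Work.MP_03df5c_pb

namespace BC4

/-- A family with first member `1`, norms at most `1` and `dim V` members that spans all the
`θ i`, `i ≤ n`. -/
theorem exists_family (p : ℕ) [hp : Fact p.Prime] (n : ℕ) (θ : ℕ → ℚ_[p]) (h0 : θ 0 = 1) :
    ∃ (m : ℕ) (η : Fin (m + 1) → ℚ_[p]), (∀ i, ‖η i‖ ≤ 1) ∧ η 0 = 1 ∧
      (m + 1 = Module.finrank ℚ (Submodule.span ℚ (θ '' (Set.Iic n)))) ∧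
      ∀ i ≤ n, θ i ∈ Submodule.span ℚ (Set.range η) := by
  have hs : LinearIndepOn ℚ θ ({0} : Set ℕ) := by
    rw [linearIndepOn_singleton_iff]
    rw [h0]; exact one_ne_zero
  have hst : ({0} : Set ℕ) ⊆ Set.Iic n := by
    intro x hx; simp at hx; simp [hx]
  obtain ⟨b, hbt, h0b, hspan, hli⟩ := exists_linearIndepOn_extension hs hst
  have hfin : b.Finite := (Set.finite_Iic n).subset hbt
  obtain ⟨B, hB⟩ : ∃ B : Finset ℕ, (B : Set ℕ) = b := ⟨hfin.toFinset, by simp⟩
  subst hB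
  have h0B : (0 : ℕ) ∈ B := by simpa using h0b
  have hcard : 0 < B.card := Finset.card_pos.mpr ⟨0, h0B⟩
  obtain ⟨m, hm⟩ : ∃ m, B.card = m + 1 := ⟨B.card - 1, by omega⟩
  have hdim : m + 1 = Module.finrank ℚ (Submodule.span ℚ (θ '' (Set.Iic n))) := by
    have e1 : Submodule.span ℚ (θ '' (Set.Iic n)) = Submodule.span ℚ (Set.range (fun x : B => θ x)) := by
      have e2 : Set.range (fun x : B => θ x) = θ '' (B : Set ℕ) := by
        ext y; simp
      rw [e2]
      exact Submodule.span_eq_of_le _ hspan (Submodule.span_mono (Set.image_mono hbt))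
    have hli' : LinearIndependent ℚ (fun x : B => θ x) := hli
    have e3 := finrank_span_eq_card hli'
    rw [e1, e3, ← hm]
    simp
  let e := B.orderEmbOfFin hm
  have he0 : e 0 = 0 := by
    have h1 := Finset.orderEmbOfFin_zero (s := B) hm (by omega)
    have h2 : B.min' (card_pos.mp (hm.symm ▸ (by omega : 0 < m + 1))) ≤ 0 := Finset.min'_le _ _ h0B
    have h3 : e 0 = B.min' (card_pos.mp (hm.symm ▸ (by omega : 0 < m + 1))) := h1
    omega
  have hp0 : (p : ℚ_[p]) ≠ 0 := by exact_mod_cast hp.out.ne_zero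
  -- scaling
  obtain ⟨s, hsc⟩ : ∃ s : ℕ, ∀ k : Fin (m + 1), ‖(p : ℚ_[p]) ^ s * θ (e k)‖ ≤ 1 := by
    have h1 : ∀ k : Fin (m + 1), ∃ s : ℕ, ‖θ (e k)‖ ≤ (p : ℝ) ^ s := by
      intro k
      obtain ⟨s, hs⟩ := pow_unbounded_of_one_lt (‖θ (e k)‖) (by exact_mod_cast hp.out.one_lt : (1 : ℝ) < p)
      exact ⟨s, hs.le⟩
    choose f hf using h1
    refine ⟨∑ k, f k, fun k => ?_⟩
    have h2 : f k ≤ ∑ k, f k := Finset.single_le_sum (f := f) (fun _ _ => Nat.zero_le _) (Finset.mem_univ k)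
    have h3 : ‖θ (e k)‖ ≤ (p : ℝ) ^ (∑ k, f k) :=
      (hf k).trans (pow_le_pow_right₀ (by exact_mod_cast hp.out.one_lt.le) h2)
    rw [norm_mul, norm_pow, Padic.norm_p, inv_pow]
    have h4 : (0 : ℝ) < (p : ℝ) ^ (∑ k, f k) := by
      have : (0 : ℝ) < p := by exact_mod_cast hp.out.pos
      positivity
    calc ((p : ℝ) ^ (∑ k, f k))⁻¹ * ‖θ (e k)‖ ≤ ((p : ℝ) ^ (∑ k, f k))⁻¹ * (p : ℝ) ^ (∑ k, f k) := by
          gcongr
      _ = 1 := inv_mul_cancel₀ h4.ne'
  refine ⟨m, fun k => if k = 0 then 1 else (p : ℚ_[p]) ^ s * θ (e k), ?_, ?_, hdim, ?_⟩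
  · intro k
    by_cases hk : k = 0
    · simp [hk]
    · simp only [hk, if_false]; exact hsc k
  · simp
  · intro i hi
    have h1 : θ i ∈ Submodule.span ℚ (θ '' (B : Set ℕ)) := hspan ⟨i, hi, rfl⟩
    have h2 : Submodule.span ℚ (θ '' (B : Set ℕ)) ≤
        Submodule.span ℚ (Set.range (fun k : Fin (m + 1) => if k = 0 then (1 : ℚ_[p]) else (p : ℚ_[p]) ^ s * θ (e k))) := by
      rw [Submodule.span_le]
      rintro _ ⟨j, hj, rfl⟩
      have h3 : j ∈ Set.range e := by
        have := Finset.range_orderEmbOfFin B hm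
        show j ∈ Set.range (B.orderEmbOfFin hm)
        rw [this]; exact hj
      obtain ⟨k, rfl⟩ := h3
      by_cases hk : k = 0
      · subst hk
        rw [he0, h0]
        apply Submodule.subset_span
        exact ⟨0, by simp⟩
      · have h5 : θ (e k) = (((p : ℚ) ^ s)⁻¹) • ((p : ℚ_[p]) ^ s * θ (e k)) := by
          rw [Algebra.smul_def]
          have : (algebraMap ℚ ℚ_[p]) (((p : ℚ) ^ s)⁻¹) = ((p : ℚ_[p]) ^ s)⁻¹ := by
            simp
          rw [this, ← mul_assoc, inv_mul_cancel₀ (pow_ne_zero s hp0), one_mul]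
        rw [h5]
        apply Submodule.smul_mem
        apply Submodule.subset_span
        exact ⟨k, by simp [hk]⟩
    exact h2 h1

/-- A common denominator. -/
theorem exists_den (N m : ℕ) (q : ℕ → Fin m → ℚ) :
    ∃ M : ℕ, 0 < M ∧ ∃ z : ℕ → Fin m → ℤ, ∀ i < N, ∀ k, (M : ℚ) * q i k = z i k := by
  refine ⟨∏ i ∈ range N, ∏ k, (q i k).den, ?_, ?_⟩
  · exact Finset.prod_pos fun i _ => Finset.prod_pos fun k _ => (q i k).den_pos
  · have h : ∀ i k, ∃ z : ℤ, i < N → ((∏ i ∈ range N, ∏ k, (q i k).den : ℕ) : ℚ) * q i k = z := by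
      intro i k
      by_cases hi : i < N
      · have h1 : (q i k).den ∣ ∏ k, (q i k).den := Finset.dvd_prod_of_mem _ (Finset.mem_univ k)
        have h2 : (∏ k, (q i k).den) ∣ ∏ i ∈ range N, ∏ k, (q i k).den :=
          Finset.dvd_prod_of_mem (fun i => ∏ k, (q i k).den) (Finset.mem_range.mpr hi)
        obtain ⟨w, hw⟩ := h1.trans h2
        refine ⟨w * (q i k).num, fun _ => ?_⟩
        rw [hw]
        push_cast
        have := Rat.mul_den_eq_num (q i k)
        calc ((q i k).den : ℚ) * w * q i k = w * (q i k * (q i k).den) := by ring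
          _ = w * (q i k).num := by rw [this]
      · exact ⟨0, fun h => absurd h hi⟩
    choose z hz using h
    exact ⟨z, fun i hi k => hz i k hi⟩

end BC4

theorem p_C4 (h3 : S_C3) : S_C4 := by
  intro p hp n θ h0 c ψ α β C n0 hα hβ hnorm hlow hstep hsize
  obtain ⟨m, η, hη1, hη0, hdim, hsp⟩ := BC4.exists_family p n θ h0
  have h1 : ∀ i : ℕ, ∃ q : Fin (m + 1) → ℚ, i ≤ n → ∑ k, q k • η k = θ i := by
    intro i
    by_cases hi : i ≤ n
    · obtain ⟨q, hq⟩ := (Submodule.mem_span_range_iff_exists_fun ℚ).mp (hsp i hi)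
      exact ⟨q, fun _ => hq⟩
    · exact ⟨0, fun h => absurd h hi⟩
  choose q hq using h1
  obtain ⟨M, hM, z, hz⟩ := BC4.exists_den (n + 1) (m + 1) q
  have hM0 : (M : ℚ_[p]) ≠ 0 := by exact_mod_cast hM.ne'
  -- the key identity
  have key : ∀ K, ∑ k, ((∑ i ∈ range (n + 1), c K i * z i k : ℤ) : ℚ_[p]) * η k
      = (M : ℚ_[p]) * ∑ i ∈ range (n + 1), (c K i : ℚ_[p]) * θ i := by
    intro K
    have e1 : ∀ i ∈ range (n + 1), (M : ℚ_[p]) * ((c K i : ℚ_[p]) * θ i)
        = ∑ k, ((c K i * z i k : ℤ) : ℚ_[p]) * η k := by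
      intro i hi
      have hi' : i < n + 1 := Finset.mem_range.mp hi
      rw [← hq i (by omega), Finset.mul_sum, Finset.mul_sum]
      refine Finset.sum_congr rfl fun k _ => ?_
      have h2 : ((z i k : ℤ) : ℚ_[p]) = (M : ℚ_[p]) * ((q i k : ℚ) : ℚ_[p]) := by
        have := hz i hi' k
        have h3 : (((M : ℚ) * q i k : ℚ) : ℚ_[p]) = (((z i k : ℤ) : ℚ) : ℚ_[p]) := by rw [this]
        push_cast at h3
        exact h3.symm
      rw [Algebra.smul_def]
      push_cast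
      rw [h2]
      have h4 : (algebraMap ℚ ℚ_[p]) (q i k) = ((q i k : ℚ) : ℚ_[p]) := by simp
      rw [h4]
      ring
    rw [Finset.mul_sum, Finset.sum_congr rfl e1, Finset.sum_comm]
    refine Finset.sum_congr rfl fun k _ => ?_
    rw [Int.cast_sum, Finset.sum_mul]
  have hMn : ‖(M : ℚ_[p])‖ = ((p : ℝ) ^ padicValNat p M)⁻¹ := by
    rw [Padic.norm_eq_zpow_neg_valuation hM0, Padic.valuation_natCast, zpow_neg, zpow_natCast]
  set Z : ℝ := ∑ k, ∑ i ∈ range (n + 1), |(z i k : ℝ)| with hZ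
  have hres := h3 p m η hη1 hη0 (fun K k => ∑ i ∈ range (n + 1), c K i * z i k)
    (fun K => ψ K + padicValNat p M) α β (C * Z) n0 hα hβ ?_ ?_ ?_ ?_
  · have : ((m : ℝ) + 1) = (Module.finrank ℚ (Submodule.span ℚ (θ '' (Set.Iic n))) : ℝ) := by
      rw [← hdim]; push_cast; ring
    rw [← this]; exact hres
  · intro K hK
    rw [key K, norm_mul, hnorm K hK, hMn, pow_add, mul_inv, mul_comm]
  · intro K hK
    have := hlow K hK
    push_cast
    have h5 : (0 : ℝ) ≤ (padicValNat p M : ℝ) := Nat.cast_nonneg _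
    linarith
  · intro K hK
    have := hstep K hK
    show ψ (K + 1) + padicValNat p M ≤ ψ K + padicValNat p M + n0 * (Nat.log p (K + 1) + 1)
    omega
  · intro K hK k
    have hX : (0 : ℝ) < ((K : ℝ) + 1) ^ n0 * Real.exp (β * K) := by positivity
    set X : ℝ := ((K : ℝ) + 1) ^ n0 * Real.exp (β * K) with hXdef
    have hc : ∀ i ∈ range (n + 1), |(c K i : ℝ)| ≤ C * X := by
      intro i hi
      have := hsize K hK i (by have := Finset.mem_range.mp hi; omega)
      rw [hXdef, ← mul_assoc]; exact this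
    have hCX : 0 ≤ C * X := (abs_nonneg _).trans (hc 0 (by simp))
    have h6 : |((∑ i ∈ range (n + 1), c K i * z i k : ℤ) : ℝ)| ≤ C * X * ∑ i ∈ range (n + 1), |(z i k : ℝ)| := by
      push_cast
      refine (Finset.abs_sum_le_sum_abs _ _).trans ?_
      rw [Finset.mul_sum]
      refine Finset.sum_le_sum fun i hi => ?_
      rw [abs_mul]
      exact mul_le_mul_of_nonneg_right (hc i hi) (abs_nonneg _)
    have h7 : ∑ i ∈ range (n + 1), |(z i k : ℝ)| ≤ Z :=
      Finset.single_le_sum (f := fun k => ∑ i ∈ range (n + 1), |(z i k : ℝ)|)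
        (fun _ _ => Finset.sum_nonneg fun _ _ => abs_nonneg _) (Finset.mem_univ k)
    calc |((∑ i ∈ range (n + 1), c K i * z i k : ℤ) : ℝ)| ≤ C * X * ∑ i ∈ range (n + 1), |(z i k : ℝ)| := h6
      _ ≤ C * X * Z := mul_le_mul_of_nonneg_left h7 hCX
      _ = C * Z * ((K : ℝ) + 1) ^ n0 * Real.exp (β * K) := by rw [hXdef]; ring

end Pool.Agent.Work.MP_03df5c_pb
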