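import Pool.Agent.Work.MP_03df5c_pb.Interface2

/-!
# Block D1: the least common multiples
-/

namespace Pool.Agent.Work.MP_03df5c_pb

theorem p_D1 : S_D1 := by
  refine ⟨fun K => ?_, fun K => ⟨Nat.lcmUpto_ne_zero K, fun n h1 h2 => ?_⟩, fun p hp K => ?_⟩
  · have h1 : Real.log (dd K : ℝ) ≤ (Real.log 4 + 4) * K := by
      rw [dd, ← Chebyshev.psi_eq_log_lcmUpto]
      exact Chebyshev.psi_le_const_mul_self (Nat.cast_nonneg K)
    have h2 : (0 : ℝ) < (dd K : ℝ) := by
      exact_mod_cast Nat.lcmUpto_pos K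
    calc (dd K : ℝ) = Real.exp (Real.log (dd K : ℝ)) := (Real.exp_log h2).symm
      _ ≤ _ := Real.exp_le_exp.2 h1
  · exact Finset.dvd_lcm (f := id) (Finset.mem_Icc.2 ⟨h1, h2⟩)
  · rw [← Nat.factorization_def _ hp.out, ← Nat.factorization_def _ hp.out, dd, dd,
      Nat.factorization_lcmUpto _ hp.out, Nat.factorization_lcmUpto _ hp.out]
    omega

end Pool.Agent.Work.MP_03df5c_pb
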