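import Pool.Agent.Work.MP_03df5c_pb.Interface2

/-!
# Block D2: growth of the exponents
-/

namespace Pool.Agent.Work.MP_03df5c_pb

theorem p_D2 (h1 : S_D1) (h3 : S_N3) : S_D2 := by
  intro p hp r s hr hs
  obtain ⟨-, hX, -⟩ := h3 p r hr
  have hXs : XX p r 1 ≤ r * s := hX.trans (Nat.mul_le_mul_left _ hs)
  obtain ⟨d, hd⟩ : ∃ d, r * s = XX p r 1 + d := ⟨_, (Nat.add_sub_of_le hXs).symm⟩
  have key : ∀ K : ℕ, r * (K + 1) * s - K * XX p r 1 = K * d + r * s := by
    intro K
    have e : r * (K + 1) * s = K * XX p r 1 + (K * d + r * s) := by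
      calc r * (K + 1) * s = K * (r * s) + r * s := by ring
        _ = K * (XX p r 1 + d) + r * s := by rw [← hd]
        _ = _ := by ring
    rw [e, Nat.add_sub_cancel_left]
  refine ⟨?_, (r + 1) * bb p r + s + (s - bb p r + 1) + d, ?_⟩
  · intro K
    unfold psi
    rw [key]
    have e1 : r * s * K = K * XX p r 1 + K * d := by rw [hd]; ring
    have e2 : K * XX p r 1 ≤ (r + 1) * K * bb p r := by
      calc K * XX p r 1 ≤ K * (r * bb p r) := Nat.mul_le_mul_left _ hX
        _ ≤ (r + 1) * K * bb p r := by nlinarith [Nat.zero_le (K * bb p r)]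
    omega
  · intro K hK
    unfold psi
    rw [key, key]
    have e1 := h1.2.2 p K
    have e2 : padicValNat p (K + 1).factorial ≤ padicValNat p K.factorial + Nat.log p (K + 1) := by
      rw [Nat.factorial_succ, padicValNat.mul (by omega) (Nat.factorial_ne_zero K)]
      have := padicValNat_le_nat_log (p := p) (K + 1)
      omega
    generalize padicValNat p (dd (K + 1)) = D1 at *
    generalize padicValNat p (dd K) = D0 at *
    generalize padicValNat p (K + 1).factorial = F1 at *
    generalize padicValNat p K.factorial = F0 at *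
    generalize Nat.log p (K + 1) = L at *
    generalize s - bb p r + 1 = m at *
    generalize bb p r = b at *
    have a1 := Nat.mul_le_mul_left s e1
    have a2 := Nat.mul_le_mul_left m e2
    have a3 : (r + 1) * (K + 1) * b = (r + 1) * K * b + (r + 1) * b := by ring
    have a4 : (K + 1) * d = K * d + d := by ring
    have a5 : ((r + 1) * b + s + m + d) * (L + 1) = (r + 1) * b + d + s * L + m * L + (s + m + ((r + 1) * b + d) * L) := by
      ring
    rw [a3, a4, a5]
    rw [Nat.mul_add] at a1 a2
    omega

end Pool.Agent.Work.MP_03df5c_pb
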