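import Pool.Agent.Work.MP_03df5c_pb.Interface3

/-!
# Block D3: the least common multiples, with the constant `log 4` (typed by helper53)
-/

namespace Pool.Agent.Work.MP_03df5c_pb

theorem p_D3 : S_D3 := by
  intro δ hδ
  obtain ⟨C, hC⟩ := Chebyshev.psi_sub_theta_le_mul_sqrt
  refine ⟨Real.exp (C ^ 2 / (4 * δ)), Real.exp_pos _, fun K => ?_⟩
  have hK : (0 : ℝ) ≤ (K : ℝ) := Nat.cast_nonneg K
  have h1 : Real.log (dd K : ℝ) ≤ Real.log 4 * K + C * Real.sqrt K := by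
    rw [dd, ← Chebyshev.psi_eq_log_lcmUpto]
    have h2 := hC (K : ℝ)
    have h3 := Chebyshev.theta_le_log4_mul_x hK
    linarith
  have key : ∀ s : ℝ, C * s ≤ δ * s ^ 2 + C ^ 2 / (4 * δ) := by
    intro s
    have h5 : δ * s ^ 2 + C ^ 2 / (4 * δ) - C * s = (2 * δ * s - C) ^ 2 / (4 * δ) := by
      field_simp
      ring
    have h6 : 0 ≤ (2 * δ * s - C) ^ 2 / (4 * δ) := by positivity
    linarith
  have h4 : C * Real.sqrt K ≤ δ * K + C ^ 2 / (4 * δ) := by
    have h7 := key (Real.sqrt K)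
    rw [Real.sq_sqrt hK] at h7
    exact h7
  have h2 : (0 : ℝ) < (dd K : ℝ) := by
    exact_mod_cast Nat.lcmUpto_pos K
  calc (dd K : ℝ) = Real.exp (Real.log (dd K : ℝ)) := (Real.exp_log h2).symm
    _ ≤ Real.exp (C ^ 2 / (4 * δ) + (Real.log 4 + δ) * K) := Real.exp_le_exp.2 (by linarith)
    _ = _ := Real.exp_add _ _

end Pool.Agent.Work.MP_03df5c_pb
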