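import Pool.Agent.Work.MP_03df5c_pb.Interface4

/-!
# Block D4: the least common multiples, with a constant smaller than `log 3`

The quotient `(1806 n)! / ((903 n)! (602 n)! (258 n)! (42 n)! n!)` is written as a product of four
binomial coefficients (`MM`).
-/

open Finset

namespace Pool.Agent.Work.MP_03df5c_pb

namespace BD4

/-- `(1806 n)! / ((903 n)! (602 n)! (258 n)! (42 n)! n!)` -/
def MM (n : ℕ) : ℕ :=
  (1806 * n).choose (903 * n) * (903 * n).choose (602 * n) * (301 * n).choose (258 * n) *
    (43 * n).choose (42 * n)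

theorem MM_mul (n : ℕ) : MM n * ((903 * n).factorial * (602 * n).factorial *
    (258 * n).factorial * (42 * n).factorial * n.factorial) = (1806 * n).factorial := by
  have h1 := Nat.choose_mul_factorial_mul_factorial (show 903 * n ≤ 1806 * n by omega)
  have h2 := Nat.choose_mul_factorial_mul_factorial (show 602 * n ≤ 903 * n by omega)
  have h3 := Nat.choose_mul_factorial_mul_factorial (show 258 * n ≤ 301 * n by omega)
  have h4 := Nat.choose_mul_factorial_mul_factorial (show 42 * n ≤ 43 * n by omega)
  rw [show 1806 * n - 903 * n = 903 * n by omega] at h1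
  rw [show 903 * n - 602 * n = 301 * n by omega] at h2
  rw [show 301 * n - 258 * n = 43 * n by omega] at h3
  rw [show 43 * n - 42 * n = n by omega] at h4
  calc MM n * ((903 * n).factorial * (602 * n).factorial *
    (258 * n).factorial * (42 * n).factorial * n.factorial)
      = (1806 * n).choose (903 * n) * (903 * n).factorial *
        ((903 * n).choose (602 * n) * (602 * n).factorial *
        ((301 * n).choose (258 * n) * (258 * n).factorial *
        ((43 * n).choose (42 * n) * (42 * n).factorial * n.factorial))) := by rw [MM]; ring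
    _ = _ := by rw [h4, h3, h2, h1]

theorem MM_pos (n : ℕ) : 0 < MM n := by
  rcases Nat.eq_zero_or_pos (MM n) with h | h
  · have h1 := MM_mul n
    rw [h, zero_mul] at h1
    exact absurd h1.symm (Nat.factorial_ne_zero _)
  · exact h

/-- the floor inequality -/
theorem floor_ineq (n q : ℕ) (hq : 0 < q) (h1 : q ≤ 1806 * n) :
    903 * n / q + 602 * n / q + 258 * n / q + 42 * n / q + n / q + (if q ≤ n then 0 else 1) ≤
      1806 * n / q := by
  split_ifs with h
  · have h2 : 903 * n / q + 602 * n / q ≤ (903 * n + 602 * n) / q := Nat.div_add_div_le_add_div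
    have h3 : (903 * n + 602 * n) / q + 258 * n / q ≤ (903 * n + 602 * n + 258 * n) / q :=
      Nat.div_add_div_le_add_div
    have h4 : (903 * n + 602 * n + 258 * n) / q + 42 * n / q ≤
      (903 * n + 602 * n + 258 * n + 42 * n) / q := Nat.div_add_div_le_add_div
    have h5 : (903 * n + 602 * n + 258 * n + 42 * n) / q + n / q ≤
      (903 * n + 602 * n + 258 * n + 42 * n + n) / q := Nat.div_add_div_le_add_div
    rw [show 903 * n + 602 * n + 258 * n + 42 * n + n = 1806 * n by ring] at h5
    omega
  · have h0 : n / q = 0 := Nat.div_eq_of_lt (by omega)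
    have e1 : 903 * n / q = 1806 * n / q / 2 := by
      rw [Nat.div_div_eq_div_mul, mul_comm q 2, ← Nat.div_div_eq_div_mul]
      congr 1
      omega
    have e2 : 602 * n / q = 1806 * n / q / 3 := by
      rw [Nat.div_div_eq_div_mul, mul_comm q 3, ← Nat.div_div_eq_div_mul]
      congr 1
      omega
    have e3 : 258 * n / q = 1806 * n / q / 7 := by
      rw [Nat.div_div_eq_div_mul, mul_comm q 7, ← Nat.div_div_eq_div_mul]
      congr 1
      omega
    have e4 : 42 * n / q = 1806 * n / q / 43 := by
      rw [Nat.div_div_eq_div_mul, mul_comm q 43, ← Nat.div_div_eq_div_mul]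
      congr 1
      omega
    have hz : 1 ≤ 1806 * n / q := (Nat.one_le_div_iff hq).2 h1
    rw [h0, e1, e2, e3, e4]
    generalize 1806 * n / q = z at hz
    omega

theorem dvd_MM (n : ℕ) (hn : 0 < n) : Nat.lcmUpto (1806 * n) ∣ Nat.lcmUpto n * MM n := by
  rw [← Nat.factorization_prime_le_iff_dvd (Nat.lcmUpto_ne_zero _)
    (mul_ne_zero (Nat.lcmUpto_ne_zero _) (MM_pos n).ne')]
  intro p hp
  rw [Nat.factorization_mul (Nat.lcmUpto_ne_zero _) (MM_pos n).ne', Finsupp.add_apply,
    Nat.factorization_lcmUpto _ hp, Nat.factorization_lcmUpto _ hp]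
  set b := Nat.log p (1806 * n) + 1 with hb
  have hle : ∀ a, a ≤ 1806 * n → Nat.log p a < b := fun a ha =>
    Nat.lt_succ_of_le (Nat.log_mono_right ha)
  have hf := congrArg (fun x => Nat.factorization x p) (MM_mul n)
  rw [Nat.factorization_mul (MM_pos n).ne' (by positivity),
    Nat.factorization_mul (by positivity) (by positivity),
    Nat.factorization_mul (by positivity) (by positivity),
    Nat.factorization_mul (by positivity) (by positivity),
    Nat.factorization_mul (by positivity) (by positivity)] at hf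
  simp only [Finsupp.add_apply] at hf
  rw [Nat.factorization_factorial hp (hle _ (by omega)),
    Nat.factorization_factorial hp (hle _ (by omega)),
    Nat.factorization_factorial hp (hle _ (by omega)),
    Nat.factorization_factorial hp (hle _ (by omega)),
    Nat.factorization_factorial hp (hle n (by omega)),
    Nat.factorization_factorial hp (hle _ le_rfl)] at hf
  have hsum : ∑ i ∈ Ico 1 b, 903 * n / p ^ i + ∑ i ∈ Ico 1 b, 602 * n / p ^ i +
      ∑ i ∈ Ico 1 b, 258 * n / p ^ i + ∑ i ∈ Ico 1 b, 42 * n / p ^ i + ∑ i ∈ Ico 1 b, n / p ^ i +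
      ∑ i ∈ Ico 1 b, (if p ^ i ≤ n then 0 else 1) ≤ ∑ i ∈ Ico 1 b, 1806 * n / p ^ i := by
    rw [← sum_add_distrib, ← sum_add_distrib, ← sum_add_distrib, ← sum_add_distrib,
      ← sum_add_distrib]
    refine sum_le_sum fun i hi => floor_ineq n (p ^ i) (pow_pos hp.pos i) ?_
    have hi2 : i ≤ Nat.log p (1806 * n) := by
      have := (mem_Ico.1 hi).2
      omega
    exact Nat.pow_le_of_le_log (by omega) hi2
  have hcount : Nat.log p (1806 * n) - Nat.log p n ≤
      ∑ i ∈ Ico 1 b, (if p ^ i ≤ n then 0 else 1) := by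
    have h1 : Ico (Nat.log p n + 1) b ⊆ Ico 1 b := by
      intro i hi
      rw [mem_Ico] at hi ⊢
      omega
    calc Nat.log p (1806 * n) - Nat.log p n = ∑ i ∈ Ico (Nat.log p n + 1) b, 1 := by
          rw [sum_const, smul_eq_mul, mul_one, Nat.card_Ico]; omega
      _ = ∑ i ∈ Ico (Nat.log p n + 1) b, (if p ^ i ≤ n then 0 else 1) := by
          refine sum_congr rfl fun i hi => ?_
          rw [if_neg]
          intro h2
          have h3 := Nat.le_log_of_pow_le hp.one_lt h2
          have h4 := (mem_Ico.1 hi).1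
          omega
      _ ≤ _ := sum_le_sum_of_subset h1
  omega

/-- one term of the binomial theorem -/
theorem choose_le (x y a b : ℕ) : (a + b).choose a * (x ^ a * y ^ b) ≤ (x + y) ^ (a + b) := by
  rw [add_pow]
  have h := single_le_sum (f := fun m => x ^ m * y ^ (a + b - m) * ((a + b).choose m))
    (s := range (a + b + 1)) (fun i _ => Nat.zero_le _) (mem_range.2 (show a < a + b + 1 by omega))
  simp only [Nat.cast_id] at h ⊢
  rw [show a + b - a = b by omega] at h
  calc (a + b).choose a * (x ^ a * y ^ b) = x ^ a * y ^ b * (a + b).choose a := by ring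
    _ ≤ _ := h

theorem log_choose_le (x y a b : ℕ) (hx : 0 < x) (hy : 0 < y) :
    Real.log ((a + b).choose a : ℕ) ≤
      (a + b) * Real.log ((x : ℝ) + y) - a * Real.log x - b * Real.log y := by
  have h := choose_le x y a b
  have h1 : (0 : ℝ) < ((a + b).choose a : ℕ) := by
    exact_mod_cast Nat.choose_pos (Nat.le_add_right a b)
  have hx1 : (0 : ℝ) < x := by exact_mod_cast hx
  have hy1 : (0 : ℝ) < y := by exact_mod_cast hy
  have h2 : (((a + b).choose a : ℕ) : ℝ) * ((x : ℝ) ^ a * (y : ℝ) ^ b) ≤
      ((x : ℝ) + y) ^ (a + b) := by exact_mod_cast h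
  have h3 := Real.log_le_log (by positivity) h2
  rw [Real.log_mul h1.ne' (by positivity), Real.log_mul (by positivity) (by positivity),
    Real.log_pow, Real.log_pow, Real.log_pow] at h3
  push_cast at h3
  linarith

/-- the constant `L` -/
noncomputable def LL : ℝ :=
  904 * Real.log 2 + 603 * Real.log 3 + 259 * Real.log 7 + 43 * Real.log 43

theorem log_MM_le (n : ℕ) : Real.log (MM n : ℕ) ≤ n * LL := by
  have h1 := log_choose_le 1 1 (903 * n) (903 * n) one_pos one_pos
  have h2 := log_choose_le 2 1 (602 * n) (301 * n) (by norm_num) one_pos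
  have h3 := log_choose_le 6 1 (258 * n) (43 * n) (by norm_num) one_pos
  have h4 := log_choose_le 42 1 (42 * n) n (by norm_num) one_pos
  rw [show 903 * n + 903 * n = 1806 * n by ring] at h1
  rw [show 602 * n + 301 * n = 903 * n by ring] at h2
  rw [show 258 * n + 43 * n = 301 * n by ring] at h3
  rw [show 42 * n + n = 43 * n by ring] at h4
  have hne : ∀ a b : ℕ, b ≤ a → ((a.choose b : ℕ) : ℝ) ≠ 0 := by
    intro a b hab
    exact_mod_cast (Nat.choose_pos hab).ne'
  have e : Real.log (MM n : ℕ) = Real.log ((1806 * n).choose (903 * n) : ℕ) +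
      Real.log ((903 * n).choose (602 * n) : ℕ) + Real.log ((301 * n).choose (258 * n) : ℕ) +
      Real.log ((43 * n).choose (42 * n) : ℕ) := by
    rw [MM]
    push_cast
    rw [Real.log_mul (mul_ne_zero (mul_ne_zero (hne _ _ (by omega)) (hne _ _ (by omega)))
      (hne _ _ (by omega))) (hne _ _ (by omega)),
      Real.log_mul (mul_ne_zero (hne _ _ (by omega)) (hne _ _ (by omega))) (hne _ _ (by omega)),
      Real.log_mul (hne _ _ (by omega)) (hne _ _ (by omega))]
  have l6 : Real.log 6 = Real.log 2 + Real.log 3 := by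
    rw [← Real.log_mul (by norm_num) (by norm_num)]; norm_num
  have l42 : Real.log 42 = Real.log 2 + Real.log 3 + Real.log 7 := by
    rw [← Real.log_mul (by norm_num) (by norm_num), ← Real.log_mul (by norm_num) (by norm_num)]
    norm_num
  push_cast at h1 h2 h3 h4
  norm_num at h1 h2 h3 h4
  rw [l6] at h3
  rw [l42] at h4
  rw [e, LL]
  linarith

theorem LL_lt : LL ≤ 1782 * Real.log 3 := by
  have h2 : 19 * Real.log 2 ≤ 12 * Real.log 3 := by
    have h : Real.log ((2 : ℝ) ^ 19) ≤ Real.log ((3 : ℝ) ^ 12) :=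
      Real.log_le_log (by norm_num) (by norm_num)
    rw [Real.log_pow, Real.log_pow] at h
    push_cast at h
    exact h
  have h7 : 9 * Real.log 7 ≤ 16 * Real.log 3 := by
    have h : Real.log ((7 : ℝ) ^ 9) ≤ Real.log ((3 : ℝ) ^ 16) :=
      Real.log_le_log (by norm_num) (by norm_num)
    rw [Real.log_pow, Real.log_pow] at h
    push_cast at h
    exact h
  have h43 : 7 * Real.log 43 ≤ 24 * Real.log 3 := by
    have h : Real.log ((43 : ℝ) ^ 7) ≤ Real.log ((3 : ℝ) ^ 24) :=
      Real.log_le_log (by norm_num) (by norm_num)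
    rw [Real.log_pow, Real.log_pow] at h
    push_cast at h
    exact h
  have h3 : 0 < Real.log 3 := Real.log_pos (by norm_num)
  rw [LL]
  linarith

theorem log_step (n : ℕ) (hn : 0 < n) :
    Real.log (dd (1806 * n)) ≤ Real.log (dd n) + n * LL := by
  have h1 : dd (1806 * n) ≤ dd n * MM n :=
    Nat.le_of_dvd (Nat.mul_pos (Nat.lcmUpto_pos n) (MM_pos n)) (dvd_MM n hn)
  have h2 : ((dd (1806 * n) : ℕ) : ℝ) ≤ (dd n : ℝ) * (MM n : ℕ) := by exact_mod_cast h1
  have h3 : (0 : ℝ) < (dd (1806 * n) : ℕ) := by exact_mod_cast Nat.lcmUpto_pos _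
  have h4 : (0 : ℝ) < (dd n : ℕ) := by exact_mod_cast Nat.lcmUpto_pos _
  have h5 : (0 : ℝ) < (MM n : ℕ) := by exact_mod_cast MM_pos n
  have h6 := Real.log_le_log h3 h2
  rw [Real.log_mul h4.ne' h5.ne'] at h6
  exact h6.trans (by linarith [log_MM_le n])

theorem log_mono {a b : ℕ} (h : a ≤ b) : Real.log (dd a) ≤ Real.log (dd b) := by
  refine Real.log_le_log (by exact_mod_cast Nat.lcmUpto_pos a) ?_
  have h1 : dd a ∣ dd b := Finset.lcm_mono (Finset.Icc_subset_Icc le_rfl h)
  exact_mod_cast Nat.le_of_dvd (Nat.lcmUpto_pos b) h1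

end BD4

open BD4

theorem p_D4 : S_D4 := by
  have h3 : 0 < Real.log 3 := Real.log_pos (by norm_num)
  set c0 : ℝ := 1795 / 1805 * Real.log 3 with hc0
  have hc0pos : 0 < c0 := by positivity
  have hL0 : 0 ≤ LL := by
    rw [LL]
    have := Real.log_nonneg (show (1 : ℝ) ≤ 2 by norm_num)
    have := Real.log_nonneg (show (1 : ℝ) ≤ 7 by norm_num)
    have := Real.log_nonneg (show (1 : ℝ) ≤ 43 by norm_num)
    positivity
  have hL := LL_lt
  obtain ⟨K0, hK0⟩ := exists_nat_ge (1806 * (c0 + LL) / (13 * Real.log 3) + 2)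
  have key : ∀ K : ℕ, Real.log (dd K) ≤ c0 * K + Real.log (dd K0) := by
    intro K
    induction K using Nat.strong_induction_on with
    | _ K ih =>
      rcases Nat.lt_or_ge K K0 with h | h
      · have h4 := log_mono h.le
        have h5 : (0 : ℝ) ≤ c0 * K := by positivity
        linarith
      · set n := K / 1806 + 1 with hn
        have hKR : (K0 : ℝ) ≤ K := by exact_mod_cast h
        have h13 : 1806 * (c0 + LL) / (13 * Real.log 3) + 2 ≤ K := hK0.trans hKR
        have hq : 0 ≤ 1806 * (c0 + LL) / (13 * Real.log 3) := by positivity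
        have hK2 : 2 ≤ K := by
          have : (2 : ℝ) ≤ K := by linarith
          exact_mod_cast this
        have hnK : n < K := by omega
        have hn0 : 0 < n := by omega
        have hKn : K ≤ 1806 * n := by omega
        have hnR : (n : ℝ) ≤ K / 1806 + 1 := by
          have h6 : ((K / 1806 : ℕ) : ℝ) ≤ (K : ℝ) / (1806 : ℕ) := Nat.cast_div_le
          rw [hn]
          push_cast at h6 ⊢
          linarith
        have h7 := log_mono hKn
        have h8 := log_step n hn0
        have h9 := ih n hnK
        have h10 : (c0 + LL) * n ≤ (c0 + LL) * (K / 1806 + 1) :=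
          mul_le_mul_of_nonneg_left hnR (by linarith)
        have h11 : 1806 * (c0 + LL) ≤ K * (13 * Real.log 3) := by
          rw [← div_le_iff₀ (by positivity)]
          linarith
        have h12 : (c0 + LL) * (K / 1806 + 1) ≤ c0 * K := by
          have h14 : c0 * 1805 = 1795 * Real.log 3 := by rw [hc0]; ring
          have h15 : (0 : ℝ) ≤ K := Nat.cast_nonneg K
          have h16 : (K : ℝ) * LL ≤ K * (1782 * Real.log 3) := mul_le_mul_of_nonneg_left hL h15
          have h17 : (K : ℝ) * (c0 * 1805) = K * (1795 * Real.log 3) := by rw [h14]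
          have h18 : (c0 + LL) * (K / 1806 + 1) * 1806 ≤ c0 * K * 1806 := by
            have e1 : (c0 + LL) * (K / 1806 + 1) * 1806 = (c0 + LL) * K + 1806 * (c0 + LL) := by
              ring
            rw [e1]
            nlinarith
          exact le_of_mul_le_mul_right h18 (by norm_num)
        linarith
  refine ⟨c0, ?_, dd K0, by exact_mod_cast Nat.lcmUpto_pos K0, fun K => ?_⟩
  · rw [hc0]
    nlinarith
  · have h1 : (0 : ℝ) < (dd K : ℕ) := by exact_mod_cast Nat.lcmUpto_pos K
    have h2 : (0 : ℝ) < (dd K0 : ℕ) := by exact_mod_cast Nat.lcmUpto_pos K0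
    have h4 := Real.exp_le_exp.2 (key K)
    rw [Real.exp_log h1, Real.exp_add, Real.exp_log h2, mul_comm] at h4
    exact h4

end Pool.Agent.Work.MP_03df5c_pb
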