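import Pool.Agent.Work.MP_03df5c_pb.Interface6
import Pool.Agent.Work.PNT70.PNT

/-!
# Block D5: the least common multiples, from the prime number theorem
-/

open Finset Filter Topology

namespace Pool.Agent.Work.MP_03df5c_pb

theorem p_D5 : S_D5 := by
  intro δ hδ
  have h1 := Pool.Agent.Work.PNT70.psi_tendsto
  have h2 : ∀ᶠ x : ℝ in atTop, Chebyshev.psi x / x < 1 + δ :=
    h1.eventually_lt_const (by linarith)
  obtain ⟨X0, hX0⟩ := eventually_atTop.1 h2
  obtain ⟨K1, hK1⟩ := exists_nat_ge X0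
  obtain ⟨K0, hK0⟩ : ∃ K0 : ℕ, K0 = K1 + 1 := ⟨_, rfl⟩
  have hpos : ∀ K : ℕ, (0 : ℝ) < (dd K : ℝ) := fun K => by exact_mod_cast Nat.lcmUpto_pos K
  have hone : (1 : ℝ) ≤ (dd K0 : ℝ) := by exact_mod_cast Nat.lcmUpto_pos K0
  refine ⟨dd K0, hpos K0, fun K => ?_⟩
  rcases Nat.lt_or_ge K K0 with h | h
  · have h3 : dd K ≤ dd K0 :=
      Nat.le_of_dvd (Nat.lcmUpto_pos K0) (Finset.lcm_mono (Finset.Icc_subset_Icc le_rfl h.le))
    have h4 : (dd K : ℝ) ≤ dd K0 := by exact_mod_cast h3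
    have h5 : (1 : ℝ) ≤ Real.exp ((1 + δ) * K) := Real.one_le_exp (by positivity)
    exact h4.trans (le_mul_of_one_le_right (hpos K0).le h5)
  · have hKX : X0 ≤ (K : ℝ) := by
      have : (K1 : ℝ) ≤ K := by exact_mod_cast (by omega : K1 ≤ K)
      exact hK1.trans this
    have hKp : (0 : ℝ) < K := by
      have : 0 < K := by omega
      exact_mod_cast this
    have h6 := hX0 K hKX
    rw [div_lt_iff₀ hKp, Chebyshev.psi_eq_log_lcmUpto] at h6
    have h7 : (dd K : ℝ) ≤ Real.exp ((1 + δ) * K) := by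
      rw [← Real.exp_log (hpos K)]
      exact Real.exp_le_exp.2 h6.le
    exact h7.trans (le_mul_of_one_le_left (Real.exp_pos _).le hone)

end Pool.Agent.Work.MP_03df5c_pb
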