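import Pool.Agent.Work.MP_03df5c_pb.Interface9
import Pool.Agent.Work.PNT70.PNT

/-!
# Block D6: sizes, from the prime number theorem
-/

open Finset Filter Topology

namespace Pool.Agent.Work.MP_03df5c_pb

namespace BD6

theorem pp_pos (K : ℕ) : 0 < PP K := by
  unfold PP
  apply Finset.prod_pos
  intro q hq
  exact (Finset.mem_filter.1 hq).2.1.pos

theorem log_pp (K : ℕ) (hK : 7 ≤ K) :
    Real.log (PP K : ℝ) = Chebyshev.theta K - Chebyshev.theta ((K / 2 : ℕ) : ℝ) := by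
  have h1 : Real.log (PP K : ℝ) =
      ∑ q ∈ (range (K + 1)).filter (fun q => q.Prime ∧ K < 2 * q ∧ 3 < q), Real.log (q : ℝ) := by
    unfold PP
    push_cast
    rw [Real.log_prod]
    intro q hq
    have := (Finset.mem_filter.1 hq).2.1.pos
    positivity
  rw [h1, Chebyshev.theta_eq_sum_primesLE_log, Chebyshev.theta_eq_sum_primesLE_log,
    eq_sub_iff_add_eq]
  rw [← Finset.sum_union]
  · apply Finset.sum_congr _ (fun _ _ => rfl)
    ext q
    simp only [Finset.mem_union, Finset.mem_filter, Finset.mem_range, Nat.mem_primesLE]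
    constructor
    · rintro (⟨h2, h3, h4, h5⟩ | ⟨h2, h3⟩)
      · exact ⟨by omega, h3⟩
      · exact ⟨by omega, h3⟩
    · rintro ⟨h2, h3⟩
      by_cases h4 : K < 2 * q
      · exact Or.inl ⟨by omega, h3, h4, by omega⟩
      · exact Or.inr ⟨by omega, h3⟩
  · rw [Finset.disjoint_left]
    intro q hq hq'
    have h2 := (Finset.mem_filter.1 hq).2.2.1
    have h3 := (Nat.mem_primesLE.1 hq').1
    omega

end BD6

theorem p_D6 : S_D6 := by
  intro δ hδ
  have h1 := Pool.Agent.Work.PNT70.psi_tendsto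
  have h2 := Pool.Agent.Work.PNT70.theta_tendsto
  have e1 : ∀ᶠ x : ℝ in atTop, Chebyshev.psi x / x < 1 + δ / 8 :=
    h1.eventually_lt_const (by linarith)
  have e2 : ∀ᶠ x : ℝ in atTop, Chebyshev.theta x / x < 1 + δ / 8 :=
    h2.eventually_lt_const (by linarith)
  have e3 : ∀ᶠ x : ℝ in atTop, 1 - δ / 8 < Chebyshev.theta x / x :=
    h2.eventually_const_lt (by linarith)
  obtain ⟨X0, hX0⟩ := eventually_atTop.1 (e1.and (e2.and e3))
  obtain ⟨K1, hK1⟩ := exists_nat_ge X0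
  obtain ⟨K0, hK0⟩ : ∃ K0 : ℕ, K0 = 2 * K1 + 8 := ⟨_, rfl⟩
  have hpos : ∀ K : ℕ, (0 : ℝ) < (dd K : ℝ) := fun K => by exact_mod_cast Nat.lcmUpto_pos K
  have hone : (1 : ℝ) ≤ (dd K0 : ℝ) ^ 6 := by
    have : (1 : ℝ) ≤ (dd K0 : ℝ) := by exact_mod_cast Nat.lcmUpto_pos K0
    exact one_le_pow₀ this
  have hPP : ∀ K : ℕ, (1 : ℝ) ≤ (PP K : ℝ) := fun K => by exact_mod_cast BD6.pp_pos K
  refine ⟨(dd K0 : ℝ) ^ 6, by have := hpos K0; positivity, fun K => ?_⟩
  rcases Nat.lt_or_ge K K0 with h | h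
  · have h3 : dd K ≤ dd K0 :=
      Nat.le_of_dvd (Nat.lcmUpto_pos K0) (Finset.lcm_mono (Finset.Icc_subset_Icc le_rfl h.le))
    have h4 : (dd K : ℝ) ^ 6 ≤ (dd K0 : ℝ) ^ 6 := by
      apply pow_le_pow_left₀ (hpos K).le
      exact_mod_cast h3
    have h5 : (1 : ℝ) ≤ Real.exp ((11 / 2 + δ) * K) := Real.one_le_exp (by positivity)
    calc (dd K : ℝ) ^ 6 ≤ (dd K0 : ℝ) ^ 6 := h4
      _ ≤ (dd K0 : ℝ) ^ 6 * Real.exp ((11 / 2 + δ) * K) := le_mul_of_one_le_right (by linarith) h5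
      _ ≤ (dd K0 : ℝ) ^ 6 * Real.exp ((11 / 2 + δ) * K) * (PP K : ℝ) :=
        le_mul_of_one_le_right (by positivity) (hPP K)
  · have hKX : X0 ≤ ((K / 2 : ℕ) : ℝ) := by
      have : (K1 : ℝ) ≤ ((K / 2 : ℕ) : ℝ) := by exact_mod_cast (by omega : K1 ≤ K / 2)
      exact hK1.trans this
    have hK2 : ((K / 2 : ℕ) : ℝ) ≤ (K : ℝ) / 2 := by
      have : (((K / 2 : ℕ) * 2 : ℕ) : ℝ) ≤ (K : ℝ) := by
        exact_mod_cast Nat.div_mul_le_self K 2
      push_cast at this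
      linarith
    have hKX' : X0 ≤ (K : ℝ) := by
      have : (0 : ℝ) ≤ (K : ℝ) := by positivity
      linarith
    have hKp : (0 : ℝ) < K := by
      have : 0 < K := by omega
      exact_mod_cast this
    have hKp2 : (0 : ℝ) < ((K / 2 : ℕ) : ℝ) := by
      have : 0 < K / 2 := by omega
      exact_mod_cast this
    obtain ⟨a1, _, a3⟩ := hX0 K hKX'
    obtain ⟨_, b2, _⟩ := hX0 _ hKX
    rw [div_lt_iff₀ hKp, Chebyshev.psi_eq_log_lcmUpto] at a1
    rw [lt_div_iff₀ hKp] at a3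
    rw [div_lt_iff₀ hKp2] at b2
    have b3 : Chebyshev.theta ((K / 2 : ℕ) : ℝ) ≤ (1 + δ / 8) * ((K : ℝ) / 2) :=
      b2.le.trans (mul_le_mul_of_nonneg_left hK2 (by positivity))
    have hlog := BD6.log_pp K (by omega)
    have hPPpos : (0 : ℝ) < (PP K : ℝ) := by linarith [hPP K]
    have hmain : 6 * Real.log (dd K : ℝ) ≤ (11 / 2 + δ) * K + Real.log (PP K : ℝ) := by
      rw [hlog]
      have a1' : Real.log (dd K : ℝ) < (1 + δ / 8) * K := a1
      nlinarith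
    have h7 : (dd K : ℝ) ^ 6 ≤ Real.exp ((11 / 2 + δ) * K) * (PP K : ℝ) := by
      have e5 : (dd K : ℝ) ^ 6 = Real.exp (6 * Real.log (dd K : ℝ)) := by
        rw [show (6 : ℝ) * Real.log (dd K : ℝ) = ((6 : ℕ) : ℝ) * Real.log (dd K : ℝ) by norm_num,
          Real.exp_nat_mul, Real.exp_log (hpos K)]
      rw [e5]
      calc Real.exp (6 * Real.log (dd K : ℝ)) ≤
          Real.exp ((11 / 2 + δ) * K + Real.log (PP K : ℝ)) := Real.exp_le_exp.2 hmain
        _ = Real.exp ((11 / 2 + δ) * K) * (PP K : ℝ) := by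
          rw [Real.exp_add, Real.exp_log hPPpos]
    calc (dd K : ℝ) ^ 6 ≤ Real.exp ((11 / 2 + δ) * K) * (PP K : ℝ) := h7
      _ ≤ (dd K0 : ℝ) ^ 6 * (Real.exp ((11 / 2 + δ) * K) * (PP K : ℝ)) :=
        le_mul_of_one_le_left (by positivity) hone
      _ = (dd K0 : ℝ) ^ 6 * Real.exp ((11 / 2 + δ) * K) * (PP K : ℝ) := by ring

end Pool.Agent.Work.MP_03df5c_pb
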