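import Pool.Agent.Work.MP_03df5c_pb.Interface1

/-!
# Block E1: convergence for the powers of `a / p^r + t`
-/

set_option autoImplicit false

open Finset Filter Topology

namespace Pool.Agent.Work.MP_03df5c_pb

namespace BE1

variable {p : ℕ} [Fact p.Prime]

theorem norm_pw (n : ℕ) : ‖(p : ℚ_[p]) ^ n‖ = ((p : ℝ) ^ n)⁻¹ := by
  rw [Padic.norm_p_pow, zpow_neg, zpow_natCast]

theorem norm_xa {r a : ℕ} (hr : 1 ≤ r) (ha : ¬ p ∣ a) (t : ℕ) : ‖xa p r a t‖ = (p : ℝ) ^ r := by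
  have hp : 1 < (p : ℝ) := by exact_mod_cast (Fact.out : p.Prime).one_lt
  have h1 : ‖(a : ℚ_[p]) / (p : ℚ_[p]) ^ r‖ = (p : ℝ) ^ r := by
    rw [norm_div, norm_pw, Padic.norm_natCast_eq_one_iff.2
      (((Fact.out : p.Prime).coprime_iff_not_dvd).2 ha), div_inv_eq_mul, one_mul]
  have h2 : ‖(t : ℚ_[p])‖ ≤ 1 := by
    have := Padic.norm_int_le_one (p := p) (t : ℤ)
    simpa using this
  have h3 : 1 < (p : ℝ) ^ r := one_lt_pow₀ hp (by omega)
  unfold xa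
  rw [Padic.add_eq_max_of_ne (by rw [h1]; intro e; rw [← e] at h2; linarith), h1]
  exact max_eq_left (by linarith)

theorem pow_lip {u v : ℚ_[p]} (hu : ‖u‖ ≤ 1) (hv : ‖v‖ ≤ 1) : ∀ i : ℕ, ‖u ^ i - v ^ i‖ ≤ ‖u - v‖ := by
  intro i
  induction i with
  | zero => simp
  | succ i ih =>
    have e : u ^ (i + 1) - v ^ (i + 1) = u ^ i * (u - v) + (u ^ i - v ^ i) * v := by ring
    rw [e]
    refine le_trans (Padic.nonarchimedean _ _) (max_le ?_ ?_)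
    · rw [norm_mul, norm_pow]
      exact mul_le_of_le_one_left (norm_nonneg _) (pow_le_one₀ (norm_nonneg _) hu)
    · rw [norm_mul]
      exact le_trans (mul_le_of_le_one_right (norm_nonneg _) hv) ih

theorem lip {r a : ℕ} (hr : 1 ≤ r) (ha : ¬ p ∣ a) (i : ℕ) :
    Lip p (fun t => ((xa p r a t) ^ i)⁻¹) 1 := by
  have hp : 1 < (p : ℝ) := by exact_mod_cast (Fact.out : p.Prime).one_lt
  have h3 : 1 < (p : ℝ) ^ r := one_lt_pow₀ hp (by omega)
  intro t N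
  obtain ⟨x, hx⟩ : ∃ x, x = xa p r a (t + p ^ N) := ⟨_, rfl⟩
  obtain ⟨y, hy⟩ : ∃ y, y = xa p r a t := ⟨_, rfl⟩
  have hxn : ‖x‖ = (p : ℝ) ^ r := by rw [hx]; exact norm_xa hr ha _
  have hyn : ‖y‖ = (p : ℝ) ^ r := by rw [hy]; exact norm_xa hr ha _
  have hx0 : x ≠ 0 := by
    intro e
    rw [e, norm_zero] at hxn
    linarith
  have hy0 : y ≠ 0 := by
    intro e
    rw [e, norm_zero] at hyn
    linarith
  have hxi : ‖x⁻¹‖ ≤ 1 := by
    rw [norm_inv, hxn]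
    exact inv_le_one_of_one_le₀ h3.le
  have hyi : ‖y⁻¹‖ ≤ 1 := by
    rw [norm_inv, hyn]
    exact inv_le_one_of_one_le₀ h3.le
  have hxy : y - x = -(p : ℚ_[p]) ^ N := by
    rw [hx, hy]
    unfold xa
    push_cast
    ring
  have hd : x⁻¹ - y⁻¹ = (y - x) * (x⁻¹ * y⁻¹) := by
    field_simp
  change ‖((xa p r a (t + p ^ N)) ^ i)⁻¹ - ((xa p r a t) ^ i)⁻¹‖ ≤ _
  rw [← hx, ← hy, ← inv_pow, ← inv_pow, one_mul]
  refine le_trans (pow_lip hxi hyi i) ?_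
  rw [hd, norm_mul, hxy, norm_neg, norm_pw, norm_mul]
  exact mul_le_of_le_one_right (by positivity) (mul_le_one₀ hxi (norm_nonneg _) hyi)

end BE1

/-- block E1 -/
theorem p_E1 (h2 : S_F2) : S_E1 := by
  intro p _ hp r a i hr ha
  obtain ⟨L, hL⟩ := h2 p hp _ 1 zero_le_one (BE1.lip hr ha i)
  exact tendsto_nhds_limUnder ⟨L, hL⟩

end Pool.Agent.Work.MP_03df5c_pb
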