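import Pool.Agent.Work.MP_03df5c_pb.Interface1

/-!
# Block E2: the shifted powers
-/

open Finset Filter Topology

namespace Pool.Agent.Work.MP_03df5c_pb

namespace BE2

variable {p : ℕ} [hp : Fact p.Prime]

theorem xa_ge {r a : ℕ} (hr : 1 ≤ r) (ha : ¬ p ∣ a) (t : ℕ) : 1 ≤ ‖xa p r a t‖ := by
  have hp1 : (1 : ℝ) < p := by exact_mod_cast hp.out.one_lt
  have h1 : ‖(a : ℚ_[p])‖ = 1 := by
    rw [Padic.norm_natCast_eq_one_iff]
    exact (Nat.Prime.coprime_iff_not_dvd hp.out).2 ha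
  have h2 : ‖(a : ℚ_[p]) / (p : ℚ_[p]) ^ r‖ = (p : ℝ) ^ r := by
    rw [norm_div, h1, norm_pow, Padic.norm_p, inv_pow, one_div, inv_inv]
  have h3 : ‖(t : ℚ_[p])‖ ≤ 1 := by
    have := Padic.norm_int_le_one (p := p) (t : ℤ)
    simpa using this
  have h4 : (1 : ℝ) < (p : ℝ) ^ r := one_lt_pow₀ hp1 (by omega)
  have h5 : ‖(a : ℚ_[p]) / (p : ℚ_[p]) ^ r‖ ≠ ‖(t : ℚ_[p])‖ := by
    rw [h2]
    intro e
    linarith
  unfold xa
  rw [Padic.add_eq_max_of_ne h5, h2]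
  exact le_trans h4.le (le_max_left _ _)

theorem pow_lip {u v : ℚ_[p]} (hu : ‖u‖ ≤ 1) (hv : ‖v‖ ≤ 1) (i : ℕ) : ‖u ^ i - v ^ i‖ ≤ ‖u - v‖ := by
  induction i with
  | zero => simp
  | succ i ih =>
    have e : u ^ (i + 1) - v ^ (i + 1) = u ^ i * (u - v) + (u ^ i - v ^ i) * v := by ring
    rw [e]
    refine le_trans (Padic.nonarchimedean _ _) (max_le ?_ ?_)
    · rw [norm_mul, norm_pow]
      exact mul_le_of_le_one_left (norm_nonneg _) (pow_le_one₀ (norm_nonneg _) hu)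
    · rw [norm_mul]
      exact le_trans (mul_le_of_le_one_right (norm_nonneg _) hv) ih

theorem lip {r a : ℕ} (hr : 1 ≤ r) (ha : ¬ p ∣ a) (i j : ℕ) :
    Lip p (fun t => ((xa p r a (t + j)) ^ i)⁻¹) 1 := by
  intro t N
  change ‖((xa p r a (t + p ^ N + j)) ^ i)⁻¹ - ((xa p r a (t + j)) ^ i)⁻¹‖ ≤ _
  have h1 := xa_ge (p := p) hr ha (t + p ^ N + j)
  have h2 := xa_ge (p := p) hr ha (t + j)
  have e0 : xa p r a (t + p ^ N + j) = xa p r a (t + j) + (p : ℚ_[p]) ^ N := by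
    unfold xa
    push_cast
    ring
  have n1 : xa p r a (t + p ^ N + j) ≠ 0 := by
    intro e
    rw [e, norm_zero] at h1
    linarith
  have n2 : xa p r a (t + j) ≠ 0 := by
    intro e
    rw [e, norm_zero] at h2
    linarith
  rw [← inv_pow, ← inv_pow]
  refine le_trans (pow_lip ?_ ?_ i) ?_
  · rw [norm_inv]
    exact inv_le_one_of_one_le₀ h1
  · rw [norm_inv]
    exact inv_le_one_of_one_le₀ h2
  · have e1 : (xa p r a (t + p ^ N + j))⁻¹ - (xa p r a (t + j))⁻¹ =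
        -((p : ℚ_[p]) ^ N * ((xa p r a (t + p ^ N + j))⁻¹ * (xa p r a (t + j))⁻¹)) := by
      have e2 : (p : ℚ_[p]) ^ N = xa p r a (t + p ^ N + j) - xa p r a (t + j) := by
        rw [e0]
        ring
      rw [e2]
      field_simp
      ring
    rw [e1, norm_neg, norm_mul, norm_pow, Padic.norm_p, one_mul, inv_pow, norm_mul, norm_inv, norm_inv]
    refine mul_le_of_le_one_right (inv_nonneg.2 (pow_nonneg (Nat.cast_nonneg p) N)) ?_
    exact mul_le_one₀ (inv_le_one_of_one_le₀ h1) (inv_nonneg.2 (norm_nonneg _)) (inv_le_one_of_one_le₀ h2)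

end BE2

theorem p_E2 (h1 : S_E1) (h3 : S_F3) : S_E2 := by
  intro p hp hp2 r a i hr ha j
  induction j with
  | zero =>
    have := h1 p hp2 r a i hr ha
    simpa using this
  | succ j ih =>
    have h := h3 p hp2 _ 1 zero_le_one (BE2.lip hr ha i j) _ ih
    have e1 : (fun t => (fun t => ((xa p r a (t + j)) ^ i)⁻¹) (t + 1)) =
        fun t => ((xa p r a (t + (j + 1))) ^ i)⁻¹ := by
      funext t
      change ((xa p r a (t + 1 + j)) ^ i)⁻¹ = _
      rw [show t + 1 + j = t + (j + 1) by omega]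
    rw [e1] at h
    convert h using 1
    change _ = 2 * ((xa p r a (0 + j)) ^ i)⁻¹ -
      ((-1) ^ j * Ev p r i a + 2 * ∑ l ∈ range j, (-1) ^ (j - 1 - l) * ((xa p r a l) ^ i)⁻¹)
    rw [zero_add, sum_range_succ]
    have e2 : ∑ l ∈ range j, (-1 : ℚ_[p]) ^ (j + 1 - 1 - l) * ((xa p r a l) ^ i)⁻¹ =
        - ∑ l ∈ range j, (-1 : ℚ_[p]) ^ (j - 1 - l) * ((xa p r a l) ^ i)⁻¹ := by
      rw [← sum_neg_distrib]
      refine sum_congr rfl fun l hl => ?_
      have hl' := mem_range.1 hl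
      rw [show j + 1 - 1 - l = (j - 1 - l) + 1 by omega, pow_succ]
      ring
    rw [e2, show j + 1 - 1 - j = 0 by omega, pow_succ]
    ring

end Pool.Agent.Work.MP_03df5c_pb
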