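import Pool.Agent.Work.MP_03df5c_pb.Interface1

/-!
# Block E3: convergence of `Jf` and the sum over the residue classes
-/

open Finset Filter Topology

namespace Pool.Agent.Work.MP_03df5c_pb

theorem e3_exact (p : ℕ) [Fact p.Prime] (hp : p ≠ 2) (i r : ℕ) (hr : 1 ≤ r) (N : ℕ) :
    ∑ a ∈ AA p r, (-1) ^ a * fs p (fun t => ((xa p r a t) ^ i)⁻¹) N =
      (p : ℚ_[p]) ^ (r * i) * Jf p i (N + r) := by
  have hpp : p.Prime := Fact.out
  have hp0 : (p : ℚ_[p]) ≠ 0 := by exact_mod_cast hpp.ne_zero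
  have hprpos : 0 < p ^ r := pow_pos hpp.pos r
  have hdvd : p ∣ p ^ r := dvd_pow_self p (by omega)
  have hodd : Odd (p ^ r) := (hpp.odd_of_ne_two hp).pow
  unfold fs Jf AA
  simp only [Finset.mul_sum]
  rw [← Finset.sum_product' ((range (p ^ r)).filter (fun a => ¬ p ∣ a)) (range (p ^ N))
    (fun a t => (-1 : ℚ_[p]) ^ a * ((-1) ^ t * ((xa p r a t) ^ i)⁻¹))]
  refine Finset.sum_nbij' (fun x => x.1 + p ^ r * x.2) (fun n => (n % p ^ r, n / p ^ r))
    ?_ ?_ ?_ ?_ ?_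
  · rintro ⟨a, t⟩ hx
    simp only [Finset.mem_product, Finset.mem_filter, Finset.mem_range] at hx ⊢
    obtain ⟨⟨ha, hpa⟩, ht⟩ := hx
    refine ⟨?_, ?_⟩
    · have h1 : p ^ r * (t + 1) ≤ p ^ r * p ^ N := Nat.mul_le_mul le_rfl ht
      rw [pow_add, mul_comm (p ^ N)]
      rw [mul_add, mul_one] at h1
      omega
    · intro h
      exact hpa ((Nat.dvd_add_left (hdvd.mul_right t)).1 h)
  · intro n hn
    simp only [Finset.mem_product, Finset.mem_filter, Finset.mem_range] at hn ⊢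
    refine ⟨⟨Nat.mod_lt _ hprpos, ?_⟩, ?_⟩
    · intro h
      exact hn.2 ((Nat.dvd_mod_iff hdvd).1 h)
    · apply Nat.div_lt_of_lt_mul
      rw [← pow_add, add_comm r N]
      exact hn.1
  · rintro ⟨a, t⟩ hx
    simp only [Finset.mem_product, Finset.mem_filter, Finset.mem_range] at hx
    have ha := hx.1.1
    simp only [Prod.mk.injEq]
    refine ⟨?_, ?_⟩
    · rw [Nat.add_mul_mod_self_left, Nat.mod_eq_of_lt ha]
    · rw [Nat.add_mul_div_left _ _ hprpos, Nat.div_eq_of_lt ha, zero_add]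
  · intro n hn
    exact Nat.mod_add_div n (p ^ r)
  · rintro ⟨a, t⟩ hx
    simp only
    have hsgn : (-1 : ℚ_[p]) ^ (a + p ^ r * t) = (-1) ^ a * (-1) ^ t := by
      rw [pow_add, pow_mul, hodd.neg_one_pow]
    have hpr0 : (p : ℚ_[p]) ^ r ≠ 0 := pow_ne_zero _ hp0
    have hx1 : xa p r a t = (((a + p ^ r * t : ℕ) : ℚ_[p])) / (p : ℚ_[p]) ^ r := by
      unfold xa
      push_cast
      field_simp
    rw [hsgn, hx1, div_pow, inv_div, ← pow_mul, div_eq_mul_inv]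
    ring

/-- Block E3. -/
theorem p_E3 (h1 : S_E1) : S_E3 := by
  intro p _ hp i
  have hpp : p.Prime := Fact.out
  have hp0 : (p : ℚ_[p]) ≠ 0 := by exact_mod_cast hpp.ne_zero
  have key : ∀ r, 1 ≤ r → Tendsto (fun N => (p : ℚ_[p]) ^ (r * i) * Jf p i (N + r)) atTop
      (𝓝 (∑ a ∈ AA p r, (-1) ^ a * Ev p r i a)) := by
    intro r hr
    have h2 : Tendsto (fun N => ∑ a ∈ AA p r, (-1) ^ a * fs p (fun t => ((xa p r a t) ^ i)⁻¹) N)
        atTop (𝓝 (∑ a ∈ AA p r, (-1) ^ a * Ev p r i a)) := by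
      apply tendsto_finsetSum
      intro a ha
      have hpa : ¬ p ∣ a := (Finset.mem_filter.1 ha).2
      exact (h1 p hp r a i hr hpa).const_mul ((-1 : ℚ_[p]) ^ a)
    refine h2.congr ?_
    intro N
    exact e3_exact p hp i r hr N
  have hconv : ∃ L, Tendsto (Jf p i) atTop (𝓝 L) := by
    have h3 := (key 1 le_rfl).const_mul (((p : ℚ_[p]) ^ (1 * i))⁻¹)
    have h4 : Tendsto (fun N => Jf p i (N + 1)) atTop
        (𝓝 (((p : ℚ_[p]) ^ (1 * i))⁻¹ * ∑ a ∈ AA p 1, (-1) ^ a * Ev p 1 i a)) := by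
      refine h3.congr ?_
      intro N
      rw [← mul_assoc, inv_mul_cancel₀ (pow_ne_zero _ hp0), one_mul]
    exact ⟨_, (tendsto_add_atTop_iff_nat 1).1 h4⟩
  have hJ : Tendsto (Jf p i) atTop (𝓝 (JJ p i)) := by
    obtain ⟨L, hL⟩ := hconv
    have : JJ p i = L := hL.limUnder_eq
    rw [this]
    exact hL
  refine ⟨hJ, ?_⟩
  intro r hr
  have h5 : Tendsto (fun N => (p : ℚ_[p]) ^ (r * i) * Jf p i (N + r)) atTop
      (𝓝 ((p : ℚ_[p]) ^ (r * i) * JJ p i)) :=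
    ((tendsto_add_atTop_iff_nat r).2 hJ).const_mul _
  exact tendsto_nhds_unique (key r hr) h5

end Pool.Agent.Work.MP_03df5c_pb
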