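import Pool.Agent.Work.MP_03df5c_pb.Interface1

/-!
# Block E4: even exponents

The reflection `n ↦ p ^ N - n`.
-/

open Finset Filter Topology

namespace Pool.Agent.Work.MP_03df5c_pb

open Pool.Agent.Work.MP_03df5c_h91

namespace BE4

lemma neg_one_pow_sub {q n : ℕ} (hq : Odd q) (h : n ≤ q) :
    ((-1 : ℤ)) ^ (q - n) = -(-1) ^ n := by
  have h1 : ((-1 : ℤ)) ^ (q - n) * (-1) ^ n = -1 := by
    rw [← pow_add, Nat.sub_add_cancel h, hq.neg_one_pow]
  rcases Nat.even_or_odd n with h2 | h2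
  · rw [h2.neg_one_pow] at h1 ⊢; simpa using h1
  · rw [h2.neg_one_pow] at h1 ⊢; linarith

lemma reflect {p : ℕ} [hp : Fact p.Prime] (N : ℕ) (hN : N ≠ 0) (f : ℕ → ℚ_[p]) :
    ∑ n ∈ (range (p ^ N)).filter (fun a => ¬ p ∣ a), f (p ^ N - n) =
      ∑ n ∈ (range (p ^ N)).filter (fun a => ¬ p ∣ a), f n := by
  have hpN : p ∣ p ^ N := dvd_pow_self p hN
  have key : ∀ a ∈ (range (p ^ N)).filter (fun a => ¬ p ∣ a),
      p ^ N - a ∈ (range (p ^ N)).filter (fun a => ¬ p ∣ a) := by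
    intro a ha
    simp only [mem_filter, mem_range] at ha ⊢
    have ha0 : a ≠ 0 := by rintro rfl; exact ha.2 (dvd_zero p)
    refine ⟨by omega, fun hd => ha.2 ?_⟩
    exact (Nat.dvd_sub_iff_right ha.1.le hpN).1 hd
  refine sum_nbij' (fun n => p ^ N - n) (fun n => p ^ N - n) key key ?_ ?_ ?_
  · intro a ha
    simp only [mem_filter, mem_range] at ha
    show p ^ N - (p ^ N - a) = a
    omega
  · intro a ha
    simp only [mem_filter, mem_range] at ha
    show p ^ N - (p ^ N - a) = a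
    omega
  · intro a _
    rfl

lemma two_Jf {p : ℕ} [hp : Fact p.Prime] (hp2 : p ≠ 2) {i : ℕ} (hi : Even i) {N : ℕ}
    (hN : N ≠ 0) : ‖2 * Jf p i N‖ ≤ (p : ℝ) ^ (-(N : ℤ)) := by
  have hodd : Odd (p ^ N) := by
    rcases hp.out.eq_two_or_odd' with h | h
    · exact absurd h hp2
    · exact h.pow
  have e1 : Jf p i N = ∑ n ∈ (range (p ^ N)).filter (fun a => ¬ p ∣ a),
      -((-1) ^ n * ((((p ^ N - n : ℕ) : ℚ_[p])) ^ i)⁻¹) := by
    unfold Jf
    rw [← reflect N hN (fun n => (-1) ^ n * ((n : ℚ_[p]) ^ i)⁻¹)]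
    refine sum_congr rfl fun n hn => ?_
    simp only [mem_filter, mem_range] at hn
    have h := neg_one_pow_sub hodd hn.1.le
    have h' : ((-1 : ℚ_[p])) ^ (p ^ N - n) = -(-1) ^ n := by exact_mod_cast h
    rw [h']; ring
  have e2 : 2 * Jf p i N = ∑ n ∈ (range (p ^ N)).filter (fun a => ¬ p ∣ a),
      (-1) ^ n * (((n : ℚ_[p]) ^ i)⁻¹ - ((((p ^ N - n : ℕ) : ℚ_[p])) ^ i)⁻¹) := by
    have : 2 * Jf p i N = Jf p i N + Jf p i N := by ring
    rw [this]
    nth_rewrite 2 [e1]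
    unfold Jf
    rw [← sum_add_distrib]
    refine sum_congr rfl fun n _ => ?_
    ring
  rw [e2]
  refine norm_sum_le_of_le _ _ (by positivity) fun n hn => ?_
  simp only [mem_filter, mem_range] at hn
  have hdvd : p ∣ p ^ N := dvd_pow_self p hN
  have h1 : ‖(n : ℚ_[p])‖ = 1 := norm_nat_eq_one hn.2
  have h2 : ‖((p ^ N - n : ℕ) : ℚ_[p])‖ = 1 :=
    norm_nat_eq_one fun hd => hn.2 ((Nat.dvd_sub_iff_right hn.1.le hdvd).1 hd)
  have e3 : (((p ^ N - n : ℕ) : ℚ_[p])) ^ i = (-((p ^ N - n : ℕ) : ℚ_[p])) ^ i := by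
    rw [hi.neg_pow]
  rw [e3, norm_mul, norm_pow, norm_neg, norm_one, one_pow, one_mul]
  refine (norm_inv_pow_sub_le h1 (by rwa [norm_neg]) i).trans ?_
  have e4 : (n : ℚ_[p]) - -((p ^ N - n : ℕ) : ℚ_[p]) = (p : ℚ_[p]) ^ N := by
    rw [Nat.cast_sub hn.1.le, Nat.cast_pow]; ring
  rw [e4, Padic.norm_p_pow]

end BE4

theorem p_E4 (h3 : S_E3) : S_E4 := by
  intro p hp hp2 i hi
  have hT := (h3 p hp2 i).1
  have hp1 : (1 : ℝ) < p := by exact_mod_cast hp.out.one_lt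
  have hp0 : (0 : ℝ) < p := by linarith
  have h0 : Tendsto (fun N => 2 * Jf p i N) atTop (𝓝 0) := by
    rw [tendsto_zero_iff_norm_tendsto_zero]
    have hz : Tendsto (fun N : ℕ => (1 / (p : ℝ)) ^ N) atTop (𝓝 0) :=
      tendsto_pow_atTop_nhds_zero_of_lt_one (r := 1 / (p : ℝ)) (by positivity)
        (by rw [div_lt_one hp0]; exact hp1)
    refine squeeze_zero' (Eventually.of_forall fun _ => norm_nonneg _) ?_ hz
    filter_upwards [eventually_ge_atTop 1] with N hN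
    have e1 : (p : ℝ) ^ (-(N : ℤ)) = (1 / (p : ℝ)) ^ N := by
      rw [zpow_neg, zpow_natCast, one_div, inv_pow]
    rw [← e1]
    exact BE4.two_Jf hp2 hi (by omega)
  have h1 := tendsto_nhds_unique (hT.const_mul 2) h0
  simpa using h1

end Pool.Agent.Work.MP_03df5c_pb
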