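import Pool.Agent.Work.MP_03df5c_pb.Interface1

/-!
# Block E5: the Kubota-Leopoldt values

Multiplication by `2` permutes the units modulo `p ^ N`.
-/

open Finset Filter Topology

namespace Pool.Agent.Work.MP_03df5c_pb

open Pool.Agent.Work.MP_03df5c_h91

namespace BE5

/-- multiplication by `g` permutes the residues prime to `p` modulo `p ^ N`. -/
lemma sum_perm {p : ℕ} [hp : Fact p.Prime] {g : ℕ} (hg : ¬ p ∣ g) {N : ℕ} (hN : N ≠ 0)
    (f : ℕ → ℚ_[p]) :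
    ∑ a ∈ (range (p ^ N)).filter (fun a => ¬ p ∣ a), f (g * a % p ^ N) =
      ∑ a ∈ (range (p ^ N)).filter (fun a => ¬ p ∣ a), f a := by
  have hpN : 0 < p ^ N := pow_pos hp.out.pos N
  have hinj : Set.InjOn (fun a => g * a % p ^ N)
      ((range (p ^ N)).filter (fun a => ¬ p ∣ a) : Finset ℕ) := by
    intro a ha b hb hab
    replace ha := Finset.mem_filter.1 (Finset.mem_coe.1 ha)
    replace hb := Finset.mem_filter.1 (Finset.mem_coe.1 hb)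
    simp only [mem_range] at ha hb
    have h1 : g * a ≡ g * b [MOD p ^ N] := hab
    have hcop : Nat.Coprime (p ^ N) g :=
      Nat.Coprime.pow_left N ((Nat.Prime.coprime_iff_not_dvd hp.out).2 hg)
    have h2 : a ≡ b [MOD p ^ N] := Nat.ModEq.cancel_left_of_coprime hcop h1
    exact Nat.ModEq.eq_of_lt_of_lt h2 ha.1 hb.1
  have hmaps : ∀ a ∈ (range (p ^ N)).filter (fun a => ¬ p ∣ a),
      g * a % p ^ N ∈ (range (p ^ N)).filter (fun a => ¬ p ∣ a) := by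
    intro a ha
    simp only [mem_filter, mem_range] at ha ⊢
    exact ⟨Nat.mod_lt _ hpN, not_dvd_mod hN (hp.out.not_dvd_mul hg ha.2)⟩
  have himg : ((range (p ^ N)).filter (fun a => ¬ p ∣ a)).image (fun a => g * a % p ^ N)
      = (range (p ^ N)).filter (fun a => ¬ p ∣ a) := by
    apply Finset.eq_of_subset_of_card_le
    · intro x hx
      obtain ⟨a, ha, rfl⟩ := mem_image.1 hx
      exact hmaps a ha
    · rw [card_image_of_injOn hinj]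
  conv_rhs => rw [← himg]
  rw [sum_image (fun a ha b hb h => hinj ha hb h)]

/-- `2 a = v + (v mod 2) p ^ N` for `v = 2 a mod p ^ N`. -/
lemma two_mul_eq {q a : ℕ} (hq : q % 2 = 1) (ha : a < q) :
    2 * a = 2 * a % q + (2 * a % q % 2) * q := by
  rcases lt_or_ge (2 * a) q with h | h
  · rw [Nat.mod_eq_of_lt h]; simp
  · have h1 : 2 * a % q = 2 * a - q := by
      rw [Nat.mod_eq_sub_mod h, Nat.mod_eq_of_lt (by omega)]
    rw [h1]
    have h2 : (2 * a - q) % 2 = 1 := by omega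
    rw [h2]; omega

/-- the odd part of the sum -/
noncomputable def oddSum (p : ℕ) [Fact p.Prime] (k N : ℕ) : ℚ_[p] :=
  ∑ v ∈ (range (p ^ N)).filter (fun a => ¬ p ∣ a), ((v % 2 : ℕ) : ℚ_[p]) * ((v : ℚ_[p]) ^ k)⁻¹

lemma Jf_eq (p : ℕ) [Fact p.Prime] (k N : ℕ) :
    Jf p k N = invPowSum p k N - 2 * oddSum p k N := by
  unfold Jf invPowSum oddSum
  rw [mul_sum, ← sum_sub_distrib]
  refine sum_congr rfl fun v _ => ?_
  have h : ((-1 : ℚ_[p])) ^ v = 1 - 2 * ((v % 2 : ℕ) : ℚ_[p]) := by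
    rcases Nat.mod_two_eq_zero_or_one v with h | h
    · rw [h, (Nat.even_iff.2 h).neg_one_pow]; simp
    · rw [h, (Nat.odd_iff.2 h).neg_one_pow]; norm_num
  rw [h]; ring

/-- the key estimate -/
lemma key {p : ℕ} [hp : Fact p.Prime] (hp2 : p ≠ 2) (r : ℕ) {N : ℕ} (hN : N ≠ 0) :
    ‖(((2 : ℚ_[p]) ^ r)⁻¹ - 1) * invPowSum p r N
      + (r : ℚ_[p]) * (p : ℚ_[p]) ^ N * oddSum p (r + 1) N‖ ≤ ((p : ℝ) ^ (-(N : ℤ))) ^ 2 := by
  have hodd : p % 2 = 1 := by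
    rcases hp.out.eq_two_or_odd with h | h
    · exact absurd h hp2
    · exact h
  have hq : p ^ N % 2 = 1 := by
    rw [Nat.pow_mod, hodd]; simp
  have hg : ¬ p ∣ 2 := by
    intro h
    exact hp2 ((Nat.prime_dvd_prime_iff_eq hp.out Nat.prime_two).1 h)
  have e1 : ((2 : ℚ_[p]) ^ r)⁻¹ * invPowSum p r N
      = ∑ v ∈ (range (p ^ N)).filter (fun a => ¬ p ∣ a),
        (((v : ℚ_[p]) + ((v % 2 : ℕ) : ℚ_[p]) * (p : ℚ_[p]) ^ N) ^ r)⁻¹ := by
    rw [← sum_perm hg hN (fun v => (((v : ℚ_[p]) + ((v % 2 : ℕ) : ℚ_[p]) * (p : ℚ_[p]) ^ N) ^ r)⁻¹)]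
    unfold invPowSum
    rw [mul_sum]
    refine sum_congr rfl fun a ha => ?_
    simp only [mem_filter, mem_range] at ha
    have h := two_mul_eq hq ha.1
    have h' : ((2 : ℚ_[p])) * (a : ℚ_[p])
        = ((2 * a % p ^ N : ℕ) : ℚ_[p]) + ((2 * a % p ^ N % 2 : ℕ) : ℚ_[p]) * (p : ℚ_[p]) ^ N := by
      have h'' : ((2 * a : ℕ) : ℚ_[p])
          = ((2 * a % p ^ N + (2 * a % p ^ N % 2) * p ^ N : ℕ) : ℚ_[p]) := by rw [← h]
      rw [Nat.cast_mul, Nat.cast_add, Nat.cast_mul, Nat.cast_pow] at h''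
      exact_mod_cast h''
    rw [← mul_inv, ← mul_pow, h']
  have e : (((2 : ℚ_[p]) ^ r)⁻¹ - 1) * invPowSum p r N
      + (r : ℚ_[p]) * (p : ℚ_[p]) ^ N * oddSum p (r + 1) N
      = ∑ v ∈ (range (p ^ N)).filter (fun a => ¬ p ∣ a),
        ((((v : ℚ_[p]) + ((v % 2 : ℕ) : ℚ_[p]) * (p : ℚ_[p]) ^ N) ^ r)⁻¹ - ((v : ℚ_[p]) ^ r)⁻¹
          + r * (((v % 2 : ℕ) : ℚ_[p]) * (p : ℚ_[p]) ^ N) * ((v : ℚ_[p]) ^ (r + 1))⁻¹) := by
    rw [sub_mul, one_mul, e1]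
    unfold invPowSum oddSum
    rw [mul_sum, ← sum_sub_distrib, ← sum_add_distrib]
    refine sum_congr rfl fun v _ => ?_
    ring
  rw [e]
  refine norm_sum_le_of_le _ _ (by positivity) fun v hv => ?_
  simp only [mem_filter, mem_range] at hv
  have hdvd : p ∣ p ^ N := dvd_pow_self p hN
  have hv1 : ‖(v : ℚ_[p])‖ = 1 := norm_nat_eq_one hv.2
  have hv2 : ‖(v : ℚ_[p]) + ((v % 2 : ℕ) : ℚ_[p]) * (p : ℚ_[p]) ^ N‖ = 1 := by
    have h : ¬ p ∣ v + (v % 2) * p ^ N := fun hd =>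
      hv.2 ((Nat.dvd_add_left (dvd_mul_of_dvd_right hdvd _)).1 hd)
    have h' := norm_nat_eq_one (p := p) h
    rw [Nat.cast_add, Nat.cast_mul, Nat.cast_pow] at h'
    exact h'
  have hy : ‖((v % 2 : ℕ) : ℚ_[p]) * (p : ℚ_[p]) ^ N‖ ≤ (p : ℝ) ^ (-(N : ℤ)) := by
    rw [norm_mul, Padic.norm_p_pow]
    exact mul_le_of_le_one_left (by positivity) (norm_natCast_le_one _)
  have hy1 : ‖((v % 2 : ℕ) : ℚ_[p]) * (p : ℚ_[p]) ^ N‖ ≤ 1 := by
    rw [norm_mul, ← Nat.cast_pow]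
    exact mul_le_one₀ (norm_natCast_le_one _) (norm_nonneg _) (norm_natCast_le_one _)
  refine (norm_inv_expand_le hv1 hv2 hy1 r).trans ?_
  exact pow_le_pow_left₀ (norm_nonneg _) hy 2

lemma tendsto_invPowSum (p : ℕ) [hp : Fact p.Prime] {r : ℕ} (hr : r ≠ 0) :
    Tendsto (invPowSum p r) atTop (𝓝 0) := by
  obtain ⟨C, hC, hCN⟩ := exists_norm_invPowSum_le p hr
  have hp1 : (1 : ℝ) < p := by exact_mod_cast hp.out.one_lt
  have hp0 : (0 : ℝ) < p := by linarith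
  rw [tendsto_zero_iff_norm_tendsto_zero]
  have hz : Tendsto (fun N : ℕ => C * (1 / (p : ℝ)) ^ N) atTop (𝓝 0) := by
    have := (tendsto_pow_atTop_nhds_zero_of_lt_one (r := 1 / (p : ℝ)) (by positivity)
      (by rw [div_lt_one hp0]; exact hp1)).const_mul C
    rwa [mul_zero] at this
  refine squeeze_zero (fun _ => norm_nonneg _) (fun N => ?_) hz
  have e1 : (p : ℝ) ^ (-(N : ℤ)) = (1 / (p : ℝ)) ^ N := by
    rw [zpow_neg, zpow_natCast, one_div, inv_pow]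
  rw [← e1]
  exact hCN N

/-- the limit of `Jf p (r + 1)` -/
lemma tendsto_Jf {p : ℕ} [hp : Fact p.Prime] (hp2 : p ≠ 2) {r : ℕ} (hr : 1 ≤ r) :
    Tendsto (Jf p (r + 1)) atTop
      (𝓝 (2 * ((2 : ℚ_[p]) ^ r)⁻¹ * (r : ℚ_[p])⁻¹ * limUnder atTop (klSum p (r + 1))
        - 2 * (r : ℚ_[p])⁻¹ * limUnder atTop (klSum p (r + 1)))) := by
  have hp1 : (1 : ℝ) < p := by exact_mod_cast hp.out.one_lt
  have hp0 : (0 : ℝ) < p := by linarith
  have hpq : (p : ℚ_[p]) ≠ 0 := by exact_mod_cast hp.out.ne_zero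
  have hr0 : (r : ℚ_[p]) ≠ 0 := by exact_mod_cast (by omega : r ≠ 0)
  set L := limUnder atTop (klSum p (r + 1)) with hL
  have hkl : Tendsto (klSum p (r + 1)) atTop (𝓝 L) := tendsto_klSum p (by omega)
  have hinv : Tendsto (invPowSum p (r + 1)) atTop (𝓝 0) := tendsto_invPowSum p (by omega)
  -- the error term
  have herr : Tendsto (fun N => 2 * (r : ℚ_[p])⁻¹ * (((p : ℚ_[p]) ^ N)⁻¹
      * ((((2 : ℚ_[p]) ^ r)⁻¹ - 1) * invPowSum p r N
      + (r : ℚ_[p]) * (p : ℚ_[p]) ^ N * oddSum p (r + 1) N))) atTop (𝓝 0) := by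
    rw [tendsto_zero_iff_norm_tendsto_zero]
    have hz : Tendsto (fun N : ℕ => ‖2 * (r : ℚ_[p])⁻¹‖ * (1 / (p : ℝ)) ^ N) atTop (𝓝 0) := by
      have := (tendsto_pow_atTop_nhds_zero_of_lt_one (r := 1 / (p : ℝ)) (by positivity)
        (by rw [div_lt_one hp0]; exact hp1)).const_mul ‖2 * (r : ℚ_[p])⁻¹‖
      rwa [mul_zero] at this
    refine squeeze_zero' (Eventually.of_forall fun _ => norm_nonneg _) ?_ hz
    filter_upwards [eventually_ge_atTop 1] with N hN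
    rw [norm_mul]
    refine mul_le_mul_of_nonneg_left ?_ (norm_nonneg _)
    rw [norm_mul, norm_inv, Padic.norm_p_pow]
    have e1 : (p : ℝ) ^ (-(N : ℤ)) = (1 / (p : ℝ)) ^ N := by
      rw [zpow_neg, zpow_natCast, one_div, inv_pow]
    have hk := key hp2 r (N := N) (by omega)
    calc ((p : ℝ) ^ (-(N : ℤ)))⁻¹ * _
        ≤ ((p : ℝ) ^ (-(N : ℤ)))⁻¹ * ((p : ℝ) ^ (-(N : ℤ))) ^ 2 :=
          mul_le_mul_of_nonneg_left hk (by positivity)
      _ = (p : ℝ) ^ (-(N : ℤ)) := by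
          have : (p : ℝ) ^ (-(N : ℤ)) ≠ 0 := by positivity
          field_simp
      _ = (1 / (p : ℝ)) ^ N := e1
  have hmain := ((hkl.const_mul (2 * ((2 : ℚ_[p]) ^ r)⁻¹ * (r : ℚ_[p])⁻¹)).sub
    (hkl.const_mul (2 * (r : ℚ_[p])⁻¹))).add (hinv.sub herr)
  have e0 : 2 * ((2 : ℚ_[p]) ^ r)⁻¹ * (r : ℚ_[p])⁻¹ * L - 2 * (r : ℚ_[p])⁻¹ * L + ((0 : ℚ_[p]) - 0)
      = 2 * ((2 : ℚ_[p]) ^ r)⁻¹ * (r : ℚ_[p])⁻¹ * L - 2 * (r : ℚ_[p])⁻¹ * L := by ring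
  rw [e0] at hmain
  refine hmain.congr fun N => ?_
  rw [Jf_eq]
  simp only [klSum, Nat.add_sub_cancel]
  have hN : (p : ℚ_[p]) ^ N ≠ 0 := pow_ne_zero _ hpq
  field_simp
  ring

end BE5

theorem p_E5 : S_E5 := by
  intro p hp hp2 k hk
  obtain ⟨r, rfl⟩ : ∃ r, k = r + 1 := ⟨k - 1, by omega⟩
  have h := BE5.tendsto_Jf hp2 (r := r) (by omega)
  have hJ : JJ p (r + 1) = _ := h.limUnder_eq
  rw [hJ, kubotaLeopoldt_eq hk]
  simp only [Nat.add_sub_cancel]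
  push_cast
  rw [add_sub_cancel_right]
  ring

end Pool.Agent.Work.MP_03df5c_pb
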