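import Pool.Agent.Work.MP_03df5c_pb.Interface1

/-!
# F1: one step of the alternating sums
-/

open Finset Filter Topology

namespace Pool.Agent.Work.MP_03df5c_pb

namespace BF1

lemma sum_blocks {M : Type*} [AddCommMonoid M] (g : ℕ → M) (q : ℕ) : ∀ k : ℕ,
    ∑ t ∈ range (k * q), g t = ∑ j ∈ range k, ∑ t ∈ range q, g (j * q + t)
  | 0 => by simp
  | k + 1 => by
    rw [Nat.succ_mul, Finset.sum_range_add, sum_blocks g q k, Finset.sum_range_succ]

lemma sum_signs (R : Type*) [CommRing R] : ∀ k : ℕ,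
    ∑ j ∈ range (2 * k + 1), (-1 : R) ^ j = 1
  | 0 => by simp
  | k + 1 => by
    have h : 2 * (k + 1) + 1 = (2 * k + 1) + 1 + 1 := by ring
    rw [h, Finset.sum_range_succ, Finset.sum_range_succ, sum_signs R k]
    ring

lemma lip_iter (p : ℕ) [Fact p.Prime] (f : ℕ → ℚ_[p]) (C : ℝ) (hC : 0 ≤ C) (hf : Lip p f C)
    (N t : ℕ) : ∀ j : ℕ, ‖f (j * p ^ N + t) - f t‖ ≤ C * ((p : ℝ) ^ N)⁻¹
  | 0 => by
    simp only [Nat.zero_mul, Nat.zero_add, sub_self, norm_zero]
    positivity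
  | j + 1 => by
    have h1 := lip_iter p f C hC hf N t j
    have h2 := hf (j * p ^ N + t) N
    have h3 : (j + 1) * p ^ N + t = j * p ^ N + t + p ^ N := by ring
    have h4 : f ((j + 1) * p ^ N + t) - f t =
        (f (j * p ^ N + t + p ^ N) - f (j * p ^ N + t)) + (f (j * p ^ N + t) - f t) := by
      rw [h3]; ring
    rw [h4]
    exact (IsUltrametricDist.norm_add_le_max _ _).trans (max_le h2 h1)

end BF1

theorem p_F1 : S_F1 := by
  intro p hp hp2 f C hC hf N
  have hodd : Odd p := hp.out.odd_of_ne_two hp2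
  obtain ⟨k, hk⟩ := hodd
  have hq : Odd (p ^ N) := (hp.out.odd_of_ne_two hp2).pow
  have hs : ∑ j ∈ range p, (-1 : ℚ_[p]) ^ j = 1 := by
    have h := BF1.sum_signs ℚ_[p] k
    rw [← hk] at h
    exact h
  have h1 : fs p f (N + 1) = ∑ j ∈ range p, ∑ t ∈ range (p ^ N),
      (-1) ^ (j * p ^ N + t) * f (j * p ^ N + t) := by
    unfold fs
    rw [pow_succ, mul_comm (p ^ N) p, BF1.sum_blocks]
  have h2 : fs p f N = ∑ j ∈ range p, ∑ t ∈ range (p ^ N), (-1) ^ (j * p ^ N + t) * f t := by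
    have h3 : ∀ j ∈ range p, ∑ t ∈ range (p ^ N), (-1) ^ (j * p ^ N + t) * f t =
        (-1) ^ j * fs p f N := by
      intro j _
      unfold fs
      rw [Finset.mul_sum]
      refine Finset.sum_congr rfl fun t _ => ?_
      rw [pow_add, mul_comm j, pow_mul, hq.neg_one_pow]
      ring
    rw [Finset.sum_congr rfl h3, ← Finset.sum_mul, hs, one_mul]
  rw [h1, h2, ← Finset.sum_sub_distrib]
  have hB : 0 ≤ C * ((p : ℝ) ^ N)⁻¹ := by positivity
  refine IsUltrametricDist.norm_sum_le_of_forall_le_of_nonneg hB fun j _ => ?_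
  rw [← Finset.sum_sub_distrib]
  refine IsUltrametricDist.norm_sum_le_of_forall_le_of_nonneg hB fun t _ => ?_
  rw [← mul_sub, norm_mul, norm_pow, norm_neg, norm_one, one_pow, one_mul]
  exact BF1.lip_iter p f C hC hf N t j

end Pool.Agent.Work.MP_03df5c_pb
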