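import Pool.Agent.Work.MP_03df5c_pb.Interface1

/-!
# Block F2 (typed by helper83)
-/

open Finset Filter Topology

namespace Pool.Agent.Work.MP_03df5c_pb

theorem p_F2 (h1 : S_F1) : S_F2 := by
  intro p hp hp2 f C hC hf
  have hp1 : (1 : ℝ) < p := by exact_mod_cast hp.out.one_lt
  have hcs : CauchySeq (fs p f) := by
    apply cauchySeq_of_le_geometric ((p : ℝ)⁻¹) C (inv_lt_one_of_one_lt₀ hp1)
    intro n
    rw [dist_comm, dist_eq_norm, inv_pow]
    exact h1 p hp2 f C hC hf n
  exact cauchySeq_tendsto_of_complete hcs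

end Pool.Agent.Work.MP_03df5c_pb
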