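import Pool.Agent.Work.MP_03df5c_pb.Interface1

/-!
# Block F3 (typed by helper83)
-/

open Finset Filter Topology

namespace Pool.Agent.Work.MP_03df5c_pb

theorem p_F3 : S_F3 := by
  intro p hp hp2 f C hC hf L hL
  have hodd : Odd p := hp.out.odd_of_ne_two hp2
  have key : ∀ N, fs p (fun t => f (t + 1)) N = f 0 + f (p ^ N) - fs p f N := by
    intro N
    have h1 : ∑ t ∈ range (p ^ N + 1), (-1 : ℚ_[p]) ^ t * f t = fs p f N + (-1) ^ (p ^ N) * f (p ^ N) := by
      rw [sum_range_succ]
      rfl
    have h2 : ∑ t ∈ range (p ^ N + 1), (-1 : ℚ_[p]) ^ t * f t = - fs p (fun t => f (t + 1)) N + f 0 := by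
      rw [sum_range_succ']
      unfold fs
      rw [← sum_neg_distrib]
      congr 1
      · apply sum_congr rfl
        intro t _
        ring
      · simp
    rw [hodd.pow.neg_one_pow] at h1
    have h3 := h1.symm.trans h2
    linear_combination h3
  have hpN : Tendsto (fun N => f (p ^ N)) atTop (𝓝 (f 0)) := by
    have hp1 : (1 : ℝ) < p := by exact_mod_cast hp.out.one_lt
    rw [tendsto_iff_norm_sub_tendsto_zero]
    refine squeeze_zero (fun _ => norm_nonneg _) (fun N => ?_)
      (g := fun N => C * ((p : ℝ)⁻¹) ^ N) ?_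
    · have := hf 0 N
      rw [zero_add] at this
      rw [inv_pow]
      exact this
    · have h4 := (tendsto_pow_atTop_nhds_zero_of_lt_one (inv_nonneg.2 (by linarith : (0 : ℝ) ≤ p))
        (inv_lt_one_of_one_lt₀ hp1)).const_mul C
      rwa [mul_zero] at h4
  unfold HasI
  have h5 : fs p (fun t => f (t + 1)) = fun N => f 0 + f (p ^ N) - fs p f N := funext key
  rw [h5]
  have h6 := (hpN.const_add (f 0)).sub hL
  have e : f 0 + f 0 - L = 2 * f 0 - L := by ring
  rw [e] at h6
  exact h6

end Pool.Agent.Work.MP_03df5c_pb
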