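import Pool.Agent.Work.MP_03df5c_pb.Interface1

/-!
# Block F4 (typed by helper83)
-/

open Finset Filter Topology

namespace Pool.Agent.Work.MP_03df5c_pb

theorem p_F4 : S_F4 := by
  intro p hp f B hB L hL
  have hB0 : 0 ≤ B := (norm_nonneg _).trans (hB 0)
  refine le_of_tendsto (hL.norm) (Eventually.of_forall fun N => ?_)
  unfold fs
  refine IsUltrametricDist.norm_sum_le_of_forall_le_of_nonneg hB0 fun t _ => ?_
  rw [norm_mul, norm_pow, norm_neg, norm_one, one_pow, one_mul]
  exact hB t

end Pool.Agent.Work.MP_03df5c_pb
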