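import Pool.Agent.Work.MP_03df5c_pb.Interface1

/-!
F5 (MP_03df5c_nt, typed by helper53): the limit for `binom (t + K) K`.
-/

open Finset Filter Topology

namespace Pool.Agent.Work.MP_03df5c_pb

theorem F5_asc (p N t : ℕ) (k : ℕ) :
    ((p : ℤ) ^ N) ∣ (((t + p ^ N).ascFactorial k : ℕ) : ℤ) - ((t.ascFactorial k : ℕ) : ℤ) := by
  induction k with
  | zero => simp
  | succ k ih =>
    rw [Nat.ascFactorial_succ, Nat.ascFactorial_succ]
    push_cast
    have h : ((t : ℤ) + (p : ℤ) ^ N + k) * ((t + p ^ N).ascFactorial k : ℕ) -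
        ((t : ℤ) + k) * (t.ascFactorial k : ℕ) =
        ((t : ℤ) + k) * ((((t + p ^ N).ascFactorial k : ℕ) : ℤ) - ((t.ascFactorial k : ℕ) : ℤ)) +
          (p : ℤ) ^ N * ((t + p ^ N).ascFactorial k : ℕ) := by ring
    rw [h]
    exact dvd_add (Dvd.dvd.mul_left ih _) (Dvd.intro _ rfl)

theorem F5_lip (p : ℕ) [Fact p.Prime] (K : ℕ) :
    Lip p (fun t => (((t + K).choose (K + 1) : ℕ) : ℚ_[p]))
      (‖(((K + 1).factorial : ℕ) : ℚ_[p])‖⁻¹) := by
  intro t N
  have hF : (((K + 1).factorial : ℕ) : ℚ_[p]) ≠ 0 := by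
    exact_mod_cast Nat.factorial_ne_zero (K + 1)
  have hval : ∀ t : ℕ, (((t + K).choose (K + 1) : ℕ) : ℚ_[p]) =
      ((t.ascFactorial (K + 1) : ℕ) : ℚ_[p]) / (((K + 1).factorial : ℕ) : ℚ_[p]) := by
    intro t
    rw [eq_div_iff hF]
    have h := Nat.ascFactorial_eq_factorial_mul_choose' t (K + 1)
    have h2 : t + (K + 1) - 1 = t + K := by omega
    rw [h2] at h
    rw [h]
    push_cast
    ring
  simp only
  rw [hval (t + p ^ N), hval t, ← sub_div, norm_div, div_eq_mul_inv, mul_comm]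
  apply mul_le_mul_of_nonneg_left _ (by positivity)
  have h3 := F5_asc p N t (K + 1)
  have h4 := (Padic.norm_int_le_pow_iff_dvd (p := p)
    ((((t + p ^ N).ascFactorial (K + 1) : ℕ) : ℤ) - ((t.ascFactorial (K + 1) : ℕ) : ℤ)) N).2
      (by exact_mod_cast h3)
  have h5 : ((((((t + p ^ N).ascFactorial (K + 1) : ℕ) : ℤ) -
      ((t.ascFactorial (K + 1) : ℕ) : ℤ) : ℤ)) : ℚ_[p]) =
      (((t + p ^ N).ascFactorial (K + 1) : ℕ) : ℚ_[p]) -
        ((t.ascFactorial (K + 1) : ℕ) : ℚ_[p]) := by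
    push_cast
    ring
  rw [h5] at h4
  rw [zpow_neg, zpow_natCast] at h4
  exact h4

theorem F5_add (p : ℕ) [Fact p.Prime] (f g : ℕ → ℚ_[p]) (a b : ℚ_[p]) (hf : HasI p f a)
    (hg : HasI p g b) : HasI p (fun t => f t + g t) (a + b) := by
  unfold HasI at *
  have h : fs p (fun t => f t + g t) = fun N => fs p f N + fs p g N := by
    funext N
    unfold fs
    rw [← sum_add_distrib]
    refine sum_congr rfl ?_
    intro t _
    ring
  rw [h]
  exact hf.add hg

theorem F5_one (p : ℕ) [Fact p.Prime] (hp : p ≠ 2) : HasI p (fun _ => (1 : ℚ_[p])) 1 := by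
  unfold HasI
  have h1 : ∀ n : ℕ, ∑ t ∈ range n, (-1 : ℚ_[p]) ^ t = if Even n then 0 else 1 := by
    intro n
    exact neg_one_geom_sum
  have h : fs p (fun _ => (1 : ℚ_[p])) = fun _ => 1 := by
    funext N
    unfold fs
    have h2 : ∑ t ∈ range (p ^ N), (-1 : ℚ_[p]) ^ t * 1 =
        ∑ t ∈ range (p ^ N), (-1 : ℚ_[p]) ^ t := by
      refine sum_congr rfl ?_
      intro t _
      ring
    rw [h2, h1]
    have hodd : Odd (p ^ N) := (Nat.Prime.odd_of_ne_two (Fact.out) hp).pow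
    rw [if_neg (Nat.not_even_iff_odd.2 hodd)]
  rw [h]
  exact tendsto_const_nhds

theorem p_F5 (h2 : S_F2) (h3 : S_F3) : S_F5 := by
  intro p _ hp K
  induction K with
  | zero =>
    have h := F5_one p hp
    simpa using h
  | succ K ih =>
    have hL := F5_lip p K
    obtain ⟨L, hL1⟩ := h2 p hp _ _ (by positivity) hL
    have hs := h3 p hp _ _ (by positivity) hL L hL1
    have hsum := F5_add p _ _ _ _ ih hL1
    have e1 : (fun t : ℕ => (((t + 1 + K).choose (K + 1) : ℕ) : ℚ_[p])) =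
        fun t : ℕ => (((t + K).choose K : ℕ) : ℚ_[p]) +
          (((t + K).choose (K + 1) : ℕ) : ℚ_[p]) := by
      funext t
      have h : t + 1 + K = (t + K) + 1 := by ring
      rw [h, Nat.choose_succ_succ]
      push_cast
      ring
    have e0 : (((0 + K).choose (K + 1) : ℕ) : ℚ_[p]) = 0 := by
      rw [Nat.choose_eq_zero_of_lt (by omega)]
      simp
    rw [e0, mul_zero, zero_sub, e1] at hs
    have huniq : -L = ((2 : ℚ_[p]) ^ K)⁻¹ + L := tendsto_nhds_unique hs hsum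
    have h20 : (2 : ℚ_[p]) ≠ 0 := two_ne_zero
    have hval : -L = ((2 : ℚ_[p]) ^ (K + 1))⁻¹ := by
      have h5 : 2 * (-L) = ((2 : ℚ_[p]) ^ K)⁻¹ := by
        have : 2 * (-L) = -L + -L := by ring
        rw [this]
        nth_rewrite 1 [huniq]
        ring
      have h6 : ((2 : ℚ_[p]) ^ (K + 1))⁻¹ = ((2 : ℚ_[p]) ^ K)⁻¹ / 2 := by
        rw [pow_succ, mul_inv, div_eq_mul_inv]
      rw [h6, ← h5]
      field_simp
    rw [hval] at hs
    rw [← e1] at hs
    have e2 : (fun t : ℕ => (((t + (K + 1)).choose (K + 1) : ℕ) : ℚ_[p])) =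
        fun t : ℕ => (((t + 1 + K).choose (K + 1) : ℕ) : ℚ_[p]) := by
      funext t
      have h : t + (K + 1) = t + 1 + K := by ring
      rw [h]
    rw [e2]
    exact hs

end Pool.Agent.Work.MP_03df5c_pb
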