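import Pool.Agent.Work.MP_03df5c_pb.Interface1

/-!
# Block F6: the exact norm of the main term
-/

open Finset Filter Topology

namespace Pool.Agent.Work.MP_03df5c_pb

theorem norm_two_pb (p : ℕ) [Fact p.Prime] (hp : p ≠ 2) : ‖(2 : ℚ_[p])‖ = 1 := by
  have h1 : ‖((2 : ℤ) : ℚ_[p])‖ ≤ 1 := Padic.norm_int_le_one 2
  have h2 : ¬ ‖((2 : ℤ) : ℚ_[p])‖ < 1 := by
    rw [Padic.norm_intCast_lt_one_iff]
    intro h
    have h3 : (p : ℕ) ∣ 2 := by exact_mod_cast h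
    have h4 := (Nat.prime_dvd_prime_iff_eq (Fact.out : p.Prime) Nat.prime_two).1 h3
    exact hp h4
  have h3 := le_antisymm h1 (not_lt.1 h2)
  exact_mod_cast h3

theorem fs_sub_pb (p : ℕ) [Fact p.Prime] (f g : ℕ → ℚ_[p]) (N : ℕ) :
    fs p (fun t => f t - g t) N = fs p f N - fs p g N := by
  unfold fs
  rw [← Finset.sum_sub_distrib]
  exact Finset.sum_congr rfl fun t _ => by ring

/-- Block F6. -/
theorem block_F6 (h4 : S_F4) (h5 : S_F5) : S_F6 := by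
  intro p _ hp K g hg L hL
  have h1 := h5 p hp K
  have h2 : HasI p (fun t => (((t + K).choose K : ℕ) : ℚ_[p]) * g t - (((t + K).choose K : ℕ) : ℚ_[p]))
      (L - ((2 : ℚ_[p]) ^ K)⁻¹) := by
    unfold HasI at hL h1 ⊢
    have h3 := hL.sub h1
    refine h3.congr fun N => ?_
    exact (fs_sub_pb p (fun t => (((t + K).choose K : ℕ) : ℚ_[p]) * g t)
      (fun t => (((t + K).choose K : ℕ) : ℚ_[p])) N).symm
  have h3 : ∀ t, ‖(((t + K).choose K : ℕ) : ℚ_[p]) * g t - (((t + K).choose K : ℕ) : ℚ_[p])‖ ≤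
      (p : ℝ)⁻¹ := by
    intro t
    have e : (((t + K).choose K : ℕ) : ℚ_[p]) * g t - (((t + K).choose K : ℕ) : ℚ_[p]) =
        (((t + K).choose K : ℕ) : ℚ_[p]) * (g t - 1) := by ring
    rw [e, norm_mul]
    have h6 : ‖(((t + K).choose K : ℕ) : ℚ_[p])‖ ≤ 1 := by
      have := Padic.norm_int_le_one (p := p) (((t + K).choose K : ℕ) : ℤ)
      rwa [Int.cast_natCast] at this
    calc ‖(((t + K).choose K : ℕ) : ℚ_[p])‖ * ‖g t - 1‖ ≤ 1 * (p : ℝ)⁻¹ :=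
          mul_le_mul h6 (hg t) (norm_nonneg _) zero_le_one
      _ = (p : ℝ)⁻¹ := one_mul _
  have h6 := h4 p _ _ h3 _ h2
  have hp1 : (1 : ℝ) < p := by exact_mod_cast (Fact.out : p.Prime).one_lt
  have h7 : ‖L - ((2 : ℚ_[p]) ^ K)⁻¹‖ < 1 := lt_of_le_of_lt h6 (inv_lt_one_of_one_lt₀ hp1)
  have h8 : ‖((2 : ℚ_[p]) ^ K)⁻¹‖ = 1 := by
    rw [norm_inv, norm_pow, norm_two_pb p hp, one_pow, inv_one]
  have h9 : ‖L - ((2 : ℚ_[p]) ^ K)⁻¹‖ ≠ ‖((2 : ℚ_[p]) ^ K)⁻¹‖ := by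
    rw [h8]; exact h7.ne
  have h10 := IsUltrametricDist.norm_add_eq_max_of_norm_ne_norm h9
  rw [sub_add_cancel, h8, max_eq_right h7.le] at h10
  exact h10

end Pool.Agent.Work.MP_03df5c_pb
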