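import Pool.Agent.Work.MP_03df5c_pb.Interface2

/-!
# Block FIN: the theorem
-/

open Finset Filter Topology

namespace Pool.Agent.Work.MP_03df5c_pb

open Pool.Agent.Work.MP_03df5c_h91

/-- a spanning set which is the union of `{1}` and a finite family contains an independent family
`1, g (k 0), …, g (k (m-1))` of the size of the dimension -/
theorem BFIN.extract {A : Type*} [Field A] [Algebra ℚ A] (g : ℕ → A) (s : ℕ) :
    ∃ (m : ℕ) (k : Fin m → ℕ), (∀ i, 3 ≤ k i ∧ Odd (k i)) ∧ Function.Injective k ∧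
      (∀ i, k i ≤ s) ∧ LinearIndependent ℚ (Fin.cons 1 (fun i => g (k i)) : Fin (m + 1) → A) ∧
      Module.finrank ℚ (Submodule.span ℚ
        ({(1 : A)} ∪ {x | ∃ k, Odd k ∧ 3 ≤ k ∧ k ≤ s ∧ x = g k})) = m + 1 := by
  classical
  set W : Set A := {(1 : A)} ∪ {x | ∃ k, Odd k ∧ 3 ≤ k ∧ k ≤ s ∧ x = g k} with hW
  have hWf : W.Finite := by
    refine (Set.finite_singleton _).union ?_
    refine ((Set.finite_Iic s).image g).subset ?_
    rintro x ⟨k, _, _, h3, rfl⟩
    exact ⟨k, h3, rfl⟩
  have h1 : LinearIndepOn ℚ id ({(1 : A)} : Set A) := by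
    have h := (LinearIndepOn.singleton (R := ℚ) (v := (id : A → A)) (i := (1 : A)))
    exact h one_ne_zero
  obtain ⟨b, hbW, h1b, hspan, hb⟩ :=
    exists_linearIndepOn_id_extension h1 (t := W) (by rw [hW]; exact Set.subset_union_left)
  have hone : (1 : A) ∈ b := h1b rfl
  have hbf : b.Finite := hWf.subset hbW
  have hsp : Submodule.span ℚ W = Submodule.span ℚ b :=
    le_antisymm (Submodule.span_le.2 hspan) (Submodule.span_mono hbW)
  set T : Finset A := hbf.toFinset.erase 1 with hT
  have hTb : ∀ x ∈ T, x ∈ b ∧ x ≠ 1 := by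
    intro x hx
    rw [hT, Finset.mem_erase, Set.Finite.mem_toFinset] at hx
    exact ⟨hx.2, hx.1⟩
  have hex : ∀ i : Fin T.card, ∃ k, Odd k ∧ 3 ≤ k ∧ k ≤ s ∧
      ((T.equivFin.symm i : T) : A) = g k := by
    intro i
    obtain ⟨h2, h3⟩ := hTb _ (T.equivFin.symm i).2
    rcases hbW h2 with h4 | h4
    · exact absurd h4 h3
    · exact h4
  choose k hk1 hk2 hk3 hk4 using hex
  set f : Fin (T.card + 1) → b :=
    Fin.cons ⟨1, hone⟩ (fun i => ⟨(T.equivFin.symm i : T), (hTb _ (T.equivFin.symm i).2).1⟩) with hf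
  have hfi : Function.Injective f := by
    intro i j hij
    induction i using Fin.cases with
    | zero =>
      induction j using Fin.cases with
      | zero => rfl
      | succ j =>
        exfalso
        rw [hf, Fin.cons_zero, Fin.cons_succ] at hij
        exact (hTb _ (T.equivFin.symm j).2).2 (congrArg Subtype.val hij).symm
    | succ i =>
      induction j using Fin.cases with
      | zero =>
        exfalso
        rw [hf, Fin.cons_zero, Fin.cons_succ] at hij
        exact (hTb _ (T.equivFin.symm i).2).2 (congrArg Subtype.val hij)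
      | succ j =>
        rw [hf, Fin.cons_succ, Fin.cons_succ] at hij
        have h4 := Subtype.ext_iff.1 hij
        have h5 : ((T.equivFin.symm i : T) : A) = ((T.equivFin.symm j : T) : A) := h4
        rw [T.equivFin.symm.injective (Subtype.ext h5)]
  have hLI : LinearIndependent ℚ (Fin.cons 1 (fun i => g (k i)) : Fin (T.card + 1) → A) := by
    have h6 := LinearIndependent.comp hb f hfi
    have h7 : (fun x : b => id (x : A)) ∘ f = Fin.cons 1 (fun i => g (k i)) := by
      funext i
      induction i using Fin.cases with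
      | zero => rfl
      | succ i =>
        change ((T.equivFin.symm i : T) : A) = g (k i)
        exact hk4 i
    rw [← h7]
    exact h6
  refine ⟨T.card, k, fun i => ⟨hk2 i, hk1 i⟩, ?_, hk3, hLI, ?_⟩
  · intro i j hij
    have h8 : ((T.equivFin.symm i : T) : A) = ((T.equivFin.symm j : T) : A) := by
      rw [hk4, hk4, hij]
    exact T.equivFin.symm.injective (Subtype.ext h8)
  · rw [hsp]
    have : Fintype b := hbf.fintype
    have h9 : Module.finrank ℚ (Submodule.span ℚ b) = b.toFinset.card :=
      finrank_span_set_eq_card hb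
    rw [h9, hT, Finset.card_erase_of_mem (by rw [Set.Finite.mem_toFinset]; exact hone)]
    have h10 : hbf.toFinset = b.toFinset := by
      ext x; simp
    have h11 : 0 < b.toFinset.card := Finset.card_pos.2 ⟨1, by simpa using hone⟩
    rw [h10]
    omega

theorem p_FIN (hT1 : S_T1) (hZ3 : S_Z3) : S_FIN := by
  intro p hp hp2 H
  obtain ⟨c, hc, hcs⟩ := hZ3 p hp2
  refine ⟨c, hc, fun s hs => (hcs s hs).trans ?_⟩
  obtain ⟨m, k, hk, hinj, hks, hLI, hfin⟩ := BFIN.extract (fun k => zetaP p k) s
  have h1 := hT1 p m k hk (H m k hk hinj) hLI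
  rw [hfin]
  have hWf : (({(1 : ℝ)} ∪ {x | ∃ k, Odd k ∧ 3 ≤ k ∧ k ≤ s ∧ x = zetaR k}) : Set ℝ).Finite := by
    refine (Set.finite_singleton _).union ?_
    refine ((Set.finite_Iic s).image zetaR).subset ?_
    rintro x ⟨k, _, _, h3, rfl⟩
    exact ⟨k, h3, rfl⟩
  have := FiniteDimensional.span_of_finite (IntermediateField.adjoin ℚ {Real.pi}) hWf
  have h2 := finrank_span_eq_card h1
  rw [Fintype.card_fin] at h2
  rw [← h2]
  norm_cast
  refine Submodule.finrank_mono (Submodule.span_mono ?_)
  rintro x ⟨i, rfl⟩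
  induction i using Fin.cases with
  | zero => exact Or.inl rfl
  | succ i => exact Or.inr ⟨k i, (hk i).2, (hk i).1, hks i, rfl⟩

end Pool.Agent.Work.MP_03df5c_pb
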