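import Pool.Agent.Work.MP_03df5c_pb.Interface6
import Pool.Agent.Work.MP_03df5c_pb.B_FIN

/-!
# Block FIN3 (copy of B_FIN2 of helper83): the theorem with the constant 1 / (1 + log 2)
-/

open Finset Filter Topology

namespace Pool.Agent.Work.MP_03df5c_pb

open Pool.Agent.Work.MP_03df5c_h91

theorem p_FIN3 (hT2 : S_T2) (hZ9 : S_Z9) : S_FIN3 := by
  intro p hp hp2 c hc
  obtain ⟨s0, hs0⟩ := hZ9 p hp2 c hc
  refine ⟨s0, fun s hs H y hy hy0 => (hs0 s hs).trans ?_⟩
  obtain ⟨n, k', hk', hinj', hks', hLI, hfin⟩ := BFIN.extract (fun k => zetaP p k) s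
  obtain ⟨m, hm⟩ : ∃ m, m = (s - 1) / 2 := ⟨_, rfl⟩
  obtain ⟨k, hkd⟩ : ∃ k : Fin m → ℕ, ∀ i, k i = 2 * (i : ℕ) + 3 := ⟨fun i => 2 * (i : ℕ) + 3, fun _ => rfl⟩
  have hk : ∀ i, 3 ≤ k i ∧ Odd (k i) := by
    intro i
    rw [hkd]
    exact ⟨by omega, ⟨(i : ℕ) + 1, by ring⟩⟩
  have hks : ∀ i, k i ≤ s := by
    intro i
    rw [hkd]
    have := i.2
    omega
  have hinj : Function.Injective k := by
    intro i j hij
    rw [hkd, hkd] at hij
    exact Fin.ext (by omega)
  have hT : Transfers (m + 1) (Fin.cons 2 k) p := H m k hinj fun i => ⟨(hk i).1, hks i, (hk i).2⟩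
  have hex : ∀ i : Fin n, ∃ j : Fin m, k j = k' i := by
    intro i
    obtain ⟨h3, l, hl⟩ := hk' i
    have h4 := hks' i
    refine ⟨⟨l - 1, by omega⟩, ?_⟩
    rw [hkd]
    change 2 * (l - 1) + 3 = k' i
    omega
  choose e he using hex
  have hy' : y ∈ Algebra.adjoin ℚ ({Real.pi} ∪ Set.range (fun i => zetaR (k i))) := by
    refine (Algebra.adjoin_le ?_ : Algebra.adjoin ℚ ({Real.pi} ∪ oddR s) ≤ _) hy
    rintro x (hx | hx | ⟨l, hl1, hl2, hl3, rfl⟩)
    · exact Algebra.subset_adjoin (Or.inl hx)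
    · rw [Set.mem_singleton_iff] at hx
      rw [hx]
      exact Subalgebra.one_mem _
    · apply Algebra.subset_adjoin
      right
      obtain ⟨q, hq⟩ := hl1
      refine ⟨⟨q - 1, by omega⟩, ?_⟩
      change zetaR (k ⟨q - 1, _⟩) = zetaR l
      rw [hkd]
      congr 1
      change 2 * (q - 1) + 3 = l
      omega
  have hLI' : LinearIndependent ℚ (Fin.cons 1 (fun i => zetaP p (k (e i))) : Fin (n + 1) → ℚ_[p]) := by
    simp only [he]
    exact hLI
  have h1 := hT2 p m k hk hT y hy' hy0 n e hLI'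
  have hfin' : Module.finrank ℚ (Submodule.span ℚ (oddP p s)) = n + 1 := hfin
  rw [hfin']
  have hWf : (oddR s).Finite := by
    refine (Set.finite_singleton _).union ?_
    refine ((Set.finite_Iic s).image zetaR).subset ?_
    rintro x ⟨k, _, _, h3, rfl⟩
    exact ⟨k, h3, rfl⟩
  have := FiniteDimensional.span_of_finite (IntermediateField.adjoin ℚ {Real.pi * y}) hWf
  have h2 := finrank_span_eq_card h1
  rw [Fintype.card_fin] at h2
  rw [← h2]
  norm_cast
  refine Submodule.finrank_mono (Submodule.span_mono ?_)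
  rintro x ⟨i, rfl⟩
  induction i using Fin.cases with
  | zero => exact Or.inl rfl
  | succ i => exact Or.inr ⟨k (e i), (hk (e i)).2, (hk (e i)).1, hks (e i), rfl⟩

end Pool.Agent.Work.MP_03df5c_pb
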