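import Pool.Agent.Work.MP_03df5c_pb.Interface5
import Pool.Agent.Work.MP_03df5c_pb.B_G1

/-!
# Block G2 (typed by helper83): the shifted powers
-/

open Finset Filter Topology

namespace Pool.Agent.Work.MP_03df5c_pb

theorem p_G2 (h1 : S_G1) (h3 : S_F3) : S_G2 := by
  intro p hp hp2 n a i hn ha j
  induction j with
  | zero =>
    have := h1 p hp2 n a i hn ha
    simpa using this
  | succ j ih =>
    have hlip : Lip p (fun t => ((xn p n a (t + j)) ^ i)⁻¹) 1 := by
      intro t N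
      have h4 := BG1.lip (p := p) hn ha i (t + j) N
      change ‖((xn p n a (t + p ^ N + j)) ^ i)⁻¹ - ((xn p n a (t + j)) ^ i)⁻¹‖ ≤ _
      rw [show t + p ^ N + j = t + j + p ^ N by ring]
      exact h4
    have h := h3 p hp2 _ 1 zero_le_one hlip _ ih
    have e1 : (fun t => (fun t => ((xn p n a (t + j)) ^ i)⁻¹) (t + 1)) =
        fun t => ((xn p n a (t + (j + 1))) ^ i)⁻¹ := by
      funext t
      change ((xn p n a (t + 1 + j)) ^ i)⁻¹ = _
      rw [show t + 1 + j = t + (j + 1) by omega]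
    rw [e1] at h
    have e3 : 2 * ((xn p n a (0 + j)) ^ i)⁻¹ -
        ((-1) ^ j * En p n i a + 2 * ∑ l ∈ range j, (-1) ^ (j - 1 - l) * ((xn p n a l) ^ i)⁻¹) =
        (-1) ^ (j + 1) * En p n i a +
          2 * ∑ l ∈ range (j + 1), (-1) ^ (j + 1 - 1 - l) * ((xn p n a l) ^ i)⁻¹ := by
      rw [zero_add, sum_range_succ]
      have e2 : ∑ l ∈ range j, (-1 : ℚ_[p]) ^ (j + 1 - 1 - l) * ((xn p n a l) ^ i)⁻¹ =
          - ∑ l ∈ range j, (-1 : ℚ_[p]) ^ (j - 1 - l) * ((xn p n a l) ^ i)⁻¹ := by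
        rw [← sum_neg_distrib]
        refine sum_congr rfl fun l hl => ?_
        have hl' := mem_range.1 hl
        rw [show j + 1 - 1 - l = (j - 1 - l) + 1 by omega, pow_succ]
        ring
      rw [e2, show j + 1 - 1 - j = 0 by omega, pow_succ]
      ring
    rw [← e3]
    exact h

end Pool.Agent.Work.MP_03df5c_pb
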