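import Pool.Agent.Work.MP_03df5c_pb.Interface5
import Pool.Agent.Work.MP_03df5c_pb.B_F1
import Pool.Agent.Work.MP_03df5c_pb.B_E1

/-!
# Block G3 (typed by helper83): the sum over the residue classes modulo `p ^ 2 * n`
-/

open Finset Filter Topology

namespace Pool.Agent.Work.MP_03df5c_pb

namespace BG3

/-- the summand -/
noncomputable def g (p i : ℕ) [Fact p.Prime] (m : ℕ) : ℚ_[p] :=
  if ¬ p ∣ m then (-1) ^ m * ((m : ℚ_[p]) ^ i)⁻¹ else 0

theorem exact (p : ℕ) [Fact p.Prime] (hp : p ≠ 2) (n i : ℕ) (hn : Odd n) (N : ℕ) :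
    ∑ a ∈ BB p n, (-1) ^ a * fs p (fun t => ((xn p n a t) ^ i)⁻¹) N =
      (q2 p n : ℚ_[p]) ^ i * ∑ m ∈ range (q2 p n * p ^ N), g p i m := by
  have hpp : p.Prime := Fact.out
  have hn0 : 0 < n := hn.pos
  have hDpos : 0 < q2 p n := Nat.mul_pos (pow_pos hpp.pos 2) hn0
  have hD0 : (q2 p n : ℚ_[p]) ≠ 0 := by exact_mod_cast hDpos.ne'
  have hdvd : p ∣ q2 p n := Dvd.dvd.mul_right (dvd_pow_self p (by norm_num)) n
  have hodd : Odd (q2 p n) := Odd.mul (hpp.odd_of_ne_two hp).pow hn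
  have hg : ∑ m ∈ range (q2 p n * p ^ N), g p i m =
      ∑ m ∈ (range (q2 p n * p ^ N)).filter (fun m => ¬ p ∣ m), (-1) ^ m * ((m : ℚ_[p]) ^ i)⁻¹ := by
    rw [sum_filter]
    rfl
  rw [hg]
  unfold fs BB
  simp only [Finset.mul_sum]
  rw [← Finset.sum_product' ((range (q2 p n)).filter (fun a => ¬ p ∣ a)) (range (p ^ N))
    (fun a t => (-1 : ℚ_[p]) ^ a * ((-1) ^ t * ((xn p n a t) ^ i)⁻¹))]
  refine Finset.sum_nbij' (fun x => x.1 + q2 p n * x.2) (fun m => (m % q2 p n, m / q2 p n))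
    ?_ ?_ ?_ ?_ ?_
  · rintro ⟨a, t⟩ hx
    simp only [Finset.mem_product, Finset.mem_filter, Finset.mem_range] at hx ⊢
    obtain ⟨⟨ha, hpa⟩, ht⟩ := hx
    refine ⟨?_, ?_⟩
    · have h1 : q2 p n * (t + 1) ≤ q2 p n * p ^ N := Nat.mul_le_mul le_rfl ht
      rw [mul_add, mul_one] at h1
      omega
    · intro h
      exact hpa ((Nat.dvd_add_left (hdvd.mul_right t)).1 h)
  · intro m hm
    simp only [Finset.mem_product, Finset.mem_filter, Finset.mem_range] at hm ⊢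
    refine ⟨⟨Nat.mod_lt _ hDpos, ?_⟩, ?_⟩
    · intro h
      exact hm.2 ((Nat.dvd_mod_iff hdvd).1 h)
    · exact Nat.div_lt_of_lt_mul hm.1
  · rintro ⟨a, t⟩ hx
    simp only [Finset.mem_product, Finset.mem_filter, Finset.mem_range] at hx
    have ha := hx.1.1
    simp only [Prod.mk.injEq]
    refine ⟨?_, ?_⟩
    · rw [Nat.add_mul_mod_self_left, Nat.mod_eq_of_lt ha]
    · rw [Nat.add_mul_div_left _ _ hDpos, Nat.div_eq_of_lt ha, zero_add]
  · intro m hm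
    exact Nat.mod_add_div m (q2 p n)
  · rintro ⟨a, t⟩ hx
    simp only
    have hsgn : (-1 : ℚ_[p]) ^ (a + q2 p n * t) = (-1) ^ a * (-1) ^ t := by
      rw [pow_add, pow_mul, hodd.neg_one_pow]
    have hx1 : xn p n a t = (((a + q2 p n * t : ℕ) : ℚ_[p])) / (q2 p n : ℚ_[p]) := by
      unfold xn
      push_cast
      field_simp
    rw [hsgn, hx1, div_pow, inv_div, div_eq_mul_inv]
    ring

theorem norm_unit {p : ℕ} [Fact p.Prime] {m : ℕ} (h : ¬ p ∣ m) : ‖(m : ℚ_[p])‖ = 1 :=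
  Padic.norm_natCast_eq_one_iff.2 (((Fact.out : p.Prime).coprime_iff_not_dvd).2 h)

theorem step (p : ℕ) [Fact p.Prime] (hp : p ≠ 2) (i N j t : ℕ) (hN : 1 ≤ N) :
    ‖g p i (j * p ^ N + t) - (-1) ^ j * g p i t‖ ≤ ((p : ℝ) ^ N)⁻¹ := by
  have hpp : p.Prime := Fact.out
  have hdvd : p ∣ j * p ^ N := Dvd.dvd.mul_left (dvd_pow_self p (by omega)) j
  have hodd : Odd (p ^ N) := (hpp.odd_of_ne_two hp).pow
  unfold g
  by_cases h : p ∣ t
  · have h' : p ∣ j * p ^ N + t := dvd_add hdvd h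
    rw [if_neg (not_not.2 h), if_neg (not_not.2 h'), mul_zero, sub_zero, norm_zero]
    positivity
  · have h' : ¬ p ∣ j * p ^ N + t := fun h2 => h ((Nat.dvd_add_right hdvd).1 h2)
    rw [if_pos h, if_pos h']
    have hsgn : (-1 : ℚ_[p]) ^ (j * p ^ N + t) = (-1) ^ j * (-1) ^ t := by
      rw [pow_add, mul_comm j, pow_mul, hodd.neg_one_pow]
    have e : (-1 : ℚ_[p]) ^ (j * p ^ N + t) * (((j * p ^ N + t : ℕ) : ℚ_[p]) ^ i)⁻¹ -
        (-1) ^ j * ((-1) ^ t * ((t : ℚ_[p]) ^ i)⁻¹) =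
        ((-1) ^ j * (-1) ^ t) * ((((j * p ^ N + t : ℕ) : ℚ_[p])⁻¹) ^ i - ((t : ℚ_[p])⁻¹) ^ i) := by
      rw [hsgn, inv_pow, inv_pow]
      ring
    rw [e, norm_mul, norm_mul, norm_pow, norm_pow, norm_neg, norm_one, one_pow, one_pow, one_mul,
      one_mul]
    have n1 := norm_unit (p := p) h
    have n2 := norm_unit (p := p) h'
    have z1 : (t : ℚ_[p]) ≠ 0 := by
      intro h0
      rw [h0, norm_zero] at n1
      exact zero_ne_one n1
    have z2 : ((j * p ^ N + t : ℕ) : ℚ_[p]) ≠ 0 := by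
      intro h0
      rw [h0, norm_zero] at n2
      exact zero_ne_one n2
    refine (BE1.pow_lip (by rw [norm_inv, n2, inv_one]) (by rw [norm_inv, n1, inv_one]) i).trans ?_
    have e2 : (((j * p ^ N + t : ℕ) : ℚ_[p]))⁻¹ - (t : ℚ_[p])⁻¹ =
        -((j : ℚ_[p]) * (p : ℚ_[p]) ^ N) / (((j * p ^ N + t : ℕ) : ℚ_[p]) * (t : ℚ_[p])) := by
      field_simp
      push_cast
      ring
    rw [e2, norm_div, norm_mul (((j * p ^ N + t : ℕ) : ℚ_[p])), n1, n2, mul_one, div_one, norm_neg, norm_mul,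
      BE1.norm_pw]
    have hj : ‖(j : ℚ_[p])‖ ≤ 1 := by
      have := Padic.norm_int_le_one (p := p) (j : ℤ)
      simpa using this
    exact mul_le_of_le_one_left (by positivity) hj

theorem blocks (p : ℕ) [Fact p.Prime] (hp : p ≠ 2) (n i N : ℕ) (hn : Odd n) (hN : 1 ≤ N) :
    ‖∑ m ∈ range (n * p ^ N), g p i m - Jf p i N‖ ≤ ((p : ℝ) ^ N)⁻¹ := by
  obtain ⟨k, hk⟩ := hn
  have hJ : Jf p i N = ∑ t ∈ range (p ^ N), g p i t := by
    unfold Jf
    rw [sum_filter]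
    rfl
  have hs : ∑ j ∈ range n, (-1 : ℚ_[p]) ^ j = 1 := by
    rw [hk]
    exact BF1.sum_signs ℚ_[p] k
  have h1 : Jf p i N = ∑ j ∈ range n, ∑ t ∈ range (p ^ N), (-1) ^ j * g p i t := by
    have h2 : ∀ j ∈ range n, ∑ t ∈ range (p ^ N), (-1) ^ j * g p i t = (-1) ^ j * Jf p i N := by
      intro j _
      rw [hJ, mul_sum]
    rw [sum_congr rfl h2, ← sum_mul, hs, one_mul]
  rw [h1, BF1.sum_blocks, ← sum_sub_distrib]
  refine IsUltrametricDist.norm_sum_le_of_forall_le_of_nonneg (by positivity) fun j _ => ?_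
  rw [← sum_sub_distrib]
  exact IsUltrametricDist.norm_sum_le_of_forall_le_of_nonneg (by positivity) fun t _ =>
    step p hp i N j t hN

end BG3

theorem p_G3 (h1 : S_G1) (h3 : S_E3) : S_G3 := by
  intro p _ hp n i hn hpn
  have hpp : p.Prime := Fact.out
  have hp1 : (1 : ℝ) < p := by exact_mod_cast hpp.one_lt
  have hJ := (h3 p hp i).1
  have h2 : Tendsto (fun N => ∑ a ∈ BB p n, (-1) ^ a * fs p (fun t => ((xn p n a t) ^ i)⁻¹) N)
      atTop (𝓝 (∑ a ∈ BB p n, (-1) ^ a * En p n i a)) := by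
    apply tendsto_finsetSum
    intro a ha
    have hpa : ¬ p ∣ a := (Finset.mem_filter.1 ha).2
    exact (h1 p hp n a i hpn hpa).const_mul ((-1 : ℚ_[p]) ^ a)
  have h4 : Tendsto (fun N => ∑ m ∈ range (n * p ^ (N + 2)), BG3.g p i m) atTop (𝓝 (JJ p i)) := by
    have h5 : Tendsto (fun N => Jf p i (N + 2)) atTop (𝓝 (JJ p i)) := (tendsto_add_atTop_iff_nat 2).2 hJ
    have h6 : Tendsto (fun N => ∑ m ∈ range (n * p ^ (N + 2)), BG3.g p i m - Jf p i (N + 2)) atTop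
        (𝓝 0) := by
      rw [tendsto_zero_iff_norm_tendsto_zero]
      refine squeeze_zero (fun _ => norm_nonneg _)
        (fun N => BG3.blocks p hp n i (N + 2) hn (by omega)) ?_
      have h7 := tendsto_pow_atTop_nhds_zero_of_lt_one (inv_nonneg.2 (by linarith : (0 : ℝ) ≤ p))
        (inv_lt_one_of_one_lt₀ hp1)
      have h8 := (tendsto_add_atTop_iff_nat 2).2 h7
      refine h8.congr fun N => ?_
      rw [inv_pow]
    have h9 := h6.add h5
    rw [zero_add] at h9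
    refine h9.congr fun N => ?_
    ring
  have h10 := h4.const_mul ((q2 p n : ℚ_[p]) ^ i)
  refine tendsto_nhds_unique h2 (h10.congr fun N => ?_)
  rw [BG3.exact p hp n i hn N]
  have e : n * p ^ (N + 2) = q2 p n * p ^ N := by
    unfold q2
    ring
  rw [e]

end Pool.Agent.Work.MP_03df5c_pb
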