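import Pool.Agent.Work.MP_03df5c_pb.Interface2

/-!
# Block L3: the linear form

The partial fraction expansion of `RR` gives the limits `S a` of the alternating sums and the linear form in `1, J_1, …, J_s`.
-/

open Finset Filter Topology

namespace Pool.Agent.Work.MP_03df5c_pb

namespace BL3

variable (p : ℕ) [Fact p.Prime]

theorem hasI_sum {ι : Type*} (T : Finset ι) (f : ι → ℕ → ℚ_[p]) (L : ι → ℚ_[p])
    (h : ∀ x ∈ T, HasI p (f x) (L x)) : HasI p (fun t => ∑ x ∈ T, f x t) (∑ x ∈ T, L x) := by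
  have e : fs p (fun t => ∑ x ∈ T, f x t) = fun N => ∑ x ∈ T, fs p (f x) N := by
    funext N
    unfold fs
    rw [Finset.sum_comm]
    refine Finset.sum_congr rfl fun t _ => ?_
    rw [Finset.mul_sum]
  unfold HasI
  rw [e]
  exact tendsto_finsetSum _ h

theorem hasI_mul (c : ℚ_[p]) (f : ℕ → ℚ_[p]) (L : ℚ_[p]) (h : HasI p f L) :
    HasI p (fun t => c * f t) (c * L) := by
  have e : fs p (fun t => c * f t) = fun N => c * fs p f N := by
    funext N
    unfold fs
    rw [Finset.mul_sum]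
    refine Finset.sum_congr rfl fun t _ => ?_
    ring
  unfold HasI
  rw [e]
  exact h.const_mul c

theorem good_th (r K a t : ℕ) (ha : ¬ p ∣ a) : Good K (th p r a + (t : ℚ)) := by
  intro j _ h
  have hp : (0 : ℚ) < (p : ℚ) := by exact_mod_cast (Fact.out : p.Prime).pos
  have ha0 : 0 < a := Nat.pos_of_ne_zero fun h0 => ha (h0 ▸ dvd_zero p)
  have h1 : 0 < th p r a := by
    unfold th
    have : (0 : ℚ) < (a : ℚ) := by exact_mod_cast ha0
    positivity
  have h2 : (0 : ℚ) ≤ (t : ℚ) := Nat.cast_nonneg t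
  have h3 : (0 : ℚ) ≤ (j : ℚ) := Nat.cast_nonneg j
  linarith

theorem cast_term (r a t j n : ℕ) (q : ℚ) :
    ((q / (th p r a + (t : ℚ) + (j : ℚ)) ^ n : ℚ) : ℚ_[p]) = (q : ℚ_[p]) * ((xa p r a (t + j)) ^ n)⁻¹ := by
  unfold th xa
  push_cast
  rw [div_eq_mul_inv, add_assoc]

theorem cast_term' (r a l n : ℕ) (q : ℚ) :
    ((q / (th p r a + (l : ℚ)) ^ n : ℚ) : ℚ_[p]) = (q : ℚ_[p]) * ((xa p r a l) ^ n)⁻¹ := by
  unfold th xa
  push_cast
  rw [div_eq_mul_inv]

end BL3

open BL3 in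
/-- **L3** -/
theorem p_L3 (h2 : S_E2) (h3 : S_E3) : S_L3 := by
  intro p _ hp2 r s K hr c hPF
  refine ⟨fun a => ∑ j ∈ range (K + 1), ∑ i ∈ range s, (c i j : ℚ_[p]) *
    ((-1) ^ j * Ev p r (i + 1) a +
      2 * ∑ l ∈ range j, (-1) ^ (j - 1 - l) * ((xa p r a l) ^ (i + 1))⁻¹), ?_, ?_⟩
  · intro a ha
    have hpa : ¬ p ∣ a := (Finset.mem_filter.1 ha).2
    have e : vv p r a (RR p r s K) = fun t => ∑ j ∈ range (K + 1), ∑ i ∈ range s,
        (c i j : ℚ_[p]) * ((xa p r a (t + j)) ^ (i + 1))⁻¹ := by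
      funext t
      unfold vv
      rw [hPF _ (good_th p r K a t hpa)]
      unfold ev
      rw [Rat.cast_sum]
      refine Finset.sum_congr rfl fun j _ => ?_
      rw [Rat.cast_sum]
      exact Finset.sum_congr rfl fun i _ => cast_term p r a t j (i + 1) (c i j)
    rw [e]
    refine hasI_sum p _ _ _ fun j _ => hasI_sum p _ _ _ fun i _ => hasI_mul p _ _ _ ?_
    exact h2 p hp2 r a (i + 1) hr hpa j
  · have hE := fun i => (h3 p hp2 (i + 1)).2 r hr
    -- split
    have e1 : ∀ a, (-1 : ℚ_[p]) ^ a * (∑ j ∈ range (K + 1), ∑ i ∈ range s, (c i j : ℚ_[p]) *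
        ((-1) ^ j * Ev p r (i + 1) a +
          2 * ∑ l ∈ range j, (-1) ^ (j - 1 - l) * ((xa p r a l) ^ (i + 1))⁻¹)) =
        (∑ i ∈ range s, (∑ j ∈ range (K + 1), (-1) ^ j * (c i j : ℚ_[p])) *
          ((-1) ^ a * Ev p r (i + 1) a)) +
        2 * ∑ j ∈ range (K + 1), ∑ l ∈ range j, (-1) ^ a * (-1) ^ (j - 1 - l) *
          ∑ i ∈ range s, (c i j : ℚ_[p]) * ((xa p r a l) ^ (i + 1))⁻¹ := by
      intro a
      have f1 : (∑ i ∈ range s, (∑ j ∈ range (K + 1), (-1) ^ j * (c i j : ℚ_[p])) *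
          ((-1) ^ a * Ev p r (i + 1) a)) = ∑ j ∈ range (K + 1), ∑ i ∈ range s,
            (-1) ^ a * ((c i j : ℚ_[p]) * ((-1) ^ j * Ev p r (i + 1) a)) := by
        rw [Finset.sum_comm]
        refine Finset.sum_congr rfl fun i _ => ?_
        rw [Finset.sum_mul]
        exact Finset.sum_congr rfl fun j _ => by ring
      have f2 : 2 * (∑ j ∈ range (K + 1), ∑ l ∈ range j, (-1 : ℚ_[p]) ^ a * (-1) ^ (j - 1 - l) *
          ∑ i ∈ range s, (c i j : ℚ_[p]) * ((xa p r a l) ^ (i + 1))⁻¹) =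
          ∑ j ∈ range (K + 1), ∑ i ∈ range s, (-1) ^ a * ((c i j : ℚ_[p]) *
            (2 * ∑ l ∈ range j, (-1) ^ (j - 1 - l) * ((xa p r a l) ^ (i + 1))⁻¹)) := by
        rw [Finset.mul_sum]
        refine Finset.sum_congr rfl fun j _ => ?_
        rw [Finset.mul_sum]
        have g1 : ∀ i ∈ range s, (-1 : ℚ_[p]) ^ a * ((c i j : ℚ_[p]) *
            (2 * ∑ l ∈ range j, (-1) ^ (j - 1 - l) * ((xa p r a l) ^ (i + 1))⁻¹)) =
            ∑ l ∈ range j, 2 * ((-1) ^ a * (-1) ^ (j - 1 - l) *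
              ((c i j : ℚ_[p]) * ((xa p r a l) ^ (i + 1))⁻¹)) := by
          intro i _
          rw [Finset.mul_sum, Finset.mul_sum, Finset.mul_sum]
          exact Finset.sum_congr rfl fun l _ => by ring
        rw [Finset.sum_congr rfl g1, Finset.sum_comm]
        refine Finset.sum_congr rfl fun l _ => ?_
        rw [Finset.mul_sum, Finset.mul_sum]
      rw [f1, f2, ← Finset.sum_add_distrib, Finset.mul_sum]
      refine Finset.sum_congr rfl fun j _ => ?_
      rw [← Finset.sum_add_distrib, Finset.mul_sum]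
      exact Finset.sum_congr rfl fun i _ => by ring
    rw [Finset.sum_congr rfl fun a _ => e1 a, Finset.sum_add_distrib]
    congr 1
    · rw [Finset.sum_comm]
      refine Finset.sum_congr rfl fun i _ => ?_
      rw [← Finset.mul_sum, hE i]
      congr 1
      push_cast
      rfl
    · unfold rat
      rw [Rat.cast_mul, Rat.cast_sum, ← Finset.mul_sum]
      congr 1
      refine Finset.sum_congr rfl fun a _ => ?_
      rw [Rat.cast_sum]
      refine Finset.sum_congr rfl fun j _ => ?_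
      rw [Rat.cast_sum]
      refine Finset.sum_congr rfl fun l _ => ?_
      have g2 : (((-1 : ℚ) ^ a * (-1) ^ (j - 1 - l) : ℚ) : ℚ_[p]) = (-1) ^ a * (-1) ^ (j - 1 - l) := by
        push_cast
        rfl
      rw [Rat.cast_mul, Rat.cast_sum, g2]
      congr 1
      exact Finset.sum_congr rfl fun i _ => (cast_term' p r a l (i + 1) (c i j)).symm

end Pool.Agent.Work.MP_03df5c_pb
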