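import Pool.Agent.Work.MP_03df5c_pb.Interface5
import Pool.Agent.Work.MP_03df5c_pb.B_L3

/-!
# Block G4 (typed by helper83): the linear form of the second construction
-/

open Finset Filter Topology

namespace Pool.Agent.Work.MP_03df5c_pb

namespace BG4

variable (p : ℕ) [Fact p.Prime]

theorem good_tn (K n a t : ℕ) (hn : 0 < n) (ha : ¬ p ∣ a) : Good K (tn p n a + (t : ℚ)) := by
  intro j _ h
  have hp : 0 < p := (Fact.out : p.Prime).pos
  have hD : (0 : ℚ) < (q2 p n : ℚ) := by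
    have : 0 < q2 p n := Nat.mul_pos (pow_pos hp 2) hn
    exact_mod_cast this
  have ha0 : 0 < a := Nat.pos_of_ne_zero fun h0 => ha (h0 ▸ dvd_zero p)
  have h1 : 0 < tn p n a := by
    unfold tn
    have : (0 : ℚ) < (a : ℚ) := by exact_mod_cast ha0
    positivity
  have h2 : (0 : ℚ) ≤ (t : ℚ) := Nat.cast_nonneg t
  have h3 : (0 : ℚ) ≤ (j : ℚ) := Nat.cast_nonneg j
  linarith

theorem cast_term (n a t j m : ℕ) (q : ℚ) :
    ((q / (tn p n a + (t : ℚ) + (j : ℚ)) ^ m : ℚ) : ℚ_[p]) = (q : ℚ_[p]) * ((xn p n a (t + j)) ^ m)⁻¹ := by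
  unfold tn xn
  push_cast
  rw [div_eq_mul_inv, add_assoc]

theorem cast_term' (n a l m : ℕ) (q : ℚ) :
    ((q / (tn p n a + (l : ℚ)) ^ m : ℚ) : ℚ_[p]) = (q : ℚ_[p]) * ((xn p n a l) ^ m)⁻¹ := by
  unfold tn xn
  push_cast
  rw [div_eq_mul_inv]

/-- the value at the block `(n, a)` -/
noncomputable def V (K s : ℕ) (c : ℕ → ℕ → ℚ) (n a : ℕ) : ℚ_[p] :=
  ∑ j ∈ range (K + 1), ∑ i ∈ range s, (c i j : ℚ_[p]) *
    ((-1) ^ j * En p n (i + 1) a +
      2 * ∑ l ∈ range j, (-1) ^ (j - 1 - l) * ((xn p n a l) ^ (i + 1))⁻¹)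

theorem split (K s : ℕ) (c : ℕ → ℕ → ℚ) (n a : ℕ) : (-1 : ℚ_[p]) ^ a * V p K s c n a =
    (∑ i ∈ range s, (∑ j ∈ range (K + 1), (-1) ^ j * (c i j : ℚ_[p])) *
      ((-1) ^ a * En p n (i + 1) a)) +
    2 * ∑ j ∈ range (K + 1), ∑ l ∈ range j, (-1) ^ a * (-1) ^ (j - 1 - l) *
      ∑ i ∈ range s, (c i j : ℚ_[p]) * ((xn p n a l) ^ (i + 1))⁻¹ := by
  unfold V
  have f1 : (∑ i ∈ range s, (∑ j ∈ range (K + 1), (-1) ^ j * (c i j : ℚ_[p])) *
      ((-1) ^ a * En p n (i + 1) a)) = ∑ j ∈ range (K + 1), ∑ i ∈ range s,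
        (-1) ^ a * ((c i j : ℚ_[p]) * ((-1) ^ j * En p n (i + 1) a)) := by
    rw [Finset.sum_comm]
    refine Finset.sum_congr rfl fun i _ => ?_
    rw [Finset.sum_mul]
    exact Finset.sum_congr rfl fun j _ => by ring
  have f2 : 2 * (∑ j ∈ range (K + 1), ∑ l ∈ range j, (-1 : ℚ_[p]) ^ a * (-1) ^ (j - 1 - l) *
      ∑ i ∈ range s, (c i j : ℚ_[p]) * ((xn p n a l) ^ (i + 1))⁻¹) =
      ∑ j ∈ range (K + 1), ∑ i ∈ range s, (-1) ^ a * ((c i j : ℚ_[p]) *
        (2 * ∑ l ∈ range j, (-1) ^ (j - 1 - l) * ((xn p n a l) ^ (i + 1))⁻¹)) := by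
    rw [Finset.mul_sum]
    refine Finset.sum_congr rfl fun j _ => ?_
    rw [Finset.mul_sum]
    have g1 : ∀ i ∈ range s, (-1 : ℚ_[p]) ^ a * ((c i j : ℚ_[p]) *
        (2 * ∑ l ∈ range j, (-1) ^ (j - 1 - l) * ((xn p n a l) ^ (i + 1))⁻¹)) =
        ∑ l ∈ range j, 2 * ((-1) ^ a * (-1) ^ (j - 1 - l) *
          ((c i j : ℚ_[p]) * ((xn p n a l) ^ (i + 1))⁻¹)) := by
      intro i _
      rw [Finset.mul_sum, Finset.mul_sum, Finset.mul_sum]
      exact Finset.sum_congr rfl fun l _ => by ring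
    rw [Finset.sum_congr rfl g1, Finset.sum_comm]
    refine Finset.sum_congr rfl fun l _ => ?_
    rw [Finset.mul_sum, Finset.mul_sum]
  rw [f1, f2, ← Finset.sum_add_distrib, Finset.mul_sum]
  refine Finset.sum_congr rfl fun j _ => ?_
  rw [← Finset.sum_add_distrib, Finset.mul_sum]
  exact Finset.sum_congr rfl fun i _ => by ring

end BG4

open BG4 in
/-- **G4** -/
theorem p_G4 (h2 : S_G2) (h3 : S_G3) : S_G4 := by
  intro p _ hp2 S w hS K s c F hPF
  have hHas : ∀ n ∈ S, ∀ a ∈ BB p n, HasI p (vn p n a F) (V p K s c n a) := by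
    intro n hn a ha
    have hpa : ¬ p ∣ a := (Finset.mem_filter.1 ha).2
    obtain ⟨hodd, hpn⟩ := hS n hn
    have e : vn p n a F = fun t => ∑ j ∈ range (K + 1), ∑ i ∈ range s,
        (c i j : ℚ_[p]) * ((xn p n a (t + j)) ^ (i + 1))⁻¹ := by
      funext t
      unfold vn
      rw [hPF _ (good_tn p K n a t hodd.pos hpa)]
      unfold ev
      rw [Rat.cast_sum]
      refine Finset.sum_congr rfl fun j _ => ?_
      rw [Rat.cast_sum]
      exact Finset.sum_congr rfl fun i _ => cast_term p n a t j (i + 1) (c i j)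
    rw [e]
    refine BL3.hasI_sum p _ _ _ fun j _ => BL3.hasI_sum p _ _ _ fun i _ => BL3.hasI_mul p _ _ _ ?_
    exact h2 p hp2 n a (i + 1) hpn hpa j
  have hlim : Tendsto (Lam p S w F) atTop (𝓝 (∑ n ∈ S, (w n : ℚ_[p]) *
      ∑ a ∈ BB p n, (-1) ^ a * V p K s c n a)) := by
    unfold Lam
    refine tendsto_finsetSum _ fun n hn => Tendsto.const_mul _ (tendsto_finsetSum _ fun a ha => ?_)
    exact Tendsto.const_mul _ (hHas n hn a ha)
  have hval : (∑ n ∈ S, (w n : ℚ_[p]) * ∑ a ∈ BB p n, (-1) ^ a * V p K s c n a) =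
      (∑ i ∈ range s, ((∑ j ∈ range (K + 1), (-1) ^ j * c i j : ℚ) : ℚ_[p]) *
      ((Ww p S w (i + 1) : ℤ) : ℚ_[p]) * JJ p (i + 1)) + ((ratn p S w s K c : ℚ) : ℚ_[p]) := by
    have e1 : ∀ n ∈ S, (w n : ℚ_[p]) * ∑ a ∈ BB p n, (-1) ^ a * V p K s c n a =
        (∑ i ∈ range s, (∑ j ∈ range (K + 1), (-1) ^ j * (c i j : ℚ_[p])) *
          ((w n : ℚ_[p]) * (q2 p n : ℚ_[p]) ^ (i + 1)) * JJ p (i + 1)) +
        2 * ((w n : ℚ_[p]) * ∑ a ∈ BB p n, ∑ j ∈ range (K + 1), ∑ l ∈ range j,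
          (-1) ^ a * (-1) ^ (j - 1 - l) *
            ∑ i ∈ range s, (c i j : ℚ_[p]) * ((xn p n a l) ^ (i + 1))⁻¹) := by
      intro n hn
      obtain ⟨hodd, hpn⟩ := hS n hn
      rw [Finset.sum_congr rfl fun a _ => split p K s c n a, Finset.sum_add_distrib, mul_add]
      congr 1
      · rw [Finset.sum_comm, Finset.mul_sum]
        refine Finset.sum_congr rfl fun i _ => ?_
        rw [← Finset.mul_sum, h3 p hp2 n (i + 1) hodd hpn]
        ring
      · rw [← Finset.mul_sum]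
        ring
    rw [Finset.sum_congr rfl e1, Finset.sum_add_distrib]
    congr 1
    · rw [Finset.sum_comm]
      refine Finset.sum_congr rfl fun i _ => ?_
      rw [← Finset.sum_mul, ← Finset.mul_sum]
      congr 1
      unfold Ww
      push_cast
      rfl
    · unfold ratn
      rw [Rat.cast_mul, Rat.cast_sum, ← Finset.mul_sum]
      congr 1
      refine Finset.sum_congr rfl fun n _ => ?_
      rw [Rat.cast_mul, Rat.cast_sum, Rat.cast_intCast]
      congr 1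
      refine Finset.sum_congr rfl fun a _ => ?_
      rw [Rat.cast_sum]
      refine Finset.sum_congr rfl fun j _ => ?_
      rw [Rat.cast_sum]
      refine Finset.sum_congr rfl fun l _ => ?_
      have g2 : (((-1 : ℚ) ^ a * (-1) ^ (j - 1 - l) : ℚ) : ℚ_[p]) = (-1) ^ a * (-1) ^ (j - 1 - l) := by
        push_cast
        rfl
      rw [Rat.cast_mul, Rat.cast_sum, g2]
      congr 1
      exact Finset.sum_congr rfl fun i _ => (cast_term' p n a l (i + 1) (c i j)).symm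
  rw [← hval]
  exact hlim

end Pool.Agent.Work.MP_03df5c_pb
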