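import Pool.Agent.Work.MP_03df5c_pb.Interface5

/-!
# Block G5: the moments of the linear functional
-/

open Finset Filter Topology

namespace Pool.Agent.Work.MP_03df5c_pb

open Pool.Agent.Work.MP_03df5c_h91

namespace BG5

/-- The values of `1 / u ^ k`. -/
theorem vn_pow (p n a k : ℕ) [Fact p.Prime] :
    vn p n a (fun u => 1 / u ^ k) = fun t => ((xn p n a t) ^ k)⁻¹ := by
  funext t
  simp only [vn, tn, xn, one_div]
  push_cast
  rfl

end BG5

theorem p_G5 (h1 : S_G1) (h3 : S_G3) : S_G5 := by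
  intro p _ hp S w hS k
  have hlim : ((Ww p S w k : ℤ) : ℚ_[p]) * JJ p k =
      ∑ n ∈ S, (w n : ℚ_[p]) * ∑ a ∈ BB p n, (-1) ^ a * En p n k a := by
    unfold Ww
    push_cast
    rw [Finset.sum_mul]
    apply Finset.sum_congr rfl
    intro n hn
    obtain ⟨ho, hpn⟩ := hS n hn
    rw [h3 p hp n k ho hpn]
    ring
  rw [hlim]
  unfold Lam
  apply tendsto_finsetSum
  intro n hn
  obtain ⟨ho, hpn⟩ := hS n hn
  apply Tendsto.const_mul
  apply tendsto_finsetSum
  intro a ha
  have hpa : ¬ p ∣ a := (Finset.mem_filter.1 ha).2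
  apply Tendsto.const_mul
  rw [BG5.vn_pow]
  exact h1 p hp n a k hpn hpa

end Pool.Agent.Work.MP_03df5c_pb
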