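import Pool.Agent.Work.MP_03df5c_pb.Interface2

/-!
# Block L1: partial fractions of a simple block times `GG`
-/

open Finset Filter Topology

namespace Pool.Agent.Work.MP_03df5c_pb.BL1

open Pool.Agent.Work.MP_03df5c_pb

/-- Partial fraction expansion with integrality and size of the coefficients. -/
def PFB (K d n : ℕ) (F : ℚ → ℚ) (N : ℕ) (B : ℝ) : Prop :=
  0 ≤ B ∧ 1 ≤ n ∧ ∃ c : ℕ → ℕ → ℚ, PF K n c F ∧
    (∀ i < n, ∀ j ≤ K, ∃ z : ℤ, (N : ℚ) * (d : ℚ) ^ (n - 1 - i) * c i j = z) ∧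
    (∀ i < n, ∀ j ≤ K, |(c i j : ℝ)| ≤ (((n : ℝ) + 1) * ((K : ℝ) + 1)) ^ n * B)

theorem base (K d : ℕ) (β : ℕ → ℚ) (N : ℕ) (B : ℝ) (hN : ∀ j ≤ K, ∃ z : ℤ, (N : ℚ) * β j = z)
    (hB : ∑ j ∈ range (K + 1), |(β j : ℝ)| ≤ B) : PFB K d 1 (sf K β) N B := by
  have hB0 : 0 ≤ B := le_trans (Finset.sum_nonneg fun j _ => abs_nonneg _) hB
  refine ⟨hB0, le_refl _, fun _ j => β j, ?_, ?_, ?_⟩
  · intro u hu
    unfold sf ev
    simp
  · intro i hi j hj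
    obtain ⟨z, hz⟩ := hN j hj
    have hi0 : i = 0 := by omega
    subst hi0
    exact ⟨z, by simpa using hz⟩
  · intro i hi j hj
    have h1 : |(β j : ℝ)| ≤ ∑ j ∈ range (K + 1), |(β j : ℝ)| :=
      Finset.single_le_sum (f := fun j => |(β j : ℝ)|) (fun j _ => abs_nonneg _)
        (Finset.mem_range.2 (by omega))
    have h2 : (1 : ℝ) ≤ (((1 : ℕ) : ℝ) + 1) * ((K : ℝ) + 1) := by
      have : (0 : ℝ) ≤ K := Nat.cast_nonneg K
      push_cast
      nlinarith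
    calc |(β j : ℝ)| ≤ B := h1.trans hB
      _ = 1 * B := by ring
      _ ≤ ((((1 : ℕ) : ℝ) + 1) * ((K : ℝ) + 1)) ^ 1 * B := by
        rw [pow_one]
        exact mul_le_mul_of_nonneg_right h2 hB0

theorem step (hP1 : S_P1) (K d n : ℕ) (hd : ∀ n, 1 ≤ n → n ≤ K → n ∣ d) (F : ℚ → ℚ) (N : ℕ)
    (B : ℝ) (h : PFB K d n F N B) (β : ℕ → ℚ) (N' : ℕ) (B' : ℝ)
    (hN : ∀ j ≤ K, ∃ z : ℤ, (N' : ℚ) * β j = z)
    (hB : ∑ j ∈ range (K + 1), |(β j : ℝ)| ≤ B') :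
    PFB K d (n + 1) (fun u => sf K β u * F u) (N * N') (B * B') := by
  obtain ⟨hB0, hn, c, hc, hi, hs⟩ := h
  have hB'0 : 0 ≤ B' := le_trans (Finset.sum_nonneg fun j _ => abs_nonneg _) hB
  obtain ⟨c', hc', hi', hs'⟩ := hP1 K d n hn hd c F β hc
  refine ⟨mul_nonneg hB0 hB'0, by omega, c', hc', ?_, ?_⟩
  · intro i hin j hj
    have := hi' N N' hi hN i hin j hj
    have he : n + 1 - 1 - i = n - i := by omega
    rw [he]
    exact this
  · intro i hin j hj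
    have h1 := hs' ((((n : ℝ) + 1) * ((K : ℝ) + 1)) ^ n * B) B' hs hB i hin j hj
    have hx0 : (0 : ℝ) ≤ ((n : ℝ) + 1) * ((K : ℝ) + 1) := by positivity
    have hxy : ((n : ℝ) + 1) * ((K : ℝ) + 1) ≤ (((n + 1 : ℕ) : ℝ) + 1) * ((K : ℝ) + 1) := by
      apply mul_le_mul_of_nonneg_right _ (by positivity)
      push_cast
      linarith
    have h2 : (((n : ℝ) + 1) * ((K : ℝ) + 1)) ^ (n + 1) ≤
        ((((n + 1 : ℕ) : ℝ) + 1) * ((K : ℝ) + 1)) ^ (n + 1) :=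
      pow_le_pow_left₀ hx0 hxy _
    calc |(c' i j : ℝ)| ≤ _ := h1
      _ = (((n : ℝ) + 1) * ((K : ℝ) + 1)) ^ (n + 1) * (B * B') := by ring
      _ ≤ _ := mul_le_mul_of_nonneg_right h2 (mul_nonneg hB0 hB'0)

theorem power (hP1 : S_P1) (K d n : ℕ) (hd : ∀ n, 1 ≤ n → n ≤ K → n ∣ d) (F : ℚ → ℚ) (N : ℕ)
    (B : ℝ) (h : PFB K d n F N B) (β : ℕ → ℚ) (N' : ℕ) (B' : ℝ)
    (hN : ∀ j ≤ K, ∃ z : ℤ, (N' : ℚ) * β j = z)
    (hB : ∑ j ∈ range (K + 1), |(β j : ℝ)| ≤ B') (m : ℕ) :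
    PFB K d (n + m) (fun u => (sf K β u) ^ m * F u) (N * N' ^ m) (B * B' ^ m) := by
  induction m with
  | zero => simpa using h
  | succ m ih =>
    have := step hP1 K d (n + m) hd _ _ _ ih β N' B' hN hB
    have e1 : (fun u => (sf K β u) ^ (m + 1) * F u) =
        fun u => sf K β u * ((sf K β u) ^ m * F u) := by
      funext u
      ring
    have e2 : N * N' ^ (m + 1) = N * N' ^ m * N' := by ring
    have e3 : B * B' ^ (m + 1) = B * B' ^ m * B' := by ring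
    rw [e1, e2, e3]
    exact this

theorem prodd (hP1 : S_P1) (K d n : ℕ) (hd : ∀ n, 1 ≤ n → n ≤ K → n ∣ d) (F : ℚ → ℚ) (N : ℕ)
    (B : ℝ) (h : PFB K d n F N B) (β : ℕ → ℕ → ℚ) (e : ℕ → ℕ) (N' : ℕ) (B' : ℝ) (T : Finset ℕ)
    (hN : ∀ a ∈ T, ∀ j ≤ K, ∃ z : ℤ, (N' : ℚ) * β a j = z)
    (hB : ∀ a ∈ T, ∑ j ∈ range (K + 1), |(β a j : ℝ)| ≤ B') :
    PFB K d (n + ∑ a ∈ T, e a) (fun u => (∏ a ∈ T, (sf K (β a) u) ^ (e a)) * F u)
      (N * N' ^ (∑ a ∈ T, e a)) (B * B' ^ (∑ a ∈ T, e a)) := by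
  classical
  induction T using Finset.induction_on with
  | empty => simpa using h
  | @insert a T ha ih =>
    have ih' := ih (fun b hb => hN b (Finset.mem_insert_of_mem hb))
      (fun b hb => hB b (Finset.mem_insert_of_mem hb))
    have := power hP1 K d _ hd _ _ _ ih' (β a) N' B' (hN a (Finset.mem_insert_self _ _))
      (hB a (Finset.mem_insert_self _ _)) (e a)
    have e0 : n + ∑ b ∈ insert a T, e b = n + ∑ b ∈ T, e b + e a := by
      rw [Finset.sum_insert ha]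
      ring
    have e1 : (fun u => (∏ b ∈ insert a T, (sf K (β b) u) ^ (e b)) * F u) =
        fun u => (sf K (β a) u) ^ (e a) * ((∏ b ∈ T, (sf K (β b) u) ^ (e b)) * F u) := by
      funext u
      rw [Finset.prod_insert ha]
      ring
    have e2 : N * N' ^ (∑ b ∈ insert a T, e b) = N * N' ^ (∑ b ∈ T, e b) * N' ^ (e a) := by
      rw [Finset.sum_insert ha, pow_add]
      ring
    have e3 : B * B' ^ (∑ b ∈ insert a T, e b) = B * B' ^ (∑ b ∈ T, e b) * B' ^ (e a) := by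
      rw [Finset.sum_insert ha, pow_add]
      ring
    rw [e0, e1, e2, e3]
    exact this

theorem int_bet (hP5 : S_P5) (p : ℕ) [Fact p.Prime] (r K a : ℕ) (j : ℕ) :
    ∃ z : ℤ, ((p ^ ((r + 1) * K) : ℕ) : ℚ) * bet K (th p r a) j = z := by
  have hp : (p : ℚ) ≠ 0 := by exact_mod_cast (Fact.out : p.Prime).ne_zero
  obtain ⟨z, hz⟩ := hP5 p r K (((K : ℤ) - (j : ℤ)) * (p : ℤ) ^ r - (a : ℤ))
  have harg : ((((((K : ℤ) - (j : ℤ)) * (p : ℤ) ^ r - (a : ℤ)) : ℤ) : ℚ) / (p : ℚ) ^ r) =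
      (K : ℚ) - (j : ℚ) - th p r a := by
    unfold th
    push_cast
    field_simp
  rw [harg] at hz
  refine ⟨(-1) ^ j * (K.choose j : ℤ) * z, ?_⟩
  unfold bet
  push_cast
  rw [← hz]
  ring

theorem size_bet (hP4 : S_P4) (p : ℕ) [Fact p.Prime] (r K a : ℕ) (ha : a ∈ AA p r) :
    ∑ j ∈ range (K + 1), |(bet K (th p r a) j : ℝ)| ≤ 2 ^ K := by
  have hp : (0 : ℚ) < p := by exact_mod_cast (Fact.out : p.Prime).pos
  unfold AA at ha
  rw [Finset.mem_filter, Finset.mem_range] at ha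
  have ha0 : a ≠ 0 := by
    rintro rfl
    exact ha.2 (dvd_zero _)
  have h0 : 0 < th p r a := by
    unfold th
    have : (0 : ℚ) < a := by exact_mod_cast Nat.pos_of_ne_zero ha0
    positivity
  have h1 : th p r a < 1 := by
    unfold th
    rw [div_lt_one (by positivity)]
    exact_mod_cast ha.1
  have h2 : ∀ j ∈ range (K + 1), |(bet K (th p r a) j : ℝ)| ≤ 1 := by
    intro j hj
    have := hP4 K (th p r a) h0 h1 j (by have := Finset.mem_range.1 hj; omega)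
    exact_mod_cast this
  have hK : K + 1 ≤ 2 ^ K := Nat.lt_two_pow_self
  calc ∑ j ∈ range (K + 1), |(bet K (th p r a) j : ℝ)| ≤ ∑ j ∈ range (K + 1), (1 : ℝ) :=
        Finset.sum_le_sum h2
    _ = ((K + 1 : ℕ) : ℝ) := by simp
    _ ≤ ((2 ^ K : ℕ) : ℝ) := by exact_mod_cast hK
    _ = 2 ^ K := by push_cast; rfl

theorem size_bet0 (K : ℕ) : ∑ j ∈ range (K + 1), |(bet0 K j : ℝ)| ≤ 2 ^ K := by
  have h : ∀ j ∈ range (K + 1), |(bet0 K j : ℝ)| = ((K.choose j : ℕ) : ℝ) := by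
    intro j _
    unfold bet0
    push_cast
    rw [abs_mul, abs_pow, abs_neg, abs_one, one_pow, one_mul, abs_of_nonneg (Nat.cast_nonneg _)]
  rw [Finset.sum_congr rfl h]
  have := Nat.sum_range_choose K
  have h2 : ((∑ j ∈ range (K + 1), K.choose j : ℕ) : ℝ) = ((2 ^ K : ℕ) : ℝ) := by rw [this]
  push_cast at h2
  rw [h2]

end Pool.Agent.Work.MP_03df5c_pb.BL1

namespace Pool.Agent.Work.MP_03df5c_pb

open BL1

theorem p_L1 (hP1 : S_P1) (hP4 : S_P4) (hP5 : S_P5) (hD : S_D1) : S_L1 := by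
  intro p _ r s K a hr hK hbb ha β N B hN hB
  have hd : ∀ n, 1 ≤ n → n ≤ K → n ∣ dd K := (hD.2.1 K).2
  have h1 := base K (dd K) β N B hN hB
  have h2 := power hP1 K (dd K) 1 hd _ _ _ h1 (bet0 K) 1 (2 ^ K)
    (fun j _ => ⟨(-1) ^ j * (K.choose j : ℤ), by unfold bet0; push_cast; ring⟩) (size_bet0 K)
    (s - bb p r)
  have h3 := power hP1 K (dd K) _ hd _ _ _ h2 (bet K (th p r a)) (p ^ ((r + 1) * K)) (2 ^ K)
    (fun j _ => int_bet hP5 p r K a j) (size_bet hP4 p r K a ha) (ee a - 1)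
  have h4 := prodd hP1 K (dd K) _ hd _ _ _ h3 (fun a' => bet K (th p r a')) ee
    (p ^ ((r + 1) * K)) (2 ^ K) ((AA p r).erase a) (fun a' _ j _ => int_bet hP5 p r K a' j)
    (fun a' ha' => size_bet hP4 p r K a' (Finset.mem_of_mem_erase ha'))
  have hsum : bb p r = ee a + ∑ a' ∈ (AA p r).erase a, ee a' := by
    unfold bb
    rw [Finset.add_sum_erase _ _ ha]
  have hee : 1 ≤ ee a := by
    unfold ee
    split_ifs <;> norm_num
  have hn : 1 + (s - bb p r) + (ee a - 1) + ∑ a' ∈ (AA p r).erase a, ee a' = s := by omega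
  have hM : (ee a - 1) + ∑ a' ∈ (AA p r).erase a, ee a' = bb p r - 1 := by omega
  rw [hn] at h4
  obtain ⟨hB0, -, c, hc, hi, hs⟩ := h4
  refine ⟨c, ?_, ?_, ?_⟩
  · intro u hu
    have := hc u hu
    rw [← this]
    unfold GG
    ring
  · intro i his j hj
    obtain ⟨z, hz⟩ := hi i his j hj
    refine ⟨z, ?_⟩
    rw [← hz]
    have e : N * 1 ^ (s - bb p r) * (p ^ ((r + 1) * K)) ^ (ee a - 1) *
        (p ^ ((r + 1) * K)) ^ (∑ a' ∈ (AA p r).erase a, ee a') =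
        N * p ^ ((r + 1) * K * (bb p r - 1)) := by
      rw [one_pow, mul_one, mul_assoc, ← pow_add, hM, ← pow_mul]
    rw [e]
  · intro i his j hj
    refine (hs i his j hj).trans (le_of_eq ?_)
    have e : B * (2 ^ K) ^ (s - bb p r) * (2 ^ K) ^ (ee a - 1) *
        (2 ^ K) ^ (∑ a' ∈ (AA p r).erase a, ee a') = B * (2 : ℝ) ^ (K * (s - 1)) := by
      rw [mul_assoc, mul_assoc, ← pow_add, ← pow_add, ← pow_mul]
      congr 3
      omega
    rw [e]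

end Pool.Agent.Work.MP_03df5c_pb
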