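import Pool.Agent.Work.MP_03df5c_pb.Interface1

/-!
# Block P3: the two product formulas
-/

open Finset Filter Topology

namespace Pool.Agent.Work.MP_03df5c_pb

theorem prod_sub_top_p3 (n : ℕ) :
    ∏ j ∈ range n, ((j : ℚ) - (n : ℚ)) = (-1) ^ n * (n.factorial : ℚ) := by
  have h1 : ∏ j ∈ range n, ((j : ℚ) - (n : ℚ)) = ∏ j ∈ range n, (-1) * ((j : ℚ) + 1) := by
    rw [← Finset.prod_range_reflect (fun j => (-1) * ((j : ℚ) + 1)) n]
    refine Finset.prod_congr rfl fun j hj => ?_
    have h2 := Finset.mem_range.1 hj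
    have h3 : ((n - 1 - j : ℕ) : ℚ) = (n : ℚ) - 1 - j := by
      rw [Nat.cast_sub (by omega), Nat.cast_sub (by omega)]
      simp
    rw [h3]
    ring
  rw [h1, Finset.prod_mul_distrib, Finset.prod_const, Finset.card_range]
  congr 1
  rw [← Finset.prod_range_add_one_eq_factorial n]
  push_cast
  rfl

theorem prod_erase_p3 (K : ℕ) : ∀ i ≤ K,
    ∏ j ∈ (range (K + 1)).erase i, ((j : ℚ) - (i : ℚ)) =
      (-1) ^ i * (i.factorial : ℚ) * ((K - i).factorial : ℚ) := by
  induction K with
  | zero =>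
    intro i hi
    obtain rfl : i = 0 := by omega
    simp
  | succ K ih =>
    intro i hi
    rcases Nat.lt_or_ge K i with h | h
    · obtain rfl : i = K + 1 := by omega
      have h1 : (range (K + 1 + 1)).erase (K + 1) = range (K + 1) := by
        ext x
        simp only [Finset.mem_erase, Finset.mem_range]
        omega
      rw [h1, prod_sub_top_p3]
      simp
    · have h1 : (range (K + 1 + 1)).erase i = insert (K + 1) ((range (K + 1)).erase i) := by
        ext x
        simp only [Finset.mem_erase, Finset.mem_range, Finset.mem_insert]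
        omega
      have h2 : K + 1 ∉ (range (K + 1)).erase i := by simp
      rw [h1, Finset.prod_insert h2, ih i h]
      have h3 : K + 1 - i = (K - i) + 1 := by omega
      have h4 : ((K + 1 : ℕ) : ℚ) - (i : ℚ) = ((K - i + 1 : ℕ) : ℚ) := by
        rw [Nat.cast_add, Nat.cast_add, Nat.cast_sub h]
        push_cast
        ring
      rw [h3, Nat.factorial_succ, h4]
      push_cast
      ring

theorem lag_p3 (K : ℕ) (N : Polynomial ℚ) (hN : N.degree < ((K + 1 : ℕ) : WithBot ℕ)) (u : ℚ)
    (hu : Good K u) :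
    ∑ j ∈ range (K + 1),
      ((-1) ^ j * (K.choose j : ℚ) * (N.eval (-(j : ℚ)) / (K.factorial : ℚ))) / (u + (j : ℚ)) =
      N.eval u / ∏ j ∈ range (K + 1), (u + (j : ℚ)) := by
  classical
  have hinj : Set.InjOn (fun j : ℕ => -(j : ℚ)) (range (K + 1) : Set ℕ) := by
    intro a _ b _ h
    have h1 : (a : ℚ) = (b : ℚ) := neg_injective h
    exact_mod_cast h1
  have hne : ∀ j ∈ range (K + 1), u ≠ -(j : ℚ) := by
    intro j hj h
    exact hu j (by have := Finset.mem_range.1 hj; omega) (by rw [h]; ring)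
  have h1 := Lagrange.eq_interpolate (s := range (K + 1)) (v := fun j : ℕ => -(j : ℚ)) (f := N) hinj
    (by rw [Finset.card_range]; exact hN)
  have h2 := Lagrange.eval_interpolate_not_at_node (s := range (K + 1))
    (v := fun j : ℕ => -(j : ℚ)) (fun i => N.eval (-(i : ℚ))) hne
  have h3 : N.eval u = (∏ j ∈ range (K + 1), (u + (j : ℚ))) *
      ∑ i ∈ range (K + 1), Lagrange.nodalWeight (range (K + 1)) (fun j : ℕ => -(j : ℚ)) i *
        (u - -(i : ℚ))⁻¹ * N.eval (-(i : ℚ)) := by
    have h4 : Polynomial.eval u (Lagrange.nodal (range (K + 1)) (fun j : ℕ => -(j : ℚ))) =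
        ∏ j ∈ range (K + 1), (u + (j : ℚ)) := by
      rw [Lagrange.eval_nodal]
      refine Finset.prod_congr rfl fun j _ => ?_
      ring
    rw [← h4, ← h2]
    exact congrArg (Polynomial.eval u) h1
  have hP : ∏ j ∈ range (K + 1), (u + (j : ℚ)) ≠ 0 :=
    Finset.prod_ne_zero_iff.2 fun j hj => hu j (by have := Finset.mem_range.1 hj; omega)
  rw [h3, mul_div_cancel_left₀ _ hP]
  refine Finset.sum_congr rfl fun j hj => ?_
  have hj' : j ≤ K := by have := Finset.mem_range.1 hj; omega
  have h5 : Lagrange.nodalWeight (range (K + 1)) (fun j : ℕ => -(j : ℚ)) j =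
      ((-1) ^ j * (j.factorial : ℚ) * ((K - j).factorial : ℚ))⁻¹ := by
    unfold Lagrange.nodalWeight
    rw [Finset.prod_inv_distrib, ← prod_erase_p3 K j hj']
    congr 1
    refine Finset.prod_congr rfl fun i _ => ?_
    ring
  have h6 : (K.choose j : ℚ) * (j.factorial : ℚ) * ((K - j).factorial : ℚ) = (K.factorial : ℚ) := by
    exact_mod_cast Nat.choose_mul_factorial_mul_factorial hj'
  have h7 : (j.factorial : ℚ) ≠ 0 := by exact_mod_cast Nat.factorial_ne_zero j
  have h8 : ((K - j).factorial : ℚ) ≠ 0 := by exact_mod_cast Nat.factorial_ne_zero (K - j)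
  have h9 : (K.factorial : ℚ) ≠ 0 := by exact_mod_cast Nat.factorial_ne_zero K
  have h10 : u + (j : ℚ) ≠ 0 := hu j hj'
  have h11 : ((-1 : ℚ) ^ j) * (-1) ^ j = 1 := by
    rw [← mul_pow]; norm_num
  have h12 : ((-1 : ℚ) ^ j) ≠ 0 := pow_ne_zero _ (by norm_num)
  have h13 : ((-1 : ℚ) ^ j * (j.factorial : ℚ) * ((K - j).factorial : ℚ))⁻¹ =
      (-1) ^ j * (K.choose j : ℚ) / (K.factorial : ℚ) := by
    rw [← h6]
    have h14 : (K.choose j : ℚ) ≠ 0 := by
      exact_mod_cast (Nat.choose_pos hj').ne'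
    field_simp
    rw [← pow_mul, mul_comm j 2, pow_mul]
    norm_num
  rw [h5, h13]
  have h15 : u - -(j : ℚ) = u + (j : ℚ) := by ring
  rw [h15]
  field_simp

/-- Block P3. -/
theorem p_P3 : S_P3 := by
  intro K u hu
  have h9 : (K.factorial : ℚ) ≠ 0 := by exact_mod_cast Nat.factorial_ne_zero K
  constructor
  · have h1 := lag_p3 K (Polynomial.C (K.factorial : ℚ)) (by
      refine lt_of_le_of_lt Polynomial.degree_C_le ?_
      exact_mod_cast Nat.succ_pos K) u hu
    rw [Polynomial.eval_C] at h1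
    rw [← h1]
    unfold sf bet0
    refine Finset.sum_congr rfl fun j _ => ?_
    rw [Polynomial.eval_C, div_self h9, mul_one]
  · intro θ
    have h0 : ∀ y : ℚ, Polynomial.eval y
        (∏ m ∈ range K, (Polynomial.X + Polynomial.C ((K : ℚ) - θ - (m : ℚ)))) =
        (K.factorial : ℚ) * bin (y - θ + K) K := by
      intro y
      rw [Polynomial.eval_prod]
      unfold bin
      rw [mul_div_cancel₀ _ h9]
      refine Finset.prod_congr rfl fun m _ => ?_
      rw [Polynomial.eval_add, Polynomial.eval_X, Polynomial.eval_C]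
      ring
    have h1 := lag_p3 K (∏ m ∈ range K, (Polynomial.X + Polynomial.C ((K : ℚ) - θ - (m : ℚ)))) (by
      refine lt_of_le_of_lt (Polynomial.degree_prod_le _ _) ?_
      have h2 : ∑ m ∈ range K, (Polynomial.X + Polynomial.C ((K : ℚ) - θ - (m : ℚ))).degree =
          ((K : ℕ) : WithBot ℕ) := by
        rw [Finset.sum_congr rfl fun m _ => Polynomial.degree_X_add_C _]
        simp
      rw [h2]
      exact_mod_cast Nat.lt_succ_self K) u hu
    rw [h0] at h1
    rw [show bin (u - θ + K) K * ((K.factorial : ℚ) / ∏ j ∈ range (K + 1), (u + (j : ℚ))) =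
      (K.factorial : ℚ) * bin (u - θ + K) K / ∏ j ∈ range (K + 1), (u + (j : ℚ)) by ring, ← h1]
    unfold sf bet
    refine Finset.sum_congr rfl fun j _ => ?_
    rw [h0, mul_div_cancel_left₀ _ h9]
    rw [show -(j : ℚ) - θ + K = (K : ℚ) - j - θ by ring]

end Pool.Agent.Work.MP_03df5c_pb
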