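import Pool.Agent.Work.MP_03df5c_pb.Interface5
import Pool.Agent.Work.MP_03df5c_pb.B_L1
import Pool.Agent.Work.MP_03df5c_pb.B_P3

/-!
# Block H1: partial fractions of `u ^ i` times the function `RD`
-/

open Finset Filter Topology

namespace Pool.Agent.Work.MP_03df5c_pb

namespace BH1

open BL1

/-- a product of blocks with different denominators -/
theorem prodg {ι : Type} [DecidableEq ι] (hP1 : S_P1) (K d n : ℕ)
    (hd : ∀ n, 1 ≤ n → n ≤ K → n ∣ d) (F : ℚ → ℚ) (N : ℕ) (B : ℝ) (h : PFB K d n F N B)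
    (β : ι → ℕ → ℚ) (N' : ι → ℕ) (B' : ℝ) (T : Finset ι)
    (hN : ∀ x ∈ T, ∀ j ≤ K, ∃ z : ℤ, (N' x : ℚ) * β x j = z)
    (hB : ∀ x ∈ T, ∑ j ∈ range (K + 1), |(β x j : ℝ)| ≤ B') :
    PFB K d (n + T.card) (fun u => (∏ x ∈ T, sf K (β x) u) * F u)
      (N * ∏ x ∈ T, N' x) (B * B' ^ T.card) := by
  induction T using Finset.induction_on with
  | empty => simpa using h
  | @insert a T ha ih =>
    have ih' := ih (fun b hb => hN b (Finset.mem_insert_of_mem hb))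
      (fun b hb => hB b (Finset.mem_insert_of_mem hb))
    have := step hP1 K d _ hd _ _ _ ih' (β a) (N' a) B' (hN a (Finset.mem_insert_self _ _))
      (hB a (Finset.mem_insert_self _ _))
    have e0 : n + (insert a T).card = n + T.card + 1 := by
      rw [Finset.card_insert_of_notMem ha]
      ring
    have e1 : (fun u => (∏ x ∈ insert a T, sf K (β x) u) * F u) =
        fun u => sf K (β a) u * ((∏ x ∈ T, sf K (β x) u) * F u) := by
      funext u
      rw [Finset.prod_insert ha]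
      ring
    have e2 : N * ∏ x ∈ insert a T, N' x = (N * ∏ x ∈ T, N' x) * N' a := by
      rw [Finset.prod_insert ha]
      ring
    have e3 : B * B' ^ (insert a T).card = B * B' ^ T.card * B' := by
      rw [Finset.card_insert_of_notMem ha, pow_succ]
      ring
    rw [e0, e1, e2, e3]
    exact this

/-- the first block -/
noncomputable def be (K i0 : ℕ) (j : ℕ) : ℚ := (-(j : ℚ)) ^ i0 * bet0 K j

theorem be_sf (hP3 : S_P3) (K i0 : ℕ) (hi : i0 ≤ K) (u : ℚ) (hu : Good K u) :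
    sf K (be K i0) u = u ^ i0 * sf K (bet0 K) u := by
  have h9 : (K.factorial : ℚ) ≠ 0 := by exact_mod_cast Nat.factorial_ne_zero K
  have h1 := lag_p3 K (Polynomial.C (K.factorial : ℚ) * Polynomial.X ^ i0) (by
    refine lt_of_le_of_lt (Polynomial.degree_C_mul_X_pow_le i0 _) ?_
    exact_mod_cast Nat.lt_succ_of_le hi) u hu
  have h2 : ∀ y : ℚ, (Polynomial.C (K.factorial : ℚ) * Polynomial.X ^ i0).eval y =
      (K.factorial : ℚ) * y ^ i0 := by
    intro y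
    simp
  rw [(hP3 K u hu).1, mul_div_assoc', mul_comm (u ^ i0), ← h2 u, ← h1]
  unfold sf be bet0
  refine Finset.sum_congr rfl fun j _ => ?_
  rw [h2, mul_div_cancel_left₀ _ h9]
  ring

theorem be_int (K i0 : ℕ) : ∀ j ≤ K, ∃ z : ℤ, ((1 : ℕ) : ℚ) * be K i0 j = z := by
  intro j _
  refine ⟨(-(j : ℤ)) ^ i0 * ((-1) ^ j * (K.choose j : ℤ)), ?_⟩
  unfold be bet0
  push_cast
  ring

theorem be_size (K i0 s : ℕ) (hi : i0 ≤ s) :
    ∑ j ∈ range (K + 1), |(be K i0 j : ℝ)| ≤ ((K : ℝ) + 1) ^ s * 2 ^ K := by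
  calc ∑ j ∈ range (K + 1), |(be K i0 j : ℝ)|
      ≤ ∑ j ∈ range (K + 1), ((K : ℝ) + 1) ^ s * |(bet0 K j : ℝ)| := by
        refine Finset.sum_le_sum fun j hj => ?_
        have hj' : j ≤ K := by
          have := Finset.mem_range.1 hj
          omega
        unfold be
        push_cast
        rw [abs_mul, abs_pow, abs_neg, Nat.abs_cast]
        refine mul_le_mul_of_nonneg_right ?_ (abs_nonneg _)
        have h1 : (j : ℝ) ≤ (K : ℝ) + 1 := by
          have : (j : ℝ) ≤ K := by exact_mod_cast hj'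
          linarith
        have h2 : (1 : ℝ) ≤ (K : ℝ) + 1 := by
          have : (0 : ℝ) ≤ K := Nat.cast_nonneg K
          linarith
        calc (j : ℝ) ^ i0 ≤ ((K : ℝ) + 1) ^ i0 := pow_le_pow_left₀ (Nat.cast_nonneg j) h1 _
          _ ≤ ((K : ℝ) + 1) ^ s := pow_le_pow_right₀ h2 hi
    _ = ((K : ℝ) + 1) ^ s * ∑ j ∈ range (K + 1), |(bet0 K j : ℝ)| := by rw [Finset.mul_sum]
    _ ≤ _ := mul_le_mul_of_nonneg_left (size_bet0 K) (by positivity)

theorem mem_BB {p n a : ℕ} (h : a ∈ BB p n) : a < q2 p n ∧ ¬ p ∣ a := by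
  unfold BB at h
  rw [mem_filter, mem_range] at h
  exact h

theorem q2_pos (p : ℕ) [Fact p.Prime] {n : ℕ} (hn : Odd n) : 0 < q2 p n := by
  have hp : 0 < p := (Fact.out : p.Prime).pos
  have hn0 : 0 < n := hn.pos
  unfold q2
  positivity

theorem tn_pos (p : ℕ) [Fact p.Prime] {n a : ℕ} (hn : Odd n) (h : a ∈ BB p n) :
    0 < tn p n a ∧ tn p n a < 1 := by
  obtain ⟨h1, h2⟩ := mem_BB h
  have hq := q2_pos p hn
  have ha : 0 < a := by
    rcases Nat.eq_zero_or_pos a with h0 | h0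
    · exact absurd (h0 ▸ dvd_zero p) h2
    · exact h0
  have hq' : (0 : ℚ) < (q2 p n : ℚ) := by exact_mod_cast hq
  unfold tn
  constructor
  · positivity
  · rw [div_lt_one hq']
    exact_mod_cast h1

/-- `a / q + z` is not small -/
theorem tn_add (p : ℕ) [Fact p.Prime] {n a : ℕ} (hn : Odd n) (h : a ∈ BB p n) (z : ℤ) :
    ((q2 p n : ℚ))⁻¹ ≤ |tn p n a + (z : ℚ)| := by
  obtain ⟨h1, h2⟩ := mem_BB h
  have hq := q2_pos p hn
  have hpr : (0 : ℚ) < (q2 p n : ℚ) := by exact_mod_cast hq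
  have e : tn p n a + (z : ℚ) = (((a : ℤ) + z * (q2 p n : ℤ) : ℤ) : ℚ) * ((q2 p n : ℚ))⁻¹ := by
    unfold tn
    push_cast
    field_simp
  have hz : ((a : ℤ) + z * (q2 p n : ℤ)) ≠ 0 := by
    intro h0
    apply h2
    have h3 : (p : ℤ) ∣ (a : ℤ) := by
      have h4 : (a : ℤ) = - (z * (q2 p n : ℤ)) := by linarith
      rw [h4]
      refine Dvd.dvd.neg_right (Dvd.dvd.mul_left ?_ _)
      unfold q2
      refine ⟨(p : ℤ) * n, ?_⟩
      push_cast
      ring
    exact_mod_cast h3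
  rw [e, abs_mul, abs_of_pos (inv_pos.2 hpr)]
  have h5 : (1 : ℚ) ≤ |(((a : ℤ) + z * (q2 p n : ℤ) : ℤ) : ℚ)| := by
    rw [← Int.cast_abs]
    exact_mod_cast Int.one_le_abs hz
  calc ((q2 p n : ℚ))⁻¹ = 1 * ((q2 p n : ℚ))⁻¹ := by ring
    _ ≤ _ := mul_le_mul_of_nonneg_right h5 (inv_pos.2 hpr).le

theorem bin_zero {K h : ℕ} (h1 : 1 ≤ h) (h2 : h ≤ K) : bin ((K : ℚ) - (h : ℚ)) K = 0 := by
  unfold bin
  rw [div_eq_zero_iff]
  left
  rw [Finset.prod_eq_zero_iff]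
  refine ⟨K - h, mem_range.2 (by omega), ?_⟩
  rw [Nat.cast_sub h2]
  ring

theorem sum_bet (hP4 : S_P4) (K : ℕ) {θ : ℚ} (h0 : 0 < θ) (h1 : θ < 1) :
    ∑ j ∈ range (K + 1), |((bet K θ j : ℚ) : ℝ)| ≤ 2 ^ K := by
  calc ∑ j ∈ range (K + 1), |((bet K θ j : ℚ) : ℝ)| ≤ ∑ _j ∈ range (K + 1), (1 : ℝ) := by
        refine Finset.sum_le_sum fun j hj => ?_
        rw [mem_range] at hj
        have := hP4 K θ h0 h1 j (by omega)
        rw [← Rat.cast_abs]
        exact_mod_cast this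
    _ = ((K + 1 : ℕ) : ℝ) := by simp
    _ ≤ 2 ^ K := by
        have : K + 1 ≤ 2 ^ K := by
          have := Nat.lt_two_pow_self (n := K)
          omega
        exact_mod_cast this

theorem int_betn (hH1a : S_H1a) (p : ℕ) [Fact p.Prime] (n K a : ℕ) (hn : Odd n) : ∀ j ≤ K,
    ∃ z : ℤ, (((q2 p n) ^ (2 * K) : ℕ) : ℚ) * bet K (tn p n a) j = z := by
  intro j hj
  have hq := q2_pos p hn
  have hq' : (q2 p n : ℚ) ≠ 0 := by exact_mod_cast hq.ne'
  obtain ⟨z, hz⟩ := hH1a (q2 p n) K (((K : ℤ) - j) * (q2 p n : ℤ) - a) hq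
  refine ⟨(-1) ^ j * (K.choose j : ℤ) * z, ?_⟩
  have e : (K : ℚ) - (j : ℚ) - tn p n a =
      (((((K : ℤ) - j) * (q2 p n : ℤ) - a : ℤ)) : ℚ) / (q2 p n : ℚ) := by
    unfold tn
    push_cast
    field_simp
  unfold bet
  rw [e]
  push_cast
  rw [← hz]
  push_cast
  ring

/-- the pairs -/
def TT (p : ℕ) (S : Finset ℕ) : Finset (Σ _ : ℕ, ℕ) := S.sigma (fun n => BB p n)

theorem mem_TT {p : ℕ} {S : Finset ℕ} {x : Σ _ : ℕ, ℕ} :
    x ∈ TT p S ↔ x.1 ∈ S ∧ x.2 ∈ BB p x.1 := by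
  unfold TT
  exact Finset.mem_sigma

theorem card_TT (p : ℕ) (S : Finset ℕ) : (TT p S).card = bS p S := by
  unfold TT bS
  exact Finset.card_sigma _ _

theorem prod_TT {M : Type} [CommMonoid M] (p : ℕ) (S : Finset ℕ) (f : ℕ → ℕ → M) :
    ∏ x ∈ TT p S, f x.1 x.2 = ∏ n ∈ S, ∏ a ∈ BB p n, f n a := by
  unfold TT
  exact Finset.prod_sigma S (fun n => BB p n) (fun x => f x.1 x.2)

theorem Dl_pow (p : ℕ) (S : Finset ℕ) (K : ℕ) :
    ∏ x ∈ TT p S, (q2 p x.1) ^ (2 * K) = Dl p S ^ K := by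
  rw [prod_TT p S (fun n _ => (q2 p n) ^ (2 * K))]
  unfold Dl
  rw [← Finset.prod_pow]
  refine Finset.prod_congr rfl fun n _ => ?_
  rw [← Finset.prod_pow]
  refine Finset.prod_congr rfl fun a _ => ?_
  rw [← pow_mul]

/-- the blocks -/
theorem blocks (hP1 : S_P1) (hP4 : S_P4) (hD1 : S_D1) (hH1a : S_H1a) (p : ℕ) [Fact p.Prime]
    (S : Finset ℕ) (s K i0 : ℕ) (hS : GS p S) (hs : bS p S + 1 ≤ s) (hi : i0 < s)
    (T : Finset (Σ _ : ℕ, ℕ)) (hT : T ⊆ TT p S) :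
    PFB K (dd K) (s - bS p S + T.card)
      (fun u => (∏ x ∈ T, sf K (bet K (tn p x.1 x.2)) u) *
        ((sf K (bet0 K) u) ^ (s - bS p S - 1) * sf K (be K i0) u))
      (∏ x ∈ T, (q2 p x.1) ^ (2 * K))
      (((K : ℝ) + 1) ^ s * 2 ^ (K * (s - bS p S + T.card))) := by
  classical
  have hd : ∀ n, 1 ≤ n → n ≤ K → n ∣ dd K := (hD1.2.1 K).2
  have h1 := base K (dd K) (be K i0) 1 (((K : ℝ) + 1) ^ s * 2 ^ K) (be_int K i0)
    (be_size K i0 s hi.le)
  have h2 := power hP1 K (dd K) 1 hd _ _ _ h1 (bet0 K) 1 (2 ^ K)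
    (fun j _ => ⟨(-1) ^ j * (K.choose j : ℤ), by unfold bet0; push_cast; ring⟩) (size_bet0 K)
    (s - bS p S - 1)
  have h3 := prodg hP1 K (dd K) _ hd _ _ _ h2 (fun x : Σ _ : ℕ, ℕ => bet K (tn p x.1 x.2))
    (fun x => (q2 p x.1) ^ (2 * K)) (2 ^ K) T
    (fun x hx j hj => int_betn hH1a p x.1 K x.2 (hS x.1 (mem_TT.1 (hT hx)).1).1 j hj)
    (fun x hx => sum_bet hP4 K (tn_pos p (hS x.1 (mem_TT.1 (hT hx)).1).1 (mem_TT.1 (hT hx)).2).1
      (tn_pos p (hS x.1 (mem_TT.1 (hT hx)).1).1 (mem_TT.1 (hT hx)).2).2)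
  have e1 : 1 + (s - bS p S - 1) + T.card = s - bS p S + T.card := by omega
  have e2 : 1 * 1 ^ (s - bS p S - 1) * ∏ x ∈ T, (q2 p x.1) ^ (2 * K) =
      ∏ x ∈ T, (q2 p x.1) ^ (2 * K) := by
    rw [one_pow, one_mul, one_mul]
  have e3 : ((K : ℝ) + 1) ^ s * 2 ^ K * (2 ^ K) ^ (s - bS p S - 1) * (2 ^ K) ^ T.card =
      ((K : ℝ) + 1) ^ s * 2 ^ (K * (s - bS p S + T.card)) := by
    rw [mul_assoc, mul_assoc, ← pow_add, ← pow_mul, ← pow_add]
    congr 2
    have : s - bS p S = (s - bS p S - 1) + 1 := by omega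
    rw [← e1]
    ring
  rw [e1, e2, e3] at h3
  exact h3

end BH1

open BL1 BH1

theorem p_H1 (hP1 : S_P1) (hP3 : S_P3) (hP4 : S_P4) (hP9 : S_P9) (hD1 : S_D1) (hH1a : S_H1a)
    (hH1b : S_H1b) : S_H1 := by
  classical
  intro p _ S s K i0 hS hs hK hi
  have hs1 : 1 ≤ s := by omega
  have hiK : i0 ≤ K := by omega
  have hd : ∀ n, 1 ≤ n → n ≤ K → n ∣ dd K := (hD1.2.1 K).2
  have hA := blocks hP1 hP4 hD1 hH1a p S s K i0 hS hs hi (TT p S) (Finset.Subset.refl _)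
  rw [card_TT, Nat.sub_add_cancel (by omega), Dl_pow] at hA
  obtain ⟨-, -, c, hc, hcz, hcb⟩ := hA
  have hF : ∀ u, Good K u → u ^ i0 * RD p S s K u =
      (∏ x ∈ TT p S, sf K (bet K (tn p x.1 x.2)) u) *
        ((sf K (bet0 K) u) ^ (s - bS p S - 1) * sf K (be K i0) u) := by
    intro u hu
    rw [be_sf hP3 K i0 hiK u hu, prod_TT p S (fun n a => sf K (bet K (tn p n a)) u)]
    unfold RD
    have e : s - bS p S = (s - bS p S - 1) + 1 := by omega
    rw [e, pow_succ, Nat.add_sub_cancel]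
    ring
  have hRD : PF K s c (fun u => u ^ i0 * RD p S s K u) := by
    intro u hu
    change u ^ i0 * RD p S s K u = _
    rw [hF u hu]
    exact hc u hu
  refine ⟨c, hRD, ?_, ?_, ?_⟩
  · intro i his j hj
    obtain ⟨z, hz⟩ := hcz i his j hj
    refine ⟨z * (dd K : ℤ) ^ (i + 1), ?_⟩
    push_cast at hz ⊢
    rw [← hz]
    have e3 : (dd K : ℚ) ^ s = (dd K : ℚ) ^ (s - 1 - i) * (dd K : ℚ) ^ (i + 1) := by
      rw [← pow_add]
      congr 1
      omega
    rw [e3]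
    ring
  · intro i his j hj
    exact hcb i his j hj
  · intro n hn a ha j hj l hl
    have hno : Odd n := (hS n hn).1
    obtain ⟨ta0, ta1⟩ := tn_pos p hno ha
    obtain ⟨h, hh⟩ : ∃ h, j = l + h := ⟨j - l, by omega⟩
    have h1 : 1 ≤ h := by omega
    have h2 : h ≤ K := by omega
    have hgood : ∀ j' : ℕ, ((q2 p n : ℚ))⁻¹ ≤ |tn p n a - (h : ℚ) + (j' : ℚ)| := by
      intro j'
      have := tn_add p hno ha ((j' : ℤ) - h)
      have e : tn p n a + (((j' : ℤ) - h : ℤ) : ℚ) = tn p n a - (h : ℚ) + (j' : ℚ) := by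
        push_cast
        ring
      rwa [e] at this
    have hpr : (0 : ℚ) < (q2 p n : ℚ) := by exact_mod_cast q2_pos p hno
    have hG : Good K (tn p n a - (h : ℚ)) := by
      intro j' _ h0
      have := hgood j'
      rw [h0, abs_zero] at this
      exact absurd (inv_pos.2 hpr) (not_lt.2 this)
    have hz0 : sf K (bet K (tn p n a)) (tn p n a - (h : ℚ)) = 0 := by
      rw [(hP3 K _ hG).2 (tn p n a)]
      have e : tn p n a - (h : ℚ) - tn p n a + (K : ℚ) = (K : ℚ) - (h : ℚ) := by ring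
      rw [e, BH1.bin_zero h1 h2, zero_mul]
    have hsum : ∑ j' ∈ range (K + 1),
        |(((bet K (tn p n a) j' / (tn p n a - (h : ℚ) + (j' : ℚ))) : ℚ) : ℝ)| ≤
          (q2 p n : ℝ) * 2 ^ K := by
      calc ∑ j' ∈ range (K + 1), |(((bet K (tn p n a) j' / (tn p n a - (h : ℚ) + (j' : ℚ))) : ℚ) : ℝ)|
          ≤ ∑ j' ∈ range (K + 1), (q2 p n : ℝ) * |((bet K (tn p n a) j' : ℚ) : ℝ)| := by
            refine Finset.sum_le_sum fun j' _ => ?_
            have h3 := hgood j'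
            have h4 : |bet K (tn p n a) j' / (tn p n a - (h : ℚ) + (j' : ℚ))| ≤
                (q2 p n : ℚ) * |bet K (tn p n a) j'| := by
              rw [abs_div, div_eq_mul_inv, mul_comm]
              refine mul_le_mul_of_nonneg_right ?_ (abs_nonneg _)
              exact inv_le_of_inv_le₀ hpr h3
            have h5 : ((|bet K (tn p n a) j' / (tn p n a - (h : ℚ) + (j' : ℚ))| : ℚ) : ℝ) ≤
                (((q2 p n : ℚ) * |bet K (tn p n a) j'| : ℚ) : ℝ) := by exact_mod_cast h4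
            rw [Rat.cast_abs, Rat.cast_mul, Rat.cast_abs, Rat.cast_natCast] at h5
            exact h5
        _ = (q2 p n : ℝ) * ∑ j' ∈ range (K + 1), |((bet K (tn p n a) j' : ℚ) : ℝ)| := by
            rw [Finset.mul_sum]
        _ ≤ _ := by
            refine mul_le_mul_of_nonneg_left (BH1.sum_bet hP4 K ta0 ta1) ?_
            positivity
    have hmem : (⟨n, a⟩ : Σ _ : ℕ, ℕ) ∈ TT p S := mem_TT.2 ⟨hn, ha⟩
    have hB := blocks hP1 hP4 hD1 hH1a p S s K i0 hS hs hi ((TT p S).erase ⟨n, a⟩)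
      (Finset.erase_subset _ _)
    have hC := step hP1 K (dd K) _ hd _ _ _ hB
      (fun j' => bet K (tn p n a) j' / (tn p n a - (h : ℚ) + (j' : ℚ)))
      (dd K * (q2 p n) ^ (2 * K)) ((q2 p n : ℝ) * 2 ^ K)
      (fun j' hj' => hH1b p n a K h j' (hS n hn).2 (mem_BB ha).2 h1 h2 hj') hsum
    have hcard : ((TT p S).erase ⟨n, a⟩).card + 1 = bS p S := by
      rw [Finset.card_erase_of_mem hmem, card_TT]
      have : 0 < (TT p S).card := Finset.card_pos.2 ⟨_, hmem⟩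
      rw [card_TT] at this
      omega
    have e0 : s - bS p S + ((TT p S).erase ⟨n, a⟩).card + 1 = s := by omega
    have e1 : (∏ x ∈ (TT p S).erase ⟨n, a⟩, (q2 p x.1) ^ (2 * K)) * (dd K * (q2 p n) ^ (2 * K)) =
        Dl p S ^ K * dd K := by
      rw [← Dl_pow, ← Finset.mul_prod_erase (TT p S) (fun x => (q2 p x.1) ^ (2 * K)) hmem]
      ring
    have e2 : ((K : ℝ) + 1) ^ s * 2 ^ (K * (s - bS p S + ((TT p S).erase ⟨n, a⟩).card)) *
        ((q2 p n : ℝ) * 2 ^ K) = (q2 p n : ℝ) * (((K : ℝ) + 1) ^ s * 2 ^ (K * s)) := by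
      have e3 : (2 : ℝ) ^ (K * s) =
          2 ^ (K * (s - bS p S + ((TT p S).erase ⟨n, a⟩).card)) * 2 ^ K := by
        rw [← pow_add]
        congr 1
        conv_lhs => rw [← e0]
        ring
      rw [e3]
      ring
    rw [e0, e1, e2] at hC
    obtain ⟨-, -, c', hc', hcz', hcb'⟩ := hC
    have hc2 : PF K s c (fun u => sf K (bet K (tn p n a)) u *
        ((∏ x ∈ (TT p S).erase ⟨n, a⟩, sf K (bet K (tn p x.1 x.2)) u) *
          ((sf K (bet0 K) u) ^ (s - bS p S - 1) * sf K (be K i0) u))) := by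
      intro u hu
      have := hc u hu
      rw [← this]
      change _ = (∏ x ∈ TT p S, sf K (bet K (tn p x.1 x.2)) u) *
        ((sf K (bet0 K) u) ^ (s - bS p S - 1) * sf K (be K i0) u)
      rw [← Finset.mul_prod_erase (TT p S) (fun x => sf K (bet K (tn p x.1 x.2)) u) hmem]
      ring
    have key := hP9 K s hs1 (bet K (tn p n a)) _ (tn p n a - (h : ℚ)) c c' hG hz0 hc2
      hc' j hj
    have e4 : tn p n a - (h : ℚ) + (j : ℚ) = tn p n a + (l : ℚ) := by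
      rw [hh]
      push_cast
      ring
    rw [e4] at key
    rw [key]
    constructor
    · obtain ⟨z, hz⟩ := hcz' 0 hs1 j hj
      refine ⟨z, ?_⟩
      rw [← hz]
      push_cast
      have e6 : (dd K : ℚ) ^ s = (dd K : ℚ) * (dd K : ℚ) ^ (s - 1 - 0) := by
        rw [← pow_succ']
        congr 1
        omega
      rw [e6]
      ring
    · have := hcb' 0 hs1 j hj
      refine this.trans (le_of_eq ?_)
      ring

end Pool.Agent.Work.MP_03df5c_pb
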