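import Pool.Agent.Work.MP_03df5c_pb.Interface4

/-!
# Statements of the blocks, part 5: many irrational values
-/

open Finset Filter Topology

namespace Pool.Agent.Work.MP_03df5c_pb

open Pool.Agent.Work.MP_03df5c_h91

/-- The denominators `p ^ 2 * n`. -/
def q2 (p n : ℕ) : ℕ := p ^ 2 * n

/-- The points `a / (p ^ 2 * n)`. -/
noncomputable def tn (p n a : ℕ) : ℚ := (a : ℚ) / (q2 p n : ℚ)

/-- The numerators `a < p ^ 2 * n` prime to `p`. -/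
def BB (p n : ℕ) : Finset ℕ := (range (q2 p n)).filter (fun a => ¬ p ∣ a)

/-- The number of blocks. -/
def bS (p : ℕ) (S : Finset ℕ) : ℕ := ∑ n ∈ S, (BB p n).card

/-- The denominator of the blocks. -/
def Dl (p : ℕ) (S : Finset ℕ) : ℕ := ∏ n ∈ S, ∏ _a ∈ BB p n, (q2 p n) ^ 2

/-- The sets of odd integers prime to `p`. -/
def GS (p : ℕ) (S : Finset ℕ) : Prop := ∀ n ∈ S, Odd n ∧ ¬ p ∣ n

/-- The rational function of the second construction. -/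
noncomputable def RD (p : ℕ) (S : Finset ℕ) (s K : ℕ) (u : ℚ) : ℚ :=
  (sf K (bet0 K) u) ^ (s - bS p S) * ∏ n ∈ S, ∏ a ∈ BB p n, sf K (bet K (tn p n a)) u

/-- The value of a rational function at `a / (p ^ 2 * n) + t`, in `ℚ_p`. -/
noncomputable def vn (p n a : ℕ) [Fact p.Prime] (F : ℚ → ℚ) (t : ℕ) : ℚ_[p] :=
  ((F (tn p n a + (t : ℚ)) : ℚ) : ℚ_[p])

/-- The value `a / (p ^ 2 * n) + t` in `ℚ_p`. -/
noncomputable def xn (p n a : ℕ) [Fact p.Prime] (t : ℕ) : ℚ_[p] :=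
  (a : ℚ_[p]) / (q2 p n : ℚ_[p]) + (t : ℚ_[p])

/-- The limit of the alternating sums of `(a / (p ^ 2 * n) + t)^(-i)`. -/
noncomputable def En (p n i a : ℕ) [Fact p.Prime] : ℚ_[p] :=
  limUnder atTop (fs p (fun t => ((xn p n a t) ^ i)⁻¹))

/-- The linear functional, at level `N`. -/
noncomputable def Lam (p : ℕ) [Fact p.Prime] (S : Finset ℕ) (w : ℕ → ℤ) (F : ℚ → ℚ) (N : ℕ) :
    ℚ_[p] :=
  ∑ n ∈ S, (w n : ℚ_[p]) * ∑ a ∈ BB p n, (-1) ^ a * fs p (vn p n a F) N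

/-- The functional vanishes at `F`. -/
def Zr (p : ℕ) [Fact p.Prime] (S : Finset ℕ) (w : ℕ → ℤ) (F : ℚ → ℚ) : Prop :=
  Tendsto (Lam p S w F) atTop (𝓝 0)

/-- The weight `∑ w_n (p ^ 2 n)^k`. -/
def Ww (p : ℕ) (S : Finset ℕ) (w : ℕ → ℤ) (k : ℕ) : ℤ := ∑ n ∈ S, w n * (q2 p n : ℤ) ^ k

/-- The rational part. -/
noncomputable def ratn (p : ℕ) (S : Finset ℕ) (w : ℕ → ℤ) (s K : ℕ) (c : ℕ → ℕ → ℚ) : ℚ :=
  2 * ∑ n ∈ S, (w n : ℚ) * ∑ a ∈ BB p n, ∑ j ∈ range (K + 1), ∑ l ∈ range j,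
    (-1) ^ a * (-1) ^ (j - 1 - l) * ∑ i ∈ range s, c i j / (tn p n a + (l : ℚ)) ^ (i + 1)

/-- G1: convergence. -/
def S_G1 : Prop := ∀ (p : ℕ) [Fact p.Prime], p ≠ 2 → ∀ n a i : ℕ, ¬ p ∣ n → ¬ p ∣ a →
  HasI p (fun t => ((xn p n a t) ^ i)⁻¹) (En p n i a)

/-- G2: shifted powers. -/
def S_G2 : Prop := ∀ (p : ℕ) [Fact p.Prime], p ≠ 2 → ∀ n a i : ℕ, ¬ p ∣ n → ¬ p ∣ a → ∀ j : ℕ,
  HasI p (fun t => ((xn p n a (t + j)) ^ i)⁻¹)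
    ((-1) ^ j * En p n i a + 2 * ∑ l ∈ range j, (-1) ^ (j - 1 - l) * ((xn p n a l) ^ i)⁻¹)

/-- G3: the sum over the residue classes. -/
def S_G3 : Prop := ∀ (p : ℕ) [Fact p.Prime], p ≠ 2 → ∀ n i : ℕ, Odd n → ¬ p ∣ n →
  ∑ a ∈ BB p n, (-1) ^ a * En p n i a = (q2 p n : ℚ_[p]) ^ i * JJ p i

/-- G4: the linear form. -/
def S_G4 : Prop := ∀ (p : ℕ) [Fact p.Prime], p ≠ 2 → ∀ (S : Finset ℕ) (w : ℕ → ℤ), GS p S →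
  ∀ (K s : ℕ) (c : ℕ → ℕ → ℚ) (F : ℚ → ℚ), PF K s c F →
  Tendsto (Lam p S w F) atTop (𝓝
    ((∑ i ∈ range s, ((∑ j ∈ range (K + 1), (-1) ^ j * c i j : ℚ) : ℚ_[p]) *
      ((Ww p S w (i + 1) : ℤ) : ℚ_[p]) * JJ p (i + 1)) + ((ratn p S w s K c : ℚ) : ℚ_[p])))

/-- G5: the moments. -/
def S_G5 : Prop := ∀ (p : ℕ) [Fact p.Prime], p ≠ 2 → ∀ (S : Finset ℕ) (w : ℕ → ℤ), GS p S →
  ∀ k : ℕ, Tendsto (Lam p S w (fun u => 1 / u ^ k)) atTop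
    (𝓝 (((Ww p S w k : ℤ) : ℚ_[p]) * JJ p k))

/-- H1a: denominators of binomial coefficients. -/
def S_H1a : Prop := ∀ (m K : ℕ) (b : ℤ), 1 ≤ m →
  ∃ z : ℤ, (m : ℚ) ^ (2 * K) * bin ((b : ℚ) / (m : ℚ)) K = z

/-- H1b: denominators after division by a linear factor. -/
def S_H1b : Prop := ∀ (p : ℕ) [Fact p.Prime] (n a K h j : ℕ), ¬ p ∣ n → ¬ p ∣ a → 1 ≤ h → h ≤ K →
  j ≤ K → ∃ z : ℤ, ((dd K * (q2 p n) ^ (2 * K) : ℕ) : ℚ) *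
    (bet K (tn p n a) j / (tn p n a - (h : ℚ) + (j : ℚ))) = z

/-- H1: partial fractions of `u ^ i` times the function `RD`. -/
def S_H1 : Prop := ∀ (p : ℕ) [Fact p.Prime] (S : Finset ℕ) (s K i0 : ℕ), GS p S →
  bS p S + 1 ≤ s → s ≤ K → i0 < s →
  ∃ c : ℕ → ℕ → ℚ, PF K s c (fun u => u ^ i0 * RD p S s K u) ∧
    (∀ i < s, ∀ j ≤ K, ∃ z : ℤ, ((Dl p S ^ K * dd K ^ s : ℕ) : ℚ) * c i j = z) ∧
    (∀ i < s, ∀ j ≤ K, |(c i j : ℝ)| ≤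
      (((s : ℝ) + 1) * ((K : ℝ) + 1)) ^ s * (((K : ℝ) + 1) ^ s * 2 ^ (K * s))) ∧
    (∀ n ∈ S, ∀ a ∈ BB p n, ∀ j ≤ K, ∀ l < j,
      (∃ z : ℤ, ((Dl p S ^ K * dd K ^ s : ℕ) : ℚ) *
        ∑ i ∈ range s, c i j / (tn p n a + (l : ℚ)) ^ (i + 1) = z) ∧
      |((∑ i ∈ range s, c i j / (tn p n a + (l : ℚ)) ^ (i + 1) : ℚ) : ℝ)| ≤
        (q2 p n : ℝ) * ((((s : ℝ) + 1) * ((K : ℝ) + 1)) ^ s *
          (((K : ℝ) + 1) ^ s * 2 ^ (K * s))))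

/-- H3: the `p`-adic size. -/
def S_H3 : Prop := ∀ (p : ℕ) [Fact p.Prime], p ≠ 2 → ∀ (S : Finset ℕ) (w : ℕ → ℤ) (s K i0 N : ℕ),
  GS p S → bS p S ≤ s →
  ‖Lam p S w (fun u => u ^ i0 * RD p S s K u) N‖ ≤
    (p : ℝ) ^ (2 * i0) * ((p : ℝ) ^ (2 * ((s - bS p S) * (K + 1))))⁻¹

/-- NA: vanishing of all the forms gives vanishing on a larger space. -/
def S_NA : Prop := ∀ (p : ℕ) [Fact p.Prime] (S : Finset ℕ) (w : ℕ → ℤ) (s K0 : ℕ), GS p S →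
  bS p S ≤ s → 1 ≤ s →
  (∀ K ≥ K0, ∀ i < s, Zr p S w (fun u => u ^ i * RD p S s K u)) →
  ∀ (n : ℕ) (P : Polynomial ℚ), P.natDegree ≤ s - 1 + s * n →
    Zr p S w (fun u => RD p S s K0 u * P.eval u /
      ∏ i ∈ range n, (u + (K0 : ℚ) + (i : ℚ) + 1) ^ s)

/-- NB: passage to the functions `RD / u ^ k`. -/
def S_NB : Prop := ∀ (p : ℕ) [Fact p.Prime], p ≠ 2 → ∀ (S : Finset ℕ) (w : ℕ → ℤ) (s K0 : ℕ),
  GS p S → bS p S ≤ s → 1 ≤ s →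
  (∀ (n : ℕ) (P : Polynomial ℚ), P.natDegree ≤ s - 1 + s * n →
    Zr p S w (fun u => RD p S s K0 u * P.eval u /
      ∏ i ∈ range n, (u + (K0 : ℚ) + (i : ℚ) + 1) ^ s)) →
  ∀ k : ℕ, Zr p S w (fun u => RD p S s K0 u / u ^ k)

/-- The numerator of `RD`. -/
noncomputable def numP (p : ℕ) (S : Finset ℕ) (K : ℕ) : Polynomial ℚ :=
  ∏ n ∈ S, ∏ a ∈ BB p n, ∏ h ∈ range K,
    (Polynomial.X - Polynomial.C (tn p n a - (h : ℚ) - 1))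

/-- NC: passage to the numerator. -/
def S_NC : Prop := ∀ (p : ℕ) [Fact p.Prime] (S : Finset ℕ) (w : ℕ → ℤ) (s K0 : ℕ),
  GS p S → bS p S ≤ s →
  (∀ k : ℕ, Zr p S w (fun u => RD p S s K0 u / u ^ k)) →
  ∀ m : ℕ, s * (K0 + 1) ≤ m → Zr p S w (fun u => (numP p S K0).eval u / u ^ m)

/-- ND: the recurrence of the moments. -/
def S_ND : Prop := ∀ (p : ℕ) [Fact p.Prime], p ≠ 2 → ∀ (S : Finset ℕ) (w : ℕ → ℤ) (m : ℕ), GS p S →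
  ∀ Q : Polynomial ℚ, Q.natDegree ≤ m → Zr p S w (fun u => Q.eval u / u ^ m) →
  ∑ i ∈ range (Q.natDegree + 1), ((Q.coeff i : ℚ) : ℚ_[p]) *
    (((Ww p S w (m - i) : ℤ) : ℚ_[p]) * JJ p (m - i)) = 0

/-- NE: a recurrent sequence which vanishes at the even integers. -/
def S_NE : Prop := ∀ (p : ℕ) [Fact p.Prime] (Q : Polynomial ℚ) (M : ℕ → ℚ_[p]) (m0 : ℕ),
  Q.natDegree ≤ m0 → IsCoprime Q (Q.comp (-Polynomial.X)) → (∀ k, Even k → M k = 0) →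
  (∀ m ≥ m0, ∑ i ∈ range (Q.natDegree + 1), ((Q.coeff i : ℚ) : ℚ_[p]) * M (m - i) = 0) →
  ∃ k1, ∀ k ≥ k1, M k = 0

/-- NF: coprimality. -/
def S_NF : Prop := ∀ (p : ℕ) [Fact p.Prime] (S : Finset ℕ) (K : ℕ), GS p S →
  IsCoprime (numP p S K) ((numP p S K).comp (-Polynomial.X)) ∧
  (numP p S K).natDegree = bS p S * K

/-- NG: infinitely many non-zero values. -/
def S_NG : Prop := ∀ (p : ℕ) [Fact p.Prime], p ≠ 2 → {k : ℕ | JJ p k ≠ 0}.Infinite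

/-- NH: the weights do not vanish for large exponents. -/
def S_NH : Prop := ∀ (p : ℕ) [Fact p.Prime] (S : Finset ℕ) (w : ℕ → ℤ), GS p S →
  (∃ n ∈ S, w n ≠ 0) → ∃ k1, ∀ k ≥ k1, Ww p S w k ≠ 0

/-- NV: non-vanishing. -/
def S_NV : Prop := ∀ (p : ℕ) [Fact p.Prime], p ≠ 2 → ∀ (S : Finset ℕ) (w : ℕ → ℤ) (s : ℕ),
  GS p S → bS p S ≤ s → 1 ≤ s → (∃ n ∈ S, w n ≠ 0) →
  ∀ K0 : ℕ, ∃ K ≥ K0, ∃ i < s, ¬ Zr p S w (fun u => u ^ i * RD p S s K u)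

/-- H5: the irrational values. -/
def S_H5 : Prop := ∀ (p : ℕ) [Fact p.Prime], p ≠ 2 → ∀ (S : Finset ℕ) (s : ℕ), GS p S →
  bS p S + 1 ≤ s →
  3 * (s : ℝ) * Real.log 2 + Real.log (Dl p S) + 2 * (bS p S : ℝ) * Real.log p <
    2 * (s : ℝ) * Real.log p →
  ∀ I : Finset ℕ, (∀ k, Odd k → 3 ≤ k → k ≤ s → (∀ x : ℚ, JJ p k ≠ (x : ℚ_[p])) → k ∈ I) →
    S.card ≤ I.card + 1

/-- H6: the number of irrational values. -/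
def S_H6 : Prop := ∀ (p : ℕ) [Fact p.Prime], p ≠ 2 → ∃ c : ℝ, 0 < c ∧ ∃ s0 : ℕ, ∀ s ≥ s0,
  ∃ I : Finset ℕ, (∀ k ∈ I, Odd k ∧ 3 ≤ k ∧ k ≤ s ∧ ∀ x : ℚ, zetaP p k ≠ (x : ℚ_[p])) ∧
    c * Real.sqrt (s / Real.log s) ≤ I.card

/-- H7: many zeta values outside `ℚ(π)`. -/
def S_H7 : Prop := ∀ (p : ℕ) [Fact p.Prime], p ≠ 2 → ∃ c : ℝ, 0 < c ∧ ∃ s0 : ℕ, ∀ s ≥ s0,
  (∀ k, Odd k → 3 ≤ k → k ≤ s → Transfers 2 ![2, k] p) →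
  ∃ I : Finset ℕ, (∀ k ∈ I, Odd k ∧ 3 ≤ k ∧ k ≤ s ∧
      ∀ y ∈ Algebra.adjoin ℚ {Real.pi, zetaR k}, Real.pi * y ≠ 0 →
        zetaR k ∉ IntermediateField.adjoin ℚ {Real.pi * y}) ∧
    c * Real.sqrt (s / Real.log s) ≤ I.card

end Pool.Agent.Work.MP_03df5c_pb
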