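import Pool.Agent.Work.MP_03df5c_pb.B_P5
import Pool.Agent.Work.MP_03df5c_pb.Interface5

/-!
# Block H1a: denominators of binomial coefficients
-/

open Finset Filter Topology

namespace Pool.Agent.Work.MP_03df5c_pb

namespace BH1a

/-- `K!` divides `m ^ K` times the product of an arithmetic progression of step `m`. -/
theorem fact_dvd (m K : ℕ) (b : ℤ) (hm : 1 ≤ m) :
    (K.factorial : ℤ) ∣ (m : ℤ) ^ K * ∏ i ∈ range K, (b - (i : ℤ) * (m : ℤ)) := by
  rw [← Int.natAbs_dvd_natAbs, Int.natAbs_natCast, Nat.dvd_iff_prime_pow_dvd_dvd]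
  intro l k hl hk
  have : Fact l.Prime := ⟨hl⟩
  have hf0 : K.factorial ≠ 0 := Nat.factorial_ne_zero K
  have hkK : k ≤ K :=
    ((padicValNat_dvd_iff_le hf0).1 hk).trans (padicValNat_factorial_le l K)
  rw [← Int.natCast_dvd]
  push_cast
  by_cases hlm : l ∣ m
  · apply Dvd.dvd.mul_right
    have h1 : ((l : ℤ)) ∣ (m : ℤ) := by exact_mod_cast hlm
    exact (pow_dvd_pow _ hkK).trans (pow_dvd_pow_of_dvd h1 K)
  · apply Dvd.dvd.mul_left
    have hc : IsCoprime (m : ℤ) ((l : ℤ) ^ k) := by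
      apply IsCoprime.pow_right
      rw [Nat.isCoprime_iff_coprime]
      exact ((Nat.Prime.coprime_iff_not_dvd hl).2 hlm).symm
    have hM : (l : ℤ) ^ k ∣ (K.factorial : ℤ) := by exact_mod_cast hk
    exact BP5.dvd_prod (m : ℤ) ((l : ℤ) ^ k) hc K hM b

end BH1a

theorem p_H1a : S_H1a := by
  intro m K b hm
  obtain ⟨z, hz⟩ := BH1a.fact_dvd m K b hm
  refine ⟨z, ?_⟩
  have hm0 : (m : ℚ) ≠ 0 := by
    have : m ≠ 0 := by omega
    exact_mod_cast this
  have hf0 : (K.factorial : ℚ) ≠ 0 := by exact_mod_cast Nat.factorial_ne_zero K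
  have hprod : (m : ℚ) ^ K * ∏ i ∈ range K, ((b : ℚ) / (m : ℚ) - (i : ℚ)) =
      ((∏ i ∈ range K, (b - (i : ℤ) * (m : ℤ)) : ℤ) : ℚ) := by
    have h1 : (m : ℚ) ^ K = ∏ _i ∈ range K, (m : ℚ) := by
      rw [Finset.prod_const, card_range]
    rw [h1, ← Finset.prod_mul_distrib]
    push_cast
    apply Finset.prod_congr rfl
    intro i _
    field_simp
  have hz' : (m : ℚ) ^ K * ((∏ i ∈ range K, (b - (i : ℤ) * (m : ℤ)) : ℤ) : ℚ) =
      (K.factorial : ℚ) * (z : ℚ) := by exact_mod_cast hz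
  unfold bin
  rw [mul_div_assoc', div_eq_iff hf0, two_mul, pow_add, mul_assoc, hprod, hz', mul_comm]

end Pool.Agent.Work.MP_03df5c_pb
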