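import Pool.Agent.Work.MP_03df5c_pb.Interface5

/-!
# Block H3: the `p`-adic size (typed by helper53)
-/

open Finset Filter Topology

namespace Pool.Agent.Work.MP_03df5c_pb

namespace BH3

theorem not_dvd (p : ℕ) [Fact p.Prime] (n a k : ℕ) (ha : ¬ p ∣ a) :
    ¬ p ∣ a + q2 p n * k := by
  intro h
  apply ha
  have h2 : p ∣ q2 p n * k := by
    unfold q2
    exact Dvd.dvd.mul_right (Dvd.dvd.mul_right (dvd_pow_self p (by norm_num)) n) k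
  exact (Nat.dvd_add_left h2).1 h

theorem norm_nat (p : ℕ) [Fact p.Prime] (n : ℕ) (h : ¬ p ∣ n) : ‖(n : ℚ_[p])‖ = 1 := by
  rw [Padic.norm_natCast_eq_one_iff]
  exact (Nat.Prime.coprime_iff_not_dvd (Fact.out)).2 h

theorem norm_nat_le (p : ℕ) [Fact p.Prime] (n : ℕ) : ‖(n : ℚ_[p])‖ ≤ 1 := by
  have h := Padic.norm_int_le_one (p := p) (n : ℤ)
  rwa [Int.cast_natCast] at h

theorem norm_u (p : ℕ) [Fact p.Prime] (n a k : ℕ) (hn : ¬ p ∣ n) (ha : ¬ p ∣ a) :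
    ‖((tn p n a + (k : ℚ) : ℚ) : ℚ_[p])‖ = (p : ℝ) ^ 2 := by
  have hp0 : p ≠ 0 := (Fact.out : p.Prime).ne_zero
  have hn0 : n ≠ 0 := fun h => hn (h ▸ dvd_zero p)
  have hq : ((q2 p n : ℕ) : ℚ) ≠ 0 := by
    unfold q2
    exact_mod_cast Nat.mul_ne_zero (pow_ne_zero _ hp0) hn0
  have e : (tn p n a + (k : ℚ) : ℚ) = ((a + q2 p n * k : ℕ) : ℚ) / ((q2 p n : ℕ) : ℚ) := by
    unfold tn
    push_cast
    field_simp
  rw [e, Rat.cast_div, Rat.cast_natCast, Rat.cast_natCast, norm_div,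
    norm_nat p _ (not_dvd p n a k ha)]
  have e2 : ‖((q2 p n : ℕ) : ℚ_[p])‖ = ((p : ℝ) ^ 2)⁻¹ := by
    unfold q2
    rw [Nat.cast_mul, Nat.cast_pow, norm_mul, norm_pow, norm_nat p n hn, Padic.norm_p, mul_one,
      inv_pow]
  rw [e2, one_div, inv_inv]

theorem norm_uj (p : ℕ) [Fact p.Prime] (n a t j : ℕ) (hn : ¬ p ∣ n) (ha : ¬ p ∣ a) :
    ‖((tn p n a + (t : ℚ) + (j : ℚ) : ℚ) : ℚ_[p])‖ = (p : ℝ) ^ 2 := by
  have h := norm_u p n a (t + j) hn ha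
  rw [Nat.cast_add, ← add_assoc] at h
  exact h

theorem good (p : ℕ) [Fact p.Prime] (n a t K : ℕ) (hn : ¬ p ∣ n) (ha : ¬ p ∣ a) :
    Good K (tn p n a + (t : ℚ)) := by
  intro j _ h0
  have h := norm_uj p n a t j hn ha
  have hp0 : (0 : ℝ) < (p : ℝ) := by exact_mod_cast (Fact.out : p.Prime).pos
  rw [h0, Rat.cast_zero, norm_zero] at h
  exact (pow_pos hp0 2).ne h

theorem norm_prod_u (p : ℕ) [Fact p.Prime] (n a t K : ℕ) (hn : ¬ p ∣ n) (ha : ¬ p ∣ a) :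
    ‖((∏ j ∈ range (K + 1), (tn p n a + (t : ℚ) + (j : ℚ)) : ℚ) : ℚ_[p])‖ =
      (p : ℝ) ^ (2 * (K + 1)) := by
  rw [Rat.cast_prod, norm_prod, prod_congr rfl (fun j _ => norm_uj p n a t j hn ha), prod_const,
    card_range, ← pow_mul]

theorem sf0 (hP3 : S_P3) (p : ℕ) [Fact p.Prime] (n a t K : ℕ) (hn : ¬ p ∣ n) (ha : ¬ p ∣ a) :
    ‖((sf K (bet0 K) (tn p n a + (t : ℚ)) : ℚ) : ℚ_[p])‖ ≤ ((p : ℝ) ^ (2 * (K + 1)))⁻¹ := by
  rw [(hP3 K _ (good p n a t K hn ha)).1, Rat.cast_div, Rat.cast_natCast, norm_div,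
    norm_prod_u p n a t K hn ha, div_eq_mul_inv]
  have hp0 : (0 : ℝ) < (p : ℝ) := by exact_mod_cast (Fact.out : p.Prime).pos
  have h1 := norm_nat_le p K.factorial
  calc ‖((K.factorial : ℕ) : ℚ_[p])‖ * ((p : ℝ) ^ (2 * (K + 1)))⁻¹
      ≤ 1 * ((p : ℝ) ^ (2 * (K + 1)))⁻¹ :=
        mul_le_mul_of_nonneg_right h1 (inv_nonneg.2 (pow_pos hp0 _).le)
    _ = _ := one_mul _

theorem block (hP3 : S_P3) (p : ℕ) [Fact p.Prime] (n a t K n' a' : ℕ) (hn : ¬ p ∣ n)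
    (ha : ¬ p ∣ a) (hn' : ¬ p ∣ n') (ha' : ¬ p ∣ a') :
    ‖((sf K (bet K (tn p n' a')) (tn p n a + (t : ℚ)) : ℚ) : ℚ_[p])‖ ≤ 1 := by
  have hp1 : (1 : ℝ) ≤ (p : ℝ) := by exact_mod_cast (Fact.out : p.Prime).one_le
  have hp0 : (0 : ℝ) < (p : ℝ) := by exact_mod_cast (Fact.out : p.Prime).pos
  have hK0 : (K.factorial : ℚ) ≠ 0 := by exact_mod_cast Nat.factorial_ne_zero K
  have hgood := good p n a t K hn ha
  have e : sf K (bet K (tn p n' a')) (tn p n a + (t : ℚ)) =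
      (∏ m ∈ range K, (tn p n a + (t : ℚ) - tn p n' a' + (K : ℚ) - (m : ℚ))) /
        ∏ j ∈ range (K + 1), (tn p n a + (t : ℚ) + (j : ℚ)) := by
    rw [(hP3 K _ hgood).2 (tn p n' a')]
    unfold bin
    rw [div_mul_div_comm, mul_comm (K.factorial : ℚ) (∏ j ∈ range (K + 1), _),
      mul_div_mul_right _ _ hK0]
  have h2 : ‖((tn p n' a' : ℚ) : ℚ_[p])‖ = (p : ℝ) ^ 2 := by
    have h := norm_u p n' a' 0 hn' ha'
    rwa [Nat.cast_zero, add_zero] at h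
  have hfac : ∀ m ∈ range K,
      ‖((tn p n a + (t : ℚ) - tn p n' a' + (K : ℚ) - (m : ℚ) : ℚ) : ℚ_[p])‖ ≤ (p : ℝ) ^ 2 := by
    intro m hm
    have hmK : m < K := mem_range.1 hm
    have e3 : (tn p n a + (t : ℚ) - tn p n' a' + (K : ℚ) - (m : ℚ) : ℚ) =
        (tn p n a + ((t + (K - m) : ℕ) : ℚ)) + (-(tn p n' a')) := by
      rw [Nat.cast_add, Nat.cast_sub hmK.le]
      ring
    rw [e3, Rat.cast_add]
    refine (Padic.nonarchimedean _ _).trans (max_le ?_ ?_)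
    · exact (norm_u p n a (t + (K - m)) hn ha).le
    · rw [Rat.cast_neg, norm_neg]
      exact h2.le
  rw [e, Rat.cast_div, norm_div, norm_prod_u p n a t K hn ha, Rat.cast_prod, norm_prod]
  have h5 : ∏ m ∈ range K,
      ‖((tn p n a + (t : ℚ) - tn p n' a' + (K : ℚ) - (m : ℚ) : ℚ) : ℚ_[p])‖ ≤
      (p : ℝ) ^ (2 * (K + 1)) := by
    calc ∏ m ∈ range K,
        ‖((tn p n a + (t : ℚ) - tn p n' a' + (K : ℚ) - (m : ℚ) : ℚ) : ℚ_[p])‖
        ≤ ∏ m ∈ range K, (p : ℝ) ^ 2 :=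
          prod_le_prod (fun i _ => norm_nonneg _) hfac
      _ = (p : ℝ) ^ (2 * K) := by rw [prod_const, card_range, ← pow_mul]
      _ ≤ (p : ℝ) ^ (2 * (K + 1)) := pow_le_pow_right₀ hp1 (by omega)
  rw [div_le_one (pow_pos hp0 _)]
  exact h5

theorem pt (hP3 : S_P3) (p : ℕ) [Fact p.Prime] (S : Finset ℕ) (s K i0 : ℕ) (hG : GS p S)
    (n a t : ℕ) (hn : ¬ p ∣ n) (ha : ¬ p ∣ a) :
    ‖vn p n a (fun u => u ^ i0 * RD p S s K u) t‖ ≤
      (p : ℝ) ^ (2 * i0) * ((p : ℝ) ^ (2 * ((s - bS p S) * (K + 1))))⁻¹ := by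
  have hp0 : (0 : ℝ) < (p : ℝ) := by exact_mod_cast (Fact.out : p.Prime).pos
  unfold vn RD
  rw [Rat.cast_mul, Rat.cast_pow, norm_mul, norm_pow, norm_u p n a t hn ha, ← pow_mul]
  apply mul_le_mul_of_nonneg_left _ (pow_pos hp0 _).le
  rw [Rat.cast_mul, Rat.cast_pow, norm_mul, norm_pow, Rat.cast_prod, norm_prod]
  have h1 : ‖((sf K (bet0 K) (tn p n a + (t : ℚ)) : ℚ) : ℚ_[p])‖ ^ (s - bS p S) ≤
      ((p : ℝ) ^ (2 * ((s - bS p S) * (K + 1))))⁻¹ := by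
    calc ‖((sf K (bet0 K) (tn p n a + (t : ℚ)) : ℚ) : ℚ_[p])‖ ^ (s - bS p S)
        ≤ (((p : ℝ) ^ (2 * (K + 1)))⁻¹) ^ (s - bS p S) :=
          pow_le_pow_left₀ (norm_nonneg _) (sf0 hP3 p n a t K hn ha) _
      _ = _ := by
          rw [inv_pow, ← pow_mul]
          congr 2
          ring
  have h2 : ∏ n' ∈ S, ‖((∏ a' ∈ BB p n', sf K (bet K (tn p n' a')) (tn p n a + (t : ℚ)) : ℚ) :
      ℚ_[p])‖ ≤ 1 := by
    apply prod_le_one (fun i _ => norm_nonneg _)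
    intro n' hn'
    rw [Rat.cast_prod, norm_prod]
    apply prod_le_one (fun i _ => norm_nonneg _)
    intro a' ha'
    exact block hP3 p n a t K n' a' hn ha (hG n' hn').2 (mem_filter.1 ha').2
  calc _ ≤ ((p : ℝ) ^ (2 * ((s - bS p S) * (K + 1))))⁻¹ * 1 :=
        mul_le_mul h1 h2 (prod_nonneg fun i _ => norm_nonneg _)
          (inv_nonneg.2 (pow_pos hp0 _).le)
    _ = _ := mul_one _

end BH3

theorem p_H3 (hP3 : S_P3) : S_H3 := by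
  intro p _ _ S w s K i0 N hG _
  have hp0 : (0 : ℝ) < (p : ℝ) := by exact_mod_cast (Fact.out : p.Prime).pos
  have hB : (0 : ℝ) ≤ (p : ℝ) ^ (2 * i0) * ((p : ℝ) ^ (2 * ((s - bS p S) * (K + 1))))⁻¹ :=
    mul_nonneg (pow_pos hp0 _).le (inv_nonneg.2 (pow_pos hp0 _).le)
  unfold Lam
  refine IsUltrametricDist.norm_sum_le_of_forall_le_of_nonneg hB fun n hn => ?_
  rw [norm_mul]
  have hw := Padic.norm_int_le_one (p := p) (w n)
  have hin : ‖∑ a ∈ BB p n, (-1 : ℚ_[p]) ^ a *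
      fs p (vn p n a (fun u => u ^ i0 * RD p S s K u)) N‖ ≤
      (p : ℝ) ^ (2 * i0) * ((p : ℝ) ^ (2 * ((s - bS p S) * (K + 1))))⁻¹ := by
    refine IsUltrametricDist.norm_sum_le_of_forall_le_of_nonneg hB fun a ha => ?_
    rw [norm_mul, norm_pow, norm_neg, norm_one, one_pow, one_mul]
    unfold fs
    refine IsUltrametricDist.norm_sum_le_of_forall_le_of_nonneg hB fun t _ => ?_
    rw [norm_mul, norm_pow, norm_neg, norm_one, one_pow, one_mul]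
    exact BH3.pt hP3 p S s K i0 hG n a t (hG n hn).2 (mem_filter.1 ha).2
  calc _ ≤ 1 * ((p : ℝ) ^ (2 * i0) * ((p : ℝ) ^ (2 * ((s - bS p S) * (K + 1))))⁻¹) :=
        mul_le_mul hw hin (norm_nonneg _) zero_le_one
    _ = _ := one_mul _

end Pool.Agent.Work.MP_03df5c_pb
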