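import Pool.Agent.Work.MP_03df5c_pb.Interface5

/-!
# Block H5: the irrational values (typed by helper81)
-/

open Finset Filter Topology

namespace Pool.Agent.Work.MP_03df5c_pb

open Pool.Agent.Work.MP_03df5c_h91

namespace BH5

/-- The product formula for one prime. -/
theorem one_le_abs_mul_norm (p : ℕ) [hp : Fact p.Prime] (z : ℤ) (hz : z ≠ 0) :
    (1 : ℝ) ≤ |(z : ℝ)| * ‖(z : ℚ_[p])‖ := by
  have hpos : (0 : ℝ) < p := by exact_mod_cast hp.out.pos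
  have h1 : ‖(z : ℚ_[p])‖ = ((p : ℝ) ^ (padicValInt p z))⁻¹ := by
    have h0 : (z : ℚ_[p]) = (((z : ℚ)) : ℚ_[p]) := by norm_cast
    rw [h0, Padic.eq_padicNorm, padicNorm.eq_zpow_of_nonzero (by exact_mod_cast hz),
      padicValRat.of_int]
    push_cast
    rw [zpow_neg, zpow_natCast]
  have h2 : (p : ℤ) ^ (padicValInt p z) ∣ z := padicValInt_dvd z
  have h3 : ((p : ℤ) ^ (padicValInt p z)) ≤ |z| :=
    Int.le_of_dvd (abs_pos.2 hz) ((dvd_abs _ _).2 h2)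
  rw [h1, ← div_eq_mul_inv, le_div_iff₀ (by positivity), one_mul]
  exact_mod_cast h3

theorem exists_w (p : ℕ) (S I : Finset ℕ) (h : I.card + 1 < S.card) :
    ∃ w : ℕ → ℤ, (∃ n ∈ S, w n ≠ 0) ∧ Ww p S w 1 = 0 ∧ ∀ k ∈ I, Ww p S w k = 0 := by
  classical
  set J : Finset ℕ := insert 1 I with hJ
  have hJc : J.card ≤ I.card + 1 := Finset.card_insert_le _ _
  have hJ0 : 0 < J.card := Finset.card_pos.2 ⟨1, Finset.mem_insert_self _ _⟩
  let A : Matrix J S ℤ := fun k n => (q2 p n : ℤ) ^ (k : ℕ)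
  obtain ⟨t, ht0, htA, -⟩ := Int.Matrix.exists_ne_zero_int_vec_norm_le A
    (by simpa using lt_of_le_of_lt hJc h) (by simpa using hJ0)
  have key : ∀ k ∈ J, Ww p S (fun n => if hn : n ∈ S then t ⟨n, hn⟩ else 0) k = 0 := by
    intro k hk
    have h1 := congrFun htA ⟨k, hk⟩
    simp only [Matrix.mulVec, dotProduct, Pi.zero_apply, A] at h1
    unfold Ww
    rw [← Finset.sum_coe_sort S, ← h1]
    refine Finset.sum_congr rfl (fun n _ => ?_)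
    simp only [n.2, dif_pos]
    ring
  refine ⟨fun n => if hn : n ∈ S then t ⟨n, hn⟩ else 0, ?_, ?_, ?_⟩
  · by_contra hcon
    push Not at hcon
    apply ht0
    funext n
    have := hcon n n.2
    simpa [n.2] using this
  · exact key 1 (Finset.mem_insert_self _ _)
  · intro k hk
    exact key k (Finset.mem_insert_of_mem hk)

/-- The integers inside `ℚ`. -/
abbrev RZ : Subring ℚ := (Int.castRingHom ℚ).range

theorem mem_RZ_of {q : ℚ} (h : ∃ z : ℤ, q = z) : q ∈ RZ := by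
  obtain ⟨z, hz⟩ := h
  exact ⟨z, by simp [hz]⟩

theorem of_mem_RZ {q : ℚ} (h : q ∈ RZ) : ∃ z : ℤ, q = z := by
  obtain ⟨z, hz⟩ := h
  exact ⟨z, by simpa using hz.symm⟩

theorem mul_sum_mem {ι : Type*} (T : Finset ι) (f : ι → ℚ) (D : ℚ)
    (h : ∀ x ∈ T, D * f x ∈ RZ) : D * ∑ x ∈ T, f x ∈ RZ := by
  rw [Finset.mul_sum]
  exact sum_mem h

theorem mul_left_mem {D w f : ℚ} (hw : w ∈ RZ) (h : D * f ∈ RZ) : D * (w * f) ∈ RZ := by
  rw [mul_left_comm]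
  exact mul_mem hw h

theorem intCast_mem (z : ℤ) : (z : ℚ) ∈ RZ := ⟨z, by simp⟩

theorem natCast_mem (z : ℕ) : (z : ℚ) ∈ RZ := ⟨z, by simp⟩

theorem neg_one_pow_mem (n : ℕ) : ((-1 : ℚ)) ^ n ∈ RZ :=
  pow_mem (neg_mem (one_mem _)) n

/-- A common denominator. -/
theorem exists_den (s : ℕ) (x : ℕ → ℚ) : ∃ B : ℕ, 0 < B ∧ ∀ i < s, (B : ℚ) * x i ∈ RZ := by
  refine ⟨∏ i ∈ range s, (x i).den, Finset.prod_pos (fun i _ => (x i).den_pos), ?_⟩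
  intro i hi
  have h1 : (∏ i ∈ range s, (x i).den) = (x i).den * ∏ j ∈ (range s).erase i, (x j).den :=
    (Finset.mul_prod_erase (range s) (fun i => (x i).den) (mem_range.2 hi)).symm
  rw [h1]
  push_cast
  have h2 : ((x i).den : ℚ) * x i = (x i).num := by
    rw [mul_comm]
    exact Rat.mul_den_eq_num (x i)
  have h3 : ((x i).den : ℚ) * (∏ j ∈ (range s).erase i, ((x j).den : ℚ)) * x i =
      ((x i).num : ℚ) * ((∏ j ∈ (range s).erase i, (x j).den : ℕ) : ℚ) := by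
    rw [← h2]
    push_cast
    ring
  rw [h3]
  exact mul_mem (intCast_mem _) (natCast_mem _)

theorem ratn_mem (p : ℕ) (S : Finset ℕ) (w : ℕ → ℤ) (s K : ℕ) (c : ℕ → ℕ → ℚ) (D : ℚ)
    (h : ∀ n ∈ S, ∀ a ∈ BB p n, ∀ j ≤ K, ∀ l < j,
      D * ∑ i ∈ range s, c i j / (tn p n a + (l : ℚ)) ^ (i + 1) ∈ RZ) :
    D * ratn p S w s K c ∈ RZ := by
  unfold ratn
  refine mul_left_mem (by exact_mod_cast natCast_mem 2) ?_
  refine mul_sum_mem _ _ _ (fun n hn => ?_)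
  refine mul_left_mem (intCast_mem _) ?_
  refine mul_sum_mem _ _ _ (fun a ha => ?_)
  refine mul_sum_mem _ _ _ (fun j hj => ?_)
  refine mul_sum_mem _ _ _ (fun l hl => ?_)
  refine mul_left_mem (mul_mem (neg_one_pow_mem _) (neg_one_pow_mem _)) ?_
  exact h n hn a ha j (Nat.lt_succ_iff.1 (mem_range.1 hj)) l (mem_range.1 hl)

theorem ratn_bound (p : ℕ) (S : Finset ℕ) (w : ℕ → ℤ) (s K : ℕ) (c : ℕ → ℕ → ℚ) (E : ℝ)
    (hE : 0 ≤ E)
    (h : ∀ n ∈ S, ∀ a ∈ BB p n, ∀ j ≤ K, ∀ l < j,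
      |((∑ i ∈ range s, c i j / (tn p n a + (l : ℚ)) ^ (i + 1) : ℚ) : ℝ)| ≤ (q2 p n : ℝ) * E) :
    |((ratn p S w s K c : ℚ) : ℝ)| ≤
      2 * ∑ n ∈ S, |(w n : ℝ)| * (((BB p n).card : ℝ) * (((K : ℝ) + 1) * (((K : ℝ) + 1) *
        ((q2 p n : ℝ) * E)))) := by
  have hK : (0 : ℝ) ≤ K := Nat.cast_nonneg K
  unfold ratn
  rw [Rat.cast_mul, abs_mul]
  have h2 : |((2 : ℚ) : ℝ)| = 2 := by norm_num
  rw [h2]
  refine mul_le_mul_of_nonneg_left ?_ (by norm_num)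
  rw [Rat.cast_sum]
  refine le_trans (Finset.abs_sum_le_sum_abs _ _) ?_
  refine Finset.sum_le_sum (fun n hn => ?_)
  rw [Rat.cast_mul, abs_mul]
  have h3 : |(((w n : ℤ) : ℚ) : ℝ)| = |(w n : ℝ)| := by norm_cast
  rw [h3]
  refine mul_le_mul_of_nonneg_left ?_ (abs_nonneg _)
  rw [Rat.cast_sum]
  refine le_trans (Finset.abs_sum_le_sum_abs _ _) ?_
  refine le_trans (Finset.sum_le_card_nsmul _ _ (((K : ℝ) + 1) * (((K : ℝ) + 1) *
        ((q2 p n : ℝ) * E))) (fun a ha => ?_)) (by rw [nsmul_eq_mul])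
  rw [Rat.cast_sum]
  refine le_trans (Finset.abs_sum_le_sum_abs _ _) ?_
  refine le_trans (Finset.sum_le_card_nsmul _ _ (((K : ℝ) + 1) *
        ((q2 p n : ℝ) * E)) (fun j hj => ?_)) (by rw [nsmul_eq_mul, card_range]; push_cast; exact le_rfl)
  have hj' : j ≤ K := Nat.lt_succ_iff.1 (mem_range.1 hj)
  rw [Rat.cast_sum]
  refine le_trans (Finset.abs_sum_le_sum_abs _ _) ?_
  refine le_trans (Finset.sum_le_card_nsmul _ _ ((q2 p n : ℝ) * E) (fun l hl => ?_)) ?_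
  · rw [Rat.cast_mul, abs_mul]
    have h4 : |(((-1 : ℚ) ^ a * (-1) ^ (j - 1 - l) : ℚ) : ℝ)| = 1 := by
      push_cast
      rw [abs_mul, abs_pow, abs_pow]
      simp
    rw [h4, one_mul]
    exact h n hn a ha j hj' l (mem_range.1 hl)
  · rw [nsmul_eq_mul, card_range]
    refine mul_le_mul_of_nonneg_right ?_ (by positivity)
    have : (j : ℝ) ≤ K := by exact_mod_cast hj'
    linarith

theorem decay (r : ℝ) (hr0 : 0 < r) (hr1 : r < 1) (m : ℕ) (A : ℝ) :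
    ∃ K1 : ℕ, ∀ K ≥ K1, A * (((K : ℝ) + 1) ^ m * r ^ K) < 1 := by
  have h1 : Tendsto (fun n : ℕ => (n : ℝ) ^ m * r ^ n) atTop (𝓝 0) :=
    tendsto_pow_const_mul_const_pow_of_lt_one m hr0.le hr1
  have h2 : Tendsto (fun n : ℕ => A * r⁻¹ * ((((n + 1 : ℕ) : ℝ)) ^ m * r ^ (n + 1))) atTop
      (𝓝 (A * r⁻¹ * 0)) :=
    (h1.comp (tendsto_add_atTop_nat 1)).const_mul _
  rw [mul_zero] at h2
  have h3 := h2.eventually (gt_mem_nhds (zero_lt_one' ℝ))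
  obtain ⟨K1, hK1⟩ := eventually_atTop.1 h3
  refine ⟨K1, fun K hK => ?_⟩
  have h4 := hK1 K hK
  have h5 : A * r⁻¹ * ((((K + 1 : ℕ) : ℝ)) ^ m * r ^ (K + 1)) =
      A * (((K : ℝ) + 1) ^ m * r ^ K) := by
    push_cast
    rw [pow_succ r K]
    field_simp
  rw [← h5]
  exact h4

theorem form_bound (s K : ℕ) (c : ℕ → ℕ → ℚ) (W : ℕ → ℤ) (x : ℕ → ℚ) (E : ℝ)
    (h : ∀ i < s, ∀ j ≤ K, |(c i j : ℝ)| ≤ E) :
    |((∑ i ∈ range s, (∑ j ∈ range (K + 1), (-1) ^ j * c i j) * ((W (i + 1) : ℤ) : ℚ) * x i : ℚ)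
      : ℝ)| ≤ ((K : ℝ) + 1) * E * ∑ i ∈ range s, |(W (i + 1) : ℝ)| * |(x i : ℝ)| := by
  rw [Rat.cast_sum, Finset.mul_sum]
  refine le_trans (Finset.abs_sum_le_sum_abs _ _) ?_
  refine Finset.sum_le_sum (fun i hi => ?_)
  have hi' := mem_range.1 hi
  rw [Rat.cast_mul, Rat.cast_mul, abs_mul, abs_mul, mul_assoc]
  have h3 : |(((W (i + 1) : ℤ) : ℚ) : ℝ)| = |(W (i + 1) : ℝ)| := by norm_cast
  rw [h3]
  refine mul_le_mul_of_nonneg_right ?_ (by positivity)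
  rw [Rat.cast_sum]
  refine le_trans (Finset.abs_sum_le_sum_abs _ _) ?_
  refine le_trans (Finset.sum_le_card_nsmul _ _ E (fun j hj => ?_))
    (by rw [nsmul_eq_mul, card_range]; push_cast; exact le_rfl)
  rw [Rat.cast_mul, abs_mul]
  have h4 : |(((-1 : ℚ) ^ j : ℚ) : ℝ)| = 1 := by
    push_cast
    rw [abs_pow]
    simp
  rw [h4, one_mul]
  exact h i hi' j (Nat.lt_succ_iff.1 (mem_range.1 hj))

/-- The final estimate, with real parameters. -/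
theorem size_bound (s b K i0 : ℕ) (hs : 0 < s) (hb : b ≤ s) (hi0 : i0 ≤ s)
    (P Dl dK C η B W l N : ℝ) (hP : 1 < P) (hDl : 0 < Dl) (hdK : 0 ≤ dK) (hC0 : 0 < C)
    (hC : dK ≤ C * Real.exp ((Real.log 4 + η / s) * K)) (hB : 0 ≤ B) (hW : 0 ≤ W) (hl0 : 0 ≤ l)
    (hη : Real.log Dl = 2 * (s : ℝ) * Real.log P - 3 * (s : ℝ) * Real.log 2 -
      2 * (b : ℝ) * Real.log P - 2 * η)
    (hl : l ≤ ((K : ℝ) + 1) ^ 2 * ((((s : ℝ) + 1) * ((K : ℝ) + 1)) ^ s *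
      (((K : ℝ) + 1) ^ s * 2 ^ (K * s))) * W)
    (hN0 : 0 ≤ N) (hN : N ≤ P ^ (2 * i0) * (P ^ (2 * ((s - b) * (K + 1))))⁻¹) :
    (B * ((Dl ^ K * dK ^ s) * l)) * N ≤
      (B * W * C ^ s * ((s : ℝ) + 1) ^ s * P ^ (2 * s)) *
        (((K : ℝ) + 1) ^ (2 * s + 2) * Real.exp (-η) ^ K) := by
  have hK0 : (0 : ℝ) ≤ K := Nat.cast_nonneg K
  have hsR : (0 : ℝ) < s := by exact_mod_cast hs
  have hP0 : (0 : ℝ) < P := by linarith
  have hT1 : Dl ^ K = Real.exp (K * Real.log Dl) := by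
    rw [← Real.log_pow, Real.exp_log (by positivity)]
  have hT2 : dK ^ s ≤ C ^ s * Real.exp (s * ((Real.log 4 + η / s) * K)) := by
    calc dK ^ s ≤ (C * Real.exp ((Real.log 4 + η / s) * K)) ^ s :=
          pow_le_pow_left₀ hdK hC s
      _ = C ^ s * Real.exp (s * ((Real.log 4 + η / s) * K)) := by
          rw [mul_pow, ← Real.exp_nat_mul]
  have hT3 : (2 : ℝ) ^ (K * s) = Real.exp (K * s * Real.log 2) := by
    have h1 : (K : ℝ) * s * Real.log 2 = ((K * s : ℕ) : ℝ) * Real.log 2 := by push_cast; ring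
    rw [h1, ← Real.log_pow, Real.exp_log (by positivity)]
  have hT4 : (P ^ (2 * ((s - b) * (K + 1))))⁻¹ ≤
      Real.exp (-(2 * ((s : ℝ) - b) * K * Real.log P)) := by
    have h1 : P ^ (2 * ((s - b) * (K + 1))) =
        Real.exp (2 * ((s : ℝ) - b) * ((K : ℝ) + 1) * Real.log P) := by
      have h2 : 2 * ((s : ℝ) - b) * ((K : ℝ) + 1) * Real.log P =
          ((2 * ((s - b) * (K + 1)) : ℕ) : ℝ) * Real.log P := by
        push_cast [Nat.cast_sub hb]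
        ring
      rw [h2, ← Real.log_pow, Real.exp_log (by positivity)]
    rw [h1, ← Real.exp_neg]
    apply Real.exp_le_exp.2
    have h3 : 0 ≤ ((s : ℝ) - b) * Real.log P :=
      mul_nonneg (sub_nonneg.2 (by exact_mod_cast hb)) (Real.log_nonneg hP.le)
    nlinarith
  have hlog4 : Real.log 4 = 2 * Real.log 2 := by
    rw [show (4 : ℝ) = 2 ^ 2 by norm_num, Real.log_pow]
    push_cast
    ring
  have hexp : Real.exp (K * Real.log Dl) * Real.exp (s * ((Real.log 4 + η / s) * K)) *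
      Real.exp (K * s * Real.log 2) * Real.exp (-(2 * ((s : ℝ) - b) * K * Real.log P)) =
      Real.exp (-η) ^ K := by
    rw [← Real.exp_add, ← Real.exp_add, ← Real.exp_add, ← Real.exp_nat_mul]
    congr 1
    have h1 : (s : ℝ) * ((Real.log 4 + η / s) * K) = (s * Real.log 4 + η) * K := by
      field_simp
    rw [h1, hlog4, hη]
    ring
  have hpi : P ^ (2 * i0) ≤ P ^ (2 * s) := pow_le_pow_right₀ hP.le (by omega)
  have hDR : Dl ^ K * dK ^ s ≤ Real.exp (K * Real.log Dl) *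
      (C ^ s * Real.exp (s * ((Real.log 4 + η / s) * K))) := by
    rw [hT1]
    exact mul_le_mul_of_nonneg_left hT2 (Real.exp_pos _).le
  have hN' : N ≤ P ^ (2 * s) * Real.exp (-(2 * ((s : ℝ) - b) * K * Real.log P)) :=
    le_trans hN (mul_le_mul hpi hT4 (by positivity) (by positivity))
  have hKs : ((K : ℝ) + 1) ^ (2 * s + 2) =
      ((K : ℝ) + 1) ^ s * ((K : ℝ) + 1) ^ s * ((K : ℝ) + 1) ^ 2 := by
    rw [← pow_add, ← pow_add]
    congr 1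
    omega
  calc (B * ((Dl ^ K * dK ^ s) * l)) * N
      ≤ (B * ((Real.exp (K * Real.log Dl) *
            (C ^ s * Real.exp (s * ((Real.log 4 + η / s) * K)))) *
            (((K : ℝ) + 1) ^ 2 * ((((s : ℝ) + 1) * ((K : ℝ) + 1)) ^ s *
              (((K : ℝ) + 1) ^ s * 2 ^ (K * s))) * W))) *
            (P ^ (2 * s) * Real.exp (-(2 * ((s : ℝ) - b) * K * Real.log P))) := by
          refine mul_le_mul ?_ hN' hN0 (by positivity)
          refine mul_le_mul_of_nonneg_left ?_ hB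
          exact mul_le_mul hDR hl hl0 (by positivity)
    _ = (B * W * C ^ s * ((s : ℝ) + 1) ^ s * P ^ (2 * s)) *
          (((K : ℝ) + 1) ^ (2 * s + 2) * (Real.exp (K * Real.log Dl) *
            Real.exp (s * ((Real.log 4 + η / s) * K)) * Real.exp (K * s * Real.log 2) *
            Real.exp (-(2 * ((s : ℝ) - b) * K * Real.log P)))) := by
          rw [hT3, mul_pow ((s : ℝ) + 1) ((K : ℝ) + 1) s, hKs]
          ring
    _ = _ := by rw [hexp]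

/-- The bound for the rational number, with real parameters. -/
theorem combine_bound (K : ℝ) (hK : 0 ≤ K) (E W1 W2 a b : ℝ) (hE : 0 ≤ E) (hW1 : 0 ≤ W1)
    (ha : |a| ≤ (K + 1) * E * W1) (hb : |b| ≤ (K + 1) ^ 2 * E * W2) :
    |a + b| ≤ (K + 1) ^ 2 * E * (W1 + W2) := by
  have h4 : (K + 1) * E * W1 ≤ (K + 1) ^ 2 * E * W1 := by
    refine mul_le_mul_of_nonneg_right ?_ hW1
    refine mul_le_mul_of_nonneg_right ?_ hE
    nlinarith
  calc |a + b| ≤ |a| + |b| := abs_add_le _ _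
    _ ≤ (K + 1) * E * W1 + (K + 1) ^ 2 * E * W2 := add_le_add ha hb
    _ ≤ (K + 1) ^ 2 * E * W1 + (K + 1) ^ 2 * E * W2 := by linarith
    _ = (K + 1) ^ 2 * E * (W1 + W2) := by ring

theorem Dl_ne_zero (p : ℕ) (hp : p ≠ 0) (S : Finset ℕ) (hGS : GS p S) : Dl p S ≠ 0 := by
  unfold Dl
  refine Finset.prod_ne_zero_iff.2 (fun n hn => Finset.prod_ne_zero_iff.2 (fun a _ => ?_))
  have hn0 : n ≠ 0 := by
    rintro rfl
    exact absurd (hGS 0 hn).1 (by decide)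
  unfold q2
  exact pow_ne_zero _ (mul_ne_zero (pow_ne_zero _ hp) hn0)

/-- The rational values. -/
theorem exists_x (p : ℕ) [Fact p.Prime] (hp2 : p ≠ 2) (hE4 : S_E4) (S I : Finset ℕ) (s : ℕ)
    (w : ℕ → ℤ) (hw1 : Ww p S w 1 = 0) (hwI : ∀ k ∈ I, Ww p S w k = 0)
    (hI : ∀ k, Odd k → 3 ≤ k → k ≤ s → (∀ x : ℚ, JJ p k ≠ (x : ℚ_[p])) → k ∈ I) (i : ℕ) :
    ∃ x : ℚ, i < s → ((Ww p S w (i + 1) : ℤ) : ℚ_[p]) * JJ p (i + 1) =
        ((Ww p S w (i + 1) : ℤ) : ℚ_[p]) * (x : ℚ_[p]) := by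
  by_cases hi : i < s
  · rcases Nat.even_or_odd (i + 1) with he | ho
    · exact ⟨0, fun _ => by rw [hE4 p hp2 (i + 1) he]; simp⟩
    · by_cases hi1 : i + 1 = 1
      · exact ⟨0, fun _ => by rw [hi1, hw1]; simp⟩
      · by_cases hiI : i + 1 ∈ I
        · exact ⟨0, fun _ => by rw [hwI _ hiI]; simp⟩
        · have h3 : 3 ≤ i + 1 := by
            obtain ⟨m, hm⟩ := ho
            omega
          have hneg : ¬ (∀ x : ℚ, JJ p (i + 1) ≠ (x : ℚ_[p])) :=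
            fun h => hiI (hI (i + 1) ho h3 hi h)
          push Not at hneg
          obtain ⟨x, hx⟩ := hneg
          exact ⟨x, fun _ => by rw [hx]⟩
  · exact ⟨0, fun h => absurd h hi⟩

/-- The rational number `ℓ`. -/
noncomputable def ell (p : ℕ) (S : Finset ℕ) (w : ℕ → ℤ) (s K : ℕ) (c : ℕ → ℕ → ℚ) (x : ℕ → ℚ) :
    ℚ :=
  (∑ i ∈ range s, (∑ j ∈ range (K + 1), (-1) ^ j * c i j) *
    ((Ww p S w (i + 1) : ℤ) : ℚ) * x i) + ratn p S w s K c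

theorem ell_cast (p : ℕ) [Fact p.Prime] (S : Finset ℕ) (w : ℕ → ℤ) (s K : ℕ) (c : ℕ → ℕ → ℚ)
    (x : ℕ → ℚ) (hx : ∀ i, i < s → ((Ww p S w (i + 1) : ℤ) : ℚ_[p]) * JJ p (i + 1) =
        ((Ww p S w (i + 1) : ℤ) : ℚ_[p]) * (x i : ℚ_[p])) :
    ((∑ i ∈ range s, ((∑ j ∈ range (K + 1), (-1) ^ j * c i j : ℚ) : ℚ_[p]) *
      ((Ww p S w (i + 1) : ℤ) : ℚ_[p]) * JJ p (i + 1)) + ((ratn p S w s K c : ℚ) : ℚ_[p])) =
      ((ell p S w s K c x : ℚ) : ℚ_[p]) := by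
  unfold ell
  rw [Rat.cast_add, Rat.cast_sum]
  congr 1
  refine Finset.sum_congr rfl (fun i hi => ?_)
  rw [mul_assoc, hx i (mem_range.1 hi), ← mul_assoc, Rat.cast_mul, Rat.cast_mul,
    Rat.cast_intCast]

theorem ell_int (p : ℕ) (S : Finset ℕ) (w : ℕ → ℤ) (s K : ℕ) (c : ℕ → ℕ → ℚ)
    (x : ℕ → ℚ) (D : ℚ) (B : ℕ) (hB : ∀ i < s, (B : ℚ) * x i ∈ RZ)
    (hci : ∀ i < s, ∀ j ≤ K, ∃ z : ℤ, D * c i j = z)
    (hcl : ∀ n ∈ S, ∀ a ∈ BB p n, ∀ j ≤ K, ∀ l < j, ∃ z : ℤ,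
      D * ∑ i ∈ range s, c i j / (tn p n a + (l : ℚ)) ^ (i + 1) = z) :
    ∃ z : ℤ, (B : ℚ) * (D * ell p S w s K c x) = z := by
  apply of_mem_RZ
  have h1 : D * ratn p S w s K c ∈ RZ :=
    ratn_mem p S w s K c _ (fun n hn a ha j hj l hl => mem_RZ_of (hcl n hn a ha j hj l hl))
  unfold ell
  rw [mul_add, mul_add]
  refine add_mem ?_ (mul_mem (natCast_mem B) h1)
  rw [← mul_assoc]
  refine mul_sum_mem _ _ _ (fun i hi => ?_)
  have h2 : D * (∑ j ∈ range (K + 1), (-1) ^ j * c i j) ∈ RZ :=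
    mul_sum_mem _ _ _ (fun j hj => mul_left_mem (neg_one_pow_mem _)
      (mem_RZ_of (hci i (mem_range.1 hi) j (Nat.lt_succ_iff.1 (mem_range.1 hj)))))
  have h3 := mul_mem (mul_mem h2 (intCast_mem (Ww p S w (i + 1)))) (hB i (mem_range.1 hi))
  convert h3 using 1
  ring

theorem ell_bound (p : ℕ) (S : Finset ℕ) (w : ℕ → ℤ) (s K : ℕ) (c : ℕ → ℕ → ℚ)
    (x : ℕ → ℚ) (E W1 W2 : ℝ) (hE : 0 ≤ E)
    (hW1 : W1 = ∑ i ∈ range s, |(Ww p S w (i + 1) : ℝ)| * |(x i : ℝ)|)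
    (hW2 : W2 = 2 * ∑ n ∈ S, |(w n : ℝ)| * (((BB p n).card : ℝ) * (q2 p n : ℝ)))
    (hcb : ∀ i < s, ∀ j ≤ K, |(c i j : ℝ)| ≤ E)
    (hcl : ∀ n ∈ S, ∀ a ∈ BB p n, ∀ j ≤ K, ∀ l < j,
      |((∑ i ∈ range s, c i j / (tn p n a + (l : ℚ)) ^ (i + 1) : ℚ) : ℝ)| ≤ (q2 p n : ℝ) * E) :
    |((ell p S w s K c x : ℚ) : ℝ)| ≤ ((K : ℝ) + 1) ^ 2 * E * (W1 + W2) := by
  have h1 := form_bound s K c (Ww p S w) x E hcb
  have h2 := ratn_bound p S w s K c E hE hcl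
  have h3 : 2 * ∑ n ∈ S, |(w n : ℝ)| * (((BB p n).card : ℝ) * (((K : ℝ) + 1) *
      (((K : ℝ) + 1) * ((q2 p n : ℝ) * E)))) = ((K : ℝ) + 1) ^ 2 * E * W2 := by
    rw [hW2, Finset.mul_sum, Finset.mul_sum, Finset.mul_sum]
    refine Finset.sum_congr rfl (fun n _ => ?_)
    ring
  rw [h3] at h2
  rw [← hW1] at h1
  have hW10 : 0 ≤ W1 := by
    rw [hW1]
    exact Finset.sum_nonneg (fun i _ => mul_nonneg (abs_nonneg _) (abs_nonneg _))
  unfold ell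
  rw [Rat.cast_add]
  exact combine_bound (K : ℝ) (Nat.cast_nonneg K) E W1 W2 _ _ hE hW10 h1 h2

end BH5

open BH5 in
/-- H5. -/
theorem p_H5 (hNV : S_NV) (hG4 : S_G4) (hH1 : S_H1) (hH3 : S_H3) (hD3 : S_D3) (hE4 : S_E4) :
    S_H5 := by
  intro p hp hp2 S s hGS hbs hsize I hI
  by_contra hcard0
  have hcard : I.card + 1 < S.card := not_le.1 hcard0
  obtain ⟨w, hw0, hw1, hwI⟩ := exists_w p S I hcard
  choose x hx using exists_x p hp2 hE4 S I s w hw1 hwI hI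
  obtain ⟨B, hB0, hB⟩ := exists_den s x
  have hs : 0 < s := by omega
  have hb : bS p S ≤ s := by omega
  have hpR : (1 : ℝ) < p := by exact_mod_cast hp.out.one_lt
  have hDl0 : Dl p S ≠ 0 := Dl_ne_zero p hp.out.ne_zero S hGS
  obtain ⟨η, hη⟩ : ∃ η : ℝ, Real.log (Dl p S) = 2 * (s : ℝ) * Real.log p -
      3 * (s : ℝ) * Real.log 2 - 2 * (bS p S : ℝ) * Real.log p - 2 * η :=
    ⟨(2 * (s : ℝ) * Real.log p - 3 * (s : ℝ) * Real.log 2 - 2 * (bS p S : ℝ) * Real.log p -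
      Real.log (Dl p S)) / 2, by ring⟩
  have hη0 : 0 < η := by linarith
  obtain ⟨C, hC0, hC⟩ := hD3 (η / s) (div_pos hη0 (by exact_mod_cast hs))
  obtain ⟨W1, hW1⟩ : ∃ W1 : ℝ,
      W1 = ∑ i ∈ range s, |(Ww p S w (i + 1) : ℝ)| * |(x i : ℝ)| := ⟨_, rfl⟩
  obtain ⟨W2, hW2⟩ : ∃ W2 : ℝ,
      W2 = 2 * ∑ n ∈ S, |(w n : ℝ)| * (((BB p n).card : ℝ) * (q2 p n : ℝ)) := ⟨_, rfl⟩
  have hW10 : 0 ≤ W1 := by
    rw [hW1]
    exact Finset.sum_nonneg (fun i _ => mul_nonneg (abs_nonneg _) (abs_nonneg _))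
  have hW20 : 0 ≤ W2 := by
    rw [hW2]
    exact mul_nonneg (by norm_num) (Finset.sum_nonneg (fun n _ => mul_nonneg (abs_nonneg _)
      (mul_nonneg (Nat.cast_nonneg _) (Nat.cast_nonneg _))))
  obtain ⟨K1, hK1⟩ := decay (Real.exp (-η)) (Real.exp_pos _)
    (Real.exp_lt_one_iff.2 (neg_lt_zero.2 hη0)) (2 * s + 2)
    (B * (W1 + W2) * C ^ s * ((s : ℝ) + 1) ^ s * (p : ℝ) ^ (2 * s))
  obtain ⟨K, hK, i0, hi0, hnz⟩ := hNV p hp2 S w s hGS hb hs hw0 (max K1 s)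
  have hKs : s ≤ K := le_trans (le_max_right _ _) hK
  have hKK : K1 ≤ K := le_trans (le_max_left _ _) hK
  obtain ⟨c, hPF, hint, hbd, hsum⟩ := hH1 p S s K i0 hGS hbs hKs hi0
  have hlim := hG4 p hp2 S w hGS K s c _ hPF
  rw [ell_cast p S w s K c x (fun i hi => hx i hi)] at hlim
  obtain ⟨l, hl⟩ : ∃ l : ℚ, l = ell p S w s K c x := ⟨_, rfl⟩
  rw [← hl] at hlim
  have hl0 : l ≠ 0 := by
    intro h0
    apply hnz
    rw [h0, Rat.cast_zero] at hlim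
    exact hlim
  have hnorm : ‖(l : ℚ_[p])‖ ≤
      (p : ℝ) ^ (2 * i0) * ((p : ℝ) ^ (2 * ((s - bS p S) * (K + 1))))⁻¹ :=
    le_of_tendsto hlim.norm (Eventually.of_forall (fun N => hH3 p hp2 S w s K i0 N hGS hb))
  obtain ⟨E, hE⟩ : ∃ E : ℝ, E = (((s : ℝ) + 1) * ((K : ℝ) + 1)) ^ s *
      (((K : ℝ) + 1) ^ s * 2 ^ (K * s)) := ⟨_, rfl⟩
  have hE0 : 0 ≤ E := by
    rw [hE]
    positivity
  rw [← hE] at hbd
  simp only [← hE] at hsum
  have hlb : |(l : ℝ)| ≤ ((K : ℝ) + 1) ^ 2 * E * (W1 + W2) := by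
    rw [hl]
    exact ell_bound p S w s K c x E W1 W2 hE0 hW1 hW2 hbd
      (fun n hn a ha j hj l hl => (hsum n hn a ha j hj l hl).2)
  obtain ⟨z, hz⟩ := ell_int p S w s K c x ((Dl p S ^ K * dd K ^ s : ℕ) : ℚ) B hB hint
    (fun n hn a ha j hj l hl => (hsum n hn a ha j hj l hl).1)
  rw [← hl] at hz
  have hDD : ((Dl p S ^ K * dd K ^ s : ℕ) : ℚ) ≠ 0 :=
    Nat.cast_ne_zero.2 (mul_ne_zero (pow_ne_zero _ hDl0)
      (pow_ne_zero _ (Nat.lcmUpto_ne_zero K)))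
  have hz0 : z ≠ 0 := by
    intro h0
    have hB' : (B : ℚ) ≠ 0 := Nat.cast_ne_zero.2 hB0.ne'
    apply mul_ne_zero hB' (mul_ne_zero hDD hl0)
    rw [hz, h0, Int.cast_zero]
  have hone := one_le_abs_mul_norm p z hz0
  have hzR : (z : ℝ) = B * (((Dl p S : ℝ) ^ K * (dd K : ℝ) ^ s) * (l : ℝ)) := by
    have h1 := congrArg (fun q : ℚ => (q : ℝ)) hz
    simp only [Rat.cast_mul, Rat.cast_natCast, Rat.cast_intCast, Nat.cast_mul,
      Nat.cast_pow, Rat.cast_pow] at h1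
    exact h1.symm
  have hzabs : |(z : ℝ)| = B * (((Dl p S : ℝ) ^ K * (dd K : ℝ) ^ s) * |(l : ℝ)|) := by
    have h1 : (0 : ℝ) ≤ (Dl p S : ℝ) ^ K * (dd K : ℝ) ^ s :=
      mul_nonneg (pow_nonneg (Nat.cast_nonneg _) _) (pow_nonneg (Nat.cast_nonneg _) _)
    rw [hzR, abs_mul, abs_mul, Nat.abs_cast, abs_of_nonneg h1]
  have hznorm : ‖(z : ℚ_[p])‖ ≤ ‖(l : ℚ_[p])‖ := by
    have h1 : (z : ℚ_[p]) = ((B : ℤ) : ℚ_[p]) *
        ((((Dl p S ^ K * dd K ^ s : ℕ) : ℤ) : ℚ_[p]) * (l : ℚ_[p])) := by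
      have h2 := congrArg (fun q : ℚ => (q : ℚ_[p])) hz
      simp only [Rat.cast_mul, Rat.cast_natCast, Rat.cast_intCast] at h2
      rw [← h2, Int.cast_natCast, Int.cast_natCast]
    rw [h1, norm_mul, norm_mul]
    have h3 : ‖((B : ℤ) : ℚ_[p])‖ ≤ 1 := Padic.norm_int_le_one _
    have h4 : ‖(((Dl p S ^ K * dd K ^ s : ℕ) : ℤ) : ℚ_[p])‖ ≤ 1 := Padic.norm_int_le_one _
    calc ‖((B : ℤ) : ℚ_[p])‖ * (‖(((Dl p S ^ K * dd K ^ s : ℕ) : ℤ) : ℚ_[p])‖ *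
          ‖(l : ℚ_[p])‖)
        ≤ 1 * (1 * ‖(l : ℚ_[p])‖) :=
          mul_le_mul h3 (mul_le_mul_of_nonneg_right h4 (norm_nonneg _))
            (mul_nonneg (norm_nonneg _) (norm_nonneg _)) zero_le_one
      _ = ‖(l : ℚ_[p])‖ := by rw [one_mul, one_mul]
  have hDlR : (0 : ℝ) < (Dl p S : ℝ) := Nat.cast_pos.2 (Nat.pos_of_ne_zero hDl0)
  have hfin := size_bound s (bS p S) K i0 hs hb hi0.le (p : ℝ) (Dl p S : ℝ) (dd K : ℝ) C η
    (B : ℝ) (W1 + W2) |(l : ℝ)| ‖(l : ℚ_[p])‖ hpR hDlR (Nat.cast_nonneg _) hC0 (hC K)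
    (Nat.cast_nonneg _) (add_nonneg hW10 hW20) (abs_nonneg _) hη (by rw [← hE]; exact hlb)
    (norm_nonneg _) hnorm
  have h1 := hK1 K hKK
  have h2 : (1 : ℝ) ≤ |(z : ℝ)| * ‖(l : ℚ_[p])‖ :=
    le_trans hone (mul_le_mul_of_nonneg_left hznorm (abs_nonneg _))
  rw [hzabs] at h2
  exact absurd (lt_of_le_of_lt (le_trans h2 hfin) h1) (lt_irrefl _)

end Pool.Agent.Work.MP_03df5c_pb
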