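import Pool.Agent.Work.MP_03df5c_pb.Interface5

/-!
# Block H6: the number of irrational values
-/

open Finset Filter Topology

namespace Pool.Agent.Work.MP_03df5c_pb

open Pool.Agent.Work.MP_03df5c_h91

/-- The set of the integers `2 p i + 1`, `i < M`. -/
def H6S (p M : ℕ) : Finset ℕ := (range M).image (fun i => 2 * p * i + 1)

theorem H6_card {p : ℕ} (hp : 0 < p) (M : ℕ) : (H6S p M).card = M := by
  rw [H6S, card_image_of_injective, card_range]
  intro i j h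
  have h2 : 2 * p * i = 2 * p * j := Nat.succ_injective h
  exact Nat.eq_of_mul_eq_mul_left (by positivity) h2

theorem H6_GS (p : ℕ) [hp : Fact p.Prime] (M : ℕ) : GS p (H6S p M) := by
  intro n hn
  obtain ⟨i, -, rfl⟩ := mem_image.1 hn
  refine ⟨⟨p * i, by ring⟩, ?_⟩
  intro h
  have h1 : p ∣ 1 := (Nat.dvd_add_right (show p ∣ 2 * p * i from ⟨2 * i, by ring⟩)).1 h
  exact hp.out.one_lt.ne' (Nat.dvd_one.1 h1)

theorem H6_le {p M n : ℕ} (hp : 0 < p) (hn : n ∈ H6S p M) : 1 ≤ n ∧ n ≤ 2 * p * M := by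
  obtain ⟨i, hi, rfl⟩ := mem_image.1 hn
  have hi' : i + 1 ≤ M := mem_range.1 hi
  refine ⟨by omega, ?_⟩
  calc 2 * p * i + 1 ≤ 2 * p * i + 2 * p := by omega
    _ = 2 * p * (i + 1) := by ring
    _ ≤ 2 * p * M := Nat.mul_le_mul_left _ hi'

theorem H6_bS {p : ℕ} (hp : 0 < p) (M : ℕ) : bS p (H6S p M) ≤ 2 * p ^ 3 * M ^ 2 := by
  calc bS p (H6S p M) ≤ ∑ _n ∈ H6S p M, p ^ 2 * (2 * p * M) := by
        refine sum_le_sum fun n hn => ?_
        calc (BB p n).card ≤ (range (q2 p n)).card := card_filter_le _ _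
          _ = p ^ 2 * n := by rw [card_range, q2]
          _ ≤ p ^ 2 * (2 * p * M) := Nat.mul_le_mul_left _ (H6_le hp hn).2
    _ = 2 * p ^ 3 * M ^ 2 := by
        rw [sum_const, H6_card hp, smul_eq_mul]; ring

theorem H6_Dl {p M s : ℕ} (h : ∀ n ∈ H6S p M, q2 p n ≤ s ^ 2) :
    Dl p (H6S p M) ≤ (s ^ 4) ^ bS p (H6S p M) := by
  rw [Dl, bS, ← prod_pow_eq_pow_sum]
  refine prod_le_prod' fun n hn => ?_
  rw [prod_const]
  refine Nat.pow_le_pow_left ?_ _
  calc q2 p n ^ 2 ≤ (s ^ 2) ^ 2 := Nat.pow_le_pow_left (h n hn) 2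
    _ = s ^ 4 := by ring

theorem H6_logDl {p M s : ℕ} (hp : 0 < p) (h : ∀ n ∈ H6S p M, q2 p n ≤ s ^ 2) :
    Real.log (Dl p (H6S p M)) ≤ 4 * (bS p (H6S p M) : ℝ) * Real.log s := by
  have hpos : 0 < Dl p (H6S p M) := by
    refine prod_pos fun n hn => prod_pos fun a _ => ?_
    have := (H6_le hp hn).1
    rw [q2]; positivity
  calc Real.log (Dl p (H6S p M)) ≤ Real.log (((s ^ 4) ^ bS p (H6S p M) : ℕ) : ℝ) :=
        Real.log_le_log (by exact_mod_cast hpos) (by exact_mod_cast H6_Dl h)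
    _ = 4 * (bS p (H6S p M) : ℝ) * Real.log s := by
        push_cast
        rw [Real.log_pow, Real.log_pow]
        push_cast
        ring

theorem H6_zetaP (hE5 : S_E5) (p : ℕ) [hpf : Fact p.Prime] (hp2 : p ≠ 2) {k : ℕ} (hk : 3 ≤ k)
    (h : ∀ x : ℚ, JJ p k ≠ (x : ℚ_[p])) : ∀ x : ℚ, zetaP p k ≠ (x : ℚ_[p]) := by
  intro x hx
  have h1 : (1 - ((p : ℚ_[p]) ^ k)⁻¹) ≠ 0 := by
    intro h0
    have h2 : ((p : ℚ_[p]) ^ k)⁻¹ = 1 := (sub_eq_zero.1 h0).symm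
    have h3 : (p : ℚ_[p]) ^ k = 1 := by rw [← inv_inv ((p : ℚ_[p]) ^ k), h2, inv_one]
    have h4 : ((p ^ k : ℕ) : ℚ_[p]) = ((1 : ℕ) : ℚ_[p]) := by push_cast; exact h3
    have h5 : p ^ k = 1 := by exact_mod_cast h4
    have h6 : 1 < p ^ k := Nat.one_lt_pow (by omega) hpf.out.one_lt
    omega
  have hkl : kubotaLeopoldt p k = (1 - ((p : ℚ_[p]) ^ k)⁻¹) * (x : ℚ_[p]) := by
    rw [← hx, zetaP, ← mul_assoc, mul_inv_cancel₀ h1, one_mul]
  refine h (-2 * (1 - ((2 : ℚ) ^ (k - 1))⁻¹) * ((1 - ((p : ℚ) ^ k)⁻¹) * x)) ?_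
  rw [hE5 p hp2 k (by omega), hkl]
  push_cast
  ring

theorem B_H6 (hH5 : S_H5) (hE5 : S_E5) : S_H6 := by
  classical
  intro p hpf hp2
  have hp : p.Prime := hpf.out
  have hp3 : 3 ≤ p := by have := hp.two_le; omega
  have hp0 : 0 < p := by omega
  have hp3R : (3 : ℝ) ≤ p := by exact_mod_cast hp3
  set δ : ℝ := Real.log (9 / 8) with hδ
  have hδ0 : 0 < δ := Real.log_pos (by norm_num)
  have hδ1 : δ ≤ 1 / 8 := by
    have := Real.log_le_sub_one_of_pos (show (0 : ℝ) < 9 / 8 by norm_num)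
    linarith
  have hδp : δ ≤ 2 * Real.log p - 3 * Real.log 2 := by
    have h1 : δ = 2 * Real.log 3 - 3 * Real.log 2 := by
      rw [hδ, Real.log_div (by norm_num) (by norm_num)]
      rw [show (9 : ℝ) = 3 ^ 2 by norm_num, show (8 : ℝ) = 2 ^ 3 by norm_num, Real.log_pow,
        Real.log_pow]
      push_cast
      ring
    have h2 : Real.log 3 ≤ Real.log p := Real.log_le_log (by norm_num) hp3R
    linarith
  set c : ℝ := Real.sqrt (δ / (24 * (p : ℝ) ^ 3)) with hc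
  have hc0 : 0 < c := Real.sqrt_pos.2 (by positivity)
  have hc2 : c ^ 2 = δ / (24 * (p : ℝ) ^ 3) := Real.sq_sqrt (by positivity)
  have hp3R' : (1 : ℝ) ≤ (p : ℝ) ^ 3 := one_le_pow₀ (by linarith)
  have hc1 : c ^ 2 ≤ 1 := by
    rw [hc2, div_le_one (by positivity)]
    linarith
  refine ⟨c / 2, by positivity, max 3 (max (2 * p ^ 3) ⌈(32 / c ^ 2) ^ 2⌉₊), fun s hs => ?_⟩
  have h3 : 3 ≤ s := le_trans (le_max_left _ _) hs
  have h2 : 2 * p ^ 3 ≤ s := le_trans (le_trans (le_max_left _ _) (le_max_right _ _)) hs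
  have h1 : (32 / c ^ 2) ^ 2 ≤ (s : ℝ) := by
    have : ⌈(32 / c ^ 2) ^ 2⌉₊ ≤ s := le_trans (le_trans (le_max_right _ _) (le_max_right _ _)) hs
    exact (Nat.le_ceil _).trans (by exact_mod_cast this)
  have h3R : (3 : ℝ) ≤ s := by exact_mod_cast h3
  have hs0 : (0 : ℝ) < s := by linarith
  have hlog : 1 ≤ Real.log s := by
    rw [Real.le_log_iff_exp_le hs0]
    have := Real.exp_one_lt_d9
    linarith
  have hlog0 : 0 < Real.log s := by linarith
  set r : ℝ := Real.sqrt (s / Real.log s) with hr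
  have hr0 : 0 ≤ r := Real.sqrt_nonneg _
  have hr2 : r ^ 2 = s / Real.log s := Real.sq_sqrt (by positivity)
  have hr4 : 4 / c ≤ r := by
    rw [hr, Real.le_sqrt' (by positivity)]
    set q : ℝ := Real.sqrt s with hq
    have hq0 : 0 < q := Real.sqrt_pos.2 hs0
    have hqs : q ^ 2 = s := Real.sq_sqrt hs0.le
    have hq1 : 32 / c ^ 2 ≤ q := by
      rw [hq, Real.le_sqrt' (by positivity)]
      exact h1
    have hlq : Real.log s ≤ 2 * q := by
      rw [← hqs, Real.log_pow]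
      have := Real.log_le_sub_one_of_pos hq0
      push_cast
      linarith
    rw [le_div_iff₀ hlog0]
    calc (4 / c) ^ 2 * Real.log s ≤ (4 / c) ^ 2 * (2 * q) := by gcongr
      _ = (32 / c ^ 2) * q := by field_simp; ring
      _ ≤ q * q := by gcongr
      _ = s := by rw [← hqs]; ring
  have hcr : 4 ≤ c * r := by
    rw [div_le_iff₀ hc0] at hr4
    linarith
  set M : ℕ := ⌊c * r⌋₊ with hM
  have hM1 : (M : ℝ) ≤ c * r := Nat.floor_le (by positivity)
  have hM2 : c * r < M + 1 := Nat.lt_floor_add_one _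
  have hMsq : (M : ℝ) ^ 2 ≤ c ^ 2 * (s / Real.log s) := by
    calc (M : ℝ) ^ 2 ≤ (c * r) ^ 2 := by gcongr
      _ = c ^ 2 * (s / Real.log s) := by rw [mul_pow, hr2]
  have hdl : (s : ℝ) / Real.log s ≤ s := div_le_self hs0.le hlog
  have hMs : M ≤ s := by
    have h4 : (M : ℝ) ^ 2 ≤ s := by
      calc (M : ℝ) ^ 2 ≤ c ^ 2 * (s / Real.log s) := hMsq
        _ ≤ 1 * s := by gcongr
        _ = s := one_mul _
    have h5 : M ^ 2 ≤ s := by exact_mod_cast h4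
    exact (Nat.le_self_pow two_ne_zero M).trans h5
  have hq2 : ∀ n ∈ H6S p M, q2 p n ≤ s ^ 2 := by
    intro n hn
    calc q2 p n = p ^ 2 * n := rfl
      _ ≤ p ^ 2 * (2 * p * M) := Nat.mul_le_mul_left _ (H6_le hp0 hn).2
      _ = 2 * p ^ 3 * M := by ring
      _ ≤ s * s := Nat.mul_le_mul h2 hMs
      _ = s ^ 2 := by ring
  have hbS : (bS p (H6S p M) : ℝ) ≤ 2 * (p : ℝ) ^ 3 * (M : ℝ) ^ 2 := by
    exact_mod_cast H6_bS hp0 M
  have hbSl : (bS p (H6S p M) : ℝ) * Real.log s ≤ δ / 12 * s := by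
    calc (bS p (H6S p M) : ℝ) * Real.log s
        ≤ 2 * (p : ℝ) ^ 3 * (M : ℝ) ^ 2 * Real.log s := by gcongr
      _ ≤ 2 * (p : ℝ) ^ 3 * (c ^ 2 * (s / Real.log s)) * Real.log s := by gcongr
      _ = δ / 12 * s := by
          rw [hc2]
          field_simp
          ring
  have hbS0 : (0 : ℝ) ≤ (bS p (H6S p M) : ℝ) := Nat.cast_nonneg _
  have hbS1 : (bS p (H6S p M) : ℝ) ≤ δ / 12 * s :=
    (le_mul_of_one_le_right hbS0 hlog).trans hbSl
  have hb1 : bS p (H6S p M) + 1 ≤ s := by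
    have : (bS p (H6S p M) : ℝ) + 1 ≤ s := by nlinarith
    exact_mod_cast this
  have hps : p ≤ s := by
    have h4 : p ≤ p ^ 3 := Nat.le_self_pow (by norm_num) p
    omega
  have hlp : Real.log p ≤ Real.log s :=
    Real.log_le_log (by exact_mod_cast hp0) (by exact_mod_cast hps)
  have hcond : 3 * (s : ℝ) * Real.log 2 + Real.log (Dl p (H6S p M)) +
      2 * (bS p (H6S p M) : ℝ) * Real.log p < 2 * (s : ℝ) * Real.log p := by
    have h6 := H6_logDl hp0 hq2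
    have h7 : (bS p (H6S p M) : ℝ) * Real.log p ≤ (bS p (H6S p M) : ℝ) * Real.log s := by
      gcongr
    have h8 : (s : ℝ) * δ ≤ s * (2 * Real.log p - 3 * Real.log 2) := by gcongr
    have h9 : 0 < δ * s := by positivity
    nlinarith
  set I : Finset ℕ := (range (s + 1)).filter
    (fun k => Odd k ∧ 3 ≤ k ∧ k ≤ s ∧ ∀ x : ℚ, JJ p k ≠ (x : ℚ_[p])) with hI
  refine ⟨I, ?_, ?_⟩
  · intro k hk
    obtain ⟨-, h4, h5, h6, h7⟩ := mem_filter.1 hk
    exact ⟨h4, h5, h6, H6_zetaP hE5 p hp2 h5 h7⟩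
  · have h10 := hH5 p hp2 (H6S p M) s (H6_GS p M) hb1 hcond I (by
      intro k h4 h5 h6 h7
      exact mem_filter.2 ⟨mem_range.2 (by omega), h4, h5, h6, h7⟩)
    rw [H6_card hp0] at h10
    have h11 : (M : ℝ) ≤ I.card + 1 := by exact_mod_cast h10
    linarith

end Pool.Agent.Work.MP_03df5c_pb
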