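import Pool.Agent.Work.MP_03df5c_pb.Interface2

/-!
# Block L0: one block taken out of `RR`
-/

open Finset Filter Topology

namespace Pool.Agent.Work.MP_03df5c_pb

open Pool.Agent.Work.MP_03df5c_h91

theorem p_L0 : S_L0 := by
  intro p _ r s K a ha u
  have he : ee a = (ee a - 1) + 1 := by
    unfold ee
    split_ifs <;> rfl
  have hprod : ∏ a' ∈ AA p r, (sf K (bet K (th p r a')) u) ^ (ee a')
      = (sf K (bet K (th p r a)) u) ^ (ee a) *
        ∏ a' ∈ (AA p r).erase a, (sf K (bet K (th p r a')) u) ^ (ee a') :=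
    (Finset.mul_prod_erase (AA p r) (fun a' => (sf K (bet K (th p r a')) u) ^ (ee a')) ha).symm
  unfold RR GG
  rw [hprod]
  have hpow : (sf K (bet K (th p r a)) u) ^ (ee a)
      = (sf K (bet K (th p r a)) u) ^ (ee a - 1) * sf K (bet K (th p r a)) u := by
    rw [← pow_succ]
    exact congrArg _ he
  rw [hpow]
  ring

end Pool.Agent.Work.MP_03df5c_pb
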