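import Pool.Agent.Work.MP_03df5c_pb.Interface2

/-!
# Block L2: all the coefficients of the linear form
-/

open Finset Filter Topology

namespace Pool.Agent.Work.MP_03df5c_pb

namespace BL2

theorem mem_AA {p r a : ℕ} (h : a ∈ AA p r) : a < p ^ r ∧ ¬ p ∣ a := by
  unfold AA at h
  rw [mem_filter, mem_range] at h
  exact h

theorem bb_pos {p r : ℕ} (h : 1 ∈ AA p r) : 1 ≤ bb p r := by
  unfold bb
  calc 1 = ee 1 := by simp [ee]
    _ ≤ _ := Finset.single_le_sum (f := ee) (fun _ _ => Nat.zero_le _) h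

theorem th_pos (p : ℕ) [Fact p.Prime] {r a : ℕ} (h : a ∈ AA p r) :
    0 < th p r a ∧ th p r a < 1 := by
  obtain ⟨h1, h2⟩ := mem_AA h
  have hp : 0 < p := (Fact.out : p.Prime).pos
  have ha : 0 < a := by
    rcases Nat.eq_zero_or_pos a with h0 | h0
    · exact absurd (h0 ▸ dvd_zero p) h2
    · exact h0
  have hpr : (0 : ℚ) < (p : ℚ) ^ r := by positivity
  unfold th
  constructor
  · positivity
  · rw [div_lt_one hpr]
    exact_mod_cast h1

/-- `a / p ^ r + z` is not small -/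
theorem th_add (p : ℕ) [Fact p.Prime] {r a : ℕ} (hr : 1 ≤ r) (h : a ∈ AA p r) (z : ℤ) :
    ((p : ℚ) ^ r)⁻¹ ≤ |th p r a + (z : ℚ)| := by
  obtain ⟨h1, h2⟩ := mem_AA h
  have hp : 0 < p := (Fact.out : p.Prime).pos
  have hpr : (0 : ℚ) < (p : ℚ) ^ r := by positivity
  have e : th p r a + (z : ℚ) = (((a : ℤ) + z * (p : ℤ) ^ r : ℤ) : ℚ) * ((p : ℚ) ^ r)⁻¹ := by
    unfold th
    push_cast
    field_simp
  have hz : ((a : ℤ) + z * (p : ℤ) ^ r) ≠ 0 := by
    intro h0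
    apply h2
    have h3 : (p : ℤ) ∣ (a : ℤ) := by
      have h4 : (a : ℤ) = - (z * (p : ℤ) ^ r) := by linarith
      rw [h4]
      exact Dvd.dvd.neg_right (Dvd.dvd.mul_left (dvd_pow_self _ (by omega)) _)
    exact_mod_cast h3
  rw [e, abs_mul, abs_of_pos (inv_pos.2 hpr)]
  have h5 : (1 : ℚ) ≤ |(((a : ℤ) + z * (p : ℤ) ^ r : ℤ) : ℚ)| := by
    rw [← Int.cast_abs]
    exact_mod_cast Int.one_le_abs hz
  calc ((p : ℚ) ^ r)⁻¹ = 1 * ((p : ℚ) ^ r)⁻¹ := by ring
    _ ≤ _ := mul_le_mul_of_nonneg_right h5 (inv_pos.2 hpr).le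

theorem bin_zero {K h : ℕ} (h1 : 1 ≤ h) (h2 : h ≤ K) : bin ((K : ℚ) - (h : ℚ)) K = 0 := by
  unfold bin
  rw [div_eq_zero_iff]
  left
  rw [Finset.prod_eq_zero_iff]
  refine ⟨K - h, mem_range.2 (by omega), ?_⟩
  rw [Nat.cast_sub h2]
  ring

theorem sum_bet (hP4 : S_P4) (K : ℕ) {θ : ℚ} (h0 : 0 < θ) (h1 : θ < 1) :
    ∑ j ∈ range (K + 1), |((bet K θ j : ℚ) : ℝ)| ≤ 2 ^ K := by
  calc ∑ j ∈ range (K + 1), |((bet K θ j : ℚ) : ℝ)| ≤ ∑ _j ∈ range (K + 1), (1 : ℝ) := by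
        refine Finset.sum_le_sum fun j hj => ?_
        rw [mem_range] at hj
        have := hP4 K θ h0 h1 j (by omega)
        rw [← Rat.cast_abs]
        exact_mod_cast this
    _ = ((K + 1 : ℕ) : ℝ) := by simp
    _ ≤ 2 ^ K := by
        have : K + 1 ≤ 2 ^ K := by
          have := Nat.lt_two_pow_self (n := K)
          omega
        exact_mod_cast this

theorem int_bet (hP5 : S_P5) (p : ℕ) [Fact p.Prime] (r K a : ℕ) : ∀ j ≤ K,
    ∃ z : ℤ, ((p ^ ((r + 1) * K) : ℕ) : ℚ) * bet K (th p r a) j = z := by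
  intro j hj
  have hp : 0 < p := (Fact.out : p.Prime).pos
  obtain ⟨z, hz⟩ := hP5 p r K (((K : ℤ) - j) * (p : ℤ) ^ r - a)
  refine ⟨(-1) ^ j * (K.choose j : ℤ) * z, ?_⟩
  have e : (K : ℚ) - (j : ℚ) - th p r a = (((((K : ℤ) - j) * (p : ℤ) ^ r - a : ℤ)) : ℚ) / (p : ℚ) ^ r := by
    unfold th
    push_cast
    field_simp
  unfold bet
  rw [e]
  push_cast
  rw [← hz]
  push_cast
  ring

end BL2

open BL2

theorem p_L2 (hP3 : S_P3) (hP4 : S_P4) (hP5 : S_P5) (hP7 : S_P7) (hP9 : S_P9) (hL0 : S_L0)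
    (hL1 : S_L1) (hN3 : S_N3) : S_L2 := by
  intro p _ r s K hr hK hs
  have h1A : 1 ∈ AA p r := (hN3 p r hr).1
  have hb := bb_pos h1A
  have hs1 : 1 ≤ s := hb.trans hs
  obtain ⟨t0, t1⟩ := th_pos p h1A
  obtain ⟨c, hc, hcz, hcb⟩ := hL1 p r s K 1 hr hK hs h1A (bet K (th p r 1)) (p ^ ((r + 1) * K))
    (2 ^ K) (int_bet hP5 p r K 1) (sum_bet hP4 K t0 t1)
  have ex : p ^ ((r + 1) * K) * p ^ ((r + 1) * K * (bb p r - 1)) = p ^ ((r + 1) * K * bb p r) := by
    rw [← pow_add]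
    congr 1
    obtain ⟨b, hb'⟩ : ∃ b, bb p r = b + 1 := ⟨bb p r - 1, by omega⟩
    rw [hb', Nat.add_sub_cancel]
    ring
  have e2 : (2 : ℝ) ^ K * 2 ^ (K * (s - 1)) = 2 ^ (K * s) := by
    rw [← pow_add]
    congr 1
    obtain ⟨t, ht⟩ : ∃ t, s = t + 1 := ⟨s - 1, by omega⟩
    rw [ht, Nat.add_sub_cancel]
    ring
  have hRR : PF K s c (RR p r s K) := by
    intro u hu
    rw [hL0 p r s K 1 h1A u]
    exact hc u hu
  refine ⟨c, hRR, ?_, ?_, ?_⟩
  · intro i hi j hj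
    obtain ⟨z, hz⟩ := hcz i hi j hj
    refine ⟨z * (dd K : ℤ) ^ (i + 1), ?_⟩
    rw [ex] at hz
    push_cast at hz ⊢
    rw [← hz]
    have e3 : (dd K : ℚ) ^ s = (dd K : ℚ) ^ (s - 1 - i) * (dd K : ℚ) ^ (i + 1) := by
      rw [← pow_add]
      congr 1
      omega
    rw [e3]
    ring
  · intro i hi j hj
    have := hcb i hi j hj
    rwa [e2] at this
  · intro a ha j hj l hl
    obtain ⟨ta0, ta1⟩ := th_pos p ha
    obtain ⟨h, hh⟩ : ∃ h, j = l + h := ⟨j - l, by omega⟩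
    have h1 : 1 ≤ h := by omega
    have h2 : h ≤ K := by omega
    have hgood : ∀ j' : ℕ, ((p : ℚ) ^ r)⁻¹ ≤ |th p r a - (h : ℚ) + (j' : ℚ)| := by
      intro j'
      have := th_add p hr ha ((j' : ℤ) - h)
      have e : th p r a + (((j' : ℤ) - h : ℤ) : ℚ) = th p r a - (h : ℚ) + (j' : ℚ) := by
        push_cast
        ring
      rwa [e] at this
    have hpr : (0 : ℚ) < (p : ℚ) ^ r := by
      have hp : 0 < p := (Fact.out : p.Prime).pos
      positivity
    have hG : Good K (th p r a - (h : ℚ)) := by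
      intro j' _ h0
      have := hgood j'
      rw [h0, abs_zero] at this
      exact absurd (inv_pos.2 hpr) (not_lt.2 this)
    have hz0 : sf K (bet K (th p r a)) (th p r a - (h : ℚ)) = 0 := by
      rw [(hP3 K _ hG).2 (th p r a)]
      have e : th p r a - (h : ℚ) - th p r a + (K : ℚ) = (K : ℚ) - (h : ℚ) := by ring
      rw [e, bin_zero h1 h2, zero_mul]
    have hsum : ∑ j' ∈ range (K + 1),
        |(((bet K (th p r a) j' / (th p r a - (h : ℚ) + (j' : ℚ))) : ℚ) : ℝ)| ≤ (p : ℝ) ^ r * 2 ^ K := by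
      calc ∑ j' ∈ range (K + 1), |(((bet K (th p r a) j' / (th p r a - (h : ℚ) + (j' : ℚ))) : ℚ) : ℝ)|
          ≤ ∑ j' ∈ range (K + 1), (p : ℝ) ^ r * |((bet K (th p r a) j' : ℚ) : ℝ)| := by
            refine Finset.sum_le_sum fun j' _ => ?_
            have h3 := hgood j'
            have h4 : |bet K (th p r a) j' / (th p r a - (h : ℚ) + (j' : ℚ))| ≤
                (p : ℚ) ^ r * |bet K (th p r a) j'| := by
              rw [abs_div, div_eq_mul_inv, mul_comm]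
              refine mul_le_mul_of_nonneg_right ?_ (abs_nonneg _)
              exact inv_le_of_inv_le₀ hpr h3
            have h5 : ((|bet K (th p r a) j' / (th p r a - (h : ℚ) + (j' : ℚ))| : ℚ) : ℝ) ≤
                (((p : ℚ) ^ r * |bet K (th p r a) j'| : ℚ) : ℝ) := by exact_mod_cast h4
            rw [Rat.cast_abs, Rat.cast_mul, Rat.cast_abs, Rat.cast_pow, Rat.cast_natCast] at h5
            exact h5
        _ = (p : ℝ) ^ r * ∑ j' ∈ range (K + 1), |((bet K (th p r a) j' : ℚ) : ℝ)| := by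
            rw [Finset.mul_sum]
        _ ≤ _ := by
            refine mul_le_mul_of_nonneg_left (sum_bet hP4 K ta0 ta1) ?_
            positivity
    obtain ⟨c', hc', hcz', hcb'⟩ := hL1 p r s K a hr hK hs ha
      (fun j' => bet K (th p r a) j' / (th p r a - (h : ℚ) + (j' : ℚ)))
      (dd K * p ^ ((r + 1) * K)) ((p : ℝ) ^ r * 2 ^ K)
      (fun j' hj' => hP7 p r a K h j' hr (mem_AA ha).2 h1 h2 hj') hsum
    have hc2 : PF K s c (fun u => sf K (bet K (th p r a)) u * GG p r s K a u) := by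
      intro u hu
      change sf K (bet K (th p r a)) u * GG p r s K a u = _
      rw [← hL0 p r s K a ha u]
      exact hRR u hu
    have key := hP9 K s hs1 (bet K (th p r a)) (GG p r s K a) (th p r a - (h : ℚ)) c c' hG hz0 hc2
      hc' j hj
    have e4 : th p r a - (h : ℚ) + (j : ℚ) = th p r a + (l : ℚ) := by
      rw [hh]
      push_cast
      ring
    rw [e4] at key
    rw [key]
    constructor
    · obtain ⟨z, hz⟩ := hcz' 0 hs1 j hj
      refine ⟨z, ?_⟩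
      rw [← hz]
      have e5 : dd K * p ^ ((r + 1) * K) * p ^ ((r + 1) * K * (bb p r - 1)) =
          p ^ ((r + 1) * K * bb p r) * dd K := by
        rw [mul_assoc, ex, mul_comm]
      rw [e5]
      push_cast
      have e6 : (dd K : ℚ) ^ s = (dd K : ℚ) * (dd K : ℚ) ^ (s - 1 - 0) := by
        rw [← pow_succ']
        congr 1
        omega
      rw [e6]
      ring
    · have := hcb' 0 hs1 j hj
      refine this.trans (le_of_eq ?_)
      rw [mul_assoc ((p : ℝ) ^ r), e2]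
      ring

end Pool.Agent.Work.MP_03df5c_pb
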