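import Pool.Agent.Work.MP_03df5c_pb.Interface2

/-!
# Block L4 (typed by helper83): the linear forms with integer coefficients
-/

open Finset Filter Topology

namespace Pool.Agent.Work.MP_03df5c_pb

namespace BL4

/-- the integers in `ℚ` -/
def Z : Subring ℚ := (Int.castRingHom ℚ).range

theorem mem_Z {q : ℚ} : q ∈ Z ↔ ∃ z : ℤ, q = z := by
  unfold Z
  rw [RingHom.mem_range]
  constructor
  · rintro ⟨z, hz⟩
    exact ⟨z, hz.symm⟩
  · rintro ⟨z, hz⟩
    exact ⟨z, hz.symm⟩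

theorem nat_mem (n : ℕ) : (n : ℚ) ∈ Z := mem_Z.2 ⟨n, by simp⟩

theorem sign_mem (n : ℕ) : (-1 : ℚ) ^ n ∈ Z := Subring.pow_mem _ (Subring.neg_mem _ (Subring.one_mem _)) n

theorem card_AA (p r : ℕ) : (AA p r).card ≤ p ^ r := by
  unfold AA
  refine (Finset.card_filter_le _ _).trans ?_
  rw [card_range]

end BL4

open BL4

theorem p_L4 (hL2 : S_L2) (hL3 : S_L3) : S_L4 := by
  intro p hp hp2 r s hr hs
  have hp1 : (1 : ℝ) ≤ p := by exact_mod_cast hp.out.one_lt.le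
  refine ⟨((p : ℝ) ^ (r * s) + 2 * ((p : ℝ) ^ r) ^ 2) * ((s : ℝ) + 1) ^ s, by positivity, ?_⟩
  intro K hK
  obtain ⟨cc, hPF, hint, hsz, hin⟩ := hL2 p r s K hr hK hs
  obtain ⟨S, hS, hsum⟩ := hL3 p hp2 r s K hr cc hPF
  obtain ⟨MM, hMM⟩ : ∃ MM : ℕ, MM = p ^ ((r + 1) * K * bb p r) * dd K ^ s := ⟨_, rfl⟩
  obtain ⟨B, hB⟩ : ∃ B : ℝ, B = (((s : ℝ) + 1) * ((K : ℝ) + 1)) ^ s * 2 ^ (K * s) := ⟨_, rfl⟩
  have hB0 : 0 ≤ B := by rw [hB]; positivity
  rw [← hMM] at hint hin ⊢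
  rw [← hB] at hsz hin
  -- the integers
  have i1 : ∀ i < s, (MM : ℚ) * ((p : ℚ) ^ (r * (i + 1)) * ∑ j ∈ range (K + 1), (-1) ^ j * cc i j) ∈ Z := by
    intro i hi
    have e : (MM : ℚ) * ((p : ℚ) ^ (r * (i + 1)) * ∑ j ∈ range (K + 1), (-1) ^ j * cc i j) =
        ((p ^ (r * (i + 1)) : ℕ) : ℚ) * ∑ j ∈ range (K + 1), (-1) ^ j * ((MM : ℚ) * cc i j) := by
      rw [mul_left_comm]
      push_cast
      congr 1
      rw [mul_sum]
      apply sum_congr rfl
      intro j _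
      ring
    rw [e]
    refine Subring.mul_mem _ (nat_mem _) (Subring.sum_mem _ fun j hj => ?_)
    refine Subring.mul_mem _ (sign_mem j) (mem_Z.2 (hint i hi j ?_))
    exact Nat.lt_succ_iff.1 (mem_range.1 hj)
  have i0 : (MM : ℚ) * rat p r s K cc ∈ Z := by
    have e : (MM : ℚ) * rat p r s K cc = ((2 : ℕ) : ℚ) * ∑ a ∈ AA p r, ∑ j ∈ range (K + 1),
        ∑ l ∈ range j, (-1) ^ a * (-1) ^ (j - 1 - l) *
          ((MM : ℚ) * ∑ i ∈ range s, cc i j / (th p r a + (l : ℚ)) ^ (i + 1)) := by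
      unfold rat
      rw [mul_left_comm]
      push_cast
      congr 1
      rw [mul_sum]
      apply sum_congr rfl
      intro a _
      rw [mul_sum]
      apply sum_congr rfl
      intro j _
      rw [mul_sum]
      apply sum_congr rfl
      intro l _
      ring
    rw [e]
    refine Subring.mul_mem _ (nat_mem _) (Subring.sum_mem _ fun a ha => Subring.sum_mem _ fun j hj =>
      Subring.sum_mem _ fun l hl => ?_)
    refine Subring.mul_mem _ (Subring.mul_mem _ (sign_mem a) (sign_mem _)) (mem_Z.2 ?_)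
    exact (hin a ha j (Nat.lt_succ_iff.1 (mem_range.1 hj)) l (mem_range.1 hl)).1
  obtain ⟨z0, hz0⟩ := mem_Z.1 i0
  have hch : ∀ i, ∃ z : ℤ, i < s →
      (MM : ℚ) * ((p : ℚ) ^ (r * (i + 1)) * ∑ j ∈ range (K + 1), (-1) ^ j * cc i j) = z := by
    intro i
    by_cases hi : i < s
    · obtain ⟨z, hz⟩ := mem_Z.1 (i1 i hi)
      exact ⟨z, fun _ => hz⟩
    · exact ⟨0, fun h => absurd h hi⟩
  choose z hz using hch
  obtain ⟨zz, hzz0, hzz⟩ : ∃ zz : ℕ → ℤ, zz 0 = z0 ∧ ∀ i, zz (i + 1) = z i :=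
    ⟨fun i => Nat.casesOn i z0 z, rfl, fun _ => rfl⟩
  refine ⟨zz, S, hS, ?_, ?_⟩
  · rw [hsum, sum_range_succ']
    have t0 : tt p 0 = 1 := if_pos rfl
    rw [t0, mul_one, hzz0, mul_add]
    have e0 : ((z0 : ℤ) : ℚ_[p]) = (MM : ℚ_[p]) * ((rat p r s K cc : ℚ) : ℚ_[p]) := by
      have h1 : (((MM : ℚ) * rat p r s K cc : ℚ) : ℚ_[p]) = ((z0 : ℤ) : ℚ_[p]) := by
        rw [hz0, Rat.cast_intCast]
      rw [← h1, Rat.cast_mul, Rat.cast_natCast]
    rw [e0]
    congr 1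
    rw [mul_sum]
    apply sum_congr rfl
    intro i hi
    have hi' := mem_range.1 hi
    have ti : tt p (i + 1) = JJ p (i + 1) := if_neg (Nat.succ_ne_zero i)
    rw [hzz, ti]
    have h1 : (((MM : ℚ) * ((p : ℚ) ^ (r * (i + 1)) * ∑ j ∈ range (K + 1), (-1) ^ j * cc i j) : ℚ) :
        ℚ_[p]) = ((z i : ℤ) : ℚ_[p]) := by
      rw [hz i hi', Rat.cast_intCast]
    rw [← h1, Rat.cast_mul, Rat.cast_natCast, Rat.cast_mul, Rat.cast_pow, Rat.cast_natCast]
    ring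
  · have hMM' : (p : ℝ) ^ ((r + 1) * K * bb p r) * (dd K : ℝ) ^ s = (MM : ℝ) := by
      rw [hMM]
      push_cast
      rfl
    rw [hMM']
    have hM0 : (0 : ℝ) ≤ MM := by positivity
    have hK1 : (1 : ℝ) ≤ (K : ℝ) + 1 := by
      have : (0 : ℝ) ≤ K := by positivity
      linarith
    have hBe : ((K : ℝ) + 1) ^ 2 * B = ((s : ℝ) + 1) ^ s * ((K : ℝ) + 1) ^ (s + 2) * 2 ^ (K * s) := by
      rw [hB, mul_pow]
      ring
    have htgt : ((p : ℝ) ^ (r * s) + 2 * ((p : ℝ) ^ r) ^ 2) * ((s : ℝ) + 1) ^ s *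
        ((K : ℝ) + 1) ^ (s + 2) * (MM * 2 ^ (K * s)) =
        (p : ℝ) ^ (r * s) * (MM * (((K : ℝ) + 1) ^ 2 * B)) +
          2 * ((p : ℝ) ^ r) ^ 2 * (MM * (((K : ℝ) + 1) ^ 2 * B)) := by
      rw [hBe]
      ring
    rw [htgt]
    have hX0 : 0 ≤ (MM : ℝ) * (((K : ℝ) + 1) ^ 2 * B) := by positivity
    intro i hi
    rcases Nat.eq_zero_or_pos i with rfl | hi0
    · rw [hzz0]
      have h1 : ((z0 : ℤ) : ℝ) = (MM : ℝ) * ((rat p r s K cc : ℚ) : ℝ) := by
        have : (((MM : ℚ) * rat p r s K cc : ℚ) : ℝ) = ((z0 : ℤ) : ℝ) := by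
          rw [hz0, Rat.cast_intCast]
        rw [← this, Rat.cast_mul, Rat.cast_natCast]
      have h2 : |((rat p r s K cc : ℚ) : ℝ)| ≤ 2 * ((p : ℝ) ^ r) ^ 2 * (((K : ℝ) + 1) ^ 2 * B) := by
        have h3 : ((rat p r s K cc : ℚ) : ℝ) = 2 * ∑ a ∈ AA p r, ∑ j ∈ range (K + 1), ∑ l ∈ range j,
            (-1) ^ a * (-1) ^ (j - 1 - l) *
              ((∑ i ∈ range s, cc i j / (th p r a + (l : ℚ)) ^ (i + 1) : ℚ) : ℝ) := by
          unfold rat
          push_cast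
          rfl
        rw [h3, abs_mul, abs_two]
        have h4 : |∑ a ∈ AA p r, ∑ j ∈ range (K + 1), ∑ l ∈ range j,
            (-1 : ℝ) ^ a * (-1) ^ (j - 1 - l) *
              ((∑ i ∈ range s, cc i j / (th p r a + (l : ℚ)) ^ (i + 1) : ℚ) : ℝ)| ≤
            ∑ a ∈ AA p r, ∑ j ∈ range (K + 1), ((K : ℝ) + 1) * ((p : ℝ) ^ r * B) := by
          refine (abs_sum_le_sum_abs _ _).trans (sum_le_sum fun a ha => ?_)
          refine (abs_sum_le_sum_abs _ _).trans (sum_le_sum fun j hj => ?_)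
          refine (abs_sum_le_sum_abs _ _).trans ?_
          have hjK : j ≤ K := Nat.lt_succ_iff.1 (mem_range.1 hj)
          calc ∑ l ∈ range j, |(-1 : ℝ) ^ a * (-1) ^ (j - 1 - l) *
              ((∑ i ∈ range s, cc i j / (th p r a + (l : ℚ)) ^ (i + 1) : ℚ) : ℝ)|
              ≤ ∑ l ∈ range j, (p : ℝ) ^ r * B := by
                refine sum_le_sum fun l hl => ?_
                rw [abs_mul, abs_mul, abs_pow, abs_pow, abs_neg, abs_one, one_pow, one_pow, one_mul,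
                  one_mul]
                exact (hin a ha j hjK l (mem_range.1 hl)).2
            _ = (j : ℝ) * ((p : ℝ) ^ r * B) := by
                rw [sum_const, card_range, nsmul_eq_mul]
            _ ≤ ((K : ℝ) + 1) * ((p : ℝ) ^ r * B) := by
                refine mul_le_mul_of_nonneg_right ?_ (by positivity)
                have : (j : ℝ) ≤ K := by exact_mod_cast hjK
                linarith
        rw [sum_const, sum_const, card_range, nsmul_eq_mul, nsmul_eq_mul] at h4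
        have h5 : (((AA p r).card : ℕ) : ℝ) ≤ (p : ℝ) ^ r := by exact_mod_cast card_AA p r
        calc 2 * _ ≤ 2 * ((((AA p r).card : ℕ) : ℝ) * (((K + 1 : ℕ) : ℝ) *
              (((K : ℝ) + 1) * ((p : ℝ) ^ r * B)))) := by linarith
          _ ≤ 2 * ((p : ℝ) ^ r * (((K + 1 : ℕ) : ℝ) *
              (((K : ℝ) + 1) * ((p : ℝ) ^ r * B)))) := by
                refine mul_le_mul_of_nonneg_left ?_ (by norm_num)
                exact mul_le_mul_of_nonneg_right h5 (by positivity)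
          _ = _ := by
                push_cast
                ring
      rw [h1, abs_mul, Nat.abs_cast]
      have h6 := mul_le_mul_of_nonneg_left h2 hM0
      have h7 : 0 ≤ (p : ℝ) ^ (r * s) * (MM * (((K : ℝ) + 1) ^ 2 * B)) := by positivity
      calc (MM : ℝ) * _ ≤ (MM : ℝ) * (2 * ((p : ℝ) ^ r) ^ 2 * (((K : ℝ) + 1) ^ 2 * B)) := h6
        _ = 2 * ((p : ℝ) ^ r) ^ 2 * (MM * (((K : ℝ) + 1) ^ 2 * B)) := by ring
        _ ≤ _ := by linarith
    · obtain ⟨i, rfl⟩ : ∃ i', i = i' + 1 := ⟨i - 1, by omega⟩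
      have hi' : i < s := by omega
      rw [hzz]
      have h1 : ((z i : ℤ) : ℝ) = (MM : ℝ) * ((p : ℝ) ^ (r * (i + 1)) *
          ∑ j ∈ range (K + 1), (-1) ^ j * ((cc i j : ℚ) : ℝ)) := by
        have : (((MM : ℚ) * ((p : ℚ) ^ (r * (i + 1)) * ∑ j ∈ range (K + 1), (-1) ^ j * cc i j) : ℚ) :
            ℝ) = ((z i : ℤ) : ℝ) := by
          rw [hz i hi', Rat.cast_intCast]
        rw [← this]
        push_cast
        rfl
      have h2 : |∑ j ∈ range (K + 1), (-1 : ℝ) ^ j * ((cc i j : ℚ) : ℝ)| ≤ ((K : ℝ) + 1) * B := by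
        refine (abs_sum_le_sum_abs _ _).trans ?_
        calc ∑ j ∈ range (K + 1), |(-1 : ℝ) ^ j * ((cc i j : ℚ) : ℝ)|
            ≤ ∑ j ∈ range (K + 1), B := by
              refine sum_le_sum fun j hj => ?_
              rw [abs_mul, abs_pow, abs_neg, abs_one, one_pow, one_mul]
              exact hsz i hi' j (Nat.lt_succ_iff.1 (mem_range.1 hj))
          _ = ((K : ℝ) + 1) * B := by
              rw [sum_const, card_range, nsmul_eq_mul]
              push_cast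
              ring
      rw [h1, abs_mul, abs_mul, Nat.abs_cast, abs_pow, Nat.abs_cast]
      have h3 : (p : ℝ) ^ (r * (i + 1)) ≤ (p : ℝ) ^ (r * s) :=
        pow_le_pow_right₀ hp1 (Nat.mul_le_mul_left r hi)
      have h4 : ((K : ℝ) + 1) * B ≤ ((K : ℝ) + 1) ^ 2 * B := by
        refine mul_le_mul_of_nonneg_right ?_ hB0
        nlinarith
      have h5 : (p : ℝ) ^ (r * (i + 1)) * |∑ j ∈ range (K + 1), (-1 : ℝ) ^ j * ((cc i j : ℚ) : ℝ)| ≤
          (p : ℝ) ^ (r * s) * (((K : ℝ) + 1) ^ 2 * B) :=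
        mul_le_mul h3 (h2.trans h4) (abs_nonneg _) (by positivity)
      have h6 := mul_le_mul_of_nonneg_left h5 hM0
      have h7 : 0 ≤ 2 * ((p : ℝ) ^ r) ^ 2 * (MM * (((K : ℝ) + 1) ^ 2 * B)) := by positivity
      calc (MM : ℝ) * _ ≤ (MM : ℝ) * ((p : ℝ) ^ (r * s) * (((K : ℝ) + 1) ^ 2 * B)) := h6
        _ = (p : ℝ) ^ (r * s) * (MM * (((K : ℝ) + 1) ^ 2 * B)) := by ring
        _ ≤ _ := by linarith

end Pool.Agent.Work.MP_03df5c_pb
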