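import Pool.Agent.Work.MP_03df5c_pb.Interface3

/-!
# Block L6: the linear forms with the better constant
-/

open Finset Filter Topology

namespace Pool.Agent.Work.MP_03df5c_pb

open Pool.Agent.Work.MP_03df5c_h91

theorem BL6.norm_nat {p : ℕ} [hp : Fact p.Prime] {n : ℕ} (hn : n ≠ 0) :
    ‖(n : ℚ_[p])‖ = ((p : ℝ) ^ padicValNat p n)⁻¹ := by
  obtain ⟨m, hm⟩ := pow_padicValNat_dvd (p := p) (n := n)
  have hm0 : ¬ p ∣ m := by
    intro h
    obtain ⟨q, rfl⟩ := h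
    have h1 : p ^ (padicValNat p n + 1) ∣ n := ⟨q, by rw [pow_succ]; rw [mul_assoc]; exact hm⟩
    exact pow_succ_padicValNat_not_dvd hn h1
  have h2 : (n : ℚ_[p]) = (p : ℚ_[p]) ^ padicValNat p n * (m : ℚ_[p]) := by
    have h3 : ((p ^ padicValNat p n * m : ℕ) : ℚ_[p]) = (n : ℚ_[p]) := by rw [← hm]
    rw [← h3]; push_cast; ring
  rw [h2, norm_mul, norm_nat_eq_one hm0, mul_one, norm_pow, Padic.norm_p, inv_pow]

theorem BL6.norm_form {p : ℕ} [hp : Fact p.Prime] {r s K : ℕ} (x : ℚ_[p])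
    (hd : dd K ≠ 0)
    (hx : ‖x‖ = ‖(K.factorial : ℚ_[p])‖ ^ (s - bb p r + 1) *
      ((p : ℝ) ^ (r * (K + 1) * s - K * XX p r 1))⁻¹) :
    ‖((p ^ ((r + 1) * K * bb p r) * dd K ^ s : ℕ) : ℚ_[p]) * x‖ = ((p : ℝ) ^ psi p r s K)⁻¹ := by
  rw [norm_mul, hx, BL6.norm_nat (Nat.factorial_ne_zero K)]
  have h1 : ((p ^ ((r + 1) * K * bb p r) * dd K ^ s : ℕ) : ℚ_[p]) =
      (p : ℚ_[p]) ^ ((r + 1) * K * bb p r) * (dd K : ℚ_[p]) ^ s := by push_cast; ring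
  rw [h1, norm_mul, norm_pow, norm_pow, BL6.norm_nat hd, Padic.norm_p]
  simp only [← inv_pow, ← pow_mul, ← pow_add]
  congr 1
  rw [psi]
  ring

theorem BL6.size {p : ℕ} [hp : Fact p.Prime] {r s K : ℕ} {δ C3 : ℝ} (hδ : 0 < δ)
    (hd : (dd K : ℝ) ≤ C3 * Real.exp ((Real.log 4 + δ / (s + 1)) * K)) :
    (p : ℝ) ^ ((r + 1) * K * bb p r) * (dd K : ℝ) ^ s * 2 ^ (K * s) ≤
      C3 ^ s * Real.exp ((s * (3 * Real.log 2) + (r + 1) * bb p r * Real.log p + δ) * K) := by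
  have hp0 : (0 : ℝ) < p := by exact_mod_cast hp.out.pos
  have h1 : (p : ℝ) ^ ((r + 1) * K * bb p r) =
      Real.exp (((r + 1) * bb p r * Real.log p) * K) := by
    rw [← Real.exp_log (pow_pos hp0 _), Real.log_pow]
    congr 1
    push_cast
    ring
  have h2 : (2 : ℝ) ^ (K * s) = Real.exp ((s * Real.log 2) * K) := by
    rw [← Real.exp_log (pow_pos (by norm_num : (0 : ℝ) < 2) _), Real.log_pow]
    congr 1
    push_cast
    ring
  have h3 : (dd K : ℝ) ^ s ≤ C3 ^ s * Real.exp ((s * (Real.log 4 + δ / (s + 1))) * K) := by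
    calc (dd K : ℝ) ^ s ≤ (C3 * Real.exp ((Real.log 4 + δ / (s + 1)) * K)) ^ s :=
          pow_le_pow_left₀ (Nat.cast_nonneg _) hd s
      _ = C3 ^ s * Real.exp ((s * (Real.log 4 + δ / (s + 1))) * K) := by
          rw [mul_pow, ← Real.exp_nat_mul]
          congr 2
          ring
  have hC : (0 : ℝ) ≤ C3 ^ s := by
    have h4 : (0 : ℝ) ≤ C3 := by
      have h5 : (0 : ℝ) ≤ C3 * Real.exp ((Real.log 4 + δ / (s + 1)) * K) :=
        (Nat.cast_nonneg _).trans hd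
      exact nonneg_of_mul_nonneg_left h5 (Real.exp_pos _)
    exact pow_nonneg h4 s
  rw [h1, h2]
  have h6 : Real.exp (((r + 1) * bb p r * Real.log p) * K) * (dd K : ℝ) ^ s *
      Real.exp ((s * Real.log 2) * K) ≤
      Real.exp (((r + 1) * bb p r * Real.log p) * K) *
        (C3 ^ s * Real.exp ((s * (Real.log 4 + δ / (s + 1))) * K)) *
      Real.exp ((s * Real.log 2) * K) := by
    gcongr
  refine h6.trans ?_
  have h7 : Real.exp (((r + 1) * bb p r * Real.log p) * K) *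
        (C3 ^ s * Real.exp ((s * (Real.log 4 + δ / (s + 1))) * K)) *
      Real.exp ((s * Real.log 2) * K) =
      C3 ^ s * Real.exp (((r + 1) * bb p r * Real.log p) * K +
        (s * (Real.log 4 + δ / (s + 1))) * K + (s * Real.log 2) * K) := by
    rw [Real.exp_add, Real.exp_add]; ring
  rw [h7]
  refine mul_le_mul_of_nonneg_left (Real.exp_le_exp.2 ?_) hC
  have h8 : Real.log 4 = 2 * Real.log 2 := by
    rw [show (4 : ℝ) = 2 ^ 2 by norm_num, Real.log_pow]; norm_num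
  have h9 : (s : ℝ) * (δ / (s + 1)) ≤ δ := by
    rw [mul_div_assoc', div_le_iff₀ (by positivity)]
    nlinarith
  have h10 : (0 : ℝ) ≤ (K : ℝ) := Nat.cast_nonneg K
  rw [h8]
  nlinarith [mul_le_mul_of_nonneg_right h9 h10]

theorem p_L6 (hL4 : S_L4) (hN4 : S_N4) (hD1 : S_D1) (hD2 : S_D2) (hD3 : S_D3) : S_L6 := by
  intro p hp hp2 r s hr hs δ hδ
  obtain ⟨C4, hC4, h4⟩ := hL4 p hp2 r s hr hs
  obtain ⟨-, n1, hn1⟩ := hD2 p r s hr hs
  obtain ⟨C3, hC3, h3⟩ := hD3 (δ / (s + 1)) (by positivity)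
  have hex : ∀ K : ℕ, ∃ c : ℕ → ℤ, 1 ≤ K →
      ‖∑ i ∈ range (s + 1), (c i : ℚ_[p]) * tt p i‖ = ((p : ℝ) ^ psi p r s K)⁻¹ ∧
      ∀ i ≤ s, |(c i : ℝ)| ≤ C4 * ((K : ℝ) + 1) ^ (s + 2) *
        ((p : ℝ) ^ ((r + 1) * K * bb p r) * (dd K : ℝ) ^ s * 2 ^ (K * s)) := by
    intro K
    by_cases hK : 1 ≤ K
    · obtain ⟨c, S, hS, hc, hb⟩ := h4 K hK
      refine ⟨c, fun _ => ⟨?_, hb⟩⟩
      rw [hc]
      exact BL6.norm_form _ (hD1.2.1 K).1 (hN4 p hp2 r s K hr hs hK S hS)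
    · exact ⟨fun _ => 0, fun h => absurd h hK⟩
  choose c hc using hex
  refine ⟨c, C4 * C3 ^ s, n1 + s + 2, fun K hK => (hc K hK).1, fun K hK => ?_, fun K hK i hi => ?_⟩
  · refine (hn1 K hK).trans (Nat.add_le_add_left (Nat.mul_le_mul_right _ ?_) _)
    omega
  · refine ((hc K hK).2 i hi).trans ?_
    have h5 := BL6.size (p := p) (r := r) (s := s) hδ (h3 K)
    have h6 : ((K : ℝ) + 1) ^ (s + 2) ≤ ((K : ℝ) + 1) ^ (n1 + s + 2) := by
      refine pow_le_pow_right₀ ?_ (by omega)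
      have : (0 : ℝ) ≤ (K : ℝ) := Nat.cast_nonneg K
      linarith
    have h7 : (0 : ℝ) ≤ C3 ^ s := pow_nonneg hC3.le s
    calc C4 * ((K : ℝ) + 1) ^ (s + 2) *
        ((p : ℝ) ^ ((r + 1) * K * bb p r) * (dd K : ℝ) ^ s * 2 ^ (K * s))
        ≤ C4 * ((K : ℝ) + 1) ^ (n1 + s + 2) * (C3 ^ s *
          Real.exp ((s * (3 * Real.log 2) + (r + 1) * bb p r * Real.log p + δ) * K)) := by
          gcongr
      _ = _ := by ring

end Pool.Agent.Work.MP_03df5c_pb
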