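import Pool.Agent.Work.MP_03df5c_pb.Interface6
import Pool.Agent.Work.MP_03df5c_pb.B_L6

/-!
# Block L7: the linear forms with the best constant
-/

open Finset Filter Topology

namespace Pool.Agent.Work.MP_03df5c_pb

open Pool.Agent.Work.MP_03df5c_h91

theorem BL7.size {p : ℕ} [hp : Fact p.Prime] {r s K : ℕ} {δ C3 : ℝ} (hδ : 0 < δ)
    (hd : (dd K : ℝ) ≤ C3 * Real.exp ((1 + δ / (s + 1)) * K)) :
    (p : ℝ) ^ ((r + 1) * K * bb p r) * (dd K : ℝ) ^ s * 2 ^ (K * s) ≤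
      C3 ^ s * Real.exp ((s * (1 + Real.log 2) + (r + 1) * bb p r * Real.log p + δ) * K) := by
  have hp0 : (0 : ℝ) < p := by exact_mod_cast hp.out.pos
  have h1 : (p : ℝ) ^ ((r + 1) * K * bb p r) =
      Real.exp (((r + 1) * bb p r * Real.log p) * K) := by
    rw [← Real.exp_log (pow_pos hp0 _), Real.log_pow]
    congr 1
    push_cast
    ring
  have h2 : (2 : ℝ) ^ (K * s) = Real.exp ((s * Real.log 2) * K) := by
    rw [← Real.exp_log (pow_pos (by norm_num : (0 : ℝ) < 2) _), Real.log_pow]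
    congr 1
    push_cast
    ring
  have h3 : (dd K : ℝ) ^ s ≤ C3 ^ s * Real.exp ((s * (1 + δ / (s + 1))) * K) := by
    calc (dd K : ℝ) ^ s ≤ (C3 * Real.exp ((1 + δ / (s + 1)) * K)) ^ s :=
          pow_le_pow_left₀ (Nat.cast_nonneg _) hd s
      _ = C3 ^ s * Real.exp ((s * (1 + δ / (s + 1))) * K) := by
          rw [mul_pow, ← Real.exp_nat_mul]
          congr 2
          ring
  have hC : (0 : ℝ) ≤ C3 ^ s := by
    have h4 : (0 : ℝ) ≤ C3 := by
      have h5 : (0 : ℝ) ≤ C3 * Real.exp ((1 + δ / (s + 1)) * K) :=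
        (Nat.cast_nonneg _).trans hd
      exact nonneg_of_mul_nonneg_left h5 (Real.exp_pos _)
    exact pow_nonneg h4 s
  rw [h1, h2]
  have h6 : Real.exp (((r + 1) * bb p r * Real.log p) * K) * (dd K : ℝ) ^ s *
      Real.exp ((s * Real.log 2) * K) ≤
      Real.exp (((r + 1) * bb p r * Real.log p) * K) *
        (C3 ^ s * Real.exp ((s * (1 + δ / (s + 1))) * K)) *
      Real.exp ((s * Real.log 2) * K) := by
    gcongr
  refine h6.trans ?_
  have h7 : Real.exp (((r + 1) * bb p r * Real.log p) * K) *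
        (C3 ^ s * Real.exp ((s * (1 + δ / (s + 1))) * K)) *
      Real.exp ((s * Real.log 2) * K) =
      C3 ^ s * Real.exp (((r + 1) * bb p r * Real.log p) * K +
        (s * (1 + δ / (s + 1))) * K + (s * Real.log 2) * K) := by
    rw [Real.exp_add, Real.exp_add]; ring
  rw [h7]
  refine mul_le_mul_of_nonneg_left (Real.exp_le_exp.2 ?_) hC
  have h9 : (s : ℝ) * (δ / (s + 1)) ≤ δ := by
    rw [mul_div_assoc', div_le_iff₀ (by positivity)]
    nlinarith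
  have h10 : (0 : ℝ) ≤ (K : ℝ) := Nat.cast_nonneg K
  nlinarith [mul_le_mul_of_nonneg_right h9 h10]

theorem p_L7 (hL4 : S_L4) (hN4 : S_N4) (hD1 : S_D1) (hD2 : S_D2) (hD5 : S_D5) : S_L7 := by
  intro p hp hp2 r s hr hs δ hδ
  obtain ⟨C4, hC4, h4⟩ := hL4 p hp2 r s hr hs
  obtain ⟨-, n1, hn1⟩ := hD2 p r s hr hs
  obtain ⟨C3, hC3, h3⟩ := hD5 (δ / (s + 1)) (by positivity)
  have hex : ∀ K : ℕ, ∃ c : ℕ → ℤ, 1 ≤ K →
      ‖∑ i ∈ range (s + 1), (c i : ℚ_[p]) * tt p i‖ = ((p : ℝ) ^ psi p r s K)⁻¹ ∧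
      ∀ i ≤ s, |(c i : ℝ)| ≤ C4 * ((K : ℝ) + 1) ^ (s + 2) *
        ((p : ℝ) ^ ((r + 1) * K * bb p r) * (dd K : ℝ) ^ s * 2 ^ (K * s)) := by
    intro K
    by_cases hK : 1 ≤ K
    · obtain ⟨c, S, hS, hc, hb⟩ := h4 K hK
      refine ⟨c, fun _ => ⟨?_, hb⟩⟩
      rw [hc]
      exact BL6.norm_form _ (hD1.2.1 K).1 (hN4 p hp2 r s K hr hs hK S hS)
    · exact ⟨fun _ => 0, fun h => absurd h hK⟩
  choose c hc using hex
  refine ⟨c, C4 * C3 ^ s, n1 + s + 2, fun K hK => (hc K hK).1, fun K hK => ?_, fun K hK i hi => ?_⟩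
  · refine (hn1 K hK).trans (Nat.add_le_add_left (Nat.mul_le_mul_right _ ?_) _)
    omega
  · refine ((hc K hK).2 i hi).trans ?_
    have h5 := BL7.size (p := p) (r := r) (s := s) hδ (h3 K)
    have h6 : ((K : ℝ) + 1) ^ (s + 2) ≤ ((K : ℝ) + 1) ^ (n1 + s + 2) := by
      refine pow_le_pow_right₀ ?_ (by omega)
      have : (0 : ℝ) ≤ (K : ℝ) := Nat.cast_nonneg K
      linarith
    have h7 : (0 : ℝ) ≤ C3 ^ s := pow_nonneg hC3.le s
    calc C4 * ((K : ℝ) + 1) ^ (s + 2) *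
        ((p : ℝ) ^ ((r + 1) * K * bb p r) * (dd K : ℝ) ^ s * 2 ^ (K * s))
        ≤ C4 * ((K : ℝ) + 1) ^ (n1 + s + 2) * (C3 ^ s *
          Real.exp ((s * (1 + Real.log 2) + (r + 1) * bb p r * Real.log p + δ) * K)) := by
          gcongr
      _ = _ := by ring

end Pool.Agent.Work.MP_03df5c_pb
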