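import Pool.Agent.Work.MP_03df5c_pb.Interface2

/-!
# Block N0: closure properties of `UC`
-/

open Finset Filter Topology

namespace Pool.Agent.Work.MP_03df5c_pb

open Pool.Agent.Work.MP_03df5c_h91

theorem N0_mul (p : ℕ) [hp : Fact p.Prime] (h g : ℕ → ℚ_[p]) (hh : UC p h) (hg : UC p g) :
    UC p (fun t => h t * g t) := by
  obtain ⟨h0, h1⟩ := hh
  obtain ⟨g0, g1⟩ := hg
  refine ⟨mul_ne_zero h0 g0, fun t => ?_⟩
  have hp1 : (1 : ℝ) ≤ (p : ℝ) := by exact_mod_cast hp.out.one_le
  have hpi : (p : ℝ)⁻¹ ≤ 1 := inv_le_one_of_one_le₀ hp1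
  have hy : ‖g t / g 0‖ ≤ 1 := by
    have e : g t / g 0 = (g t / g 0 - 1) + 1 := by ring
    rw [e]
    refine (Padic.nonarchimedean _ _).trans (max_le ((g1 t).trans hpi) (by simp))
  have e : h t * g t / (h 0 * g 0) - 1 = (h t / h 0 - 1) * (g t / g 0) + (g t / g 0 - 1) := by
    field_simp
    ring
  show ‖h t * g t / (h 0 * g 0) - 1‖ ≤ _
  rw [e]
  refine (Padic.nonarchimedean _ _).trans (max_le ?_ (g1 t))
  rw [norm_mul]
  calc ‖h t / h 0 - 1‖ * ‖g t / g 0‖ ≤ ‖h t / h 0 - 1‖ * 1 :=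
        mul_le_mul_of_nonneg_left hy (norm_nonneg _)
    _ ≤ (p : ℝ)⁻¹ := by rw [mul_one]; exact h1 t

theorem N0_one (p : ℕ) [hp : Fact p.Prime] : UC p (fun _ => 1) := by
  refine ⟨one_ne_zero, fun t => ?_⟩
  simp

theorem block_N0 : S_N0 := by
  intro p hp
  refine ⟨N0_mul p, fun h n hh => ?_, fun T h hT => ?_⟩
  · induction n with
    | zero => simpa using N0_one p
    | succ n ih =>
      have := N0_mul p _ _ ih hh
      simpa [pow_succ] using this
  · classical
    induction T using Finset.induction_on with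
    | empty => simpa using N0_one p
    | insert a T ha ih =>
      have h1 := N0_mul p _ _ (hT a (Finset.mem_insert_self a T))
        (ih (fun b hb => hT b (Finset.mem_insert_of_mem hb)))
      simpa [Finset.prod_insert ha] using h1

end Pool.Agent.Work.MP_03df5c_pb
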