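import Pool.Agent.Work.MP_03df5c_pb.Interface2

/-!
N1 (MP_03df5c_nt, typed by helper53): the block without numerator.
-/

open Finset Filter Topology

namespace Pool.Agent.Work.MP_03df5c_pb

namespace BN1

/-- The product of the numerators of `a / p ^ r + t + j`, `j ≤ K`. -/
def P (p r K a t : ℕ) : ℕ := ∏ j ∈ range (K + 1), (a + p ^ r * (t + j))

theorem P_mod (p r K a t : ℕ) (hr : 1 ≤ r) :
    ((P p r K a t : ℕ) : ZMod p) = (a : ZMod p) ^ (K + 1) := by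
  unfold P
  push_cast
  have h : ∀ j ∈ range (K + 1),
      ((a : ZMod p) + (p : ZMod p) ^ r * ((t : ZMod p) + (j : ZMod p))) = a := by
    intro j _
    have h0 : (p : ZMod p) = 0 := by simp
    rw [h0, zero_pow (by omega), zero_mul, add_zero]
  rw [prod_congr rfl h, prod_const, card_range]

theorem not_dvd (p : ℕ) [Fact p.Prime] (r a n : ℕ) (hr : 1 ≤ r) (ha : ¬ p ∣ a) :
    ¬ p ∣ a + p ^ r * n := by
  intro h
  apply ha
  have h2 : p ∣ p ^ r * n := Dvd.dvd.mul_right (dvd_pow_self p (by omega)) n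
  exact (Nat.dvd_add_left h2).1 h

theorem norm_nat (p : ℕ) [Fact p.Prime] (n : ℕ) (h : ¬ p ∣ n) : ‖(n : ℚ_[p])‖ = 1 := by
  rw [Padic.norm_natCast_eq_one_iff]
  exact (Nat.Prime.coprime_iff_not_dvd (Fact.out)).2 h

theorem norm_P (p : ℕ) [Fact p.Prime] (r K a t : ℕ) (hr : 1 ≤ r) (ha : ¬ p ∣ a) :
    ‖((P p r K a t : ℕ) : ℚ_[p])‖ = 1 := by
  unfold P
  rw [Nat.cast_prod, norm_prod]
  apply prod_eq_one
  intro j _
  exact norm_nat p _ (not_dvd p r a (t + j) hr ha)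

theorem val (h3 : S_P3) (p : ℕ) [Fact p.Prime] (r K a t : ℕ) (ha : ¬ p ∣ a) :
    vv p r a (sf K (bet0 K)) t =
      (K.factorial : ℚ_[p]) * ((p : ℚ_[p]) ^ r) ^ (K + 1) / ((P p r K a t : ℕ) : ℚ_[p]) := by
  have hp0 : (p : ℚ) ≠ 0 := by exact_mod_cast (Fact.out : p.Prime).ne_zero
  have ha0 : a ≠ 0 := fun h => ha (h ▸ dvd_zero p)
  have hlin : ∀ j : ℕ, th p r a + (t : ℚ) + (j : ℚ) =
      ((a + p ^ r * (t + j) : ℕ) : ℚ) / (p : ℚ) ^ r := by
    intro j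
    unfold th
    push_cast
    field_simp
    ring
  have hgood : Good K (th p r a + (t : ℚ)) := by
    intro j _
    rw [hlin]
    apply div_ne_zero
    · have h1 : a + p ^ r * (t + j) ≠ 0 := by omega
      exact_mod_cast h1
    · exact pow_ne_zero _ hp0
  unfold vv
  rw [(h3 K _ hgood).1]
  rw [prod_congr rfl (fun j _ => hlin j)]
  rw [prod_div_distrib, prod_const, card_range]
  have hP : (∏ j ∈ range (K + 1), ((a + p ^ r * (t + j) : ℕ) : ℚ)) = ((P p r K a t : ℕ) : ℚ) := by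
    unfold P
    rw [Nat.cast_prod]
  rw [hP, div_div_eq_mul_div]
  rw [Rat.cast_div, Rat.cast_mul, Rat.cast_pow, Rat.cast_pow, Rat.cast_natCast, Rat.cast_natCast,
    Rat.cast_natCast]

end BN1

theorem p_N1 (h3 : S_P3) : S_N1 := by
  intro p _ r K a hr haA
  have ha : ¬ p ∣ a := (mem_filter.1 haA).2
  have hp0 : (p : ℚ_[p]) ≠ 0 := by exact_mod_cast (Fact.out : p.Prime).ne_zero
  have hK0 : (K.factorial : ℚ_[p]) ≠ 0 := by exact_mod_cast Nat.factorial_ne_zero K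
  have hPn : ∀ t, ((BN1.P p r K a t : ℕ) : ℚ_[p]) ≠ 0 := by
    intro t h
    have h1 := BN1.norm_P p r K a t hr ha
    rw [h, norm_zero] at h1
    exact zero_ne_one h1
  refine ⟨⟨?_, ?_⟩, ?_⟩
  · rw [BN1.val h3 p r K a 0 ha]
    exact div_ne_zero (mul_ne_zero hK0 (pow_ne_zero _ (pow_ne_zero _ hp0))) (hPn 0)
  · intro t
    rw [BN1.val h3 p r K a t ha, BN1.val h3 p r K a 0 ha]
    have e : (K.factorial : ℚ_[p]) * ((p : ℚ_[p]) ^ r) ^ (K + 1) /
        ((BN1.P p r K a t : ℕ) : ℚ_[p]) /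
        ((K.factorial : ℚ_[p]) * ((p : ℚ_[p]) ^ r) ^ (K + 1) /
          ((BN1.P p r K a 0 : ℕ) : ℚ_[p])) - 1 =
        ((((BN1.P p r K a 0 : ℕ) : ℤ) - ((BN1.P p r K a t : ℕ) : ℤ) : ℤ) : ℚ_[p]) /
          ((BN1.P p r K a t : ℕ) : ℚ_[p]) := by
      have h1 := hPn t
      have h2 := hPn 0
      push_cast
      field_simp
    rw [e, norm_div, BN1.norm_P p r K a t hr ha, div_one]
    have hdvd : ((p : ℤ) ^ 1) ∣ ((BN1.P p r K a 0 : ℕ) : ℤ) - ((BN1.P p r K a t : ℕ) : ℤ) := by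
      rw [pow_one]
      have h1 : ((BN1.P p r K a t : ℕ) : ZMod p) = ((BN1.P p r K a 0 : ℕ) : ZMod p) := by
        rw [BN1.P_mod p r K a t hr, BN1.P_mod p r K a 0 hr]
      exact Nat.modEq_iff_dvd.1 ((ZMod.natCast_eq_natCast_iff _ _ _).1 h1)
    have h2 := (Padic.norm_int_le_pow_iff_dvd (p := p)
      (((BN1.P p r K a 0 : ℕ) : ℤ) - ((BN1.P p r K a t : ℕ) : ℤ)) 1).2 (by exact_mod_cast hdvd)
    rw [zpow_neg, zpow_natCast, pow_one] at h2
    exact h2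
  · rw [BN1.val h3 p r K a 0 ha, norm_div, BN1.norm_P p r K a 0 hr ha, div_one, norm_mul,
      norm_pow, norm_pow, Padic.norm_p, ← pow_mul, inv_pow]

end Pool.Agent.Work.MP_03df5c_pb
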