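import Pool.Agent.Work.MP_03df5c_pb.B_N1

/-!
# Block N2: the blocks `a' ≠ a` at `a / p ^ r + t`
-/

open Finset Filter Topology

namespace Pool.Agent.Work.MP_03df5c_pb

namespace BN2

/-- the product of the numerators of `(a - a') / p ^ r + t + K - m`, `m < K`, without the powers of `p` -/
def Q (p w K : ℕ) (e : ℤ) (t : ℕ) : ℤ := ∏ m ∈ range K, (e + (p : ℤ) ^ w * ((t : ℤ) + K - m))

theorem Q_mod (p w K : ℕ) (e : ℤ) (t : ℕ) (hw : 1 ≤ w) :
    ((Q p w K e t : ℤ) : ZMod p) = (e : ZMod p) ^ K := by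
  unfold Q
  push_cast
  have h : ∀ m ∈ range K,
      ((e : ZMod p) + (p : ZMod p) ^ w * ((t : ZMod p) + (K : ZMod p) - (m : ZMod p))) = e := by
    intro m _
    have h0 : (p : ZMod p) = 0 := by simp
    rw [h0, zero_pow (by omega), zero_mul, add_zero]
  rw [prod_congr rfl h, prod_const, card_range]

theorem norm_int (p : ℕ) [Fact p.Prime] (n : ℤ) (h : ¬ (p : ℤ) ∣ n) : ‖(n : ℚ_[p])‖ = 1 := by
  have h1 : ‖(n : ℚ_[p])‖ ≤ 1 := Padic.norm_int_le_one n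
  have h2 := mt (Padic.norm_intCast_lt_one_iff (p := p) (k := n)).1 h
  exact le_antisymm h1 (not_lt.1 h2)

theorem norm_Q (p : ℕ) [Fact p.Prime] (w K : ℕ) (e : ℤ) (t : ℕ) (hw : 1 ≤ w) (he : ¬ (p : ℤ) ∣ e) :
    ‖((Q p w K e t : ℤ) : ℚ_[p])‖ = 1 := by
  unfold Q
  rw [Int.cast_prod, norm_prod]
  apply prod_eq_one
  intro m _
  apply norm_int
  intro h
  apply he
  exact (Int.dvd_add_left (Dvd.dvd.mul_right (dvd_pow_self (p : ℤ) (by omega)) _)).1 h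

theorem val (h3 : S_P3) (p : ℕ) [Fact p.Prime] (r K a a' v w t : ℕ) (e : ℤ) (ha : ¬ p ∣ a)
    (hvw : v + w = r) (he : (a : ℤ) - (a' : ℤ) = (p : ℤ) ^ v * e) :
    vv p r a (sf K (bet K (th p r a'))) t =
      ((Q p w K e t : ℤ) : ℚ_[p]) * ((p : ℚ_[p]) ^ r) ^ (K + 1) /
        (((p : ℚ_[p]) ^ w) ^ K * ((BN1.P p r K a t : ℕ) : ℚ_[p])) := by
  have hp0 : (p : ℚ) ≠ 0 := by exact_mod_cast (Fact.out : p.Prime).ne_zero
  have hpp0 : (p : ℚ_[p]) ≠ 0 := by exact_mod_cast (Fact.out : p.Prime).ne_zero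
  have hK0 : (K.factorial : ℚ) ≠ 0 := by exact_mod_cast Nat.factorial_ne_zero K
  have hK0' : (K.factorial : ℚ_[p]) ≠ 0 := by exact_mod_cast Nat.factorial_ne_zero K
  have ha0 : a ≠ 0 := fun h => ha (h ▸ dvd_zero p)
  have hlin : ∀ j : ℕ, th p r a + (t : ℚ) + (j : ℚ) =
      ((a + p ^ r * (t + j) : ℕ) : ℚ) / (p : ℚ) ^ r := by
    intro j
    unfold th
    push_cast
    field_simp
    ring
  have hgood : Good K (th p r a + (t : ℚ)) := by
    intro j _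
    rw [hlin]
    apply div_ne_zero
    · have h1 : a + p ^ r * (t + j) ≠ 0 := by omega
      exact_mod_cast h1
    · exact pow_ne_zero _ hp0
  have hP := h3 K _ hgood
  have h1 := BN1.val h3 p r K a t ha
  unfold vv at h1 ⊢
  rw [hP.2 (th p r a'), ← hP.1, Rat.cast_mul, h1]
  have he' : (a : ℚ) - (a' : ℚ) = (p : ℚ) ^ v * (e : ℚ) := by exact_mod_cast he
  have hpr : (p : ℚ) ^ r = (p : ℚ) ^ v * (p : ℚ) ^ w := by rw [← pow_add, hvw]
  have hb : bin (th p r a + (t : ℚ) - th p r a' + (K : ℚ)) K =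
      ((Q p w K e t : ℤ) : ℚ) / (((p : ℚ) ^ w) ^ K * (K.factorial : ℚ)) := by
    unfold bin Q
    have hf : ∀ m ∈ range K, th p r a + (t : ℚ) - th p r a' + (K : ℚ) - (m : ℚ) =
        ((e : ℚ) + (p : ℚ) ^ w * ((t : ℚ) + K - m)) / (p : ℚ) ^ w := by
      intro m _
      unfold th
      have h4 : (a : ℚ) = (a' : ℚ) + (p : ℚ) ^ v * (e : ℚ) := by linarith
      rw [h4, hpr]
      field_simp
      ring
    rw [prod_congr rfl hf, prod_div_distrib, prod_const, card_range, div_div]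
    push_cast
    rfl
  rw [hb]
  push_cast
  field_simp

end BN2

theorem p_N2 (h3 : S_P3) : S_N2 := by
  intro p hp r K a a' hr haA haA' hne
  have ha : ¬ p ∣ a := (mem_filter.1 haA).2
  have hlt : a < p ^ r := mem_range.1 (mem_filter.1 haA).1
  have hlt' : a' < p ^ r := mem_range.1 (mem_filter.1 haA').1
  have hp0 : (p : ℚ_[p]) ≠ 0 := by exact_mod_cast hp.out.ne_zero
  have hz : (a : ℤ) - (a' : ℤ) ≠ 0 := by
    intro h
    apply hne
    have h2 : (a : ℤ) = (a' : ℤ) := sub_eq_zero.1 h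
    exact_mod_cast h2
  have hv : padicValInt p ((a : ℤ) - (a' : ℤ)) < r := by
    by_contra hc
    rw [not_lt] at hc
    have h1 : (p : ℤ) ^ r ∣ (a : ℤ) - (a' : ℤ) := by
      rw [padicValInt_dvd_iff]
      exact Or.inr hc
    apply hz
    apply Int.eq_zero_of_abs_lt_dvd h1
    have e1 : (a : ℤ) < (p : ℤ) ^ r := by exact_mod_cast hlt
    have e2 : (a' : ℤ) < (p : ℤ) ^ r := by exact_mod_cast hlt'
    have e3 : (0 : ℤ) ≤ a := by positivity
    have e4 : (0 : ℤ) ≤ a' := by positivity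
    rw [abs_lt]
    constructor
    · linarith
    · linarith
  obtain ⟨v, hvdef⟩ : ∃ v, v = padicValInt p ((a : ℤ) - (a' : ℤ)) := ⟨_, rfl⟩
  rw [← hvdef] at hv ⊢
  obtain ⟨w, hvw⟩ : ∃ w, v + w = r := ⟨r - v, by omega⟩
  have hw : 1 ≤ w := by omega
  obtain ⟨e, he⟩ : (p : ℤ) ^ v ∣ (a : ℤ) - (a' : ℤ) := by
    rw [hvdef]
    exact padicValInt_dvd _
  have hpe : ¬ (p : ℤ) ∣ e := by
    rintro ⟨f, hf⟩
    have h1 : (p : ℤ) ^ (v + 1) ∣ (a : ℤ) - (a' : ℤ) := ⟨f, by rw [he, hf]; ring⟩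
    rw [padicValInt_dvd_iff] at h1
    rcases h1 with h1 | h1
    · exact hz h1
    · omega
  have hPn : ∀ t, ((BN1.P p r K a t : ℕ) : ℚ_[p]) ≠ 0 := by
    intro t h
    have h1 := BN1.norm_P p r K a t hr ha
    rw [h, norm_zero] at h1
    exact zero_ne_one h1
  have hQn : ∀ t, ((BN2.Q p w K e t : ℤ) : ℚ_[p]) ≠ 0 := by
    intro t h
    have h1 := BN2.norm_Q p w K e t hw hpe
    rw [h, norm_zero] at h1
    exact zero_ne_one h1
  have hval := fun t => BN2.val h3 p r K a a' v w t e ha hvw he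
  refine ⟨hv, ⟨?_, ?_⟩, ?_⟩
  · rw [hval]
    exact div_ne_zero (mul_ne_zero (hQn 0) (pow_ne_zero _ (pow_ne_zero _ hp0)))
      (mul_ne_zero (pow_ne_zero _ (pow_ne_zero _ hp0)) (hPn 0))
  · intro t
    rw [hval, hval]
    have e1 : ((BN2.Q p w K e t : ℤ) : ℚ_[p]) * ((p : ℚ_[p]) ^ r) ^ (K + 1) /
        (((p : ℚ_[p]) ^ w) ^ K * ((BN1.P p r K a t : ℕ) : ℚ_[p])) /
        (((BN2.Q p w K e 0 : ℤ) : ℚ_[p]) * ((p : ℚ_[p]) ^ r) ^ (K + 1) /
        (((p : ℚ_[p]) ^ w) ^ K * ((BN1.P p r K a 0 : ℕ) : ℚ_[p]))) - 1 =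
        (((BN2.Q p w K e t * ((BN1.P p r K a 0 : ℕ) : ℤ) -
          BN2.Q p w K e 0 * ((BN1.P p r K a t : ℕ) : ℤ) : ℤ)) : ℚ_[p]) /
          (((BN2.Q p w K e 0 : ℤ) : ℚ_[p]) * ((BN1.P p r K a t : ℕ) : ℚ_[p])) := by
      have h1 := hPn t
      have h2 := hPn 0
      have h4 := hQn 0
      push_cast
      field_simp
    rw [e1, norm_div, norm_mul, BN1.norm_P p r K a t hr ha, BN2.norm_Q p w K e 0 hw hpe, mul_one,
      div_one]
    have hdvd : ((p : ℤ) ^ 1) ∣ BN2.Q p w K e t * ((BN1.P p r K a 0 : ℕ) : ℤ) -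
          BN2.Q p w K e 0 * ((BN1.P p r K a t : ℕ) : ℤ) := by
      rw [pow_one, ← ZMod.intCast_zmod_eq_zero_iff_dvd]
      push_cast
      rw [BN1.P_mod p r K a t hr, BN1.P_mod p r K a 0 hr, BN2.Q_mod p w K e t hw,
        BN2.Q_mod p w K e 0 hw, sub_self]
    have h2 := (Padic.norm_int_le_pow_iff_dvd (p := p)
      (BN2.Q p w K e t * ((BN1.P p r K a 0 : ℕ) : ℤ) -
          BN2.Q p w K e 0 * ((BN1.P p r K a t : ℕ) : ℤ)) 1).2 (by exact_mod_cast hdvd)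
    rw [zpow_neg, zpow_natCast, pow_one] at h2
    exact h2
  · have hrv : r - v = w := by omega
    rw [hval, hrv, norm_div, norm_mul, norm_mul, BN1.norm_P p r K a 0 hr ha,
      BN2.norm_Q p w K e 0 hw hpe, mul_one, one_mul,
      norm_pow, norm_pow, norm_pow, norm_pow, Padic.norm_p, ← pow_mul, ← pow_mul, inv_pow, inv_pow,
      div_inv_eq_mul, mul_comm]

end Pool.Agent.Work.MP_03df5c_pb
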