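import Pool.Agent.Work.MP_03df5c_pb.Interface2

/-!
# Block N2b: the block `a` at `a / p ^ r + t`
-/

open Finset Filter Topology

namespace Pool.Agent.Work.MP_03df5c_pb

namespace BN2b

theorem bin_choose (t K : ℕ) : bin ((t : ℚ) + (K : ℚ)) K = (((t + K).choose K : ℕ) : ℚ) := by
  unfold bin
  have h1 : ∏ m ∈ range K, ((t : ℚ) + (K : ℚ) - (m : ℚ)) = (((t + K).descFactorial K : ℕ) : ℚ) := by
    rw [Nat.descFactorial_eq_prod_range, Nat.cast_prod]
    refine prod_congr rfl ?_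
    intro m hm
    have hm' := mem_range.1 hm
    rw [Nat.cast_sub (by omega), Nat.cast_add]
  rw [h1, Nat.descFactorial_eq_factorial_mul_choose, Nat.cast_mul]
  have h2 : (K.factorial : ℚ) ≠ 0 := by exact_mod_cast K.factorial_ne_zero
  field_simp

theorem good (p : ℕ) [Fact p.Prime] (r K a t : ℕ) (ha : a ∈ AA p r) : Good K (th p r a + (t : ℚ)) := by
  intro j _
  have hp : 0 < p := (Fact.out : p.Prime).pos
  have h1 : a ≠ 0 := by
    rintro rfl
    exact (mem_filter.1 ha).2 (dvd_zero p)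
  have h2 : (0 : ℚ) < th p r a := by
    unfold th
    have h3 : (0 : ℚ) < a := by exact_mod_cast Nat.pos_of_ne_zero h1
    have h4 : (0 : ℚ) < (p : ℚ) ^ r := by
      have : (0 : ℚ) < p := by exact_mod_cast hp
      positivity
    positivity
  have h5 : (0 : ℚ) ≤ (t : ℚ) := Nat.cast_nonneg t
  have h6 : (0 : ℚ) ≤ (j : ℚ) := Nat.cast_nonneg j
  exact ne_of_gt (by linarith)

end BN2b

/-- N2b, from P3 -/
theorem p_N2b (h3 : S_P3) : S_N2b := by
  intro p _ r K a t _ ha
  unfold vv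
  obtain ⟨h1, h2⟩ := h3 K _ (BN2b.good p r K a t ha)
  have h4 := h2 (th p r a)
  rw [h4, h1]
  have h5 : th p r a + (t : ℚ) - th p r a + (K : ℚ) = (t : ℚ) + (K : ℚ) := by ring
  rw [h5, BN2b.bin_choose]
  push_cast
  ring

end Pool.Agent.Work.MP_03df5c_pb
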