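import Pool.Agent.Work.MP_03df5c_pb.Interface2

/-!
# Block N3: the block `1` dominates
-/

open Finset Filter Topology

namespace Pool.Agent.Work.MP_03df5c_pb

namespace BN3

theorem dvd_iff {p : ℕ} [hp : Fact p.Prime] {z : ℤ} (hz : z ≠ 0) (n : ℕ) :
    n ≤ padicValInt p z ↔ (p : ℤ) ^ n ∣ z := by
  rw [padicValInt_dvd_iff]
  constructor
  · exact fun h => Or.inr h
  · rintro (h | h)
    · exact absurd h hz
    · exact h

theorem v_lt {p r : ℕ} [hp : Fact p.Prime] {z : ℤ} (hz : z ≠ 0) (h : |z| < (p : ℤ) ^ r) :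
    padicValInt p z < r := by
  by_contra hc
  rw [not_lt] at hc
  have h1 := (dvd_iff hz r).1 hc
  have h2 := Int.eq_zero_of_abs_lt_dvd h1 h
  exact hz h2

theorem mem_AA {p r a : ℕ} : a ∈ AA p r ↔ a < p ^ r ∧ ¬ p ∣ a := by
  simp [AA]

theorem v_eq {p r a b : ℕ} [hp : Fact p.Prime] (ha : a ∈ AA p r) (hb : b ∈ AA p r) (hb1 : b ≠ 1)
    (h1 : 1 ∈ AA p r) (hne : (a * b) % p ^ r ≠ a) :
    padicValInt p ((a : ℤ) - ((a * b % p ^ r : ℕ) : ℤ)) = padicValInt p ((1 : ℤ) - (b : ℤ)) := by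
  rw [mem_AA] at ha hb h1
  have hz1 : ((a : ℤ) - ((a * b % p ^ r : ℕ) : ℤ)) ≠ 0 := by
    intro h
    apply hne
    have h2 : (a : ℤ) = ((a * b % p ^ r : ℕ) : ℤ) := sub_eq_zero.1 h
    exact_mod_cast h2.symm
  have hz2 : ((1 : ℤ) - (b : ℤ)) ≠ 0 := by
    intro h
    apply hb1
    have h2 : (1 : ℤ) = (b : ℤ) := sub_eq_zero.1 h
    exact_mod_cast h2.symm
  have hlt : a * b % p ^ r < p ^ r := Nat.mod_lt _ (by omega)
  have l1 : padicValInt p ((a : ℤ) - ((a * b % p ^ r : ℕ) : ℤ)) < r := by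
    apply v_lt hz1
    rw [abs_lt]
    have e1 : ((a * b % p ^ r : ℕ) : ℤ) < (p : ℤ) ^ r := by exact_mod_cast hlt
    have e2 : (a : ℤ) < (p : ℤ) ^ r := by exact_mod_cast ha.1
    constructor
    · have : (0 : ℤ) ≤ a := by positivity
      linarith
    · have : (0 : ℤ) ≤ ((a * b % p ^ r : ℕ) : ℤ) := by positivity
      linarith
  have l2 : padicValInt p ((1 : ℤ) - (b : ℤ)) < r := by
    apply v_lt hz2
    rw [abs_lt]
    have e1 : ((b : ℕ) : ℤ) < (p : ℤ) ^ r := by exact_mod_cast hb.1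
    have e2 : ((1 : ℕ) : ℤ) < (p : ℤ) ^ r := by exact_mod_cast h1.1
    constructor
    · linarith
    · have : (0 : ℤ) ≤ b := by positivity
      push_cast at e2
      linarith
  have key : ∀ n ≤ r, ((p : ℤ) ^ n ∣ (a : ℤ) - ((a * b % p ^ r : ℕ) : ℤ)) ↔
      ((p : ℤ) ^ n ∣ (1 : ℤ) - (b : ℤ)) := by
    intro n hn
    have e1 : ((a * b : ℕ) : ℤ) = ((a * b % p ^ r : ℕ) : ℤ) + (p : ℤ) ^ r * ((a * b / p ^ r : ℕ) : ℤ) := by
      have := Nat.mod_add_div (a * b) (p ^ r)
      exact_mod_cast this.symm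
    have e2 : (a : ℤ) - ((a * b % p ^ r : ℕ) : ℤ) =
        (a : ℤ) * (1 - b) + (p : ℤ) ^ n * ((p : ℤ) ^ (r - n) * ((a * b / p ^ r : ℕ) : ℤ)) := by
      have e3 : (p : ℤ) ^ r = (p : ℤ) ^ n * (p : ℤ) ^ (r - n) := by
        rw [← pow_add]
        congr 1
        omega
      rw [← mul_assoc, ← e3]
      push_cast at e1 ⊢
      linarith
    rw [e2]
    have hcop : IsCoprime ((p : ℤ) ^ n) (a : ℤ) := by
      apply IsCoprime.pow_left
      rw [Int.isCoprime_iff_gcd_eq_one]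
      rw [Int.gcd_natCast_natCast]
      exact (Nat.Prime.coprime_iff_not_dvd hp.out).2 ha.2
    constructor
    · intro h
      have h3 : (p : ℤ) ^ n ∣ (a : ℤ) * (1 - b) := (Int.dvd_add_left (dvd_mul_right _ _)).1 h
      exact hcop.dvd_of_dvd_mul_left h3
    · intro h
      exact dvd_add (Dvd.dvd.mul_left h _) (dvd_mul_right _ _)
  apply le_antisymm
  · rw [dvd_iff hz2, ← key _ l1.le]
    exact (dvd_iff hz1 _).1 le_rfl
  · rw [dvd_iff hz1, key _ l2.le]
    exact (dvd_iff hz2 _).1 le_rfl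

/-- the sum without the weights -/
def YY (p r a : ℕ) : ℕ := ∑ a' ∈ (AA p r).erase a, (r - padicValInt p ((a : ℤ) - (a' : ℤ)))

theorem YY_eq {p r a : ℕ} [hp : Fact p.Prime] (hr : 1 ≤ r) (ha : a ∈ AA p r) (h1 : 1 ∈ AA p r) :
    YY p r a = YY p r 1 := by
  have ha' := mem_AA.1 ha
  have hpos : 0 < p ^ r := pow_pos hp.out.pos r
  have hcop : Nat.Coprime (p ^ r) a := Nat.Coprime.pow_left r ((Nat.Prime.coprime_iff_not_dvd hp.out).2 ha'.2)
  have hinj : ∀ b ∈ AA p r, ∀ b' ∈ AA p r, a * b % p ^ r = a * b' % p ^ r → b = b' := by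
    intro b hb b' hb' h
    have h2 : b ≡ b' [MOD p ^ r] := Nat.ModEq.cancel_left_of_coprime hcop h
    have h3 : b % p ^ r = b' % p ^ r := h2
    rwa [Nat.mod_eq_of_lt (mem_AA.1 hb).1, Nat.mod_eq_of_lt (mem_AA.1 hb').1] at h3
  have hmap : ∀ b ∈ (AA p r).erase 1, a * b % p ^ r ∈ (AA p r).erase a := by
    intro b hb
    obtain ⟨hb1, hb⟩ := mem_erase.1 hb
    rw [mem_erase, mem_AA]
    refine ⟨?_, Nat.mod_lt _ hpos, ?_⟩
    · intro h
      apply hb1
      apply hinj b hb 1 h1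
      rw [h, mul_one, Nat.mod_eq_of_lt ha'.1]
    · intro h
      have hpp : p ∣ p ^ r := dvd_pow_self p (by omega)
      have h3 : p ∣ a * b := (Nat.dvd_mod_iff hpp).1 h
      rcases (Nat.Prime.dvd_mul hp.out).1 h3 with h4 | h4
      · exact ha'.2 h4
      · exact (mem_AA.1 hb).2 h4
  have himg : ((AA p r).erase 1).image (fun b => a * b % p ^ r) = (AA p r).erase a := by
    apply Finset.eq_of_subset_of_card_le
    · intro x hx
      obtain ⟨b, hb, rfl⟩ := mem_image.1 hx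
      exact hmap b hb
    · rw [Finset.card_image_of_injOn, card_erase_of_mem ha, card_erase_of_mem h1]
      intro b hb b' hb' h
      exact hinj b (mem_of_mem_erase hb) b' (mem_of_mem_erase hb') h
  unfold YY
  rw [← himg, Finset.sum_image]
  · apply sum_congr rfl
    intro b hb
    obtain ⟨hb1, hb2⟩ := mem_erase.1 hb
    rw [v_eq ha hb2 hb1 h1 (ne_of_mem_erase (hmap b hb))]
    norm_num
  · intro b hb b' hb' h
    exact hinj b (mem_of_mem_erase hb) b' (mem_of_mem_erase hb') h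

end BN3

open BN3

theorem p_N3 : S_N3 := by
  intro p hp r hr
  have h1 : 1 ∈ AA p r := by
    rw [mem_AA]
    exact ⟨Nat.one_lt_pow (by omega) hp.out.one_lt, fun h => hp.out.one_lt.ne' (Nat.dvd_one.1 h)⟩
  refine ⟨h1, ?_, ?_⟩
  · unfold XX bb
    rw [mul_sum]
    calc ∑ a' ∈ (AA p r).erase 1, (r - padicValInt p (((1 : ℕ) : ℤ) - (a' : ℤ))) * ee a'
        ≤ ∑ a' ∈ (AA p r).erase 1, r * ee a' := by
          apply sum_le_sum
          intro a' _
          exact Nat.mul_le_mul_right _ (Nat.sub_le _ _)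
      _ ≤ ∑ a' ∈ AA p r, r * ee a' := by
          apply sum_le_sum_of_subset
          exact erase_subset _ _
  · intro a ha ha1
    have e1 : XX p r 1 = 2 * YY p r 1 := by
      unfold XX YY
      rw [mul_sum]
      apply sum_congr rfl
      intro a' ha'
      have : ee a' = 2 := if_neg (ne_of_mem_erase ha')
      rw [this, mul_comm]
    have e2 : XX p r a + (r - padicValInt p ((a : ℤ) - ((1 : ℕ) : ℤ))) = 2 * YY p r a := by
      have e3 : ∑ a' ∈ (AA p r).erase a, (if a' = 1 then (r - padicValInt p ((a : ℤ) - (a' : ℤ))) else 0) =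
          r - padicValInt p ((a : ℤ) - ((1 : ℕ) : ℤ)) := by
        rw [Finset.sum_ite_eq' ((AA p r).erase a) 1 (fun a' => r - padicValInt p ((a : ℤ) - (a' : ℤ))),
          if_pos (mem_erase.2 ⟨ha1.symm, h1⟩)]
      rw [← e3]
      unfold XX YY
      rw [← sum_add_distrib, mul_sum]
      apply sum_congr rfl
      intro a' _
      unfold ee
      by_cases h : a' = 1
      · rw [if_pos h, if_pos h]
        ring
      · rw [if_neg h, if_neg h]
        ring
    have e4 : 0 < r - padicValInt p ((a : ℤ) - ((1 : ℕ) : ℤ)) := by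
      have ha' := mem_AA.1 ha
      have h1' := mem_AA.1 h1
      have hz : ((a : ℤ) - ((1 : ℕ) : ℤ)) ≠ 0 := by
        intro h
        apply ha1
        have h2 : (a : ℤ) = ((1 : ℕ) : ℤ) := sub_eq_zero.1 h
        exact_mod_cast h2
      have : padicValInt p ((a : ℤ) - ((1 : ℕ) : ℤ)) < r := by
        apply v_lt hz
        have e5 : (a : ℤ) < (p : ℤ) ^ r := by exact_mod_cast ha'.1
        have e6 : ((1 : ℕ) : ℤ) < (p : ℤ) ^ r := by exact_mod_cast h1'.1
        rw [abs_lt]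
        constructor
        · have : (0 : ℤ) ≤ a := by positivity
          linarith
        · push_cast
          linarith
      omega
    rw [YY_eq hr ha h1] at e2
    omega

end Pool.Agent.Work.MP_03df5c_pb
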