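import Pool.Agent.Work.MP_03df5c_pb.Interface2

/-!
# Block N4: the exact norm of the sum over the residue classes

The class `a = 1` dominates all the others.
-/

open Finset Filter Topology

namespace Pool.Agent.Work.MP_03df5c_pb

open Pool.Agent.Work.MP_03df5c_h91

namespace BN4

lemma norm_sum_lt {p : ℕ} [hp : Fact p.Prime] {ι : Type*} (s : Finset ι) (f : ι → ℚ_[p]) {C : ℝ}
    (hC : 0 < C) (h : ∀ i ∈ s, ‖f i‖ < C) : ‖∑ i ∈ s, f i‖ < C := by
  classical
  induction s using Finset.induction_on with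
  | empty => simpa using hC
  | insert a s ha ih =>
    rw [sum_insert ha]
    exact (IsUltrametricDist.norm_add_le_max _ _).trans_lt
      (max_lt (h a (mem_insert_self _ _)) (ih fun i hi => h i (mem_insert_of_mem hi)))

lemma fs_div {p : ℕ} [hp : Fact p.Prime] (f : ℕ → ℚ_[p]) (c : ℚ_[p]) (N : ℕ) :
    fs p (fun t => f t / c) N = fs p f N / c := by
  unfold fs
  rw [sum_div]
  exact sum_congr rfl fun t _ => by ring

lemma hasI_div {p : ℕ} [hp : Fact p.Prime] {f : ℕ → ℚ_[p]} {L : ℚ_[p]} (h : HasI p f L)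
    (c : ℚ_[p]) : HasI p (fun t => f t / c) (L / c) := by
  unfold HasI at h ⊢
  refine (h.div_const c).congr fun N => ?_
  exact (fs_div f c N).symm

lemma uc_norm {p : ℕ} [hp : Fact p.Prime] {h : ℕ → ℚ_[p]} (hu : UC p h) (t : ℕ) :
    ‖h t‖ ≤ ‖h 0‖ := by
  have h0 : ‖h 0‖ ≠ 0 := norm_ne_zero_iff.2 hu.1
  have hp1 : (1 : ℝ) < p := by exact_mod_cast hp.out.one_lt
  have h1 : ‖h t / h 0‖ ≤ 1 := by
    have e : h t / h 0 = (h t / h 0 - 1) + 1 := by ring
    rw [e]
    refine norm_add_le_of_le ((hu.2 t).trans ?_) (by simp)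
    exact inv_le_one_of_one_le₀ hp1.le
  rw [norm_div, div_le_one (lt_of_le_of_ne (norm_nonneg _) h0.symm)] at h1
  exact h1

end BN4

theorem p_N4 (h4 : S_F4) (h6 : S_F6) (h3 : S_N3) (h4a : S_N4a) : S_N4 := by
  classical
  intro p hp hp2 r s K hr hs hK S hS
  have hp1 : (1 : ℝ) < p := by exact_mod_cast hp.out.one_lt
  have hp0 : (0 : ℝ) < p := by linarith
  obtain ⟨h1AA, hXX, hlt⟩ := h3 p r hr
  have hfact : (0 : ℝ) < ‖(K.factorial : ℚ_[p])‖ := by
    rw [norm_pos_iff]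
    exact_mod_cast K.factorial_ne_zero
  have hfact1 : ‖(K.factorial : ℚ_[p])‖ ≤ 1 := norm_natCast_le_one _
  set V : ℝ := ‖(K.factorial : ℚ_[p])‖ ^ (s - bb p r + 1) * (p : ℝ) ^ (K * XX p r 1) *
      ((p : ℝ) ^ (r * (K + 1) * s))⁻¹ with hV
  have hVpos : 0 < V := by positivity
  -- the class `1`
  have hS1 : ‖S 1‖ = V := by
    obtain ⟨h, hu, hval, hnorm⟩ := h4a p r s K 1 hr hs h1AA
    have he : ee 1 = 1 := by simp [ee]
    rw [he] at hval hnorm
    have hI := hS 1 h1AA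
    have hI2 := BN4.hasI_div hI (h 0)
    have hI3 : HasI p (fun t => (((t + K).choose K : ℕ) : ℚ_[p]) * (h t / h 0)) (S 1 / h 0) := by
      have e : (fun t => vv p r 1 (RR p r s K) t / h 0)
          = (fun t => (((t + K).choose K : ℕ) : ℚ_[p]) * (h t / h 0)) := by
        funext t
        rw [hval t, pow_one, mul_div_assoc]
      rw [← e]
      exact hI2
    have h1 := h6 p hp2 K (fun t => h t / h 0) hu.2 _ hI3
    rw [norm_div, div_eq_one_iff_eq (norm_ne_zero_iff.2 hu.1)] at h1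
    rw [h1, hnorm]
  -- the other classes
  have hSa : ∀ a ∈ (AA p r).erase 1, ‖(-1) ^ a * S a‖ < V := by
    intro a ha
    have ha1 : a ≠ 1 := ne_of_mem_erase ha
    have haA : a ∈ AA p r := mem_of_mem_erase ha
    obtain ⟨h, hu, hval, hnorm⟩ := h4a p r s K a hr hs haA
    have he : ee a = 2 := by simp [ee, ha1]
    rw [he] at hval hnorm
    have hle : ‖S a‖ ≤ ‖h 0‖ := by
      refine h4 p _ _ (fun t => ?_) _ (hS a haA)
      rw [hval t, norm_mul, norm_pow]
      refine (mul_le_of_le_one_left (norm_nonneg _) ?_).trans (BN4.uc_norm hu t)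
      exact pow_le_one₀ (norm_nonneg _) (norm_natCast_le_one _)
    have e1 : ‖((-1 : ℚ_[p])) ^ a * S a‖ = ‖S a‖ := by
      rw [norm_mul, norm_pow, norm_neg, norm_one, one_pow, one_mul]
    rw [e1]
    refine hle.trans_lt ?_
    rw [hnorm, hV]
    refine mul_lt_mul_of_pos_right ?_ (by positivity)
    have hX : K * XX p r a < K * XX p r 1 := Nat.mul_lt_mul_of_pos_left (hlt a haA ha1) (by omega)
    calc ‖(K.factorial : ℚ_[p])‖ ^ (s - bb p r + 2) * (p : ℝ) ^ (K * XX p r a)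
        ≤ ‖(K.factorial : ℚ_[p])‖ ^ (s - bb p r + 1) * (p : ℝ) ^ (K * XX p r a) := by
          refine mul_le_mul_of_nonneg_right ?_ (by positivity)
          exact pow_le_pow_of_le_one (norm_nonneg _) hfact1 (by omega)
      _ < ‖(K.factorial : ℚ_[p])‖ ^ (s - bb p r + 1) * (p : ℝ) ^ (K * XX p r 1) := by
          refine mul_lt_mul_of_pos_left ?_ (by positivity)
          exact pow_lt_pow_right₀ hp1 hX
  have hrest : ‖∑ a ∈ (AA p r).erase 1, (-1) ^ a * S a‖ < V :=
    BN4.norm_sum_lt _ _ hVpos hSa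
  have hsum : ∑ a ∈ AA p r, (-1) ^ a * S a
      = (-1) ^ 1 * S 1 + ∑ a ∈ (AA p r).erase 1, (-1) ^ a * S a :=
    (add_sum_erase (AA p r) (fun a => (-1) ^ a * S a) h1AA).symm
  have hn1 : ‖((-1 : ℚ_[p])) ^ 1 * S 1‖ = V := by
    rw [norm_mul, norm_pow, norm_neg, norm_one, one_pow, one_mul, hS1]
  have htot : ‖∑ a ∈ AA p r, (-1) ^ a * S a‖ = V := by
    rw [hsum, IsUltrametricDist.norm_add_eq_max_of_norm_ne_norm (by rw [hn1]; exact hrest.ne'),
      hn1, max_eq_left hrest.le]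
  rw [htot, hV, mul_assoc]
  congr 1
  have hle : K * XX p r 1 ≤ r * (K + 1) * s := by
    calc K * XX p r 1 ≤ K * (r * bb p r) := Nat.mul_le_mul_left _ hXX
      _ ≤ K * (r * s) := Nat.mul_le_mul_left _ (Nat.mul_le_mul_left _ hs)
      _ ≤ (K + 1) * (r * s) := Nat.mul_le_mul_right _ (by omega)
      _ = r * (K + 1) * s := by ring
  have hpn : (p : ℝ) ^ (K * XX p r 1) ≠ 0 := by positivity
  rw [pow_sub₀ (p : ℝ) hp0.ne' hle, mul_inv, inv_inv, mul_comm]

end Pool.Agent.Work.MP_03df5c_pb
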