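import Pool.Agent.Work.MP_03df5c_pb.Interface2

/-!
# Block N4a
-/

open Finset Filter Topology

namespace Pool.Agent.Work.MP_03df5c_pb

theorem p_N4a (h0 : S_N0) (h1 : S_N1) (h2 : S_N2) (h2b : S_N2b) : S_N4a := by
  intro p _ r s K a hr hs ha
  obtain ⟨hmul, hpow, hprod⟩ := h0 p
  obtain ⟨hu0, hn0⟩ := h1 p r K a hr ha
  have hp0 : (p : ℝ) ≠ 0 := by exact_mod_cast (Fact.out : p.Prime).ne_zero
  have hne : ∀ a' ∈ (AA p r).erase a, a ≠ a' ∧ a' ∈ AA p r := fun a' ha' =>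
    ⟨(Finset.ne_of_mem_erase ha').symm, Finset.mem_of_mem_erase ha'⟩
  have hbb : bb p r = ee a + ∑ a' ∈ (AA p r).erase a, ee a' := by
    unfold bb
    rw [← Finset.add_sum_erase _ _ ha]
  refine ⟨fun t => vv p r a (sf K (bet0 K)) t ^ (s - bb p r + ee a) *
    ∏ a' ∈ (AA p r).erase a, vv p r a (sf K (bet K (th p r a'))) t ^ (ee a'), ?_, ?_, ?_⟩
  · refine hmul _ _ (hpow _ _ hu0) ?_
    exact hprod _ (fun a' t => vv p r a (sf K (bet K (th p r a'))) t ^ (ee a')) fun a' ha' =>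
      hpow _ _ (h2 p r K a a' hr ha (hne a' ha').2 (hne a' ha').1).2.1
  · intro t
    have e1 : vv p r a (RR p r s K) t = vv p r a (sf K (bet0 K)) t ^ (s - bb p r) *
        ∏ a' ∈ AA p r, vv p r a (sf K (bet K (th p r a'))) t ^ (ee a') := by
      unfold vv RR
      push_cast
      rfl
    rw [e1, ← Finset.mul_prod_erase _ _ ha, h2b p r K a t hr ha]
    beta_reduce
    rw [pow_add, mul_pow]
    ring
  · have e2 : ∀ a' ∈ (AA p r).erase a, ‖vv p r a (sf K (bet K (th p r a'))) 0 ^ (ee a')‖ =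
        (p : ℝ) ^ ((r - padicValInt p ((a : ℤ) - (a' : ℤ))) * ee a' * K) *
          (((p : ℝ) ^ (r * (K + 1)))⁻¹) ^ (ee a') := by
      intro a' ha'
      rw [norm_pow, (h2 p r K a a' hr ha (hne a' ha').2 (hne a' ha').1).2.2, mul_pow, ← pow_mul]
      congr 2
      ring
    rw [norm_mul, norm_pow, norm_prod, hn0, Finset.prod_congr rfl e2, Finset.prod_mul_distrib,
      Finset.prod_pow_eq_pow_sum, Finset.prod_pow_eq_pow_sum, mul_pow, ← Finset.sum_mul]
    have e3 : ∑ a' ∈ (AA p r).erase a, (r - padicValInt p ((a : ℤ) - (a' : ℤ))) * ee a' = XX p r a := rfl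
    rw [e3, mul_comm (XX p r a) K]
    have e4 : ((p : ℝ) ^ (r * (K + 1) * s))⁻¹ = (((p : ℝ) ^ (r * (K + 1)))⁻¹) ^ (s - bb p r + ee a) *
        (((p : ℝ) ^ (r * (K + 1)))⁻¹) ^ (∑ a' ∈ (AA p r).erase a, ee a') := by
      rw [← pow_add, inv_pow, ← pow_mul]
      congr 3
      omega
    rw [e4]
    ring

end Pool.Agent.Work.MP_03df5c_pb
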