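import Pool.Agent.Work.MP_03df5c_pb.Interface5

/-!
# NA: vanishing of all the forms gives vanishing on a larger space
-/

open Finset Filter Topology

namespace Pool.Agent.Work.MP_03df5c_pb

namespace BNA

lemma tn_pos (p : ℕ) [hp : Fact p.Prime] (S : Finset ℕ) (hS : GS p S) {n a : ℕ} (hn : n ∈ S)
    (ha : a ∈ BB p n) : 0 < tn p n a := by
  have h1 : 0 < n := (hS n hn).1.pos
  have h2 : 0 < a := by
    rcases Nat.eq_zero_or_pos a with h | h
    · exact absurd (by rw [h]; exact dvd_zero p) (mem_filter.1 ha).2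
    · exact h
  unfold tn q2
  have h3 : 0 < p := hp.out.pos
  positivity

lemma Lam_congr (p : ℕ) [Fact p.Prime] (S : Finset ℕ) (hS : GS p S) (w : ℕ → ℤ) (F G : ℚ → ℚ)
    (h : ∀ u : ℚ, 0 < u → F u = G u) : Lam p S w F = Lam p S w G := by
  funext N
  unfold Lam
  refine Finset.sum_congr rfl fun n hn => ?_
  congr 1
  refine Finset.sum_congr rfl fun a ha => ?_
  congr 1
  unfold fs vn
  refine Finset.sum_congr rfl fun t _ => ?_
  rw [h _ (add_pos_of_pos_of_nonneg (tn_pos p S hS hn ha) (Nat.cast_nonneg t))]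

lemma Zr_congr (p : ℕ) [Fact p.Prime] (S : Finset ℕ) (hS : GS p S) (w : ℕ → ℤ) (F G : ℚ → ℚ)
    (h : ∀ u : ℚ, 0 < u → F u = G u) (hF : Zr p S w F) : Zr p S w G := by
  unfold Zr at *
  rwa [← Lam_congr p S hS w F G h]

lemma Lam_add (p : ℕ) [Fact p.Prime] (S : Finset ℕ) (w : ℕ → ℤ) (F G : ℚ → ℚ) (N : ℕ) :
    Lam p S w (fun u => F u + G u) N = Lam p S w F N + Lam p S w G N := by
  unfold Lam
  rw [← Finset.sum_add_distrib]
  refine Finset.sum_congr rfl fun n _ => ?_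
  rw [← mul_add, ← Finset.sum_add_distrib]
  congr 1
  refine Finset.sum_congr rfl fun a _ => ?_
  rw [← mul_add]
  congr 1
  unfold fs vn
  rw [← Finset.sum_add_distrib]
  refine Finset.sum_congr rfl fun t _ => ?_
  push_cast
  ring

lemma Lam_mul (p : ℕ) [Fact p.Prime] (S : Finset ℕ) (w : ℕ → ℤ) (c : ℚ) (F : ℚ → ℚ) (N : ℕ) :
    Lam p S w (fun u => c * F u) N = (c : ℚ_[p]) * Lam p S w F N := by
  unfold Lam
  rw [Finset.mul_sum]
  refine Finset.sum_congr rfl fun n _ => ?_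
  rw [mul_left_comm]
  congr 1
  rw [Finset.mul_sum]
  refine Finset.sum_congr rfl fun a _ => ?_
  rw [mul_left_comm]
  congr 1
  unfold fs vn
  rw [Finset.mul_sum]
  refine Finset.sum_congr rfl fun t _ => ?_
  push_cast
  ring

lemma Zr_add (p : ℕ) [Fact p.Prime] (S : Finset ℕ) (w : ℕ → ℤ) (F G : ℚ → ℚ)
    (hF : Zr p S w F) (hG : Zr p S w G) : Zr p S w (fun u => F u + G u) := by
  have h : Lam p S w (fun u => F u + G u) = fun N => Lam p S w F N + Lam p S w G N := by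
    funext N
    exact Lam_add p S w F G N
  unfold Zr at *
  rw [h]
  simpa using hF.add hG

lemma Zr_mul (p : ℕ) [Fact p.Prime] (S : Finset ℕ) (w : ℕ → ℤ) (c : ℚ) (F : ℚ → ℚ)
    (hF : Zr p S w F) : Zr p S w (fun u => c * F u) := by
  have h : Lam p S w (fun u => c * F u) = fun N => (c : ℚ_[p]) * Lam p S w F N := by
    funext N
    exact Lam_mul p S w c F N
  unfold Zr at *
  rw [h]
  simpa using hF.const_mul (c : ℚ_[p])

lemma Zr_zero (p : ℕ) [Fact p.Prime] (S : Finset ℕ) (w : ℕ → ℤ) :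
    Zr p S w (fun _ => (0 : ℚ)) := by
  have h : Lam p S w (fun _ => (0 : ℚ)) = fun _ => (0 : ℚ_[p]) := by
    funext N
    unfold Lam fs vn
    simp
  unfold Zr
  rw [h]
  exact tendsto_const_nhds

lemma Zr_sum (p : ℕ) [Fact p.Prime] (S : Finset ℕ) (w : ℕ → ℤ) (c : ℕ → ℚ) (F : ℕ → ℚ → ℚ) :
    ∀ s : ℕ, (∀ i < s, Zr p S w (F i)) →
      Zr p S w (fun u => ∑ i ∈ range s, c i * F i u)
  | 0, _ => by
    simpa using Zr_zero p S w
  | s + 1, h => by
    have h1 := Zr_sum p S w c F s (fun i hi => h i (by omega))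
    have h2 := Zr_mul p S w (c s) (F s) (h s (by omega))
    have h3 := Zr_add p S w _ _ h1 h2
    simpa [Finset.sum_range_succ] using h3

/-- polynomial multiples of degree `< s` -/
lemma Zr_poly (p : ℕ) [Fact p.Prime] (S : Finset ℕ) (hS : GS p S) (w : ℕ → ℤ) (s K : ℕ)
    (h : ∀ i < s, Zr p S w (fun u => u ^ i * RD p S s K u)) (B : Polynomial ℚ)
    (hB : B.natDegree < s) : Zr p S w (fun u => B.eval u * RD p S s K u) := by
  have h1 := Zr_sum p S w (fun i => B.coeff i) (fun i u => u ^ i * RD p S s K u) s h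
  refine Zr_congr p S hS w _ _ (fun u _ => ?_) h1
  rw [Polynomial.eval_eq_sum_range' hB u, Finset.sum_mul]
  refine Finset.sum_congr rfl fun i _ => ?_
  ring

lemma good (K : ℕ) {u : ℚ} (hu : 0 < u) : Good K u := by
  intro j _
  positivity

lemma step0 (h3 : S_P3) (K : ℕ) {u : ℚ} (hu : 0 < u) :
    sf (K + 1) (bet0 (K + 1)) u * (u + (K : ℚ) + 1) = sf K (bet0 K) u * ((K : ℚ) + 1) := by
  rw [(h3 (K + 1) u (good _ hu)).1, (h3 K u (good _ hu)).1, Finset.prod_range_succ _ (K + 1)]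
  have h1 : ∏ j ∈ range (K + 1), (u + (j : ℚ)) ≠ 0 :=
    Finset.prod_ne_zero_iff.2 fun j _ => by positivity
  have h2 : u + (K : ℚ) + 1 ≠ 0 := by positivity
  have h4 : u + ((K + 1 : ℕ) : ℚ) = u + (K : ℚ) + 1 := by push_cast; ring
  rw [h4, Nat.factorial_succ]
  push_cast
  field_simp

lemma step1 (h3 : S_P3) (K : ℕ) (θ : ℚ) {u : ℚ} (hu : 0 < u) :
    sf (K + 1) (bet (K + 1) θ) u * (u + (K : ℚ) + 1) =
      sf K (bet K θ) u * (u - θ + (K : ℚ) + 1) := by
  rw [(h3 (K + 1) u (good _ hu)).2 θ, (h3 K u (good _ hu)).2 θ, Finset.prod_range_succ _ (K + 1)]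
  have h1 : ∏ j ∈ range (K + 1), (u + (j : ℚ)) ≠ 0 :=
    Finset.prod_ne_zero_iff.2 fun j _ => by positivity
  have h2 : u + (K : ℚ) + 1 ≠ 0 := by positivity
  have h4 : u + ((K + 1 : ℕ) : ℚ) = u + (K : ℚ) + 1 := by push_cast; ring
  have h5 : bin (u - θ + ((K + 1 : ℕ) : ℚ)) (K + 1) * ((K : ℚ) + 1) =
      (u - θ + (K : ℚ) + 1) * bin (u - θ + K) K := by
    unfold bin
    rw [Finset.prod_range_succ']
    have h6 : ∏ k ∈ range K, (u - θ + ((K + 1 : ℕ) : ℚ) - ((k + 1 : ℕ) : ℚ)) =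
        ∏ m ∈ range K, (u - θ + (K : ℚ) - (m : ℚ)) := by
      refine Finset.prod_congr rfl fun m _ => ?_
      push_cast
      ring
    rw [h6, Nat.factorial_succ]
    have h7 : ((K.factorial : ℕ) : ℚ) ≠ 0 := by positivity
    have h8 : ((K : ℚ) + 1) ≠ 0 := by positivity
    push_cast
    field_simp
    ring
  have h8 : ((K : ℚ) + 1) ≠ 0 := by positivity
  rw [h4, Nat.factorial_succ]
  have h9 : bin (u - θ + ((K + 1 : ℕ) : ℚ)) (K + 1) =
      (u - θ + (K : ℚ) + 1) * bin (u - θ + K) K / ((K : ℚ) + 1) := by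
    rw [eq_div_iff h8, h5]
  rw [h9]
  push_cast
  field_simp

/-- the polynomial of one step -/
noncomputable def qq (p : ℕ) (S : Finset ℕ) (K : ℕ) : Polynomial ℚ :=
  ∏ n ∈ S, ∏ a ∈ BB p n, (Polynomial.X + Polynomial.C ((K : ℚ) + 1 - tn p n a))

lemma qq_eval (p : ℕ) (S : Finset ℕ) (K : ℕ) (u : ℚ) :
    (qq p S K).eval u = ∏ n ∈ S, ∏ a ∈ BB p n, (u - tn p n a + (K : ℚ) + 1) := by
  unfold qq
  rw [Polynomial.eval_prod]
  refine Finset.prod_congr rfl fun n _ => ?_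
  rw [Polynomial.eval_prod]
  refine Finset.prod_congr rfl fun a _ => ?_
  rw [Polynomial.eval_add, Polynomial.eval_X, Polynomial.eval_C]
  ring

lemma qq_deg (p : ℕ) (S : Finset ℕ) (K : ℕ) : (qq p S K).natDegree ≤ bS p S := by
  unfold qq bS
  refine (Polynomial.natDegree_prod_le _ _).trans (Finset.sum_le_sum fun n _ => ?_)
  refine (Polynomial.natDegree_prod_le _ _).trans ?_
  rw [Finset.card_eq_sum_ones]
  refine Finset.sum_le_sum fun a _ => ?_
  rw [Polynomial.natDegree_X_add_C]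

lemma step (h3 : S_P3) (p : ℕ) (S : Finset ℕ) (s K : ℕ) (hs : bS p S ≤ s) {u : ℚ} (hu : 0 < u) :
    RD p S s (K + 1) u * (u + (K : ℚ) + 1) ^ s =
      RD p S s K u * (((K : ℚ) + 1) ^ (s - bS p S) * (qq p S K).eval u) := by
  have h1 : (u + (K : ℚ) + 1) ^ s = (u + (K : ℚ) + 1) ^ (s - bS p S) *
      ∏ n ∈ S, ∏ _a ∈ BB p n, (u + (K : ℚ) + 1) := by
    have h2 : ∏ n ∈ S, ∏ _a ∈ BB p n, (u + (K : ℚ) + 1) = (u + (K : ℚ) + 1) ^ bS p S := by
      unfold bS
      rw [← Finset.prod_pow_eq_pow_sum]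
      refine Finset.prod_congr rfl fun n _ => ?_
      rw [Finset.prod_const]
    rw [h2, ← pow_add]
    congr 1
    omega
  rw [h1, qq_eval]
  unfold RD
  have h4 : (sf (K + 1) (bet0 (K + 1)) u) ^ (s - bS p S) * (u + (K : ℚ) + 1) ^ (s - bS p S) =
      (sf K (bet0 K) u) ^ (s - bS p S) * ((K : ℚ) + 1) ^ (s - bS p S) := by
    rw [← mul_pow, step0 h3 K hu, mul_pow]
  have h5 : (∏ n ∈ S, ∏ a ∈ BB p n, sf (K + 1) (bet (K + 1) (tn p n a)) u) *
      ∏ n ∈ S, ∏ _a ∈ BB p n, (u + (K : ℚ) + 1) =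
      (∏ n ∈ S, ∏ a ∈ BB p n, sf K (bet K (tn p n a)) u) *
      ∏ n ∈ S, ∏ a ∈ BB p n, (u - tn p n a + (K : ℚ) + 1) := by
    rw [← Finset.prod_mul_distrib, ← Finset.prod_mul_distrib]
    refine Finset.prod_congr rfl fun n _ => ?_
    rw [← Finset.prod_mul_distrib, ← Finset.prod_mul_distrib]
    refine Finset.prod_congr rfl fun a _ => ?_
    exact step1 h3 K (tn p n a) hu
  calc _ = ((sf (K + 1) (bet0 (K + 1)) u) ^ (s - bS p S) * (u + (K : ℚ) + 1) ^ (s - bS p S)) *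
        ((∏ n ∈ S, ∏ a ∈ BB p n, sf (K + 1) (bet (K + 1) (tn p n a)) u) *
        ∏ n ∈ S, ∏ _a ∈ BB p n, (u + (K : ℚ) + 1)) := by ring
    _ = _ := by rw [h4, h5]; ring

/-- the numerator polynomial of `n` steps -/
noncomputable def Qn (p : ℕ) (S : Finset ℕ) (K n : ℕ) : Polynomial ℚ := ∏ i ∈ range n, qq p S (K + i)

lemma Qn_deg (p : ℕ) (S : Finset ℕ) (s K n : ℕ) (hs : bS p S ≤ s) :
    (Qn p S K n).natDegree ≤ s * n := by
  unfold Qn
  refine (Polynomial.natDegree_prod_le _ _).trans ?_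
  refine (Finset.sum_le_sum (g := fun _ => s) fun i _ => (qq_deg p S (K + i)).trans hs).trans ?_
  rw [Finset.sum_const, Finset.card_range, smul_eq_mul, mul_comm]

lemma steps (h3 : S_P3) (p : ℕ) (S : Finset ℕ) (s K : ℕ) (hs : bS p S ≤ s) {u : ℚ} (hu : 0 < u) :
    ∀ n : ℕ, RD p S s (K + n) u * ∏ i ∈ range n, (u + (K : ℚ) + (i : ℚ) + 1) ^ s =
      RD p S s K u * ((∏ i ∈ range n, ((K : ℚ) + (i : ℚ) + 1) ^ (s - bS p S)) *
        (Qn p S K n).eval u)
  | 0 => by simp [Qn]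
  | n + 1 => by
    have h1 := steps h3 p S s K hs hu n
    have h2 := step h3 p S s (K + n) hs hu
    have e1 : u + ((K + n : ℕ) : ℚ) + 1 = u + (K : ℚ) + (n : ℚ) + 1 := by push_cast; ring
    have e2 : ((K + n : ℕ) : ℚ) + 1 = (K : ℚ) + (n : ℚ) + 1 := by push_cast; ring
    rw [e1, e2] at h2
    have e3 : (Qn p S K (n + 1)).eval u = (Qn p S K n).eval u * (qq p S (K + n)).eval u := by
      unfold Qn
      rw [Finset.prod_range_succ, Polynomial.eval_mul]
    rw [Finset.prod_range_succ, Finset.prod_range_succ, e3, ← add_assoc K n 1]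
    calc _ = (RD p S s (K + n + 1) u * (u + (K : ℚ) + (n : ℚ) + 1) ^ s) *
          ∏ i ∈ range n, (u + (K : ℚ) + (i : ℚ) + 1) ^ s := by ring
      _ = (RD p S s (K + n) u * ∏ i ∈ range n, (u + (K : ℚ) + (i : ℚ) + 1) ^ s) *
          (((K : ℚ) + (n : ℚ) + 1) ^ (s - bS p S) * (qq p S (K + n)).eval u) := by
        rw [h2]; ring
      _ = _ := by rw [h1]; ring

lemma coprime (p : ℕ) [Fact p.Prime] (S : Finset ℕ) (hS : GS p S) (s K n : ℕ) :
    IsCoprime ((Polynomial.X + Polynomial.C ((K : ℚ) + (n : ℚ) + 1)) ^ s) (Qn p S K (n + 1)) := by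
  apply IsCoprime.pow_left
  have h0 : (Polynomial.X + Polynomial.C ((K : ℚ) + (n : ℚ) + 1) : Polynomial ℚ) =
      Polynomial.X - Polynomial.C (-((K : ℚ) + (n : ℚ) + 1)) := by
    rw [Polynomial.C_neg, sub_neg_eq_add]
  rw [h0]
  have hirr := Polynomial.irreducible_X_sub_C (-((K : ℚ) + (n : ℚ) + 1))
  refine hirr.coprime_iff_not_dvd.2 ?_
  rw [Polynomial.dvd_iff_isRoot, Polynomial.IsRoot.def]
  unfold Qn
  rw [Polynomial.eval_prod]
  refine Finset.prod_ne_zero_iff.2 fun i hi => ?_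
  rw [qq_eval]
  refine Finset.prod_ne_zero_iff.2 fun m hm => Finset.prod_ne_zero_iff.2 fun a ha => ?_
  have h1 := tn_pos p S hS hm ha
  have h2 : (i : ℚ) ≤ n := by
    have := Finset.mem_range.1 hi
    exact_mod_cast (by omega : i ≤ n)
  push_cast
  intro h
  linarith

end BNA

theorem p_NA (h3 : S_P3) : S_NA := by
  intro p hp S w s K0 hS hb hs h n
  induction n with
  | zero =>
    intro P hP
    have h1 := BNA.Zr_poly p S hS w s K0 (h K0 le_rfl) P (by simp at hP; omega)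
    refine BNA.Zr_congr p S hS w _ _ (fun u _ => ?_) h1
    simp [mul_comm]
  | succ n ih =>
    intro P hP
    obtain ⟨D, hD⟩ : ∃ D : Polynomial ℚ,
        D = (Polynomial.X + Polynomial.C ((K0 : ℚ) + (n : ℚ) + 1)) ^ s := ⟨_, rfl⟩
    have hcop := BNA.coprime p S hS s K0 n
    rw [← hD] at hcop
    obtain ⟨x, y, hxy⟩ := hcop
    have hDm : D.Monic := by rw [hD]; exact (Polynomial.monic_X_add_C _).pow s
    have hDd : D.natDegree = s := by
      rw [hD, Polynomial.natDegree_pow, Polynomial.natDegree_X_add_C, mul_one]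
    obtain ⟨B, hB⟩ : ∃ B : Polynomial ℚ, B = (P * y) %ₘ D := ⟨_, rfl⟩
    obtain ⟨A, hA⟩ : ∃ A : Polynomial ℚ,
        A = P * x + ((P * y) /ₘ D) * BNA.Qn p S K0 (n + 1) := ⟨_, rfl⟩
    have hmod := Polynomial.modByMonic_add_div (P * y) D
    have hPAB : P = A * D + B * BNA.Qn p S K0 (n + 1) := by
      have e1 : P = P * (x * D + y * BNA.Qn p S K0 (n + 1)) := by rw [hxy, mul_one]
      rw [← hB] at hmod
      calc P = P * x * D + (P * y) * BNA.Qn p S K0 (n + 1) := by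
            conv_lhs => rw [e1]
            ring
        _ = P * x * D + (B + D * ((P * y) /ₘ D)) * BNA.Qn p S K0 (n + 1) := by rw [hmod]
        _ = _ := by rw [hA]; ring
    have hD1 : D ≠ 1 := by
      intro h1
      rw [h1, Polynomial.natDegree_one] at hDd
      omega
    have hBd : B.natDegree < s := by
      rw [hB]
      have := Polynomial.natDegree_modByMonic_lt (P * y) hDm hD1
      rwa [hDd] at this
    have hQd := BNA.Qn_deg p S s K0 (n + 1) hb
    have hAd : A.natDegree ≤ s - 1 + s * n := by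
      by_cases hA0 : A = 0
      · rw [hA0, Polynomial.natDegree_zero]
        exact Nat.zero_le _
      · have e1 : A * D = P - B * BNA.Qn p S K0 (n + 1) := by
          rw [eq_sub_iff_add_eq]
          exact hPAB.symm
        have e2 : (A * D).natDegree = A.natDegree + s := by
          rw [Polynomial.natDegree_mul hA0 hDm.ne_zero, hDd]
        have e3 : (B * BNA.Qn p S K0 (n + 1)).natDegree ≤ s - 1 + s * (n + 1) :=
          Polynomial.natDegree_mul_le.trans (by omega)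
        have e4 : (A * D).natDegree ≤ s - 1 + s * (n + 1) := by
          rw [e1]
          exact (Polynomial.natDegree_sub_le _ _).trans (max_le hP e3)
        have e5 : s * (n + 1) = s * n + s := by ring
        omega
    have h1 := ih A hAd
    have h2 := BNA.Zr_poly p S hS w s (K0 + (n + 1)) (h (K0 + (n + 1)) (by omega)) B hBd
    obtain ⟨c, hc⟩ : ∃ c : ℚ, c = ∏ i ∈ range (n + 1), ((K0 : ℚ) + (i : ℚ) + 1) ^ (s - bS p S) :=
      ⟨_, rfl⟩
    have hc0 : c ≠ 0 := by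
      rw [hc]
      exact Finset.prod_ne_zero_iff.2 fun i _ => by positivity
    have h4 := BNA.Zr_add p S w _ _ h1 (BNA.Zr_mul p S w c⁻¹ _ h2)
    refine BNA.Zr_congr p S hS w _ _ (fun u hu => ?_) h4
    have h5 := BNA.steps h3 p S s K0 hb hu (n + 1)
    rw [← hc] at h5
    obtain ⟨T, hT⟩ : ∃ T : ℚ, T = ∏ i ∈ range n, (u + (K0 : ℚ) + (i : ℚ) + 1) ^ s := ⟨_, rfl⟩
    have hT0 : T ≠ 0 := by
      rw [hT]
      exact Finset.prod_ne_zero_iff.2 fun i _ => by positivity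
    have hL0 : (u + (K0 : ℚ) + (n : ℚ) + 1) ^ s ≠ 0 := by positivity
    rw [Finset.prod_range_succ, ← hT] at h5
    rw [Finset.prod_range_succ, ← hT]
    have hPe : P.eval u = A.eval u * (u + (K0 : ℚ) + (n : ℚ) + 1) ^ s +
        B.eval u * (BNA.Qn p S K0 (n + 1)).eval u := by
      conv_lhs => rw [hPAB]
      rw [Polynomial.eval_add, Polynomial.eval_mul, Polynomial.eval_mul, hD, Polynomial.eval_pow,
        Polynomial.eval_add, Polynomial.eval_X, Polynomial.eval_C]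
      ring
    have h6 : RD p S s (K0 + (n + 1)) u = RD p S s K0 u * (c * (BNA.Qn p S K0 (n + 1)).eval u) /
        (T * (u + (K0 : ℚ) + (n : ℚ) + 1) ^ s) := by
      rw [eq_div_iff (mul_ne_zero hT0 hL0)]
      exact h5
    rw [h6, hPe]
    field_simp

end Pool.Agent.Work.MP_03df5c_pb
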