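import Pool.Agent.Work.MP_03df5c_pb.Interface5

/-!
# Block NB: passage to the functions `RD / u ^ k`
-/

open Finset Filter Topology

namespace Pool.Agent.Work.MP_03df5c_pb

open Pool.Agent.Work.MP_03df5c_h91

namespace BNB

variable {p : ℕ} [hpF : Fact p.Prime]

theorem norm_signed (a : ℕ) (x : ℚ_[p]) : ‖(-1) ^ a * x‖ = ‖x‖ := by
  rw [norm_mul, norm_pow, norm_neg, norm_one, one_pow, one_mul]

theorem nat_le (m : ℕ) : ‖(m : ℚ_[p])‖ ≤ 1 := by
  have := Padic.norm_int_le_one (p := p) (m : ℤ)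
  simpa using this

theorem lam_bound (S : Finset ℕ) (w : ℕ → ℤ) (F G : ℚ → ℚ) (B : ℝ) (hB : 0 ≤ B)
    (h : ∀ n ∈ S, ∀ a ∈ BB p n, ∀ t, ‖vn p n a F t - vn p n a G t‖ ≤ B) (N : ℕ) :
    ‖Lam p S w F N - Lam p S w G N‖ ≤ B := by
  unfold Lam
  rw [← Finset.sum_sub_distrib]
  refine IsUltrametricDist.norm_sum_le_of_forall_le_of_nonneg hB fun n hn => ?_
  rw [← mul_sub, norm_mul]
  have h1 : ‖((w n : ℤ) : ℚ_[p])‖ ≤ 1 := Padic.norm_int_le_one _
  have h2 : ‖∑ a ∈ BB p n, (-1) ^ a * fs p (vn p n a F) N -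
      ∑ a ∈ BB p n, (-1) ^ a * fs p (vn p n a G) N‖ ≤ B := by
    rw [← Finset.sum_sub_distrib]
    refine IsUltrametricDist.norm_sum_le_of_forall_le_of_nonneg hB fun a ha => ?_
    rw [← mul_sub, norm_signed]
    unfold fs
    rw [← Finset.sum_sub_distrib]
    refine IsUltrametricDist.norm_sum_le_of_forall_le_of_nonneg hB fun t _ => ?_
    rw [← mul_sub, norm_signed]
    exact h n hn a ha t
  calc _ ≤ 1 * B := mul_le_mul h1 h2 (norm_nonneg _) zero_le_one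
    _ = B := one_mul B

theorem one_lt_p : (1 : ℝ) < (p : ℝ) := by exact_mod_cast hpF.out.one_lt

theorem one_lt_psq : (1 : ℝ) < (p : ℝ) ^ 2 := one_lt_pow₀ one_lt_p (by norm_num)

/-- Adding a natural number does not change the norm `p ^ 2`. -/
theorem add_nat {x : ℚ_[p]} (hx : ‖x‖ = (p : ℝ) ^ 2) (m : ℕ) : ‖x + (m : ℚ_[p])‖ = (p : ℝ) ^ 2 := by
  have h1 : ‖(m : ℚ_[p])‖ ≤ 1 := nat_le m
  have h2 := one_lt_psq (p := p)
  have h3 : ‖x‖ ≠ ‖(m : ℚ_[p])‖ := by rw [hx]; exact ne_of_gt (lt_of_le_of_lt h1 h2)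
  rw [Padic.add_eq_max_of_ne h3, hx]
  exact max_eq_left (le_trans h1 h2.le)

/-- The norm of the points. -/
theorem pt_norm (n a t : ℕ) (hn : ¬ p ∣ n) (ha : ¬ p ∣ a) :
    ‖((tn p n a + (t : ℚ) : ℚ) : ℚ_[p])‖ = (p : ℝ) ^ 2 := by
  have e : ((tn p n a + (t : ℚ) : ℚ) : ℚ_[p]) = ((tn p n a : ℚ) : ℚ_[p]) + (t : ℚ_[p]) := by
    push_cast; rfl
  rw [e]
  apply add_nat
  unfold tn q2
  push_cast
  rw [norm_div, norm_mul, norm_pow, Padic.norm_p, Padic.norm_natCast_eq_one_iff.2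
    ((Nat.Prime.coprime_iff_not_dvd hpF.out).2 hn), Padic.norm_natCast_eq_one_iff.2
    ((Nat.Prime.coprime_iff_not_dvd hpF.out).2 ha), mul_one, inv_pow, one_div, inv_inv]

/-- The inverse of a shifted point has norm at most one. -/
theorem inv_le {u : ℚ} (hu : ‖(u : ℚ_[p])‖ = (p : ℝ) ^ 2) (m : ℕ) :
    ‖(((u + (m : ℚ))⁻¹ : ℚ) : ℚ_[p])‖ ≤ 1 := by
  push_cast
  rw [norm_inv, add_nat hu]
  exact inv_le_one_of_one_le₀ one_lt_psq.le

theorem add_ne {u : ℚ} (hu : ‖(u : ℚ_[p])‖ = (p : ℝ) ^ 2) (m : ℕ) : u + (m : ℚ) ≠ 0 := by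
  intro h
  have h1 := add_nat hu m
  have h2 : (u : ℚ_[p]) + (m : ℚ_[p]) = ((u + (m : ℚ) : ℚ) : ℚ_[p]) := by push_cast; rfl
  rw [h2, h, Rat.cast_zero, norm_zero] at h1
  have := one_lt_psq (p := p)
  linarith

/-- Boundedness on the points. -/
def Bd (p : ℕ) [Fact p.Prime] (F : ℚ → ℚ) : Prop :=
  ∃ B : ℝ, 0 ≤ B ∧ ∀ u : ℚ, ‖(u : ℚ_[p])‖ = (p : ℝ) ^ 2 → ‖((F u : ℚ) : ℚ_[p])‖ ≤ B

theorem bd_mul {F G : ℚ → ℚ} (hF : Bd p F) (hG : Bd p G) : Bd p (fun u => F u * G u) := by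
  obtain ⟨A, hA, hA'⟩ := hF
  obtain ⟨B, hB, hB'⟩ := hG
  refine ⟨A * B, mul_nonneg hA hB, fun u hu => ?_⟩
  push_cast
  rw [norm_mul]
  exact mul_le_mul (hA' u hu) (hB' u hu) (norm_nonneg _) hA

theorem bd_pow {F : ℚ → ℚ} (hF : Bd p F) (m : ℕ) : Bd p (fun u => F u ^ m) := by
  obtain ⟨A, hA, hA'⟩ := hF
  refine ⟨A ^ m, pow_nonneg hA m, fun u hu => ?_⟩
  push_cast
  rw [norm_pow]
  exact pow_le_pow_left₀ (norm_nonneg _) (hA' u hu) m

theorem bd_prod {ι : Type*} (T : Finset ι) (F : ι → ℚ → ℚ) (h : ∀ i ∈ T, Bd p (F i)) :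
    Bd p (fun u => ∏ i ∈ T, F i u) := by
  classical
  induction T using Finset.induction_on with
  | empty =>
    refine ⟨1, zero_le_one, fun u _ => ?_⟩
    simp
  | insert i T hi ih =>
    have h1 := bd_mul (h i (Finset.mem_insert_self i T))
      (ih fun j hj => h j (Finset.mem_insert_of_mem hj))
    refine (Iff.of_eq ?_).1 h1
    congr 1
    funext u
    rw [Finset.prod_insert hi]

theorem bd_sf (K : ℕ) (β : ℕ → ℚ) : Bd p (sf K β) := by
  refine ⟨∑ j ∈ range (K + 1), ‖((β j : ℚ) : ℚ_[p])‖, Finset.sum_nonneg fun _ _ => norm_nonneg _,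
    fun u hu => ?_⟩
  unfold sf
  push_cast
  refine norm_sum_le_of_le _ fun j _ => ?_
  have h1 : (β j : ℚ_[p]) / ((u : ℚ_[p]) + (j : ℚ_[p])) =
      (β j : ℚ_[p]) * (((u + (j : ℚ))⁻¹ : ℚ) : ℚ_[p]) := by
    push_cast
    rw [div_eq_mul_inv]
  rw [h1, norm_mul]
  exact mul_le_of_le_one_right (norm_nonneg _) (inv_le hu j)

theorem bd_RD (S : Finset ℕ) (s K : ℕ) : Bd p (RD p S s K) := by
  unfold RD
  exact bd_mul (bd_pow (bd_sf K _) _) (bd_prod _ _ fun n _ => bd_prod _ _ fun a _ => bd_sf K _)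

/-- The approximation of `1 / u ^ k`. -/
theorem approx {u : ℚ} (hu : ‖(u : ℚ_[p])‖ = (p : ℝ) ^ 2) (y : ℕ → ℕ) (ε : ℝ) (hε : 0 ≤ ε)
    (hy : ∀ i, ‖((y i : ℕ) : ℚ_[p])‖ ≤ ε) (k : ℕ) :
    ‖(((∏ i ∈ range k, (u + (y i : ℚ))⁻¹) - (u ^ k)⁻¹ : ℚ) : ℚ_[p])‖ ≤ ε := by
  induction k with
  | zero => simpa using hε
  | succ k ih =>
    have hu0 : u ≠ 0 := by
      have := add_ne hu 0
      simpa using this
    have huy : u + (y k : ℚ) ≠ 0 := add_ne hu (y k)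
    have e : ((∏ i ∈ range (k + 1), (u + (y i : ℚ))⁻¹) - (u ^ (k + 1))⁻¹ : ℚ) =
        ((∏ i ∈ range k, (u + (y i : ℚ))⁻¹) - (u ^ k)⁻¹) * (u + (y k : ℚ))⁻¹ +
          -((u⁻¹) ^ (k + 1) * (u + (y k : ℚ))⁻¹ * (y k : ℚ)) := by
      rw [Finset.prod_range_succ]
      have e2 : (u + (y k : ℚ))⁻¹ - u⁻¹ = -(u⁻¹ * (u + (y k : ℚ))⁻¹ * (y k : ℚ)) := by
        field_simp
        ring
      have e3 : ((u ^ k)⁻¹ : ℚ) = (u⁻¹) ^ k := by rw [inv_pow]
      have e4 : ((u ^ (k + 1))⁻¹ : ℚ) = (u⁻¹) ^ k * u⁻¹ := by rw [← inv_pow, pow_succ]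
      rw [e3, e4, pow_succ]
      linear_combination ((u⁻¹) ^ k) * e2
    rw [e]
    push_cast
    have h1 : ‖((u : ℚ_[p])⁻¹)‖ ≤ 1 := by
      rw [norm_inv, hu]
      exact inv_le_one_of_one_le₀ one_lt_psq.le
    have h2 : ‖((u : ℚ_[p]) + ((y k : ℕ) : ℚ_[p]))⁻¹‖ ≤ 1 := by
      have := inv_le hu (y k)
      push_cast at this
      exact this
    refine le_trans (IsUltrametricDist.norm_add_le_max _ _) (max_le ?_ ?_)
    · rw [norm_mul]
      have h3 : ‖(∏ i ∈ range k, ((u : ℚ_[p]) + ((y i : ℕ) : ℚ_[p]))⁻¹) - ((u : ℚ_[p]) ^ k)⁻¹‖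
          ≤ ε := by
        have := ih
        push_cast at this
        exact this
      exact le_trans (mul_le_of_le_one_right (norm_nonneg _) h2) h3
    · rw [norm_neg, norm_mul, norm_mul, norm_pow]
      have h4 : ‖((u : ℚ_[p])⁻¹)‖ ^ (k + 1) ≤ 1 := pow_le_one₀ (norm_nonneg _) h1
      have h5 : ‖((u : ℚ_[p])⁻¹)‖ ^ (k + 1) * ‖((u : ℚ_[p]) + ((y k : ℕ) : ℚ_[p]))⁻¹‖ ≤ 1 :=
        mul_le_one₀ h4 (norm_nonneg _) h2
      exact le_trans (mul_le_of_le_one_left (norm_nonneg _) h5) (hy k)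

/-- The product of the inverses as a quotient of the required form. -/
theorem quot (p : ℕ) [hpF : Fact p.Prime] (s K0 k M : ℕ) (hs : 1 ≤ s) (hM : K0 + 1 ≤ p ^ M) :
    ∃ P : Polynomial ℚ, P.natDegree ≤ s - 1 + s * p ^ (M + k) ∧
      ∀ u : ℚ, (∀ m : ℕ, u + (m : ℚ) ≠ 0) →
        P.eval u / ∏ i ∈ range (p ^ (M + k)), (u + (K0 : ℚ) + (i : ℚ) + 1) ^ s =
          ∏ i ∈ range k, (u + ((p ^ (M + i) : ℕ) : ℚ))⁻¹ := by
  classical
  have hp2 : 2 ≤ p := hpF.out.two_le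
  set g : ℕ → ℕ := fun i => p ^ (M + i) - (K0 + 1) with hg
  set J : Finset ℕ := (range k).image g with hJ
  have hge : ∀ i, K0 + 1 ≤ p ^ (M + i) := fun i =>
    le_trans hM (Nat.pow_le_pow_right (by omega) (by omega))
  have hsub : J ⊆ range (p ^ (M + k)) := by
    intro j hj
    rw [hJ, Finset.mem_image] at hj
    obtain ⟨i, hi, rfl⟩ := hj
    rw [Finset.mem_range] at hi ⊢
    have h1 : p ^ (M + i) ≤ p ^ (M + k) := Nat.pow_le_pow_right (by omega) (by omega)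
    have h2 := hge i
    simp only [hg]
    omega
  have hinj : ∀ i ∈ range k, ∀ j ∈ range k, g i = g j → i = j := by
    intro i _ j _ hij
    have h1 := hge i
    have h2 := hge j
    have h3 : p ^ (M + i) = p ^ (M + j) := by
      simp only [hg] at hij
      omega
    have h4 := Nat.pow_right_injective hp2 h3
    omega
  refine ⟨∏ j ∈ range (p ^ (M + k)), (Polynomial.X + Polynomial.C ((K0 : ℚ) + (j : ℚ) + 1)) ^
    (if j ∈ J then s - 1 else s), ?_, ?_⟩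
  · refine le_trans (Polynomial.natDegree_prod_le _ _) ?_
    have h1 : ∑ j ∈ range (p ^ (M + k)), ((Polynomial.X + Polynomial.C ((K0 : ℚ) + (j : ℚ) + 1)) ^
        (if j ∈ J then s - 1 else s) : Polynomial ℚ).natDegree ≤
        ∑ j ∈ range (p ^ (M + k)), s := by
      refine Finset.sum_le_sum fun j _ => ?_
      refine le_trans Polynomial.natDegree_pow_le ?_
      rw [Polynomial.natDegree_X_add_C, mul_one]
      split_ifs
      · omega
      · exact le_rfl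
    rw [Finset.sum_const, Finset.card_range, smul_eq_mul] at h1
    rw [mul_comm s (p ^ (M + k))]
    omega
  · intro u hu
    rw [Polynomial.eval_prod, ← Finset.prod_div_distrib]
    have hterm : ∀ j ∈ range (p ^ (M + k)),
        Polynomial.eval u ((Polynomial.X + Polynomial.C ((K0 : ℚ) + (j : ℚ) + 1)) ^
          (if j ∈ J then s - 1 else s)) / (u + (K0 : ℚ) + (j : ℚ) + 1) ^ s =
        if j ∈ J then (u + (K0 : ℚ) + (j : ℚ) + 1)⁻¹ else 1 := by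
      intro j _
      have hne : u + (K0 : ℚ) + (j : ℚ) + 1 ≠ 0 := by
        have := hu (K0 + j + 1)
        push_cast at this
        intro h
        apply this
        linarith
      have e1 : Polynomial.eval u (Polynomial.X + Polynomial.C ((K0 : ℚ) + (j : ℚ) + 1)) =
          u + (K0 : ℚ) + (j : ℚ) + 1 := by
        rw [Polynomial.eval_add, Polynomial.eval_X, Polynomial.eval_C]
        ring
      rw [Polynomial.eval_pow, e1]
      split_ifs with hj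
      · have e2 : (u + (K0 : ℚ) + (j : ℚ) + 1) ^ s =
            (u + (K0 : ℚ) + (j : ℚ) + 1) ^ (s - 1) * (u + (K0 : ℚ) + (j : ℚ) + 1) := by
          rw [← pow_succ]
          congr 1
          omega
        rw [e2, div_mul_eq_div_div, div_self (pow_ne_zero _ hne), one_div]
      · exact div_self (pow_ne_zero _ hne)
    rw [Finset.prod_congr rfl hterm, Finset.prod_ite_mem, Finset.inter_eq_right.2 hsub, hJ,
      Finset.prod_image hinj]
    refine Finset.prod_congr rfl fun i _ => ?_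
    congr 1
    have h1 := hge i
    have h2 : ((g i : ℕ) : ℚ) = ((p ^ (M + i) : ℕ) : ℚ) - ((K0 + 1 : ℕ) : ℚ) := by
      simp only [hg]
      rw [Nat.cast_sub h1]
    rw [h2]
    push_cast
    ring

end BNB

/-- Block NB. -/
theorem p_NB : S_NB := by
  intro p hpF hp S w s K0 hG hb hs H k
  obtain ⟨B, hB, hRD⟩ := BNB.bd_RD (p := p) S s K0
  have hp1 : (1 : ℝ) < (p : ℝ) := BNB.one_lt_p
  have hp0 : (0 : ℝ) < (p : ℝ) := by linarith
  -- the approximation at level `M`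
  have key : ∀ M : ℕ, K0 + 1 ≤ p ^ M → ∃ F : ℚ → ℚ, Zr p S w F ∧
      ∀ N, ‖Lam p S w (fun u => RD p S s K0 u / u ^ k) N - Lam p S w F N‖ ≤
        B * ((p : ℝ) ^ M)⁻¹ := by
    intro M hM
    obtain ⟨P, hdeg, hP⟩ := BNB.quot p s K0 k M hs hM
    refine ⟨_, H (p ^ (M + k)) P hdeg, fun N => ?_⟩
    refine BNB.lam_bound S w _ _ _ (mul_nonneg hB (inv_nonneg.2 (pow_nonneg hp0.le M))) ?_ N
    intro n hn a ha t
    have hn' : ¬ p ∣ n := (hG n hn).2
    have ha' : ¬ p ∣ a := (Finset.mem_filter.1 ha).2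
    have hu := BNB.pt_norm n a t hn' ha'
    unfold vn
    set u : ℚ := tn p n a + (t : ℚ) with hudef
    rw [← Rat.cast_sub]
    have e : RD p S s K0 u / u ^ k - RD p S s K0 u * P.eval u /
        ∏ i ∈ range (p ^ (M + k)), (u + (K0 : ℚ) + (i : ℚ) + 1) ^ s =
        -(RD p S s K0 u * ((∏ i ∈ range k, (u + ((p ^ (M + i) : ℕ) : ℚ))⁻¹) - (u ^ k)⁻¹)) := by
      rw [mul_div_assoc (RD p S s K0 u) (P.eval u), hP u (BNB.add_ne hu)]
      ring
    rw [e, Rat.cast_neg, Rat.cast_mul, norm_neg, norm_mul]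
    refine mul_le_mul (hRD u hu) ?_ (norm_nonneg _) hB
    refine BNB.approx hu (fun i => p ^ (M + i)) _ (inv_nonneg.2 (pow_nonneg hp0.le M)) ?_ k
    intro i
    push_cast
    rw [norm_pow, Padic.norm_p, ← inv_pow, pow_add]
    exact mul_le_of_le_one_right (pow_nonneg (inv_nonneg.2 hp0.le) M)
      (pow_le_one₀ (inv_nonneg.2 hp0.le) (inv_le_one_of_one_le₀ hp1.le))
  have hlim : Tendsto (fun M : ℕ => B * ((p : ℝ) ^ M)⁻¹) atTop (𝓝 0) := by
    have h1 : Tendsto (fun M : ℕ => ((p : ℝ)⁻¹) ^ M) atTop (𝓝 0) :=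
      tendsto_pow_atTop_nhds_zero_of_lt_one (inv_nonneg.2 hp0.le) (inv_lt_one_of_one_lt₀ hp1)
    have h2 := h1.const_mul B
    rw [mul_zero] at h2
    refine h2.congr fun M => ?_
    rw [inv_pow]
  unfold Zr
  rw [Metric.tendsto_atTop]
  intro ε hε
  have h3 := (Metric.tendsto_atTop.1 hlim) (ε / 2) (by linarith)
  obtain ⟨M0, hM0⟩ := h3
  have hM1 : K0 + 1 ≤ p ^ (max M0 (K0 + 1)) := by
    have h4 : K0 + 1 < p ^ (K0 + 1) := Nat.lt_pow_self hpF.out.one_lt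
    have h5 : p ^ (K0 + 1) ≤ p ^ (max M0 (K0 + 1)) :=
      Nat.pow_le_pow_right hpF.out.pos (le_max_right _ _)
    omega
  obtain ⟨F, hF, hFN⟩ := key _ hM1
  have h6 := hM0 (max M0 (K0 + 1)) (le_max_left _ _)
  rw [Real.dist_eq, sub_zero] at h6
  have h7 := lt_of_le_of_lt (le_abs_self _) h6
  obtain ⟨N0, hN0⟩ := (Metric.tendsto_atTop.1 hF) (ε / 2) (by linarith)
  refine ⟨N0, fun N hN => ?_⟩
  have h8 := hN0 N hN
  rw [dist_zero_right] at h8 ⊢
  have h9 := hFN N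
  calc ‖Lam p S w (fun u => RD p S s K0 u / u ^ k) N‖
      = ‖(Lam p S w (fun u => RD p S s K0 u / u ^ k) N - Lam p S w F N) + Lam p S w F N‖ := by
        rw [sub_add_cancel]
    _ ≤ ‖Lam p S w (fun u => RD p S s K0 u / u ^ k) N - Lam p S w F N‖ + ‖Lam p S w F N‖ :=
        norm_add_le _ _
    _ < ε := by linarith

end Pool.Agent.Work.MP_03df5c_pb
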