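import Pool.Agent.Work.MP_03df5c_pb.Interface5

/-!
# Block NC: passage to the numerator
-/

open Finset Filter Topology

namespace Pool.Agent.Work.MP_03df5c_pb

namespace NC

variable {p : ℕ} [hp : Fact p.Prime]

lemma tn_pos {S : Finset ℕ} (hS : GS p S) {n a : ℕ} (hn : n ∈ S) (ha : a ∈ BB p n) :
    0 < tn p n a := by
  have h1 : 0 < n := by
    rcases (hS n hn).1 with ⟨m, hm⟩
    omega
  have h2 : 0 < a := by
    rw [BB, mem_filter] at ha
    rcases Nat.eq_zero_or_pos a with h | h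
    · subst h
      exact absurd (dvd_zero p) ha.2
    · exact h
  have h3 : 0 < p := hp.out.pos
  unfold tn q2
  positivity

lemma lam_congr {S : Finset ℕ} (hS : GS p S) (w : ℕ → ℤ) {F G : ℚ → ℚ}
    (h : ∀ u : ℚ, 0 < u → F u = G u) (N : ℕ) : Lam p S w F N = Lam p S w G N := by
  unfold Lam
  apply Finset.sum_congr rfl
  intro n hn
  congr 1
  apply Finset.sum_congr rfl
  intro a ha
  congr 1
  unfold fs
  apply Finset.sum_congr rfl
  intro t _
  unfold vn
  rw [h _ (add_pos_of_pos_of_nonneg (tn_pos hS hn ha) (Nat.cast_nonneg t))]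

lemma zr_congr {S : Finset ℕ} (hS : GS p S) {w : ℕ → ℤ} {F G : ℚ → ℚ}
    (h : ∀ u : ℚ, 0 < u → F u = G u) (hF : Zr p S w F) : Zr p S w G := by
  unfold Zr at hF ⊢
  have h1 : Lam p S w G = Lam p S w F := by
    funext N
    exact (lam_congr hS w h N).symm
  rw [h1]
  exact hF

lemma lam_add (S : Finset ℕ) (w : ℕ → ℤ) (F G : ℚ → ℚ) (N : ℕ) :
    Lam p S w (fun u => F u + G u) N = Lam p S w F N + Lam p S w G N := by
  simp only [Lam, fs, vn, Rat.cast_add, mul_add, Finset.sum_add_distrib]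

lemma lam_smul (S : Finset ℕ) (w : ℕ → ℤ) (c : ℚ) (F : ℚ → ℚ) (N : ℕ) :
    Lam p S w (fun u => c * F u) N = (c : ℚ_[p]) * Lam p S w F N := by
  simp only [Lam, fs, vn, Rat.cast_mul, Finset.mul_sum]
  apply Finset.sum_congr rfl
  intro n _
  apply Finset.sum_congr rfl
  intro a _
  apply Finset.sum_congr rfl
  intro t _
  ring

lemma zr_zero (S : Finset ℕ) (w : ℕ → ℤ) : Zr p S w (fun _ => 0) := by
  have h : Lam p S w (fun _ => 0) = fun _ => (0 : ℚ_[p]) := by
    funext N
    simp [Lam, fs, vn]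
  unfold Zr
  rw [h]
  exact tendsto_const_nhds

lemma zr_add {S : Finset ℕ} {w : ℕ → ℤ} {F G : ℚ → ℚ} (hF : Zr p S w F) (hG : Zr p S w G) :
    Zr p S w (fun u => F u + G u) := by
  have h : Lam p S w (fun u => F u + G u) = fun N => Lam p S w F N + Lam p S w G N := by
    funext N
    exact lam_add S w F G N
  unfold Zr at hF hG ⊢
  rw [h]
  simpa using hF.add hG

lemma zr_smul {S : Finset ℕ} {w : ℕ → ℤ} {F : ℚ → ℚ} (c : ℚ) (hF : Zr p S w F) :
    Zr p S w (fun u => c * F u) := by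
  have h : Lam p S w (fun u => c * F u) = fun N => (c : ℚ_[p]) * Lam p S w F N := by
    funext N
    exact lam_smul S w c F N
  unfold Zr at hF ⊢
  rw [h]
  simpa using hF.const_mul (c : ℚ_[p])

lemma zr_sum {ι : Type*} {S : Finset ℕ} {w : ℕ → ℤ} (T : Finset ι) (c : ι → ℚ)
    (F : ι → ℚ → ℚ) (hF : ∀ i ∈ T, Zr p S w (F i)) :
    Zr p S w (fun u => ∑ i ∈ T, c i * F i u) := by
  classical
  induction T using Finset.induction_on with
  | empty => simpa using zr_zero S w
  | insert a T ha ih =>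
    have h1 := zr_add (zr_smul (c a) (hF a (mem_insert_self _ _)))
      (ih fun i hi => hF i (mem_insert_of_mem hi))
    have h2 : (fun u => ∑ i ∈ insert a T, c i * F i u) =
        fun u => c a * F a u + ∑ i ∈ T, c i * F i u := by
      funext u
      rw [sum_insert ha]
    rw [h2]
    exact h1

/-- The denominator `∏ (u + j)`. -/
noncomputable def DD (K : ℕ) (u : ℚ) : ℚ := ∏ j ∈ range (K + 1), (u + (j : ℚ))

lemma DD_pos {K : ℕ} {u : ℚ} (hu : 0 < u) : 0 < DD K u := by
  unfold DD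
  apply Finset.prod_pos
  intro j _
  positivity

lemma good_of_pos {K : ℕ} {u : ℚ} (hu : 0 < u) : Good K u := by
  intro j _
  positivity

/-- The value of `RD` at a positive rational. -/
lemma RD_eq (hP3 : S_P3) (p : ℕ) [Fact p.Prime] (S : Finset ℕ) (s K : ℕ) (hb : bS p S ≤ s)
    {u : ℚ} (hu : 0 < u) :
    RD p S s K u * (DD K u) ^ s = (K.factorial : ℚ) ^ (s - bS p S) * (numP p S K).eval u := by
  have hD := DD_pos (K := K) hu
  have hK : (K.factorial : ℚ) ≠ 0 := by exact_mod_cast K.factorial_ne_zero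
  have h0 := (hP3 K u (good_of_pos hu)).1
  have h1 : ∀ θ : ℚ, sf K (bet K θ) u * DD K u =
      ∏ h ∈ range K, (u - (θ - (h : ℚ) - 1)) := by
    intro θ
    rw [(hP3 K u (good_of_pos hu)).2 θ]
    change bin (u - θ + K) K * ((K.factorial : ℚ) / DD K u) * DD K u = _
    unfold bin
    rw [← Finset.prod_range_reflect (fun h : ℕ => (u - (θ - (h : ℚ) - 1))) K]
    have h2 : ∏ m ∈ range K, (u - θ + (K : ℚ) - (m : ℚ)) =
        ∏ j ∈ range K, (u - (θ - ((K - 1 - j : ℕ) : ℚ) - 1)) := by
      apply Finset.prod_congr rfl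
      intro j hj
      rw [mem_range] at hj
      have h3 : ((K - 1 - j : ℕ) : ℚ) = (K : ℚ) - 1 - (j : ℚ) := by
        have : K - 1 - j + 1 + j = K := by omega
        have h4 : ((K - 1 - j : ℕ) : ℚ) + 1 + (j : ℚ) = (K : ℚ) := by exact_mod_cast this
        linarith
      rw [h3]
      ring
    rw [h2]
    field_simp
  have h4 : sf K (bet0 K) u * DD K u = (K.factorial : ℚ) := by
    rw [h0]
    change (K.factorial : ℚ) / DD K u * DD K u = _
    field_simp
  have h5 : (numP p S K).eval u =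
      ∏ n ∈ S, ∏ a ∈ BB p n, (sf K (bet K (tn p n a)) u * DD K u) := by
    unfold numP
    simp only [Polynomial.eval_prod, Polynomial.eval_sub, Polynomial.eval_X, Polynomial.eval_C]
    apply Finset.prod_congr rfl
    intro n _
    apply Finset.prod_congr rfl
    intro a _
    rw [h1]
  have h6 : ∏ n ∈ S, ∏ a ∈ BB p n, (sf K (bet K (tn p n a)) u * DD K u) =
      (∏ n ∈ S, ∏ a ∈ BB p n, sf K (bet K (tn p n a)) u) * DD K u ^ (bS p S) := by
    simp only [Finset.prod_mul_distrib, Finset.prod_const, bS, Finset.prod_pow_eq_pow_sum]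
  rw [h5, h6, ← h4, mul_pow]
  unfold RD
  have h7 : DD K u ^ s = DD K u ^ (s - bS p S) * DD K u ^ (bS p S) := by
    rw [← pow_add]
    congr 1
    omega
  rw [h7]
  ring

end NC

open NC in
theorem p_NC (hP3 : S_P3) : S_NC := by
  intro p hp S w s K0 hS hb h m hm
  set T : Polynomial ℚ := (∏ j ∈ range (K0 + 1), (Polynomial.X + Polynomial.C (j : ℚ))) ^ s
    with hT
  have hTe : ∀ u : ℚ, T.eval u = DD K0 u ^ s := by
    intro u
    rw [hT, Polynomial.eval_pow, Polynomial.eval_prod]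
    congr 1
    unfold DD
    apply Finset.prod_congr rfl
    intro j _
    rw [Polynomial.eval_add, Polynomial.eval_X, Polynomial.eval_C]
  have hTd : T.natDegree ≤ m := by
    refine le_trans ?_ hm
    rw [hT]
    refine Polynomial.natDegree_pow_le.trans ?_
    refine Nat.mul_le_mul_left s ?_
    refine (Polynomial.natDegree_prod_le _ _).trans ?_
    refine (Finset.sum_le_card_nsmul _ _ 1 ?_).trans ?_
    · intro j _
      exact (Polynomial.natDegree_X_add_C _).le
    · simp
  have hK : (K0.factorial : ℚ) ^ (s - bS p S) ≠ 0 :=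
    pow_ne_zero _ (by exact_mod_cast K0.factorial_ne_zero)
  set C0 : ℚ := (K0.factorial : ℚ) ^ (s - bS p S) with hC0
  have h1 := zr_sum (p := p) (S := S) (w := w) (range (T.natDegree + 1))
    (fun i => C0⁻¹ * T.coeff i) (fun i u => RD p S s K0 u / u ^ (m - i)) (fun i _ => h (m - i))
  refine zr_congr hS ?_ h1
  intro u hu
  have h2 := RD_eq hP3 p S s K0 hb hu
  rw [← hTe, Polynomial.eval_eq_sum_range] at h2
  have h3 : (numP p S K0).eval u = C0⁻¹ * (RD p S s K0 u *
      ∑ i ∈ range (T.natDegree + 1), T.coeff i * u ^ i) := by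
    rw [h2, ← hC0]
    field_simp
  rw [h3, Finset.mul_sum, Finset.mul_sum, Finset.sum_div]
  apply Finset.sum_congr rfl
  intro i hi
  rw [mem_range] at hi
  have h4 : u ^ m = u ^ i * u ^ (m - i) := by
    rw [← pow_add]
    congr 1
    omega
  rw [h4]
  have h5 : u ^ i ≠ 0 := (pow_pos hu i).ne'
  have h6 : u ^ (m - i) ≠ 0 := (pow_pos hu _).ne'
  field_simp

end Pool.Agent.Work.MP_03df5c_pb
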