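import Pool.Agent.Work.MP_03df5c_pb.Interface5

/-!
# Block ND: the recurrence of the moments
-/

open Finset Filter Topology

namespace Pool.Agent.Work.MP_03df5c_pb

open Pool.Agent.Work.MP_03df5c_h91

namespace BND

theorem tn_add_pos {p n a : ℕ} (hp : p.Prime) (hn : ¬ p ∣ n) (ha : ¬ p ∣ a) (t : ℕ) :
    0 < tn p n a + (t : ℚ) := by
  have hn0 : n ≠ 0 := by rintro rfl; exact hn (dvd_zero _)
  have ha0 : a ≠ 0 := by rintro rfl; exact ha (dvd_zero _)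
  have h1 : (0 : ℚ) < (q2 p n : ℚ) := by
    unfold q2
    have := hp.pos
    have := Nat.pos_of_ne_zero hn0
    exact_mod_cast Nat.mul_pos (by positivity) this
  have h2 : (0 : ℚ) < (a : ℚ) := by exact_mod_cast Nat.pos_of_ne_zero ha0
  have h3 : 0 < tn p n a := div_pos h2 h1
  have h4 : (0 : ℚ) ≤ (t : ℚ) := Nat.cast_nonneg _
  linarith

theorem Lam_congr (p : ℕ) [Fact p.Prime] (S : Finset ℕ) (w : ℕ → ℤ) (F G : ℚ → ℚ)
    (h : ∀ n ∈ S, ∀ a ∈ BB p n, ∀ t : ℕ, F (tn p n a + (t : ℚ)) = G (tn p n a + (t : ℚ))) (N : ℕ) :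
    Lam p S w F N = Lam p S w G N := by
  unfold Lam fs vn
  refine Finset.sum_congr rfl fun n hn => ?_
  congr 1
  refine Finset.sum_congr rfl fun a ha => ?_
  congr 1
  refine Finset.sum_congr rfl fun t _ => ?_
  rw [h n hn a ha t]

theorem fs_sum (p : ℕ) [Fact p.Prime] (T : Finset ℕ) (c : ℕ → ℚ_[p]) (g : ℕ → ℕ → ℚ_[p]) (N : ℕ) :
    fs p (fun t => ∑ i ∈ T, c i * g i t) N = ∑ i ∈ T, c i * fs p (g i) N := by
  unfold fs
  simp only [Finset.mul_sum]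
  rw [Finset.sum_comm]
  refine Finset.sum_congr rfl fun i _ => Finset.sum_congr rfl fun t _ => ?_
  ring

theorem Lam_sum (p : ℕ) [Fact p.Prime] (S : Finset ℕ) (w : ℕ → ℤ) (T : Finset ℕ) (c : ℕ → ℚ)
    (F : ℕ → ℚ → ℚ) (N : ℕ) :
    Lam p S w (fun u => ∑ i ∈ T, c i * F i u) N
      = ∑ i ∈ T, ((c i : ℚ) : ℚ_[p]) * Lam p S w (F i) N := by
  have h1 : ∀ n a, fs p (vn p n a (fun u => ∑ i ∈ T, c i * F i u)) N
      = ∑ i ∈ T, ((c i : ℚ) : ℚ_[p]) * fs p (vn p n a (F i)) N := by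
    intro n a
    rw [← fs_sum]
    congr 1
    funext t
    unfold vn
    push_cast
    rfl
  unfold Lam
  simp only [h1, Finset.mul_sum]
  have h2 : ∀ n ∈ S, ∑ a ∈ BB p n, ∑ i ∈ T, (w n : ℚ_[p]) * ((-1) ^ a *
      (((c i : ℚ) : ℚ_[p]) * fs p (vn p n a (F i)) N))
      = ∑ i ∈ T, ∑ a ∈ BB p n, (w n : ℚ_[p]) * ((-1) ^ a *
      (((c i : ℚ) : ℚ_[p]) * fs p (vn p n a (F i)) N)) := fun n _ => Finset.sum_comm
  rw [Finset.sum_congr rfl h2, Finset.sum_comm]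
  refine Finset.sum_congr rfl fun i _ => Finset.sum_congr rfl fun n _ =>
    Finset.sum_congr rfl fun a _ => ?_
  ring

end BND

theorem p_ND (h5 : S_G5) : S_ND := by
  intro p hp hp2 S w m hS Q hQ hZ
  have h1 : ∀ N, Lam p S w (fun u => Q.eval u / u ^ m) N
      = ∑ i ∈ range (Q.natDegree + 1), ((Q.coeff i : ℚ) : ℚ_[p]) *
        Lam p S w (fun u => 1 / u ^ (m - i)) N := by
    intro N
    rw [← BND.Lam_sum]
    apply BND.Lam_congr
    intro n hn a ha t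
    have hu : 0 < tn p n a + (t : ℚ) :=
      BND.tn_add_pos hp.out (hS n hn).2 (Finset.mem_filter.mp ha).2 t
    show Q.eval (tn p n a + (t : ℚ)) / (tn p n a + (t : ℚ)) ^ m
      = ∑ i ∈ range (Q.natDegree + 1), Q.coeff i * (1 / (tn p n a + (t : ℚ)) ^ (m - i))
    generalize tn p n a + (t : ℚ) = u at hu
    rw [Polynomial.eval_eq_sum_range, Finset.sum_div]
    refine Finset.sum_congr rfl fun i hi => ?_
    have hi' : i ≤ m := by
      have := Finset.mem_range.mp hi; omega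
    have h2 : u ^ m = u ^ i * u ^ (m - i) := by rw [← pow_add]; congr 1; omega
    have h3 : u ^ i ≠ 0 := pow_ne_zero _ hu.ne'
    have h4 : u ^ (m - i) ≠ 0 := pow_ne_zero _ hu.ne'
    rw [h2]
    field_simp
  have h2 : Tendsto (Lam p S w (fun u => Q.eval u / u ^ m)) atTop
      (𝓝 (∑ i ∈ range (Q.natDegree + 1), ((Q.coeff i : ℚ) : ℚ_[p]) *
        (((Ww p S w (m - i) : ℤ) : ℚ_[p]) * JJ p (m - i)))) := by
    have h3 : Tendsto (fun N => ∑ i ∈ range (Q.natDegree + 1), ((Q.coeff i : ℚ) : ℚ_[p]) *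
        Lam p S w (fun u => 1 / u ^ (m - i)) N) atTop
      (𝓝 (∑ i ∈ range (Q.natDegree + 1), ((Q.coeff i : ℚ) : ℚ_[p]) *
        (((Ww p S w (m - i) : ℤ) : ℚ_[p]) * JJ p (m - i)))) := by
      apply tendsto_finset_sum
      intro i _
      exact (h5 p hp2 S w hS (m - i)).const_mul _
    exact h3.congr (fun N => (h1 N).symm)
  exact (tendsto_nhds_unique hZ h2).symm

end Pool.Agent.Work.MP_03df5c_pb
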