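import Pool.Agent.Work.MP_03df5c_pb.Interface5

open Finset Filter Topology

namespace Pool.Agent.Work.MP_03df5c_pb

namespace BNE

variable (p : ℕ) [Fact p.Prime]

/-- The power series of a rational polynomial. -/
noncomputable def em : Polynomial ℚ →+* PowerSeries ℚ_[p] :=
  (Polynomial.coeToPowerSeries.ringHom (R := ℚ_[p])).comp
    (Polynomial.mapRingHom (algebraMap ℚ ℚ_[p]))

theorem em_apply (Q : Polynomial ℚ) :
    em p Q = ((Q.map (algebraMap ℚ ℚ_[p]) : Polynomial ℚ_[p]) : PowerSeries ℚ_[p]) := rfl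

theorem em_coeff (Q : Polynomial ℚ) (i : ℕ) :
    PowerSeries.coeff i (em p Q) = ((Q.coeff i : ℚ) : ℚ_[p]) := by
  rw [em_apply, Polynomial.coeff_coe, Polynomial.coeff_map, eq_ratCast]

theorem rescale_em (Q : Polynomial ℚ) :
    PowerSeries.rescale (-1 : ℚ_[p]) (em p Q) = em p (Q.comp (-Polynomial.X)) := by
  have h : (PowerSeries.rescale (-1 : ℚ_[p])).comp (em p) =
      (em p).comp (Polynomial.compRingHom (-Polynomial.X)) := by
    apply Polynomial.ringHom_ext
    · intro a
      have e : PowerSeries.rescale (-1 : ℚ_[p]) (PowerSeries.C (a : ℚ_[p])) =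
          PowerSeries.C (a : ℚ_[p]) := by
        ext n
        rw [PowerSeries.coeff_rescale, PowerSeries.coeff_C]
        split
        · next h => rw [h, pow_zero, one_mul]
        · rw [mul_zero]
      simpa [em] using e
    · simp [em]
  exact RingHom.congr_fun h Q

theorem exists_poly (f : PowerSeries ℚ_[p]) (N : ℕ) (h : ∀ n ≥ N, PowerSeries.coeff n f = 0) :
    ∃ G : Polynomial ℚ_[p], f = (G : PowerSeries ℚ_[p]) := by
  refine ⟨PowerSeries.trunc N f, ?_⟩
  ext n
  rw [Polynomial.coeff_coe, PowerSeries.coeff_trunc]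
  split
  · rfl
  · exact h n (by omega)

theorem coeff_mul_em (Q : Polynomial ℚ) (M : ℕ → ℚ_[p]) (m : ℕ) (hm : Q.natDegree ≤ m) :
    PowerSeries.coeff m (em p Q * PowerSeries.mk M) =
      ∑ i ∈ range (Q.natDegree + 1), ((Q.coeff i : ℚ) : ℚ_[p]) * M (m - i) := by
  rw [PowerSeries.coeff_mul, Finset.Nat.sum_antidiagonal_eq_sum_range_succ_mk]
  symm
  rw [← Finset.sum_subset (Finset.range_subset_range.2 (Nat.succ_le_succ hm))]
  · refine Finset.sum_congr rfl fun i _ => ?_
    rw [em_coeff, PowerSeries.coeff_mk]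
  · intro i _ hi
    rw [em_coeff, Polynomial.coeff_eq_zero_of_natDegree_lt, Rat.cast_zero, zero_mul]
    rw [Finset.mem_range] at hi
    omega

end BNE

theorem p_NE : S_NE := by
  intro p _ Q M m0 hdeg hco hev hrec
  have h1 : ∀ m ≥ m0, PowerSeries.coeff m (BNE.em p Q * PowerSeries.mk M) = 0 := fun m hm => by
    rw [BNE.coeff_mul_em p Q M m (by omega)]
    exact hrec m hm
  obtain ⟨G, hG⟩ := BNE.exists_poly p _ m0 h1
  have hodd : PowerSeries.rescale (-1 : ℚ_[p]) (PowerSeries.mk M) = -PowerSeries.mk M := by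
    ext n
    rw [PowerSeries.coeff_rescale, map_neg, PowerSeries.coeff_mk]
    rcases Nat.even_or_odd n with h | h
    · rw [hev n h, mul_zero, neg_zero]
    · rw [h.neg_one_pow, neg_one_mul]
  obtain ⟨G', hG'⟩ := BNE.exists_poly p
    (PowerSeries.rescale (-1 : ℚ_[p]) (BNE.em p Q * PowerSeries.mk M)) m0 (fun m hm => by
      rw [PowerSeries.coeff_rescale, h1 m hm, mul_zero])
  rw [map_mul, BNE.rescale_em, hodd] at hG'
  obtain ⟨A, B, hAB⟩ := hco
  have h2 : (PowerSeries.mk M : PowerSeries ℚ_[p]) =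
      BNE.em p A * (BNE.em p Q * PowerSeries.mk M) -
        BNE.em p B * (BNE.em p (Q.comp (-Polynomial.X)) * -PowerSeries.mk M) := by
    have h3 := congrArg (BNE.em p) hAB
    rw [map_add, map_mul, map_mul, map_one] at h3
    linear_combination (-PowerSeries.mk M) * h3
  rw [hG, hG', BNE.em_apply, BNE.em_apply, ← Polynomial.coe_mul, ← Polynomial.coe_mul,
    ← Polynomial.coe_sub] at h2
  refine ⟨(A.map (algebraMap ℚ ℚ_[p]) * G - B.map (algebraMap ℚ ℚ_[p]) * G').natDegree + 1,
    fun k hk => ?_⟩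
  have h4 := congrArg (PowerSeries.coeff k) h2
  rw [PowerSeries.coeff_mk, Polynomial.coeff_coe,
    Polynomial.coeff_eq_zero_of_natDegree_lt (by omega)] at h4
  exact h4

end Pool.Agent.Work.MP_03df5c_pb
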