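import Pool.Agent.Work.MP_03df5c_pb.Interface5

/-!
# Block NF: coprimality of the numerator and its reflection
-/

open Finset Filter Topology

namespace Pool.Agent.Work.MP_03df5c_pb

open Pool.Agent.Work.MP_03df5c_h91

namespace BNF

theorem tn_lt {p n a : ℕ} (ha : a ∈ BB p n) : tn p n a < 1 := by
  have h1 : a < q2 p n := Finset.mem_range.1 (Finset.mem_filter.1 ha).1
  unfold tn
  rw [div_lt_one (by exact_mod_cast (Nat.zero_le a).trans_lt h1)]
  exact_mod_cast h1

theorem cop (r r' : ℚ) (h : r + r' ≠ 0) :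
    IsCoprime (Polynomial.X - Polynomial.C r)
      ((Polynomial.X - Polynomial.C r').comp (-Polynomial.X)) := by
  refine ⟨Polynomial.C (-(r + r')⁻¹), Polynomial.C (-(r + r')⁻¹), ?_⟩
  rw [Polynomial.sub_comp, Polynomial.X_comp, Polynomial.C_comp]
  have h1 : Polynomial.C (-(r + r')⁻¹) * (Polynomial.X - Polynomial.C r) +
      Polynomial.C (-(r + r')⁻¹) * (-Polynomial.X - Polynomial.C r') =
      Polynomial.C ((r + r')⁻¹ * (r + r')) := by
    simp only [map_mul, map_neg, map_add]
    ring
  rw [h1, inv_mul_cancel₀ h, map_one]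

end BNF

open BNF in
/-- Block NF. -/
theorem p_NF : S_NF := by
  intro p _ S K _
  constructor
  · have h1 : (numP p S K).comp (-Polynomial.X) = ∏ n ∈ S, ∏ a ∈ BB p n, ∏ h ∈ range K,
        (Polynomial.X - Polynomial.C (tn p n a - (h : ℚ) - 1)).comp (-Polynomial.X) := by
      unfold numP
      simp only [Polynomial.prod_comp]
    rw [h1]
    unfold numP
    refine IsCoprime.prod_left fun n _ => IsCoprime.prod_left fun a ha =>
      IsCoprime.prod_left fun h _ => IsCoprime.prod_right fun n' _ =>
      IsCoprime.prod_right fun a' ha' => IsCoprime.prod_right fun h' _ => cop _ _ ?_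
    have g1 := tn_lt ha
    have g2 := tn_lt ha'
    have g3 : (0 : ℚ) ≤ h := Nat.cast_nonneg h
    have g4 : (0 : ℚ) ≤ h' := Nat.cast_nonneg h'
    exact ne_of_lt (by linarith)
  · unfold numP bS
    rw [Polynomial.natDegree_prod_of_monic _ _ fun n _ => Polynomial.monic_prod_of_monic _ _
      fun a _ => Polynomial.monic_prod_of_monic _ _ fun h _ => Polynomial.monic_X_sub_C _]
    rw [Finset.sum_mul]
    refine Finset.sum_congr rfl fun n _ => ?_
    rw [Polynomial.natDegree_prod_of_monic _ _ fun a _ => Polynomial.monic_prod_of_monic _ _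
      fun h _ => Polynomial.monic_X_sub_C _]
    rw [← smul_eq_mul, ← Finset.sum_const]
    refine Finset.sum_congr rfl fun a _ => ?_
    rw [Polynomial.natDegree_prod_of_monic _ _ fun h _ => Polynomial.monic_X_sub_C _]
    rw [Finset.sum_congr rfl fun h _ => Polynomial.natDegree_X_sub_C _, Finset.sum_const,
      Finset.card_range, smul_eq_mul, mul_one]

end Pool.Agent.Work.MP_03df5c_pb
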