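import Pool.Agent.Work.MP_03df5c_pb.Interface5

/-!
# Block NG: infinitely many non-zero values
-/

open Finset Filter Topology

namespace Pool.Agent.Work.MP_03df5c_pb

open Pool.Agent.Work.MP_03df5c_h91

theorem p_NG (hZ : S_Z5) : S_NG := by
  intro p hp hp2 hfin
  have hl2 : 0 < Real.log 2 := Real.log_pos (by norm_num)
  have hT : ({(1 : ℚ_[p]), 0} ∪ (fun k => JJ p k) '' {k : ℕ | JJ p k ≠ 0} : Set ℚ_[p]).Finite :=
    (Set.toFinite _).union (hfin.image _)
  have f1 : Module.Finite ℚ (Submodule.span ℚ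
      ({(1 : ℚ_[p]), 0} ∪ (fun k => JJ p k) '' {k : ℕ | JJ p k ≠ 0} : Set ℚ_[p])) :=
    FiniteDimensional.span_of_finite ℚ hT
  have h1 : ∀ s : ℕ, Module.finrank ℚ (Submodule.span ℚ (tt p '' (Set.Iic s))) ≤
      Module.finrank ℚ (Submodule.span ℚ
        ({(1 : ℚ_[p]), 0} ∪ (fun k => JJ p k) '' {k : ℕ | JJ p k ≠ 0} : Set ℚ_[p])) := by
    intro s
    apply Submodule.finrank_mono
    apply Submodule.span_mono
    rintro _ ⟨i, _, rfl⟩
    by_cases h0 : i = 0
    · left
      subst h0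
      simp [tt]
    · have e : tt p i = JJ p i := by simp [tt, h0]
      rw [e]
      by_cases hJ : JJ p i = 0
      · left
        rw [hJ]
        simp
      · right
        exact ⟨i, hJ, rfl⟩
  obtain ⟨s0, h2⟩ := hZ p hp2 (1 / (6 * Real.log 2)) (by
    apply one_div_lt_one_div_of_lt
    · positivity
    · linarith)
  set D := Module.finrank ℚ (Submodule.span ℚ
        ({(1 : ℚ_[p]), 0} ∪ (fun k => JJ p k) '' {k : ℕ | JJ p k ≠ 0} : Set ℚ_[p])) with hD
  have h3 : Tendsto (fun s : ℕ => 1 / (6 * Real.log 2) * Real.log (s : ℝ)) atTop atTop :=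
    Filter.Tendsto.const_mul_atTop (by positivity)
      (Real.tendsto_log_atTop.comp tendsto_natCast_atTop_atTop)
  obtain ⟨s1, h4⟩ := (h3.eventually_gt_atTop (D : ℝ)).exists_forall_of_atTop
  have h5 := h4 (max s0 s1) (le_max_right _ _)
  have h6 := h2 (max s0 s1) (le_max_left _ _)
  have h7 : (Module.finrank ℚ (Submodule.span ℚ (tt p '' (Set.Iic (max s0 s1)))) : ℝ) ≤ (D : ℝ) := by
    exact_mod_cast h1 _
  linarith

end Pool.Agent.Work.MP_03df5c_pb
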