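import Pool.Agent.Work.MP_03df5c_pb.Interface5

/-!
# Block NH: the weights do not vanish for large exponents
-/

open Finset Filter Topology

namespace Pool.Agent.Work.MP_03df5c_pb

theorem p_NH : S_NH := by
  intro p hp S w hS hw
  classical
  obtain ⟨n1, hn1, hw1⟩ := hw
  have hne : (S.filter (fun n => w n ≠ 0)).Nonempty := ⟨n1, mem_filter.2 ⟨hn1, hw1⟩⟩
  obtain ⟨n0, hn0, hmax⟩ := Finset.exists_max_image (S.filter (fun n => w n ≠ 0)) (fun n => n) hne
  rw [mem_filter] at hn0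
  obtain ⟨hn0S, hw0⟩ := hn0
  have hpos : 0 < n0 := (hS n0 hn0S).1.pos
  have hposR : (0 : ℝ) < n0 := by exact_mod_cast hpos
  have hlim : Tendsto (fun k : ℕ => ∑ n ∈ S, (w n : ℝ) * ((n : ℝ) / n0) ^ k) atTop
      (𝓝 (∑ n ∈ S, if n = n0 then (w n0 : ℝ) else 0)) := by
    apply tendsto_finset_sum
    intro n hn
    by_cases h0 : w n = 0
    · have h1 : n ≠ n0 := by
        rintro rfl
        exact hw0 h0
      simp only [h0, h1, if_false, Int.cast_zero, zero_mul]
      exact tendsto_const_nhds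
    by_cases h1 : n = n0
    · subst h1
      have h2 : ((n : ℝ) / n) = 1 := div_self hposR.ne'
      simp only [h2, one_pow, mul_one, if_true]
      exact tendsto_const_nhds
    · have h2 : n < n0 := lt_of_le_of_ne (hmax n (mem_filter.2 ⟨hn, h0⟩)) h1
      simp only [h1, if_false]
      have h3 : ((n : ℝ) / n0) < 1 := by
        rw [div_lt_one hposR]
        exact_mod_cast h2
      have h4 : (0 : ℝ) ≤ (n : ℝ) / n0 := by positivity
      have h5 := (tendsto_pow_atTop_nhds_zero_of_lt_one h4 h3).const_mul (w n : ℝ)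
      rwa [mul_zero] at h5
  rw [Finset.sum_ite_eq' S n0, if_pos hn0S] at hlim
  have hw0R : (w n0 : ℝ) ≠ 0 := by exact_mod_cast hw0
  obtain ⟨k1, hk1⟩ := eventually_atTop.1 (hlim.eventually_ne hw0R)
  refine ⟨k1, fun k hk hz => hk1 k hk ?_⟩
  have h1 : ((Ww p S w k : ℤ) : ℝ) = ((p : ℝ) ^ 2 * n0) ^ k * ∑ n ∈ S, (w n : ℝ) * ((n : ℝ) / n0) ^ k := by
    unfold Ww q2
    push_cast
    rw [Finset.mul_sum]
    apply Finset.sum_congr rfl
    intro n _
    rw [mul_pow, mul_pow, div_pow]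
    field_simp
  rw [hz, Int.cast_zero] at h1
  have hpR : (p : ℝ) ≠ 0 := by exact_mod_cast hp.out.ne_zero
  have h2 : ((p : ℝ) ^ 2 * n0) ^ k ≠ 0 := pow_ne_zero _ (mul_ne_zero (pow_ne_zero _ hpR) hposR.ne')
  exact (mul_eq_zero.1 h1.symm).resolve_left h2

end Pool.Agent.Work.MP_03df5c_pb
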