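import Pool.Agent.Work.MP_03df5c_pb.Interface5

/-! Block NV: non-vanishing. -/

open Finset Filter Topology

namespace Pool.Agent.Work.MP_03df5c_pb

open Pool.Agent.Work.MP_03df5c_h91

theorem p_NV (hA : S_NA) (hB : S_NB) (hC : S_NC) (hD : S_ND) (hE : S_NE) (hF : S_NF) (hG : S_NG)
    (hH : S_NH) (hE4 : S_E4) : S_NV := by
  intro p _ hp S w s hGS hbs hs hw K0
  by_contra hcon
  push_neg at hcon
  have h1 := hA p S w s K0 hGS hbs hs hcon
  have h2 := hB p hp S w s K0 hGS hbs hs h1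
  have h3 := hC p S w s K0 hGS hbs h2
  obtain ⟨hcop, hdeg⟩ := hF p S K0 hGS
  have hle : (numP p S K0).natDegree ≤ s * (K0 + 1) := by
    rw [hdeg]
    exact Nat.mul_le_mul hbs (Nat.le_succ K0)
  obtain ⟨k1, hk1⟩ := hE p (numP p S K0) (fun k => ((Ww p S w k : ℤ) : ℚ_[p]) * JJ p k)
    (s * (K0 + 1)) hle hcop
    (fun k hk => by
      change ((Ww p S w k : ℤ) : ℚ_[p]) * JJ p k = 0
      rw [hE4 p hp k hk, mul_zero])
    (fun m hm => hD p hp S w m hGS (numP p S K0) (hle.trans hm) (h3 m hm))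
  obtain ⟨k2, hk2⟩ := hH p S w hGS hw
  have hinf := hG p hp
  apply hinf
  apply (Set.finite_lt_nat (max k1 k2)).subset
  intro k hk
  by_contra hlt
  have hge : max k1 k2 ≤ k := not_lt.1 hlt
  have h4 : ((Ww p S w k : ℤ) : ℚ_[p]) * JJ p k = 0 := hk1 k (le_trans (le_max_left _ _) hge)
  rcases mul_eq_zero.1 h4 with h5 | h5
  · exact hk2 k (le_trans (le_max_right _ _) hge) (by exact_mod_cast h5)
  · exact hk h5

end Pool.Agent.Work.MP_03df5c_pb
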