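import Pool.Agent.Work.MP_03df5c_pb.Interface1

/-!
# Block P1: multiplication of a partial fraction expansion by a function with simple poles
-/

open Finset

namespace Pool.Agent.Work.MP_03df5c_pb

namespace BP1

/-- Partial fractions of `1 / ((v + δ) v^(i+1))`. -/
lemma p1_pf (v δ : ℚ) (hv : v ≠ 0) (hδ : δ ≠ 0) (hvδ : v + δ ≠ 0) (i : ℕ) :
    1 / (v + δ) * (1 / v ^ (i + 1)) =
      (∑ i' ∈ range (i + 1), (-1) ^ (i - i') / δ ^ (i - i' + 1) / v ^ (i' + 1))
        + (-1) ^ (i + 1) / δ ^ (i + 1) / (v + δ) := by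
  induction i with
  | zero =>
    simp only [zero_add, pow_one, range_one, sum_singleton, Nat.sub_self, pow_zero]
    field_simp
    ring
  | succ i ih =>
    have h1 : 1 / (v + δ) * (1 / v ^ (i + 1 + 1)) = (1 / (v + δ) * (1 / v ^ (i + 1))) * (1 / v) := by
      field_simp
      ring
    rw [h1, ih, sum_range_succ' _ (i + 1)]
    have h2 : ∀ i' ∈ range (i + 1),
        (-1 : ℚ) ^ (i + 1 - (i' + 1)) / δ ^ (i + 1 - (i' + 1) + 1) / v ^ (i' + 1 + 1)
          = (-1) ^ (i - i') / δ ^ (i - i' + 1) / v ^ (i' + 1) * (1 / v) := by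
      intro i' _
      rw [Nat.add_sub_add_right]
      field_simp
      ring
    rw [sum_congr rfl h2, ← sum_mul]
    simp only [Nat.sub_zero, zero_add, pow_one]
    rw [add_mul, add_assoc]
    congr 1
    field_simp
    ring

/-- The structure constants of the multiplication. -/
noncomputable def p1A (j l i i' m : ℕ) : ℚ :=
  if j = l then (if m = l ∧ i' = i + 1 then 1 else 0)
  else (if m = l then (if i' ≤ i then (-1) ^ (i - i') / ((j : ℚ) - l) ^ (i - i' + 1) else 0)
    else if m = j then (if i' = 0 then (-1) ^ (i + 1) / ((j : ℚ) - l) ^ (i + 1) else 0)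
    else 0)

lemma p1A_expand (K s : ℕ) (u : ℚ) (hu : Good K u) (j l i : ℕ) (hj : j ≤ K) (hl : l ≤ K)
    (hi : i < s) :
    1 / (u + (j : ℚ)) * (1 / (u + (l : ℚ)) ^ (i + 1)) =
      ∑ m ∈ range (K + 1), ∑ i' ∈ range (s + 1), p1A j l i i' m / (u + (m : ℚ)) ^ (i' + 1) := by
  have huj := hu j hj
  have hul := hu l hl
  have hjm : j ∈ range (K + 1) := mem_range.2 (by omega)
  have hlm : l ∈ range (K + 1) := mem_range.2 (by omega)
  by_cases hjl : j = l
  · subst hjl
    rw [sum_eq_single_of_mem j hjm, sum_eq_single_of_mem (i + 1) (mem_range.2 (by omega))]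
    · simp only [p1A, if_true, and_self]
      field_simp
      ring
    · intro i' _ hi'
      simp [p1A, hi']
    · intro m _ hm
      apply sum_eq_zero
      intro i' _
      simp [p1A, hm]
  · rw [sum_eq_add_of_mem l j hlm hjm (Ne.symm hjl)]
    · have hδ : (j : ℚ) - l ≠ 0 := by
        rw [sub_ne_zero]
        exact_mod_cast hjl
      have hs1 : u + (j : ℚ) = (u + (l : ℚ)) + ((j : ℚ) - l) := by ring
      have hvδ : (u + (l : ℚ)) + ((j : ℚ) - l) ≠ 0 := by
        rw [← hs1]; exact huj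
      have h1 : ∑ i' ∈ range (s + 1), p1A j l i i' l / (u + (l : ℚ)) ^ (i' + 1)
          = ∑ i' ∈ range (i + 1), (-1) ^ (i - i') / ((j : ℚ) - l) ^ (i - i' + 1)
              / (u + (l : ℚ)) ^ (i' + 1) := by
        symm
        rw [← sum_subset (range_subset_range.2 (show i + 1 ≤ s + 1 by omega))]
        · apply sum_congr rfl
          intro i' hi'
          have : i' ≤ i := by have := mem_range.1 hi'; omega
          simp [p1A, hjl, this]
        · intro i' _ hi'
          have : ¬ i' ≤ i := by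
            intro h; apply hi'; exact mem_range.2 (by omega)
          simp [p1A, hjl, this]
      have h2 : ∑ i' ∈ range (s + 1), p1A j l i i' j / (u + (j : ℚ)) ^ (i' + 1)
          = (-1) ^ (i + 1) / ((j : ℚ) - l) ^ (i + 1) / (u + (j : ℚ)) := by
        rw [sum_eq_single_of_mem 0 (mem_range.2 (by omega))]
        · simp [p1A, hjl]
        · intro i' _ hi'
          simp [p1A, hjl, hi']
      rw [h1, h2, hs1]
      exact p1_pf (u + (l : ℚ)) ((j : ℚ) - l) hul hδ hvδ i
    · intro m _ hm
      apply sum_eq_zero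
      intro i' _
      simp [p1A, hjl, hm.1, hm.2]

lemma p1A_le (j l i i' m : ℕ) : |p1A j l i i' m| ≤ 1 := by
  have key : ∀ e : ℕ, j ≠ l → ∀ f : ℕ, |((-1 : ℚ)) ^ f / ((j : ℚ) - l) ^ e| ≤ 1 := by
    intro e hjl f
    have h1 : (1 : ℚ) ≤ |(j : ℚ) - l| := by
      have h2 : ((j : ℤ) - l) ≠ 0 := by
        intro h
        apply hjl
        omega
      have h3 := Int.one_le_abs h2
      have h4 : ((1 : ℤ) : ℚ) ≤ ((|(j : ℤ) - l| : ℤ) : ℚ) := by exact_mod_cast h3
      simpa using h4
    rw [abs_div, abs_pow, abs_pow, abs_neg, abs_one, one_pow]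
    rw [div_le_one (by positivity)]
    exact one_le_pow₀ h1
  unfold p1A
  split_ifs with h1 h2 h3 h4 h5 h6
  · simp
  · simp
  · exact key _ h1 _
  · simp
  · exact key _ h1 _
  · simp
  · simp

/-- Integrality of one term. -/
lemma p1A_int (K d s : ℕ) (hd : ∀ n, 1 ≤ n → n ≤ K → n ∣ d) (N N' : ℕ) (b c : ℚ)
    (j l i i' m : ℕ) (hj : j ≤ K) (hl : l ≤ K) (hi : i < s)
    (h1 : ∃ z : ℤ, (N : ℚ) * (d : ℚ) ^ (s - 1 - i) * c = z)
    (h2 : ∃ z : ℤ, (N' : ℚ) * b = z) :
    ∃ z : ℤ, ((N * N' : ℕ) : ℚ) * (d : ℚ) ^ (s - i') * (b * c * p1A j l i i' m) = z := by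
  obtain ⟨z1, hz1⟩ := h1
  obtain ⟨z2, hz2⟩ := h2
  have key : ∀ e : ℕ, i' ≤ i + 1 → (∃ z : ℤ, (d : ℚ) ^ (i + 1 - i') * p1A j l i i' m = z) →
      ∃ z : ℤ, ((N * N' : ℕ) : ℚ) * (d : ℚ) ^ (s - i') * (b * c * p1A j l i i' m) = z := by
    intro _ hle ⟨z3, hz3⟩
    refine ⟨z1 * z2 * z3, ?_⟩
    have he : s - i' = (s - 1 - i) + (i + 1 - i') := by omega
    push_cast
    rw [← hz1, ← hz2, ← hz3, he, pow_add]
    ring
  have hfrac : j ≠ l → ∀ e f : ℕ, ∃ z : ℤ,
      (d : ℚ) ^ e * ((-1 : ℚ) ^ f / ((j : ℚ) - l) ^ e) = z := by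
    intro hjl e f
    have h3 : ((j : ℤ) - l) ∣ (d : ℤ) := by
      rcases lt_or_gt_of_ne hjl with h | h
      · have := hd (l - j) (by omega) (by omega)
        have h4 : ((l - j : ℕ) : ℤ) ∣ (d : ℤ) := by exact_mod_cast this
        rw [Nat.cast_sub h.le] at h4
        rw [← neg_dvd]
        simpa using h4
      · have := hd (j - l) (by omega) (by omega)
        have h4 : ((j - l : ℕ) : ℤ) ∣ (d : ℤ) := by exact_mod_cast this
        rw [Nat.cast_sub h.le] at h4
        exact h4
    obtain ⟨q, hq⟩ := h3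
    have hδ : (j : ℚ) - l ≠ 0 := by
      rw [sub_ne_zero]
      exact_mod_cast hjl
    have hq' : (d : ℚ) = ((j : ℚ) - l) * q := by
      have : ((d : ℤ) : ℚ) = ((((j : ℤ) - l) * q : ℤ) : ℚ) := by rw [hq]
      push_cast at this
      exact this
    refine ⟨q ^ e * (-1) ^ f, ?_⟩
    push_cast
    rw [hq', mul_pow]
    field_simp
  by_cases hjl : j = l
  · by_cases hm : m = l ∧ i' = i + 1
    · apply key 0 (by omega)
      refine ⟨1, ?_⟩
      simp [p1A, hjl, hm]
    · refine ⟨0, ?_⟩
      have : p1A j l i i' m = 0 := by simp only [p1A, hjl, if_true, hm, if_false]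
      rw [this]; simp
  · by_cases hml : m = l
    · by_cases hii : i' ≤ i
      · apply key 0 (by omega)
        obtain ⟨z, hz⟩ := hfrac hjl (i - i' + 1) (i - i')
        refine ⟨z, ?_⟩
        have he : i + 1 - i' = i - i' + 1 := by omega
        rw [he]
        simp only [p1A, hjl, hml, hii, if_true, if_false]
        exact hz
      · refine ⟨0, ?_⟩
        have : p1A j l i i' m = 0 := by simp only [p1A, hjl, hml, hii, if_true, if_false]
        rw [this]; simp
    · by_cases hmj : m = j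
      · by_cases hi0 : i' = 0
        · apply key 0 (by omega)
          obtain ⟨z, hz⟩ := hfrac hjl (i + 1) (i + 1)
          refine ⟨z, ?_⟩
          have hA : p1A j l i i' m = (-1) ^ (i + 1) / ((j : ℚ) - l) ^ (i + 1) := by
            unfold p1A
            rw [if_neg hjl, if_neg hml, if_pos hmj, if_pos hi0]
          rw [hA, hi0, Nat.sub_zero]
          exact hz
        · refine ⟨0, ?_⟩
          have : p1A j l i i' m = 0 := by
            unfold p1A
            rw [if_neg hjl, if_neg hml, if_pos hmj, if_neg hi0]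
          rw [this]; simp
      · refine ⟨0, ?_⟩
        have : p1A j l i i' m = 0 := by
          unfold p1A
          rw [if_neg hjl, if_neg hml, if_neg hmj]
        rw [this]; simp

lemma p1_int_sum {ι : Type*} (S : Finset ι) (f : ι → ℚ) (h : ∀ i ∈ S, ∃ z : ℤ, f i = z) :
    ∃ z : ℤ, ∑ i ∈ S, f i = z := by
  classical
  induction S using Finset.induction_on with
  | empty => exact ⟨0, by simp⟩
  | insert a S ha ih =>
    obtain ⟨z1, h1⟩ := h a (mem_insert_self a S)
    obtain ⟨z2, h2⟩ := ih (fun i hi => h i (mem_insert_of_mem hi))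
    exact ⟨z1 + z2, by rw [sum_insert ha, h1, h2]; push_cast; rfl⟩

end BP1

open BP1 in
/-- Block P1. -/
theorem p_P1 : S_P1 := by
  intro K d s hs hd c F β hF
  refine ⟨fun i' m => ∑ j ∈ range (K + 1), ∑ l ∈ range (K + 1), ∑ i ∈ range s,
    β j * c i l * p1A j l i i' m, ?_, ?_, ?_⟩
  · intro u hu
    show sf K β u * F u = _
    rw [hF u hu]
    unfold sf ev
    rw [sum_mul_sum]
    have h1 : ∀ j ∈ range (K + 1), ∀ l ∈ range (K + 1),
        β j / (u + (j : ℚ)) * ∑ i ∈ range s, c i l / (u + (l : ℚ)) ^ (i + 1)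
          = ∑ i ∈ range s, ∑ m ∈ range (K + 1), ∑ i' ∈ range (s + 1),
              β j * c i l * p1A j l i i' m / (u + (m : ℚ)) ^ (i' + 1) := by
      intro j hj l hl
      rw [mul_sum]
      apply sum_congr rfl
      intro i hi
      have h2 := p1A_expand K s u hu j l i (by have := mem_range.1 hj; omega)
        (by have := mem_range.1 hl; omega) (mem_range.1 hi)
      have h3 : β j / (u + (j : ℚ)) * (c i l / (u + (l : ℚ)) ^ (i + 1))
          = β j * c i l * (1 / (u + (j : ℚ)) * (1 / (u + (l : ℚ)) ^ (i + 1))) := by ring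
      rw [h3, h2, mul_sum]
      apply sum_congr rfl
      intro m _
      rw [mul_sum]
      apply sum_congr rfl
      intro i' _
      ring
    rw [sum_congr rfl (fun j hj => sum_congr rfl (fun l hl => h1 j hj l hl))]
    -- move the sums over `m` and `i'` outside
    have h4 : ∀ j ∈ range (K + 1), ∀ l ∈ range (K + 1),
        (∑ i ∈ range s, ∑ m ∈ range (K + 1), ∑ i' ∈ range (s + 1),
              β j * c i l * p1A j l i i' m / (u + (m : ℚ)) ^ (i' + 1))
          = ∑ m ∈ range (K + 1), ∑ i' ∈ range (s + 1), ∑ i ∈ range s,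
              β j * c i l * p1A j l i i' m / (u + (m : ℚ)) ^ (i' + 1) := by
      intro j _ l _
      rw [sum_comm]
      apply sum_congr rfl
      intro m _
      rw [sum_comm]
    rw [sum_congr rfl (fun j hj => sum_congr rfl (fun l hl => h4 j hj l hl))]
    have h5 : ∀ j ∈ range (K + 1),
        (∑ l ∈ range (K + 1), ∑ m ∈ range (K + 1), ∑ i' ∈ range (s + 1), ∑ i ∈ range s,
              β j * c i l * p1A j l i i' m / (u + (m : ℚ)) ^ (i' + 1))
          = ∑ m ∈ range (K + 1), ∑ i' ∈ range (s + 1), ∑ l ∈ range (K + 1), ∑ i ∈ range s,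
              β j * c i l * p1A j l i i' m / (u + (m : ℚ)) ^ (i' + 1) := by
      intro j _
      rw [sum_comm]
      apply sum_congr rfl
      intro m _
      rw [sum_comm]
    rw [sum_congr rfl h5, sum_comm]
    apply sum_congr rfl
    intro m _
    rw [sum_comm]
    apply sum_congr rfl
    intro i' _
    simp only [sum_div]
  · intro N N' hN hN' i' _ m _
    have h1 : ((N * N' : ℕ) : ℚ) * (d : ℚ) ^ (s - i') *
        (∑ j ∈ range (K + 1), ∑ l ∈ range (K + 1), ∑ i ∈ range s, β j * c i l * p1A j l i i' m)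
        = ∑ j ∈ range (K + 1), ∑ l ∈ range (K + 1), ∑ i ∈ range s,
          ((N * N' : ℕ) : ℚ) * (d : ℚ) ^ (s - i') * (β j * c i l * p1A j l i i' m) := by
      simp only [mul_sum]
    show ∃ z : ℤ, ((N * N' : ℕ) : ℚ) * (d : ℚ) ^ (s - i') *
        (∑ j ∈ range (K + 1), ∑ l ∈ range (K + 1), ∑ i ∈ range s,
          β j * c i l * p1A j l i i' m) = z
    rw [h1]
    apply p1_int_sum
    intro j hj
    apply p1_int_sum
    intro l hl
    apply p1_int_sum
    intro i hi
    have hj' : j ≤ K := by have := mem_range.1 hj; omega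
    have hl' : l ≤ K := by have := mem_range.1 hl; omega
    exact p1A_int K d s hd N N' (β j) (c i l) j l i i' m hj' hl' (mem_range.1 hi)
      (hN i (mem_range.1 hi) l hl') (hN' j hj')
  · intro B B' hB hB' i' _ m _
    have hB0 : 0 ≤ B := le_trans (abs_nonneg _) (hB 0 (by omega) 0 (by omega))
    have hA : ∀ j l i, |(p1A j l i i' m : ℝ)| ≤ 1 := by
      intro j l i
      have := p1A_le j l i i' m
      have h2 : ((|p1A j l i i' m| : ℚ) : ℝ) ≤ ((1 : ℚ) : ℝ) := by exact_mod_cast this
      simpa using h2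
    show |((∑ j ∈ range (K + 1), ∑ l ∈ range (K + 1), ∑ i ∈ range s,
          β j * c i l * p1A j l i i' m : ℚ) : ℝ)| ≤ _
    push_cast
    calc |∑ j ∈ range (K + 1), ∑ l ∈ range (K + 1), ∑ i ∈ range s,
          (β j : ℝ) * c i l * p1A j l i i' m|
        ≤ ∑ j ∈ range (K + 1), |∑ l ∈ range (K + 1), ∑ i ∈ range s,
          (β j : ℝ) * c i l * p1A j l i i' m| := abs_sum_le_sum_abs _ _
      _ ≤ ∑ j ∈ range (K + 1), ∑ l ∈ range (K + 1), |∑ i ∈ range s,
          (β j : ℝ) * c i l * p1A j l i i' m| :=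
            sum_le_sum (fun j _ => abs_sum_le_sum_abs _ _)
      _ ≤ ∑ j ∈ range (K + 1), ∑ l ∈ range (K + 1), ∑ i ∈ range s,
          |(β j : ℝ) * c i l * p1A j l i i' m| :=
            sum_le_sum (fun j _ => sum_le_sum (fun l _ => abs_sum_le_sum_abs _ _))
      _ ≤ ∑ j ∈ range (K + 1), ∑ _l ∈ range (K + 1), ∑ _i ∈ range s, |(β j : ℝ)| * B := by
            apply sum_le_sum
            intro j _
            apply sum_le_sum
            intro l hl
            apply sum_le_sum
            intro i hi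
            rw [abs_mul, abs_mul]
            have h1 := hB i (mem_range.1 hi) l (by have := mem_range.1 hl; omega)
            have h2 := hA j l i
            calc |(β j : ℝ)| * |(c i l : ℝ)| * |(p1A j l i i' m : ℝ)|
                ≤ |(β j : ℝ)| * B * 1 := by gcongr
              _ = _ := by ring
      _ = ((s : ℝ) * (K + 1)) * (B * ∑ j ∈ range (K + 1), |(β j : ℝ)|) := by
            simp only [sum_const, card_range, nsmul_eq_mul]
            rw [← mul_sum, ← mul_sum, ← sum_mul]
            push_cast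
            ring
      _ ≤ ((s + 1) * (K + 1) : ℝ) * (B * B') := by
            have hS : 0 ≤ ∑ j ∈ range (K + 1), |(β j : ℝ)| := sum_nonneg (fun _ _ => abs_nonneg _)
            gcongr
            linarith

end Pool.Agent.Work.MP_03df5c_pb
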