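import Pool.Agent.Work.MP_03df5c_pb.Interface1

/-!
# P2: uniqueness of partial fraction expansions up to a constant
-/

open Finset Filter Topology

namespace Pool.Agent.Work.MP_03df5c_pb

namespace BP2

theorem ev_sub (K s : ℕ) (c c' : ℕ → ℕ → ℚ) (u : ℚ) :
    ev K s (fun i j => c i j - c' i j) u = ev K s c u - ev K s c' u := by
  unfold ev
  rw [← Finset.sum_sub_distrib]
  refine Finset.sum_congr rfl (fun j _ => ?_)
  rw [← Finset.sum_sub_distrib]
  refine Finset.sum_congr rfl (fun i _ => ?_)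
  rw [sub_div]

theorem zero_of (K s : ℕ) (g : ℕ → ℕ → ℚ) (C0 : ℚ) (h : ∀ u, Good K u → ev K s g u = C0) :
    ∀ i < s, ∀ j ≤ K, g i j = 0 := by
  intro i hi j hj
  by_contra hne
  obtain ⟨i0, hi0, hmax⟩ : ∃ i0 ∈ (range s).filter (fun i => g i j ≠ 0),
      ∀ i ∈ (range s).filter (fun i => g i j ≠ 0), id i ≤ id i0 :=
    Finset.exists_max_image _ id ⟨i, by simp [hi, hne]⟩
  rw [Finset.mem_filter, Finset.mem_range] at hi0
  have hz : ∀ i, i < s → i0 < i → g i j = 0 := by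
    intro i hi hlt
    by_contra hn
    have := hmax i (by rw [Finset.mem_filter, Finset.mem_range]; exact ⟨hi, hn⟩)
    simp only [id] at this
    omega
  let ψ : ℚ → ℚ := fun u => (∑ j' ∈ (range (K + 1)).erase j,
      (u + (j : ℚ)) ^ (i0 + 1) * ∑ i ∈ range s, g i j' / (u + (j' : ℚ)) ^ (i + 1))
    + (∑ i ∈ range (i0 + 1), g i j * (u + (j : ℚ)) ^ (i0 - i)) - (u + (j : ℚ)) ^ (i0 + 1) * C0
  have h0 : ∀ u : ℚ, |u + (j : ℚ)| < 1 → u ≠ -(j : ℚ) → ψ u = 0 := by
    intro u hu hu'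
    have huj : u + (j : ℚ) ≠ 0 := fun e => hu' (by linarith)
    have hg : Good K u := by
      intro j' _ e
      have e1 : u = -(j' : ℚ) := by linarith
      have e2 : |((j : ℤ) - (j' : ℤ) : ℤ)| < 1 := by
        have : (((|((j : ℤ) - (j' : ℤ) : ℤ)| : ℤ)) : ℚ) < 1 := by
          push_cast
          rw [e1] at hu
          rwa [show -(j' : ℚ) + (j : ℚ) = (j : ℚ) - (j' : ℚ) by ring] at hu
        exact_mod_cast this
      have e3 : (j : ℤ) - (j' : ℤ) = 0 := Int.abs_lt_one_iff.1 e2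
      have e4 : j = j' := by omega
      apply huj
      rw [e4]
      exact e
    have h1 := h u hg
    unfold ev at h1
    rw [← Finset.sum_erase_add _ _ (Finset.mem_range.2 (Nat.lt_succ_of_le hj))] at h1
    have h2 : (u + (j : ℚ)) ^ (i0 + 1) * ∑ i ∈ range s, g i j / (u + (j : ℚ)) ^ (i + 1) =
        ∑ i ∈ range (i0 + 1), g i j * (u + (j : ℚ)) ^ (i0 - i) := by
      rw [Finset.mul_sum]
      symm
      rw [← Finset.sum_subset (Finset.range_subset_range.2 (by omega : i0 + 1 ≤ s))]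
      · refine Finset.sum_congr rfl (fun i hi => ?_)
        have hi' : i ≤ i0 := Nat.lt_succ_iff.1 (Finset.mem_range.1 hi)
        have e1 : (u + (j : ℚ)) ^ (i0 + 1) = (u + (j : ℚ)) ^ (i0 - i) * (u + (j : ℚ)) ^ (i + 1) := by
          rw [← pow_add]
          congr 1
          omega
        rw [e1]
        field_simp
      · intro i hi hi'
        have h7 : ¬ i < i0 + 1 := fun hh => hi' (Finset.mem_range.2 hh)
        rw [hz i (Finset.mem_range.1 hi) (by omega)]
        simp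
    change (∑ j' ∈ (range (K + 1)).erase j,
      (u + (j : ℚ)) ^ (i0 + 1) * ∑ i ∈ range s, g i j' / (u + (j' : ℚ)) ^ (i + 1))
      + (∑ i ∈ range (i0 + 1), g i j * (u + (j : ℚ)) ^ (i0 - i)) - (u + (j : ℚ)) ^ (i0 + 1) * C0 = 0
    rw [← h2, ← h1, ← Finset.mul_sum]
    ring
  have hψ : ψ (-(j : ℚ)) = g i0 j := by
    change (∑ j' ∈ (range (K + 1)).erase j,
      (-(j : ℚ) + (j : ℚ)) ^ (i0 + 1) * ∑ i ∈ range s, g i j' / (-(j : ℚ) + (j' : ℚ)) ^ (i + 1))
      + (∑ i ∈ range (i0 + 1), g i j * (-(j : ℚ) + (j : ℚ)) ^ (i0 - i)) -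
        (-(j : ℚ) + (j : ℚ)) ^ (i0 + 1) * C0 = g i0 j
    rw [neg_add_cancel, zero_pow (by omega : i0 + 1 ≠ 0)]
    simp only [zero_mul, Finset.sum_const_zero, zero_add, sub_zero]
    rw [Finset.sum_range_succ, Nat.sub_self, pow_zero, mul_one]
    rw [Finset.sum_eq_zero, zero_add]
    intro i hi
    rw [zero_pow (by have := Finset.mem_range.1 hi; omega), mul_zero]
  have hc : ContinuousAt ψ (-(j : ℚ)) := by
    have h1 : ContinuousAt (fun u : ℚ => u + (j : ℚ)) (-(j : ℚ)) := by fun_prop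
    refine ContinuousAt.sub (ContinuousAt.add ?_ ?_) ?_
    · refine tendsto_finsetSum _ (fun j' hj' => ?_)
      refine ContinuousAt.mul (h1.pow _) ?_
      refine tendsto_finsetSum _ (fun i _ => ?_)
      have h2 : ContinuousAt (fun u : ℚ => u + (j' : ℚ)) (-(j : ℚ)) := by fun_prop
      refine ContinuousAt.div continuousAt_const (h2.pow _) (pow_ne_zero _ ?_)
      intro e
      apply (Finset.mem_erase.1 hj').1
      have : (j' : ℚ) = (j : ℚ) := by linarith
      exact_mod_cast this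
    · refine tendsto_finsetSum _ (fun i _ => ?_)
      exact ContinuousAt.mul continuousAt_const (h1.pow _)
    · exact ContinuousAt.mul (h1.pow _) continuousAt_const
  have h2 : Tendsto ψ (𝓝[≠] (-(j : ℚ))) (𝓝 (ψ (-(j : ℚ)))) := hc.tendsto.mono_left nhdsWithin_le_nhds
  have h3 : Tendsto ψ (𝓝[≠] (-(j : ℚ))) (𝓝 0) := by
    refine Tendsto.congr' ?_ tendsto_const_nhds
    have h4 : ∀ᶠ u in 𝓝 (-(j : ℚ)), |u + (j : ℚ)| < 1 := by
      have h5 : ContinuousAt (fun u : ℚ => |u + (j : ℚ)|) (-(j : ℚ)) := by fun_prop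
      have h6 : |-(j : ℚ) + (j : ℚ)| < 1 := by rw [neg_add_cancel]; simp
      exact h5.eventually (gt_mem_nhds h6)
    filter_upwards [nhdsWithin_le_nhds h4, self_mem_nhdsWithin] with u h5 h6
    exact (h0 u h5 h6).symm
  have h4 := tendsto_nhds_unique h2 h3
  rw [hψ] at h4
  exact hi0.2 h4

end BP2

theorem p_P2 : S_P2 := by
  intro K s c c' C0 h i hi j hj
  have := BP2.zero_of K s (fun i j => c i j - c' i j) C0 (fun u hu => by
    rw [BP2.ev_sub, h u hu]
    ring) i hi j hj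
  exact sub_eq_zero.1 this

end Pool.Agent.Work.MP_03df5c_pb
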