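import Pool.Agent.Work.MP_03df5c_pb.Interface1

/-!
# Block P4 (typed by helper83): size of the coefficients of a block
-/

open Finset Filter Topology

namespace Pool.Agent.Work.MP_03df5c_pb

theorem p_P4 : S_P4 := by
  intro K θ h0 h1 j hj
  obtain ⟨M, rfl⟩ : ∃ M, K = M + j := ⟨K - j, by omega⟩
  have hM : ∏ m ∈ range M, ((M : ℚ) - (m : ℚ)) = (M.factorial : ℚ) := by
    have h2 := Nat.descFactorial_eq_prod_range M M
    rw [Nat.descFactorial_self] at h2
    rw [h2, Nat.cast_prod]
    apply prod_congr rfl
    intro m hm
    rw [Nat.cast_sub (mem_range.1 hm).le]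
  have hJ : ∏ n ∈ range j, ((n : ℚ) + 1) = (j.factorial : ℚ) := by
    rw [← Finset.prod_range_add_one_eq_factorial, Nat.cast_prod]
    apply prod_congr rfl
    intro n _
    push_cast
    ring
  have hb : |bin (((M + j : ℕ) : ℚ) - (j : ℚ) - θ) (M + j)| ≤
      (M.factorial : ℚ) * (j.factorial : ℚ) / ((M + j).factorial : ℚ) := by
    unfold bin
    rw [abs_div, Nat.abs_cast, Finset.abs_prod, Finset.prod_range_add]
    apply div_le_div_of_nonneg_right _ (by positivity)
    apply mul_le_mul
    · rw [← hM]
      apply Finset.prod_le_prod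
      · intro m _
        exact abs_nonneg _
      · intro m hm
        have h3 : ((m : ℚ) + 1) ≤ M := by exact_mod_cast mem_range.1 hm
        rw [abs_le]
        push_cast
        constructor
        · linarith
        · linarith
    · rw [← hJ]
      apply Finset.prod_le_prod
      · intro m _
        exact abs_nonneg _
      · intro m _
        have h3 : (0 : ℚ) ≤ m := by positivity
        rw [abs_le]
        push_cast
        constructor
        · linarith
        · linarith
    · exact prod_nonneg fun _ _ => abs_nonneg _
    · positivity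
  have hc : ((M + j).choose j : ℚ) * ((M.factorial : ℚ) * (j.factorial : ℚ) /
      ((M + j).factorial : ℚ)) = 1 := by
    have h4 := Nat.choose_mul_factorial_mul_factorial (show j ≤ M + j by omega)
    rw [Nat.add_sub_cancel] at h4
    have h5 : (((M + j).choose j : ℕ) : ℚ) * (j.factorial : ℚ) * (M.factorial : ℚ) =
        ((M + j).factorial : ℚ) := by exact_mod_cast h4
    have h6 : ((M + j).factorial : ℚ) ≠ 0 := by exact_mod_cast Nat.factorial_ne_zero _
    field_simp
    linarith
  unfold bet
  rw [abs_mul, abs_mul, abs_pow, abs_neg, abs_one, one_pow, one_mul, Nat.abs_cast, ← hc]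
  exact mul_le_mul_of_nonneg_left hb (by positivity)

end Pool.Agent.Work.MP_03df5c_pb
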