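import Pool.Agent.Work.MP_03df5c_pb.Interface1

/-!
# Block P5: denominators of the coefficients of a block
-/

open Finset Filter Topology

namespace Pool.Agent.Work.MP_03df5c_pb

namespace BP5

/-- `K!` divides the product of `K` consecutive integers. -/
theorem fact_dvd (K : ℕ) (x : ℤ) : (K.factorial : ℤ) ∣ ∏ m ∈ range K, (x - (m : ℤ)) := by
  have h := Nat.factorial_coe_dvd_prod K (x - (K : ℤ) + 1)
  have e : ∏ i ∈ range K, (x - (K : ℤ) + 1 + (i : ℤ)) = ∏ m ∈ range K, (x - (m : ℤ)) := by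
    rw [← Finset.prod_range_reflect]
    apply Finset.prod_congr rfl
    intro i hi
    rw [mem_range] at hi
    have h1 : ((K - 1 - i : ℕ) : ℤ) = (K : ℤ) - 1 - (i : ℤ) := by omega
    rw [h1]
    ring
  rwa [e] at h

/-- a number coprime to `p` which divides `K!` divides the product. -/
theorem dvd_prod (q M : ℤ) (hq : IsCoprime q M) (K : ℕ) (hM : M ∣ (K.factorial : ℤ)) (b : ℤ) :
    M ∣ ∏ m ∈ range K, (b - (m : ℤ) * q) := by
  obtain ⟨w, v, hw⟩ := hq
  have hc : IsCoprime M (w ^ K) := by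
    apply IsCoprime.pow_right
    exact ⟨v, q, by linarith [mul_comm q w]⟩
  have h1 : M ∣ w ^ K * ∏ m ∈ range K, (b - (m : ℤ) * q) := by
    have h2 : M ∣ ∏ m ∈ range K, (w * b - (m : ℤ)) := hM.trans (fact_dvd K (w * b))
    have h3 : w ^ K * ∏ m ∈ range K, (b - (m : ℤ) * q) =
        ∏ m ∈ range K, (w * (b - (m : ℤ) * q)) := by
      rw [Finset.prod_mul_distrib, Finset.prod_const, card_range]
    rw [h3]
    have h4 : (∏ m ∈ range K, (w * (b - (m : ℤ) * q))) ≡ (∏ m ∈ range K, (w * b - (m : ℤ)))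
        [ZMOD M] := by
      apply Int.ModEq.prod
      intro m _
      rw [Int.modEq_iff_dvd]
      refine ⟨-(m : ℤ) * v, ?_⟩
      have : w * q = 1 - v * M := by linarith
      calc w * b - (m : ℤ) - w * (b - (m : ℤ) * q) = (m : ℤ) * (w * q) - m := by ring
        _ = M * (-(m : ℤ) * v) := by rw [this]; ring
    exact (Int.modEq_zero_iff_dvd).1 (h4.trans ((Int.modEq_zero_iff_dvd).2 h2))
  exact hc.dvd_of_dvd_mul_left h1

end BP5

open BP5 in
theorem p_P5 : S_P5 := by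
  intro p hp r K b
  have hpp : p.Prime := hp.out
  obtain ⟨M, hM⟩ : p ^ (padicValNat p K.factorial) ∣ K.factorial := pow_padicValNat_dvd
  set v := padicValNat p K.factorial with hv
  have hvK : v ≤ K := padicValNat_factorial_le p K
  have hf0 : K.factorial ≠ 0 := Nat.factorial_ne_zero K
  have hM0 : M ≠ 0 := by
    rintro rfl
    simp at hM
    exact hf0 hM
  have hpM : ¬ p ∣ M := by
    intro hd
    have h1 : p ^ (v + 1) ∣ K.factorial := by
      rw [hM, pow_succ]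
      exact Nat.mul_dvd_mul_left _ hd
    have h2 := (padicValNat_dvd_iff_le hf0).1 h1
    omega
  have hcop : IsCoprime ((p : ℤ) ^ r) (M : ℤ) := by
    apply IsCoprime.pow_left
    rw [Nat.isCoprime_iff_coprime]
    exact (Nat.Prime.coprime_iff_not_dvd hpp).2 hpM
  have hMf : (M : ℤ) ∣ (K.factorial : ℤ) := by
    rw [hM]
    push_cast
    exact Dvd.intro_left _ rfl
  obtain ⟨z, hz⟩ := dvd_prod ((p : ℤ) ^ r) M hcop K hMf b
  refine ⟨(p : ℤ) ^ (K - v) * z, ?_⟩
  have hp0 : (p : ℚ) ≠ 0 := by exact_mod_cast hpp.ne_zero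
  have hMq : (M : ℚ) ≠ 0 := by exact_mod_cast hM0
  have hprod : (p : ℚ) ^ (r * K) * ∏ m ∈ range K, ((b : ℚ) / (p : ℚ) ^ r - (m : ℚ)) =
      ((∏ m ∈ range K, (b - (m : ℤ) * (p : ℤ) ^ r) : ℤ) : ℚ) := by
    rw [pow_mul, ← card_range K, ← Finset.prod_const, card_range, ← Finset.prod_mul_distrib]
    push_cast
    apply Finset.prod_congr rfl
    intro m _
    have : (p : ℚ) ^ r ≠ 0 := pow_ne_zero _ hp0
    field_simp
  have hKf : (K.factorial : ℚ) = (p : ℚ) ^ v * (M : ℚ) := by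
    rw [hM]
    push_cast
    rfl
  have hpK : (p : ℚ) ^ K = (p : ℚ) ^ (K - v) * (p : ℚ) ^ v := by
    rw [← pow_add]
    congr 1
    omega
  unfold bin
  rw [hKf, add_mul, one_mul, pow_add]
  have e : (p : ℚ) ^ (r * K) * (p : ℚ) ^ K *
      ((∏ m ∈ range K, ((b : ℚ) / (p : ℚ) ^ r - (m : ℚ))) / ((p : ℚ) ^ v * (M : ℚ))) =
      (p : ℚ) ^ K * ((p : ℚ) ^ (r * K) * (∏ m ∈ range K, ((b : ℚ) / (p : ℚ) ^ r - (m : ℚ)))) /
        ((p : ℚ) ^ v * (M : ℚ)) := by ring
  rw [e, hprod, hz, hpK]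
  push_cast
  have hv0 : (p : ℚ) ^ v ≠ 0 := pow_ne_zero _ hp0
  field_simp

end Pool.Agent.Work.MP_03df5c_pb
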