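import Pool.Agent.Work.MP_03df5c_pb.Interface1

/-!
# P6: the Leibniz triangle
-/

namespace Pool.Agent.Work.MP_03df5c_pb

namespace BP6

/-- one step of the Leibniz triangle -/
theorem step (N m : ℕ) (h : m ≤ N) :
    (((N + 2 : ℕ) * (N + 1).choose (m + 1) : ℕ) : ℚ)⁻¹ =
      (((N + 1 : ℕ) * N.choose m : ℕ) : ℚ)⁻¹ - (((N + 2 : ℕ) * (N + 1).choose m : ℕ) : ℚ)⁻¹ := by
  have hA : 0 < N.choose m := Nat.choose_pos h
  have h1 : (N + 1) * N.choose m = (N + 1).choose (m + 1) * (m + 1) := Nat.add_one_mul_choose_eq N m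
  have h2 : N.choose m * (N + 1) = (N + 1).choose m * (N + 1 - m) := Nat.choose_mul_succ_eq N m
  obtain ⟨d, rfl⟩ : ∃ d, N = m + d := ⟨N - m, by omega⟩
  have e0 : m + d + 1 - m = d + 1 := by omega
  rw [e0] at h2
  have q1 : ((m + d + 1 : ℕ) : ℚ) * ((m + d).choose m : ℚ) =
      ((m + d + 1).choose (m + 1) : ℚ) * ((m : ℚ) + 1) := by
    have := congrArg (fun x : ℕ => (x : ℚ)) h1
    push_cast at this ⊢
    linarith
  have q2 : ((m + d).choose m : ℚ) * ((m + d + 1 : ℕ) : ℚ) =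
      ((m + d + 1).choose m : ℚ) * ((d : ℚ) + 1) := by
    have := congrArg (fun x : ℕ => (x : ℚ)) h2
    push_cast at this ⊢
    linarith
  have hA' : ((m + d).choose m : ℚ) ≠ 0 := by exact_mod_cast hA.ne'
  have hm : ((m : ℚ) + 1) ≠ 0 := by positivity
  have hd : ((d : ℚ) + 1) ≠ 0 := by positivity
  have e1 : ((m + d + 1).choose (m + 1) : ℚ) =
      ((m : ℚ) + d + 1) * ((m + d).choose m : ℚ) / ((m : ℚ) + 1) := by
    rw [eq_div_iff hm, ← q1]
    push_cast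
    ring
  have e2 : ((m + d + 1).choose m : ℚ) =
      ((m : ℚ) + d + 1) * ((m + d).choose m : ℚ) / ((d : ℚ) + 1) := by
    rw [eq_div_iff hd, ← q2]
    push_cast
    ring
  have h5 : ((m : ℚ) + d + 1) ≠ 0 := by positivity
  have h6 : ((m : ℚ) + d + 2) ≠ 0 := by positivity
  push_cast
  rw [e1, e2]
  field_simp
  ring

/-- the entries of the Leibniz triangle times the lcm are integers -/
theorem main (K : ℕ) : ∀ m n : ℕ, m ≤ n → n < K →
    ∃ z : ℤ, (Nat.lcmUpto K : ℚ) * (((n + 1) * n.choose m : ℕ) : ℚ)⁻¹ = z := by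
  intro m
  induction m with
  | zero =>
    intro n _ hn
    have hd : n + 1 ∣ Nat.lcmUpto K := by
      unfold Nat.lcmUpto
      exact Finset.dvd_lcm (f := id) (Finset.mem_Icc.2 ⟨by omega, by omega⟩)
    obtain ⟨c, hc⟩ := hd
    refine ⟨c, ?_⟩
    rw [Nat.choose_zero_right, mul_one, hc]
    have : ((n + 1 : ℕ) : ℚ) ≠ 0 := by positivity
    push_cast
    push_cast at this
    field_simp
  | succ m ih =>
    intro n hm hn
    obtain ⟨N, rfl⟩ : ∃ N, n = N + 1 := ⟨n - 1, by omega⟩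
    obtain ⟨z1, h1⟩ := ih N (by omega) (by omega)
    obtain ⟨z2, h2⟩ := ih (N + 1) (by omega) hn
    refine ⟨z1 - z2, ?_⟩
    have h4 : (((N + 1 + 1) * (N + 1).choose (m + 1) : ℕ) : ℚ)⁻¹ =
        (((N + 1) * N.choose m : ℕ) : ℚ)⁻¹ - (((N + 1 + 1) * (N + 1).choose m : ℕ) : ℚ)⁻¹ :=
      step N m (by omega)
    rw [h4, mul_sub, h1, h2]
    push_cast
    ring

end BP6

theorem p_P6 : S_P6 := by
  intro K m h
  obtain ⟨n, rfl⟩ : ∃ n, K = n + 1 := ⟨K - 1, by omega⟩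
  rw [Nat.add_sub_cancel]
  obtain ⟨z, hz⟩ := BP6.main (n + 1) m n (by omega) (by omega)
  have hpos : 0 < (n + 1) * n.choose m := Nat.mul_pos (by omega) (Nat.choose_pos (by omega))
  have h1 : (((n + 1) * n.choose m : ℕ) : ℚ) ≠ 0 := by exact_mod_cast hpos.ne'
  rw [← div_eq_mul_inv, div_eq_iff h1] at hz
  have h2 : (Nat.lcmUpto (n + 1) : ℤ) = z * (((n + 1) * n.choose m : ℕ) : ℤ) := by exact_mod_cast hz
  have h3 : (((n + 1) * n.choose m : ℕ) : ℤ) ∣ (Nat.lcmUpto (n + 1) : ℤ) := ⟨z, by rw [h2]; ring⟩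
  exact_mod_cast h3

end Pool.Agent.Work.MP_03df5c_pb
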