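import Pool.Agent.Work.MP_03df5c_pb.Interface1

/-!
# P7: denominators after division by a linear factor
-/

open Finset Filter Topology

namespace Pool.Agent.Work.MP_03df5c_pb

namespace BP7

theorem bin_mul (y : ℚ) (m n : ℕ) : bin y (m + (n + 1)) * ((m + (n + 1)).factorial : ℚ) =
    (bin y m * (m.factorial : ℚ)) * (y - (m : ℚ)) * (bin (y - (m : ℚ) - 1) n * (n.factorial : ℚ)) := by
  unfold bin
  rw [div_mul_cancel₀ _ (by exact_mod_cast Nat.factorial_ne_zero _),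
    div_mul_cancel₀ _ (by exact_mod_cast Nat.factorial_ne_zero _),
    div_mul_cancel₀ _ (by exact_mod_cast Nat.factorial_ne_zero _), Finset.prod_range_add,
    Finset.prod_range_succ']
  have e : ∀ l : ℕ, y - ((m + (l + 1) : ℕ) : ℚ) = y - (m : ℚ) - 1 - (l : ℚ) := by
    intro l
    push_cast
    ring
  have e' : ∏ l ∈ range n, (y - ((m + (l + 1) : ℕ) : ℚ)) = ∏ l ∈ range n, (y - (m : ℚ) - 1 - (l : ℚ)) :=
    Finset.prod_congr rfl (fun l _ => e l)
  rw [e', add_zero]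
  ring

end BP7

theorem p_P7 (h5 : S_P5) (h6 : S_P6) : S_P7 := by
  intro p hp r a K h j hr ha h1 hK hj
  by_cases h0 : th p r a - (h : ℚ) + (j : ℚ) = 0
  · exact ⟨0, by rw [h0]; simp⟩
  obtain ⟨n, rfl⟩ : ∃ n, h = n + 1 := ⟨h - 1, by omega⟩
  obtain ⟨m, rfl⟩ : ∃ m, K = m + (n + 1) := ⟨K - (n + 1), by omega⟩
  have hp0 : (p : ℚ) ≠ 0 := by exact_mod_cast hp.out.ne_zero
  have hpr : (p : ℚ) ^ r ≠ 0 := pow_ne_zero _ hp0
  set y : ℚ := ((m + (n + 1) : ℕ) : ℚ) - (j : ℚ) - th p r a with hy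
  have hym : th p r a - ((n + 1 : ℕ) : ℚ) + (j : ℚ) = -(y - (m : ℚ)) := by
    rw [hy]
    push_cast
    ring
  have hym0 : y - (m : ℚ) ≠ 0 := by
    intro e
    apply h0
    rw [hym, e, neg_zero]
  obtain ⟨z1, hz1⟩ := h5 p r m ((((m + (n + 1) : ℕ) : ℤ) - (j : ℤ)) * (p : ℤ) ^ r - (a : ℤ))
  obtain ⟨z2, hz2⟩ := h5 p r n ((((m + (n + 1) : ℕ) : ℤ) - (j : ℤ) - (m : ℤ) - 1) * (p : ℤ) ^ r - (a : ℤ))
  have e1 : (((((m + (n + 1) : ℕ) : ℤ) - (j : ℤ)) * (p : ℤ) ^ r - (a : ℤ) : ℤ) : ℚ) / (p : ℚ) ^ r = y := by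
    rw [hy, th]
    push_cast
    field_simp
  have e2 : (((((m + (n + 1) : ℕ) : ℤ) - (j : ℤ) - (m : ℤ) - 1) * (p : ℤ) ^ r - (a : ℤ) : ℤ) : ℚ) / (p : ℚ) ^ r =
      y - (m : ℚ) - 1 := by
    rw [hy, th]
    push_cast
    field_simp
    ring
  rw [e1] at hz1
  rw [e2] at hz2
  obtain ⟨q, hq⟩ := h6 (m + (n + 1)) m (by omega)
  have hq' : (dd (m + (n + 1)) : ℚ) * ((m.factorial : ℚ) * (n.factorial : ℚ)) =
      (q : ℚ) * ((m + (n + 1)).factorial : ℚ) := by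
    have e3 : (m + (n + 1)) - 1 = m + n := by omega
    rw [e3] at hq
    have e4 : (m + n).choose m * m.factorial * n.factorial = (m + n).factorial := by
      rw [Nat.choose_symm_add]
      exact Nat.add_choose_mul_factorial_mul_factorial m n
    have e5 : (m + (n + 1)).factorial = (m + (n + 1)) * (m + n).factorial := by
      rw [show m + (n + 1) = (m + n) + 1 by ring, Nat.factorial_succ]
    have e6 : dd (m + (n + 1)) * (m.factorial * n.factorial) = q * (m + (n + 1)).factorial := by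
      rw [dd, hq, e5, ← e4]
      ring
    exact_mod_cast e6
  have hfm : ((m + (n + 1)).factorial : ℚ) ≠ 0 := by exact_mod_cast Nat.factorial_ne_zero _
  have hb := BP7.bin_mul y m n
  refine ⟨(-1) ^ j * ((m + (n + 1)).choose j : ℤ) * (-1) * (q : ℤ) * z1 * z2 * (p : ℤ) ^ (r + 1), ?_⟩
  have hb' : bin y (m + (n + 1)) = (bin y m * (m.factorial : ℚ)) * (y - (m : ℚ)) *
      (bin (y - (m : ℚ) - 1) n * (n.factorial : ℚ)) / ((m + (n + 1)).factorial : ℚ) := by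
    rw [← hb]
    field_simp
  unfold bet
  rw [hym]
  change _ * ((-1) ^ j * ((m + (n + 1)).choose j : ℚ) * bin y (m + (n + 1)) / -(y - (m : ℚ))) = _
  rw [hb']
  push_cast
  rw [← hz1, ← hz2]
  have e7 : (p : ℚ) ^ ((r + 1) * (m + (n + 1))) = (p : ℚ) ^ ((r + 1) * m) * (p : ℚ) ^ ((r + 1) * n) * (p : ℚ) ^ (r + 1) := by
    rw [← pow_add, ← pow_add]
    congr 1
    ring
  rw [e7]
  have e8 : (dd (m + (n + 1)) : ℚ) * ((m.factorial : ℚ) * (n.factorial : ℚ)) / ((m + (n + 1)).factorial : ℚ) = (q : ℚ) := by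
    rw [hq']
    field_simp
  calc _ = (-1) ^ j * ((m + (n + 1)).choose j : ℚ) * (-1) *
        ((dd (m + (n + 1)) : ℚ) * ((m.factorial : ℚ) * (n.factorial : ℚ)) / ((m + (n + 1)).factorial : ℚ)) *
        ((p : ℚ) ^ ((r + 1) * m) * bin y m) * ((p : ℚ) ^ ((r + 1) * n) * bin (y - (m : ℚ) - 1) n) *
        (p : ℚ) ^ (r + 1) := by
        field_simp
    _ = _ := by rw [e8]

end Pool.Agent.Work.MP_03df5c_pb
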