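import Pool.Agent.Work.MP_03df5c_pb.Interface1

/-!
# Block P9: the value of a principal part at a zero
-/

open Finset

namespace Pool.Agent.Work.MP_03df5c_pb

namespace BP9

/-- multiplication of a principal part by `y - x` -/
theorem key (m : ℕ) (a : ℕ → ℚ) {x : ℚ} (hx : x ≠ 0) (y : ℚ) :
    (y - x) * ∑ i ∈ range (m + 1), a i / x ^ (i + 1) =
      ∑ i ∈ range (m + 1), (y * a i - (if i + 1 < m + 1 then a (i + 1) else 0)) / x ^ (i + 1) - a 0 := by
  have h1 : ∑ i ∈ range (m + 1), (if i + 1 < m + 1 then a (i + 1) else 0) / x ^ (i + 1) =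
      ∑ i ∈ range m, a (i + 1) / x ^ (i + 1) := by
    rw [Finset.sum_range_succ, if_neg (lt_irrefl _), zero_div, add_zero]
    apply Finset.sum_congr rfl
    intro i hi
    rw [if_pos (by have := Finset.mem_range.1 hi; omega)]
  have h2 : ∑ i ∈ range (m + 1), a i / x ^ i = ∑ i ∈ range m, a (i + 1) / x ^ (i + 1) + a 0 := by
    rw [Finset.sum_range_succ']
    simp
  have h3 : (y - x) * ∑ i ∈ range (m + 1), a i / x ^ (i + 1) =
      ∑ i ∈ range (m + 1), (y * a i) / x ^ (i + 1) - ∑ i ∈ range (m + 1), a i / x ^ i := by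
    rw [Finset.mul_sum, ← Finset.sum_sub_distrib]
    apply Finset.sum_congr rfl
    intro i _
    have : x ^ i ≠ 0 := pow_ne_zero _ hx
    rw [pow_succ]
    field_simp
  have h4 : ∑ i ∈ range (m + 1), (y * a i - (if i + 1 < m + 1 then a (i + 1) else 0)) / x ^ (i + 1) =
      ∑ i ∈ range (m + 1), (y * a i) / x ^ (i + 1) -
        ∑ i ∈ range (m + 1), (if i + 1 < m + 1 then a (i + 1) else 0) / x ^ (i + 1) := by
    rw [← Finset.sum_sub_distrib]
    apply Finset.sum_congr rfl
    intro i _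
    rw [sub_div]
  rw [h3, h4, h1, h2]
  ring

end BP9

theorem p_P9 (h2 : S_P2) : S_P9 := by
  intro K s hs β G u0 c c' hu0 h0 hc hc' j hj
  obtain ⟨m, rfl⟩ : ∃ m, s = m + 1 := ⟨s - 1, by omega⟩
  -- the factorisation
  have hF : ∀ u, Good K u → sf K β u = (u0 - u) * sf K (fun j => β j / (u0 + (j : ℚ))) u := by
    intro u hu
    unfold sf at h0 ⊢
    rw [Finset.mul_sum]
    have e : ∑ j ∈ range (K + 1), (u0 - u) * (β j / (u0 + (j : ℚ)) / (u + (j : ℚ))) =
        ∑ j ∈ range (K + 1), β j / (u + (j : ℚ)) - ∑ j ∈ range (K + 1), β j / (u0 + (j : ℚ)) := by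
      rw [← Finset.sum_sub_distrib]
      apply Finset.sum_congr rfl
      intro i hi
      have hi' : i ≤ K := by have := Finset.mem_range.1 hi; omega
      have a1 := hu i hi'
      have a2 := hu0 i hi'
      field_simp
      ring
    rw [e, h0, sub_zero]
  have hC : ∀ u, Good K u → ev K (m + 1) c u = ev K (m + 1)
      (fun i j => (u0 + (j : ℚ)) * c' i j - (if i + 1 < m + 1 then c' (i + 1) j else 0)) u +
        (-∑ j ∈ range (K + 1), c' 0 j) := by
    intro u hu
    have e1 : sf K β u * G u = ev K (m + 1) c u := hc u hu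
    have e2 : sf K (fun j => β j / (u0 + (j : ℚ))) u * G u = ev K (m + 1) c' u := hc' u hu
    rw [← e1, hF u hu, mul_assoc, e2]
    unfold ev
    rw [Finset.mul_sum, ← sub_eq_add_neg, ← Finset.sum_sub_distrib]
    apply Finset.sum_congr rfl
    intro i hi
    have hi' : i ≤ K := by have := Finset.mem_range.1 hi; omega
    rw [← BP9.key m (fun l => c' l i) (hu i hi') (u0 + (i : ℚ))]
    congr 1
    ring
  have hE := h2 K (m + 1) c _ _ hC
  have h3 := BP9.key m (fun l => c' l j) (hu0 j hj) (u0 + (j : ℚ))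
  rw [sub_self, zero_mul] at h3
  have h4 : ∑ i ∈ range (m + 1), c i j / (u0 + (j : ℚ)) ^ (i + 1) =
      ∑ i ∈ range (m + 1), ((u0 + (j : ℚ)) * c' i j - (if i + 1 < m + 1 then c' (i + 1) j else 0)) /
        (u0 + (j : ℚ)) ^ (i + 1) := by
    apply Finset.sum_congr rfl
    intro i hi
    rw [hE i (Finset.mem_range.1 hi) j hj]
  rw [h4]
  linarith

end Pool.Agent.Work.MP_03df5c_pb
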