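import Pool.Agent.Work.MP_03df5c_pb.Interface3
import Pool.Agent.Work.MP_03df5c_pb.B_T1

/-!
# Block T2: transfer of linear independence to `ℚ(x)`, `x` in the ideal generated by `π`
-/

open Finset Filter Topology

namespace Pool.Agent.Work.MP_03df5c_pb

open Pool.Agent.Work.MP_03df5c_h91

open Polynomial in
theorem p_T2 : S_T2 := by
  intro p hp m k hk hT y hy hx n e hli
  classical
  obtain ⟨x, hxdef⟩ : ∃ x : ℝ, x = Real.pi * y := ⟨_, rfl⟩
  rw [← hxdef] at hx ⊢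
  rw [Fintype.linearIndependent_iff]
  intro g hg
  by_contra hne
  push Not at hne
  obtain ⟨i0, hi0⟩ := hne
  -- numerators and denominators
  have hrs : ∀ i, ∃ r s : ℚ[X], ((g i : ℝ)) * aeval x s = aeval x r ∧
      aeval x s ≠ 0 := by
    intro i
    obtain ⟨r, s, h⟩ := (IntermediateField.mem_adjoin_simple_iff ℚ (g i : ℝ)).1 (g i).2
    by_cases hs : aeval x s = 0
    · refine ⟨0, 1, ?_, ?_⟩
      · rw [h, hs, div_zero, map_zero, zero_mul]
      · rw [map_one]; exact one_ne_zero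
    · refine ⟨r, s, ?_, hs⟩
      rw [h, div_mul_cancel₀ _ hs]
  choose r s hrs hs using hrs
  obtain ⟨v, hv⟩ : ∃ v : Fin (n + 1) → ℝ, v = Fin.cons 1 (fun i => zetaR (k (e i))) := ⟨_, rfl⟩
  have hg' : ∑ j, (g j : ℝ) * v j = 0 := by
    rw [hv]
    exact hg
  obtain ⟨P, hP⟩ : ∃ P : Fin (n + 1) → ℚ[X], P = fun j => r j * ∏ l ∈ univ.erase j, s l := ⟨_, rfl⟩
  have hPe : ∀ j, aeval x (P j) = (g j : ℝ) * aeval x (∏ l, s l) := by
    intro j
    rw [hP, ← Finset.mul_prod_erase univ s (mem_univ j), map_mul, map_mul, ← hrs j]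
    ring
  have hD : aeval x (∏ l, s l) ≠ 0 := by
    rw [map_prod]
    exact Finset.prod_ne_zero_iff.2 (fun l _ => hs l)
  have hPsum : ∑ j, aeval x (P j) * v j = 0 := by
    have : ∑ j, aeval x (P j) * v j = (∑ j, (g j : ℝ) * v j) * aeval x (∏ l, s l) := by
      rw [Finset.sum_mul]
      apply Finset.sum_congr rfl
      intro j _
      rw [hPe j]
      ring
    rw [this, hg', zero_mul]
  have hP0 : ∃ j, P j ≠ 0 := by
    refine ⟨i0, ?_⟩
    intro h0
    have h1 := hPe i0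
    rw [h0, map_zero] at h1
    rcases mul_eq_zero.1 h1.symm with h2 | h2
    · exact hi0 (Subtype.ext h2)
    · exact hD h2
  obtain ⟨n0, Q, hQ, j0, hj0⟩ := BT1.divide P hP0
  have hQsum : ∑ j, aeval x (Q j) * v j = 0 := by
    have h1 : ∑ j, aeval x (P j) * v j = x ^ n0 * ∑ j, aeval x (Q j) * v j := by
      rw [Finset.mul_sum]
      apply Finset.sum_congr rfl
      intro j _
      rw [hQ j, map_mul, map_pow, aeval_X]
      ring
    rw [h1] at hPsum
    exact (mul_eq_zero.1 hPsum).resolve_left (pow_ne_zero _ hx)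
  -- the subalgebra
  obtain ⟨S, hS⟩ : ∃ S : Subalgebra ℚ ℝ,
      S = Algebra.adjoin ℚ ({Real.pi} ∪ Set.range (fun i => zetaR (k i))) := ⟨_, rfl⟩
  have hpiS : Real.pi ∈ S := by
    rw [hS]; exact Algebra.subset_adjoin (Or.inl rfl)
  have hyS : y ∈ S := by rw [hS]; exact hy
  have hxS : x ∈ S := by rw [hxdef]; exact S.mul_mem hpiS hyS
  have hvS : ∀ j, v j ∈ S := by
    intro j
    rw [hv]
    refine Fin.cases ?_ (fun i => ?_) j
    · rw [Fin.cons_zero]; exact S.one_mem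
    · rw [Fin.cons_succ, hS]; exact Algebra.subset_adjoin (Or.inr ⟨e i, rfl⟩)
  have haeS : ∀ R : ℚ[X], aeval x R ∈ S := by
    intro R
    have h1 := Polynomial.aeval_subalgebra_coe R S ⟨x, hxS⟩
    rw [← h1]
    exact (aeval (⟨x, hxS⟩ : S) R).2
  -- the polynomials in several variables
  obtain ⟨V, hV⟩ : ∃ V : Fin (n + 1) → MvPolynomial (Fin (m + 1)) ℚ,
      V = Fin.cons 1 (fun i => MvPolynomial.X (Fin.succ (e i))) := ⟨_, rfl⟩
  obtain ⟨Y, hY⟩ : ∃ Y : MvPolynomial (Fin (m + 1)) ℚ, Y = 6 * MvPolynomial.X 0 := ⟨_, rfl⟩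
  obtain ⟨φ, hφ⟩ : ∃ φ : MvPolynomial (Fin (m + 1)) ℚ →ₐ[ℚ] ℝ,
      φ = MvPolynomial.aeval (fun i => zetaR ((Fin.cons 2 k : Fin (m + 1) → ℕ) i)) := ⟨_, rfl⟩
  obtain ⟨ψ, hψ⟩ : ∃ ψ : MvPolynomial (Fin (m + 1)) ℚ →ₐ[ℚ] ℚ_[p],
      ψ = MvPolynomial.aeval (fun i => zetaP p ((Fin.cons 2 k : Fin (m + 1) → ℕ) i)) := ⟨_, rfl⟩
  have φX : ∀ i : Fin m, φ (MvPolynomial.X (Fin.succ i)) = zetaR (k i) := by
    intro i
    rw [hφ, MvPolynomial.aeval_X, Fin.cons_succ]
  have φV : ∀ j, φ (V j) = v j := by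
    intro j
    rw [hV, hv]
    refine Fin.cases ?_ (fun i => ?_) j
    · rw [Fin.cons_zero, Fin.cons_zero, map_one]
    · rw [Fin.cons_succ, Fin.cons_succ, φX]
  have φY : φ Y = Real.pi ^ 2 := by
    rw [hY, hφ, map_mul, MvPolynomial.aeval_X, Fin.cons_zero, BT1.zetaR_two, map_ofNat]
    ring
  have ψV : ∀ j, ψ (V j) = (Fin.cons 1 (fun i => zetaP p (k (e i))) : Fin (n + 1) → ℚ_[p]) j := by
    intro j
    rw [hV, hψ]
    refine Fin.cases ?_ (fun i => ?_) j
    · rw [Fin.cons_zero, Fin.cons_zero, map_one]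
    · rw [Fin.cons_succ, Fin.cons_succ, MvPolynomial.aeval_X, Fin.cons_succ]
  have ψY : ψ Y = 0 := by
    rw [hY, hψ, map_mul, MvPolynomial.aeval_X, Fin.cons_zero, zetaP_even even_two (le_refl 2), mul_zero]
  -- every element of the subalgebra is `φ A + π φ B`
  have hrep : ∀ z ∈ S, ∃ A B : MvPolynomial (Fin (m + 1)) ℚ, z = φ A + Real.pi * φ B := by
    intro z hz
    rw [hS] at hz
    induction hz using Algebra.adjoin_induction with
    | mem z hz =>
      rcases hz with hz | ⟨i, rfl⟩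
      · rw [Set.mem_singleton_iff] at hz
        exact ⟨0, 1, by rw [hz, map_zero, map_one]; ring⟩
      · exact ⟨MvPolynomial.X (Fin.succ i), 0, by rw [φX, map_zero]; ring⟩
    | algebraMap r =>
      exact ⟨algebraMap ℚ _ r, 0, by rw [AlgHom.commutes, map_zero]; ring⟩
    | add z w _ _ hz hw =>
      obtain ⟨A, B, hz⟩ := hz
      obtain ⟨A', B', hw⟩ := hw
      exact ⟨A + A', B + B', by rw [hz, hw, map_add, map_add]; ring⟩
    | mul z w _ _ hz hw =>
      obtain ⟨A, B, hz⟩ := hz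
      obtain ⟨A', B', hw⟩ := hw
      refine ⟨A * A' + Y * (B * B'), A * B' + A' * B, ?_⟩
      rw [hz, hw, map_add, map_add, map_mul, map_mul, map_mul, map_mul, map_mul, φY]
      ring
  -- the constant terms
  have hsplit : ∀ j, aeval x (Q j) = ((Q j).coeff 0 : ℝ) + x * aeval x (divX (Q j)) := by
    intro j
    conv_lhs => rw [← divX_mul_X_add (Q j)]
    rw [map_add, map_mul, aeval_X, aeval_C]
    have : (algebraMap ℚ ℝ) ((Q j).coeff 0) = ((Q j).coeff 0 : ℝ) := by simp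
    rw [this]; ring
  obtain ⟨z, hz⟩ : ∃ z : ℝ, z = -(y * ∑ j, aeval x (divX (Q j)) * v j) := ⟨_, rfl⟩
  have hzS : z ∈ S := by
    rw [hz]
    exact S.neg_mem (S.mul_mem hyS (S.sum_mem fun j _ => S.mul_mem (haeS _) (hvS j)))
  obtain ⟨A, B, hAB⟩ := hrep z hzS
  obtain ⟨L, hL⟩ : ∃ L : MvPolynomial (Fin (m + 1)) ℚ, L = ∑ j, MvPolynomial.C ((Q j).coeff 0) * V j :=
    ⟨_, rfl⟩
  have φL : φ L = Real.pi * z := by
    have h1 : φ L = ∑ j, ((Q j).coeff 0 : ℝ) * v j := by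
      rw [hL, map_sum]
      refine Finset.sum_congr rfl fun j _ => ?_
      rw [map_mul, φV, hφ, MvPolynomial.aeval_C]
      simp
    have h2 : ∑ j, aeval x (Q j) * v j
        = ∑ j, ((Q j).coeff 0 : ℝ) * v j + x * ∑ j, aeval x (divX (Q j)) * v j := by
      rw [Finset.mul_sum, ← Finset.sum_add_distrib]
      refine Finset.sum_congr rfl fun j _ => ?_
      rw [hsplit j]; ring
    rw [h1, hz]
    rw [hQsum] at h2
    obtain ⟨W, hW⟩ : ∃ W : ℝ, W = ∑ j, aeval x (divX (Q j)) * v j := ⟨_, rfl⟩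
    rw [← hW] at h2 ⊢
    have h5 : x * W = Real.pi * (y * W) := by rw [hxdef]; ring
    rw [h5] at h2
    linarith
  have hrel : φ ((L - Y * B) ^ 2 - Y * A ^ 2) = 0 := by
    rw [map_sub, map_mul, map_pow, map_pow, map_sub, map_mul, φY, φL, hAB]
    ring
  rw [hφ] at hrel
  have h2 := hT _ hrel
  rw [← hψ, map_sub, map_mul, ψY, zero_mul, sub_zero, map_pow, map_sub, map_mul, ψY, zero_mul,
    sub_zero] at h2
  have h3 : ψ L = 0 := pow_eq_zero_iff (two_ne_zero) |>.1 h2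
  rw [hL, map_sum] at h3
  have h4 : ∑ j, (Q j).coeff 0 • (Fin.cons 1 (fun i => zetaP p (k (e i))) : Fin (n + 1) → ℚ_[p]) j
      = 0 := by
    rw [← h3]
    apply Finset.sum_congr rfl
    intro j _
    rw [map_mul, ψV, Rat.smul_def, hψ, MvPolynomial.aeval_C]
    simp
  exact hj0 (Fintype.linearIndependent_iff.1 hli (fun j => (Q j).coeff 0) h4 j0)

end Pool.Agent.Work.MP_03df5c_pb
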