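import Pool.Agent.Work.MP_03df5c_pb.Interface4
import Pool.Agent.Work.MP_03df5c_pb.B_F1

/-!
# V1: averages
-/

open Finset Filter Topology

namespace Pool.Agent.Work.MP_03df5c_pb

namespace BV1

lemma av_zero (p : ℕ) [Fact p.Prime] (φ : ℕ → ℚ_[p]) : av p φ 0 = φ 0 := by
  unfold av
  simp

lemma step (p : ℕ) [Fact p.Prime] (φ : ℕ → ℚ_[p]) (C : ℝ) (hC : 0 ≤ C) (hφ : Lip p φ C) (n : ℕ) :
    ‖av p φ (n + 1) - av p φ n‖ ≤ p * C := by
  have hp0 : (p : ℚ_[p]) ≠ 0 := by exact_mod_cast (Fact.out : p.Prime).ne_zero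
  have hpR : (0 : ℝ) < p := by exact_mod_cast (Fact.out : p.Prime).pos
  have h1 : av p φ (n + 1) = ((p : ℚ_[p]) ^ (n + 1))⁻¹ * ∑ j ∈ range p, ∑ t ∈ range (p ^ n),
      φ (j * p ^ n + t) := by
    unfold av
    congr 1
    rw [pow_succ, mul_comm (p ^ n) p, BF1.sum_blocks]
  have h2 : av p φ n = ((p : ℚ_[p]) ^ (n + 1))⁻¹ * ∑ j ∈ range p, ∑ t ∈ range (p ^ n), φ t := by
    unfold av
    rw [Finset.sum_const, Finset.card_range, nsmul_eq_mul]
    field_simp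
    ring
  rw [h1, h2, ← mul_sub, ← Finset.sum_sub_distrib, norm_mul, norm_inv, norm_pow]
  have hB : 0 ≤ C * ((p : ℝ) ^ n)⁻¹ := by positivity
  have h3 : ‖∑ j ∈ range p, (∑ t ∈ range (p ^ n), φ (j * p ^ n + t) -
      ∑ t ∈ range (p ^ n), φ t)‖ ≤ C * ((p : ℝ) ^ n)⁻¹ := by
    refine IsUltrametricDist.norm_sum_le_of_forall_le_of_nonneg hB fun j _ => ?_
    rw [← Finset.sum_sub_distrib]
    refine IsUltrametricDist.norm_sum_le_of_forall_le_of_nonneg hB fun t _ => ?_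
    exact BF1.lip_iter p φ C hC hφ n t j
  rw [Padic.norm_p, inv_pow, inv_inv]
  calc (p : ℝ) ^ (n + 1) * _ ≤ (p : ℝ) ^ (n + 1) * (C * ((p : ℝ) ^ n)⁻¹) :=
        mul_le_mul_of_nonneg_left h3 (by positivity)
    _ = p * C := by
        field_simp
        ring

end BV1

theorem p_V1 : S_V1 := by
  intro p hp φ C hC hφ n
  have hpR : (0 : ℝ) < p := by exact_mod_cast hp.out.pos
  induction n with
  | zero =>
    rw [BV1.av_zero, sub_self, norm_zero]
    positivity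
  | succ n ih =>
    have h1 : av p φ (n + 1) - φ 0 = (av p φ (n + 1) - av p φ n) + (av p φ n - φ 0) := by ring
    rw [h1]
    exact (IsUltrametricDist.norm_add_le_max _ _).trans (max_le (BV1.step p φ C hC hφ n) ih)

end Pool.Agent.Work.MP_03df5c_pb
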