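import Pool.Agent.Work.MP_03df5c_pb.Interface4

/-!
# Block V2: the exact norm of the averages of `binom (t + K) K ^ 2`, `K = p ^ m - 1`
-/

open Finset Filter Topology

namespace Pool.Agent.Work.MP_03df5c_pb

open Pool.Agent.Work.MP_03df5c_h91

namespace V2

variable {p : ℕ} [hp : Fact p.Prime]

lemma sum_split (f : ℕ → ℚ_[p]) (M n : ℕ) :
    ∑ t ∈ range (M * n), f t = ∑ a ∈ range M, ∑ t ∈ range n, f (a + M * t) := by
  induction n with
  | zero => simp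
  | succ n ih =>
    rw [Nat.mul_succ, Finset.sum_range_add, ih, ← Finset.sum_add_distrib]
    apply Finset.sum_congr rfl
    intro a _
    rw [Finset.sum_range_succ, add_comm (M * n) a]

lemma nrm_ge (m a : ℕ) (h : ¬ p ^ m ∣ a) :
    ‖((p ^ m : ℕ) : ℚ_[p])‖ ≤ (p : ℝ)⁻¹ * ‖(a : ℚ_[p])‖ := by
  have hp0 : (0 : ℝ) < p := by exact_mod_cast hp.out.pos
  have h1 : ¬ ‖((a : ℤ) : ℚ_[p])‖ ≤ (p : ℝ) ^ (-(m : ℤ)) := by
    rw [Padic.norm_int_le_pow_iff_dvd]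
    intro h2
    exact h (by exact_mod_cast h2)
  have h2 : (p : ℝ) ^ (-(m : ℤ) + 1) ≤ ‖((a : ℤ) : ℚ_[p])‖ := by
    by_contra h3
    rw [not_le] at h3
    exact h1 ((Padic.norm_le_pow_iff_norm_lt_pow_add_one _ _).2 h3)
  have h3 : ‖((p ^ m : ℕ) : ℚ_[p])‖ = (p : ℝ) ^ (-(m : ℤ)) := by
    rw [Nat.cast_pow, Padic.norm_p_pow]
  rw [h3]
  have h4 : (p : ℝ) ^ (-(m : ℤ)) = (p : ℝ)⁻¹ * (p : ℝ) ^ (-(m : ℤ) + 1) := by
    rw [zpow_add_one₀ hp0.ne']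
    field_simp
  rw [h4]
  have h5 : ‖((a : ℤ) : ℚ_[p])‖ = ‖(a : ℚ_[p])‖ := by norm_cast
  rw [h5] at h2
  exact mul_le_mul_of_nonneg_left h2 (by positivity)

/-- Integral and Lipschitz with constant `C`. -/
def LipC (C : ℝ) (f : ℕ → ℚ_[p]) : Prop :=
  (∀ t, ‖f t‖ ≤ 1) ∧ ∀ t s : ℕ, ‖f (t + s) - f t‖ ≤ C * ‖(s : ℚ_[p])‖

lemma LipC.mul {C : ℝ} {f g : ℕ → ℚ_[p]} (hf : LipC C f) (hg : LipC C g) :
    LipC C (fun t => f t * g t) := by
  refine ⟨fun t => ?_, fun t s => ?_⟩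
  · rw [norm_mul]
    exact mul_le_one₀ (hf.1 t) (norm_nonneg _) (hg.1 t)
  · have h : f (t + s) * g (t + s) - f t * g t =
        (f (t + s) - f t) * g (t + s) + f t * (g (t + s) - g t) := by ring
    simp only
    rw [h]
    refine norm_add_le_of_le ?_ ?_
    · rw [norm_mul]
      exact (mul_le_of_le_one_right (norm_nonneg _) (hg.1 _)).trans (hf.2 t s)
    · rw [norm_mul]
      exact (mul_le_of_le_one_left (norm_nonneg _) (hf.1 _)).trans (hg.2 t s)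

lemma LipC.prod {C : ℝ} (hC : 0 ≤ C) {ι : Type*} (u : Finset ι) (f : ι → ℕ → ℚ_[p])
    (h : ∀ i ∈ u, LipC C (f i)) : LipC C (fun t => ∏ i ∈ u, f i t) := by
  classical
  induction u using Finset.induction_on with
  | empty =>
    refine ⟨fun t => by simp, fun t s => ?_⟩
    simp only [prod_empty, sub_self, norm_zero]
    positivity
  | insert a u ha ih =>
    have h1 := (h a (mem_insert_self _ _)).mul (ih fun i hi => h i (mem_insert_of_mem hi))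
    have h2 : (fun t => ∏ i ∈ insert a u, f i t) = fun t => f a t * ∏ i ∈ u, f i t := by
      funext t
      rw [prod_insert ha]
    rw [h2]
    exact h1

lemma choose_prod (n k : ℕ) :
    (((n + k).choose k : ℕ) : ℚ_[p]) = ∏ i ∈ range k, (((n : ℚ_[p]) + 1 + i) / ((i : ℚ_[p]) + 1)) := by
  have h := Nat.ascFactorial_eq_factorial_mul_choose n k
  rw [Nat.ascFactorial_eq_prod_range, ← Finset.prod_range_add_one_eq_factorial] at h
  have h1 : (∏ i ∈ range k, ((n : ℚ_[p]) + 1 + i)) =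
      (∏ i ∈ range k, ((i : ℚ_[p]) + 1)) * (((n + k).choose k : ℕ) : ℚ_[p]) := by
    exact_mod_cast h
  have h2 : (∏ i ∈ range k, ((i : ℚ_[p]) + 1)) ≠ 0 := by
    rw [Finset.prod_ne_zero_iff]
    intro i _
    exact_mod_cast Nat.succ_ne_zero i
  rw [Finset.prod_div_distrib, h1]
  field_simp

lemma sq_prod (M t : ℕ) (hM : 1 ≤ M) :
    (((M * t + (M - 1)).choose (M - 1) : ℕ) : ℚ_[p]) ^ 2 =
      ∏ i ∈ range (M - 1), (1 + ((M : ℚ_[p]) / ((i + 1 : ℕ) : ℚ_[p])) *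
        ((M : ℚ_[p]) / ((M - 1 - i : ℕ) : ℚ_[p])) * ((t : ℚ_[p]) * (t + 1))) := by
  rw [choose_prod, sq]
  nth_rewrite 2 [← Finset.prod_range_reflect]
  rw [← Finset.prod_mul_distrib]
  apply Finset.prod_congr rfl
  intro i hi
  rw [mem_range] at hi
  obtain ⟨b, hb⟩ : ∃ b, M = (i + 1) + (b + 1) := ⟨M - 1 - i - 1, by omega⟩
  have h1 : M - 1 - 1 - i = b := by omega
  have h2 : M - 1 - i = b + 1 := by omega
  have ha : ((i : ℚ_[p]) + 1) ≠ 0 := by exact_mod_cast Nat.succ_ne_zero i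
  have hb' : ((b : ℚ_[p]) + 1) ≠ 0 := by exact_mod_cast Nat.succ_ne_zero b
  rw [h1, h2, hb]
  push_cast
  field_simp
  ring

lemma lip_sq (m : ℕ) : LipC ((p : ℝ)⁻¹ * (p : ℝ)⁻¹)
    (fun t => (((p ^ m * t + (p ^ m - 1)).choose (p ^ m - 1) : ℕ) : ℚ_[p]) ^ 2) := by
  have hp0 : (0 : ℝ) < p := by exact_mod_cast hp.out.pos
  have hp1 : (p : ℝ)⁻¹ ≤ 1 := inv_le_one_of_one_le₀ (by exact_mod_cast hp.out.one_le)
  have hM : 1 ≤ p ^ m := Nat.one_le_pow _ _ hp.out.pos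
  have h : (fun t => (((p ^ m * t + (p ^ m - 1)).choose (p ^ m - 1) : ℕ) : ℚ_[p]) ^ 2) =
      fun t : ℕ => ∏ i ∈ range (p ^ m - 1), (1 + (((p ^ m : ℕ) : ℚ_[p]) / ((i + 1 : ℕ) : ℚ_[p])) *
        (((p ^ m : ℕ) : ℚ_[p]) / ((p ^ m - 1 - i : ℕ) : ℚ_[p])) * ((t : ℚ_[p]) * (t + 1))) := by
    funext t
    exact sq_prod _ t hM
  rw [h]
  apply LipC.prod (by positivity)
  intro i hi
  rw [mem_range] at hi
  have hc : ∀ a : ℕ, 1 ≤ a → a < p ^ m → ‖((p ^ m : ℕ) : ℚ_[p]) / (a : ℚ_[p])‖ ≤ (p : ℝ)⁻¹ := by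
    intro a ha1 ha2
    have h1 := nrm_ge (p := p) m a (fun hd => by
      have := Nat.le_of_dvd (by omega) hd
      omega)
    have h2 : (0 : ℝ) < ‖(a : ℚ_[p])‖ := by
      rw [norm_pos_iff]
      exact_mod_cast (by omega : a ≠ 0)
    rw [norm_div, div_le_iff₀ h2]
    exact h1
  have hc1 := hc (i + 1) (by omega) (by omega)
  have hc2 := hc (p ^ m - 1 - i) (by omega) (by omega)
  set c1 := ((p ^ m : ℕ) : ℚ_[p]) / ((i + 1 : ℕ) : ℚ_[p])
  set c2 := ((p ^ m : ℕ) : ℚ_[p]) / ((p ^ m - 1 - i : ℕ) : ℚ_[p])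
  have hc3 : ‖c1 * c2‖ ≤ (p : ℝ)⁻¹ * (p : ℝ)⁻¹ := by
    rw [norm_mul]
    exact mul_le_mul hc1 hc2 (norm_nonneg _) (by positivity)
  have hc4 : ‖c1 * c2‖ ≤ 1 := hc3.trans (by
    calc (p : ℝ)⁻¹ * (p : ℝ)⁻¹ ≤ 1 * 1 := mul_le_mul hp1 hp1 (by positivity) (by norm_num)
      _ = 1 := one_mul 1)
  refine ⟨fun t => ?_, fun t s => ?_⟩
  · refine norm_add_le_of_le (by simp) ?_
    rw [norm_mul]
    have : ‖(t : ℚ_[p]) * (t + 1)‖ ≤ 1 := by
      have := norm_natCast_le_one (p := p) (t * (t + 1))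
      push_cast at this
      exact this
    exact mul_le_one₀ hc4 (norm_nonneg _) this
  · have h1 : (1 + c1 * c2 * (((t + s : ℕ) : ℚ_[p]) * (((t + s : ℕ) : ℚ_[p]) + 1))) -
        (1 + c1 * c2 * ((t : ℚ_[p]) * (t + 1))) =
        c1 * c2 * (((2 * t + s + 1 : ℕ) : ℚ_[p]) * (s : ℚ_[p])) := by
      push_cast
      ring
    rw [h1, norm_mul, norm_mul (((2 * t + s + 1 : ℕ) : ℚ_[p]))]
    exact mul_le_mul hc3 (mul_le_of_le_one_left (norm_nonneg _) (norm_natCast_le_one _))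
      (by positivity) (by positivity)

lemma lip_choose (m : ℕ) (x : ℕ) : ∀ t s : ℕ,
    ‖(((x + p ^ m * (t + s)).choose (p ^ m - 1) : ℕ) : ℚ_[p]) -
      (((x + p ^ m * t).choose (p ^ m - 1) : ℕ) : ℚ_[p])‖ ≤ (p : ℝ)⁻¹ * ‖(s : ℚ_[p])‖ := by
  intro t s
  have hp0 : (0 : ℝ) < p := by exact_mod_cast hp.out.pos
  have hM : 1 ≤ p ^ m := Nat.one_le_pow _ _ hp.out.pos
  have h1 : x + p ^ m * (t + s) = p ^ m * s + (x + p ^ m * t) := by ring
  rw [h1, Nat.add_choose_eq, Finset.Nat.sum_antidiagonal_eq_sum_range_succ_mk,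
    Finset.sum_range_succ']
  simp only [Nat.choose_zero_right, one_mul, Nat.sub_zero]
  push_cast
  rw [add_sub_cancel_right]
  refine norm_sum_le_of_le _ _ (by positivity) ?_
  intro i hi
  rw [mem_range] at hi
  rw [norm_mul]
  refine (mul_le_of_le_one_right (norm_nonneg _) (norm_natCast_le_one _)).trans ?_
  rcases Nat.eq_zero_or_pos s with hs | hs
  · subst hs
    simp
  · obtain ⟨n, hn⟩ : ∃ n, p ^ m * s = n + 1 :=
      ⟨p ^ m * s - 1, by have := Nat.mul_pos (Nat.lt_of_lt_of_le Nat.zero_lt_one hM) hs; omega⟩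
    have h2 := Nat.add_one_mul_choose_eq n i
    rw [← hn] at h2
    have h3 : ‖(((p ^ m * s).choose (i + 1) : ℕ) : ℚ_[p])‖ * ‖((i + 1 : ℕ) : ℚ_[p])‖ =
        ‖((p ^ m : ℕ) : ℚ_[p])‖ * ‖(s : ℚ_[p])‖ * ‖((n.choose i : ℕ) : ℚ_[p])‖ := by
      rw [← norm_mul, ← norm_mul, ← norm_mul]
      congr 1
      exact_mod_cast h2.symm
    have h4 := nrm_ge (p := p) m (i + 1) (fun hd => by
      have := Nat.le_of_dvd (by omega) hd
      omega)
    have h5 : (0 : ℝ) < ‖((i + 1 : ℕ) : ℚ_[p])‖ := by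
      rw [norm_pos_iff]
      exact_mod_cast (by omega : i + 1 ≠ 0)
    have h6 : ‖(((p ^ m * s).choose (i + 1) : ℕ) : ℚ_[p])‖ * ‖((i + 1 : ℕ) : ℚ_[p])‖ ≤
        ((p : ℝ)⁻¹ * ‖(s : ℚ_[p])‖) * ‖((i + 1 : ℕ) : ℚ_[p])‖ := by
      rw [h3]
      refine (mul_le_of_le_one_right (by positivity) (norm_natCast_le_one _)).trans ?_
      calc ‖((p ^ m : ℕ) : ℚ_[p])‖ * ‖(s : ℚ_[p])‖
          ≤ ((p : ℝ)⁻¹ * ‖((i + 1 : ℕ) : ℚ_[p])‖) * ‖(s : ℚ_[p])‖ :=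
            mul_le_mul_of_nonneg_right h4 (norm_nonneg _)
        _ = ((p : ℝ)⁻¹ * ‖(s : ℚ_[p])‖) * ‖((i + 1 : ℕ) : ℚ_[p])‖ := by ring
    exact le_of_mul_le_mul_right h6 h5

lemma choose_le (m a t : ℕ) (ha : a ≠ 0) (ha' : a < p ^ m) :
    ‖(((a + p ^ m * t + (p ^ m - 1)).choose (p ^ m - 1) : ℕ) : ℚ_[p])‖ ≤ (p : ℝ)⁻¹ := by
  have hM : 1 ≤ p ^ m := Nat.one_le_pow _ _ hp.out.pos
  have h1 := Nat.add_one_mul_choose_eq (a + p ^ m * t + (p ^ m - 1)) (p ^ m - 1)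
  have h2 : p ^ m - 1 + 1 = p ^ m := by omega
  have h3 : a + p ^ m * t + (p ^ m - 1) + 1 = a + p ^ m * (t + 1) := by
    have : p ^ m * (t + 1) = p ^ m * t + p ^ m := by ring
    omega
  rw [h2, h3] at h1
  have h4 := nrm_ge (p := p) m (a + p ^ m * (t + 1)) (fun hd => by
    have hd' : p ^ m ∣ a := (Nat.dvd_add_left (Dvd.intro _ rfl)).1 hd
    have := Nat.le_of_dvd (by omega) hd'
    omega)
  have h5 : (0 : ℝ) < ‖((a + p ^ m * (t + 1) : ℕ) : ℚ_[p])‖ := by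
    rw [norm_pos_iff]
    exact_mod_cast (by omega : a + p ^ m * (t + 1) ≠ 0)
  have h6 : ‖(((a + p ^ m * t + (p ^ m - 1)).choose (p ^ m - 1) : ℕ) : ℚ_[p])‖ *
      ‖((a + p ^ m * (t + 1) : ℕ) : ℚ_[p])‖ =
      ‖(((a + p ^ m * (t + 1)).choose (p ^ m) : ℕ) : ℚ_[p])‖ * ‖((p ^ m : ℕ) : ℚ_[p])‖ := by
    rw [← norm_mul, ← norm_mul, mul_comm]
    congr 1
    exact_mod_cast h1
  have h7 : ‖(((a + p ^ m * t + (p ^ m - 1)).choose (p ^ m - 1) : ℕ) : ℚ_[p])‖ *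
      ‖((a + p ^ m * (t + 1) : ℕ) : ℚ_[p])‖ ≤
      (p : ℝ)⁻¹ * ‖((a + p ^ m * (t + 1) : ℕ) : ℚ_[p])‖ := by
    rw [h6]
    exact (mul_le_of_le_one_left (norm_nonneg _) (norm_natCast_le_one _)).trans h4
  exact le_of_mul_le_mul_right h7 h5

end V2

open V2 in
theorem p_V2 (hV1 : S_V1) : S_V2 := by
  intro p hp m N hm hmN w hw hwl
  have hp0 : (0 : ℝ) < p := by exact_mod_cast hp.out.pos
  have hp1 : (p : ℝ)⁻¹ < 1 := inv_lt_one_of_one_lt₀ (by exact_mod_cast hp.out.one_lt)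
  have hpq : (p : ℚ_[p]) ≠ 0 := by exact_mod_cast hp.out.ne_zero
  have hM : 1 ≤ p ^ m := Nat.one_le_pow _ _ hp.out.pos
  set f : ℕ → ℚ_[p] := fun t =>
    (((t + (p ^ m - 1)).choose (p ^ m - 1) : ℕ) : ℚ_[p]) ^ 2 * w t with hf
  have hsplit : (p : ℚ_[p]) ^ m * av p f N =
      ∑ a ∈ range (p ^ m), av p (fun t => f (a + p ^ m * t)) (N - m) := by
    unfold av
    have h1 : p ^ N = p ^ m * p ^ (N - m) := by
      rw [← pow_add]
      congr 1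
      omega
    rw [h1, sum_split, ← Finset.mul_sum]
    rw [← mul_assoc]
    congr 1
    have h2 : (p : ℚ_[p]) ^ N = (p : ℚ_[p]) ^ m * (p : ℚ_[p]) ^ (N - m) := by
      rw [← pow_add]
      congr 1
      omega
    rw [h2]
    field_simp
  -- the constant of `w` along the progressions
  have hw' : ∀ a t s : ℕ, ‖w (a + p ^ m * (t + s)) - w (a + p ^ m * t)‖ ≤
      (p : ℝ)⁻¹ * (p : ℝ)⁻¹ * ‖(s : ℚ_[p])‖ := by
    intro a t s
    have h1 := hwl (a + p ^ m * t) (p ^ m * s)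
    have h2 : a + p ^ m * t + p ^ m * s = a + p ^ m * (t + s) := by ring
    rw [h2] at h1
    refine h1.trans ?_
    have h3 : ‖((p ^ m * s : ℕ) : ℚ_[p])‖ ≤ (p : ℝ)⁻¹ * ‖(s : ℚ_[p])‖ := by
      rw [Nat.cast_mul, norm_mul]
      refine mul_le_mul_of_nonneg_right ?_ (norm_nonneg _)
      have h4 := nrm_ge (p := p) m 1 (fun hd => by
        have := Nat.le_of_dvd one_pos hd
        have h5 : 1 < p ^ m := Nat.one_lt_pow (by omega) hp.out.one_lt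
        omega)
      simpa using h4
    rw [mul_assoc]
    exact mul_le_mul_of_nonneg_left h3 (by positivity)
  -- from the Lipschitz form to the form of V1
  have hpn : ∀ n : ℕ, ‖((p ^ n : ℕ) : ℚ_[p])‖ = ((p : ℝ) ^ n)⁻¹ := by
    intro n
    rw [Nat.cast_pow, norm_pow, Padic.norm_p, inv_pow]
  have hpp : (p : ℝ) * ((p : ℝ)⁻¹ * (p : ℝ)⁻¹) = (p : ℝ)⁻¹ := by
    field_simp
  -- `a = 0`
  have h0 : ‖av p (fun t => f (0 + p ^ m * t)) (N - m) - w 0‖ ≤ (p : ℝ)⁻¹ := by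
    have hl : LipC ((p : ℝ)⁻¹ * (p : ℝ)⁻¹) (fun t => f (0 + p ^ m * t)) := by
      have h1 := (lip_sq (p := p) m).mul
        (g := fun t => w (0 + p ^ m * t)) ⟨fun t => (hw _).le, fun t s => hw' 0 t s⟩
      simpa [hf] using h1
    have h2 := hV1 p (fun t => f (0 + p ^ m * t)) ((p : ℝ)⁻¹ * (p : ℝ)⁻¹) (by positivity)
      (fun t n => by
        have := hl.2 t (p ^ n)
        rwa [hpn] at this) (N - m)
    rw [hpp] at h2
    simpa [hf] using h2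
  have h1 : ∀ a ∈ range (p ^ m), a ≠ 0 →
      ‖av p (fun t => f (a + p ^ m * t)) (N - m)‖ ≤ (p : ℝ)⁻¹ := by
    intro a ha ha0
    rw [mem_range] at ha
    set A : ℕ → ℚ_[p] := fun t =>
      (((a + p ^ m * t + (p ^ m - 1)).choose (p ^ m - 1) : ℕ) : ℚ_[p]) with hA
    have hA1 : ∀ t, ‖A t‖ ≤ (p : ℝ)⁻¹ := fun t => choose_le m a t ha0 ha
    have hA2 : ∀ t s, ‖A (t + s) - A t‖ ≤ (p : ℝ)⁻¹ * ‖(s : ℚ_[p])‖ := by
      intro t s
      have := lip_choose (p := p) m (a + (p ^ m - 1)) t s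
      simp only [hA]
      rw [show a + p ^ m * (t + s) + (p ^ m - 1) = a + (p ^ m - 1) + p ^ m * (t + s) by ring,
        show a + p ^ m * t + (p ^ m - 1) = a + (p ^ m - 1) + p ^ m * t by ring]
      exact this
    have hf' : ∀ t, f (a + p ^ m * t) = A t ^ 2 * w (a + p ^ m * t) := fun t => rfl
    have hl : ∀ t s : ℕ, ‖f (a + p ^ m * (t + s)) - f (a + p ^ m * t)‖ ≤
        (p : ℝ)⁻¹ * (p : ℝ)⁻¹ * ‖(s : ℚ_[p])‖ := by
      intro t s
      rw [hf', hf']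
      have h2 : A (t + s) ^ 2 * w (a + p ^ m * (t + s)) - A t ^ 2 * w (a + p ^ m * t) =
          (A (t + s) - A t) * (A (t + s) + A t) * w (a + p ^ m * (t + s)) +
          A t ^ 2 * (w (a + p ^ m * (t + s)) - w (a + p ^ m * t)) := by ring
      rw [h2]
      refine norm_add_le_of_le ?_ ?_
      · rw [norm_mul, hw, mul_one, norm_mul]
        have h3 : ‖A (t + s) + A t‖ ≤ (p : ℝ)⁻¹ := norm_add_le_of_le (hA1 _) (hA1 _)
        calc ‖A (t + s) - A t‖ * ‖A (t + s) + A t‖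
            ≤ ((p : ℝ)⁻¹ * ‖(s : ℚ_[p])‖) * (p : ℝ)⁻¹ :=
              mul_le_mul (hA2 t s) h3 (norm_nonneg _) (by positivity)
          _ = (p : ℝ)⁻¹ * (p : ℝ)⁻¹ * ‖(s : ℚ_[p])‖ := by ring
      · rw [norm_mul]
        refine (mul_le_of_le_one_left (norm_nonneg _) ?_).trans (hw' a t s)
        rw [norm_pow]
        exact pow_le_one₀ (norm_nonneg _) ((hA1 t).trans hp1.le)
    have h2 := hV1 p (fun t => f (a + p ^ m * t)) ((p : ℝ)⁻¹ * (p : ℝ)⁻¹) (by positivity)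
      (fun t n => by
        have := hl t (p ^ n)
        rwa [hpn] at this) (N - m)
    rw [hpp] at h2
    have h3 : ‖f (a + p ^ m * 0)‖ ≤ (p : ℝ)⁻¹ := by
      rw [hf', norm_mul, hw, mul_one, norm_pow, sq]
      exact (mul_le_of_le_one_right (norm_nonneg _) ((hA1 0).trans hp1.le)).trans (hA1 0)
    have h4 := MP_03df5c_h91.norm_add_le_of_le h2 h3
    simpa using h4
  have hsum : ‖∑ a ∈ range (p ^ m), av p (fun t => f (a + p ^ m * t)) (N - m) - w 0‖ ≤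
      (p : ℝ)⁻¹ := by
    have h2 : ∑ a ∈ range (p ^ m), av p (fun t => f (a + p ^ m * t)) (N - m) - w 0 =
        ∑ a ∈ (range (p ^ m)).erase 0, av p (fun t => f (a + p ^ m * t)) (N - m) +
        (av p (fun t => f (0 + p ^ m * t)) (N - m) - w 0) := by
      rw [← Finset.sum_erase_add (range (p ^ m)) _ (mem_range.2 (by omega : 0 < p ^ m))]
      ring
    rw [h2]
    refine norm_add_le_of_le ?_ h0
    refine norm_sum_le_of_le _ _ (by positivity) ?_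
    intro a ha
    rw [mem_erase] at ha
    exact h1 a ha.2 ha.1
  have hone : ‖∑ a ∈ range (p ^ m), av p (fun t => f (a + p ^ m * t)) (N - m)‖ = 1 := by
    set S := ∑ a ∈ range (p ^ m), av p (fun t => f (a + p ^ m * t)) (N - m)
    have h2 : ‖S - w 0‖ < ‖w 0‖ := by
      rw [hw]
      exact lt_of_le_of_lt hsum hp1
    have h3 : S = (S - w 0) + w 0 := by ring
    rw [h3, IsUltrametricDist.norm_add_eq_max_of_norm_ne_norm h2.ne, max_eq_right h2.le, hw]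
  rw [← hsplit, norm_mul, norm_pow, Padic.norm_p] at hone
  have hpm : (0 : ℝ) < (p : ℝ) ^ m := by positivity
  rw [inv_pow] at hone
  field_simp at hone
  exact hone

end Pool.Agent.Work.MP_03df5c_pb
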