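import Pool.Agent.Work.MP_03df5c_pb.Interface4
import Pool.Agent.Work.MP_03df5c_pb.B_N1

/-!
# Block V3 (typed by helper83): the exact norm of the averages of the square of the block `1`
-/

open Finset Filter Topology

namespace Pool.Agent.Work.MP_03df5c_pb

namespace BV3

theorem one_mem (p r : ℕ) [hp : Fact p.Prime] (hr : 1 ≤ r) : 1 ∈ AA p r := by
  unfold AA
  rw [mem_filter, mem_range]
  exact ⟨Nat.one_lt_pow (by omega) hp.out.one_lt, fun h => hp.out.one_lt.ne' (Nat.dvd_one.1 h)⟩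

theorem P_dvd (p r K t s : ℕ) :
    ((p ^ r * s : ℕ) : ℤ) ∣ ((BN1.P p r K 1 t : ℕ) : ℤ) - ((BN1.P p r K 1 (t + s) : ℕ) : ℤ) := by
  apply Nat.modEq_iff_dvd.1
  apply (ZMod.natCast_eq_natCast_iff _ _ _).1
  unfold BN1.P
  push_cast
  apply prod_congr rfl
  intro j _
  have h0 : (p : ZMod (p ^ r * s)) ^ r * (s : ZMod (p ^ r * s)) = 0 := by
    have h1 : ((p ^ r * s : ℕ) : ZMod (p ^ r * s)) = 0 := ZMod.natCast_self _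
    push_cast at h1
    exact h1
  linear_combination h0

theorem norm_P_sub (p : ℕ) [hp : Fact p.Prime] (r K t s : ℕ) (hr : 1 ≤ r) :
    ‖((BN1.P p r K 1 t : ℕ) : ℚ_[p]) - ((BN1.P p r K 1 (t + s) : ℕ) : ℚ_[p])‖ ≤
      (p : ℝ)⁻¹ * ‖(s : ℚ_[p])‖ := by
  obtain ⟨c, hc⟩ := P_dvd p r K t s
  have h1 : ((BN1.P p r K 1 t : ℕ) : ℚ_[p]) - ((BN1.P p r K 1 (t + s) : ℕ) : ℚ_[p]) =
      ((p : ℚ_[p]) ^ r * (s : ℚ_[p])) * ((c : ℤ) : ℚ_[p]) := by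
    exact_mod_cast congrArg (fun z : ℤ => (z : ℚ_[p])) hc
  rw [h1, norm_mul, norm_mul, norm_pow, Padic.norm_p]
  have h2 : ‖((c : ℤ) : ℚ_[p])‖ ≤ 1 := Padic.norm_int_le_one c
  have hp1 : (1 : ℝ) ≤ p := by exact_mod_cast hp.out.one_lt.le
  have h3 : ((p : ℝ)⁻¹) ^ r ≤ (p : ℝ)⁻¹ := by
    calc ((p : ℝ)⁻¹) ^ r ≤ ((p : ℝ)⁻¹) ^ 1 :=
          pow_le_pow_of_le_one (by positivity) (inv_le_one_of_one_le₀ hp1) hr
      _ = (p : ℝ)⁻¹ := pow_one _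
  calc ((p : ℝ)⁻¹) ^ r * ‖(s : ℚ_[p])‖ * ‖((c : ℤ) : ℚ_[p])‖
      ≤ ((p : ℝ)⁻¹) ^ r * ‖(s : ℚ_[p])‖ * 1 := mul_le_mul_of_nonneg_left h2 (by positivity)
    _ = ((p : ℝ)⁻¹) ^ r * ‖(s : ℚ_[p])‖ := mul_one _
    _ ≤ _ := mul_le_mul_of_nonneg_right h3 (norm_nonneg _)

end BV3

theorem p_V3 (h3 : S_P3) (h2b : S_N2b) (h2 : S_V2) : S_V3 := by
  intro p hp r m N hr hm hmN
  have h1A := BV3.one_mem p r hr
  have ha : ¬ p ∣ 1 := (mem_filter.1 h1A).2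
  obtain ⟨K, hK⟩ : ∃ K, p ^ m = K + 1 := ⟨p ^ m - 1, by have := pow_pos hp.out.pos m; omega⟩
  have hK' : p ^ m - 1 = K := by omega
  rw [hK']
  have hPn : ∀ t, ‖((BN1.P p r K 1 t : ℕ) : ℚ_[p])‖ = 1 := fun t => BN1.norm_P p r K 1 t hr ha
  have hP0 : ∀ t, ((BN1.P p r K 1 t : ℕ) : ℚ_[p]) ≠ 0 := by
    intro t h
    have := hPn t
    rw [h, norm_zero] at this
    exact zero_ne_one this
  obtain ⟨w, hw⟩ : ∃ w : ℕ → ℚ_[p], w = fun t => (((BN1.P p r K 1 t : ℕ) : ℚ_[p]) ^ 2)⁻¹ := ⟨_, rfl⟩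
  have hw1 : ∀ t, ‖w t‖ = 1 := by
    intro t
    rw [hw]
    change ‖(((BN1.P p r K 1 t : ℕ) : ℚ_[p]) ^ 2)⁻¹‖ = 1
    rw [norm_inv, norm_pow, hPn, one_pow, inv_one]
  have hw2 : ∀ t s : ℕ, ‖w (t + s) - w t‖ ≤ (p : ℝ)⁻¹ * ‖(s : ℚ_[p])‖ := by
    intro t s
    rw [hw]
    change ‖(((BN1.P p r K 1 (t + s) : ℕ) : ℚ_[p]) ^ 2)⁻¹ - (((BN1.P p r K 1 t : ℕ) : ℚ_[p]) ^ 2)⁻¹‖ ≤ _
    have e : (((BN1.P p r K 1 (t + s) : ℕ) : ℚ_[p]) ^ 2)⁻¹ - (((BN1.P p r K 1 t : ℕ) : ℚ_[p]) ^ 2)⁻¹ =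
        (((BN1.P p r K 1 t : ℕ) : ℚ_[p]) - ((BN1.P p r K 1 (t + s) : ℕ) : ℚ_[p])) *
          ((((BN1.P p r K 1 t + BN1.P p r K 1 (t + s) : ℕ)) : ℚ_[p])) /
          (((BN1.P p r K 1 (t + s) : ℕ) : ℚ_[p]) ^ 2 * ((BN1.P p r K 1 t : ℕ) : ℚ_[p]) ^ 2) := by
      have h4 := hP0 t
      have h5 := hP0 (t + s)
      push_cast
      field_simp
      ring
    rw [e, norm_div, norm_mul, norm_mul, norm_pow, norm_pow, hPn, hPn, one_pow, mul_one, div_one]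
    have h6 : ‖((((BN1.P p r K 1 t + BN1.P p r K 1 (t + s) : ℕ)) : ℚ_[p]))‖ ≤ 1 := by
      have := Padic.norm_int_le_one (p := p) ((BN1.P p r K 1 t + BN1.P p r K 1 (t + s) : ℕ) : ℤ)
      rwa [Int.cast_natCast] at this
    calc _ ≤ ‖((BN1.P p r K 1 t : ℕ) : ℚ_[p]) - ((BN1.P p r K 1 (t + s) : ℕ) : ℚ_[p])‖ * 1 :=
          mul_le_mul_of_nonneg_left h6 (norm_nonneg _)
      _ = _ := mul_one _
      _ ≤ _ := BV3.norm_P_sub p r K t s hr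
  have key := h2 p m N hm hmN w hw1 hw2
  rw [hK'] at key
  have hv : ∀ t, vv p r 1 (fun u => sf K (b1 p r K) u ^ 2) t =
      ((K.factorial : ℚ_[p]) * ((p : ℚ_[p]) ^ r) ^ (K + 1)) ^ 2 *
        ((((t + K).choose K : ℕ) : ℚ_[p]) ^ 2 * w t) := by
    intro t
    have e1 : vv p r 1 (fun u => sf K (b1 p r K) u ^ 2) t = (vv p r 1 (sf K (bet K (th p r 1))) t) ^ 2 := by
      unfold vv
      rw [← Rat.cast_pow]
      rfl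
    rw [e1, h2b p r K 1 t hr h1A, BN1.val h3 p r K 1 t ha, hw]
    have h4 := hP0 t
    field_simp
  have hav : av p (vv p r 1 (fun u => sf K (b1 p r K) u ^ 2)) N =
      ((K.factorial : ℚ_[p]) * ((p : ℚ_[p]) ^ r) ^ (K + 1)) ^ 2 *
        av p (fun t => (((t + K).choose K : ℕ) : ℚ_[p]) ^ 2 * w t) N := by
    unfold av
    rw [sum_congr rfl (fun t _ => hv t), ← mul_sum]
    ring
  rw [hav, norm_mul, key, norm_pow, norm_mul, norm_pow, norm_pow, Padic.norm_p, ← hK, mul_pow,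
    ← pow_mul, ← pow_mul, inv_pow]
  congr 3
  congr 1
  ring

end Pool.Agent.Work.MP_03df5c_pb
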