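import Pool.Agent.Work.MP_03df5c_pb.Interface4
import Pool.Agent.Work.MP_03df5c_pb.B_P3

/-!
# Block V4: the linear form
-/

open Finset Filter Topology

namespace Pool.Agent.Work.MP_03df5c_pb

namespace BV4

theorem shift_sum (g : ℕ → ℚ) (M j : ℕ) :
    ∑ t ∈ range M, g (t + j) = ∑ t ∈ range M, g t + ∑ l ∈ range j, (g (l + M) - g l) := by
  have h1 := Finset.sum_range_add g M j
  have h2 := Finset.sum_range_add g j M
  have h3 : ∑ t ∈ range M, g (t + j) = ∑ t ∈ range M, g (j + t) :=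
    Finset.sum_congr rfl fun t _ => by rw [add_comm]
  have h4 : ∑ l ∈ range j, g (l + M) = ∑ l ∈ range j, g (M + l) :=
    Finset.sum_congr rfl fun t _ => by rw [add_comm]
  rw [add_comm j M] at h2
  rw [Finset.sum_sub_distrib, h3, h4]
  linarith

/-- the antisymmetric kernel -/
noncomputable def fk (b : ℕ → ℚ) (j j' : ℕ) : ℚ := b j * b j' / ((j' : ℚ) - (j : ℚ))

theorem fk_anti (b : ℕ → ℚ) (j j' : ℕ) : fk b j' j = -fk b j j' := by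
  unfold fk
  rw [show (j : ℚ) - (j' : ℚ) = -((j' : ℚ) - (j : ℚ)) by ring, div_neg, mul_comm (b j') (b j)]

theorem fk_self (b : ℕ → ℚ) (j : ℕ) : fk b j j = 0 := by
  unfold fk
  simp

theorem sum_fk (b : ℕ → ℚ) (K : ℕ) :
    ∑ j ∈ range (K + 1), (2 * ∑ j' ∈ range (K + 1), fk b j j') = 0 := by
  rw [← Finset.mul_sum]
  have h1 : ∑ j ∈ range (K + 1), ∑ j' ∈ range (K + 1), fk b j j' =
      -∑ j ∈ range (K + 1), ∑ j' ∈ range (K + 1), fk b j j' := by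
    conv_lhs => rw [Finset.sum_comm]
    rw [← Finset.sum_neg_distrib]
    refine Finset.sum_congr rfl fun j _ => ?_
    rw [← Finset.sum_neg_distrib]
    refine Finset.sum_congr rfl fun j' _ => ?_
    exact fk_anti b j j'
  linarith

theorem sq_pf (b : ℕ → ℚ) (K : ℕ) (u : ℚ) (hu : ∀ j : ℕ, u + (j : ℚ) ≠ 0) :
    (sf K b u) ^ 2 = ∑ j ∈ range (K + 1), (b j ^ 2 * ((u + (j : ℚ)) ^ 2)⁻¹ +
      (2 * ∑ j' ∈ range (K + 1), fk b j j') * (u + (j : ℚ))⁻¹) := by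
  have h1 : ∀ j j' : ℕ, b j / (u + (j : ℚ)) * (b j' / (u + (j' : ℚ))) =
      (if j = j' then b j ^ 2 * ((u + (j : ℚ)) ^ 2)⁻¹ else 0) +
        (fk b j j' * (u + (j : ℚ))⁻¹ + fk b j' j * (u + (j' : ℚ))⁻¹) := by
    intro j j'
    have g1 := hu j
    have g2 := hu j'
    by_cases h : j = j'
    · subst h
      rw [if_pos rfl, fk_self]
      field_simp
      ring
    · rw [if_neg h, fk_anti b j j']
      have h2 : (j' : ℚ) - (j : ℚ) ≠ 0 := by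
        rw [sub_ne_zero]
        exact_mod_cast (Ne.symm h)
      unfold fk
      field_simp
      ring
  have h2 : (sf K b u) ^ 2 = ∑ j ∈ range (K + 1), ∑ j' ∈ range (K + 1),
      b j / (u + (j : ℚ)) * (b j' / (u + (j' : ℚ))) := by
    unfold sf
    rw [sq, Finset.sum_mul_sum]
  rw [h2]
  have h3 : ∑ j ∈ range (K + 1), ∑ j' ∈ range (K + 1), b j / (u + (j : ℚ)) *
      (b j' / (u + (j' : ℚ))) = ∑ j ∈ range (K + 1), ∑ j' ∈ range (K + 1),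
      ((if j = j' then b j ^ 2 * ((u + (j : ℚ)) ^ 2)⁻¹ else 0) +
        (fk b j j' * (u + (j : ℚ))⁻¹ + fk b j' j * (u + (j' : ℚ))⁻¹)) :=
    Finset.sum_congr rfl fun j _ => Finset.sum_congr rfl fun j' _ => h1 j j'
  rw [h3]
  simp only [Finset.sum_add_distrib]
  have h4 : ∑ j ∈ range (K + 1), ∑ j' ∈ range (K + 1),
      (if j = j' then b j ^ 2 * ((u + (j : ℚ)) ^ 2)⁻¹ else 0) =
      ∑ j ∈ range (K + 1), b j ^ 2 * ((u + (j : ℚ)) ^ 2)⁻¹ := by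
    refine Finset.sum_congr rfl fun j hj => ?_
    rw [Finset.sum_ite_eq, if_pos hj]
  have h5 : ∑ j ∈ range (K + 1), ∑ j' ∈ range (K + 1), fk b j' j * (u + (j' : ℚ))⁻¹ =
      ∑ j ∈ range (K + 1), ∑ j' ∈ range (K + 1), fk b j j' * (u + (j : ℚ))⁻¹ := Finset.sum_comm
  rw [h4, h5]
  congr 1
  rw [← two_mul, Finset.mul_sum]
  refine Finset.sum_congr rfl fun j _ => ?_
  rw [← Finset.sum_mul]
  ring

theorem main_id (b : ℕ → ℚ) (K M : ℕ) (x : ℚ) (hx : ∀ n : ℕ, x + (n : ℚ) ≠ 0) (hM : 0 < M) :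
    (M : ℚ)⁻¹ * ∑ t ∈ range M, (sf K b (x + (t : ℚ))) ^ 2 -
      (∑ j ∈ range (K + 1), b j ^ 2) * ((M : ℚ)⁻¹ * ∑ t ∈ range M, ((x + (t : ℚ)) ^ 2)⁻¹) =
    ∑ j ∈ range (K + 1), ∑ l ∈ range j,
      (b j ^ 2 * (-(2 * (x + (l : ℚ)) + (M : ℚ)) / ((x + (l : ℚ)) ^ 2 * (x + (l : ℚ) + (M : ℚ)) ^ 2)) +
        (2 * ∑ j' ∈ range (K + 1), fk b j j') *
          (-1 / ((x + (l : ℚ)) * (x + (l : ℚ) + (M : ℚ))))) := by
  have hM0 : (M : ℚ) ≠ 0 := by exact_mod_cast hM.ne'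
  have h1 : ∑ t ∈ range M, (sf K b (x + (t : ℚ))) ^ 2 =
      ∑ j ∈ range (K + 1), (b j ^ 2 * ∑ t ∈ range M, ((x + ((t + j : ℕ) : ℚ)) ^ 2)⁻¹ +
        (2 * ∑ j' ∈ range (K + 1), fk b j j') * ∑ t ∈ range M, (x + ((t + j : ℕ) : ℚ))⁻¹) := by
    have e1 : ∀ t ∈ range M, (sf K b (x + (t : ℚ))) ^ 2 = ∑ j ∈ range (K + 1),
        (b j ^ 2 * ((x + ((t + j : ℕ) : ℚ)) ^ 2)⁻¹ +
        (2 * ∑ j' ∈ range (K + 1), fk b j j') * (x + ((t + j : ℕ) : ℚ))⁻¹) := by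
      intro t _
      rw [sq_pf b K (x + (t : ℚ)) (fun j => by
        have := hx (t + j)
        push_cast at this
        rwa [add_assoc])]
      refine Finset.sum_congr rfl fun j _ => ?_
      push_cast
      rw [add_assoc]
    rw [Finset.sum_congr rfl e1, Finset.sum_comm]
    refine Finset.sum_congr rfl fun j _ => ?_
    rw [Finset.sum_add_distrib, ← Finset.mul_sum, ← Finset.mul_sum]
  rw [h1]
  have h2 : ∀ j, ∑ t ∈ range M, ((x + ((t + j : ℕ) : ℚ)) ^ 2)⁻¹ =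
      ∑ t ∈ range M, ((x + (t : ℚ)) ^ 2)⁻¹ +
        ∑ l ∈ range j, (((x + ((l + M : ℕ) : ℚ)) ^ 2)⁻¹ - ((x + (l : ℚ)) ^ 2)⁻¹) := fun j =>
    shift_sum (fun t => ((x + (t : ℚ)) ^ 2)⁻¹) M j
  have h3 : ∀ j, ∑ t ∈ range M, (x + ((t + j : ℕ) : ℚ))⁻¹ =
      ∑ t ∈ range M, (x + (t : ℚ))⁻¹ +
        ∑ l ∈ range j, ((x + ((l + M : ℕ) : ℚ))⁻¹ - (x + (l : ℚ))⁻¹) := fun j =>
    shift_sum (fun t => (x + (t : ℚ))⁻¹) M j
  simp only [h2, h3]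
  obtain ⟨S2, hS2⟩ : ∃ S2, S2 = ∑ t ∈ range M, ((x + (t : ℚ)) ^ 2)⁻¹ := ⟨_, rfl⟩
  obtain ⟨S1, hS1⟩ : ∃ S1, S1 = ∑ t ∈ range M, (x + (t : ℚ))⁻¹ := ⟨_, rfl⟩
  rw [← hS2, ← hS1]
  have h4 := sum_fk b K
  have h5 : ∑ j ∈ range (K + 1), (b j ^ 2 * (S2 +
        ∑ l ∈ range j, (((x + ((l + M : ℕ) : ℚ)) ^ 2)⁻¹ - ((x + (l : ℚ)) ^ 2)⁻¹)) +
        (2 * ∑ j' ∈ range (K + 1), fk b j j') * (S1 +
        ∑ l ∈ range j, ((x + ((l + M : ℕ) : ℚ))⁻¹ - (x + (l : ℚ))⁻¹))) =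
      (∑ j ∈ range (K + 1), b j ^ 2) * S2 +
      (∑ j ∈ range (K + 1), (2 * ∑ j' ∈ range (K + 1), fk b j j')) * S1 +
      ∑ j ∈ range (K + 1), ∑ l ∈ range j,
        (b j ^ 2 * (((x + ((l + M : ℕ) : ℚ)) ^ 2)⁻¹ - ((x + (l : ℚ)) ^ 2)⁻¹) +
        (2 * ∑ j' ∈ range (K + 1), fk b j j') * ((x + ((l + M : ℕ) : ℚ))⁻¹ - (x + (l : ℚ))⁻¹)) := by
    rw [Finset.sum_mul, Finset.sum_mul, ← Finset.sum_add_distrib, ← Finset.sum_add_distrib]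
    refine Finset.sum_congr rfl fun j _ => ?_
    rw [Finset.sum_add_distrib, ← Finset.mul_sum, ← Finset.mul_sum (s := range j)]
    ring
  rw [h5, h4, zero_mul, add_zero, mul_add]
  have h6 : (M : ℚ)⁻¹ * ((∑ j ∈ range (K + 1), b j ^ 2) * S2) =
      (∑ j ∈ range (K + 1), b j ^ 2) * ((M : ℚ)⁻¹ * S2) := by ring
  rw [h6, add_sub_cancel_left, Finset.mul_sum]
  refine Finset.sum_congr rfl fun j _ => ?_
  rw [Finset.mul_sum]
  refine Finset.sum_congr rfl fun l _ => ?_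
  have g1 := hx l
  have g2 : x + (l : ℚ) + (M : ℚ) ≠ 0 := by
    have := hx (l + M)
    push_cast at this
    rwa [← add_assoc] at this
  have g3 : x + ((l + M : ℕ) : ℚ) = x + (l : ℚ) + (M : ℚ) := by push_cast; ring
  rw [g3]
  obtain ⟨d, hd⟩ : ∃ d, d = x + (l : ℚ) := ⟨_, rfl⟩
  rw [← hd] at g1 g2 ⊢
  obtain ⟨a, ha⟩ : ∃ a, a = 2 * ∑ j' ∈ range (K + 1), fk b j j' := ⟨_, rfl⟩
  rw [← ha]
  field_simp
  ring

theorem val_id (b : ℕ → ℚ) (K j l : ℕ) (x : ℚ) (hj : j ∈ range (K + 1))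
    (hd : x + (l : ℚ) ≠ 0) (hx : ∀ j' ∈ range (K + 1), x + (l : ℚ) - (j : ℚ) + (j' : ℚ) ≠ 0)
    (h0 : sf K b (x + (l : ℚ) - (j : ℚ)) = 0) :
    b j ^ 2 * (-(2 * (x + (l : ℚ)) + 0) / ((x + (l : ℚ)) ^ 2 * (x + (l : ℚ) + 0) ^ 2)) +
        (2 * ∑ j' ∈ range (K + 1), fk b j j') * (-1 / ((x + (l : ℚ)) * (x + (l : ℚ) + 0))) =
      -(2 * ∑ j' ∈ (range (K + 1)).erase j, (b j / (x + (l : ℚ))) *
      (b j' / (x + (l : ℚ) - (j : ℚ) + (j' : ℚ))) / ((j' : ℚ) - (j : ℚ))) := by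
  obtain ⟨d, hdd⟩ : ∃ d, d = x + (l : ℚ) := ⟨_, rfl⟩
  rw [← hdd] at hd hx h0 ⊢
  have h1 : ∑ j' ∈ range (K + 1), fk b j j' =
      b j * ∑ j' ∈ (range (K + 1)).erase j, b j' / ((j' : ℚ) - (j : ℚ)) := by
    rw [Finset.mul_sum, ← Finset.add_sum_erase _ _ hj, fk_self, zero_add]
    refine Finset.sum_congr rfl fun j' _ => ?_
    unfold fk
    ring
  have h2 : ∑ j' ∈ (range (K + 1)).erase j, b j' / (d - (j : ℚ) + (j' : ℚ)) = -(b j / d) := by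
    unfold sf at h0
    rw [← Finset.add_sum_erase _ _ hj] at h0
    rw [show d - (j : ℚ) + (j : ℚ) = d by ring] at h0
    linarith
  have h3 : ∑ j' ∈ (range (K + 1)).erase j, (b j / d) *
      (b j' / (d - (j : ℚ) + (j' : ℚ))) / ((j' : ℚ) - (j : ℚ)) =
      (b j / d ^ 2) * (∑ j' ∈ (range (K + 1)).erase j, b j' / ((j' : ℚ) - (j : ℚ)) -
        ∑ j' ∈ (range (K + 1)).erase j, b j' / (d - (j : ℚ) + (j' : ℚ))) := by
    rw [← Finset.sum_sub_distrib, Finset.mul_sum]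
    refine Finset.sum_congr rfl fun j' hj' => ?_
    obtain ⟨e1, e2⟩ := Finset.mem_erase.1 hj'
    have e3 := hx j' e2
    have e4 : (j' : ℚ) - (j : ℚ) ≠ 0 := by
      rw [sub_ne_zero]
      exact_mod_cast e1
    field_simp
    ring
  rw [h3, h2, h1]
  obtain ⟨Y, hY⟩ : ∃ Y, Y = ∑ j' ∈ (range (K + 1)).erase j, b j' / ((j' : ℚ) - (j : ℚ)) := ⟨_, rfl⟩
  rw [← hY]
  simp only [add_zero]
  field_simp
  ring

theorem lim_term (p : ℕ) [Fact p.Prime] (d a c : ℚ_[p]) (hd : d ≠ 0) :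
    Tendsto (fun N : ℕ => a * (-(2 * d + (p : ℚ_[p]) ^ N) / (d ^ 2 * (d + (p : ℚ_[p]) ^ N) ^ 2)) +
      c * (-1 / (d * (d + (p : ℚ_[p]) ^ N)))) atTop
      (𝓝 (a * (-(2 * d + 0) / (d ^ 2 * (d + 0) ^ 2)) + c * (-1 / (d * (d + 0))))) := by
  have hy : Tendsto (fun N : ℕ => (p : ℚ_[p]) ^ N) atTop (𝓝 0) :=
    tendsto_pow_atTop_nhds_zero_of_norm_lt_one Padic.norm_p_lt_one
  have h1 : d ^ 2 * (d + 0) ^ 2 ≠ 0 := by
    rw [add_zero]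
    exact mul_ne_zero (pow_ne_zero 2 hd) (pow_ne_zero 2 hd)
  have h2 : d * (d + 0) ≠ 0 := by
    rw [add_zero]
    exact mul_ne_zero hd hd
  exact (tendsto_const_nhds.mul (((tendsto_const_nhds.add hy).neg).div
    (tendsto_const_nhds.mul ((tendsto_const_nhds.add hy).pow 2)) h1)).add
    (tendsto_const_nhds.mul (tendsto_const_nhds.div
    (tendsto_const_nhds.mul (tendsto_const_nhds.add hy)) h2))

theorem th_pos (p r : ℕ) [Fact p.Prime] : 0 < th p r 1 := by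
  unfold th
  have h1 : (0 : ℚ) < (p : ℚ) ^ r := pow_pos (by exact_mod_cast (Fact.out : p.Prime).pos) r
  have h2 : (0 : ℚ) < ((1 : ℕ) : ℚ) := by norm_num
  exact div_pos h2 h1

theorem th_int (p r : ℕ) [Fact p.Prime] (hr : 1 ≤ r) (z : ℤ) : th p r 1 + (z : ℚ) ≠ 0 := by
  intro h
  unfold th at h
  have h1 : (0 : ℚ) < (p : ℚ) ^ r := pow_pos (by exact_mod_cast (Fact.out : p.Prime).pos) r
  have h2 : ((1 : ℕ) : ℚ) / (p : ℚ) ^ r = ((-z : ℤ) : ℚ) := by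
    push_cast
    push_cast at h
    linarith
  rw [div_eq_iff h1.ne'] at h2
  have h3 : (1 : ℤ) = -z * (p : ℤ) ^ r := by exact_mod_cast h2
  have h4 : (p : ℤ) ^ r ∣ 1 := ⟨-z, by rw [mul_comm]; exact h3⟩
  have h5 : (p : ℤ) ∣ 1 := dvd_trans (dvd_pow_self _ (by omega)) h4
  have h6 : (p : ℕ) ∣ 1 := by exact_mod_cast h5
  exact (Fact.out : p.Prime).one_lt.ne' (Nat.dvd_one.1 h6)

theorem sf_zero (p r K h : ℕ) [Fact p.Prime] (hr : 1 ≤ r) (h1 : 1 ≤ h) (h2 : h ≤ K) :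
    sf K (b1 p r K) (th p r 1 - (h : ℚ)) = 0 := by
  have hg : Good K (th p r 1 - (h : ℚ)) := by
    intro j _ h3
    refine th_int p r hr ((j : ℤ) - (h : ℤ)) ?_
    push_cast
    linarith
  have h3 := (p_P3 K (th p r 1 - (h : ℚ)) hg).2 (th p r 1)
  have h4 : (b1 p r K) = bet K (th p r 1) := rfl
  rw [h4, h3]
  have h5 : bin (th p r 1 - (h : ℚ) - th p r 1 + (K : ℚ)) K = 0 := by
    unfold bin
    have h6 : ∏ m ∈ range K, (th p r 1 - (h : ℚ) - th p r 1 + (K : ℚ) - (m : ℚ)) = 0 := by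
      refine Finset.prod_eq_zero (i := K - h) (Finset.mem_range.2 (by omega)) ?_
      rw [Nat.cast_sub h2]
      ring
    rw [h6, zero_div]
  rw [h5, zero_mul]

end BV4

open BV4 in
/-- Block V4. -/
theorem p_V4 : S_V4 := by
  intro p _ r K hr
  obtain ⟨b, hb⟩ : ∃ b, b = b1 p r K := ⟨_, rfl⟩
  obtain ⟨x, hx⟩ : ∃ x, x = th p r 1 := ⟨_, rfl⟩
  have hxp : 0 < x := by rw [hx]; exact th_pos p r
  have hxn : ∀ n : ℕ, x + (n : ℚ) ≠ 0 := fun n => by positivity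
  have hxn' : ∀ n : ℕ, ((x : ℚ) : ℚ_[p]) + (n : ℚ_[p]) ≠ 0 := fun n => by
    have := hxn n
    exact_mod_cast this
  have key : ∀ N : ℕ, av p (vv p r 1 (fun u => sf K (b1 p r K) u ^ 2)) N -
      ((rho3 p r K : ℚ) : ℚ_[p]) * av p (fun t => ((xa p r 1 t) ^ 2)⁻¹) N =
      ∑ j ∈ range (K + 1), ∑ l ∈ range j,
      ((((b j : ℚ) : ℚ_[p]) ^ 2) * (-(2 * ((x : ℚ_[p]) + (l : ℚ_[p])) + (p : ℚ_[p]) ^ N) /
        (((x : ℚ_[p]) + (l : ℚ_[p])) ^ 2 * ((x : ℚ_[p]) + (l : ℚ_[p]) + (p : ℚ_[p]) ^ N) ^ 2)) +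
        (((2 * ∑ j' ∈ range (K + 1), fk b j j' : ℚ)) : ℚ_[p]) *
          (-1 / (((x : ℚ_[p]) + (l : ℚ_[p])) * ((x : ℚ_[p]) + (l : ℚ_[p]) + (p : ℚ_[p]) ^ N)))) := by
    intro N
    have h1 := main_id b K (p ^ N) x hxn (pow_pos (Fact.out : p.Prime).pos N)
    have h2 := congrArg (fun q : ℚ => (q : ℚ_[p])) h1
    have h3 : av p (vv p r 1 (fun u => sf K (b1 p r K) u ^ 2)) N =
        ((((p ^ N : ℕ) : ℚ)⁻¹ * ∑ t ∈ range (p ^ N), (sf K b (x + (t : ℚ))) ^ 2 : ℚ) : ℚ_[p]) := by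
      unfold av vv
      rw [hb, hx]
      push_cast
      rfl
    have h4 : av p (fun t => ((xa p r 1 t) ^ 2)⁻¹) N =
        ((((p ^ N : ℕ) : ℚ)⁻¹ * ∑ t ∈ range (p ^ N), ((x + (t : ℚ)) ^ 2)⁻¹ : ℚ) : ℚ_[p]) := by
      unfold av xa
      rw [hx]
      unfold th
      push_cast
      rfl
    have h5 : rho3 p r K = ∑ j ∈ range (K + 1), b j ^ 2 := by
      unfold rho3
      rw [hb]
    rw [h3, h4, h5, ← Rat.cast_mul, ← Rat.cast_sub, h2]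
    push_cast
    rfl
  simp only [key]
  have hlim : ((rat3 p r K : ℚ) : ℚ_[p]) = ∑ j ∈ range (K + 1), ∑ l ∈ range j,
      ((((b j : ℚ) : ℚ_[p]) ^ 2) * (-(2 * ((x : ℚ_[p]) + (l : ℚ_[p])) + 0) /
        (((x : ℚ_[p]) + (l : ℚ_[p])) ^ 2 * ((x : ℚ_[p]) + (l : ℚ_[p]) + 0) ^ 2)) +
        (((2 * ∑ j' ∈ range (K + 1), fk b j j' : ℚ)) : ℚ_[p]) *
          (-1 / (((x : ℚ_[p]) + (l : ℚ_[p])) * ((x : ℚ_[p]) + (l : ℚ_[p]) + 0)))) := by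
    have h1 : rat3 p r K = ∑ j ∈ range (K + 1), ∑ l ∈ range j,
      (b j ^ 2 * (-(2 * (x + (l : ℚ)) + 0) / ((x + (l : ℚ)) ^ 2 * (x + (l : ℚ) + 0) ^ 2)) +
        (2 * ∑ j' ∈ range (K + 1), fk b j j') * (-1 / ((x + (l : ℚ)) * (x + (l : ℚ) + 0)))) := by
      unfold rat3
      rw [← Finset.sum_neg_distrib]
      refine Finset.sum_congr rfl fun j hj => ?_
      rw [← Finset.sum_neg_distrib]
      refine Finset.sum_congr rfl fun l hl => ?_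
      have hl' := Finset.mem_range.1 hl
      have hj' := Finset.mem_range.1 hj
      rw [val_id b K j l x hj (hxn l) ?_ ?_, hb, hx]
      · intro j' _ h2
        refine th_int p r hr ((l : ℤ) - (j : ℤ) + (j' : ℤ)) ?_
        rw [hx] at h2
        push_cast
        linarith
      · have h2 := sf_zero p r K (j - l) hr (by omega) (by omega)
        rw [Nat.cast_sub hl'.le] at h2
        rw [hb, hx]
        rw [show th p r 1 + (l : ℚ) - (j : ℚ) = th p r 1 - ((j : ℚ) - (l : ℚ)) by ring]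
        exact h2
    rw [h1]
    push_cast
    rfl
  rw [hlim]
  exact tendsto_finsetSum _ fun j _ => tendsto_finsetSum _ fun l _ =>
    lim_term p _ _ _ (hxn' l)

end Pool.Agent.Work.MP_03df5c_pb
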