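import Pool.Agent.Work.MP_03df5c_pb.Interface4

/-!
# Block V5: denominators and sizes of the two coefficients
-/

open Finset Filter Topology

namespace Pool.Agent.Work.MP_03df5c_pb

open Pool.Agent.Work.MP_03df5c_h91

namespace BV5

/-- the integers in `ℚ` -/
def II : Subring ℚ := (Int.castRingHom ℚ).range

lemma mem_II {x : ℚ} : x ∈ II ↔ ∃ z : ℤ, x = (z : ℚ) := by
  unfold II
  rw [RingHom.mem_range]
  constructor
  · rintro ⟨z, hz⟩; exact ⟨z, by rw [← hz]; rfl⟩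
  · rintro ⟨z, hz⟩; exact ⟨z, by rw [hz]; rfl⟩

lemma b1_mem (hP5 : S_P5) (p : ℕ) [hp : Fact p.Prime] (r K j : ℕ) :
    ((p : ℚ) ^ ((r + 1) * K)) * b1 p r K j ∈ II := by
  have hp0 : (p : ℚ) ^ r ≠ 0 := pow_ne_zero _ (by exact_mod_cast hp.out.ne_zero)
  obtain ⟨z, hz⟩ := hP5 p r K (((K : ℤ) - (j : ℤ)) * (p : ℤ) ^ r - 1)
  rw [mem_II]
  refine ⟨(-1) ^ j * (K.choose j : ℤ) * z, ?_⟩
  have e : (K : ℚ) - (j : ℚ) - th p r 1
      = (((((K : ℤ) - (j : ℤ)) * (p : ℤ) ^ r - 1 : ℤ)) : ℚ) / (p : ℚ) ^ r := by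
    unfold th
    push_cast
    field_simp
  unfold b1 bet
  rw [e]
  push_cast
  rw [← hz]
  push_cast
  ring

lemma th_pos (p : ℕ) [hp : Fact p.Prime] (r : ℕ) : 0 < th p r 1 := by
  unfold th
  have : (0 : ℚ) < p := by exact_mod_cast hp.out.pos
  positivity

lemma two_th_le (p : ℕ) [hp : Fact p.Prime] {r : ℕ} (hr : 1 ≤ r) : 2 * th p r 1 ≤ 1 := by
  unfold th
  have h2 : 2 ≤ p ^ r := hp.out.two_le.trans (Nat.le_self_pow (by omega) p)
  have h2' : (2 : ℚ) ≤ (p : ℚ) ^ r := by exact_mod_cast h2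
  have h0 : (0 : ℚ) < (p : ℚ) ^ r := by linarith
  rw [Nat.cast_one, mul_one_div, div_le_one h0]
  exact h2'

lemma b1_abs (hP4 : S_P4) (p : ℕ) [hp : Fact p.Prime] {r : ℕ} (hr : 1 ≤ r) {K j : ℕ}
    (hj : j ≤ K) : |b1 p r K j| ≤ 1 :=
  hP4 K (th p r 1) (th_pos p r) (by have := two_th_le p hr; have := th_pos p r; linarith) j hj

lemma le_abs (p : ℕ) [hp : Fact p.Prime] {r : ℕ} (hr : 1 ≤ r) (n : ℤ) :
    th p r 1 ≤ |th p r 1 + (n : ℚ)| := by
  have h0 := th_pos p r
  have h1 := two_th_le p hr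
  rcases le_or_gt 0 n with h | h
  · have hn : (0 : ℚ) ≤ n := by exact_mod_cast h
    exact le_trans (by linarith) (le_abs_self _)
  · have hn : (n : ℚ) ≤ -1 := by exact_mod_cast (by omega : n ≤ -1)
    exact le_trans (by linarith) (neg_le_abs _)

lemma div_abs_le (p : ℕ) [hp : Fact p.Prime] {r : ℕ} (hr : 1 ≤ r) {b : ℚ} (hb : |b| ≤ 1) (n : ℤ) :
    |b / (th p r 1 + (n : ℚ))| ≤ (p : ℚ) ^ r := by
  have h0 := th_pos p r
  have hp0 : (0 : ℚ) < (p : ℚ) ^ r := by
    have : (0 : ℚ) < p := by exact_mod_cast hp.out.pos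
    positivity
  have h1 := le_abs p hr n
  rw [abs_div, div_le_iff₀ (lt_of_lt_of_le h0 h1)]
  have h2 : (p : ℚ) ^ r * th p r 1 = 1 := by
    unfold th
    rw [Nat.cast_one, mul_one_div, div_self hp0.ne']
  calc |b| ≤ 1 := hb
    _ = (p : ℚ) ^ r * th p r 1 := h2.symm
    _ ≤ _ := mul_le_mul_of_nonneg_left h1 hp0.le

lemma abs_sum_le {s : Finset ℕ} {f : ℕ → ℚ} {B : ℚ} (h : ∀ i ∈ s, |f i| ≤ B) :
    |∑ i ∈ s, f i| ≤ s.card * B := by
  refine (abs_sum_le_sum_abs _ _).trans ?_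
  refine (sum_le_card_nsmul _ _ _ h).trans ?_
  rw [nsmul_eq_mul]

lemma dd_div_mem (hD1 : S_D1) {K j j' : ℕ} (hj : j ≤ K) (hj' : j' ≤ K) (hne : j' ≠ j) :
    (dd K : ℚ) / ((j' : ℚ) - (j : ℚ)) ∈ II := by
  rcases lt_or_gt_of_ne hne with h | h
  · obtain ⟨c, hc⟩ := (hD1.2.1 K).2 (j - j') (by omega) (by omega)
    rw [mem_II]
    refine ⟨-(c : ℤ), ?_⟩
    have h1 : ((j' : ℚ) - (j : ℚ)) ≠ 0 := by
      have : (j' : ℚ) < j := by exact_mod_cast h
      intro h2; linarith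
    have h2 : ((j - j' : ℕ) : ℚ) = (j : ℚ) - (j' : ℚ) := by push_cast [Nat.cast_sub h.le]; ring
    rw [hc, Nat.cast_mul, h2, div_eq_iff h1]
    push_cast
    ring
  · obtain ⟨c, hc⟩ := (hD1.2.1 K).2 (j' - j) (by omega) (by omega)
    rw [mem_II]
    refine ⟨(c : ℤ), ?_⟩
    have h1 : ((j' : ℚ) - (j : ℚ)) ≠ 0 := by
      have : (j : ℚ) < j' := by exact_mod_cast h
      intro h2; linarith
    have h2 : ((j' - j : ℕ) : ℚ) = (j' : ℚ) - (j : ℚ) := by push_cast [Nat.cast_sub h.le]; ring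
    rw [hc, Nat.cast_mul, h2, div_eq_iff h1]
    push_cast
    ring

lemma inv_abs_le {j j' : ℕ} (hne : j' ≠ j) (x : ℚ) : |x / ((j' : ℚ) - (j : ℚ))| ≤ |x| := by
  have h1 : (1 : ℚ) ≤ |(j' : ℚ) - (j : ℚ)| := by
    rcases lt_or_gt_of_ne hne with h | h
    · have : (j' : ℚ) + 1 ≤ j := by exact_mod_cast h
      exact le_trans (by linarith) (neg_le_abs _)
    · have : (j : ℚ) + 1 ≤ j' := by exact_mod_cast h
      exact le_trans (by linarith) (le_abs_self _)
  rw [abs_div, div_le_iff₀ (by linarith)]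
  exact le_mul_of_one_le_right (abs_nonneg _) h1

end BV5

open BV5 in
theorem p_V5 (hP4 : S_P4) (hP5 : S_P5) (hP7 : S_P7) (hD1 : S_D1) : S_V5 := by
  intro p hp r K hr
  have hp0 : (0 : ℚ) < (p : ℚ) ^ r := by
    have : (0 : ℚ) < p := by exact_mod_cast hp.out.pos
    positivity
  have hp1 : ¬ p ∣ 1 := fun h => hp.out.one_lt.ne' (Nat.dvd_one.1 h)
  refine ⟨?_, ?_, ?_, ?_⟩
  · -- denominators of `rho3`
    have h : ((p ^ (2 * ((r + 1) * K)) : ℕ) : ℚ) * rho3 p r K ∈ II := by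
      unfold rho3
      rw [mul_sum]
      refine Subring.sum_mem _ fun j _ => ?_
      have e : ((p ^ (2 * ((r + 1) * K)) : ℕ) : ℚ) * b1 p r K j ^ 2
          = ((p : ℚ) ^ ((r + 1) * K) * b1 p r K j) * ((p : ℚ) ^ ((r + 1) * K) * b1 p r K j) := by
        push_cast
        rw [two_mul, pow_add]
        ring
      rw [e]
      exact Subring.mul_mem _ (b1_mem hP5 p r K j) (b1_mem hP5 p r K j)
    exact mem_II.1 h
  · -- denominators of `rat3`
    have h : ((p ^ (2 * ((r + 1) * K)) * dd K ^ 3 : ℕ) : ℚ) * rat3 p r K ∈ II := by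
      unfold rat3
      rw [mul_neg, mul_sum]
      refine Subring.neg_mem _ (Subring.sum_mem _ fun j hj => ?_)
      rw [mul_sum]
      refine Subring.sum_mem _ fun l hl => ?_
      rw [mul_left_comm, mul_sum]
      refine Subring.mul_mem _ (mem_II.2 ⟨2, by norm_num⟩) (Subring.sum_mem _ fun j' hj' => ?_)
      rw [mem_range] at hj hl
      have hj'1 : j' ≠ j := ne_of_mem_erase hj'
      have hj'2 : j' < K + 1 := mem_range.1 (mem_of_mem_erase hj')
      obtain ⟨z1, hz1⟩ := hP7 p r 1 K (j - l) j hr hp1 (by omega) (by omega) (by omega)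
      obtain ⟨z2, hz2⟩ := hP7 p r 1 K (j - l) j' hr hp1 (by omega) (by omega) (by omega)
      have hjl : ((j - l : ℕ) : ℚ) = (j : ℚ) - (l : ℚ) := by push_cast [Nat.cast_sub hl.le]; ring
      have e1 : th p r 1 - ((j - l : ℕ) : ℚ) + (j : ℚ) = th p r 1 + (l : ℚ) := by rw [hjl]; ring
      have e2 : th p r 1 - ((j - l : ℕ) : ℚ) + (j' : ℚ)
          = th p r 1 + (l : ℚ) - (j : ℚ) + (j' : ℚ) := by rw [hjl]; ring
      rw [e1] at hz1
      rw [e2] at hz2
      have m1 : ((dd K * p ^ ((r + 1) * K) : ℕ) : ℚ) * (b1 p r K j / (th p r 1 + (l : ℚ))) ∈ II :=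
        mem_II.2 ⟨z1, hz1⟩
      have m2 : ((dd K * p ^ ((r + 1) * K) : ℕ) : ℚ)
          * (b1 p r K j' / (th p r 1 + (l : ℚ) - (j : ℚ) + (j' : ℚ))) ∈ II :=
        mem_II.2 ⟨z2, hz2⟩
      have m3 := dd_div_mem hD1 (K := K) (j := j) (j' := j') (by omega) (by omega) hj'1
      have e : ((p ^ (2 * ((r + 1) * K)) * dd K ^ 3 : ℕ) : ℚ) *
          ((b1 p r K j / (th p r 1 + (l : ℚ))) *
            (b1 p r K j' / (th p r 1 + (l : ℚ) - (j : ℚ) + (j' : ℚ))) / ((j' : ℚ) - (j : ℚ)))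
          = (((dd K * p ^ ((r + 1) * K) : ℕ) : ℚ) * (b1 p r K j / (th p r 1 + (l : ℚ)))) *
            (((dd K * p ^ ((r + 1) * K) : ℕ) : ℚ)
              * (b1 p r K j' / (th p r 1 + (l : ℚ) - (j : ℚ) + (j' : ℚ)))) *
            ((dd K : ℚ) / ((j' : ℚ) - (j : ℚ))) := by
        generalize b1 p r K j / (th p r 1 + (l : ℚ)) = A
        generalize b1 p r K j' / (th p r 1 + (l : ℚ) - (j : ℚ) + (j' : ℚ)) = B
        push_cast
        rw [two_mul ((r + 1) * K), pow_add]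
        ring
      rw [e]
      exact Subring.mul_mem _ (Subring.mul_mem _ m1 m2) m3
    exact mem_II.1 h
  · -- size of `rho3`
    have h : |rho3 p r K| ≤ (K : ℚ) + 1 := by
      unfold rho3
      refine (abs_sum_le (B := 1) fun j hj => ?_).trans ?_
      · rw [abs_pow]
        exact pow_le_one₀ (abs_nonneg _) (b1_abs hP4 p hr (by have := mem_range.1 hj; omega))
      · rw [card_range]; push_cast; linarith
    exact_mod_cast h
  · -- size of `rat3`
    have h : |rat3 p r K| ≤ 2 * (p : ℚ) ^ (2 * r) * ((K : ℚ) + 1) ^ 3 := by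
      unfold rat3
      rw [abs_neg]
      set P : ℚ := (p : ℚ) ^ r * (p : ℚ) ^ r with hP
      have hPpos : 0 < P := by positivity
      have hK0 : (0 : ℚ) ≤ (K : ℚ) := Nat.cast_nonneg K
      refine (abs_sum_le (B := ((K : ℚ) + 1) * (2 * (((K : ℚ) + 1) * P))) fun j hj => ?_).trans ?_
      · rw [mem_range] at hj
        refine (abs_sum_le (B := 2 * (((K : ℚ) + 1) * P)) fun l hl => ?_).trans ?_
        · rw [mem_range] at hl
          rw [abs_mul, abs_two]
          refine mul_le_mul_of_nonneg_left ?_ (by norm_num)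
          refine (abs_sum_le (B := P) fun j' hj' => ?_).trans ?_
          · have hj'1 : j' ≠ j := ne_of_mem_erase hj'
            have hj'2 : j' < K + 1 := mem_range.1 (mem_of_mem_erase hj')
            refine (inv_abs_le hj'1 _).trans ?_
            rw [abs_mul, hP]
            have a1 : |b1 p r K j / (th p r 1 + (l : ℚ))| ≤ (p : ℚ) ^ r := by
              have := div_abs_le p hr (b1_abs hP4 p hr (K := K) (j := j) (by omega)) (l : ℤ)
              rwa [Int.cast_natCast] at this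
            have a2 : |b1 p r K j' / (th p r 1 + (l : ℚ) - (j : ℚ) + (j' : ℚ))| ≤ (p : ℚ) ^ r := by
              have := div_abs_le p hr (b1_abs hP4 p hr (K := K) (j := j') (by omega))
                ((l : ℤ) - (j : ℤ) + (j' : ℤ))
              have e : th p r 1 + (((l : ℤ) - (j : ℤ) + (j' : ℤ) : ℤ) : ℚ)
                  = th p r 1 + (l : ℚ) - (j : ℚ) + (j' : ℚ) := by push_cast; ring
              rwa [e] at this
            exact mul_le_mul a1 a2 (abs_nonneg _) hp0.le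
          · refine mul_le_mul_of_nonneg_right ?_ hPpos.le
            have : ((range (K + 1)).erase j).card ≤ K + 1 :=
              (card_le_card (erase_subset _ _)).trans (by rw [card_range])
            exact_mod_cast this
        · refine mul_le_mul_of_nonneg_right ?_ (by positivity)
          rw [card_range]
          exact_mod_cast hj.le
      · rw [card_range]
        push_cast
        rw [hP, two_mul r, pow_add]
        apply le_of_eq
        ring
    have h' : ((|rat3 p r K| : ℚ) : ℝ) ≤ ((2 * (p : ℚ) ^ (2 * r) * ((K : ℚ) + 1) ^ 3 : ℚ) : ℝ) := by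
      exact_mod_cast h
    push_cast at h'
    exact h'

end Pool.Agent.Work.MP_03df5c_pb
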