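import Pool.Agent.Work.MP_03df5c_pb.Interface4

/-! # Block V6 (helper96): the limit of the averages of `(1/D + t)^(-2)`. -/

open Finset Filter Topology

namespace Pool.Agent.Work.MP_03df5c_pb

open Pool.Agent.Work.MP_03df5c_h91

namespace BV6

lemma range3 {M : Type*} [AddCommMonoid M] (G : ℕ → M) (m : ℕ) :
    ∑ n ∈ range (3 * m), G n = ∑ t ∈ range m, (G (3 * t) + G (3 * t + 1) + G (3 * t + 2)) := by
  induction m with
  | zero => simp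
  | succ m ih =>
    rw [sum_range_succ, ← ih, show 3 * (m + 1) = 3 * m + 1 + 1 + 1 by ring, sum_range_succ,
      sum_range_succ, sum_range_succ]
    simp only [add_assoc]

lemma range4 {M : Type*} [AddCommMonoid M] (G : ℕ → M) (m : ℕ) :
    ∑ n ∈ range (4 * m), G n =
      ∑ t ∈ range m, (G (4 * t) + G (4 * t + 1) + G (4 * t + 2) + G (4 * t + 3)) := by
  induction m with
  | zero => simp
  | succ m ih =>
    rw [sum_range_succ, ← ih, show 4 * (m + 1) = 4 * m + 1 + 1 + 1 + 1 by ring, sum_range_succ,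
      sum_range_succ, sum_range_succ, sum_range_succ]
    simp only [add_assoc]

lemma split (p r : ℕ) [Fact p.Prime] (h : (p = 2 ∧ r = 2) ∨ (p = 3 ∧ r = 1)) (F : ℕ → ℚ_[p])
    (N : ℕ) : ∑ n ∈ (range (p ^ (N + r))).filter (fun n => ¬ p ∣ n), F n =
      ∑ t ∈ range (p ^ N), F (1 + p ^ r * t) +
        ∑ t ∈ range (p ^ N), F (p ^ (N + r) - (1 + p ^ r * t)) := by
  have key : ∑ n ∈ (range (p ^ (N + r))).filter (fun n => ¬ p ∣ n), F n =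
      ∑ t ∈ range (p ^ N), F (1 + p ^ r * t) +
        ∑ t ∈ range (p ^ N), F (p ^ r - 1 + p ^ r * t) := by
    rw [sum_filter, ← sum_add_distrib]
    rcases h with ⟨rfl, rfl⟩ | ⟨rfl, rfl⟩
    · rw [show 2 ^ (N + 2) = 4 * 2 ^ N by ring, range4]
      refine sum_congr rfl fun t _ => ?_
      rw [if_neg (by omega), if_pos (by omega), if_neg (by omega), if_pos (by omega), zero_add,
        add_zero, show 4 * t + 1 = 1 + 2 ^ 2 * t by ring, show 4 * t + 3 = 2 ^ 2 - 1 + 2 ^ 2 * t by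
        norm_num; ring]
    · rw [show 3 ^ (N + 1) = 3 * 3 ^ N by ring, range3]
      refine sum_congr rfl fun t _ => ?_
      rw [if_neg (by omega), if_pos (by omega), if_pos (by omega), zero_add,
        show 3 * t + 1 = 1 + 3 ^ 1 * t by ring, show 3 * t + 2 = 3 ^ 1 - 1 + 3 ^ 1 * t by
        norm_num; ring]
  rw [key]
  congr 1
  rw [← sum_range_reflect]
  refine sum_congr rfl fun t ht => ?_
  rw [mem_range] at ht
  congr 1
  have h1 : p ^ (N + r) = p ^ r * p ^ N := by rw [pow_add, mul_comm]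
  have h2 : 1 ≤ p ^ r := Nat.one_le_pow _ _ (Fact.out : p.Prime).pos
  obtain ⟨s, hs⟩ : ∃ s, p ^ N = t + 1 + s := ⟨p ^ N - (t + 1), by omega⟩
  rw [h1, hs, show t + 1 + s - 1 - t = s by omega, Nat.mul_add, Nat.mul_add, mul_one]
  omega

variable {p : ℕ} [hp : Fact p.Prime]

/-- `∑ (1 + p^r t)^(-k)` -/
noncomputable def A (p : ℕ) [Fact p.Prime] (r k N : ℕ) : ℚ_[p] :=
  ∑ t ∈ range (p ^ N), (((1 + p ^ r * t : ℕ) : ℚ_[p]) ^ k)⁻¹

lemma unit_norm {r : ℕ} (hr : 1 ≤ r) (t : ℕ) : ‖((1 + p ^ r * t : ℕ) : ℚ_[p])‖ = 1 := by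
  apply norm_nat_eq_one
  intro h
  have h1 : p ∣ p ^ r * t := dvd_mul_of_dvd_left (dvd_pow_self p (by omega)) t
  exact hp.out.one_lt.ne' (Nat.dvd_one.1 ((Nat.dvd_add_left h1).1 h))

lemma A_small (h1 : S_V1) {r : ℕ} (hr : 1 ≤ r) (k N : ℕ) :
    ‖A p r k N‖ ≤ ((p : ℝ) ^ N)⁻¹ * (p + 1) := by
  have hp0 : (p : ℚ_[p]) ≠ 0 := by exact_mod_cast hp.out.ne_zero
  have hL : ∀ t n : ℕ, ‖(((1 + p ^ r * (t + p ^ n) : ℕ) : ℚ_[p]) ^ k)⁻¹ -
      (((1 + p ^ r * t : ℕ) : ℚ_[p]) ^ k)⁻¹‖ ≤ 1 * ((p : ℝ) ^ n)⁻¹ := by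
    intro t n
    refine (norm_inv_pow_sub_le (unit_norm hr _) (unit_norm hr _) k).trans ?_
    have e : ((1 + p ^ r * (t + p ^ n) : ℕ) : ℚ_[p]) - ((1 + p ^ r * t : ℕ) : ℚ_[p]) =
        ((p ^ r : ℕ) : ℚ_[p]) * (p : ℚ_[p]) ^ n := by
      push_cast
      ring
    rw [e, norm_mul, Padic.norm_p_pow, zpow_neg, zpow_natCast]
    exact mul_le_mul_of_nonneg_right (norm_natCast_le_one _) (by positivity)
  have h2 := h1 p (fun t => (((1 + p ^ r * t : ℕ) : ℚ_[p]) ^ k)⁻¹) 1 zero_le_one hL N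
  have e : A p r k N = (p : ℚ_[p]) ^ N *
      av p (fun t => (((1 + p ^ r * t : ℕ) : ℚ_[p]) ^ k)⁻¹) N := by
    unfold av A
    rw [← mul_assoc, mul_inv_cancel₀ (pow_ne_zero _ hp0), one_mul]
  rw [e, norm_mul, Padic.norm_p_pow, zpow_neg, zpow_natCast]
  refine mul_le_mul_of_nonneg_left ?_ (by positivity)
  have h3 : ‖(((1 + p ^ r * 0 : ℕ) : ℚ_[p]) ^ k)⁻¹‖ = 1 := by
    rw [norm_inv, norm_pow, unit_norm hr, one_pow, inv_one]
  calc ‖av p (fun t => (((1 + p ^ r * t : ℕ) : ℚ_[p]) ^ k)⁻¹) N‖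
      = ‖(av p (fun t => (((1 + p ^ r * t : ℕ) : ℚ_[p]) ^ k)⁻¹) N -
          (((1 + p ^ r * 0 : ℕ) : ℚ_[p]) ^ k)⁻¹) + (((1 + p ^ r * 0 : ℕ) : ℚ_[p]) ^ k)⁻¹‖ := by
        rw [sub_add_cancel]
    _ ≤ _ := norm_add_le _ _
    _ ≤ (p : ℝ) * 1 + 1 := by
        rw [h3]
        exact add_le_add_left h2 1
    _ = (p : ℝ) + 1 := by ring

lemma expand {r : ℕ} (hr : 1 ≤ r) (N : ℕ) (h : (p = 2 ∧ r = 2) ∨ (p = 3 ∧ r = 1)) :
    ‖invPowSum p 2 (N + r) - 2 * A p r 2 N - 2 * (p : ℚ_[p]) ^ (N + r) * A p r 3 N‖ ≤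
      (((p : ℝ) ^ (N + r))⁻¹) ^ 2 := by
  have e : invPowSum p 2 (N + r) - 2 * A p r 2 N - 2 * (p : ℚ_[p]) ^ (N + r) * A p r 3 N =
      ∑ t ∈ range (p ^ N), ((((p ^ (N + r) - (1 + p ^ r * t) : ℕ) : ℚ_[p]) ^ 2)⁻¹ -
        (((1 + p ^ r * t : ℕ) : ℚ_[p]) ^ 2)⁻¹ -
        2 * (p : ℚ_[p]) ^ (N + r) * (((1 + p ^ r * t : ℕ) : ℚ_[p]) ^ 3)⁻¹) := by
    unfold invPowSum
    rw [split p r h, sum_sub_distrib, sum_sub_distrib, ← mul_sum]
    unfold A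
    ring
  rw [e]
  refine norm_sum_le_of_le _ _ (by positivity) fun t ht => ?_
  rw [mem_range] at ht
  have h1 : p ^ (N + r) = p ^ r * p ^ N := by rw [pow_add, mul_comm]
  have h2 : 1 ≤ p ^ r := Nat.one_le_pow _ _ hp.out.pos
  have hle : 1 + p ^ r * t ≤ p ^ (N + r) := by
    rw [h1]
    calc 1 + p ^ r * t ≤ p ^ r + p ^ r * t := by omega
      _ = p ^ r * (t + 1) := by ring
      _ ≤ p ^ r * p ^ N := Nat.mul_le_mul_left _ ht
  have hx : ‖-((1 + p ^ r * t : ℕ) : ℚ_[p])‖ = 1 := by rw [norm_neg, unit_norm hr]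
  have hc : ((p ^ (N + r) - (1 + p ^ r * t) : ℕ) : ℚ_[p]) =
      -((1 + p ^ r * t : ℕ) : ℚ_[p]) + (p : ℚ_[p]) ^ (N + r) := by
    rw [Nat.cast_sub hle]
    push_cast
    ring
  have hxy : ‖-((1 + p ^ r * t : ℕ) : ℚ_[p]) + (p : ℚ_[p]) ^ (N + r)‖ = 1 := by
    rw [← hc]
    apply norm_nat_eq_one
    intro hd
    have h3 : p ∣ p ^ (N + r) := dvd_pow_self p (by omega)
    have h4 : p ∣ 1 + p ^ r * t := (Nat.dvd_sub_iff_right hle h3).1 hd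
    have h5 : p ∣ p ^ r * t := dvd_mul_of_dvd_left (dvd_pow_self p (by omega)) t
    exact hp.out.one_lt.ne' (Nat.dvd_one.1 ((Nat.dvd_add_left h5).1 h4))
  have hyn : ‖(p : ℚ_[p]) ^ (N + r)‖ = ((p : ℝ) ^ (N + r))⁻¹ := by
    rw [Padic.norm_p_pow, zpow_neg, zpow_natCast]
  have hy : ‖(p : ℚ_[p]) ^ (N + r)‖ ≤ 1 := by
    rw [← Nat.cast_pow]
    exact norm_natCast_le_one _
  have h6 := norm_inv_expand_le hx hxy hy 2
  rw [hyn] at h6
  refine le_trans (le_of_eq ?_) h6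
  rw [hc]
  congr 1
  have e2 : ((-((1 + p ^ r * t : ℕ) : ℚ_[p])) ^ 2)⁻¹ = (((1 + p ^ r * t : ℕ) : ℚ_[p]) ^ 2)⁻¹ := by
    rw [neg_sq]
  have e3 : ((-((1 + p ^ r * t : ℕ) : ℚ_[p])) ^ (2 + 1))⁻¹ =
      -(((1 + p ^ r * t : ℕ) : ℚ_[p]) ^ 3)⁻¹ := by
    rw [show 2 + 1 = 3 by norm_num, Odd.neg_pow (by decide), inv_neg]
  rw [e2, e3]
  push_cast
  ring

end BV6

open BV6 in
theorem p_V6 (h1 : S_V1) : S_V6 := by
  intro p r hp h
  have hr : 1 ≤ r := by omega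
  have hp0 : (p : ℚ_[p]) ≠ 0 := by exact_mod_cast hp.out.ne_zero
  have hp1 : (1 : ℝ) < p := by exact_mod_cast hp.out.one_lt
  have hk := tendsto_klSum p (k := 3) (by norm_num)
  have hkl := kubotaLeopoldt_eq (p := p) (k := 3) (by norm_num)
  set L := limUnder atTop (klSum p 3) with hL
  have hu : Tendsto (fun N => klSum p 3 (N + r)) atTop (𝓝 L) :=
    (tendsto_add_atTop_iff_nat r).2 hk
  have hgeo : Tendsto (fun N : ℕ => ((p : ℝ) ^ N)⁻¹) atTop (𝓝 0) := by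
    have := tendsto_pow_atTop_nhds_zero_of_lt_one (r := ((p : ℝ))⁻¹) (by positivity)
      (inv_lt_one_of_one_lt₀ hp1)
    refine this.congr fun N => ?_
    rw [inv_pow]
  have hw : Tendsto (fun N => A p r 3 N) atTop (𝓝 0) := by
    apply squeeze_zero_norm (fun N => A_small h1 hr 3 N)
    simpa using hgeo.mul_const ((p : ℝ) + 1)
  have he : Tendsto (fun N => ((p : ℚ_[p]) ^ (N + r))⁻¹ * (invPowSum p 2 (N + r) -
      2 * A p r 2 N - 2 * (p : ℚ_[p]) ^ (N + r) * A p r 3 N)) atTop (𝓝 0) := by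
    have hb : ∀ N, ‖((p : ℚ_[p]) ^ (N + r))⁻¹ * (invPowSum p 2 (N + r) -
      2 * A p r 2 N - 2 * (p : ℚ_[p]) ^ (N + r) * A p r 3 N)‖ ≤ ((p : ℝ) ^ (N + r))⁻¹ := by
      intro N
      rw [norm_mul, norm_inv, Padic.norm_p_pow, zpow_neg, zpow_natCast, inv_inv]
      have h2 := expand (p := p) hr N h
      have hpos : (0 : ℝ) < (p : ℝ) ^ (N + r) := by positivity
      calc (p : ℝ) ^ (N + r) * _ ≤ (p : ℝ) ^ (N + r) * (((p : ℝ) ^ (N + r))⁻¹) ^ 2 :=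
            mul_le_mul_of_nonneg_left h2 hpos.le
        _ = ((p : ℝ) ^ (N + r))⁻¹ := by
            field_simp
    apply squeeze_zero_norm hb
    exact (tendsto_add_atTop_iff_nat (f := fun N : ℕ => ((p : ℝ) ^ N)⁻¹) r).2 hgeo
  have hav : ∀ N, av p (fun t => ((xa p r 1 t) ^ 2)⁻¹) N =
      ((p : ℚ_[p]) ^ r) ^ 3 / 2 * (klSum p 3 (N + r) - 2 * A p r 3 N -
        ((p : ℚ_[p]) ^ (N + r))⁻¹ * (invPowSum p 2 (N + r) -
      2 * A p r 2 N - 2 * (p : ℚ_[p]) ^ (N + r) * A p r 3 N)) := by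
    intro N
    have hx : ∀ t, ((xa p r 1 t) ^ 2)⁻¹ =
        ((p : ℚ_[p]) ^ r) ^ 2 * (((1 + p ^ r * t : ℕ) : ℚ_[p]) ^ 2)⁻¹ := by
      intro t
      have hpr : (p : ℚ_[p]) ^ r ≠ 0 := pow_ne_zero _ hp0
      have hne : ((1 + p ^ r * t : ℕ) : ℚ_[p]) ≠ 0 := by
        intro h0
        have := unit_norm (p := p) hr t
        rw [h0, norm_zero] at this
        exact zero_ne_one this
      have e1 : xa p r 1 t = ((1 + p ^ r * t : ℕ) : ℚ_[p]) / (p : ℚ_[p]) ^ r := by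
        unfold xa
        push_cast
        field_simp
      rw [e1, div_pow, inv_div, div_eq_mul_inv]
    have hA : ∑ t ∈ range (p ^ N), ((xa p r 1 t) ^ 2)⁻¹ = ((p : ℚ_[p]) ^ r) ^ 2 * A p r 2 N := by
      unfold A
      rw [mul_sum]
      exact sum_congr rfl fun t _ => hx t
    unfold av
    rw [hA]
    have hkls : klSum p 3 (N + r) = ((p : ℚ_[p]) ^ (N + r))⁻¹ * invPowSum p 2 (N + r) := rfl
    rw [hkls]
    have hpr : (p : ℚ_[p]) ^ r ≠ 0 := pow_ne_zero _ hp0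
    have hpN : (p : ℚ_[p]) ^ N ≠ 0 := pow_ne_zero _ hp0
    rw [pow_add]
    field_simp
    ring
  have hlim := ((hu.sub (hw.const_mul 2)).sub he).const_mul (((p : ℚ_[p]) ^ r) ^ 3 / 2)
  refine (hlim.congr fun N => (hav N).symm).trans (le_of_eq ?_)
  congr 1
  rw [hkl, pow_mul']
  push_cast
  ring

end Pool.Agent.Work.MP_03df5c_pb
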