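import Pool.Agent.Work.MP_03df5c_pb.Interface4

/-!
# Block V7: the numbers `ζ_2(3)` and `ζ_3(3)` are irrational
-/

open Finset Filter Topology

namespace Pool.Agent.Work.MP_03df5c_pb

open Pool.Agent.Work.MP_03df5c_h91

namespace BV7

lemma norm_nat_eq (p : ℕ) [Fact p.Prime] {n : ℕ} (hn : n ≠ 0) :
    ‖(n : ℚ_[p])‖ = ((p : ℝ) ^ padicValNat p n)⁻¹ := by
  rw [Padic.norm_eq_zpow_neg_valuation (by exact_mod_cast hn), Padic.valuation_natCast, zpow_neg,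
    zpow_natCast]

/-- the product formula, as an inequality -/
lemma one_le_mul (p : ℕ) [hp : Fact p.Prime] {z : ℤ} (hz : z ≠ 0) :
    1 ≤ |(z : ℝ)| * ‖(z : ℚ_[p])‖ := by
  have hn : z.natAbs ≠ 0 := Int.natAbs_ne_zero.2 hz
  have e1 : |(z : ℝ)| = (z.natAbs : ℝ) := by
    rw [Nat.cast_natAbs]; push_cast; rfl
  have e2 : ‖(z : ℚ_[p])‖ = ‖(z.natAbs : ℚ_[p])‖ := by
    rcases Int.natAbs_eq z with h | h
    · conv_lhs => rw [h]
      rw [Int.cast_natCast]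
    · conv_lhs => rw [h]
      rw [Int.cast_neg, Int.cast_natCast, norm_neg]
  rw [e1, e2, norm_nat_eq p hn]
  have hp0 : (0 : ℝ) < (p : ℝ) ^ padicValNat p z.natAbs := by
    have : (0 : ℝ) < p := by exact_mod_cast hp.out.pos
    positivity
  rw [← div_eq_mul_inv, le_div_iff₀ hp0, one_mul]
  have h := Nat.le_of_dvd (Nat.pos_of_ne_zero hn) (pow_padicValNat_dvd (p := p) (n := z.natAbs))
  exact_mod_cast h

/-- Legendre's formula at `p ^ m - 1` -/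
lemma val_fact (p : ℕ) [hp : Fact p.Prime] (m : ℕ) :
    (p - 1) * (padicValNat p (p ^ m - 1).factorial + m) = p ^ m - 1 := by
  have h1 := sub_one_mul_padicValNat_factorial (p := p) (p ^ m)
  have hpm : 0 < p ^ m := pow_pos hp.out.pos m
  have h2 : (p.digits (p ^ m)).sum = 1 := by
    have h3 := Nat.digits_base_pow_mul (b := p) (k := m) (m := 1) hp.out.one_lt one_pos
    rw [mul_one] at h3
    rw [h3, Nat.digits_of_lt p 1 one_ne_zero hp.out.one_lt]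
    simp
  rw [h2] at h1
  have h4 : (p ^ m).factorial = p ^ m * (p ^ m - 1).factorial :=
    (Nat.mul_factorial_pred hpm.ne').symm
  rw [h4, padicValNat.mul hpm.ne' (Nat.factorial_ne_zero _), padicValNat.prime_pow] at h1
  rw [add_comm]
  exact h1

/-- the size of the linear form -/
lemma cm_le (p r m : ℕ) [hp : Fact p.Prime] (h : (p = 2 ∧ r = 2) ∨ (p = 3 ∧ r = 1)) :
    ‖((p ^ m - 1).factorial : ℚ_[p])‖ ^ 2 * ((p : ℝ) ^ (2 * r * p ^ m))⁻¹ * (p : ℝ) ^ m ≤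
      ((p : ℝ) ^ m) ^ 3 * ((27 : ℝ) ^ (p ^ m - 1))⁻¹ := by
  have hpm : 0 < p ^ m := pow_pos hp.out.pos m
  have hv := val_fact p m
  rw [norm_nat_eq p (Nat.factorial_ne_zero _)]
  obtain ⟨K, hK⟩ : ∃ K, p ^ m = K + 1 := ⟨p ^ m - 1, by omega⟩
  have hKp : (p : ℝ) ^ m = (K : ℝ) + 1 := by exact_mod_cast hK
  rw [hK, Nat.add_sub_cancel] at hv ⊢
  set v := padicValNat p K.factorial with hvd
  have hp0 : (0 : ℝ) < p := by exact_mod_cast hp.out.pos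
  have e1 : (((p : ℝ) ^ v)⁻¹) ^ 2 = ((p : ℝ) ^ m) ^ 2 * ((p : ℝ) ^ (2 * (v + m)))⁻¹ := by
    rw [mul_comm 2 (v + m), pow_mul, pow_add]
    field_simp
  rw [e1]
  have e2 : ((p : ℝ) ^ (2 * (v + m)))⁻¹ * ((p : ℝ) ^ (2 * r * (K + 1)))⁻¹ ≤
      ((27 : ℝ) ^ K)⁻¹ := by
    rw [← mul_inv]
    refine inv_anti₀ (by positivity) ?_
    rcases h with ⟨rfl, rfl⟩ | ⟨rfl, rfl⟩
    · have h1 : v + m = K := by omega
      rw [h1]
      push_cast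
      calc (27 : ℝ) ^ K ≤ 64 ^ K := pow_le_pow_left₀ (by norm_num) (by norm_num) K
        _ = (2 : ℝ) ^ (2 * K) * 2 ^ (4 * K) := by
          rw [← pow_add, show 2 * K + 4 * K = 6 * K by ring, pow_mul]; norm_num
        _ ≤ (2 : ℝ) ^ (2 * K) * 2 ^ (2 * 2 * (K + 1)) := by
          refine mul_le_mul_of_nonneg_left ?_ (by positivity)
          exact pow_le_pow_right₀ (by norm_num) (by omega)
    · have h1 : 2 * (v + m) = K := by omega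
      rw [h1]
      push_cast
      calc (27 : ℝ) ^ K = (3 : ℝ) ^ K * 3 ^ (2 * K) := by
            rw [← pow_add, show K + 2 * K = 3 * K by ring, pow_mul]; norm_num
        _ ≤ (3 : ℝ) ^ K * 3 ^ (2 * 1 * (K + 1)) := by
          refine mul_le_mul_of_nonneg_left ?_ (by positivity)
          exact pow_le_pow_right₀ (by norm_num) (by omega)
  calc ((p : ℝ) ^ m) ^ 2 * ((p : ℝ) ^ (2 * (v + m)))⁻¹ * ((p : ℝ) ^ (2 * r * (K + 1)))⁻¹ *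
        (p : ℝ) ^ m
      = ((p : ℝ) ^ m) ^ 3 * (((p : ℝ) ^ (2 * (v + m)))⁻¹ * ((p : ℝ) ^ (2 * r * (K + 1)))⁻¹) := by
        ring
    _ ≤ _ := mul_le_mul_of_nonneg_left e2 (by positivity)

/-- the value of the linear form -/
lemma norm_S (hV3 : S_V3) (hV4 : S_V4) (hV6 : S_V6) (p r m : ℕ) [hp : Fact p.Prime]
    (h : (p = 2 ∧ r = 2) ∨ (p = 3 ∧ r = 1)) (hm : 1 ≤ m) (v : ℚ)
    (hv : (p : ℚ_[p]) ^ (3 * r) * kubotaLeopoldt p 3 = (v : ℚ_[p])) :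
    ‖((rho3 p r (p ^ m - 1) * v + rat3 p r (p ^ m - 1) : ℚ) : ℚ_[p])‖ =
      ‖((p ^ m - 1).factorial : ℚ_[p])‖ ^ 2 * ((p : ℝ) ^ (2 * r * p ^ m))⁻¹ * (p : ℝ) ^ m := by
  have hr : 1 ≤ r := by rcases h with ⟨_, rfl⟩ | ⟨_, rfl⟩ <;> norm_num
  have h4 := hV4 p r (p ^ m - 1) hr
  have h6 := hV6 p r h
  rw [hv] at h6
  have h5 := h4.add (h6.const_mul ((rho3 p r (p ^ m - 1) : ℚ) : ℚ_[p]))
  have h7 : Tendsto (fun N => ‖av p (vv p r 1 (fun u =>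
      sf (p ^ m - 1) (b1 p r (p ^ m - 1)) u ^ 2)) N‖) atTop
      (𝓝 ‖((rho3 p r (p ^ m - 1) * v + rat3 p r (p ^ m - 1) : ℚ) : ℚ_[p])‖) := by
    have e : ((rho3 p r (p ^ m - 1) * v + rat3 p r (p ^ m - 1) : ℚ) : ℚ_[p]) =
        ((rat3 p r (p ^ m - 1) : ℚ) : ℚ_[p]) +
          ((rho3 p r (p ^ m - 1) : ℚ) : ℚ_[p]) * (v : ℚ_[p]) := by
      push_cast; ring
    rw [e]
    refine (h5.congr fun N => ?_).norm
    ring
  have h8 : Tendsto (fun N => ‖av p (vv p r 1 (fun u =>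
      sf (p ^ m - 1) (b1 p r (p ^ m - 1)) u ^ 2)) N‖) atTop
      (𝓝 (‖((p ^ m - 1).factorial : ℚ_[p])‖ ^ 2 * ((p : ℝ) ^ (2 * r * p ^ m))⁻¹ * (p : ℝ) ^ m)) := by
    refine tendsto_const_nhds.congr' ?_
    filter_upwards [eventually_ge_atTop m] with N hN
    exact (hV3 p r m N hr hm hN).symm
  exact tendsto_nhds_unique h7 h8

/-- the main inequality -/
lemma main_le (hV3 : S_V3) (hV4 : S_V4) (hV5 : S_V5) (hV6 : S_V6) (hD1 : ∀ K, dd K ≠ 0)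
    (p r m : ℕ) [hp : Fact p.Prime]
    (h : (p = 2 ∧ r = 2) ∨ (p = 3 ∧ r = 1)) (hm : 1 ≤ m) (v : ℚ)
    (hv : (p : ℚ_[p]) ^ (3 * r) * kubotaLeopoldt p 3 = (v : ℚ_[p])) :
    1 ≤ (dd (p ^ m - 1) : ℝ) ^ 3 * ((|(v.num : ℝ)| + v.den) * (2 * (p : ℝ) ^ (2 * r)) *
      ((p : ℝ) ^ m) ^ 3) * (((p : ℝ) ^ m) ^ 3 * ((27 : ℝ) ^ (p ^ m - 1))⁻¹) := by
  have hr : 1 ≤ r := by rcases h with ⟨_, rfl⟩ | ⟨_, rfl⟩ <;> norm_num
  have hS := norm_S hV3 hV4 hV6 p r m h hm v hv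
  have hc := cm_le p r m h
  have hp0 : (0 : ℝ) < p := by exact_mod_cast hp.out.pos
  have hp1 : (1 : ℝ) ≤ p := by exact_mod_cast hp.out.one_lt.le
  have hpq : (p : ℚ_[p]) ≠ 0 := by exact_mod_cast hp.out.ne_zero
  have hpm : 0 < p ^ m := pow_pos hp.out.pos m
  obtain ⟨K, hK⟩ : ∃ K, p ^ m = K + 1 := ⟨p ^ m - 1, by omega⟩
  have hKp : (p : ℝ) ^ m = (K : ℝ) + 1 := by exact_mod_cast hK
  have hKK : p ^ m - 1 = K := by omega
  rw [hKK] at hS hc ⊢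
  obtain ⟨⟨z1, hz1⟩, ⟨z2, hz2⟩, hr1, hr2⟩ := hV5 p r K hr
  set X : ℚ := rho3 p r K * v.num + v.den * rat3 p r K with hX
  have hden : (v.den : ℚ) ≠ 0 := by exact_mod_cast v.den_nz
  have hXe : X = v.den * (rho3 p r K * v + rat3 p r K) := by
    have h1 : (v.num : ℚ) = v.den * v := by
      rw [mul_comm]; exact (Rat.mul_den_eq_num v).symm
    rw [hX, h1]; ring
  set n : ℤ := z1 * (dd K : ℤ) ^ 3 * v.num + v.den * z2 with hn
  have hne : (n : ℚ) = ((p ^ (2 * ((r + 1) * K)) : ℕ) : ℚ) * (dd K : ℚ) ^ 3 * X := by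
    rw [hn]
    push_cast
    rw [← hz1, ← hz2, hX]
    push_cast
    ring
  have hcpos : 0 < ‖((K.factorial : ℕ) : ℚ_[p])‖ ^ 2 * ((p : ℝ) ^ (2 * r * p ^ m))⁻¹ *
      (p : ℝ) ^ m := by
    have : 0 < ‖((K.factorial : ℕ) : ℚ_[p])‖ := by
      rw [norm_pos_iff]; exact_mod_cast Nat.factorial_ne_zero K
    positivity
  have hXS : ((X : ℚ) : ℚ_[p]) = (v.den : ℚ_[p]) *
      ((rho3 p r K * v + rat3 p r K : ℚ) : ℚ_[p]) := by
    rw [hXe, Rat.cast_mul, Rat.cast_natCast]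
  have hX0 : X ≠ 0 := by
    intro h0
    have h1 : (rho3 p r K * v + rat3 p r K : ℚ) = 0 := by
      rw [hXe] at h0
      exact (mul_eq_zero.1 h0).resolve_left hden
    rw [h1, Rat.cast_zero, norm_zero] at hS
    exact hcpos.ne hS
  have hn0 : n ≠ 0 := by
    intro h0
    rw [h0, Int.cast_zero] at hne
    have h1 : ((p ^ (2 * ((r + 1) * K)) : ℕ) : ℚ) * (dd K : ℚ) ^ 3 * X ≠ 0 := by
      refine mul_ne_zero (mul_ne_zero ?_ ?_) hX0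
      · exact_mod_cast (pow_pos hp.out.pos _).ne'
      · exact pow_ne_zero _ (by exact_mod_cast hD1 K)
    exact h1 hne.symm
  have h1 := one_le_mul p hn0
  -- the real size
  have hnr : (n : ℝ) = ((p : ℝ) ^ (2 * ((r + 1) * K))) * (dd K : ℝ) ^ 3 * (X : ℝ) := by
    have := congrArg (fun q : ℚ => (q : ℝ)) hne
    push_cast at this
    exact this
  have hXr : |(X : ℝ)| ≤ (|(v.num : ℝ)| + v.den) * (2 * (p : ℝ) ^ (2 * r)) * ((p : ℝ) ^ m) ^ 3 := by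
    have e : (X : ℝ) = (rho3 p r K : ℝ) * (v.num : ℝ) + (v.den : ℝ) * (rat3 p r K : ℝ) := by
      rw [hX]; push_cast; ring
    rw [e]
    have hK1 : (1 : ℝ) ≤ (K : ℝ) + 1 := by
      have : (0 : ℝ) ≤ K := by positivity
      linarith
    have h2r : (1 : ℝ) ≤ 2 * (p : ℝ) ^ (2 * r) := by
      have : (1 : ℝ) ≤ (p : ℝ) ^ (2 * r) := one_le_pow₀ hp1
      linarith
    have hr1' : |(rho3 p r K : ℝ)| ≤ 2 * (p : ℝ) ^ (2 * r) * ((K : ℝ) + 1) ^ 3 := by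
      refine hr1.trans ?_
      have h3 : (K : ℝ) + 1 ≤ ((K : ℝ) + 1) ^ 3 := by
        calc (K : ℝ) + 1 = ((K : ℝ) + 1) ^ 1 := (pow_one _).symm
          _ ≤ ((K : ℝ) + 1) ^ 3 := pow_le_pow_right₀ hK1 (by norm_num)
      calc (K : ℝ) + 1 ≤ ((K : ℝ) + 1) ^ 3 := h3
        _ = 1 * ((K : ℝ) + 1) ^ 3 := (one_mul _).symm
        _ ≤ _ := mul_le_mul_of_nonneg_right h2r (by positivity)
    calc |(rho3 p r K : ℝ) * (v.num : ℝ) + (v.den : ℝ) * (rat3 p r K : ℝ)|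
        ≤ |(rho3 p r K : ℝ) * (v.num : ℝ)| + |(v.den : ℝ) * (rat3 p r K : ℝ)| := abs_add_le _ _
      _ = |(rho3 p r K : ℝ)| * |(v.num : ℝ)| + (v.den : ℝ) * |(rat3 p r K : ℝ)| := by
        rw [abs_mul, abs_mul, Nat.abs_cast]
      _ ≤ (2 * (p : ℝ) ^ (2 * r) * ((K : ℝ) + 1) ^ 3) * |(v.num : ℝ)| +
          (v.den : ℝ) * (2 * (p : ℝ) ^ (2 * r) * ((K : ℝ) + 1) ^ 3) := by
        refine add_le_add ?_ ?_
        · exact mul_le_mul_of_nonneg_right hr1' (abs_nonneg _)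
        · exact mul_le_mul_of_nonneg_left hr2 (by positivity)
      _ = _ := by rw [hKp]; ring
  -- the p-adic size
  have hnp : ‖(n : ℚ_[p])‖ ≤ ((p : ℝ) ^ (2 * ((r + 1) * K)))⁻¹ *
      (((p : ℝ) ^ m) ^ 3 * ((27 : ℝ) ^ K)⁻¹) := by
    have e : (n : ℚ_[p]) = (p : ℚ_[p]) ^ (2 * ((r + 1) * K)) * (dd K : ℚ_[p]) ^ 3 *
        ((v.den : ℚ_[p]) * ((rho3 p r K * v + rat3 p r K : ℚ) : ℚ_[p])) := by
      have := congrArg (fun q : ℚ => (q : ℚ_[p])) hne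
      rw [Rat.cast_mul, hXS] at this
      push_cast at this ⊢
      exact this
    rw [e, norm_mul, norm_mul, norm_mul, norm_pow (dd K : ℚ_[p]), Padic.norm_p_pow, hS, zpow_neg,
      zpow_natCast]
    have hd1 : ‖(dd K : ℚ_[p])‖ ^ 3 ≤ 1 := pow_le_one₀ (norm_nonneg _) (norm_natCast_le_one _)
    have hd2 : ‖(v.den : ℚ_[p])‖ ≤ 1 := norm_natCast_le_one _
    calc ((p : ℝ) ^ (2 * ((r + 1) * K)))⁻¹ * ‖(dd K : ℚ_[p])‖ ^ 3 *
          (‖(v.den : ℚ_[p])‖ * (‖((K.factorial : ℕ) : ℚ_[p])‖ ^ 2 *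
            ((p : ℝ) ^ (2 * r * p ^ m))⁻¹ * (p : ℝ) ^ m))
        ≤ ((p : ℝ) ^ (2 * ((r + 1) * K)))⁻¹ * 1 * (1 * (‖((K.factorial : ℕ) : ℚ_[p])‖ ^ 2 *
            ((p : ℝ) ^ (2 * r * p ^ m))⁻¹ * (p : ℝ) ^ m)) := by
          refine mul_le_mul ?_ ?_ (by positivity) (by positivity)
          · exact mul_le_mul_of_nonneg_left hd1 (by positivity)
          · exact mul_le_mul_of_nonneg_right hd2 hcpos.le
      _ = ((p : ℝ) ^ (2 * ((r + 1) * K)))⁻¹ * (‖((K.factorial : ℕ) : ℚ_[p])‖ ^ 2 *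
            ((p : ℝ) ^ (2 * r * p ^ m))⁻¹ * (p : ℝ) ^ m) := by ring
      _ ≤ _ := mul_le_mul_of_nonneg_left hc (by positivity)
  have hPpos : (0 : ℝ) < (p : ℝ) ^ (2 * ((r + 1) * K)) := by positivity
  calc (1 : ℝ) ≤ |(n : ℝ)| * ‖(n : ℚ_[p])‖ := h1
    _ ≤ ((p : ℝ) ^ (2 * ((r + 1) * K)) * (dd K : ℝ) ^ 3 *
        ((|(v.num : ℝ)| + v.den) * (2 * (p : ℝ) ^ (2 * r)) * ((p : ℝ) ^ m) ^ 3)) *
        (((p : ℝ) ^ (2 * ((r + 1) * K)))⁻¹ * (((p : ℝ) ^ m) ^ 3 * ((27 : ℝ) ^ K)⁻¹)) := by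
      refine mul_le_mul ?_ hnp (norm_nonneg _) (by positivity)
      rw [hnr, abs_mul, abs_mul, abs_of_pos hPpos, abs_of_nonneg (by positivity : (0 : ℝ) ≤ (dd K : ℝ) ^ 3)]
      exact mul_le_mul_of_nonneg_left hXr (by positivity)
    _ = _ := by
      field_simp

end BV7

theorem p_V7 (hV3 : S_V3) (hV4 : S_V4) (hV5 : S_V5) (hV6 : S_V6) (hD1 : S_D1) (hD4 : S_D4) :
    S_V7 := by
  intro p hp hpp q hq
  obtain ⟨r, hr⟩ : ∃ r, (p = 2 ∧ r = 2) ∨ (p = 3 ∧ r = 1) := by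
    rcases hpp with h | h
    · exact ⟨2, Or.inl ⟨h, rfl⟩⟩
    · exact ⟨1, Or.inr ⟨h, rfl⟩⟩
  have hp0 : (0 : ℝ) < p := by exact_mod_cast hp.out.pos
  -- the rational value
  have hKL : kubotaLeopoldt p 3 = (1 - ((p : ℚ_[p]) ^ 3)⁻¹) * (q : ℚ_[p]) := by
    rw [← hq]
    unfold zetaP
    have h1 : (1 : ℚ_[p]) - ((p : ℚ_[p]) ^ 3)⁻¹ ≠ 0 := by
      intro h
      have h2 : ((p : ℚ_[p]) ^ 3)⁻¹ = 1 := (sub_eq_zero.1 h).symm
      have h3 : ((p ^ 3 : ℕ) : ℚ_[p]) = ((1 : ℕ) : ℚ_[p]) := by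
        push_cast
        rw [← inv_inv ((p : ℚ_[p]) ^ 3), h2, inv_one]
      have h4 : p ^ 3 = 1 := by exact_mod_cast h3
      have h5 : 1 < p ^ 3 := Nat.one_lt_pow (by omega) hp.out.one_lt
      omega
    rw [← mul_assoc, mul_inv_cancel₀ h1, one_mul]
  set v : ℚ := (p : ℚ) ^ (3 * r) * ((1 - ((p : ℚ) ^ 3)⁻¹) * q) with hvd
  have hv : (p : ℚ_[p]) ^ (3 * r) * kubotaLeopoldt p 3 = (v : ℚ_[p]) := by
    rw [hKL, hvd]
    push_cast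
    ring
  obtain ⟨c0, hc0, C, hC, hd⟩ := hD4
  have hdd : ∀ K, dd K ≠ 0 := fun K => (hD1.2.1 K).1
  set ρ : ℝ := Real.exp (3 * c0) / 27 with hρ
  have hρ0 : 0 < ρ := by positivity
  have hρ1 : ρ < 1 := by
    rw [hρ, div_lt_one (by norm_num)]
    have h1 : (27 : ℝ) = Real.exp (3 * Real.log 3) := by
      rw [show 3 * Real.log 3 = Real.log (3 ^ 3) by rw [Real.log_pow]; norm_num,
        Real.exp_log (by norm_num)]
      norm_num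
    rw [h1]
    exact Real.exp_lt_exp.2 (by linarith)
  have hlim : Tendsto (fun n : ℕ => (n : ℝ) ^ 6 * ρ ^ n) atTop (𝓝 0) :=
    tendsto_pow_const_mul_const_pow_of_abs_lt_one 6 (by rw [abs_of_pos hρ0]; exact hρ1)
  have hpow : Tendsto (fun m : ℕ => p ^ m) atTop atTop :=
    tendsto_pow_atTop_atTop_of_one_lt hp.out.one_lt
  set D : ℝ := C ^ 3 * ((|(v.num : ℝ)| + v.den) * (2 * (p : ℝ) ^ (2 * r))) * ρ⁻¹ with hD
  have hlim2 : Tendsto (fun m : ℕ => D * (((p ^ m : ℕ) : ℝ) ^ 6 * ρ ^ (p ^ m))) atTop (𝓝 0) := by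
    have := (hlim.comp hpow).const_mul D
    rw [mul_zero] at this
    exact this
  have hge : ∀ᶠ m : ℕ in atTop, (1 : ℝ) ≤ D * (((p ^ m : ℕ) : ℝ) ^ 6 * ρ ^ (p ^ m)) := by
    filter_upwards [eventually_ge_atTop 1] with m hm
    refine (BV7.main_le hV3 hV4 hV5 hV6 hdd p r m hr hm v hv).trans ?_
    have hpm : 0 < p ^ m := pow_pos hp.out.pos m
    obtain ⟨K, hK⟩ : ∃ K, p ^ m = K + 1 := ⟨p ^ m - 1, by omega⟩
    have hKp : (p : ℝ) ^ m = (K : ℝ) + 1 := by exact_mod_cast hK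
    have hKK : p ^ m - 1 = K := by omega
    have hd1 : (dd K : ℝ) ^ 3 ≤ C ^ 3 * Real.exp (3 * c0) ^ K := by
      have h1 : (dd K : ℝ) ^ 3 ≤ (C * Real.exp (c0 * K)) ^ 3 :=
        pow_le_pow_left₀ (by positivity) (hd K) 3
      have h2 : Real.exp (c0 * K) ^ 3 = Real.exp (3 * c0) ^ K := by
        rw [← Real.exp_nat_mul, ← Real.exp_nat_mul]
        congr 1
        push_cast
        ring
      rwa [mul_pow, h2] at h1
    rw [hKK, hK, hKp]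
    have e1 : Real.exp (3 * c0) ^ K = ρ ^ K * 27 ^ K := by
      rw [hρ, div_pow, div_mul_cancel₀ _ (by positivity)]
    rw [e1] at hd1
    push_cast
    calc (dd K : ℝ) ^ 3 * ((|(v.num : ℝ)| + v.den) * (2 * (p : ℝ) ^ (2 * r)) *
          ((K : ℝ) + 1) ^ 3) * (((K : ℝ) + 1) ^ 3 * ((27 : ℝ) ^ K)⁻¹)
        ≤ (C ^ 3 * (ρ ^ K * 27 ^ K)) * ((|(v.num : ℝ)| + v.den) * (2 * (p : ℝ) ^ (2 * r)) *
          ((K : ℝ) + 1) ^ 3) * (((K : ℝ) + 1) ^ 3 * ((27 : ℝ) ^ K)⁻¹) := by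
          refine mul_le_mul_of_nonneg_right ?_ (by positivity)
          exact mul_le_mul_of_nonneg_right hd1 (by positivity)
      _ = D * (((K : ℝ) + 1) ^ 6 * ρ ^ (K + 1)) := by
          rw [hD]
          field_simp
          ring
  have := ge_of_tendsto hlim2 hge
  linarith

end Pool.Agent.Work.MP_03df5c_pb
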