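import Pool.Agent.Work.MP_03df5c_pb.Interface7
import Pool.Agent.Work.MP_03df5c_pb.B_L1

/-!
# Block W2: partial fractions with `e` blocks replaced
-/

open Finset Filter Topology

namespace Pool.Agent.Work.MP_03df5c_pb

namespace BW2

theorem size_one (hP4 : S_P4) (K : ℕ) (θ : ℚ) (h0 : 0 < θ) (h1 : θ < 1) :
    ∑ j ∈ range (K + 1), |(bet K θ j : ℝ)| ≤ (K : ℝ) + 1 := by
  calc ∑ j ∈ range (K + 1), |(bet K θ j : ℝ)| ≤ ∑ _j ∈ range (K + 1), (1 : ℝ) := by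
        refine Finset.sum_le_sum fun j hj => ?_
        have h := hP4 K θ h0 h1 j (by have := Finset.mem_range.1 hj; omega)
        exact_mod_cast h
    _ = (K : ℝ) + 1 := by
        rw [Finset.sum_const, Finset.card_range, nsmul_eq_mul, mul_one]
        push_cast
        ring

end BW2

/-- Block W2. -/
theorem p_W2 (hP1 : S_P1) (hP4 : S_P4) (hP5 : S_P5) (hD1 : S_D1) : S_W2 := by
  intro K β N B hN hB e he
  have hd : ∀ n, 1 ≤ n → n ≤ K → n ∣ dd K := (hD1.2.1 K).2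
  have h1 : ∀ j ≤ K, ∃ z : ℤ, ((2 ^ (3 * K) : ℕ) : ℚ) * bet K (th 2 2 1) j = z := by
    intro j _
    exact BL1.int_bet hP5 2 2 K 1 j
  have h3 : ∀ j ≤ K, ∃ z : ℤ, ((2 ^ (3 * K) : ℕ) : ℚ) * bet K (th 2 2 3) j = z := by
    intro j _
    exact BL1.int_bet hP5 2 2 K 3 j
  have s1 : ∑ j ∈ range (K + 1), |(bet K (th 2 2 1) j : ℝ)| ≤ (K : ℝ) + 1 :=
    BW2.size_one hP4 K _ (by unfold th; norm_num) (by unfold th; norm_num)
  have s3 : ∑ j ∈ range (K + 1), |(bet K (th 2 2 3) j : ℝ)| ≤ (K : ℝ) + 1 :=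
    BW2.size_one hP4 K _ (by unfold th; norm_num) (by unfold th; norm_num)
  have a1 := BL1.base K (dd K) _ _ _ h3 s3
  have a2 := BL1.power hP1 K (dd K) 1 hd _ _ _ a1 _ _ _ h3 s3 3
  have a3 := BL1.power hP1 K (dd K) _ hd _ _ _ a2 _ _ _ h1 s1 (4 - e)
  have a4 := BL1.power hP1 K (dd K) _ hd _ _ _ a3 _ _ _ hN hB e
  have en : 1 + 3 + (4 - e) + e = 8 := by omega
  rw [en] at a4
  obtain ⟨_, _, c, hc, hi, hs⟩ := a4
  refine ⟨c, ?_, ?_, ?_⟩
  · have e1 : (fun u => (sf K β u) ^ e * (sf K (bet K (th 2 2 1)) u) ^ (4 - e) *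
        (sf K (bet K (th 2 2 3)) u) ^ 4) = fun u => (sf K β u) ^ e *
          ((sf K (bet K (th 2 2 1)) u) ^ (4 - e) *
            ((sf K (bet K (th 2 2 3)) u) ^ 3 * sf K (bet K (th 2 2 3)) u)) := by
      funext u
      ring
    rw [e1]
    exact hc
  · intro i hin j hj
    obtain ⟨z, hz⟩ := hi i hin j hj
    refine ⟨z, ?_⟩
    rw [← hz]
    have e2 : N ^ e * 2 ^ (3 * K * (8 - e)) =
        2 ^ (3 * K) * (2 ^ (3 * K)) ^ 3 * (2 ^ (3 * K)) ^ (4 - e) * N ^ e := by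
      have e3 : 8 - e = 1 + 3 + (4 - e) := by omega
      rw [e3, pow_mul, pow_add, pow_add, pow_one]
      ring
    rw [e2]
  · intro i hin j hj
    refine le_trans (hs i hin j hj) (le_of_eq ?_)
    have e4 : 8 - e = 1 + 3 + (4 - e) := by omega
    rw [e4, pow_add, pow_add, pow_one]
    push_cast
    ring

end Pool.Agent.Work.MP_03df5c_pb
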