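import Pool.Agent.Work.MP_03df5c_pb.Interface7

/-!
# Block W3: symmetry of the partial fraction coefficients
-/

open Finset Filter Topology

namespace Pool.Agent.Work.MP_03df5c_pb

open Pool.Agent.Work.MP_03df5c_h91

theorem BW3.good {K : ℕ} {u : ℚ} (h : Good K u) : Good K (-(K : ℚ) - u) := by
  intro j hj he
  refine h (K - j) (Nat.sub_le _ _) ?_
  rw [Nat.cast_sub hj]
  linarith

theorem BW3.prod (K : ℕ) (u : ℚ) :
    ∏ j ∈ range (K + 1), (-(K : ℚ) - u + (j : ℚ)) =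
      (-1) ^ (K + 1) * ∏ j ∈ range (K + 1), (u + (j : ℚ)) := by
  rw [← Finset.prod_range_reflect (fun j : ℕ => u + (j : ℚ)) (K + 1)]
  have h1 : ((-1 : ℚ)) ^ (K + 1) = ∏ _j ∈ range (K + 1), (-1 : ℚ) := by
    rw [Finset.prod_const, Finset.card_range]
  rw [h1, ← Finset.prod_mul_distrib]
  refine Finset.prod_congr rfl fun j hj => ?_
  have hj' : j ≤ K := by
    have := Finset.mem_range.1 hj
    omega
  have h2 : K + 1 - 1 - j = K - j := by omega
  rw [h2, Nat.cast_sub hj']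
  ring

theorem BW3.bin (K : ℕ) (u θ : ℚ) :
    bin (-(K : ℚ) - u - θ + K) K = (-1) ^ K * bin (u - (1 - θ) + K) K := by
  unfold Pool.Agent.Work.MP_03df5c_pb.bin
  rw [mul_div_assoc']
  congr 1
  rw [← Finset.prod_range_reflect (fun m : ℕ => (u - (1 - θ) + (K : ℚ)) - (m : ℚ)) K]
  have h1 : ((-1 : ℚ)) ^ K = ∏ _j ∈ range K, (-1 : ℚ) := by
    rw [Finset.prod_const, Finset.card_range]
  rw [h1, ← Finset.prod_mul_distrib]
  refine Finset.prod_congr rfl fun j hj => ?_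
  have hj' : j < K := Finset.mem_range.1 hj
  have h2 : (((K - 1 - j : ℕ)) : ℚ) = (K : ℚ) - 1 - (j : ℚ) := by
    rw [Nat.cast_sub (by omega), Nat.cast_sub (by omega)]
    norm_num
  rw [h2]
  ring

theorem BW3.block (hP3 : S_P3) {K : ℕ} {u : ℚ} (h : Good K u) (θ : ℚ) :
    sf K (bet K θ) (-(K : ℚ) - u) = - sf K (bet K (1 - θ)) u := by
  rw [(hP3 K _ (BW3.good h)).2 θ, (hP3 K u h).2 (1 - θ), BW3.prod, BW3.bin]
  have h0 : ∏ j ∈ range (K + 1), (u + (j : ℚ)) ≠ 0 := by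
    refine Finset.prod_ne_zero_iff.2 fun j hj => h j ?_
    have := Finset.mem_range.1 hj
    omega
  have h1 : ((-1 : ℚ)) ^ K ≠ 0 := pow_ne_zero _ (by norm_num)
  rw [pow_succ]
  field_simp

theorem BW3.refl (K : ℕ) (c : ℕ → ℕ → ℚ) (u : ℚ) :
    ev K 8 c (-(K : ℚ) - u) = ev K 8 (fun i j => (-1) ^ (i + 1) * c i (K - j)) u := by
  unfold ev
  rw [← Finset.sum_range_reflect (fun j : ℕ => ∑ i ∈ range 8,
    c i j / (-(K : ℚ) - u + (j : ℚ)) ^ (i + 1)) (K + 1)]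
  refine Finset.sum_congr rfl fun j hj => Finset.sum_congr rfl fun i _ => ?_
  have hj' : j ≤ K := by
    have := Finset.mem_range.1 hj
    omega
  have h2 : K + 1 - 1 - j = K - j := by omega
  rw [h2, Nat.cast_sub hj']
  have h3 : -(K : ℚ) - u + ((K : ℚ) - (j : ℚ)) = (-1) * (u + (j : ℚ)) := by ring
  rw [h3, mul_pow]
  have h4 : ((-1 : ℚ)) ^ (i + 1) * ((-1 : ℚ)) ^ (i + 1) = 1 := by
    rw [← mul_pow]; norm_num
  have h5 : ((-1 : ℚ)) ^ (i + 1) ≠ 0 := pow_ne_zero _ (by norm_num)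
  show c i (K - j) / ((-1) ^ (i + 1) * (u + (j : ℚ)) ^ (i + 1)) =
    (-1) ^ (i + 1) * c i (K - j) / (u + (j : ℚ)) ^ (i + 1)
  rw [div_mul_eq_div_div, mul_comm ((-1 : ℚ) ^ (i + 1)) (c i (K - j))]
  congr 1
  rw [div_eq_iff h5, mul_assoc, h4, mul_one]

theorem p_W3 (hP2 : S_P2) (hP3 : S_P3) : S_W3 := by
  intro K c hc i hi he
  have hRY : ∀ u : ℚ, Good K u → RY K (-(K : ℚ) - u) = RY K u := by
    intro u hu
    have e1 : (1 : ℚ) - th 2 2 1 = th 2 2 3 := by unfold th; norm_num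
    have e3 : (1 : ℚ) - th 2 2 3 = th 2 2 1 := by unfold th; norm_num
    unfold RY
    rw [BW3.block hP3 hu, BW3.block hP3 hu, e1, e3]
    ring
  have h1 : ∀ u, Good K u → ev K 8 c u =
      ev K 8 (fun i j => (-1) ^ (i + 1) * c i (K - j)) u + 0 := by
    intro u hu
    rw [add_zero, ← BW3.refl, ← hc _ (BW3.good hu), hRY u hu, hc u hu]
  have h2 := hP2 K 8 c _ 0 h1
  have h3 : ∀ j ≤ K, c i j = - c i (K - j) := by
    intro j hj
    have := h2 i hi j hj
    rw [this]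
    have h4 : ((-1 : ℚ)) ^ (i + 1) = -1 := by
      rw [pow_succ, he.neg_one_pow]; norm_num
    simp only [h4]
    ring
  have h5 : ∑ j ∈ range (K + 1), c i j = - ∑ j ∈ range (K + 1), c i j := by
    conv_rhs => rw [← Finset.sum_range_reflect (fun j => c i j) (K + 1)]
    rw [← Finset.sum_neg_distrib]
    refine Finset.sum_congr rfl fun j hj => ?_
    have hj' : j ≤ K := by
      have := Finset.mem_range.1 hj
      omega
    have h6 : K + 1 - 1 - j = K - j := by omega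
    rw [h6]
    exact h3 j hj'
  linarith

end Pool.Agent.Work.MP_03df5c_pb
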