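import Pool.Agent.Work.MP_03df5c_pb.Interface7

/-!
# Block W5: the coefficients of the linear forms for `ζ(5), ζ(7), ζ(9), ζ(11)`
-/

open Finset Filter Topology

namespace Pool.Agent.Work.MP_03df5c_pb

open Pool.Agent.Work.MP_03df5c_h91

namespace BW5

lemma th_eq : th 2 2 1 = 1 / 4 := by
  unfold th; norm_num

lemma quarter (h j : ℕ) : (1 : ℝ) / 4 ≤ |(((1 / 4 : ℚ) - (h : ℚ) + (j : ℚ) : ℚ) : ℝ)| := by
  have e : (((1 / 4 : ℚ) - (h : ℚ) + (j : ℚ) : ℚ) : ℝ) = ((1 + 4 * ((j : ℤ) - (h : ℤ)) : ℤ) : ℝ) / 4 := by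
    push_cast; ring
  rw [e, abs_div]
  have h0 : (1 + 4 * ((j : ℤ) - (h : ℤ)) : ℤ) ≠ 0 := by omega
  have h1 : (1 : ℤ) ≤ |(1 + 4 * ((j : ℤ) - (h : ℤ)) : ℤ)| := Int.one_le_abs h0
  have h2 : (1 : ℝ) ≤ |((1 + 4 * ((j : ℤ) - (h : ℤ)) : ℤ) : ℝ)| := by
    rw [← Int.cast_abs]; exact_mod_cast h1
  have h4 : |(4 : ℝ)| = 4 := by norm_num
  rw [h4]
  linarith

lemma good (K h : ℕ) : Good K (th 2 2 1 - (h : ℚ)) := by
  intro j _ h0
  have h1 := quarter h j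
  rw [th_eq] at h0
  rw [h0] at h1
  norm_num at h1

lemma zero (hP3 : S_P3) (K h : ℕ) (h1 : 1 ≤ h) (hK : h ≤ K) :
    sf K (bet K (th 2 2 1)) (th 2 2 1 - (h : ℚ)) = 0 := by
  rw [(hP3 K _ (good K h)).2 (th 2 2 1)]
  have e : bin (th 2 2 1 - (h : ℚ) - th 2 2 1 + (K : ℚ)) K = 0 := by
    unfold bin
    have e2 : ∏ m ∈ range K, (th 2 2 1 - (h : ℚ) - th 2 2 1 + (K : ℚ) - (m : ℚ)) = 0 := by
      refine prod_eq_zero (i := K - h) (mem_range.2 (by omega)) ?_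
      rw [Nat.cast_sub hK]; ring
    rw [e2, zero_div]
  rw [e, zero_mul]

lemma key (hP3 : S_P3) (hP4 : S_P4) (hP7 : S_P7) (hP9 : S_P9) (hW1 : S_W1) (hW2 : S_W2)
    (K : ℕ) (c : ℕ → ℕ → ℚ) (hc : PF K 8 c (RY K)) (j l : ℕ) (hj : j ≤ K)
    (hl : l < j) :
    ∃ x : ℚ, ∑ i ∈ range 8, ((i + 3).choose 3 : ℚ) * c i j / (th 2 2 1 + (l : ℚ)) ^ (i + 4) = x ∧
      (∃ z : ℤ, ((2 ^ (24 * K) * dd K ^ 11 : ℕ) : ℚ) * x = z) ∧
      |(x : ℝ)| ≤ (9 * ((K : ℝ) + 1)) ^ 8 * ((4 * ((K : ℝ) + 1)) ^ 4 * ((K : ℝ) + 1) ^ 4) := by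
  obtain ⟨h, hh⟩ : ∃ h, h = j - l := ⟨_, rfl⟩
  have h1 : 1 ≤ h := by omega
  have hhK : h ≤ K := by omega
  have hjl : (h : ℚ) = (j : ℚ) - (l : ℚ) := by rw [hh, Nat.cast_sub hl.le]
  set u0 : ℚ := th 2 2 1 - (h : ℚ) with hu0
  have hg : Good K u0 := good K h
  have hz : sf K (bet K (th 2 2 1)) u0 = 0 := zero hP3 K h h1 hhK
  have huj : u0 + (j : ℚ) = th 2 2 1 + (l : ℚ) := by rw [hu0, hjl]; ring
  set β : ℕ → ℚ := fun j' => bet K (th 2 2 1) j' / (u0 + (j' : ℚ)) with hβ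
  have hN : ∀ j' ≤ K, ∃ z : ℤ, ((dd K * 2 ^ (3 * K) : ℕ) : ℚ) * β j' = z := by
    intro j' hj'
    haveI : Fact (Nat.Prime 2) := ⟨Nat.prime_two⟩
    obtain ⟨z, hz'⟩ := hP7 2 2 1 K h j' (by norm_num) (by norm_num) h1 hhK hj'
    exact ⟨z, hz'⟩
  have hB : ∑ j' ∈ range (K + 1), |(β j' : ℝ)| ≤ 4 * ((K : ℝ) + 1) := by
    have h3 : ∀ j' ∈ range (K + 1), |(β j' : ℝ)| ≤ 4 := by
      intro j' hj'
      have hj'' : j' ≤ K := by rw [mem_range] at hj'; omega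
      have h4 : |bet K (th 2 2 1) j'| ≤ 1 := hP4 K (th 2 2 1) (by rw [th_eq]; norm_num)
        (by rw [th_eq]; norm_num) j' hj''
      have h5 : |((bet K (th 2 2 1) j' : ℚ) : ℝ)| ≤ 1 := by exact_mod_cast h4
      have h6 := quarter h j'
      have h7 : (((1 / 4 : ℚ) - (h : ℚ) + (j' : ℚ) : ℚ) : ℝ) = ((u0 + (j' : ℚ) : ℚ) : ℝ) := by
        rw [hu0, th_eq]
      rw [h7] at h6
      rw [hβ]
      simp only []
      rw [Rat.cast_div, abs_div, div_le_iff₀ (by linarith)]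
      linarith
    calc ∑ j' ∈ range (K + 1), |(β j' : ℝ)| ≤ ∑ _j' ∈ range (K + 1), (4 : ℝ) := sum_le_sum h3
      _ = 4 * ((K : ℝ) + 1) := by rw [sum_const, card_range, nsmul_eq_mul]; push_cast; ring
  obtain ⟨c1, hc1, _, _⟩ := hW2 K β (dd K * 2 ^ (3 * K)) (4 * ((K : ℝ) + 1)) hN hB 1 (by norm_num)
  obtain ⟨c2, hc2, _, _⟩ := hW2 K β (dd K * 2 ^ (3 * K)) (4 * ((K : ℝ) + 1)) hN hB 2 (by norm_num)
  obtain ⟨c3, hc3, _, _⟩ := hW2 K β (dd K * 2 ^ (3 * K)) (4 * ((K : ℝ) + 1)) hN hB 3 (by norm_num)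
  obtain ⟨c4, hc4, hi4, hs4⟩ := hW2 K β (dd K * 2 ^ (3 * K)) (4 * ((K : ℝ) + 1)) hN hB 4 le_rfl
  have s1 := hW1 K 8 (by norm_num) (bet K (th 2 2 1))
    (fun u => sf K (bet K (th 2 2 1)) u ^ 3 * sf K (bet K (th 2 2 3)) u ^ 4) u0 c c1 hg hz
    (fun u hu => by rw [← hc u hu]; unfold RY; ring)
    (fun u hu => by rw [← hc1 u hu]; ring) 2 j hj
  have s2 := hW1 K 8 (by norm_num) (bet K (th 2 2 1))
    (fun u => sf K β u * sf K (bet K (th 2 2 1)) u ^ 2 * sf K (bet K (th 2 2 3)) u ^ 4) u0 c1 c2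
    hg hz (fun u hu => by rw [← hc1 u hu]; ring)
    (fun u hu => by rw [← hc2 u hu]; ring) 1 j hj
  have s3 := hW1 K 8 (by norm_num) (bet K (th 2 2 1))
    (fun u => sf K β u ^ 2 * sf K (bet K (th 2 2 1)) u * sf K (bet K (th 2 2 3)) u ^ 4) u0 c2 c3
    hg hz (fun u hu => by rw [← hc2 u hu]; ring)
    (fun u hu => by rw [← hc3 u hu]; ring) 0 j hj
  have s4 := hP9 K 8 (by norm_num) (bet K (th 2 2 1))
    (fun u => sf K β u ^ 3 * sf K (bet K (th 2 2 3)) u ^ 4) u0 c3 c4 hg hz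
    (fun u hu => by rw [← hc3 u hu]; ring)
    (fun u hu => by rw [← hc4 u hu]; ring) j hj
  rw [huj] at s1 s2 s3 s4
  refine ⟨c4 0 j, ?_, ?_, ?_⟩
  · rw [← s4]
    have e3 : ∑ i ∈ range 8, c3 i j / (th 2 2 1 + (l : ℚ)) ^ (i + 1) =
        ∑ i ∈ range 8, ((i + 0).choose 0 : ℚ) * c3 i j / (th 2 2 1 + (l : ℚ)) ^ (i + 0 + 1) := by
      refine sum_congr rfl fun i _ => ?_
      rw [Nat.choose_zero_right, Nat.cast_one, one_mul, Nat.add_zero]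
    rw [e3, ← s3]
    exact s1.trans s2
  · obtain ⟨z, hz4⟩ := hi4 0 (by norm_num) j hj
    refine ⟨z, ?_⟩
    rw [← hz4]
    push_cast
    ring
  · have := hs4 0 (by norm_num) j hj
    exact this

end BW5

theorem p_W5 (hP3 : S_P3) (hP4 : S_P4) (hP7 : S_P7) (hP9 : S_P9) (hW1 : S_W1) (hW2 : S_W2) :
    S_W5 := by
  refine ⟨3 * 9 ^ 8 * 4 ^ 4, 18, fun K hK => ?_⟩
  obtain ⟨c, hc, hi, hs⟩ := hW2 K (fun _ => 0) 1 0 (fun j _ => ⟨0, by simp⟩) (by simp) 0 (by norm_num)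
  have hcR : PF K 8 c (RY K) := fun u hu => by
    rw [← hc u hu]; unfold RY; ring
  have hK1 : (1 : ℝ) ≤ (K : ℝ) + 1 := by
    have : (0 : ℝ) ≤ K := by positivity
    linarith
  choose! x hx hxz hxs using BW5.key hP3 hP4 hP7 hP9 hW1 hW2 K c hcR
  choose! z hzz using hxz
  have hrat : ratY K c = -3 * ∑ j ∈ range (K + 1), ∑ l ∈ range j, x j l := by
    unfold ratY
    congr 1
    refine sum_congr rfl fun j hj => sum_congr rfl fun l hl => ?_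
    rw [mem_range] at hj hl
    exact hx j l (by omega) hl
  refine ⟨c, hcR, ?_, ?_, ?_, ?_⟩
  · intro i hi8
    have h1 : ∀ j ∈ range (K + 1), ∃ z : ℤ, ((2 ^ (24 * K) * dd K ^ 11 : ℕ) : ℚ) * c i j = z := by
      intro j hj
      rw [mem_range] at hj
      obtain ⟨w, hw⟩ := hi i hi8 j (by omega)
      refine ⟨w * (dd K : ℤ) ^ (4 + i), ?_⟩
      push_cast
      rw [← hw]
      have e : (dd K : ℚ) ^ 11 = (dd K : ℚ) ^ (7 - i) * (dd K : ℚ) ^ (4 + i) := by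
        rw [← pow_add]; congr 1; omega
      rw [e]
      push_cast
      ring
    choose! w hw using h1
    refine ⟨∑ j ∈ range (K + 1), w j, ?_⟩
    rw [mul_sum]
    push_cast
    refine sum_congr rfl fun j hj => ?_
    have := hw j hj
    push_cast at this
    exact this
  · refine ⟨-3 * ∑ j ∈ range (K + 1), ∑ l ∈ range j, z j l, ?_⟩
    rw [hrat]
    push_cast
    rw [show ∀ a b : ℚ, a * (-3 * b) = -3 * (a * b) from fun a b => by ring, mul_sum]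
    congr 1
    refine sum_congr rfl fun j hj => ?_
    rw [mul_sum]
    refine sum_congr rfl fun l hl => ?_
    rw [mem_range] at hj hl
    have := hzz j l (by omega) hl
    push_cast at this
    exact this
  · intro i hi8
    have h1 : ∀ j ∈ range (K + 1), |(c i j : ℝ)| ≤ (9 * ((K : ℝ) + 1)) ^ 8 * ((K : ℝ) + 1) ^ 8 := by
      intro j hj
      rw [mem_range] at hj
      have := hs i hi8 j (by omega)
      simpa using this
    calc |((∑ j ∈ range (K + 1), c i j : ℚ) : ℝ)| = |∑ j ∈ range (K + 1), (c i j : ℝ)| := by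
          push_cast; rfl
      _ ≤ ∑ j ∈ range (K + 1), |(c i j : ℝ)| := abs_sum_le_sum_abs _ _
      _ ≤ ∑ _j ∈ range (K + 1), (9 * ((K : ℝ) + 1)) ^ 8 * ((K : ℝ) + 1) ^ 8 := sum_le_sum h1
      _ = 9 ^ 8 * ((K : ℝ) + 1) ^ 17 := by
          rw [sum_const, card_range, nsmul_eq_mul]; push_cast; ring
      _ ≤ (3 * 9 ^ 8 * 4 ^ 4) * ((K : ℝ) + 1) ^ 18 := by
          refine mul_le_mul (by norm_num) (pow_le_pow_right₀ hK1 (by norm_num)) (by positivity)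
            (by norm_num)
  · rw [hrat]
    have h2 : ∀ j ∈ range (K + 1), |∑ l ∈ range j, (x j l : ℝ)| ≤
        ((K : ℝ) + 1) * ((9 * ((K : ℝ) + 1)) ^ 8 * ((4 * ((K : ℝ) + 1)) ^ 4 * ((K : ℝ) + 1) ^ 4)) := by
      intro j hj
      rw [mem_range] at hj
      calc |∑ l ∈ range j, (x j l : ℝ)| ≤ ∑ l ∈ range j, |(x j l : ℝ)| := abs_sum_le_sum_abs _ _
        _ ≤ ∑ _l ∈ range j, (9 * ((K : ℝ) + 1)) ^ 8 *
            ((4 * ((K : ℝ) + 1)) ^ 4 * ((K : ℝ) + 1) ^ 4) := by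
            refine sum_le_sum fun l hl => ?_
            rw [mem_range] at hl
            exact hxs j l (by omega) hl
        _ = (j : ℝ) * ((9 * ((K : ℝ) + 1)) ^ 8 *
            ((4 * ((K : ℝ) + 1)) ^ 4 * ((K : ℝ) + 1) ^ 4)) := by
            rw [sum_const, card_range, nsmul_eq_mul]
        _ ≤ _ := by
            refine mul_le_mul_of_nonneg_right ?_ (by positivity)
            have : (j : ℝ) ≤ K := by exact_mod_cast (by omega : j ≤ K)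
            linarith
    have e : ((-3 * ∑ j ∈ range (K + 1), ∑ l ∈ range j, x j l : ℚ) : ℝ) =
        -3 * ∑ j ∈ range (K + 1), ∑ l ∈ range j, (x j l : ℝ) := by
      push_cast; rfl
    rw [e, abs_mul]
    have h3 : |(-3 : ℝ)| = 3 := by norm_num
    rw [h3]
    calc 3 * |∑ j ∈ range (K + 1), ∑ l ∈ range j, (x j l : ℝ)|
        ≤ 3 * ∑ j ∈ range (K + 1), |∑ l ∈ range j, (x j l : ℝ)| :=
          mul_le_mul_of_nonneg_left (abs_sum_le_sum_abs _ _) (by norm_num)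
      _ ≤ 3 * ∑ _j ∈ range (K + 1), ((K : ℝ) + 1) *
          ((9 * ((K : ℝ) + 1)) ^ 8 * ((4 * ((K : ℝ) + 1)) ^ 4 * ((K : ℝ) + 1) ^ 4)) :=
          mul_le_mul_of_nonneg_left (sum_le_sum h2) (by norm_num)
      _ = (3 * 9 ^ 8 * 4 ^ 4) * ((K : ℝ) + 1) ^ 18 := by
          rw [sum_const, card_range, nsmul_eq_mul]; push_cast; ring

end Pool.Agent.Work.MP_03df5c_pb
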