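import Pool.Agent.Work.MP_03df5c_pb.Interface7
import Pool.Agent.Work.MP_03df5c_pb.B_V1
import Pool.Agent.Work.MP_03df5c_pb.B_V6

/-! # Block W6 (helper77): the limits of the averages of `(1/4 + t)^(1-k)`, `p = 2`, `k` odd. -/

open Finset Filter Topology

namespace Pool.Agent.Work.MP_03df5c_pb

open Pool.Agent.Work.MP_03df5c_h91

namespace BW6

open BV6

lemma expand (e : ℕ) (he : Even e) (N : ℕ) :
    ‖invPowSum 2 e (N + 2) - 2 * A 2 2 e N - (e : ℚ_[2]) * (2 : ℚ_[2]) ^ (N + 2) * A 2 2 (e + 1) N‖ ≤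
      (((2 : ℝ) ^ (N + 2))⁻¹) ^ 2 := by
  have hp : Fact (Nat.Prime 2) := inferInstance
  have e0 : invPowSum 2 e (N + 2) - 2 * A 2 2 e N -
      (e : ℚ_[2]) * (2 : ℚ_[2]) ^ (N + 2) * A 2 2 (e + 1) N =
      ∑ t ∈ range (2 ^ N), ((((2 ^ (N + 2) - (1 + 2 ^ 2 * t) : ℕ) : ℚ_[2]) ^ e)⁻¹ -
        (((1 + 2 ^ 2 * t : ℕ) : ℚ_[2]) ^ e)⁻¹ -
        (e : ℚ_[2]) * (2 : ℚ_[2]) ^ (N + 2) * (((1 + 2 ^ 2 * t : ℕ) : ℚ_[2]) ^ (e + 1))⁻¹) := by
    unfold invPowSum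
    rw [split 2 2 (Or.inl ⟨rfl, rfl⟩), sum_sub_distrib, sum_sub_distrib, ← mul_sum]
    unfold A
    ring
  rw [e0]
  refine norm_sum_le_of_le _ _ (by positivity) fun t ht => ?_
  rw [mem_range] at ht
  have h1 : 2 ^ (N + 2) = 2 ^ 2 * 2 ^ N := by rw [pow_add, mul_comm]
  have hle : 1 + 2 ^ 2 * t ≤ 2 ^ (N + 2) := by
    rw [h1]
    calc 1 + 2 ^ 2 * t ≤ 2 ^ 2 + 2 ^ 2 * t := by omega
      _ = 2 ^ 2 * (t + 1) := by ring
      _ ≤ 2 ^ 2 * 2 ^ N := Nat.mul_le_mul_left _ ht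
  have hu : ‖((1 + 2 ^ 2 * t : ℕ) : ℚ_[2])‖ = 1 := unit_norm (p := 2) (r := 2) (by norm_num) t
  have hx : ‖-((1 + 2 ^ 2 * t : ℕ) : ℚ_[2])‖ = 1 := by rw [norm_neg, hu]
  have hc : ((2 ^ (N + 2) - (1 + 2 ^ 2 * t) : ℕ) : ℚ_[2]) =
      -((1 + 2 ^ 2 * t : ℕ) : ℚ_[2]) + (2 : ℚ_[2]) ^ (N + 2) := by
    rw [Nat.cast_sub hle]
    push_cast
    ring
  have hxy : ‖-((1 + 2 ^ 2 * t : ℕ) : ℚ_[2]) + (2 : ℚ_[2]) ^ (N + 2)‖ = 1 := by
    rw [← hc]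
    apply norm_nat_eq_one
    intro hd
    have h3 : 2 ∣ 2 ^ (N + 2) := dvd_pow_self 2 (by omega)
    have h4 : 2 ∣ 1 + 2 ^ 2 * t := (Nat.dvd_sub_iff_right hle h3).1 hd
    omega
  have hyn : ‖(2 : ℚ_[2]) ^ (N + 2)‖ = ((2 : ℝ) ^ (N + 2))⁻¹ := by
    have := Padic.norm_p_pow (p := 2) (N + 2)
    rw [zpow_neg, zpow_natCast] at this
    exact_mod_cast this
  have hy : ‖(2 : ℚ_[2]) ^ (N + 2)‖ ≤ 1 := by
    have := norm_natCast_le_one (p := 2) (2 ^ (N + 2))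
    push_cast at this
    exact this
  have h6 := norm_inv_expand_le hx hxy hy e
  rw [hyn] at h6
  refine le_trans (le_of_eq ?_) h6
  rw [hc]
  congr 1
  rw [he.neg_pow, (he.add_one).neg_pow, inv_neg]
  ring

end BW6

open BV6 BW6 in
theorem p_W6 : S_W6 := by
  intro k hk hk3
  obtain ⟨e, rfl⟩ : ∃ e, k = e + 1 := ⟨k - 1, by omega⟩
  have he : Even e := by
    rcases Nat.even_or_odd e with h | h
    · exact h
    · exact absurd hk (by simpa using h.add_one)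
  rw [Nat.add_sub_cancel]
  have hkk := tendsto_klSum 2 (k := e + 1) (by omega)
  have hkl := kubotaLeopoldt_eq (p := 2) (k := e + 1) (by omega)
  set L := limUnder atTop (klSum 2 (e + 1)) with hL
  have hu : Tendsto (fun N => klSum 2 (e + 1) (N + 2)) atTop (𝓝 L) :=
    (tendsto_add_atTop_iff_nat 2).2 hkk
  have hgeo : Tendsto (fun N : ℕ => ((2 : ℝ) ^ N)⁻¹) atTop (𝓝 0) := by
    have := tendsto_pow_atTop_nhds_zero_of_lt_one (r := ((2 : ℝ))⁻¹) (by positivity)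
      (by norm_num)
    refine this.congr fun N => ?_
    rw [inv_pow]
  have hw : Tendsto (fun N => A 2 2 (e + 1) N) atTop (𝓝 0) := by
    apply squeeze_zero_norm (fun N => A_small (p := 2) p_V1 (r := 2) (by norm_num) (e + 1) N)
    have := hgeo.mul_const ((2 : ℝ) + 1)
    rw [zero_mul] at this
    exact_mod_cast this
  have her : Tendsto (fun N => ((2 : ℚ_[2]) ^ (N + 2))⁻¹ * (invPowSum 2 e (N + 2) -
      2 * A 2 2 e N - (e : ℚ_[2]) * (2 : ℚ_[2]) ^ (N + 2) * A 2 2 (e + 1) N)) atTop (𝓝 0) := by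
    have hb : ∀ N, ‖((2 : ℚ_[2]) ^ (N + 2))⁻¹ * (invPowSum 2 e (N + 2) -
      2 * A 2 2 e N - (e : ℚ_[2]) * (2 : ℚ_[2]) ^ (N + 2) * A 2 2 (e + 1) N)‖ ≤
        ((2 : ℝ) ^ (N + 2))⁻¹ := by
      intro N
      have hyn : ‖(2 : ℚ_[2]) ^ (N + 2)‖ = ((2 : ℝ) ^ (N + 2))⁻¹ := by
        have := Padic.norm_p_pow (p := 2) (N + 2)
        rw [zpow_neg, zpow_natCast] at this
        exact_mod_cast this
      rw [norm_mul, norm_inv, hyn, inv_inv]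
      have h2 := expand e he N
      have hpos : (0 : ℝ) < (2 : ℝ) ^ (N + 2) := by positivity
      calc (2 : ℝ) ^ (N + 2) * _ ≤ (2 : ℝ) ^ (N + 2) * (((2 : ℝ) ^ (N + 2))⁻¹) ^ 2 :=
            mul_le_mul_of_nonneg_left h2 hpos.le
        _ = ((2 : ℝ) ^ (N + 2))⁻¹ := by
            field_simp
    apply squeeze_zero_norm hb
    exact (tendsto_add_atTop_iff_nat (f := fun N : ℕ => ((2 : ℝ) ^ N)⁻¹) 2).2 hgeo
  have hav : ∀ N, av 2 (fun t => ((xa 2 2 1 t) ^ e)⁻¹) N =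
      (4 : ℚ_[2]) ^ (e + 1) / 2 * (klSum 2 (e + 1) (N + 2) - (e : ℚ_[2]) * A 2 2 (e + 1) N -
        ((2 : ℚ_[2]) ^ (N + 2))⁻¹ * (invPowSum 2 e (N + 2) -
      2 * A 2 2 e N - (e : ℚ_[2]) * (2 : ℚ_[2]) ^ (N + 2) * A 2 2 (e + 1) N)) := by
    intro N
    have hx : ∀ t, ((xa 2 2 1 t) ^ e)⁻¹ =
        (4 : ℚ_[2]) ^ e * (((1 + 2 ^ 2 * t : ℕ) : ℚ_[2]) ^ e)⁻¹ := by
      intro t
      have hne : ((1 + 2 ^ 2 * t : ℕ) : ℚ_[2]) ≠ 0 := by
        intro h0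
        have := unit_norm (p := 2) (r := 2) (by norm_num) t
        rw [h0, norm_zero] at this
        exact zero_ne_one this
      have e1 : xa 2 2 1 t = ((1 + 2 ^ 2 * t : ℕ) : ℚ_[2]) / 4 := by
        unfold xa
        push_cast
        ring
      rw [e1, div_pow, inv_div, div_eq_mul_inv]
    have hA : ∑ t ∈ range (2 ^ N), ((xa 2 2 1 t) ^ e)⁻¹ = (4 : ℚ_[2]) ^ e * A 2 2 e N := by
      unfold A
      rw [mul_sum]
      exact sum_congr rfl fun t _ => hx t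
    have hkls : klSum 2 (e + 1) (N + 2) = ((2 : ℚ_[2]) ^ (N + 2))⁻¹ * invPowSum 2 e (N + 2) := by
      unfold klSum
      rw [Nat.add_sub_cancel]
      norm_cast
    unfold av
    rw [hA, hkls]
    have hpN : (2 : ℚ_[2]) ^ N ≠ 0 := pow_ne_zero _ (by norm_num)
    push_cast
    rw [pow_add, pow_succ]
    field_simp
    ring
  have hlim := ((hu.sub (hw.const_mul (e : ℚ_[2]))).sub her).const_mul ((4 : ℚ_[2]) ^ (e + 1) / 2)
  refine (hlim.congr fun N => (hav N).symm).trans (le_of_eq ?_)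
  congr 1
  rw [hkl]
  have he0 : (e : ℚ_[2]) ≠ 0 := by
    have : e ≠ 0 := by omega
    exact_mod_cast this
  push_cast
  rw [add_sub_cancel_right]
  field_simp
  ring

end Pool.Agent.Work.MP_03df5c_pb
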