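import Pool.Agent.Work.MP_03df5c_pb.Interface7

open Finset Filter Topology

namespace Pool.Agent.Work.MP_03df5c_pb

namespace BW7

theorem prod_log {ι : Type*} [DecidableEq ι] (s : Finset ι) (f l : ι → ℚ → ℚ) (u : ℚ)
    (h : ∀ i ∈ s, HasDerivAt (f i) (f i u * l i u) u) :
    HasDerivAt (fun v => ∏ i ∈ s, f i v) ((∏ i ∈ s, f i u) * ∑ i ∈ s, l i u) u := by
  induction s using Finset.induction_on with
  | empty => simpa using hasDerivAt_const u (1 : ℚ)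
  | insert a s ha ih =>
    have h1 := h a (Finset.mem_insert_self a s)
    have h2 := ih (fun i hi => h i (Finset.mem_insert_of_mem hi))
    have h3 := h1.fun_mul h2
    have e : (fun v => ∏ i ∈ insert a s, f i v) = fun v => f a v * ∏ i ∈ s, f i v := by
      funext v
      rw [Finset.prod_insert ha]
    rw [e, Finset.prod_insert ha, Finset.sum_insert ha]
    refine h3.congr_deriv ?_
    ring

theorem lin (a u : ℚ) : HasDerivAt (fun v : ℚ => v + a) 1 u := (hasDerivAt_id u).add_const a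

theorem pow_log (a u : ℚ) (k : ℕ) (h : u + a ≠ 0) :
    HasDerivAt (fun v : ℚ => (v + a) ^ (k + 1)) ((u + a) ^ (k + 1) * (((k : ℚ) + 1) / (u + a))) u := by
  refine ((lin a u).fun_pow (k + 1)).congr_deriv ?_
  rw [Nat.add_sub_cancel, pow_succ]
  push_cast
  field_simp

theorem frac (x a u : ℚ) (k : ℕ) (h : u + a ≠ 0) :
    HasDerivAt (fun v : ℚ => x / (v + a) ^ (k + 1))
      (-(((k : ℚ) + 1) * x / (u + a) ^ (k + 2))) u := by
  have h1 := ((pow_log a u k h).fun_inv (pow_ne_zero _ h)).const_mul x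
  refine (h1.congr_of_eventuallyEq (Filter.Eventually.of_forall fun v => ?_)).congr_deriv ?_
  · exact div_eq_mul_inv _ _
  · have e1 : (u + a) ^ (k + 2) = (u + a) ^ (k + 1) * (u + a) := pow_succ _ _
    rw [e1]
    have h2 : (u + a) ^ (k + 1) ≠ 0 := pow_ne_zero _ h
    field_simp

theorem pow_inv_log (a u : ℚ) (h : u + a ≠ 0) :
    HasDerivAt (fun v : ℚ => ((v + a) ^ 8)⁻¹) (((u + a) ^ 8)⁻¹ * -(8 / (u + a))) u := by
  refine ((pow_log a u 7 h).fun_inv (pow_ne_zero _ h)).congr_deriv ?_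
  have h2 : (u + a) ^ 8 ≠ 0 := pow_ne_zero _ h
  norm_num
  field_simp

/-- The two linear factors of index `i`. -/
theorem two_log (i : ℕ) (hi : 1 ≤ i) (u : ℚ) (hu : 0 < u) :
    HasDerivAt (fun v : ℚ => (v + (-1 / 4 + (i : ℚ))) ^ 4 * (v + (-3 / 4 + (i : ℚ))) ^ 4)
      ((u + (-1 / 4 + (i : ℚ))) ^ 4 * (u + (-3 / 4 + (i : ℚ))) ^ 4 *
        (4 / (u + (-1 / 4 + (i : ℚ))) + 4 / (u + (-3 / 4 + (i : ℚ))))) u := by
  have hi' : (1 : ℚ) ≤ i := by exact_mod_cast hi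
  have h1 : u + (-1 / 4 + (i : ℚ)) ≠ 0 := by
    have : 0 < u + (-1 / 4 + (i : ℚ)) := by linarith
    exact this.ne'
  have h3 : u + (-3 / 4 + (i : ℚ)) ≠ 0 := by
    have : 0 < u + (-3 / 4 + (i : ℚ)) := by linarith
    exact this.ne'
  refine ((pow_log _ u 3 h1).fun_mul (pow_log _ u 3 h3)).congr_deriv ?_
  norm_num
  ring

/-- The product form. -/
noncomputable def RP (K : ℕ) (u : ℚ) : ℚ :=
  (∏ i ∈ (Icc 1 K : Finset ℕ), ((u + (-1 / 4 + (i : ℚ))) ^ 4 * (u + (-3 / 4 + (i : ℚ))) ^ 4)) *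
    ∏ j ∈ range (K + 1), ((u + (j : ℚ)) ^ 8)⁻¹

/-- The logarithmic derivative. -/
noncomputable def LP (K : ℕ) (u : ℚ) : ℚ :=
  (∑ i ∈ (Icc 1 K : Finset ℕ), (4 / (u + (-1 / 4 + (i : ℚ))) + 4 / (u + (-3 / 4 + (i : ℚ))))) +
    ∑ j ∈ range (K + 1), -(8 / (u + (j : ℚ)))

/-- Minus its derivative. -/
noncomputable def MP (K : ℕ) (u : ℚ) : ℚ :=
  (∑ i ∈ (Icc 1 K : Finset ℕ),
    (4 / (u + (-1 / 4 + (i : ℚ))) ^ 2 + 4 / (u + (-3 / 4 + (i : ℚ))) ^ 2)) -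
    ∑ j ∈ range (K + 1), 8 / (u + (j : ℚ)) ^ 2

theorem dRP (K : ℕ) (u : ℚ) (hu : 0 < u) : HasDerivAt (RP K) (RP K u * LP K u) u := by
  have h1 := prod_log (Icc 1 K : Finset ℕ)
    (fun i v => (v + (-1 / 4 + (i : ℚ))) ^ 4 * (v + (-3 / 4 + (i : ℚ))) ^ 4)
    (fun i v => 4 / (v + (-1 / 4 + (i : ℚ))) + 4 / (v + (-3 / 4 + (i : ℚ)))) u
    (fun i hi => two_log i (Finset.mem_Icc.1 hi).1 u hu)
  have h2 := prod_log (range (K + 1)) (fun j v => ((v + (j : ℚ)) ^ 8)⁻¹)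
    (fun j v => -(8 / (v + (j : ℚ)))) u
    (fun j _ => pow_inv_log _ u (by positivity))
  refine (h1.fun_mul h2).congr_deriv ?_
  unfold RP LP
  ring

theorem dLP (K : ℕ) (u : ℚ) (hu : 0 < u) : HasDerivAt (LP K) (-MP K u) u := by
  have h1 : ∀ i ∈ (Icc 1 K : Finset ℕ),
      HasDerivAt (fun v : ℚ => 4 / (v + (-1 / 4 + (i : ℚ))) + 4 / (v + (-3 / 4 + (i : ℚ))))
        (-(4 / (u + (-1 / 4 + (i : ℚ))) ^ 2) + -(4 / (u + (-3 / 4 + (i : ℚ))) ^ 2)) u := by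
    intro i hi
    have hi' : (1 : ℚ) ≤ i := by exact_mod_cast (Finset.mem_Icc.1 hi).1
    have h1 : u + (-1 / 4 + (i : ℚ)) ≠ 0 := by
      have : 0 < u + (-1 / 4 + (i : ℚ)) := by linarith
      exact this.ne'
    have h3 : u + (-3 / 4 + (i : ℚ)) ≠ 0 := by
      have : 0 < u + (-3 / 4 + (i : ℚ)) := by linarith
      exact this.ne'
    have k1 := frac 4 _ u 0 h1
    have k3 := frac 4 _ u 0 h3
    simp only [zero_add, pow_one, Nat.cast_zero, one_mul] at k1 k3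
    exact k1.fun_add k3
  have h2 : ∀ j ∈ range (K + 1),
      HasDerivAt (fun v : ℚ => -(8 / (v + (j : ℚ)))) (8 / (u + (j : ℚ)) ^ 2) u := by
    intro j _
    have k1 := (frac 8 (j : ℚ) u 0 (by positivity)).fun_neg
    simp only [zero_add, pow_one, Nat.cast_zero, one_mul, neg_neg] at k1
    exact k1
  refine ((HasDerivAt.fun_sum h1).fun_add (HasDerivAt.fun_sum h2)).congr_deriv ?_
  unfold MP
  rw [neg_sub, sub_eq_add_neg, ← Finset.sum_neg_distrib, add_comm]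
  refine congrArg₂ _ rfl (Finset.sum_congr rfl fun i _ => ?_)
  ring

/-- The first derivative of the partial fractions. -/
noncomputable def E1 (K : ℕ) (c : ℕ → ℕ → ℚ) (u : ℚ) : ℚ :=
  ∑ j ∈ range (K + 1), ∑ i ∈ range 8, -(((i : ℚ) + 1) * c i j / (u + (j : ℚ)) ^ (i + 2))

theorem dev (K : ℕ) (c : ℕ → ℕ → ℚ) (u : ℚ) (hu : 0 < u) :
    HasDerivAt (ev K 8 c) (E1 K c u) u := by
  refine HasDerivAt.fun_sum fun j _ => HasDerivAt.fun_sum fun i _ => ?_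
  exact frac (c i j) (j : ℚ) u i (by positivity)

theorem dE1 (K : ℕ) (c : ℕ → ℕ → ℚ) (u : ℚ) (hu : 0 < u) :
    HasDerivAt (E1 K c) (2 * T2c K c u) u := by
  have h : HasDerivAt (E1 K c) (∑ j ∈ range (K + 1), ∑ i ∈ range 8,
      -(-((((i + 1 : ℕ) : ℚ) + 1) * (((i : ℚ) + 1) * c i j) / (u + (j : ℚ)) ^ (i + 1 + 2)))) u :=
    HasDerivAt.fun_sum fun j _ => HasDerivAt.fun_sum fun i _ =>
      (frac (((i : ℚ) + 1) * c i j) (j : ℚ) u (i + 1) (by positivity)).fun_neg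
  refine h.congr_deriv ?_
  unfold T2c
  rw [Finset.mul_sum]
  refine Finset.sum_congr rfl fun j _ => ?_
  rw [Finset.mul_sum]
  refine Finset.sum_congr rfl fun i _ => ?_
  rw [Nat.cast_choose_two, neg_neg]
  push_cast
  ring

theorem prod_reflect (K : ℕ) (y : ℚ) :
    ∏ m ∈ range K, (y + (K : ℚ) - (m : ℚ)) = ∏ i ∈ (Icc 1 K : Finset ℕ), (y + (i : ℚ)) := by
  refine Finset.prod_nbij' (fun m => K - m) (fun i => K - i) ?_ ?_ ?_ ?_ ?_
  · intro m hm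
    rw [Finset.mem_range] at hm
    rw [Finset.mem_Icc]
    omega
  · intro i hi
    rw [Finset.mem_Icc] at hi
    rw [Finset.mem_range]
    omega
  · intro m hm
    rw [Finset.mem_range] at hm
    show K - (K - m) = m
    omega
  · intro i hi
    rw [Finset.mem_Icc] at hi
    show K - (K - i) = i
    omega
  · intro m hm
    rw [Finset.mem_range] at hm
    rw [Nat.cast_sub hm.le]
    ring

theorem block (hP3 : S_P3) (K : ℕ) (θ u : ℚ) (hg : Good K u) :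
    sf K (bet K θ) u = (∏ i ∈ (Icc 1 K : Finset ℕ), (u + (-θ + (i : ℚ)))) *
      (∏ j ∈ range (K + 1), (u + (j : ℚ)))⁻¹ := by
  rw [(hP3 K u hg).2 θ]
  unfold bin
  rw [prod_reflect]
  have hK : (K.factorial : ℚ) ≠ 0 := by exact_mod_cast K.factorial_ne_zero
  have e : ∏ i ∈ (Icc 1 K : Finset ℕ), (u - θ + (i : ℚ)) =
      ∏ i ∈ (Icc 1 K : Finset ℕ), (u + (-θ + (i : ℚ))) :=
    Finset.prod_congr rfl fun i _ => by ring
  rw [e]
  field_simp

theorem RY_eq (hP3 : S_P3) (K : ℕ) (u : ℚ) (hu : 0 < u) : RY K u = RP K u := by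
  have hg : Good K u := fun j _ => by positivity
  have h1 : th 2 2 1 = 1 / 4 := by norm_num [th]
  have h3 : th 2 2 3 = 3 / 4 := by norm_num [th]
  unfold RY RP
  rw [h1, h3, block hP3 K _ u hg, block hP3 K _ u hg, Finset.prod_mul_distrib, Finset.prod_pow,
    Finset.prod_pow, Finset.prod_inv_distrib, Finset.prod_pow]
  have e1 : (-(1 / 4) : ℚ) = -1 / 4 := by norm_num
  have e3 : (-(3 / 4) : ℚ) = -3 / 4 := by norm_num
  rw [e1, e3]
  ring

end BW7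

theorem p_W7 (hP3 : S_P3) : S_W7 := by
  intro K c hPF t
  have hu : (0 : ℚ) < 1 / 4 + (t : ℚ) := by positivity
  have hnhds : ∀ u : ℚ, 0 < u → ∀ᶠ v in 𝓝 u, 0 < v := fun u hu => lt_mem_nhds hu
  have h0 : ∀ u : ℚ, 0 < u → BW7.RP K u = ev K 8 c u := fun u hu => by
    rw [← BW7.RY_eq hP3 K u hu]
    exact hPF u fun j _ => by positivity
  have h1 : ∀ u : ℚ, 0 < u → BW7.RP K u * BW7.LP K u = BW7.E1 K c u := fun u hu =>
    (BW7.dRP K u hu).unique ((BW7.dev K c u hu).congr_of_eventuallyEq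
      ((hnhds u hu).mono fun v hv => h0 v hv))
  have h2 : BW7.RP K (1 / 4 + t) * BW7.LP K (1 / 4 + t) * BW7.LP K (1 / 4 + t) +
      BW7.RP K (1 / 4 + t) * -BW7.MP K (1 / 4 + t) = 2 * T2c K c (1 / 4 + t) :=
    ((BW7.dRP K _ hu).fun_mul (BW7.dLP K _ hu)).unique
      ((BW7.dE1 K c _ hu).congr_of_eventuallyEq ((hnhds _ hu).mono fun v hv => h1 v hv))
  have hL : BW7.LP K (1 / 4 + t) =
      (∑ i ∈ (Icc 1 K : Finset ℕ), (4 / ((t : ℚ) + (i : ℚ)) + 4 / ((t : ℚ) - 1 / 2 + (i : ℚ))) -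
        ∑ j ∈ range (K + 1), 8 / (1 / 4 + (t : ℚ) + (j : ℚ))) := by
    unfold BW7.LP
    rw [Finset.sum_neg_distrib, ← sub_eq_add_neg]
    refine congrArg₂ _ (Finset.sum_congr rfl fun i _ => ?_) rfl
    have a1 : (1 / 4 : ℚ) + t + (-1 / 4 + i) = t + i := by ring
    have a3 : (1 / 4 : ℚ) + t + (-3 / 4 + i) = t - 1 / 2 + i := by ring
    rw [a1, a3]
  have hM : BW7.MP K (1 / 4 + t) =
      (∑ i ∈ (Icc 1 K : Finset ℕ),
          (4 / ((t : ℚ) + (i : ℚ)) ^ 2 + 4 / ((t : ℚ) - 1 / 2 + (i : ℚ)) ^ 2) -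
        ∑ j ∈ range (K + 1), 8 / (1 / 4 + (t : ℚ) + (j : ℚ)) ^ 2) := by
    unfold BW7.MP
    refine congrArg₂ _ (Finset.sum_congr rfl fun i _ => ?_) rfl
    have a1 : (1 / 4 : ℚ) + t + (-1 / 4 + i) = t + i := by ring
    have a3 : (1 / 4 : ℚ) + t + (-3 / 4 + i) = t - 1 / 2 + i := by ring
    rw [a1, a3]
  rw [← hL, ← hM, BW7.RY_eq hP3 K _ hu]
  linear_combination (-1 / 2 : ℚ) * h2

end Pool.Agent.Work.MP_03df5c_pb
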