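import Pool.Agent.Work.MP_03df5c_pb.Interface7
import Pool.Agent.Work.MP_03df5c_pb.B_N2b

/-!
# Block W7q: the second Taylor coefficient in `ℚ_2`
-/

set_option autoImplicit false

open Finset Filter Topology

namespace Pool.Agent.Work.MP_03df5c_pb

namespace BW7q

theorem th_eq (t : ℕ) : th 2 2 1 + (t : ℚ) = 1 / 4 + (t : ℚ) := by
  unfold th
  norm_num

theorem th3_eq : th 2 2 3 = 3 / 4 := by
  unfold th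
  norm_num

theorem th1_eq : th 2 2 1 = 1 / 4 := by
  unfold th
  norm_num

theorem good (K t : ℕ) : Good K (1 / 4 + (t : ℚ)) := by
  intro j _
  positivity

theorem bin_half (K t : ℕ) : bin ((t : ℚ) - 1 / 2 + K) K =
    (-1) ^ K * ((2 : ℚ) ^ K)⁻¹ * (∏ i ∈ Icc 1 K, (1 - 2 * ((t : ℚ) + (i : ℚ)))) / (K.factorial : ℚ) := by
  unfold bin
  congr 1
  have h : ∀ K : ℕ, ∏ m ∈ range K, ((t : ℚ) - 1 / 2 + K - (m : ℚ)) =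
      ∏ i ∈ Icc 1 K, (-(1 / 2) * (1 - 2 * ((t : ℚ) + (i : ℚ)))) := by
    intro K
    rw [← Finset.prod_range_reflect]
    have : Icc 1 K = Ico 1 (K + 1) := by ext x; simp
    rw [this, Finset.prod_Ico_eq_prod_range]
    refine Finset.prod_congr (by simp) fun j hj => ?_
    have hj' := Finset.mem_range.1 hj
    have e : ((K - 1 - j : ℕ) : ℚ) = (K : ℚ) - 1 - j := by
      rw [Nat.cast_sub (by omega), Nat.cast_sub (by omega)]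
      norm_num
    rw [e]
    push_cast
    ring
  rw [h, Finset.prod_mul_distrib, Finset.prod_const]
  simp only [Nat.card_Icc, Nat.add_sub_cancel]
  have e : (-(1 / 2 : ℚ)) ^ K = (-1) ^ K * (2 ^ K)⁻¹ := by
    rw [show (-(1 / 2 : ℚ)) = (-1) * 2⁻¹ by norm_num, mul_pow, inv_pow]
  rw [e]

theorem prod_den (K t : ℕ) : ∏ j ∈ range (K + 1), (1 / 4 + (t : ℚ) + (j : ℚ)) =
    (∏ j ∈ range (K + 1), (1 + 4 * ((t : ℚ) + (j : ℚ)))) / 4 ^ (K + 1) := by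
  have h : ∀ j : ℕ, (1 / 4 + (t : ℚ) + (j : ℚ)) = (1 + 4 * ((t : ℚ) + (j : ℚ))) / 4 := by
    intro j; ring
  simp only [h]
  rw [Finset.prod_div_distrib, Finset.prod_const, Finset.card_range]

theorem RY_eq (h3 : S_P3) (K t : ℕ) : RY K (1 / 4 + (t : ℚ)) =
    (K.factorial : ℚ) ^ 4 * 2 ^ (12 * K + 16) * ((((t + K).choose K : ℕ) : ℚ) ^ 4 *
      ((∏ i ∈ Icc 1 K, (1 - 2 * ((t : ℚ) + (i : ℚ)))) ^ 4 /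
        (∏ j ∈ range (K + 1), (1 + 4 * ((t : ℚ) + (j : ℚ)))) ^ 8)) := by
  have hg := good K t
  have hp : (∏ j ∈ range (K + 1), (1 + 4 * ((t : ℚ) + (j : ℚ)))) ≠ 0 := by
    rw [Finset.prod_ne_zero_iff]
    intro j _
    positivity
  have hf : (K.factorial : ℚ) ≠ 0 := by exact_mod_cast K.factorial_ne_zero
  unfold RY
  rw [(h3 K _ hg).2, (h3 K _ hg).2, th1_eq, th3_eq, prod_den,
    show 1 / 4 + (t : ℚ) - 1 / 4 + K = (t : ℚ) + K by ring, BN2b.bin_choose,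
    show 1 / 4 + (t : ℚ) - 3 / 4 + K = (t : ℚ) - 1 / 2 + K by ring, bin_half]
  obtain ⟨P, hP⟩ : ∃ P, P = ∏ j ∈ range (K + 1), (1 + 4 * ((t : ℚ) + (j : ℚ))) := ⟨_, rfl⟩
  obtain ⟨Q, hQ⟩ : ∃ Q, Q = ∏ i ∈ Icc 1 K, (1 - 2 * ((t : ℚ) + (i : ℚ))) := ⟨_, rfl⟩
  rw [← hP, ← hQ]
  rw [← hP] at hp
  have e1 : (4 : ℚ) ^ (K + 1) = 4 * (2 ^ K) ^ 2 := by
    rw [pow_succ, show (4 : ℚ) = 2 ^ 2 by norm_num, ← pow_mul, ← pow_mul, mul_comm 2 K]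
    ring
  have e2 : (2 : ℚ) ^ (12 * K + 16) = 2 ^ 16 * (2 ^ K) ^ 12 := by
    rw [pow_add, mul_comm 12 K, pow_mul]
    ring
  have e3 : ((-1 : ℚ) ^ K) ^ 4 = 1 := by
    rw [← pow_mul, mul_comm, pow_mul]
    norm_num
  rw [e1, e2]
  obtain ⟨x, hx⟩ : ∃ x, x = (2 : ℚ) ^ K := ⟨_, rfl⟩
  obtain ⟨y, hy⟩ : ∃ y, y = (-1 : ℚ) ^ K := ⟨_, rfl⟩
  have hx0 : x ≠ 0 := by rw [hx]; positivity
  rw [← hx, ← hy]
  rw [← hy] at e3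
  field_simp
  rw [e3]
  ring

theorem cast_fac (K t : ℕ) :
    (((∑ i ∈ (Icc 1 K : Finset ℕ), (4 / ((t : ℚ) + (i : ℚ)) + 4 / ((t : ℚ) - 1 / 2 + (i : ℚ))) -
        ∑ j ∈ range (K + 1), 8 / (1 / 4 + (t : ℚ) + (j : ℚ)) : ℚ)) : ℚ_[2]) =
      4 * ∑ i ∈ (Icc 1 K : Finset ℕ), ((t : ℚ_[2]) + (i : ℚ_[2]))⁻¹ +
      (-8 * ∑ i ∈ (Icc 1 K : Finset ℕ), (1 - 2 * ((t : ℚ_[2]) + (i : ℚ_[2])))⁻¹ -
        32 * ∑ j ∈ range (K + 1), (1 + 4 * ((t : ℚ_[2]) + (j : ℚ_[2])))⁻¹) := by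
  have e1 : ∀ i : ℕ, (4 : ℚ_[2]) / ((t : ℚ_[2]) - 1 / 2 + (i : ℚ_[2])) =
      -8 * (1 - 2 * ((t : ℚ_[2]) + (i : ℚ_[2])))⁻¹ := by
    intro i
    obtain ⟨x, hx⟩ : ∃ x, x = 1 - 2 * ((t : ℚ_[2]) + (i : ℚ_[2])) := ⟨_, rfl⟩
    have : (t : ℚ_[2]) - 1 / 2 + (i : ℚ_[2]) = x * (-(1 / 2)) := by rw [hx]; ring
    rw [this, ← hx]
    ring
  have e2 : ∀ j : ℕ, (8 : ℚ_[2]) / (1 / 4 + (t : ℚ_[2]) + (j : ℚ_[2])) =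
      32 * (1 + 4 * ((t : ℚ_[2]) + (j : ℚ_[2])))⁻¹ := by
    intro j
    obtain ⟨x, hx⟩ : ∃ x, x = 1 + 4 * ((t : ℚ_[2]) + (j : ℚ_[2])) := ⟨_, rfl⟩
    have : 1 / 4 + (t : ℚ_[2]) + (j : ℚ_[2]) = x * (1 / 4) := by rw [hx]; ring
    rw [this, ← hx]
    ring
  push_cast
  simp only [e1, e2, Finset.sum_add_distrib, ← Finset.mul_sum, div_eq_mul_inv (4 : ℚ_[2])]
  ring

theorem cast_fac2 (K t : ℕ) :
    (((∑ i ∈ (Icc 1 K : Finset ℕ), (4 / ((t : ℚ) + (i : ℚ)) ^ 2 + 4 / ((t : ℚ) - 1 / 2 + (i : ℚ)) ^ 2) -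
        ∑ j ∈ range (K + 1), 8 / (1 / 4 + (t : ℚ) + (j : ℚ)) ^ 2 : ℚ)) : ℚ_[2]) =
      4 * ∑ i ∈ (Icc 1 K : Finset ℕ), (((t : ℚ_[2]) + (i : ℚ_[2])) ^ 2)⁻¹ +
      (16 * ∑ i ∈ (Icc 1 K : Finset ℕ), ((1 - 2 * ((t : ℚ_[2]) + (i : ℚ_[2]))) ^ 2)⁻¹ -
        128 * ∑ j ∈ range (K + 1), ((1 + 4 * ((t : ℚ_[2]) + (j : ℚ_[2]))) ^ 2)⁻¹) := by
  have e1 : ∀ i : ℕ, (4 : ℚ_[2]) / ((t : ℚ_[2]) - 1 / 2 + (i : ℚ_[2])) ^ 2 =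
      16 * ((1 - 2 * ((t : ℚ_[2]) + (i : ℚ_[2]))) ^ 2)⁻¹ := by
    intro i
    obtain ⟨x, hx⟩ : ∃ x, x = 1 - 2 * ((t : ℚ_[2]) + (i : ℚ_[2])) := ⟨_, rfl⟩
    have : (t : ℚ_[2]) - 1 / 2 + (i : ℚ_[2]) = x * (-(1 / 2)) := by rw [hx]; ring
    rw [this, ← hx]
    ring
  have e2 : ∀ j : ℕ, (8 : ℚ_[2]) / (1 / 4 + (t : ℚ_[2]) + (j : ℚ_[2])) ^ 2 =
      128 * ((1 + 4 * ((t : ℚ_[2]) + (j : ℚ_[2]))) ^ 2)⁻¹ := by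
    intro j
    obtain ⟨x, hx⟩ : ∃ x, x = 1 + 4 * ((t : ℚ_[2]) + (j : ℚ_[2])) := ⟨_, rfl⟩
    have : 1 / 4 + (t : ℚ_[2]) + (j : ℚ_[2]) = x * (1 / 4) := by rw [hx]; ring
    rw [this, ← hx]
    ring
  push_cast
  simp only [e1, e2, Finset.sum_add_distrib, ← Finset.mul_sum, div_eq_mul_inv (4 : ℚ_[2])]
  ring

end BW7q

/-- W7q, from W7 and P3 -/
theorem p_W7q (hW7 : S_W7) (hP3 : S_P3) : S_W7q := by
  intro m c hc t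
  have hK : 2 ^ m - 1 + 1 = 2 ^ m := by
    have : 0 < 2 ^ m := by positivity
    omega
  unfold vv
  rw [BW7q.th_eq, hW7 _ c hc t, BW7q.RY_eq hP3, Rat.cast_div, Rat.cast_mul, Rat.cast_sub, Rat.cast_pow,
    BW7q.cast_fac, BW7q.cast_fac2]
  unfold qq Aq wq H1q H2q U1q U2q
  rw [hK]
  push_cast
  ring

end Pool.Agent.Work.MP_03df5c_pb
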