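import Pool.Agent.Work.MP_03df5c_pb.W8x

/-!
# Block W8a: the class of `0`
-/

open Finset Filter Topology

namespace Pool.Agent.Work.MP_03df5c_pb

open Pool.Agent.Work.MP_03df5c_h91

open W8x in
theorem p_W8a (hV1 : S_V1) : S_W8a := by
  intro m n hm
  set I : Finset ℕ := Icc 1 (2 ^ m - 1) with hI
  have hpm : 2 ^ m = 2 * 2 ^ (m - 1) := by
    rw [← pow_succ']
    congr 1
    omega
  have hp1 : 1 ≤ 2 ^ (m - 1) := Nat.one_le_two_pow
  have hi0 : 2 ^ (m - 1) ∈ I := by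
    rw [hI, mem_Icc]
    omega
  set J : Finset ℕ := I.erase (2 ^ (m - 1)) with hJ
  have hz0 : zz m 0 (2 ^ (m - 1)) = 2 := by
    unfold zz
    rw [zero_add]
    have h1 : (2 : ℚ_[2]) ^ m = 2 * 2 ^ (m - 1) := by exact_mod_cast hpm
    rw [h1]
    push_cast
    exact mul_div_cancel_right₀ _ (pow_ne_zero _ two_ne_zero)
  have hzI : ∀ i ∈ I, ‖zz m 0 i‖ ≤ 1 / 2 := by
    intro i hi
    rw [hI, mem_Icc] at hi
    apply zz_le (by omega)
    intro hd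
    have := Nat.le_of_dvd (by omega) hd
    omega
  have hzJ : ∀ i ∈ J, ‖zz m 0 i‖ ≤ 1 / 4 := by
    intro i hi
    rw [hJ, mem_erase, hI, mem_Icc] at hi
    apply zz_le4 hm (by omega)
    intro hd
    obtain ⟨k, hk⟩ := hd
    have h1 : k < 2 := by
      by_contra h2
      have h3 : 2 ^ (m - 1) * 2 ≤ 2 ^ (m - 1) * k := Nat.mul_le_mul_left _ (by omega)
      omega
    have h4 : k = 0 ∨ k = 1 := by omega
    rcases h4 with h4 | h4
    · subst h4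
      omega
    · subst h4
      omega
  set X : ℕ → ℚ_[2] := fun t => ∑ i ∈ I, zz m 0 i * (1 + zz m 0 i * (t : ℚ_[2]))⁻¹ with hX
  set Z : ℕ → ℚ_[2] := fun t => ∑ i ∈ J, (zz m 0 i * (1 + zz m 0 i * (t : ℚ_[2]))⁻¹) ^ 2
    with hZ
  set P : ℕ → ℚ_[2] := fun t => Aq m (0 + 2 ^ m * t) ^ 2 with hP
  have hXl : LL (1 / 2) (1 / 2) X :=
    LL.sum I (fun i (t : ℕ) => zz m 0 i * (1 + zz m 0 i * (t : ℚ_[2]))⁻¹)
      (by norm_num) (by norm_num) (fun i hi => zl (by norm_num) (hzI i hi))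
  have hZl : LL (1 / 16) (1 / 16) Z := by
    refine LL.sum J (fun i (t : ℕ) => (zz m 0 i * (1 + zz m 0 i * (t : ℚ_[2]))⁻¹) ^ 2)
      (by norm_num) (by norm_num) (fun i hi => ?_)
    have h3 := zl (c := 1 / 4) (by norm_num) (hzJ i hi)
    have h4 := h3.mul h3 (N := 1 / 16) (C := 1 / 16) (by norm_num) (by norm_num) (by norm_num)
    have h5 : (fun t : ℕ => (zz m 0 i * (1 + zz m 0 i * (t : ℚ_[2]))⁻¹) ^ 2) = fun t : ℕ =>
        (zz m 0 i * (1 + zz m 0 i * (t : ℚ_[2]))⁻¹) *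
          (zz m 0 i * (1 + zz m 0 i * (t : ℚ_[2]))⁻¹) := by
      funext t
      ring
    rw [h5]
    exact h4
  have hPl : LL 1 (1 / 4) P := by
    have h1 := V2.lip_sq (p := 2) m
    refine ⟨fun t => ?_, fun t s => ?_⟩
    · simp only [hP]
      rw [zero_add]
      exact h1.1 t
    · simp only [hP]
      rw [zero_add, zero_add]
      have h2 := h1.2 t s
      have h3 : (((2 : ℕ) : ℝ)⁻¹ * ((2 : ℕ) : ℝ)⁻¹) = 1 / 4 := by norm_num
      rw [h3] at h2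
      exact h2
  have hil : LL 1 (1 / 4) (fun t : ℕ => ((1 + 2 * (t : ℚ_[2])) ^ 2)⁻¹) := by
    have hn : ∀ t : ℕ, ‖1 + 2 * (t : ℚ_[2])‖ = 1 := by
      intro t
      apply one_add
      rw [norm_mul, n2]
      have := nat_le t
      linarith
    refine LL.inv (fun t => by rw [norm_pow, hn, one_pow]) ⟨fun t => by
      rw [norm_pow, hn, one_pow], fun t s => ?_⟩
    have h1 : (1 + 2 * ((t + s : ℕ) : ℚ_[2])) ^ 2 - (1 + 2 * (t : ℚ_[2])) ^ 2 =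
        4 * (((2 * t + s + 1 : ℕ) : ℚ_[2]) * (s : ℚ_[2])) := by
      push_cast
      ring
    simp only
    rw [h1, norm_mul, norm_mul, n4]
    exact mul_le_mul_of_nonneg_left (mul_le_of_le_one_left (norm_nonneg _) (nat_le _))
      (by norm_num)
  have hH1 : ∀ t : ℕ, (2 : ℚ_[2]) ^ m * H1q m (0 + 2 ^ m * t) = X t := by
    intro t
    rw [H1_sum]
  have hH2 : ∀ t : ℕ, ((2 : ℚ_[2]) ^ m) ^ 2 * H2q m (0 + 2 ^ m * t) =
      4 * ((1 + 2 * (t : ℚ_[2])) ^ 2)⁻¹ + Z t := by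
    intro t
    rw [H2_sum, hZ, ← Finset.add_sum_erase _ _ hi0, hz0, mul_pow, inv_pow]
    simp only [hJ]
    norm_num
  have hg : ∀ t : ℕ, ((2 : ℚ_[2]) ^ m) ^ 2 * qq m (2 ^ m * t) =
      (-8) * (((P t * P t) * wq m (0 + 2 ^ m * t)) * ((1 + 2 * (t : ℚ_[2])) ^ 2)⁻¹) +
      ((P t * P t) * wq m (0 + 2 ^ m * t)) *
      (((8 * (X t * X t) - 2 * Z t) + (4 * 2 ^ m) * (X t * U1q m (0 + 2 ^ m * t))) +
          ((2 ^ m) ^ 2 * ((U1q m (0 + 2 ^ m * t) ^ 2 - U2q m (0 + 2 ^ m * t)) / 2))) := by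
    intro t
    have h0 := W8x.val m 0 t
    rw [hH1, hH2] at h0
    rw [zero_add] at h0 ⊢
    rw [h0]
    simp only [hP, zero_add]
    ring
  have hPw := (hPl.mul hPl (N := 1) (C := 1 / 4) (by norm_num) (by norm_num) (by norm_num)).mul
    (wl hm 0) (N := 1) (C := 1 / 4) (by norm_num) (by norm_num) (by norm_num)
  have hF1 := hPw.mul hil (N := 1) (C := 1 / 4) (by norm_num) (by norm_num) (by norm_num)
  have hb1 := (hXl.mul hXl (N := 1 / 4) (C := 1 / 4) (by norm_num) (by norm_num)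
    (by norm_num)).cmul 8 (N := 1 / 32) (C := 1 / 32) (by rw [n8]; norm_num)
    (by rw [n8]; norm_num)
  have hb2 := hZl.cmul 2 (N := 1 / 32) (C := 1 / 32) (by rw [n2]; norm_num)
    (by rw [n2]; norm_num)
  have hcM : ‖(4 : ℚ_[2]) * 2 ^ m‖ ≤ 1 / 8 := by
    rw [norm_mul, n4]
    have := nM hm
    linarith
  have hb3 := (hXl.mul (u1l hm 0) (N := 1 / 16) (C := 1 / 16) (by norm_num) (by norm_num)
    (by norm_num)).cmul (4 * 2 ^ m) (N := 1 / 32) (C := 1 / 32)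
    (by
      calc ‖(4 : ℚ_[2]) * 2 ^ m‖ * (1 / 16) ≤ 1 / 8 * (1 / 16) :=
            mul_le_mul_of_nonneg_right hcM (by norm_num)
        _ ≤ 1 / 32 := by norm_num)
    (by
      calc ‖(4 : ℚ_[2]) * 2 ^ m‖ * (1 / 16) ≤ 1 / 8 * (1 / 16) :=
            mul_le_mul_of_nonneg_right hcM (by norm_num)
        _ ≤ 1 / 32 := by norm_num)
  have hb := ((hb1.sub hb2).add hb3).add (el hm 0)
  have hF2 := hPw.mul hb (N := 1 / 32) (C := 1 / 32) (by norm_num) (by norm_num) (by norm_num)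
  have hF1' := hF1.cmul (-8) (N := 1 / 8) (C := 1 / 32) (by rw [norm_neg, n8]; norm_num)
    (by rw [norm_neg, n8]; norm_num)
  have hgl : LL (1 / 8) (1 / 32) (fun t => ((2 : ℚ_[2]) ^ m) ^ 2 * qq m (2 ^ m * t)) := by
    have h3 : (fun t => ((2 : ℚ_[2]) ^ m) ^ 2 * qq m (2 ^ m * t)) = _ := funext hg
    rw [h3]
    exact hF1'.add (hF2.mono (by norm_num) le_rfl)
  have hg0 : ‖((2 : ℚ_[2]) ^ m) ^ 2 * qq m (2 ^ m * 0)‖ = 1 / 8 := by
    rw [hg 0]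
    have h1 : ‖(-8 : ℚ_[2]) * (((P 0 * P 0) * wq m (0 + 2 ^ m * 0)) *
        ((1 + 2 * ((0 : ℕ) : ℚ_[2])) ^ 2)⁻¹)‖ = 1 / 8 := by
      rw [norm_mul, norm_mul, norm_mul, wn hm 0 0, norm_neg, n8]
      have h2 : P 0 = 1 := by
        simp [hP, Aq]
      rw [h2]
      simp
    have h2 := hF2.1 0
    have h3 : ‖(-8 : ℚ_[2]) * (((P 0 * P 0) * wq m (0 + 2 ^ m * 0)) *
        ((1 + 2 * ((0 : ℕ) : ℚ_[2])) ^ 2)⁻¹)‖ ≠
        ‖((P 0 * P 0) * wq m (0 + 2 ^ m * 0)) *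
      (((8 * (X 0 * X 0) - 2 * Z 0) + (4 * 2 ^ m) * (X 0 * U1q m (0 + 2 ^ m * 0))) +
          ((2 ^ m) ^ 2 * ((U1q m (0 + 2 ^ m * 0) ^ 2 - U2q m (0 + 2 ^ m * 0)) / 2)))‖ := by
      rw [h1]
      refine ne_of_gt (lt_of_le_of_lt h2 (by norm_num))
    rw [IsUltrametricDist.norm_add_eq_max_of_norm_ne_norm h3, h1, max_eq_left]
    exact h2.trans (by norm_num)
  have h3 := avl hV1 hgl n
  set φ : ℕ → ℚ_[2] := fun t => ((2 : ℚ_[2]) ^ m) ^ 2 * qq m (2 ^ m * t) with hφ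
  have h4 : ‖φ 0‖ = 1 / 8 := hg0
  have h5 : av 2 φ n = φ 0 + (av 2 φ n - φ 0) := by ring
  have h6 : ‖φ 0‖ ≠ ‖av 2 φ n - φ 0‖ := by
    rw [h4]
    exact ne_of_gt (lt_of_le_of_lt h3 (by norm_num))
  rw [h5, IsUltrametricDist.norm_add_eq_max_of_norm_ne_norm h6, h4, max_eq_left]
  exact h3.trans (by norm_num)

end Pool.Agent.Work.MP_03df5c_pb
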