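import Pool.Agent.Work.MP_03df5c_pb.W8x

/-!
# Block W8b: the other classes
-/

open Finset Filter Topology

namespace Pool.Agent.Work.MP_03df5c_pb

open Pool.Agent.Work.MP_03df5c_h91

open W8x in
theorem p_W8b (hV1 : S_V1) : S_W8b := by
  intro m n t0 hm ht ht'
  set I : Finset ℕ := Icc 1 (2 ^ m - 1) with hI
  have hi0 : 2 ^ m - t0 ∈ I := by
    rw [hI, mem_Icc]
    omega
  set J : Finset ℕ := I.erase (2 ^ m - t0) with hJ
  have hz0 : zz m t0 (2 ^ m - t0) = 1 := by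
    unfold zz
    have h1 : t0 + (2 ^ m - t0) = 2 ^ m := by omega
    rw [h1]
    push_cast
    exact div_self (pow_ne_zero _ two_ne_zero)
  have hzJ : ∀ i ∈ J, ‖zz m t0 i‖ ≤ 1 / 2 := by
    intro i hi
    rw [hJ, mem_erase, hI, mem_Icc] at hi
    apply zz_le (by omega)
    intro hd
    obtain ⟨k, hk⟩ := hd
    have h1 : k < 2 := by
      by_contra h2
      have h3 : 2 ^ m * 2 ≤ 2 ^ m * k := Nat.mul_le_mul_left _ (by omega)
      omega
    have h4 : k = 0 ∨ k = 1 := by omega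
    rcases h4 with h4 | h4
    · subst h4
      omega
    · subst h4
      omega
  set U : ℕ → ℚ_[2] := fun t => ∏ i ∈ J, (1 + zz m t0 i * (t : ℚ_[2])) with hU
  set h1 : ℕ → ℚ_[2] := fun t => ∑ i ∈ J, zz m t0 i * (1 + zz m t0 i * (t : ℚ_[2]))⁻¹ with hh1
  set h2 : ℕ → ℚ_[2] := fun t => ∑ i ∈ J, (zz m t0 i * (1 + zz m t0 i * (t : ℚ_[2]))⁻¹) ^ 2
    with hh2
  have hUl : LL 1 1 U := by
    refine LL.prod J (fun i (t : ℕ) => 1 + zz m t0 i * (t : ℚ_[2])) (by norm_num) ?_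
    intro i hi
    have hz := hzJ i hi
    refine ⟨fun t => ?_, fun t s => ?_⟩
    · refine MP_03df5c_h91.norm_add_le_of_le (by simp) ?_
      rw [norm_mul]
      exact mul_le_one₀ (hz.trans (by norm_num)) (norm_nonneg _) (nat_le t)
    · have h3 : 1 + zz m t0 i * ((t + s : ℕ) : ℚ_[2]) - (1 + zz m t0 i * (t : ℚ_[2])) =
          zz m t0 i * (s : ℚ_[2]) := by
        push_cast
        ring
      simp only
      rw [h3, norm_mul]
      exact mul_le_mul_of_nonneg_right (hz.trans (by norm_num)) (norm_nonneg _)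
  have hh1l : LL (1 / 2) (1 / 2) h1 :=
    LL.sum J (fun i (t : ℕ) => zz m t0 i * (1 + zz m t0 i * (t : ℚ_[2]))⁻¹)
      (by norm_num) (by norm_num) (fun i hi => zl (by norm_num) (hzJ i hi))
  have hh2l : LL (1 / 2) (1 / 2) h2 := by
    refine LL.sum J (fun i (t : ℕ) => (zz m t0 i * (1 + zz m t0 i * (t : ℚ_[2]))⁻¹) ^ 2)
      (by norm_num) (by norm_num) (fun i hi => ?_)
    have h3 := zl (c := 1 / 2) (by norm_num) (hzJ i hi)
    have h4 := h3.mul h3 (N := 1 / 2) (C := 1 / 2) (by norm_num) (by norm_num) (by norm_num)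
    have h5 : (fun t : ℕ => (zz m t0 i * (1 + zz m t0 i * (t : ℚ_[2]))⁻¹) ^ 2) = fun t : ℕ =>
        (zz m t0 i * (1 + zz m t0 i * (t : ℚ_[2]))⁻¹) *
          (zz m t0 i * (1 + zz m t0 i * (t : ℚ_[2]))⁻¹) := by
      funext t
      ring
    rw [h5]
    exact h4
  have hA : ∀ t : ℕ, Aq m (t0 + 2 ^ m * t) = Aq m t0 * ((1 + (t : ℚ_[2])) * U t) := by
    intro t
    rw [Aq_prod, hU, ← Finset.mul_prod_erase _ _ hi0, hz0, one_mul]
  have hH1 : ∀ t : ℕ, (2 : ℚ_[2]) ^ m * H1q m (t0 + 2 ^ m * t) =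
      (1 + (t : ℚ_[2]))⁻¹ + h1 t := by
    intro t
    rw [H1_sum, hh1, ← Finset.add_sum_erase _ _ hi0, hz0, one_mul, one_mul]
  have hH2 : ∀ t : ℕ, ((2 : ℚ_[2]) ^ m) ^ 2 * H2q m (t0 + 2 ^ m * t) =
      ((1 + (t : ℚ_[2]))⁻¹) ^ 2 + h2 t := by
    intro t
    rw [H2_sum, hh2, ← Finset.add_sum_erase _ _ hi0, hz0, one_mul, one_mul]
  have hc0 : ‖Aq m t0‖ ≤ 1 / 2 := by
    have h3 := V2.choose_le (p := 2) m t0 0 (by omega) ht'
    rw [mul_zero, add_zero] at h3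
    unfold Aq
    rw [one_div]
    exact_mod_cast h3
  set X : ℕ → ℚ_[2] := fun t => 1 + (1 + (t : ℚ_[2])) * h1 t with hX
  set Z : ℕ → ℚ_[2] := fun t => 1 + (1 + (t : ℚ_[2])) * (1 + (t : ℚ_[2])) * h2 t with hZ
  have hXl : LL 1 1 X := (LL.const 1 (by simp) (by norm_num)).add
    ((yl.mul hh1l (N := 1) (C := 1) (by norm_num) (by norm_num) (by norm_num)))
  have hyy : LL 1 1 (fun t : ℕ => (1 + (t : ℚ_[2])) * (1 + (t : ℚ_[2]))) :=
    yl.mul yl (by norm_num) (by norm_num) (by norm_num)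
  have hZl : LL 1 1 Z := (LL.const 1 (by simp) (by norm_num)).add
    ((hyy.mul hh2l (N := 1) (C := 1) (by norm_num) (by norm_num) (by norm_num)))
  have hg : ∀ t : ℕ, ((2 : ℚ_[2]) ^ m) ^ 2 * qq m (t0 + 2 ^ m * t) =
      (((Aq m t0 * U t) * (Aq m t0 * U t)) * ((Aq m t0 * U t) * (Aq m t0 * U t))) *
        wq m (t0 + 2 ^ m * t) *
      (((8 * (((1 + (t : ℚ_[2])) * (1 + (t : ℚ_[2]))) * (X t * X t)) -
        2 * (((1 + (t : ℚ_[2])) * (1 + (t : ℚ_[2]))) * Z t)) +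
        (4 * 2 ^ m) * ((((1 + (t : ℚ_[2])) * (1 + (t : ℚ_[2]))) * (1 + (t : ℚ_[2])) * X t) *
          U1q m (t0 + 2 ^ m * t))) +
        (((1 + (t : ℚ_[2])) * (1 + (t : ℚ_[2]))) * ((1 + (t : ℚ_[2])) * (1 + (t : ℚ_[2])))) *
          ((2 ^ m) ^ 2 * ((U1q m (t0 + 2 ^ m * t) ^ 2 - U2q m (t0 + 2 ^ m * t)) / 2))) := by
    intro t
    rw [W8x.val, hA, hH1, hH2]
    have hy : (1 + (t : ℚ_[2])) ≠ 0 := by
      have := cast_ne (a := 1 + t) (by omega)
      push_cast at this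
      exact this
    simp only [hX, hZ]
    generalize U1q m (t0 + 2 ^ m * t) = u1
    generalize U2q m (t0 + 2 ^ m * t) = u2
    generalize wq m (t0 + 2 ^ m * t) = w
    generalize h1 t = x1
    generalize h2 t = x2
    generalize U t = u
    generalize Aq m t0 = a
    generalize (2 : ℚ_[2]) ^ m = M
    generalize (1 + (t : ℚ_[2])) = y at hy ⊢
    field_simp
  have hAU : LL (1 / 2) (1 / 2) (fun t => Aq m t0 * U t) :=
    hUl.cmul (Aq m t0) (by simpa using hc0) (by simpa using hc0)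
  have hAU2 := hAU.mul hAU (N := 1 / 4) (C := 1 / 4) (by norm_num) (by norm_num) (by norm_num)
  have hAU4 := hAU2.mul hAU2 (N := 1 / 16) (C := 1 / 16) (by norm_num) (by norm_num) (by norm_num)
  have hAUw := hAU4.mul ((wl hm t0).mono le_rfl (by norm_num : (1 / 4 : ℝ) ≤ 1))
    (N := 1 / 16) (C := 1 / 16) (by norm_num) (by norm_num) (by norm_num)
  have hb1 := (hyy.mul (hXl.mul hXl (N := 1) (C := 1) (by norm_num) (by norm_num) (by norm_num))
    (N := 1) (C := 1) (by norm_num) (by norm_num) (by norm_num)).cmul 8 (N := 1 / 2) (C := 1 / 2)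
    (by rw [n8]; norm_num) (by rw [n8]; norm_num)
  have hb2 := (hyy.mul hZl (N := 1) (C := 1) (by norm_num) (by norm_num) (by norm_num)).cmul 2
    (N := 1 / 2) (C := 1 / 2) (by rw [n2]; norm_num) (by rw [n2]; norm_num)
  have hcM : ‖(4 : ℚ_[2]) * 2 ^ m‖ ≤ 1 := by
    rw [norm_mul, n4]
    exact mul_le_one₀ (by norm_num) (norm_nonneg _) ((nM hm).trans (by norm_num))
  have hb3 := (((hyy.mul yl (N := 1) (C := 1) (by norm_num) (by norm_num) (by norm_num)).mul hXl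
    (N := 1) (C := 1) (by norm_num) (by norm_num) (by norm_num)).mul (u1l hm t0)
    (N := 1 / 2) (C := 1 / 2) (by norm_num) (by norm_num) (by norm_num)).cmul (4 * 2 ^ m)
    (N := 1 / 2) (C := 1 / 2) (mul_le_of_le_one_left (by norm_num) hcM)
    (mul_le_of_le_one_left (by norm_num) hcM)
  have hb4 := (hyy.mul hyy (N := 1) (C := 1) (by norm_num) (by norm_num) (by norm_num)).mul
    (el hm t0) (N := 1 / 2) (C := 1 / 2) (by norm_num) (by norm_num) (by norm_num)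
  have hb := ((hb1.sub hb2).add hb3).add hb4
  have hall := hAUw.mul hb (N := 1 / 32) (C := 1 / 32) (by norm_num) (by norm_num) (by norm_num)
  have hgl : LL (1 / 32) (1 / 32) (fun t => ((2 : ℚ_[2]) ^ m) ^ 2 * qq m (t0 + 2 ^ m * t)) := by
    have h3 : (fun t => ((2 : ℚ_[2]) ^ m) ^ 2 * qq m (t0 + 2 ^ m * t)) = _ := funext hg
    rw [h3]
    exact hall
  have h3 := avl hV1 hgl n
  have h4 := hgl.1 0
  have h5 := MP_03df5c_h91.norm_add_le_of_le (C := 1 / 16) (h3.trans (by norm_num))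
    (h4.trans (by norm_num))
  simpa using h5

end Pool.Agent.Work.MP_03df5c_pb
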