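import Pool.Agent.Work.MP_03df5c_pb.Interface7

/-!
# A calculus of bounded Lipschitz functions `ℕ → ℚ_2`
-/

open Finset Filter Topology

namespace Pool.Agent.Work.MP_03df5c_pb

open Pool.Agent.Work.MP_03df5c_h91

namespace W8C

/-- Norm at most `B` and Lipschitz constant `C`. -/
def Nc (B C : ℝ) (f : ℕ → ℚ_[2]) : Prop :=
  (∀ t, ‖f t‖ ≤ B) ∧ ∀ t s : ℕ, ‖f (t + s) - f t‖ ≤ C * ‖(s : ℚ_[2])‖

lemma nadd {x y : ℚ_[2]} {r : ℝ} (hx : ‖x‖ ≤ r) (hy : ‖y‖ ≤ r) : ‖x + y‖ ≤ r :=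
  (IsUltrametricDist.norm_add_le_max x y).trans (max_le hx hy)

lemma nsum {ι : Type*} (u : Finset ι) (f : ι → ℚ_[2]) {r : ℝ} (hr : 0 ≤ r)
    (h : ∀ i ∈ u, ‖f i‖ ≤ r) : ‖∑ i ∈ u, f i‖ ≤ r := by
  classical
  induction u using Finset.induction_on with
  | empty => simpa using hr
  | insert a u ha ih =>
    rw [sum_insert ha]
    exact nadd (h a (mem_insert_self _ _)) (ih fun i hi => h i (mem_insert_of_mem hi))

lemma n2 : ‖(2 : ℚ_[2])‖ = 1 / 2 := by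
  have := Padic.norm_p (p := 2)
  simpa using this

lemma nnat (n : ℕ) : ‖(n : ℚ_[2])‖ ≤ 1 := by
  have := Padic.norm_int_le_one (p := 2) (n : ℤ)
  simpa using this

lemma Nc.mono {B C B' C' : ℝ} {f : ℕ → ℚ_[2]} (h : Nc B C f) (hB : B ≤ B') (hC : C ≤ C') :
    Nc B' C' f :=
  ⟨fun t => (h.1 t).trans hB, fun t s => (h.2 t s).trans
    (mul_le_mul_of_nonneg_right hC (norm_nonneg _))⟩

lemma Nc.add {B C : ℝ} {f g : ℕ → ℚ_[2]} (hf : Nc B C f) (hg : Nc B C g) :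
    Nc B C (fun t => f t + g t) := by
  refine ⟨fun t => nadd (hf.1 t) (hg.1 t), fun t s => ?_⟩
  have h : f (t + s) + g (t + s) - (f t + g t) = (f (t + s) - f t) + (g (t + s) - g t) := by ring
  simp only
  rw [h]
  exact nadd (hf.2 t s) (hg.2 t s)

lemma Nc.neg {B C : ℝ} {f : ℕ → ℚ_[2]} (hf : Nc B C f) : Nc B C (fun t => - f t) := by
  refine ⟨fun t => by rw [norm_neg]; exact hf.1 t, fun t s => ?_⟩
  have h : - f (t + s) - - f t = - (f (t + s) - f t) := by ring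
  simp only
  rw [h, norm_neg]
  exact hf.2 t s

lemma Nc.sub {B C : ℝ} {f g : ℕ → ℚ_[2]} (hf : Nc B C f) (hg : Nc B C g) :
    Nc B C (fun t => f t - g t) := by
  have := hf.add hg.neg
  simpa [sub_eq_add_neg] using this

lemma Nc.mul {B C B' C' D : ℝ} {f g : ℕ → ℚ_[2]} (hf : Nc B C f) (hg : Nc B' C' g)
    (hB : 0 ≤ B) (_hB' : 0 ≤ B') (h1 : B * C' ≤ D) (h2 : C * B' ≤ D) :
    Nc (B * B') D (fun t => f t * g t) := by
  refine ⟨fun t => ?_, fun t s => ?_⟩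
  · rw [norm_mul]
    exact mul_le_mul (hf.1 t) (hg.1 t) (norm_nonneg _) hB
  · have h : f (t + s) * g (t + s) - f t * g t =
        (f (t + s) - f t) * g (t + s) + f t * (g (t + s) - g t) := by ring
    simp only
    rw [h]
    have hs := norm_nonneg (s : ℚ_[2])
    refine nadd ?_ ?_
    · rw [norm_mul]
      calc ‖f (t + s) - f t‖ * ‖g (t + s)‖ ≤ (C * ‖(s : ℚ_[2])‖) * ‖g (t + s)‖ :=
            mul_le_mul_of_nonneg_right (hf.2 t s) (norm_nonneg _)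
        _ ≤ (C * ‖(s : ℚ_[2])‖) * B' :=
            mul_le_mul_of_nonneg_left (hg.1 _) ((norm_nonneg _).trans (hf.2 t s))
        _ = C * B' * ‖(s : ℚ_[2])‖ := by ring
        _ ≤ D * ‖(s : ℚ_[2])‖ := mul_le_mul_of_nonneg_right h2 hs
    · rw [norm_mul]
      calc ‖f t‖ * ‖g (t + s) - g t‖ ≤ B * ‖g (t + s) - g t‖ :=
            mul_le_mul_of_nonneg_right (hf.1 t) (norm_nonneg _)
        _ ≤ B * (C' * ‖(s : ℚ_[2])‖) := mul_le_mul_of_nonneg_left (hg.2 t s) hB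
        _ = B * C' * ‖(s : ℚ_[2])‖ := by ring
        _ ≤ D * ‖(s : ℚ_[2])‖ := mul_le_mul_of_nonneg_right h1 hs

lemma Nc.cmul {B C : ℝ} {f : ℕ → ℚ_[2]} (hf : Nc B C f) (c : ℚ_[2]) :
    Nc (‖c‖ * B) (‖c‖ * C) (fun t => c * f t) := by
  refine ⟨fun t => ?_, fun t s => ?_⟩
  · rw [norm_mul]
    exact mul_le_mul_of_nonneg_left (hf.1 t) (norm_nonneg _)
  · have h : c * f (t + s) - c * f t = c * (f (t + s) - f t) := by ring
    simp only
    rw [h, norm_mul, mul_assoc]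
    exact mul_le_mul_of_nonneg_left (hf.2 t s) (norm_nonneg _)

lemma Nc.sum {ι : Type*} (u : Finset ι) {B C : ℝ} (hB : 0 ≤ B) (hC : 0 ≤ C)
    (f : ι → ℕ → ℚ_[2]) (h : ∀ i ∈ u, Nc B C (f i)) : Nc B C (fun t => ∑ i ∈ u, f i t) := by
  refine ⟨fun t => nsum u _ hB fun i hi => (h i hi).1 t, fun t s => ?_⟩
  simp only
  rw [← sum_sub_distrib]
  exact nsum u _ (mul_nonneg hC (norm_nonneg _)) fun i hi => (h i hi).2 t s

lemma Nc.prod {ι : Type*} (u : Finset ι) {C : ℝ} (hC : 0 ≤ C)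
    (f : ι → ℕ → ℚ_[2]) (h : ∀ i ∈ u, Nc 1 C (f i)) : Nc 1 C (fun t => ∏ i ∈ u, f i t) := by
  classical
  induction u using Finset.induction_on with
  | empty =>
    refine ⟨fun t => by simp, fun t s => ?_⟩
    simp only [prod_empty, sub_self, norm_zero]
    positivity
  | insert a u ha ih =>
    have h1 := (h a (mem_insert_self _ _)).mul (D := C)
      (ih fun i hi => h i (mem_insert_of_mem hi)) zero_le_one zero_le_one (by simp) (by simp)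
    have h2 : (fun t => ∏ i ∈ insert a u, f i t) = fun t => f a t * ∏ i ∈ u, f i t := by
      funext t
      rw [prod_insert ha]
    rw [h2]
    simpa using h1

lemma Nc.pow {C : ℝ} (hC : 0 ≤ C) {f : ℕ → ℚ_[2]} (h : Nc 1 C f) (n : ℕ) :
    Nc 1 C (fun t => f t ^ n) := by
  have := Nc.prod (range n) hC (fun _ => f) (fun i _ => h)
  simpa using this

lemma Nc.inv {C : ℝ} {f : ℕ → ℚ_[2]} (h : Nc 1 C f) (h1 : ∀ t, ‖f t‖ = 1) :
    Nc 1 C (fun t => (f t)⁻¹) := by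
  refine ⟨fun t => by rw [norm_inv, h1]; simp, fun t s => ?_⟩
  have h0 : ∀ t, f t ≠ 0 := fun t h => by have := h1 t; rw [h, norm_zero] at this; norm_num at this
  have h2 : (f (t + s))⁻¹ - (f t)⁻¹ = - (f (t + s) - f t) * ((f (t + s))⁻¹ * (f t)⁻¹) := by
    have := h0 t
    have := h0 (t + s)
    field_simp
    ring
  simp only
  rw [h2, norm_mul, norm_mul, norm_inv, norm_inv, h1, h1, norm_neg]
  simpa using h.2 t s

lemma Nc.comp {B C : ℝ} {f : ℕ → ℚ_[2]} (h : Nc B C f) (a M : ℕ) :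
    Nc B (C * ‖(M : ℚ_[2])‖) (fun t => f (a + M * t)) := by
  refine ⟨fun t => h.1 _, fun t s => ?_⟩
  have h1 := h.2 (a + M * t) (M * s)
  have h2 : a + M * (t + s) = a + M * t + M * s := by ring
  simp only
  rw [h2, mul_assoc, ← norm_mul]
  simpa using h1

lemma Nc.const (c : ℚ_[2]) : Nc ‖c‖ 0 (fun _ => c) :=
  ⟨fun _ => le_rfl, fun t s => by simp⟩

/-- `c + d t`. -/
lemma Nc.lin (c d : ℚ_[2]) {B C : ℝ} (hc : ‖c‖ ≤ B) (hd : ‖d‖ ≤ B) (hC : ‖d‖ ≤ C) :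
    Nc B C (fun t => c + d * (t : ℚ_[2])) := by
  refine ⟨fun t => nadd hc ?_, fun t s => ?_⟩
  · rw [norm_mul]
    exact (mul_le_of_le_one_right (norm_nonneg _) (nnat t)).trans hd
  · have h : c + d * ((t + s : ℕ) : ℚ_[2]) - (c + d * (t : ℚ_[2])) = d * (s : ℚ_[2]) := by
      push_cast
      ring
    simp only
    rw [h, norm_mul]
    exact mul_le_mul_of_nonneg_right hC (norm_nonneg _)

lemma unit_of {x : ℚ_[2]} (h : ‖x‖ < 1) : ‖1 + x‖ = 1 := by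
  have h1 : ‖(1 : ℚ_[2])‖ = 1 := norm_one
  rw [IsUltrametricDist.norm_add_eq_max_of_norm_ne_norm (by rw [h1]; exact h.ne'), h1,
    max_eq_left h.le]

/-- The averages. -/
lemma Nc.avle (hV1 : S_V1) {B C D : ℝ} {f : ℕ → ℚ_[2]} (h : Nc B C f) (hC : 0 ≤ C) (hB : B ≤ D)
    (hD : 2 * C ≤ D) (n : ℕ) : ‖av 2 f n‖ ≤ D := by
  have h1 := hV1 2 f C hC (fun t n => by
    have h2 := h.2 t (2 ^ n)
    have h3 : ‖((2 ^ n : ℕ) : ℚ_[2])‖ = (((2 : ℕ) : ℝ) ^ n)⁻¹ := by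
      rw [Nat.cast_pow, norm_pow]
      rw [Padic.norm_p (p := 2), inv_pow]
    rw [h3] at h2
    exact h2) n
  have h2 : av 2 f n = (av 2 f n - f 0) + f 0 := by ring
  rw [h2]
  refine nadd (h1.trans ?_) ((h.1 0).trans hB)
  exact_mod_cast hD

lemma av_sub (hV1 : S_V1) {B C : ℝ} {f : ℕ → ℚ_[2]} (h : Nc B C f) (hC : 0 ≤ C) (n : ℕ) :
    ‖av 2 f n - f 0‖ ≤ 2 * C := by
  have h1 := hV1 2 f C hC (fun t n => by
    have h2 := h.2 t (2 ^ n)
    have h3 : ‖((2 ^ n : ℕ) : ℚ_[2])‖ = (((2 : ℕ) : ℝ) ^ n)⁻¹ := by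
      rw [Nat.cast_pow, norm_pow]
      rw [Padic.norm_p (p := 2), inv_pow]
    rw [h3] at h2
    exact h2) n
  exact_mod_cast h1

end W8C

end Pool.Agent.Work.MP_03df5c_pb
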