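import Pool.Agent.Work.MP_03df5c_pb.B_W8calc
import Pool.Agent.Work.MP_03df5c_pb.B_V2

/-!
# The binomial coefficient and the sums `H1q`, `H2q` along `t0 + 2 ^ m t`
-/

open Finset Filter Topology

namespace Pool.Agent.Work.MP_03df5c_pb

open Pool.Agent.Work.MP_03df5c_h91

namespace W8C

lemma Nc.one : Nc 1 0 (fun _ => (1 : ℚ_[2])) := by
  have := Nc.const (1 : ℚ_[2])
  simpa using this

lemma nM {m ρ : ℕ} (h1 : 1 ≤ ρ) (h2 : ρ < 2 ^ m) :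
    ‖((2 : ℚ_[2]) ^ m) / (ρ : ℚ_[2])‖ ≤ 1 / 2 := by
  have h3 := V2.nrm_ge (p := 2) m ρ (fun hd => by
    have := Nat.le_of_dvd (by omega) hd
    omega)
  have h4 : (0 : ℝ) < ‖(ρ : ℚ_[2])‖ := by
    rw [norm_pos_iff]
    exact_mod_cast (by omega : ρ ≠ 0)
  rw [norm_div, div_le_iff₀ h4]
  push_cast at h3
  norm_num at h3 ⊢
  exact h3

lemma nMpow {m : ℕ} (hm : 1 ≤ m) : ‖((2 : ℚ_[2]) ^ m)‖ ≤ 1 / 2 := by
  have := nM (m := m) (ρ := 1) le_rfl (Nat.one_lt_two_pow (by omega))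
  simpa using this

/-- the factor `1 + c (t + e)` -/
lemma Nc.fac {c e : ℚ_[2]} {C : ℝ} (hc : ‖c‖ ≤ C) (hC : C ≤ 1) (he : ‖e‖ ≤ 1) :
    Nc 1 C (fun t => 1 + c * ((t : ℚ_[2]) + e)) := by
  have h := Nc.lin (1 + c * e) c (B := 1) (C := C)
    (nadd (by simp) (by rw [norm_mul]; exact mul_le_one₀ (hc.trans hC) (norm_nonneg _) he))
    (hc.trans hC) hc
  have h2 : (fun t : ℕ => 1 + c * ((t : ℚ_[2]) + e)) = fun t : ℕ => 1 + c * e + c * (t : ℚ_[2]) := by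
    funext t
    ring
  rw [h2]
  exact h

lemma fac_unit {c e : ℚ_[2]} (hc : ‖c‖ ≤ 1 / 2) (he : ‖e‖ ≤ 1) (t : ℕ) :
    ‖1 + c * ((t : ℚ_[2]) + e)‖ = 1 := by
  apply unit_of
  rw [norm_mul]
  calc ‖c‖ * ‖(t : ℚ_[2]) + e‖ ≤ 1 / 2 * 1 :=
        mul_le_mul hc (nadd (nnat t) he) (norm_nonneg _) (by norm_num)
    _ < 1 := by norm_num

lemma n_four : ‖(4 : ℚ_[2])‖ = 1 / 4 := by
  rw [show (4 : ℚ_[2]) = 2 ^ 2 by norm_num, norm_pow, n2]; norm_num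

lemma n_eight : ‖(8 : ℚ_[2])‖ = 1 / 8 := by
  rw [show (8 : ℚ_[2]) = 2 ^ 3 by norm_num, norm_pow, n2]; norm_num

lemma n_16 : ‖(16 : ℚ_[2])‖ = 1 / 16 := by
  rw [show (16 : ℚ_[2]) = 2 ^ 4 by norm_num, norm_pow, n2]; norm_num

lemma n_32 : ‖(32 : ℚ_[2])‖ = 1 / 32 := by
  rw [show (32 : ℚ_[2]) = 2 ^ 5 by norm_num, norm_pow, n2]; norm_num

lemma n_128 : ‖(128 : ℚ_[2])‖ = 1 / 128 := by
  rw [show (128 : ℚ_[2]) = 2 ^ 7 by norm_num, norm_pow, n2]; norm_num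

lemma facA (i : ℕ) : Nc 1 (1 / 2) (fun t => 1 - 2 * ((t : ℚ_[2]) + (i : ℚ_[2]))) := by
  have := Nc.fac (c := -2) (e := (i : ℚ_[2])) (C := 1 / 2) (by rw [norm_neg, n2]) (by norm_num)
    (nnat i)
  simpa [sub_eq_add_neg] using this

lemma facA_unit (i t : ℕ) : ‖1 - 2 * ((t : ℚ_[2]) + (i : ℚ_[2]))‖ = 1 := by
  have := fac_unit (c := -2) (e := (i : ℚ_[2])) (by rw [norm_neg, n2]) (nnat i) t
  simpa [sub_eq_add_neg] using this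

lemma facB (i : ℕ) : Nc 1 (1 / 4) (fun t => 1 + 4 * ((t : ℚ_[2]) + (i : ℚ_[2]))) :=
  Nc.fac (c := 4) (e := (i : ℚ_[2])) (C := 1 / 4) (by rw [n_four]) (by norm_num) (nnat i)

lemma facB_unit (i t : ℕ) : ‖1 + 4 * ((t : ℚ_[2]) + (i : ℚ_[2]))‖ = 1 :=
  fac_unit (c := 4) (e := (i : ℚ_[2])) (by rw [n_four]; norm_num) (nnat i) t

lemma nc_U1 (m : ℕ) : Nc (1 / 8) (1 / 16) (U1q m) := by
  have h1 := (Nc.sum (Icc 1 (2 ^ m - 1) : Finset ℕ) (B := 1) (C := 1 / 2) (by norm_num) (by norm_num)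
    (fun (i t : ℕ) => (1 - 2 * ((t : ℚ_[2]) + (i : ℚ_[2])))⁻¹)
    (fun i _ => (facA i).inv (facA_unit i))).cmul (-8)
  have h2 := (Nc.sum (range (2 ^ m)) (B := 1) (C := 1 / 4) (by norm_num) (by norm_num)
    (fun (i t : ℕ) => (1 + 4 * ((t : ℚ_[2]) + (i : ℚ_[2])))⁻¹)
    (fun i _ => (facB i).inv (facB_unit i))).cmul 32
  rw [norm_neg, n_eight] at h1
  rw [n_32] at h2
  have h3 := (h1.mono (B' := 1 / 8) (C' := 1 / 16) (by norm_num) (by norm_num)).sub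
    (h2.mono (B' := 1 / 8) (C' := 1 / 16) (by norm_num) (by norm_num))
  exact h3

lemma nc_U2 (m : ℕ) : Nc (1 / 16) (1 / 32) (U2q m) := by
  have h1 := (Nc.sum (Icc 1 (2 ^ m - 1) : Finset ℕ) (B := 1) (C := 1 / 2) (by norm_num) (by norm_num)
    (fun (i t : ℕ) => ((1 - 2 * ((t : ℚ_[2]) + (i : ℚ_[2]))) ^ 2)⁻¹)
    (fun i _ => ((facA i).pow (by norm_num) 2).inv (fun t => by
      rw [norm_pow, facA_unit i t, one_pow]))).cmul 16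
  have h2 := (Nc.sum (range (2 ^ m)) (B := 1) (C := 1 / 4) (by norm_num) (by norm_num)
    (fun (i t : ℕ) => ((1 + 4 * ((t : ℚ_[2]) + (i : ℚ_[2]))) ^ 2)⁻¹)
    (fun i _ => ((facB i).pow (by norm_num) 2).inv (fun t => by
      rw [norm_pow, facB_unit i t, one_pow]))).cmul 128
  rw [n_16] at h1
  rw [n_128] at h2
  have h3 := (h1.mono (B' := 1 / 16) (C' := 1 / 32) (by norm_num) (by norm_num)).sub
    (h2.mono (B' := 1 / 16) (C' := 1 / 32) (by norm_num) (by norm_num))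
  exact h3

/-- the term `E`. -/
lemma nc_E (m : ℕ) : Nc (1 / 8) (1 / 16) (fun t => (U1q m t ^ 2 - U2q m t) / 2) := by
  have h1 : Nc (1 / 8 * (1 / 8)) (1 / 128) (fun t => U1q m t * U1q m t) :=
    (nc_U1 m).mul (nc_U1 m) (by norm_num) (by norm_num) (by norm_num) (by norm_num)
  have h2 := ((h1.mono (B' := 1 / 16) (C' := 1 / 32) (by norm_num) (by norm_num)).sub
    (nc_U2 m)).cmul (2⁻¹)
  rw [norm_inv, n2] at h2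
  have h3 : (fun t => (U1q m t ^ 2 - U2q m t) / 2) =
      fun t => 2⁻¹ * (U1q m t * U1q m t - U2q m t) := by
    funext t
    ring
  rw [h3]
  exact h2.mono (by norm_num) (by norm_num)

lemma w_unit (m t : ℕ) : ‖wq m t‖ = 1 := by
  unfold wq
  rw [norm_div, norm_pow, norm_pow, norm_prod, norm_prod]
  rw [Finset.prod_eq_one fun i _ => facA_unit i t, Finset.prod_eq_one fun i _ => facB_unit i t]
  norm_num

lemma nc_w (m : ℕ) : Nc 1 (1 / 2) (wq m) := by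
  have h1 := (Nc.prod (Icc 1 (2 ^ m - 1) : Finset ℕ) (C := 1 / 2) (by norm_num)
    (fun (i t : ℕ) => (1 - 2 * ((t : ℚ_[2]) + (i : ℚ_[2])))) (fun i _ => facA i)).pow (by norm_num) 4
  have h2 := ((Nc.prod (range (2 ^ m)) (C := 1 / 4) (by norm_num)
    (fun (i t : ℕ) => (1 + 4 * ((t : ℚ_[2]) + (i : ℚ_[2])))) (fun i _ => facB i)).pow
      (by norm_num) 8).inv (fun t => by
        rw [norm_pow, norm_prod, Finset.prod_eq_one fun i _ => facB_unit i t, one_pow])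
  have h3 := h1.mul (D := 1 / 2) (h2.mono (B' := 1) (C' := 1 / 2) le_rfl (by norm_num))
    (by norm_num) (by norm_num) (by norm_num) (by norm_num)
  have h4 : wq m = fun t : ℕ => (∏ i ∈ (Icc 1 (2 ^ m - 1) : Finset ℕ),
      (1 - 2 * ((t : ℚ_[2]) + (i : ℚ_[2])))) ^ 4 *
      ((∏ j ∈ range (2 ^ m), (1 + 4 * ((t : ℚ_[2]) + (j : ℚ_[2])))) ^ 8)⁻¹ := by
    funext t
    unfold wq
    rw [div_eq_mul_inv]
  rw [h4]
  simpa using h3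

lemma split_sum (f : ℕ → ℚ_[2]) (M t0 t : ℕ) (h0 : 1 ≤ t0) (h1 : t0 < M) :
    ∑ i ∈ (Icc 1 (M - 1) : Finset ℕ), f (t0 + M * t + i) =
      f (M * (t + 1)) + ∑ ρ ∈ Ico (t0 + 1) M, f (ρ + M * t) +
        ∑ ρ ∈ Ico 1 t0, f (ρ + M * (t + 1)) := by
  have e1 : (Icc 1 (M - 1) : Finset ℕ) = Ico 1 M := by
    ext x
    simp only [mem_Icc, mem_Ico]
    omega
  have e2 : ∑ i ∈ Ico 1 M, f (t0 + M * t + i) =
      ∑ k ∈ Ico (1 + t0) (M + t0), f (M * t + k) := by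
    rw [← Finset.sum_Ico_add' (fun k => f (M * t + k)) 1 M t0]
    apply Finset.sum_congr rfl
    intro i _
    congr 1
    ring
  have e3 : ∑ k ∈ Ico (M + 1) (M + t0), f (M * t + k) = ∑ ρ ∈ Ico 1 t0, f (ρ + M * (t + 1)) := by
    rw [add_comm M 1, add_comm M t0, ← Finset.sum_Ico_add' (fun k => f (M * t + k)) 1 t0 M]
    apply Finset.sum_congr rfl
    intro i _
    congr 1
    ring
  rw [e1, e2, ← Finset.sum_Ico_consecutive _ (show 1 + t0 ≤ M by omega) (show M ≤ M + t0 by omega),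
    Finset.sum_eq_sum_Ico_succ_bot (show M < M + t0 by omega), e3, add_comm 1 t0]
  have e4 : M * t + M = M * (t + 1) := by ring
  have e5 : ∑ k ∈ Ico (t0 + 1) M, f (M * t + k) = ∑ ρ ∈ Ico (t0 + 1) M, f (ρ + M * t) :=
    Finset.sum_congr rfl fun i _ => by rw [add_comm]
  rw [e4, e5]
  ring

lemma split_prod (f : ℕ → ℚ_[2]) (M t0 t : ℕ) (h0 : 1 ≤ t0) (h1 : t0 < M) :
    ∏ i ∈ (Icc 1 (M - 1) : Finset ℕ), f (t0 + M * t + i) =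
      f (M * (t + 1)) * (∏ ρ ∈ Ico (t0 + 1) M, f (ρ + M * t)) *
        ∏ ρ ∈ Ico 1 t0, f (ρ + M * (t + 1)) := by
  have e1 : (Icc 1 (M - 1) : Finset ℕ) = Ico 1 M := by
    ext x
    simp only [mem_Icc, mem_Ico]
    omega
  have e2 : ∏ i ∈ Ico 1 M, f (t0 + M * t + i) =
      ∏ k ∈ Ico (1 + t0) (M + t0), f (M * t + k) := by
    rw [← Finset.prod_Ico_add' (fun k => f (M * t + k)) 1 M t0]
    apply Finset.prod_congr rfl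
    intro i _
    congr 1
    ring
  have e3 : ∏ k ∈ Ico (M + 1) (M + t0), f (M * t + k) = ∏ ρ ∈ Ico 1 t0, f (ρ + M * (t + 1)) := by
    rw [add_comm M 1, add_comm M t0, ← Finset.prod_Ico_add' (fun k => f (M * t + k)) 1 t0 M]
    apply Finset.prod_congr rfl
    intro i _
    congr 1
    ring
  rw [e1, e2, ← Finset.prod_Ico_consecutive _ (show 1 + t0 ≤ M by omega) (show M ≤ M + t0 by omega),
    Finset.prod_eq_prod_Ico_succ_bot (show M < M + t0 by omega), e3, add_comm 1 t0]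
  have e4 : M * t + M = M * (t + 1) := by ring
  have e5 : ∏ k ∈ Ico (t0 + 1) M, f (M * t + k) = ∏ ρ ∈ Ico (t0 + 1) M, f (ρ + M * t) :=
    Finset.prod_congr rfl fun i _ => by rw [add_comm]
  rw [e4, e5]
  rw [← mul_assoc, mul_comm (∏ ρ ∈ Ico (t0 + 1) M, f (ρ + M * t)) (f (M * (t + 1)))]

/-- The unit part of the binomial coefficient. -/
noncomputable def UU (m t0 t : ℕ) : ℚ_[2] :=
  (∏ ρ ∈ Ico (t0 + 1) (2 ^ m), (1 + (2 : ℚ_[2]) ^ m / (ρ : ℚ_[2]) * ((t : ℚ_[2]) + 0))) *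
    ∏ ρ ∈ Ico 1 t0, (1 + (2 : ℚ_[2]) ^ m / (ρ : ℚ_[2]) * ((t : ℚ_[2]) + 1))

/-- The rest of `M H1`. -/
noncomputable def hh (m t0 t : ℕ) : ℚ_[2] :=
  (∑ ρ ∈ Ico (t0 + 1) (2 ^ m), (2 : ℚ_[2]) ^ m / (ρ : ℚ_[2]) *
      (1 + (2 : ℚ_[2]) ^ m / (ρ : ℚ_[2]) * ((t : ℚ_[2]) + 0))⁻¹) +
    ∑ ρ ∈ Ico 1 t0, (2 : ℚ_[2]) ^ m / (ρ : ℚ_[2]) *
      (1 + (2 : ℚ_[2]) ^ m / (ρ : ℚ_[2]) * ((t : ℚ_[2]) + 1))⁻¹

/-- The rest of `M ^ 2 H2`. -/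
noncomputable def kk (m t0 t : ℕ) : ℚ_[2] :=
  (∑ ρ ∈ Ico (t0 + 1) (2 ^ m), ((2 : ℚ_[2]) ^ m / (ρ : ℚ_[2]) *
      (1 + (2 : ℚ_[2]) ^ m / (ρ : ℚ_[2]) * ((t : ℚ_[2]) + 0))⁻¹) ^ 2) +
    ∑ ρ ∈ Ico 1 t0, ((2 : ℚ_[2]) ^ m / (ρ : ℚ_[2]) *
      (1 + (2 : ℚ_[2]) ^ m / (ρ : ℚ_[2]) * ((t : ℚ_[2]) + 1))⁻¹) ^ 2

lemma nc_UU (m t0 : ℕ) (h1 : t0 < 2 ^ m) : Nc 1 (1 / 2) (UU m t0) := by
  have h2 := (Nc.prod (Ico (t0 + 1) (2 ^ m)) (C := 1 / 2) (by norm_num)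
    (fun (ρ t : ℕ) => (1 + (2 : ℚ_[2]) ^ m / (ρ : ℚ_[2]) * ((t : ℚ_[2]) + 0)))
    (fun ρ hρ => by
      rw [mem_Ico] at hρ
      exact Nc.fac (nM (by omega) hρ.2) (by norm_num) (by simp)))
  have h3 := (Nc.prod (Ico 1 t0) (C := 1 / 2) (by norm_num)
    (fun (ρ t : ℕ) => (1 + (2 : ℚ_[2]) ^ m / (ρ : ℚ_[2]) * ((t : ℚ_[2]) + 1)))
    (fun ρ hρ => by
      rw [mem_Ico] at hρ
      exact Nc.fac (nM hρ.1 (by omega)) (by norm_num) (by simp)))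
  have h4 := h2.mul h3 (D := 1 / 2) (by norm_num) (by norm_num) (by norm_num) (by norm_num)
  rw [one_mul] at h4
  exact h4

lemma nc_term {m ρ : ℕ} (h1 : 1 ≤ ρ) (h2 : ρ < 2 ^ m) {e : ℚ_[2]} (he : ‖e‖ ≤ 1) :
    Nc (1 / 2) (1 / 4) (fun t => (2 : ℚ_[2]) ^ m / (ρ : ℚ_[2]) *
      (1 + (2 : ℚ_[2]) ^ m / (ρ : ℚ_[2]) * ((t : ℚ_[2]) + e))⁻¹) := by
  have h3 := nM h1 h2
  have h4 := ((Nc.fac (c := (2 : ℚ_[2]) ^ m / (ρ : ℚ_[2])) h3 (by norm_num) he).inv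
    (fun t => fac_unit h3 he t)).cmul ((2 : ℚ_[2]) ^ m / (ρ : ℚ_[2]))
  exact h4.mono (by linarith) (by linarith)

lemma nc_hh (m t0 : ℕ) (h1 : t0 < 2 ^ m) : Nc (1 / 2) (1 / 4) (hh m t0) := by
  have h2 := (Nc.sum (Ico (t0 + 1) (2 ^ m)) (B := 1 / 2) (C := 1 / 4) (by norm_num) (by norm_num)
    (fun (ρ t : ℕ) => (2 : ℚ_[2]) ^ m / (ρ : ℚ_[2]) *
      (1 + (2 : ℚ_[2]) ^ m / (ρ : ℚ_[2]) * ((t : ℚ_[2]) + 0))⁻¹)
    (fun ρ hρ => by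
      rw [mem_Ico] at hρ
      exact nc_term (by omega) hρ.2 (by simp)))
  have h3 := (Nc.sum (Ico 1 t0) (B := 1 / 2) (C := 1 / 4) (by norm_num) (by norm_num)
    (fun (ρ t : ℕ) => (2 : ℚ_[2]) ^ m / (ρ : ℚ_[2]) *
      (1 + (2 : ℚ_[2]) ^ m / (ρ : ℚ_[2]) * ((t : ℚ_[2]) + 1))⁻¹)
    (fun ρ hρ => by
      rw [mem_Ico] at hρ
      exact nc_term hρ.1 (by omega) (by simp)))
  exact h2.add h3

lemma nc_sq {f : ℕ → ℚ_[2]} (h : Nc (1 / 2) (1 / 4) f) : Nc (1 / 4) (1 / 8) (fun t => f t ^ 2) := by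
  have h1 := h.mul h (D := 1 / 8) (by norm_num) (by norm_num) (by norm_num) (by norm_num)
  have h2 : (fun t => f t ^ 2) = fun t => f t * f t := by
    funext t
    ring
  rw [h2]
  exact h1.mono (by norm_num) le_rfl

lemma nc_kk (m t0 : ℕ) (h1 : t0 < 2 ^ m) : Nc (1 / 4) (1 / 8) (kk m t0) := by
  have h2 := (Nc.sum (Ico (t0 + 1) (2 ^ m)) (B := 1 / 4) (C := 1 / 8) (by norm_num) (by norm_num)
    (fun (ρ t : ℕ) => ((2 : ℚ_[2]) ^ m / (ρ : ℚ_[2]) *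
      (1 + (2 : ℚ_[2]) ^ m / (ρ : ℚ_[2]) * ((t : ℚ_[2]) + 0))⁻¹) ^ 2)
    (fun ρ hρ => by
      rw [mem_Ico] at hρ
      exact nc_sq (nc_term (by omega) hρ.2 (by simp))))
  have h3 := (Nc.sum (Ico 1 t0) (B := 1 / 4) (C := 1 / 8) (by norm_num) (by norm_num)
    (fun (ρ t : ℕ) => ((2 : ℚ_[2]) ^ m / (ρ : ℚ_[2]) *
      (1 + (2 : ℚ_[2]) ^ m / (ρ : ℚ_[2]) * ((t : ℚ_[2]) + 1))⁻¹) ^ 2)
    (fun ρ hρ => by
      rw [mem_Ico] at hρ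
      exact nc_sq (nc_term hρ.1 (by omega) (by simp))))
  exact h2.add h3

lemma inv_term {m ρ : ℕ} (h1 : 1 ≤ ρ) (t : ℕ) :
    (2 : ℚ_[2]) ^ m * (((ρ + 2 ^ m * t : ℕ) : ℚ_[2]))⁻¹ = (2 : ℚ_[2]) ^ m / (ρ : ℚ_[2]) *
      (1 + (2 : ℚ_[2]) ^ m / (ρ : ℚ_[2]) * (t : ℚ_[2]))⁻¹ := by
  have h2 : (ρ : ℚ_[2]) ≠ 0 := by exact_mod_cast (by omega : ρ ≠ 0)
  have h3 : (((ρ + 2 ^ m * t : ℕ) : ℚ_[2])) ≠ 0 := by
    exact_mod_cast (by positivity : ρ + 2 ^ m * t ≠ 0)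
  have h4 : (1 + (2 : ℚ_[2]) ^ m / (ρ : ℚ_[2]) * (t : ℚ_[2])) =
      (((ρ + 2 ^ m * t : ℕ) : ℚ_[2])) / (ρ : ℚ_[2]) := by
    push_cast
    field_simp
  rw [h4]
  field_simp

lemma H1_split (m t0 t : ℕ) (h0 : 1 ≤ t0) (h1 : t0 < 2 ^ m) :
    (2 : ℚ_[2]) ^ m * H1q m (t0 + 2 ^ m * t) = ((t : ℚ_[2]) + 1)⁻¹ + hh m t0 t := by
  have h2 := split_sum (fun n => ((n : ℕ) : ℚ_[2])⁻¹) (2 ^ m) t0 t h0 h1
  have h3 : H1q m (t0 + 2 ^ m * t) =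
      ∑ i ∈ (Icc 1 (2 ^ m - 1) : Finset ℕ), ((t0 + 2 ^ m * t + i : ℕ) : ℚ_[2])⁻¹ := by
    unfold H1q
    apply Finset.sum_congr rfl
    intro i _
    push_cast
    ring
  rw [h3, h2, mul_add, mul_add, hh, Finset.mul_sum, Finset.mul_sum]
  have h4 : (2 : ℚ_[2]) ^ m * (((2 ^ m * (t + 1) : ℕ)) : ℚ_[2])⁻¹ = ((t : ℚ_[2]) + 1)⁻¹ := by
    push_cast
    field_simp
  rw [h4, add_assoc]
  congr 2
  · apply Finset.sum_congr rfl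
    intro ρ hρ
    rw [mem_Ico] at hρ
    rw [inv_term (by omega), add_zero]
  · apply Finset.sum_congr rfl
    intro ρ hρ
    rw [mem_Ico] at hρ
    rw [inv_term (by omega)]
    push_cast
    rfl

lemma H2_split (m t0 t : ℕ) (h0 : 1 ≤ t0) (h1 : t0 < 2 ^ m) :
    ((2 : ℚ_[2]) ^ m) ^ 2 * H2q m (t0 + 2 ^ m * t) = (((t : ℚ_[2]) + 1)⁻¹) ^ 2 + kk m t0 t := by
  have h2 := split_sum (fun n => (((n : ℕ) : ℚ_[2])⁻¹) ^ 2) (2 ^ m) t0 t h0 h1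
  have h3 : H2q m (t0 + 2 ^ m * t) =
      ∑ i ∈ (Icc 1 (2 ^ m - 1) : Finset ℕ), (((t0 + 2 ^ m * t + i : ℕ) : ℚ_[2])⁻¹) ^ 2 := by
    unfold H2q
    apply Finset.sum_congr rfl
    intro i _
    push_cast
    rw [inv_pow]
  rw [h3, h2, mul_add, mul_add, kk, Finset.mul_sum, Finset.mul_sum]
  have h4 : ((2 : ℚ_[2]) ^ m) ^ 2 * ((((2 ^ m * (t + 1) : ℕ)) : ℚ_[2])⁻¹) ^ 2 =
      (((t : ℚ_[2]) + 1)⁻¹) ^ 2 := by
    push_cast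
    field_simp
  rw [h4, add_assoc]
  congr 2
  · apply Finset.sum_congr rfl
    intro ρ hρ
    rw [mem_Ico] at hρ
    rw [← mul_pow, inv_term (by omega), add_zero]
  · apply Finset.sum_congr rfl
    intro ρ hρ
    rw [mem_Ico] at hρ
    rw [← mul_pow, inv_term (by omega)]
    push_cast
    rfl

lemma A_prod (m t : ℕ) : Aq m t =
    (∏ i ∈ (Icc 1 (2 ^ m - 1) : Finset ℕ), ((t + i : ℕ) : ℚ_[2])) /
      ∏ i ∈ (Icc 1 (2 ^ m - 1) : Finset ℕ), ((i : ℕ) : ℚ_[2]) := by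
  unfold Aq
  rw [V2.choose_prod, Finset.prod_div_distrib]
  have e1 : (Icc 1 (2 ^ m - 1) : Finset ℕ) = Ico 1 (2 ^ m) := by
    ext x
    have : 1 ≤ 2 ^ m := Nat.one_le_two_pow
    simp only [mem_Icc, mem_Ico]
    omega
  rw [e1, Finset.prod_Ico_eq_prod_range, Finset.prod_Ico_eq_prod_range]
  congr 1
  · apply Finset.prod_congr rfl
    intro i _
    push_cast
    ring
  · apply Finset.prod_congr rfl
    intro i _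
    push_cast
    ring

lemma A_split (m t0 t : ℕ) (h0 : 1 ≤ t0) (h1 : t0 < 2 ^ m) :
    Aq m (t0 + 2 ^ m * t) = (2 : ℚ_[2]) ^ m / (t0 : ℚ_[2]) * (((t : ℚ_[2]) + 1) * UU m t0 t) := by
  rw [A_prod, split_prod (fun n => ((n : ℕ) : ℚ_[2])) (2 ^ m) t0 t h0 h1]
  have e1 : (Icc 1 (2 ^ m - 1) : Finset ℕ) = Ico 1 (2 ^ m) := by
    ext x
    simp only [mem_Icc, mem_Ico]
    omega
  have e2 : ∏ i ∈ (Icc 1 (2 ^ m - 1) : Finset ℕ), ((i : ℕ) : ℚ_[2]) =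
      (∏ i ∈ Ico 1 t0, ((i : ℕ) : ℚ_[2])) * ((t0 : ℚ_[2]) *
        ∏ i ∈ Ico (t0 + 1) (2 ^ m), ((i : ℕ) : ℚ_[2])) := by
    rw [e1, ← Finset.prod_Ico_consecutive _ h0 h1.le,
      Finset.prod_eq_prod_Ico_succ_bot h1]
  have h3 : ∀ ρ t : ℕ, 1 ≤ ρ → ((ρ + 2 ^ m * t : ℕ) : ℚ_[2]) =
      (ρ : ℚ_[2]) * (1 + (2 : ℚ_[2]) ^ m / (ρ : ℚ_[2]) * (t : ℚ_[2])) := by
    intro ρ t hρ
    have h2 : (ρ : ℚ_[2]) ≠ 0 := by exact_mod_cast (by omega : ρ ≠ 0)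
    push_cast
    field_simp
  have e3 : ∏ ρ ∈ Ico (t0 + 1) (2 ^ m), ((ρ + 2 ^ m * t : ℕ) : ℚ_[2]) =
      (∏ i ∈ Ico (t0 + 1) (2 ^ m), ((i : ℕ) : ℚ_[2])) *
      ∏ ρ ∈ Ico (t0 + 1) (2 ^ m), (1 + (2 : ℚ_[2]) ^ m / (ρ : ℚ_[2]) * ((t : ℚ_[2]) + 0)) := by
    rw [← Finset.prod_mul_distrib]
    apply Finset.prod_congr rfl
    intro ρ hρ
    rw [mem_Ico] at hρ
    rw [h3 ρ t (by omega), add_zero]
  have e4 : ∏ ρ ∈ Ico 1 t0, ((ρ + 2 ^ m * (t + 1) : ℕ) : ℚ_[2]) =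
      (∏ i ∈ Ico 1 t0, ((i : ℕ) : ℚ_[2])) *
      ∏ ρ ∈ Ico 1 t0, (1 + (2 : ℚ_[2]) ^ m / (ρ : ℚ_[2]) * ((t : ℚ_[2]) + 1)) := by
    rw [← Finset.prod_mul_distrib]
    apply Finset.prod_congr rfl
    intro ρ hρ
    rw [mem_Ico] at hρ
    rw [h3 ρ (t + 1) (by omega)]
    push_cast
    rfl
  rw [e2, e3, e4, UU]
  have h4 : (∏ i ∈ Ico 1 t0, ((i : ℕ) : ℚ_[2])) ≠ 0 := by
    rw [Finset.prod_ne_zero_iff]
    intro i hi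
    rw [mem_Ico] at hi
    exact_mod_cast (by omega : i ≠ 0)
  have h5 : (∏ i ∈ Ico (t0 + 1) (2 ^ m), ((i : ℕ) : ℚ_[2])) ≠ 0 := by
    rw [Finset.prod_ne_zero_iff]
    intro i hi
    rw [mem_Ico] at hi
    exact_mod_cast (by omega : i ≠ 0)
  have h6 : (t0 : ℚ_[2]) ≠ 0 := by exact_mod_cast (by omega : t0 ≠ 0)
  push_cast
  field_simp

end W8C

end Pool.Agent.Work.MP_03df5c_pb
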