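import Pool.Agent.Work.MP_03df5c_pb.Interface7
import Pool.Agent.Work.MP_03df5c_pb.B_V7

/-!
# Block W9: one of the numbers `ζ_2(5), ζ_2(7), ζ_2(9), ζ_2(11)` is irrational
-/

open Finset Filter Topology

namespace Pool.Agent.Work.MP_03df5c_pb

open Pool.Agent.Work.MP_03df5c_h91

namespace BW9

/-- the odd exponents -/
def od : Finset ℕ := (range 8).filter (fun i => ¬ Even i)

/-- the average of a constant multiple -/
lemma av_mul (a : ℚ_[2]) (f : ℕ → ℚ_[2]) (N : ℕ) :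
    av 2 (fun t => a * f t) N = a * av 2 f N := by
  unfold av
  rw [← Finset.mul_sum]
  ring

/-- the value of `kubotaLeopoldt` from the zeta value -/
lemma kl_of (k : ℕ) (hk : k ≠ 0) (q : ℚ) (h : zetaP 2 k = (q : ℚ_[2])) :
    kubotaLeopoldt 2 k = (((1 - ((2 : ℚ) ^ k)⁻¹) * q : ℚ) : ℚ_[2]) := by
  have h1 : (1 : ℚ_[2]) - (((2 : ℕ) : ℚ_[2]) ^ k)⁻¹ ≠ 0 := by
    intro h
    have h2 : (((2 : ℕ) : ℚ_[2]) ^ k)⁻¹ = 1 := (sub_eq_zero.1 h).symm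
    have h3 : ((2 ^ k : ℕ) : ℚ_[2]) = ((1 : ℕ) : ℚ_[2]) := by
      rw [Nat.cast_pow, ← inv_inv (((2 : ℕ) : ℚ_[2]) ^ k), h2, inv_one, Nat.cast_one]
    have h4 : 2 ^ k = 1 := by exact_mod_cast h3
    exact absurd h4 (Nat.one_lt_two_pow hk).ne'
  have h5 : kubotaLeopoldt 2 k = (1 - (((2 : ℕ) : ℚ_[2]) ^ k)⁻¹) * (q : ℚ_[2]) := by
    rw [← h]
    unfold zetaP
    rw [← mul_assoc, mul_inv_cancel₀ h1, one_mul]
  rw [h5]
  push_cast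
  rfl

/-- the limit of the averages -/
lemma lim_S (hW4 : S_W4) (hW6 : S_W6) (v : ℕ → ℚ)
    (hv : ∀ i ∈ od, ((((i + 4 : ℕ) : ℚ_[2]) - 1) / 2) * 4 ^ (i + 4) * kubotaLeopoldt 2 (i + 4) =
      (v i : ℚ_[2])) (K : ℕ) (c : ℕ → ℕ → ℚ)
    (hc : ∀ i < 8, Even i → ∑ j ∈ range (K + 1), c i j = 0) :
    Tendsto (av 2 (vv 2 2 1 (T2c K c))) atTop
      (𝓝 ((ratY K c + ∑ i ∈ od, (((i + 2).choose 2 : ℚ) * ∑ j ∈ range (K + 1), c i j) * v i : ℚ) :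
        ℚ_[2])) := by
  have h4 := hW4 K c hc
  have h6 : Tendsto (fun N => ∑ i ∈ od,
      ((((i + 2).choose 2 : ℚ) * ∑ j ∈ range (K + 1), c i j : ℚ) : ℚ_[2]) *
        av 2 (fun t => ((xa 2 2 1 t) ^ (i + 3))⁻¹) N) atTop
      (𝓝 (∑ i ∈ od, ((((i + 2).choose 2 : ℚ) * ∑ j ∈ range (K + 1), c i j : ℚ) : ℚ_[2]) *
        (v i : ℚ_[2]))) := by
    refine tendsto_finsetSum _ fun i hi => Tendsto.const_mul _ ?_
    have hi2 : ¬ Even i := (Finset.mem_filter.1 hi).2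
    have hi3 : Odd (i + 4) := by
      rw [Nat.not_even_iff_odd] at hi2
      exact hi2.add_even (by decide)
    have h := hW6 (i + 4) hi3 (by omega)
    rw [hv i hi] at h
    exact h
  have h5 := h4.add h6
  have e : ((ratY K c + ∑ i ∈ od, (((i + 2).choose 2 : ℚ) * ∑ j ∈ range (K + 1), c i j) * v i : ℚ) :
        ℚ_[2]) = ((ratY K c : ℚ) : ℚ_[2]) +
        ∑ i ∈ od, ((((i + 2).choose 2 : ℚ) * ∑ j ∈ range (K + 1), c i j : ℚ) : ℚ_[2]) *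
        (v i : ℚ_[2]) := by
    push_cast
    rfl
  rw [e]
  refine h5.congr fun N => ?_
  unfold od
  ring

/-- the norm of the limit -/
lemma norm_S (hW7q : S_W7q) (hW8 : S_W8) (m : ℕ) (hm : 1 ≤ m) (c : ℕ → ℕ → ℚ)
    (hP : PF (2 ^ m - 1) 8 c (RY (2 ^ m - 1))) (S : ℚ_[2])
    (hS : Tendsto (av 2 (vv 2 2 1 (T2c (2 ^ m - 1) c))) atTop (𝓝 S)) :
    ‖S‖ = ‖((2 ^ m - 1).factorial : ℚ_[2])‖ ^ 4 * ((2 : ℝ) ^ (12 * (2 ^ m - 1) + 16))⁻¹ *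
      ((2 : ℝ) ^ (3 * m) / 8) := by
  have hf : vv 2 2 1 (T2c (2 ^ m - 1) c) = fun t =>
      (((2 ^ m - 1).factorial : ℚ_[2]) ^ 4 * 2 ^ (12 * (2 ^ m - 1) + 16)) * qq m t :=
    funext fun t => hW7q m c hP t
  have h8 : Tendsto (fun N => ‖av 2 (vv 2 2 1 (T2c (2 ^ m - 1) c)) N‖) atTop
      (𝓝 (‖((2 ^ m - 1).factorial : ℚ_[2])‖ ^ 4 * ((2 : ℝ) ^ (12 * (2 ^ m - 1) + 16))⁻¹ *
      ((2 : ℝ) ^ (3 * m) / 8))) := by
    refine tendsto_const_nhds.congr' ?_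
    filter_upwards [eventually_ge_atTop m] with N hN
    have h2 : ‖(2 : ℚ_[2])‖ = 2⁻¹ := by
      have := Padic.norm_p (p := 2)
      exact_mod_cast this
    rw [hf, av_mul, norm_mul, hW8 m N hm hN, norm_mul, norm_pow, norm_pow, h2, inv_pow]
  exact tendsto_nhds_unique hS.norm h8

/-- the norm is small -/
lemma norm_le (m : ℕ) :
    ‖((2 ^ m - 1).factorial : ℚ_[2])‖ ^ 4 * ((2 : ℝ) ^ (12 * (2 ^ m - 1) + 16))⁻¹ *
      ((2 : ℝ) ^ (3 * m) / 8) ≤ ((2 : ℝ) ^ m) ^ 7 * ((2 : ℝ) ^ (16 * (2 ^ m - 1)))⁻¹ := by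
  have hv := BV7.val_fact 2 m
  rw [BV7.norm_nat_eq 2 (Nat.factorial_ne_zero _)]
  set v := padicValNat 2 (2 ^ m - 1).factorial with hvd
  have hv' : v + m = 2 ^ m - 1 := by omega
  rw [← hv']
  push_cast
  have e1 : (((2 : ℝ) ^ v)⁻¹) ^ 4 * ((2 : ℝ) ^ (12 * (v + m) + 16))⁻¹ * ((2 : ℝ) ^ (3 * m) / 8) =
      ((2 : ℝ) ^ m) ^ 7 * ((2 : ℝ) ^ (16 * (v + m)))⁻¹ * ((2 : ℝ) ^ 19)⁻¹ := by
    have e2 : (2 : ℝ) ^ (12 * (v + m) + 16) = (2 ^ v) ^ 12 * (2 ^ m) ^ 12 * 2 ^ 16 := by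
      rw [← pow_mul, ← pow_mul, ← pow_add, ← pow_add]
      congr 1
      ring
    have e3 : (2 : ℝ) ^ (16 * (v + m)) = (2 ^ v) ^ 16 * (2 ^ m) ^ 16 := by
      rw [← pow_mul, ← pow_mul, ← pow_add]
      congr 1
      ring
    have e4 : (2 : ℝ) ^ (3 * m) = (2 ^ m) ^ 3 := by
      rw [← pow_mul]
      congr 1
      ring
    rw [e2, e3, e4]
    have h1 : (2 : ℝ) ^ v ≠ 0 := by positivity
    have h2 : (2 : ℝ) ^ m ≠ 0 := by positivity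
    field_simp
    norm_num
  rw [e1]
  have h3 : ((2 : ℝ) ^ 19)⁻¹ ≤ 1 := by norm_num
  calc ((2 : ℝ) ^ m) ^ 7 * ((2 : ℝ) ^ (16 * (v + m)))⁻¹ * ((2 : ℝ) ^ 19)⁻¹
      ≤ ((2 : ℝ) ^ m) ^ 7 * ((2 : ℝ) ^ (16 * (v + m)))⁻¹ * 1 :=
        mul_le_mul_of_nonneg_left h3 (by positivity)
    _ = _ := mul_one _

/-- a common denominator -/
lemma exists_den (s : Finset ℕ) (v : ℕ → ℚ) :
    ∃ B : ℕ, B ≠ 0 ∧ ∀ i ∈ s, (B : ℚ) * v i ∈ (Int.castRingHom ℚ).range := by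
  induction s using Finset.induction_on with
  | empty => exact ⟨1, one_ne_zero, by simp⟩
  | insert a s ha ih =>
    obtain ⟨B, hB, h⟩ := ih
    refine ⟨B * (v a).den, mul_ne_zero hB (v a).den_nz, ?_⟩
    intro i hi
    rcases Finset.mem_insert.1 hi with rfl | hi
    · refine ⟨(B : ℤ) * (v i).num, ?_⟩
      have h1 : ((v i).num : ℚ) = (v i).den * v i := by
        rw [mul_comm]; exact (Rat.mul_den_eq_num (v i)).symm
      simp only [eq_intCast, Int.cast_mul, Int.cast_natCast, Nat.cast_mul]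
      rw [h1]
      ring
    · obtain ⟨z, hz⟩ := h i hi
      refine ⟨z * (v a).den, ?_⟩
      simp only [eq_intCast] at hz
      simp only [eq_intCast, Int.cast_mul, Int.cast_natCast, Nat.cast_mul]
      rw [hz]
      ring

lemma mem_of (x : ℚ) (h : ∃ z : ℤ, x = z) : x ∈ (Int.castRingHom ℚ).range := by
  obtain ⟨z, hz⟩ := h
  exact ⟨z, by rw [hz]; rfl⟩

lemma nat_mem (n : ℕ) : (n : ℚ) ∈ (Int.castRingHom ℚ).range := ⟨n, by simp⟩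

/-- the main inequality -/
lemma main_le (hW3 : S_W3) (hW4 : S_W4) (hW6 : S_W6) (hW7q : S_W7q) (hW8 : S_W8)
    (hD1 : ∀ K, dd K ≠ 0) (v : ℕ → ℚ)
    (hv : ∀ i ∈ od, ((((i + 4 : ℕ) : ℚ_[2]) - 1) / 2) * 4 ^ (i + 4) * kubotaLeopoldt 2 (i + 4) =
      (v i : ℚ_[2])) (B : ℕ) (hB : B ≠ 0)
    (hBv : ∀ i ∈ od, (B : ℚ) * v i ∈ (Int.castRingHom ℚ).range)
    (C : ℝ) (n0 m : ℕ) (hm : 1 ≤ m) (c : ℕ → ℕ → ℚ)
    (hP : PF (2 ^ m - 1) 8 c (RY (2 ^ m - 1)))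
    (h1 : ∀ i < 8, ∃ z : ℤ, ((2 ^ (24 * (2 ^ m - 1)) * dd (2 ^ m - 1) ^ 11 : ℕ) : ℚ) *
      ∑ j ∈ range (2 ^ m - 1 + 1), c i j = z)
    (h2 : ∃ z : ℤ, ((2 ^ (24 * (2 ^ m - 1)) * dd (2 ^ m - 1) ^ 11 : ℕ) : ℚ) *
      ratY (2 ^ m - 1) c = z)
    (h3 : ∀ i < 8, |((∑ j ∈ range (2 ^ m - 1 + 1), c i j : ℚ) : ℝ)| ≤
      C * (((2 ^ m - 1 : ℕ) : ℝ) + 1) ^ n0)
    (h4 : |(ratY (2 ^ m - 1) c : ℝ)| ≤ C * (((2 ^ m - 1 : ℕ) : ℝ) + 1) ^ n0) :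
    1 ≤ (B : ℝ) * (dd (2 ^ m - 1) : ℝ) ^ 11 *
      (C * (((2 ^ m - 1 : ℕ) : ℝ) + 1) ^ n0 *
        (1 + ∑ i ∈ od, (((i + 2).choose 2 : ℕ) : ℝ) * |(v i : ℝ)|)) *
      (((2 : ℝ) ^ m) ^ 7 * ((2 : ℝ) ^ (16 * (2 ^ m - 1)))⁻¹) := by
  set K := 2 ^ m - 1 with hK
  have h0 := hW3 K c hP
  set S : ℚ := ratY K c + ∑ i ∈ od, (((i + 2).choose 2 : ℚ) * ∑ j ∈ range (K + 1), c i j) * v i
    with hSd
  have hS1 := lim_S hW4 hW6 v hv K c h0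
  have hS2 := norm_S hW7q hW8 m hm c hP _ hS1
  rw [← hSd] at hS2
  have hS3 := norm_le m
  rw [← hS2] at hS3
  have hSpos : 0 < ‖(S : ℚ_[2])‖ := by
    rw [hS2]
    have : 0 < ‖((2 ^ m - 1).factorial : ℚ_[2])‖ := by
      rw [norm_pos_iff]; exact_mod_cast Nat.factorial_ne_zero _
    positivity
  have hS0 : S ≠ 0 := by
    intro h
    rw [h, Rat.cast_zero, norm_zero] at hSpos
    exact lt_irrefl _ hSpos
  set D : ℕ := 2 ^ (24 * K) * dd K ^ 11 with hD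
  have hD0 : (D : ℚ) ≠ 0 := by
    have : D ≠ 0 := mul_ne_zero (pow_ne_zero _ two_ne_zero) (pow_ne_zero _ (hD1 K))
    exact_mod_cast this
  have hint : (B : ℚ) * (D : ℚ) * S ∈ (Int.castRingHom ℚ).range := by
    have e : (B : ℚ) * (D : ℚ) * S = (B : ℚ) * ((D : ℚ) * ratY K c) +
        ∑ i ∈ od, (((i + 2).choose 2 : ℕ) : ℚ) * ((D : ℚ) * ∑ j ∈ range (K + 1), c i j) *
          ((B : ℚ) * v i) := by
      rw [hSd, mul_add, Finset.mul_sum]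
      congr 1
      · ring
      · refine Finset.sum_congr rfl fun i _ => ?_
        ring
    rw [e]
    refine Subring.add_mem _ (Subring.mul_mem _ (nat_mem B) (mem_of _ h2)) ?_
    refine Subring.sum_mem _ fun i hi => ?_
    have hi8 : i < 8 := Finset.mem_range.1 (Finset.mem_filter.1 hi).1
    exact Subring.mul_mem _ (Subring.mul_mem _ (nat_mem _) (mem_of _ (h1 i hi8))) (hBv i hi)
  obtain ⟨n, hn⟩ := hint
  simp only [eq_intCast] at hn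
  have hn0 : n ≠ 0 := by
    intro h
    rw [h, Int.cast_zero] at hn
    exact (mul_ne_zero (mul_ne_zero (by exact_mod_cast hB) hD0) hS0) hn.symm
  have hkey := BV7.one_le_mul 2 hn0
  -- the real size
  have hnr : |(n : ℝ)| = (B : ℝ) * ((2 : ℝ) ^ (24 * K) * (dd K : ℝ) ^ 11) * |(S : ℝ)| := by
    have e : (n : ℝ) = (B : ℝ) * ((2 : ℝ) ^ (24 * K) * (dd K : ℝ) ^ 11) * (S : ℝ) := by
      have := congrArg (fun q : ℚ => (q : ℝ)) hn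
      rw [hD] at this
      push_cast at this
      exact this
    rw [e, abs_mul, abs_of_nonneg (by positivity)]
  have hSr : |(S : ℝ)| ≤ C * ((K : ℝ) + 1) ^ n0 *
      (1 + ∑ i ∈ od, (((i + 2).choose 2 : ℕ) : ℝ) * |(v i : ℝ)|) := by
    have e : (S : ℝ) = (ratY K c : ℝ) + ∑ i ∈ od, (((i + 2).choose 2 : ℕ) : ℝ) *
        ((∑ j ∈ range (K + 1), c i j : ℚ) : ℝ) * (v i : ℝ) := by
      rw [hSd]
      push_cast
      rfl
    rw [e]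
    refine (abs_add_le _ _).trans ?_
    rw [mul_add, mul_one]
    refine add_le_add h4 ?_
    refine (Finset.abs_sum_le_sum_abs _ _).trans ?_
    rw [Finset.mul_sum]
    refine Finset.sum_le_sum fun i hi => ?_
    have hi8 : i < 8 := Finset.mem_range.1 (Finset.mem_filter.1 hi).1
    rw [abs_mul, abs_mul, Nat.abs_cast]
    calc (((i + 2).choose 2 : ℕ) : ℝ) * |((∑ j ∈ range (K + 1), c i j : ℚ) : ℝ)| * |(v i : ℝ)|
        ≤ (((i + 2).choose 2 : ℕ) : ℝ) * (C * ((K : ℝ) + 1) ^ n0) * |(v i : ℝ)| := by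
          refine mul_le_mul_of_nonneg_right ?_ (abs_nonneg _)
          exact mul_le_mul_of_nonneg_left (h3 i hi8) (Nat.cast_nonneg _)
      _ = _ := by ring
  -- the 2-adic size
  have hnp : ‖(n : ℚ_[2])‖ ≤ ((2 : ℝ) ^ (24 * K))⁻¹ *
      (((2 : ℝ) ^ m) ^ 7 * ((2 : ℝ) ^ (16 * K))⁻¹) := by
    have e : (n : ℚ_[2]) = (B : ℚ_[2]) * ((2 : ℚ_[2]) ^ (24 * K) * (dd K : ℚ_[2]) ^ 11) *
        (S : ℚ_[2]) := by
      have := congrArg (fun q : ℚ => (q : ℚ_[2])) hn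
      rw [hD] at this
      simp only [Rat.cast_mul, Rat.cast_intCast, Rat.cast_natCast] at this
      rw [this]
      push_cast
      rfl
    have h22 : ‖(2 : ℚ_[2])‖ = 2⁻¹ := by
      have := Padic.norm_p (p := 2)
      exact_mod_cast this
    rw [e, norm_mul, norm_mul, norm_mul, norm_pow, norm_pow, h22, inv_pow]
    have hd1 : ‖(dd K : ℚ_[2])‖ ^ 11 ≤ 1 :=
      pow_le_one₀ (norm_nonneg _) (norm_natCast_le_one _)
    have hd2 : ‖(B : ℚ_[2])‖ ≤ 1 := norm_natCast_le_one _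
    calc ‖(B : ℚ_[2])‖ * (((2 : ℝ) ^ (24 * K))⁻¹ * ‖(dd K : ℚ_[2])‖ ^ 11) * ‖(S : ℚ_[2])‖
        ≤ 1 * (((2 : ℝ) ^ (24 * K))⁻¹ * 1) * ‖(S : ℚ_[2])‖ := by
          refine mul_le_mul_of_nonneg_right ?_ (norm_nonneg _)
          refine mul_le_mul hd2 ?_ (by positivity) zero_le_one
          exact mul_le_mul_of_nonneg_left hd1 (by positivity)
      _ = ((2 : ℝ) ^ (24 * K))⁻¹ * ‖(S : ℚ_[2])‖ := by ring
      _ ≤ _ := mul_le_mul_of_nonneg_left hS3 (by positivity)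
  have hSr0 : 0 ≤ C * ((K : ℝ) + 1) ^ n0 *
      (1 + ∑ i ∈ od, (((i + 2).choose 2 : ℕ) : ℝ) * |(v i : ℝ)|) := (abs_nonneg _).trans hSr
  calc (1 : ℝ) ≤ |(n : ℝ)| * ‖(n : ℚ_[2])‖ := hkey
    _ ≤ ((B : ℝ) * ((2 : ℝ) ^ (24 * K) * (dd K : ℝ) ^ 11) * (C * ((K : ℝ) + 1) ^ n0 *
      (1 + ∑ i ∈ od, (((i + 2).choose 2 : ℕ) : ℝ) * |(v i : ℝ)|))) *
        (((2 : ℝ) ^ (24 * K))⁻¹ * (((2 : ℝ) ^ m) ^ 7 * ((2 : ℝ) ^ (16 * K))⁻¹)) := by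
      refine mul_le_mul ?_ hnp (norm_nonneg _) (mul_nonneg (by positivity) hSr0)
      rw [hnr]
      exact mul_le_mul_of_nonneg_left hSr (by positivity)
    _ = _ := by
      have h24 : (2 : ℝ) ^ (24 * K) ≠ 0 := by positivity
      have h25 : (2 : ℝ) ^ (24 * K) * ((2 : ℝ) ^ (24 * K))⁻¹ = 1 := mul_inv_cancel₀ h24
      generalize (C * ((K : ℝ) + 1) ^ n0 *
        (1 + ∑ i ∈ od, (((i + 2).choose 2 : ℕ) : ℝ) * |(v i : ℝ)|)) = X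
      generalize (((2 : ℝ) ^ m) ^ 7 * ((2 : ℝ) ^ (16 * K))⁻¹) = Y
      calc (B : ℝ) * ((2 : ℝ) ^ (24 * K) * (dd K : ℝ) ^ 11) * X * (((2 : ℝ) ^ (24 * K))⁻¹ * Y)
          = ((2 : ℝ) ^ (24 * K) * ((2 : ℝ) ^ (24 * K))⁻¹) * ((B : ℝ) * (dd K : ℝ) ^ 11 * X * Y) := by
            ring
        _ = _ := by rw [h25, one_mul]

end BW9

theorem p_W9 (hW3 : S_W3) (hW4 : S_W4) (hW5 : S_W5) (hW6 : S_W6) (hW7q : S_W7q) (hW8 : S_W8)
    (hD5 : S_D5) (hD1 : S_D1) : S_W9 := by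
  by_contra hcon
  have hrat : ∀ k ∈ ({5, 7, 9, 11} : Finset ℕ), ∃ q : ℚ, zetaP 2 k = (q : ℚ_[2]) := by
    intro k hk
    by_contra h
    exact hcon ⟨k, hk, fun q hq => h ⟨q, hq⟩⟩
  -- the rational limits
  have hex : ∀ i : ℕ, ∃ w : ℚ, i ∈ BW9.od →
      ((((i + 4 : ℕ) : ℚ_[2]) - 1) / 2) * 4 ^ (i + 4) * kubotaLeopoldt 2 (i + 4) =
        (w : ℚ_[2]) := by
    intro i
    by_cases hi : i ∈ BW9.od
    · have hk : i + 4 ∈ ({5, 7, 9, 11} : Finset ℕ) := by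
        have h1 := Finset.mem_filter.1 hi
        have h2 := Finset.mem_range.1 h1.1
        have h3 : ¬ Even i := h1.2
        simp only [Finset.mem_insert, Finset.mem_singleton]
        rw [Nat.not_even_iff_odd] at h3
        obtain ⟨a, ha⟩ := h3
        omega
      obtain ⟨q, hq⟩ := hrat (i + 4) hk
      refine ⟨((((i + 4 : ℕ) : ℚ) - 1) / 2) * 4 ^ (i + 4) * ((1 - ((2 : ℚ) ^ (i + 4))⁻¹) * q),
        fun _ => ?_⟩
      rw [BW9.kl_of (i + 4) (by omega) q hq]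
      push_cast
      rfl
    · exact ⟨0, fun h => absurd h hi⟩
  choose v hv using hex
  obtain ⟨B, hB, hBv⟩ := BW9.exists_den BW9.od v
  obtain ⟨C, n0, h5⟩ := hW5
  obtain ⟨C1, hC1, hd⟩ := hD5 (1 / 200) (by norm_num)
  have hdd : ∀ K, dd K ≠ 0 := fun K => (hD1.2.1 K).1
  set ρ : ℝ := Real.exp (11 * (1 + 1 / 200)) / 2 ^ 16 with hρ
  have hρ0 : 0 < ρ := by positivity
  have hρ1 : ρ < 1 := by
    rw [hρ, div_lt_one (by norm_num)]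
    have h1 : ((2 : ℝ) ^ 16) = Real.exp (16 * Real.log 2) := by
      rw [show 16 * Real.log 2 = Real.log (2 ^ 16) by rw [Real.log_pow]; norm_num,
        Real.exp_log (by norm_num)]
    rw [h1]
    have := Real.log_two_gt_d9
    exact Real.exp_lt_exp.2 (by linarith)
  have hlim : Tendsto (fun n : ℕ => (n : ℝ) ^ (n0 + 7) * ρ ^ n) atTop (𝓝 0) :=
    tendsto_pow_const_mul_const_pow_of_abs_lt_one (n0 + 7) (by rw [abs_of_pos hρ0]; exact hρ1)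
  have hpow : Tendsto (fun m : ℕ => 2 ^ m) atTop atTop :=
    tendsto_pow_atTop_atTop_of_one_lt (by norm_num : (1 : ℕ) < 2)
  set E : ℝ := 1 + ∑ i ∈ BW9.od, (((i + 2).choose 2 : ℕ) : ℝ) * |(v i : ℝ)| with hE
  have hE0 : 0 ≤ E := by
    rw [hE]
    have : 0 ≤ ∑ i ∈ BW9.od, (((i + 2).choose 2 : ℕ) : ℝ) * |(v i : ℝ)| :=
      Finset.sum_nonneg fun i _ => mul_nonneg (Nat.cast_nonneg _) (abs_nonneg _)
    linarith
  have hC0 : 0 ≤ C := by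
    obtain ⟨c, _, _, _, _, h⟩ := h5 1 le_rfl
    have h' := (abs_nonneg _).trans h
    have h'' : (0 : ℝ) < (((1 : ℕ) : ℝ) + 1) ^ n0 := by positivity
    exact nonneg_of_mul_nonneg_left h' h''
  set D : ℝ := (B : ℝ) * C1 ^ 11 * (C * E) * ρ⁻¹ with hD
  have hlim2 : Tendsto (fun m : ℕ => D * (((2 ^ m : ℕ) : ℝ) ^ (n0 + 7) * ρ ^ (2 ^ m))) atTop
      (𝓝 0) := by
    have := (hlim.comp hpow).const_mul D
    rw [mul_zero] at this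
    exact this
  have hge : ∀ᶠ m : ℕ in atTop, (1 : ℝ) ≤ D * (((2 ^ m : ℕ) : ℝ) ^ (n0 + 7) * ρ ^ (2 ^ m)) := by
    filter_upwards [eventually_ge_atTop 1] with m hm
    have hpm : 0 < 2 ^ m := by positivity
    have hK1 : 2 ^ m - 1 ≥ 1 := by
      have : 2 ^ 1 ≤ 2 ^ m := Nat.pow_le_pow_right (by norm_num) hm
      omega
    obtain ⟨c, hP, g1, g2, g3, g4⟩ := h5 (2 ^ m - 1) hK1
    refine (BW9.main_le hW3 hW4 hW6 hW7q hW8 hdd v hv B hB hBv C n0 m hm c hP g1 g2 g3 g4).trans ?_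
    obtain ⟨K, hK⟩ : ∃ K, 2 ^ m = K + 1 := ⟨2 ^ m - 1, by omega⟩
    have hKp : (2 : ℝ) ^ m = (K : ℝ) + 1 := by exact_mod_cast hK
    have hKK : 2 ^ m - 1 = K := by omega
    have hd1 : (dd K : ℝ) ^ 11 ≤ C1 ^ 11 * Real.exp (11 * (1 + 1 / 200)) ^ K := by
      have h1 : (dd K : ℝ) ^ 11 ≤ (C1 * Real.exp ((1 + 1 / 200) * K)) ^ 11 :=
        pow_le_pow_left₀ (by positivity) (hd K) 11
      have h2 : Real.exp ((1 + 1 / 200) * K) ^ 11 = Real.exp (11 * (1 + 1 / 200)) ^ K := by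
        rw [← Real.exp_nat_mul, ← Real.exp_nat_mul]
        congr 1
        push_cast
        ring
      rwa [mul_pow, h2] at h1
    rw [hKK, hK, hKp, ← hE]
    have e1 : Real.exp (11 * (1 + 1 / 200)) ^ K = ρ ^ K * (2 ^ 16) ^ K := by
      rw [hρ, div_pow, div_mul_cancel₀ _ (by positivity)]
    rw [e1] at hd1
    push_cast
    have hX : 0 ≤ C * ((K : ℝ) + 1) ^ n0 * E := by positivity
    calc (B : ℝ) * (dd K : ℝ) ^ 11 * (C * ((K : ℝ) + 1) ^ n0 * E) *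
          (((K : ℝ) + 1) ^ 7 * ((2 : ℝ) ^ (16 * K))⁻¹)
        ≤ (B : ℝ) * (C1 ^ 11 * (ρ ^ K * (2 ^ 16) ^ K)) * (C * ((K : ℝ) + 1) ^ n0 * E) *
          (((K : ℝ) + 1) ^ 7 * ((2 : ℝ) ^ (16 * K))⁻¹) := by
          refine mul_le_mul_of_nonneg_right ?_ (by positivity)
          refine mul_le_mul_of_nonneg_right ?_ hX
          exact mul_le_mul_of_nonneg_left hd1 (Nat.cast_nonneg _)
      _ = D * (((K : ℝ) + 1) ^ (n0 + 7) * ρ ^ (K + 1)) := by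
          rw [hD, pow_mul]
          have h16 : ((2 : ℝ) ^ 16) ^ K ≠ 0 := by positivity
          have hρ' : ρ ≠ 0 := hρ0.ne'
          rw [pow_add, pow_succ ρ K]
          field_simp
  have := ge_of_tendsto hlim2 hge
  linarith

end Pool.Agent.Work.MP_03df5c_pb
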