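import Pool.Agent.Work.MP_03df5c_pb.Interface8

/-!
# Block X1: the residues have sum `0` when `u F(u)` tends to `0`
-/

open Finset Filter Topology

namespace Pool.Agent.Work.MP_03df5c_pb

namespace X1

lemma tend_inv (j : ℕ) : Tendsto (fun n : ℕ => ((n : ℚ) + 1 + (j : ℚ))⁻¹) atTop (𝓝 0) := by
  refine tendsto_inv_atTop_zero.comp ?_
  have h : Tendsto (fun n : ℕ => (n : ℚ)) atTop atTop := tendsto_natCast_atTop_atTop
  have h2 := tendsto_atTop_add_const_right atTop ((1 : ℚ) + (j : ℚ)) h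
  refine h2.congr fun n => ?_
  ring

lemma tend_one (j : ℕ) :
    Tendsto (fun n : ℕ => ((n : ℚ) + 1) * ((n : ℚ) + 1 + (j : ℚ))⁻¹) atTop (𝓝 1) := by
  have h := (tend_inv j).const_mul (j : ℚ)
  have h2 := (tendsto_const_nhds (x := (1 : ℚ))).sub h
  rw [mul_zero, sub_zero] at h2
  refine h2.congr fun n => ?_
  have h3 : ((n : ℚ) + 1 + (j : ℚ)) ≠ 0 := by positivity
  field_simp
  ring

end X1

open X1 in
theorem p_X1 : S_X1 := by
  intro K c F hF hlim
  have h1 : ∀ n : ℕ, F ((n : ℚ) + 1) = ev K 6 c ((n : ℚ) + 1) := fun n =>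
    hF _ (fun j _ => by positivity)
  have h2 : Tendsto (fun n : ℕ => ((n : ℚ) + 1) * ev K 6 c ((n : ℚ) + 1)) atTop
      (𝓝 (∑ j ∈ range (K + 1), ∑ i ∈ range 6, if i = 0 then c i j else 0)) := by
    have h3 : (fun n : ℕ => ((n : ℚ) + 1) * ev K 6 c ((n : ℚ) + 1)) = fun n : ℕ =>
        ∑ j ∈ range (K + 1), ∑ i ∈ range 6,
          c i j * (((n : ℚ) + 1) * ((n : ℚ) + 1 + (j : ℚ))⁻¹) *
            (((n : ℚ) + 1 + (j : ℚ))⁻¹) ^ i := by
      funext n
      unfold ev
      rw [Finset.mul_sum]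
      apply Finset.sum_congr rfl
      intro j _
      rw [Finset.mul_sum]
      apply Finset.sum_congr rfl
      intro i _
      rw [div_eq_mul_inv, ← inv_pow, pow_succ]
      ring
    rw [h3]
    apply tendsto_finsetSum
    intro j _
    apply tendsto_finsetSum
    intro i _
    have h4 := ((tend_one j).const_mul (c i j)).mul ((tend_inv j).pow i)
    rw [mul_one] at h4
    convert h4 using 2
    by_cases hi : i = 0
    · subst hi
      simp
    · rw [if_neg hi, zero_pow hi, mul_zero]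
  have h5 : Tendsto (fun n : ℕ => ((n : ℚ) + 1) * ev K 6 c ((n : ℚ) + 1)) atTop (𝓝 0) := by
    refine hlim.congr fun n => ?_
    rw [h1]
  have h6 := tendsto_nhds_unique h2 h5
  rw [← h6]
  apply Finset.sum_congr rfl
  intro j _
  rw [Finset.sum_ite_eq' (range 6) 0 (fun i => c i j)]
  simp

end Pool.Agent.Work.MP_03df5c_pb
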