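import Pool.Agent.Work.MP_03df5c_pb.Interface8

/-!
# Block X1b: the size of the blocks at infinity, and the sum of the residues
-/

open Finset Filter Topology

namespace Pool.Agent.Work.MP_03df5c_pb

namespace BX1b

theorem lim_inv (j : ℕ) : Tendsto (fun n : ℕ => ((n : ℚ) + 1 + (j : ℚ))⁻¹) atTop (𝓝 0) := by
  have h := (tendsto_inv_atTop_nhds_zero_nat (𝕜 := ℚ))
  have h2 := h.comp (tendsto_add_atTop_nat (1 + j))
  refine h2.congr fun n => ?_
  simp only [Function.comp]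
  push_cast
  ring_nf

theorem lim_one (j : ℕ) : Tendsto (fun n : ℕ => ((n : ℚ) + 1) / ((n : ℚ) + 1 + (j : ℚ))) atTop (𝓝 1) := by
  have h := (lim_inv j).const_mul (j : ℚ)
  have h2 := h.const_sub (1 : ℚ)
  simp only [mul_zero, sub_zero] at h2
  refine h2.congr fun n => ?_
  have : ((n : ℚ) + 1 + (j : ℚ)) ≠ 0 := by positivity
  field_simp
  ring

theorem lim_pow (j i : ℕ) : Tendsto (fun n : ℕ => ((n : ℚ) + 1) * (((n : ℚ) + 1 + (j : ℚ)) ^ (i + 1))⁻¹)
    atTop (𝓝 (if i = 0 then 1 else 0)) := by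
  have h1 := lim_one j
  have h2 := (lim_inv j).pow i
  have h3 := h1.mul h2
  have e : (1 : ℚ) * 0 ^ i = if i = 0 then 1 else 0 := by
    by_cases hi : i = 0
    · simp [hi]
    · simp [hi]
  rw [e] at h3
  refine h3.congr fun n => ?_
  rw [pow_succ, mul_inv, div_eq_mul_inv, inv_pow]
  ring

theorem res0 (K s : ℕ) (c : ℕ → ℕ → ℚ) (F : ℚ → ℚ) (hs : 1 ≤ s) (hF : PF K s c F)
    (hlim : Tendsto (fun n : ℕ => ((n : ℚ) + 1) * F ((n : ℚ) + 1)) atTop (𝓝 0)) :
    ∑ j ∈ range (K + 1), c 0 j = 0 := by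
  have hg : ∀ n : ℕ, Good K ((n : ℚ) + 1) := fun n j _ => by positivity
  have h : ∀ j ∈ range (K + 1), Tendsto (fun n : ℕ => ∑ i ∈ range s, c i j *
      (((n : ℚ) + 1) * (((n : ℚ) + 1 + (j : ℚ)) ^ (i + 1))⁻¹)) atTop
      (𝓝 (∑ i ∈ range s, c i j * (if i = 0 then 1 else 0))) := fun j _ =>
    tendsto_finsetSum _ fun i _ => (lim_pow j i).const_mul _
  have h2 := tendsto_finsetSum _ h
  have e : ∀ j, ∑ i ∈ range s, c i j * (if i = 0 then (1 : ℚ) else 0) = c 0 j := by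
    intro j
    simp only [mul_ite, mul_one, mul_zero]
    rw [Finset.sum_ite_eq' ]
    simp [show 0 < s from hs]
  simp only [e] at h2
  have h3 : Tendsto (fun n : ℕ => ((n : ℚ) + 1) * F ((n : ℚ) + 1)) atTop
      (𝓝 (∑ j ∈ range (K + 1), c 0 j)) := by
    refine h2.congr fun n => ?_
    rw [hF _ (hg n), ev, Finset.mul_sum]
    refine Finset.sum_congr rfl fun j _ => ?_
    rw [Finset.mul_sum]
    exact Finset.sum_congr rfl fun i _ => by rw [div_eq_mul_inv]; ring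
  exact tendsto_nhds_unique h3 hlim

end BX1b

theorem p_X1b : S_X1b := by
  intro K β
  have h : ∀ j ∈ range (K + 1), Tendsto (fun n : ℕ => β j * (((n : ℚ) + 1) / ((n : ℚ) + 1 + (j : ℚ)))) atTop
      (𝓝 (β j * 1)) := fun j _ => (BX1b.lim_one j).const_mul _
  have h2 := tendsto_finsetSum _ h
  simp only [mul_one] at h2
  refine h2.congr fun n => ?_
  rw [sf, Finset.mul_sum]
  exact Finset.sum_congr rfl fun j _ => by ring

end Pool.Agent.Work.MP_03df5c_pb
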