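import Pool.Agent.Work.MP_03df5c_pb.Interface8

/-!
# Block X2: partial fractions with `e` blocks replaced
-/

open Finset Filter Topology

namespace Pool.Agent.Work.MP_03df5c_pb

namespace BX2

theorem tends (h1b : S_X1b) (K : ℕ) (β : ℕ → ℚ) (e : ℕ) (he : e ≤ 3) :
    Tendsto (fun n : ℕ => ((n : ℚ) + 1) * ((sf K β ((n : ℚ) + 1)) ^ e *
      (sf K (bet K (th 2 2 1)) ((n : ℚ) + 1)) ^ (3 - e) *
      (sf K (bet K (th 2 2 3)) ((n : ℚ) + 1)) ^ 3)) atTop (𝓝 0) := by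
  have hq : Tendsto (fun n : ℕ => 1 / ((n : ℚ) + 1)) atTop (𝓝 0) :=
    tendsto_one_div_add_atTop_nhds_zero_nat
  have ha := h1b K β
  have hb := h1b K (bet K (th 2 2 1))
  have hc := h1b K (bet K (th 2 2 3))
  have h := (((ha.pow e).mul (hb.pow (3 - e))).mul (hc.pow 3)).mul (hq.pow 5)
  have e0 : ∀ x : ℚ, x * 0 ^ 5 = 0 := fun x => by ring
  rw [e0] at h
  refine h.congr fun n => ?_
  have hn : ((n : ℚ) + 1) ≠ 0 := by positivity
  generalize sf K β ((n : ℚ) + 1) = s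
  generalize sf K (bet K (th 2 2 1)) ((n : ℚ) + 1) = t
  generalize sf K (bet K (th 2 2 3)) ((n : ℚ) + 1) = r
  generalize (n : ℚ) + 1 = x at hn
  have e1 : x ^ e * x ^ (3 - e) = x ^ 3 := by
    rw [← pow_add]
    congr 1
    omega
  have e2 : x ^ 3 * x ^ 3 * (1 / x) ^ 5 = x := by
    field_simp
  calc (x * s) ^ e * (x * t) ^ (3 - e) * (x * r) ^ 3 * (1 / x) ^ 5
      = (x ^ e * x ^ (3 - e)) * x ^ 3 * (1 / x) ^ 5 * (s ^ e * t ^ (3 - e) * r ^ 3) := by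
        rw [mul_pow, mul_pow, mul_pow]
        ring
    _ = x * (s ^ e * t ^ (3 - e) * r ^ 3) := by rw [e1, e2]

end BX2

/-- Block X2. -/
theorem p_X2 (h1 : S_X1) (h1b : S_X1b) (ha : S_X2a) (hb : S_X2b) : S_X2 := by
  intro K β N B hN hB e he
  obtain ⟨c, hc, hi, hs⟩ := ha K β N B hN hB e he
  have h0 := h1 K c _ hc (BX2.tends h1b K β e he)
  refine ⟨_, hb K c _ hc h0, ?_, ?_⟩
  · intro i hin j hj
    obtain ⟨z, hz⟩ := hi i hin j hj
    by_cases h5 : i < 5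
    · obtain ⟨w, hw⟩ := hi (i + 1) (by omega) j hj
      refine ⟨((K : ℤ) - 2 * (j : ℤ)) * z + 2 * (dd K : ℤ) * w, ?_⟩
      have e1 : 5 - i = (4 - i) + 1 := by omega
      have e2 : 5 - (i + 1) = 4 - i := by omega
      rw [e2] at hw
      simp only [if_pos h5]
      push_cast at hz hw ⊢
      rw [← hz, ← hw, e1, pow_succ]
      ring
    · refine ⟨((K : ℤ) - 2 * (j : ℤ)) * z, ?_⟩
      simp only [if_neg h5]
      push_cast at hz ⊢
      rw [← hz]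
      ring
  · intro i hin j hj
    have hB0 : 0 ≤ B := le_trans (Finset.sum_nonneg fun j _ => abs_nonneg _) hB
    have hK0 : (0 : ℝ) ≤ (K : ℝ) := Nat.cast_nonneg K
    have hX0 : 0 ≤ (9 * ((K : ℝ) + 1)) ^ 6 * (B ^ e * ((K : ℝ) + 1) ^ (6 - e)) := by positivity
    have hjK : (j : ℝ) ≤ (K : ℝ) := by exact_mod_cast hj
    have hj0 : (0 : ℝ) ≤ (j : ℝ) := Nat.cast_nonneg j
    have ha1 : |(K : ℝ) - 2 * (j : ℝ)| ≤ (K : ℝ) := by
      rw [abs_le]
      constructor <;> linarith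
    have e7 : (9 * ((K : ℝ) + 1)) ^ 7 * (B ^ e * ((K : ℝ) + 1) ^ (6 - e)) =
        (9 * ((K : ℝ) + 1)) * ((9 * ((K : ℝ) + 1)) ^ 6 * (B ^ e * ((K : ℝ) + 1) ^ (6 - e))) := by
      rw [pow_succ]
      ring
    rw [e7]
    set X := (9 * ((K : ℝ) + 1)) ^ 6 * (B ^ e * ((K : ℝ) + 1) ^ (6 - e)) with hX
    have hsi := hs i hin j hj
    have hm1 : |((K : ℝ) - 2 * (j : ℝ)) * (c i j : ℝ)| ≤ (K : ℝ) * X := by
      rw [abs_mul]
      exact mul_le_mul ha1 hsi (abs_nonneg _) hK0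
    by_cases h5 : i < 5
    · have hsj := hs (i + 1) (by omega) j hj
      have hm2 : |(2 : ℝ) * (c (i + 1) j : ℝ)| ≤ 2 * X := by
        rw [abs_mul, abs_of_nonneg (by norm_num : (0 : ℝ) ≤ 2)]
        linarith
      simp only [if_pos h5]
      push_cast
      calc |((K : ℝ) - 2 * (j : ℝ)) * (c i j : ℝ) + 2 * (c (i + 1) j : ℝ)|
          ≤ |((K : ℝ) - 2 * (j : ℝ)) * (c i j : ℝ)| + |(2 : ℝ) * (c (i + 1) j : ℝ)| :=
            abs_add_le _ _
        _ ≤ (K : ℝ) * X + 2 * X := add_le_add hm1 hm2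
        _ ≤ (9 * ((K : ℝ) + 1)) * X := by nlinarith
    · simp only [if_neg h5]
      push_cast
      rw [add_zero]
      refine le_trans hm1 ?_
      nlinarith

end Pool.Agent.Work.MP_03df5c_pb
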