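import Pool.Agent.Work.MP_03df5c_pb.Interface8

/-!
# Block X3: symmetry and the residues
-/

open Finset Filter Topology

namespace Pool.Agent.Work.MP_03df5c_pb

open Pool.Agent.Work.MP_03df5c_h91

namespace BX3

theorem bin_refl (y : ℚ) (K : ℕ) : bin y K = (-1) ^ K * bin ((K : ℚ) - 1 - y) K := by
  unfold bin
  have h1 : ∏ m ∈ range K, (y - (m : ℚ)) = (-1) ^ K * ∏ m ∈ range K, ((K : ℚ) - 1 - y - (m : ℚ)) := by
    rw [← Finset.prod_range_reflect (fun m : ℕ => y - (m : ℚ)) K]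
    have h2 : (-1 : ℚ) ^ K = ∏ _m ∈ range K, (-1 : ℚ) := by
      rw [Finset.prod_const, Finset.card_range]
    rw [h2, ← Finset.prod_mul_distrib]
    refine Finset.prod_congr rfl fun m hm => ?_
    have hm' : m < K := Finset.mem_range.mp hm
    have h3 : ((K - 1 - m : ℕ) : ℚ) = (K : ℚ) - 1 - (m : ℚ) := by
      rw [Nat.cast_sub (by omega), Nat.cast_sub (by omega)]
      push_cast
      ring
    rw [h3]
    ring
  rw [h1]
  ring

theorem bet_refl (K : ℕ) (θ : ℚ) (j : ℕ) (hj : j ≤ K) : bet K θ (K - j) = bet K (1 - θ) j := by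
  unfold bet
  rw [Nat.choose_symm hj]
  have h1 : ((K - j : ℕ) : ℚ) = (K : ℚ) - (j : ℚ) := by
    rw [Nat.cast_sub hj]
  rw [h1, bin_refl ((K : ℚ) - ((K : ℚ) - (j : ℚ)) - θ) K]
  have h2 : (K : ℚ) - 1 - ((K : ℚ) - ((K : ℚ) - (j : ℚ)) - θ) = (K : ℚ) - (j : ℚ) - (1 - θ) := by ring
  rw [h2]
  have h3 : (-1 : ℚ) ^ (K - j) * (-1) ^ K = (-1) ^ j := by
    rw [← pow_add]
    have h4 : K - j + K = j + 2 * (K - j) := by omega
    rw [h4, pow_add, pow_mul]
    simp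
  calc (-1 : ℚ) ^ (K - j) * ((K.choose j : ℕ) : ℚ) * ((-1) ^ K * bin ((K : ℚ) - (j : ℚ) - (1 - θ)) K)
      = ((-1 : ℚ) ^ (K - j) * (-1) ^ K) * ((K.choose j : ℕ) : ℚ) * bin ((K : ℚ) - (j : ℚ) - (1 - θ)) K := by
        ring
    _ = _ := by rw [h3]

theorem sf_refl (K : ℕ) (θ u : ℚ) :
    sf K (bet K θ) (-(K : ℚ) - u) = - sf K (bet K (1 - θ)) u := by
  unfold sf
  rw [← Finset.sum_range_reflect, ← Finset.sum_neg_distrib]
  refine Finset.sum_congr rfl fun j hj => ?_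
  have hj' : j ≤ K := by
    have := Finset.mem_range.mp hj; omega
  have h0 : K + 1 - 1 - j = K - j := by omega
  rw [h0, bet_refl K θ j hj', Nat.cast_sub hj']
  have h2 : -(K : ℚ) - u + ((K : ℚ) - (j : ℚ)) = -(u + (j : ℚ)) := by ring
  rw [h2, div_neg]

theorem th1 : th 2 2 1 = 1 / 4 := by unfold th; norm_num

theorem th3 : th 2 2 3 = 3 / 4 := by unfold th; norm_num

theorem RX_refl (K : ℕ) (u : ℚ) : RX K (-(K : ℚ) - u) = - RX K u := by
  unfold RX
  rw [th1, th3, sf_refl, sf_refl]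
  have h1 : (1 : ℚ) - 1 / 4 = 3 / 4 := by norm_num
  have h2 : (1 : ℚ) - 3 / 4 = 1 / 4 := by norm_num
  rw [h1, h2]
  ring

theorem good_refl (K : ℕ) (u : ℚ) (h : Good K u) : Good K (-(K : ℚ) - u) := by
  intro j hj h0
  apply h (K - j) (by omega)
  rw [Nat.cast_sub hj]
  linarith

theorem ev_refl (K s : ℕ) (c : ℕ → ℕ → ℚ) (u : ℚ) :
    ev K s c (-(K : ℚ) - u) = ev K s (fun i j => (-1) ^ (i + 1) * c i (K - j)) u := by
  unfold ev
  rw [← Finset.sum_range_reflect]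
  refine Finset.sum_congr rfl fun j hj => Finset.sum_congr rfl fun i _ => ?_
  have hj' : j ≤ K := by
    have := Finset.mem_range.mp hj; omega
  have h0 : K + 1 - 1 - j = K - j := by omega
  rw [h0, Nat.cast_sub hj']
  have h2 : -(K : ℚ) - u + ((K : ℚ) - (j : ℚ)) = (-1) * (u + (j : ℚ)) := by ring
  rw [h2, mul_pow]
  have h3 : ((-1 : ℚ) ^ (i + 1)) * (-1) ^ (i + 1) = 1 := by
    rw [← mul_pow]; norm_num
  have h4 : ((-1 : ℚ) ^ (i + 1)) ≠ 0 := pow_ne_zero _ (by norm_num)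
  rw [div_mul_eq_div_div]
  congr 1
  rw [div_eq_iff h4]
  linear_combination (-(c i (K - j))) * h3

theorem symm_c (hP2 : S_P2) (K : ℕ) (c : ℕ → ℕ → ℚ) (hPF : PF K 6 c (RX K)) :
    ∀ i < 6, ∀ j ≤ K, c i j = -((-1) ^ (i + 1) * c i (K - j)) := by
  refine hP2 K 6 c (fun i j => -((-1) ^ (i + 1) * c i (K - j))) 0 fun u hu => ?_
  have h1 : RX K u = ev K 6 c u := hPF u hu
  have h2 : RX K (-(K : ℚ) - u) = ev K 6 c (-(K : ℚ) - u) := hPF _ (good_refl K u hu)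
  rw [RX_refl, ev_refl] at h2
  have h3 : ev K 6 (fun i j => -((-1) ^ (i + 1) * c i (K - j))) u =
      - ev K 6 (fun i j => (-1) ^ (i + 1) * c i (K - j)) u := by
    unfold ev
    rw [← Finset.sum_neg_distrib]
    refine Finset.sum_congr rfl fun j _ => ?_
    rw [← Finset.sum_neg_distrib]
    refine Finset.sum_congr rfl fun i _ => ?_
    rw [neg_div]
  rw [← h1, h3, ← h2]
  ring

theorem odd_sum (K : ℕ) (c : ℕ → ℚ) (h : ∀ j ≤ K, c j = -(c (K - j))) :
    ∑ j ∈ range (K + 1), c j = 0 := by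
  have h1 : ∑ j ∈ range (K + 1), c (K - j) = ∑ j ∈ range (K + 1), c j := by
    rw [← Finset.sum_range_reflect c (K + 1)]
    refine Finset.sum_congr rfl fun j _ => ?_
    congr 1
  have h2 : ∑ j ∈ range (K + 1), c j = - ∑ j ∈ range (K + 1), c (K - j) := by
    rw [← Finset.sum_neg_distrib]
    refine Finset.sum_congr rfl fun j hj => ?_
    exact h j (by have := Finset.mem_range.mp hj; omega)
  rw [h1] at h2
  linarith

theorem tends_RX (h1b : S_X1b) (K : ℕ) :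
    Tendsto (fun n : ℕ => ((n : ℚ) + 1) * RX K ((n : ℚ) + 1)) atTop (𝓝 0) := by
  have hq : Tendsto (fun n : ℕ => 1 / ((n : ℚ) + 1)) atTop (𝓝 0) :=
    tendsto_one_div_add_atTop_nhds_zero_nat
  have ha := h1b K (bet K (th 2 2 1))
  have hb := h1b K (bet K (th 2 2 3))
  have h := ((ha.pow 3).mul (hb.pow 3)).mul
    (((hq.pow 4).const_mul 2).add ((hq.pow 5).const_mul (K : ℚ)))
  have e0 : ((∑ j ∈ range (K + 1), bet K (th 2 2 1) j) ^ 3 *
      (∑ j ∈ range (K + 1), bet K (th 2 2 3) j) ^ 3) * (2 * (0 : ℚ) ^ 4 + (K : ℚ) * 0 ^ 5) = 0 := by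
    ring
  rw [e0] at h
  refine h.congr fun n => ?_
  have hn : ((n : ℚ) + 1) ≠ 0 := by positivity
  unfold RX
  field_simp

end BX3

theorem p_X3 (hP2 : S_P2) (h1 : S_X1) (h1b : S_X1b) : S_X3 := by
  intro K c hPF i hi hi2 hi4
  by_cases h0 : i = 0
  · subst h0
    exact h1 K c (RX K) hPF (BX3.tends_RX h1b K)
  · apply BX3.odd_sum K (c i)
    intro j hj
    have h := BX3.symm_c hP2 K c hPF i hi j hj
    have hcase : i = 1 ∨ i = 3 ∨ i = 5 := by omega
    rcases hcase with rfl | rfl | rfl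
    · norm_num at h ⊢
      exact h
    · norm_num at h ⊢
      exact h
    · norm_num at h ⊢
      exact h

end Pool.Agent.Work.MP_03df5c_pb
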