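import Pool.Agent.Work.MP_03df5c_pb.Interface8

/-!
# Block X4: the linear form (typed by helper53)
-/

open Finset Filter Topology

namespace Pool.Agent.Work.MP_03df5c_pb

namespace BX4

theorem shift_sum (g : ℕ → ℚ_[2]) (M j : ℕ) :
    ∑ t ∈ range M, g (t + j) = ∑ t ∈ range M, g t + ∑ l ∈ range j, (g (l + M) - g l) := by
  have h1 := Finset.sum_range_add g M j
  have h2 := Finset.sum_range_add g j M
  have h3 : ∑ t ∈ range M, g (t + j) = ∑ t ∈ range M, g (j + t) :=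
    Finset.sum_congr rfl fun t _ => by rw [add_comm]
  have h4 : ∑ l ∈ range j, g (l + M) = ∑ l ∈ range j, g (M + l) :=
    Finset.sum_congr rfl fun t _ => by rw [add_comm]
  rw [add_comm j M] at h2
  rw [Finset.sum_sub_distrib, h3, h4]
  have h5 := h1.symm.trans h2
  linear_combination -h5

theorem lim_e (d : ℚ_[2]) (hd : d ≠ 0) (e : ℕ) :
    Tendsto (fun N : ℕ => ((2 : ℚ_[2]) ^ N)⁻¹ *
      (((d + (2 : ℚ_[2]) ^ N) ^ (e + 1))⁻¹ - (d ^ (e + 1))⁻¹)) atTop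
      (𝓝 (-((e : ℚ_[2]) + 1) / d ^ (e + 2))) := by
  have h := (hasDerivAt_pow (e + 1) d).inv (pow_ne_zero _ hd)
  rw [hasDerivAt_iff_tendsto_slope_zero] at h
  have hy : Tendsto (fun N : ℕ => (2 : ℚ_[2]) ^ N) atTop (𝓝[≠] 0) := by
    rw [tendsto_nhdsWithin_iff]
    constructor
    · have h2 := Padic.norm_p_lt_one (p := 2)
      rw [Nat.cast_ofNat] at h2
      exact tendsto_pow_atTop_nhds_zero_of_norm_lt_one h2
    · exact Eventually.of_forall fun N => pow_ne_zero _ two_ne_zero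
  have h3 := h.comp hy
  have e1 : -(((e + 1 : ℕ) : ℚ_[2]) * d ^ (e + 1 - 1)) / (d ^ (e + 1)) ^ 2 =
      -((e : ℚ_[2]) + 1) / d ^ (e + 2) := by
    rw [Nat.add_sub_cancel]
    push_cast
    field_simp
    ring
  rw [e1] at h3
  exact h3

theorem th_cast : ((th 2 2 1 : ℚ) : ℚ_[2]) = ((1 : ℕ) : ℚ_[2]) / ((2 : ℕ) : ℚ_[2]) ^ 2 := by
  unfold th
  push_cast
  rfl

theorem X_ne (n : ℕ) : ((th 2 2 1 : ℚ) : ℚ_[2]) + (n : ℚ_[2]) ≠ 0 := by
  have h1 : (th 2 2 1 : ℚ) + (n : ℚ) ≠ 0 := by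
    have h2 : 0 < th 2 2 1 := by
      unfold th
      norm_num
    positivity
  exact_mod_cast h1

/-- the coefficient -/
noncomputable def a (c : ℕ → ℕ → ℚ) (i j : ℕ) : ℚ_[2] := ((((i : ℚ) + 1) * c i j : ℚ) : ℚ_[2])

/-- the power -/
noncomputable def g (i n : ℕ) : ℚ_[2] := ((((th 2 2 1 : ℚ) : ℚ_[2]) + (n : ℚ_[2])) ^ (i + 2))⁻¹

theorem val (K : ℕ) (c : ℕ → ℕ → ℚ) (t : ℕ) :
    vv 2 2 1 (T1x K c) t = ∑ j ∈ range (K + 1), ∑ i ∈ range 6, a c i j * g i (t + j) := by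
  unfold vv T1x a g
  rw [Rat.cast_sum]
  refine Finset.sum_congr rfl fun j _ => ?_
  rw [Rat.cast_sum]
  refine Finset.sum_congr rfl fun i _ => ?_
  rw [Rat.cast_div, Rat.cast_pow, Rat.cast_add, Rat.cast_add, Rat.cast_natCast, Rat.cast_natCast,
    div_eq_mul_inv, Nat.cast_add, add_assoc]

theorem avg (i N : ℕ) : av 2 (fun t => ((xa 2 2 1 t) ^ (i + 2))⁻¹) N =
    ((2 : ℚ_[2]) ^ N)⁻¹ * ∑ t ∈ range (2 ^ N), g i t := by
  unfold av
  rw [Nat.cast_ofNat]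
  congr 1
  refine Finset.sum_congr rfl fun t _ => ?_
  unfold g xa
  rw [th_cast]

theorem avT (K : ℕ) (c : ℕ → ℕ → ℚ) (N : ℕ) :
    av 2 (vv 2 2 1 (T1x K c)) N = ∑ i ∈ range 6, (∑ j ∈ range (K + 1), a c i j) *
      (((2 : ℚ_[2]) ^ N)⁻¹ * ∑ t ∈ range (2 ^ N), g i t) +
      ∑ j ∈ range (K + 1), ∑ l ∈ range j, ∑ i ∈ range 6,
        a c i j * (((2 : ℚ_[2]) ^ N)⁻¹ * (g i (l + 2 ^ N) - g i l)) := by
  have h1 : av 2 (vv 2 2 1 (T1x K c)) N = ((2 : ℚ_[2]) ^ N)⁻¹ *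
      ∑ t ∈ range (2 ^ N), ∑ j ∈ range (K + 1), ∑ i ∈ range 6, a c i j * g i (t + j) := by
    unfold av
    rw [Nat.cast_ofNat]
    congr 1
    exact Finset.sum_congr rfl fun t _ => val K c t
  have h2 : ∑ t ∈ range (2 ^ N), ∑ j ∈ range (K + 1), ∑ i ∈ range 6, a c i j * g i (t + j) =
      ∑ j ∈ range (K + 1), ∑ i ∈ range 6, a c i j *
        (∑ t ∈ range (2 ^ N), g i t + ∑ l ∈ range j, (g i (l + 2 ^ N) - g i l)) := by
    rw [Finset.sum_comm]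
    refine Finset.sum_congr rfl fun j _ => ?_
    rw [Finset.sum_comm]
    refine Finset.sum_congr rfl fun i _ => ?_
    rw [← Finset.mul_sum, shift_sum (g i)]
  have h3 : ∀ j ∈ range (K + 1), ((2 : ℚ_[2]) ^ N)⁻¹ * ∑ i ∈ range 6, a c i j *
        (∑ t ∈ range (2 ^ N), g i t + ∑ l ∈ range j, (g i (l + 2 ^ N) - g i l)) =
      ∑ i ∈ range 6, a c i j * (((2 : ℚ_[2]) ^ N)⁻¹ * ∑ t ∈ range (2 ^ N), g i t) +
      ∑ l ∈ range j, ∑ i ∈ range 6,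
        a c i j * (((2 : ℚ_[2]) ^ N)⁻¹ * (g i (l + 2 ^ N) - g i l)) := by
    intro j _
    have h4 : ∑ l ∈ range j, ∑ i ∈ range 6,
        a c i j * (((2 : ℚ_[2]) ^ N)⁻¹ * (g i (l + 2 ^ N) - g i l)) =
        ∑ i ∈ range 6, a c i j * (((2 : ℚ_[2]) ^ N)⁻¹ *
          ∑ l ∈ range j, (g i (l + 2 ^ N) - g i l)) := by
      rw [Finset.sum_comm]
      refine Finset.sum_congr rfl fun i _ => ?_
      rw [Finset.mul_sum, Finset.mul_sum]
    rw [h4, ← Finset.sum_add_distrib, Finset.mul_sum]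
    refine Finset.sum_congr rfl fun i _ => ?_
    ring
  rw [h1, h2, Finset.mul_sum, Finset.sum_congr rfl h3, Finset.sum_add_distrib]
  congr 1
  rw [Finset.sum_comm]
  refine Finset.sum_congr rfl fun i _ => ?_
  rw [Finset.sum_mul]

theorem coef (i : ℕ) : ((i : ℚ_[2]) + 1) * ((i : ℚ_[2]) + 2) =
    2 * ((i + 2).choose 2 : ℚ_[2]) := by
  have h : (i + 1 + 1) * (i + 1).choose 1 = (i + 2).choose 2 * 2 :=
    Nat.add_one_mul_choose_eq (i + 1) 1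
  rw [Nat.choose_one_right] at h
  have h2 : (((i + 1 + 1) * (i + 1) : ℕ) : ℚ_[2]) =
      (((i + 2).choose 2 * 2 : ℕ) : ℚ_[2]) := congrArg (fun n : ℕ => (n : ℚ_[2])) h
  push_cast at h2
  linear_combination h2

theorem pick (f : ℕ → ℚ_[2]) (h : ∀ i < 6, i ≠ 2 → i ≠ 4 → f i = 0) :
    ∑ i ∈ ({2, 4} : Finset ℕ), f i = ∑ i ∈ range 6, f i := by
  refine Finset.sum_subset ?_ ?_
  · intro i hi
    rw [Finset.mem_insert, Finset.mem_singleton] at hi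
    rw [Finset.mem_range]
    omega
  · intro i hi hn
    rw [Finset.mem_insert, Finset.mem_singleton, not_or] at hn
    exact h i (Finset.mem_range.1 hi) hn.1 hn.2

end BX4

open BX4 in
theorem p_X4 : S_X4 := by
  intro K c hc
  have key : ∀ N : ℕ, av 2 (vv 2 2 1 (T1x K c)) N -
      ∑ i ∈ ({2, 4} : Finset ℕ),
        (((((i : ℚ) + 1) * ∑ j ∈ range (K + 1), c i j : ℚ)) : ℚ_[2]) *
          av 2 (fun t => ((xa 2 2 1 t) ^ (i + 2))⁻¹) N =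
      ∑ j ∈ range (K + 1), ∑ l ∈ range j, ∑ i ∈ range 6,
        a c i j * (((2 : ℚ_[2]) ^ N)⁻¹ * (g i (l + 2 ^ N) - g i l)) := by
    intro N
    have h1 : ∀ i : ℕ, ((((i : ℚ) + 1) * ∑ j ∈ range (K + 1), c i j : ℚ) : ℚ_[2]) =
        ∑ j ∈ range (K + 1), a c i j := by
      intro i
      unfold a
      rw [Finset.mul_sum, Rat.cast_sum]
    have h2 : ∑ i ∈ ({2, 4} : Finset ℕ),
        (((((i : ℚ) + 1) * ∑ j ∈ range (K + 1), c i j : ℚ)) : ℚ_[2]) *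
          av 2 (fun t => ((xa 2 2 1 t) ^ (i + 2))⁻¹) N =
        ∑ i ∈ range 6, (∑ j ∈ range (K + 1), a c i j) *
          (((2 : ℚ_[2]) ^ N)⁻¹ * ∑ t ∈ range (2 ^ N), g i t) := by
      rw [pick]
      · refine Finset.sum_congr rfl fun i hi => ?_
        rw [h1 i, avg]
      · intro i hi h3 h4
        rw [hc i hi h3 h4, mul_zero, Rat.cast_zero, zero_mul]
    rw [h2, avT, add_sub_cancel_left]
  simp only [key]
  have hlim : ((ratX K c : ℚ) : ℚ_[2]) = ∑ j ∈ range (K + 1), ∑ l ∈ range j, ∑ i ∈ range 6,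
      a c i j * (-((((i + 1 : ℕ) : ℚ_[2])) + 1) /
        (((th 2 2 1 : ℚ) : ℚ_[2]) + (l : ℚ_[2])) ^ (i + 1 + 2)) := by
    unfold ratX
    rw [Rat.cast_mul, Rat.cast_sum, Finset.mul_sum]
    refine Finset.sum_congr rfl fun j _ => ?_
    rw [Rat.cast_sum, Finset.mul_sum]
    refine Finset.sum_congr rfl fun l _ => ?_
    rw [Rat.cast_sum, Finset.mul_sum]
    refine Finset.sum_congr rfl fun i _ => ?_
    unfold a
    have h1 := coef i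
    have h2 : i + 1 + 2 = i + 3 := rfl
    rw [h2]
    push_cast
    have h3 : -(((i : ℚ_[2]) + 1) + 1) = -((i : ℚ_[2]) + 2) := by ring
    rw [h3]
    have h4 : ((i : ℚ_[2]) + 1) * ((c i j : ℚ) : ℚ_[2]) *
        (-((i : ℚ_[2]) + 2) / (((th 2 2 1 : ℚ) : ℚ_[2]) + (l : ℚ_[2])) ^ (i + 3)) =
        -(((i : ℚ_[2]) + 1) * ((i : ℚ_[2]) + 2)) * ((c i j : ℚ) : ℚ_[2]) /
          (((th 2 2 1 : ℚ) : ℚ_[2]) + (l : ℚ_[2])) ^ (i + 3) := by ring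
    rw [h4, h1]
    ring
  rw [hlim]
  refine tendsto_finsetSum _ fun j _ => tendsto_finsetSum _ fun l _ => tendsto_finsetSum _
    fun i _ => ?_
  refine tendsto_const_nhds.mul ?_
  have h5 := lim_e (((th 2 2 1 : ℚ) : ℚ_[2]) + (l : ℚ_[2])) (X_ne l) (i + 1)
  have h6 : (fun N : ℕ => ((2 : ℚ_[2]) ^ N)⁻¹ * (g i (l + 2 ^ N) - g i l)) =
      fun N : ℕ => ((2 : ℚ_[2]) ^ N)⁻¹ *
      (((((th 2 2 1 : ℚ) : ℚ_[2]) + (l : ℚ_[2]) + (2 : ℚ_[2]) ^ N) ^ (i + 1 + 1))⁻¹ -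
        ((((th 2 2 1 : ℚ) : ℚ_[2]) + (l : ℚ_[2])) ^ (i + 1 + 1))⁻¹) := by
    funext N
    unfold g
    rw [Nat.cast_add, Nat.cast_pow, Nat.cast_ofNat, add_assoc]
  rw [h6]
  exact h5

end Pool.Agent.Work.MP_03df5c_pb
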