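import Pool.Agent.Work.MP_03df5c_pb.Interface8
import Pool.Agent.Work.MP_03df5c_pb.B_N2b

/-!
# Block X7q: the logarithmic derivative in `ℚ_2`
-/

set_option autoImplicit false

open Finset Filter Topology

namespace Pool.Agent.Work.MP_03df5c_pb

namespace BX7q

theorem th_eq (t : ℕ) : th 2 2 1 + (t : ℚ) = 1 / 4 + (t : ℚ) := by
  unfold th
  norm_num

theorem th3_eq : th 2 2 3 = 3 / 4 := by
  unfold th
  norm_num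

theorem th1_eq : th 2 2 1 = 1 / 4 := by
  unfold th
  norm_num

theorem good (K t : ℕ) : Good K (1 / 4 + (t : ℚ)) := by
  intro j _
  positivity

theorem bin_half (K t : ℕ) : bin ((t : ℚ) - 1 / 2 + K) K =
    ((2 : ℚ) ^ K)⁻¹ * (∏ i ∈ Icc 1 K, (2 * ((t : ℚ) + (i : ℚ)) - 1)) / (K.factorial : ℚ) := by
  unfold bin
  congr 1
  have h : ∀ K : ℕ, ∏ m ∈ range K, ((t : ℚ) - 1 / 2 + K - (m : ℚ)) =
      ∏ i ∈ Icc 1 K, ((1 / 2) * (2 * ((t : ℚ) + (i : ℚ)) - 1)) := by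
    intro K
    rw [← Finset.prod_range_reflect]
    have : Icc 1 K = Ico 1 (K + 1) := by ext x; simp
    rw [this, Finset.prod_Ico_eq_prod_range]
    refine Finset.prod_congr (by simp) fun j hj => ?_
    have hj' := Finset.mem_range.1 hj
    have e : ((K - 1 - j : ℕ) : ℚ) = (K : ℚ) - 1 - j := by
      rw [Nat.cast_sub (by omega), Nat.cast_sub (by omega)]
      norm_num
    rw [e]
    push_cast
    ring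
  rw [h, Finset.prod_mul_distrib, Finset.prod_const]
  simp only [Nat.card_Icc, Nat.add_sub_cancel, one_div, inv_pow]

theorem prod_den (K t : ℕ) : ∏ j ∈ range (K + 1), (1 / 4 + (t : ℚ) + (j : ℚ)) =
    (∏ j ∈ range (K + 1), (1 + 4 * ((t : ℚ) + (j : ℚ)))) / 4 ^ (K + 1) := by
  have h : ∀ j : ℕ, (1 / 4 + (t : ℚ) + (j : ℚ)) = (1 + 4 * ((t : ℚ) + (j : ℚ))) / 4 := by
    intro j; ring
  simp only [h]
  rw [Finset.prod_div_distrib, Finset.prod_const, Finset.card_range]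

theorem blocks_eq (h3 : S_P3) (K t : ℕ) :
    (sf K (bet K (th 2 2 1)) (1 / 4 + (t : ℚ))) ^ 3 *
      (sf K (bet K (th 2 2 3)) (1 / 4 + (t : ℚ))) ^ 3 =
    (K.factorial : ℚ) ^ 3 * 2 ^ (9 * K + 12) * ((((t + K).choose K : ℕ) : ℚ) ^ 3 *
      ((∏ i ∈ Icc 1 K, (2 * ((t : ℚ) + (i : ℚ)) - 1)) ^ 3 /
        (∏ j ∈ range (K + 1), (1 + 4 * ((t : ℚ) + (j : ℚ)))) ^ 6)) := by
  have hg := good K t
  have hp : (∏ j ∈ range (K + 1), (1 + 4 * ((t : ℚ) + (j : ℚ)))) ≠ 0 := by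
    rw [Finset.prod_ne_zero_iff]
    intro j _
    positivity
  have hf : (K.factorial : ℚ) ≠ 0 := by exact_mod_cast K.factorial_ne_zero
  rw [(h3 K _ hg).2, (h3 K _ hg).2, th1_eq, th3_eq, prod_den,
    show 1 / 4 + (t : ℚ) - 1 / 4 + K = (t : ℚ) + K by ring, BN2b.bin_choose,
    show 1 / 4 + (t : ℚ) - 3 / 4 + K = (t : ℚ) - 1 / 2 + K by ring, bin_half]
  obtain ⟨P, hP⟩ : ∃ P, P = ∏ j ∈ range (K + 1), (1 + 4 * ((t : ℚ) + (j : ℚ))) := ⟨_, rfl⟩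
  obtain ⟨Q, hQ⟩ : ∃ Q, Q = ∏ i ∈ Icc 1 K, (2 * ((t : ℚ) + (i : ℚ)) - 1) := ⟨_, rfl⟩
  rw [← hP, ← hQ]
  rw [← hP] at hp
  have e1 : (4 : ℚ) ^ (K + 1) = 4 * (2 ^ K) ^ 2 := by
    rw [pow_succ, show (4 : ℚ) = 2 ^ 2 by norm_num, ← pow_mul, ← pow_mul, mul_comm 2 K]
    ring
  have e2 : (2 : ℚ) ^ (9 * K + 12) = 2 ^ 12 * (2 ^ K) ^ 9 := by
    rw [pow_add, mul_comm 9 K, pow_mul]
    ring
  rw [e1, e2]
  obtain ⟨x, hx⟩ : ∃ x, x = (2 : ℚ) ^ K := ⟨_, rfl⟩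
  have hx0 : x ≠ 0 := by rw [hx]; positivity
  rw [← hx]
  field_simp
  ring

theorem cast_fac (K t : ℕ) :
    (((∑ i ∈ (Icc 1 K : Finset ℕ), (3 / ((t : ℚ) + (i : ℚ)) + 3 / ((t : ℚ) - 1 / 2 + (i : ℚ))) -
        ∑ j ∈ range (K + 1), 6 / (1 / 4 + (t : ℚ) + (j : ℚ)) : ℚ)) : ℚ_[2]) =
      3 * ∑ i ∈ (Icc 1 K : Finset ℕ), ((t : ℚ_[2]) + (i : ℚ_[2]))⁻¹ +
      (6 * ∑ i ∈ (Icc 1 K : Finset ℕ), (2 * ((t : ℚ_[2]) + (i : ℚ_[2])) - 1)⁻¹ -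
        24 * ∑ j ∈ range (K + 1), (1 + 4 * ((t : ℚ_[2]) + (j : ℚ_[2])))⁻¹) := by
  have e1 : ∀ i : ℕ, (3 : ℚ_[2]) / ((t : ℚ_[2]) - 1 / 2 + (i : ℚ_[2])) =
      6 * (2 * ((t : ℚ_[2]) + (i : ℚ_[2])) - 1)⁻¹ := by
    intro i
    obtain ⟨x, hx⟩ : ∃ x, x = 2 * ((t : ℚ_[2]) + (i : ℚ_[2])) - 1 := ⟨_, rfl⟩
    have : (t : ℚ_[2]) - 1 / 2 + (i : ℚ_[2]) = x * (1 / 2) := by rw [hx]; ring
    rw [this, ← hx]
    ring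
  have e2 : ∀ j : ℕ, (6 : ℚ_[2]) / (1 / 4 + (t : ℚ_[2]) + (j : ℚ_[2])) =
      24 * (1 + 4 * ((t : ℚ_[2]) + (j : ℚ_[2])))⁻¹ := by
    intro j
    obtain ⟨x, hx⟩ : ∃ x, x = 1 + 4 * ((t : ℚ_[2]) + (j : ℚ_[2])) := ⟨_, rfl⟩
    have : 1 / 4 + (t : ℚ_[2]) + (j : ℚ_[2]) = x * (1 / 4) := by rw [hx]; ring
    rw [this, ← hx]
    ring
  push_cast
  simp only [e1, e2, Finset.sum_add_distrib, ← Finset.mul_sum, div_eq_mul_inv (3 : ℚ_[2])]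
  ring

/-- the right-hand side of `X7`, cast to `ℚ_2`, with `K` general -/
theorem cast_rhs (h3 : S_P3) (K t : ℕ) :
    ((-((sf K (bet K (th 2 2 1)) (1 / 4 + (t : ℚ))) ^ 3 *
      (sf K (bet K (th 2 2 3)) (1 / 4 + (t : ℚ))) ^ 3) *
    (2 + (2 * (1 / 4 + (t : ℚ)) + (K : ℚ)) *
      (∑ i ∈ (Icc 1 K : Finset ℕ), (3 / ((t : ℚ) + (i : ℚ)) + 3 / ((t : ℚ) - 1 / 2 + (i : ℚ))) -
        ∑ j ∈ range (K + 1), 6 / (1 / 4 + (t : ℚ) + (j : ℚ)))) : ℚ) : ℚ_[2]) =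
    -((K.factorial : ℚ_[2]) ^ 3 * 2 ^ (9 * K + 12) *
      ((((t + K).choose K : ℕ) : ℚ_[2]) ^ 3 *
        ((∏ i ∈ (Icc 1 K : Finset ℕ), (2 * ((t : ℚ_[2]) + (i : ℚ_[2])) - 1)) ^ 3 /
          (∏ j ∈ range (K + 1), (1 + 4 * ((t : ℚ_[2]) + (j : ℚ_[2])))) ^ 6) *
        (2 + (1 / 2 + 2 * (t : ℚ_[2]) + (K : ℚ_[2])) *
          (3 * ∑ i ∈ (Icc 1 K : Finset ℕ), ((t : ℚ_[2]) + (i : ℚ_[2]))⁻¹ +
      (6 * ∑ i ∈ (Icc 1 K : Finset ℕ), (2 * ((t : ℚ_[2]) + (i : ℚ_[2])) - 1)⁻¹ -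
        24 * ∑ j ∈ range (K + 1), (1 + 4 * ((t : ℚ_[2]) + (j : ℚ_[2])))⁻¹))))) := by
  rw [blocks_eq h3, Rat.cast_mul, Rat.cast_add, Rat.cast_mul, cast_fac]
  push_cast
  ring

end BX7q

/-- X7q, from X7 and P3 -/
theorem p_X7q (hX7 : S_X7) (hP3 : S_P3) : S_X7q := by
  intro m c hc t
  have hK : 2 ^ m - 1 + 1 = 2 ^ m := by
    have : 0 < 2 ^ m := by positivity
    omega
  unfold vv
  rw [BX7q.th_eq, hX7 _ c hc t, BX7q.cast_rhs hP3]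
  unfold qx Aq wx H1q U1x
  rw [hK]

end Pool.Agent.Work.MP_03df5c_pb
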