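import Pool.Agent.Work.MP_03df5c_pb.Interface8

/-!
# MP_03df5c_nt: block X8, the exact norm
-/

open Finset Filter Topology

namespace Pool.Agent.Work.MP_03df5c_pb

namespace X8x

/-- the sum over `t < 2 ^ m * 2 ^ n`, by classes modulo `2 ^ m` -/
theorem sum_classes (f : ℕ → ℚ_[2]) (a b : ℕ) :
    ∑ t ∈ range (a * b), f t = ∑ t0 ∈ range a, ∑ t' ∈ range b, f (t0 + a * t') := by
  rw [Finset.sum_comm]
  induction b with
  | zero => simp
  | succ b ih =>
    rw [Nat.mul_succ, Finset.sum_range_add, ih, Finset.sum_range_succ]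
    congr 1
    refine Finset.sum_congr rfl fun x _ => ?_
    rw [add_comm]

end X8x

open X8x

theorem p_X8 (ha : S_X8a) (hb : S_X8b) : S_X8 := by
  intro m N hm hN
  obtain ⟨n, rfl⟩ : ∃ n, N = m + n := ⟨N - m, by omega⟩
  have h2 : ((2 : ℚ_[2]) ^ m) ≠ 0 := pow_ne_zero _ (by norm_num)
  have key : ((2 : ℚ_[2]) ^ m) ^ 2 * av 2 (qx m) (m + n) =
      ∑ t0 ∈ range (2 ^ m), av 2 (fun t => (2 : ℚ_[2]) ^ m * qx m (t0 + 2 ^ m * t)) n := by
    unfold av
    rw [pow_add 2 m n, sum_classes]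
    simp only [← Finset.mul_sum]
    push_cast
    have h3 : ((2 : ℚ_[2]) ^ n) ≠ 0 := pow_ne_zero _ (by norm_num)
    rw [pow_add]
    field_simp
  have e0 : range (2 ^ m) = insert 0 ((range (2 ^ m)).erase 0) := by
    rw [Finset.insert_erase]
    exact Finset.mem_range.2 (by positivity)
  have h0 : ‖av 2 (fun t => (2 : ℚ_[2]) ^ m * qx m (0 + 2 ^ m * t)) n‖ = 1 := by
    have := ha m n hm
    simpa only [zero_add] using this
  have h1 : ‖∑ t0 ∈ (range (2 ^ m)).erase 0,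
      av 2 (fun t => (2 : ℚ_[2]) ^ m * qx m (t0 + 2 ^ m * t)) n‖ ≤ 1 / 2 := by
    apply IsUltrametricDist.norm_sum_le_of_forall_le_of_nonneg (by norm_num)
    intro t0 ht0
    rw [Finset.mem_erase, Finset.mem_range] at ht0
    exact hb m n t0 hm (by omega) ht0.2
  rw [e0, Finset.sum_insert (Finset.notMem_erase _ _)] at key
  have h4 : ‖((2 : ℚ_[2]) ^ m) ^ 2 * av 2 (qx m) (m + n)‖ = 1 := by
    rw [key, IsUltrametricDist.norm_add_eq_max_of_norm_ne_norm (by rw [h0]; intro h; rw [← h] at h1; norm_num at h1), h0]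
    exact max_eq_left (by linarith)
  have h5 : ‖((2 : ℚ_[2]) ^ m) ^ 2‖ = ((2 : ℝ) ^ (2 * m))⁻¹ := by
    rw [norm_pow, norm_pow]
    have : ‖(2 : ℚ_[2])‖ = (2 : ℝ)⁻¹ := by
      have := Padic.norm_p (p := 2)
      simpa using this
    rw [this, inv_pow, inv_pow, ← pow_mul, mul_comm]
  rw [norm_mul, h5] at h4
  have h6 : (0 : ℝ) < (2 : ℝ) ^ (2 * m) := by positivity
  field_simp at h4
  linarith

end Pool.Agent.Work.MP_03df5c_pb
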