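import Pool.Agent.Work.MP_03df5c_pb.Interface7
import Pool.Agent.Work.MP_03df5c_pb.B_V2

/-!
# Blocks W8a and W8b: the values `qq` along the progressions modulo `2 ^ m`
-/

open Finset Filter Topology

namespace Pool.Agent.Work.MP_03df5c_pb

open Pool.Agent.Work.MP_03df5c_h91

namespace W8x

/-- Norm at most `N` and Lipschitz constant at most `C`. -/
def LL (N C : ℝ) (f : ℕ → ℚ_[2]) : Prop :=
  (∀ t, ‖f t‖ ≤ N) ∧ ∀ t s : ℕ, ‖f (t + s) - f t‖ ≤ C * ‖(s : ℚ_[2])‖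

variable {N C N1 N2 C1 C2 : ℝ} {f g : ℕ → ℚ_[2]}

lemma LL.N0 (h : LL N C f) : 0 ≤ N := (norm_nonneg _).trans (h.1 0)

lemma LL.C0 (h : LL N C f) : 0 ≤ C := by
  have h1 := (norm_nonneg _).trans (h.2 0 1)
  simpa using h1

lemma LL.mono (h : LL N C f) (h1 : N ≤ N1) (h2 : C ≤ C1) : LL N1 C1 f :=
  ⟨fun t => (h.1 t).trans h1,
    fun t s => (h.2 t s).trans (mul_le_mul_of_nonneg_right h2 (norm_nonneg _))⟩

lemma LL.mul (hf : LL N1 C1 f) (hg : LL N2 C2 g) (hN : N1 * N2 ≤ N) (h1 : C1 * N2 ≤ C)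
    (h2 : N1 * C2 ≤ C) : LL N C (fun t => f t * g t) := by
  refine ⟨fun t => ?_, fun t s => ?_⟩
  · rw [norm_mul]
    exact (mul_le_mul (hf.1 t) (hg.1 t) (norm_nonneg _) hf.N0).trans hN
  · have h : f (t + s) * g (t + s) - f t * g t =
        (f (t + s) - f t) * g (t + s) + f t * (g (t + s) - g t) := by ring
    simp only
    rw [h]
    refine MP_03df5c_h91.norm_add_le_of_le ?_ ?_
    · rw [norm_mul]
      calc ‖f (t + s) - f t‖ * ‖g (t + s)‖ ≤ (C1 * ‖(s : ℚ_[2])‖) * N2 :=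
            mul_le_mul (hf.2 t s) (hg.1 _) (norm_nonneg _) (mul_nonneg hf.C0 (norm_nonneg _))
        _ = (C1 * N2) * ‖(s : ℚ_[2])‖ := by ring
        _ ≤ C * ‖(s : ℚ_[2])‖ := mul_le_mul_of_nonneg_right h1 (norm_nonneg _)
    · rw [norm_mul]
      calc ‖f t‖ * ‖g (t + s) - g t‖ ≤ N1 * (C2 * ‖(s : ℚ_[2])‖) :=
            mul_le_mul (hf.1 t) (hg.2 t s) (norm_nonneg _) hf.N0
        _ = (N1 * C2) * ‖(s : ℚ_[2])‖ := by ring
        _ ≤ C * ‖(s : ℚ_[2])‖ := mul_le_mul_of_nonneg_right h2 (norm_nonneg _)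

lemma LL.add (hf : LL N C f) (hg : LL N C g) : LL N C (fun t => f t + g t) := by
  refine ⟨fun t => MP_03df5c_h91.norm_add_le_of_le (hf.1 t) (hg.1 t), fun t s => ?_⟩
  have h : f (t + s) + g (t + s) - (f t + g t) =
      (f (t + s) - f t) + (g (t + s) - g t) := by ring
  simp only
  rw [h]
  exact MP_03df5c_h91.norm_add_le_of_le (hf.2 t s) (hg.2 t s)

lemma LL.const (c : ℚ_[2]) (hN : ‖c‖ ≤ N) (hC : 0 ≤ C) : LL N C (fun _ => c) := by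
  refine ⟨fun _ => hN, fun t s => ?_⟩
  simp only [sub_self, norm_zero]
  positivity

lemma LL.cmul (c : ℚ_[2]) (hf : LL N1 C1 f) (hN : ‖c‖ * N1 ≤ N) (hC : ‖c‖ * C1 ≤ C) :
    LL N C (fun t => c * f t) :=
  (LL.const c le_rfl le_rfl).mul hf hN (by
    have h1 : (0 : ℝ) * N1 = 0 := zero_mul _
    rw [h1]
    exact (mul_nonneg (norm_nonneg _) hf.C0).trans hC) hC

lemma LL.sub (hf : LL N C f) (hg : LL N C g) : LL N C (fun t => f t - g t) := by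
  have h := hf.add (hg.cmul (-1) (N := N) (C := C) (by simp) (by simp))
  have h1 : (fun t => f t - g t) = fun t => f t + (-1) * g t := by
    funext t
    ring
  rw [h1]
  exact h

lemma LL.sum {ι : Type*} (u : Finset ι) (F : ι → ℕ → ℚ_[2]) (hN : 0 ≤ N) (hC : 0 ≤ C)
    (h : ∀ i ∈ u, LL N C (F i)) : LL N C (fun t => ∑ i ∈ u, F i t) := by
  classical
  induction u using Finset.induction_on with
  | empty => simpa using LL.const (N := N) (C := C) 0 (by simpa using hN) hC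
  | insert a u ha ih =>
    have h1 := (h a (mem_insert_self _ _)).add (ih fun i hi => h i (mem_insert_of_mem hi))
    have h2 : (fun t => ∑ i ∈ insert a u, F i t) = fun t => F a t + ∑ i ∈ u, F i t := by
      funext t
      rw [sum_insert ha]
    rw [h2]
    exact h1

lemma LL.prod {ι : Type*} (u : Finset ι) (F : ι → ℕ → ℚ_[2]) (hC : 0 ≤ C)
    (h : ∀ i ∈ u, LL 1 C (F i)) : LL 1 C (fun t => ∏ i ∈ u, F i t) := by
  classical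
  induction u using Finset.induction_on with
  | empty => simpa using LL.const (N := 1) (C := C) 1 (by simp) hC
  | insert a u ha ih =>
    have h1 := (h a (mem_insert_self _ _)).mul (N := 1) (C := C)
      (ih fun i hi => h i (mem_insert_of_mem hi)) (by norm_num) (by simp) (by simp)
    have h2 : (fun t => ∏ i ∈ insert a u, F i t) = fun t => F a t * ∏ i ∈ u, F i t := by
      funext t
      rw [prod_insert ha]
    rw [h2]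
    exact h1

lemma LL.pow (hC : 0 ≤ C) (h : LL 1 C f) (n : ℕ) : LL 1 C (fun t => f t ^ n) := by
  have h1 := LL.prod (range n) (fun _ => f) hC (fun _ _ => h)
  simpa using h1

lemma LL.inv (hf : ∀ t, ‖f t‖ = 1) (h : LL 1 C f) : LL 1 C (fun t => (f t)⁻¹) := by
  refine ⟨fun t => by rw [norm_inv, hf, inv_one], fun t s => ?_⟩
  have h0 : ∀ t, f t ≠ 0 := fun t h0 => by
    have := hf t
    rw [h0, norm_zero] at this
    exact zero_ne_one this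
  have h1 : (f (t + s))⁻¹ - (f t)⁻¹ = (f (t + s))⁻¹ * (f t)⁻¹ * (-(f (t + s) - f t)) := by
    have h2 := h0 t
    have h3 := h0 (t + s)
    field_simp
    ring
  simp only
  rw [h1, norm_mul, norm_mul, norm_inv, norm_inv, hf, hf, norm_neg, inv_one, one_mul, one_mul]
  exact h.2 t s

lemma n2 : ‖(2 : ℚ_[2])‖ = 1 / 2 := by
  have h := Padic.norm_p (p := 2)
  rw [one_div]
  exact_mod_cast h

lemma npow (n : ℕ) : ‖(2 : ℚ_[2]) ^ n‖ = (1 / 2 : ℝ) ^ n := by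
  rw [norm_pow, n2]

lemma n4 : ‖(4 : ℚ_[2])‖ = 1 / 4 := by
  have h := npow 2
  norm_num at h ⊢
  exact h

lemma n8 : ‖(8 : ℚ_[2])‖ = 1 / 8 := by
  have h := npow 3
  norm_num at h ⊢
  exact h

lemma n16 : ‖(16 : ℚ_[2])‖ = 1 / 16 := by
  have h := npow 4
  norm_num at h ⊢
  exact h

lemma n32 : ‖(32 : ℚ_[2])‖ = 1 / 32 := by
  have h := npow 5
  norm_num at h ⊢
  exact h

lemma n128 : ‖(128 : ℚ_[2])‖ = 1 / 128 := by
  have h := npow 7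
  norm_num at h ⊢
  exact h

lemma nM {m : ℕ} (hm : 1 ≤ m) : ‖(2 : ℚ_[2]) ^ m‖ ≤ 1 / 2 := by
  rw [npow]
  exact pow_le_of_le_one (by norm_num) (by norm_num) (by omega)

lemma one_add {z : ℚ_[2]} (h : ‖z‖ < 1) : ‖1 + z‖ = 1 := by
  have h1 : ‖(1 : ℚ_[2])‖ ≠ ‖z‖ := by
    rw [norm_one]
    exact h.ne'
  rw [IsUltrametricDist.norm_add_eq_max_of_norm_ne_norm h1, norm_one, max_eq_left h.le]

lemma nat_le (n : ℕ) : ‖(n : ℚ_[2])‖ ≤ 1 := norm_natCast_le_one _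

/-- The factors `1 + a (t0 + 2 ^ m t + i)`. -/
lemma fac (a : ℚ_[2]) (ha : ‖a‖ ≤ 1 / 2) {m : ℕ} (hm : 1 ≤ m) (t0 i : ℕ) :
    (∀ t : ℕ, ‖1 + a * (((t0 + 2 ^ m * t : ℕ) : ℚ_[2]) + (i : ℚ_[2]))‖ = 1) ∧
    LL 1 (1 / 4) (fun t => 1 + a * (((t0 + 2 ^ m * t : ℕ) : ℚ_[2]) + (i : ℚ_[2]))) := by
  have h1 : ∀ t : ℕ, ‖1 + a * (((t0 + 2 ^ m * t : ℕ) : ℚ_[2]) + (i : ℚ_[2]))‖ = 1 := by
    intro t
    apply one_add
    rw [norm_mul]
    have h2 : ‖(((t0 + 2 ^ m * t : ℕ) : ℚ_[2]) + (i : ℚ_[2]))‖ ≤ 1 := by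
      have := nat_le (t0 + 2 ^ m * t + i)
      push_cast at this ⊢
      exact this
    calc ‖a‖ * ‖(((t0 + 2 ^ m * t : ℕ) : ℚ_[2]) + (i : ℚ_[2]))‖ ≤ 1 / 2 * 1 :=
          mul_le_mul ha h2 (norm_nonneg _) (by norm_num)
      _ < 1 := by norm_num
  refine ⟨h1, fun t => (h1 t).le, fun t s => ?_⟩
  have h3 : 1 + a * (((t0 + 2 ^ m * (t + s) : ℕ) : ℚ_[2]) + (i : ℚ_[2])) -
      (1 + a * (((t0 + 2 ^ m * t : ℕ) : ℚ_[2]) + (i : ℚ_[2]))) = a * (2 ^ m * (s : ℚ_[2])) := by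
    push_cast
    ring
  simp only
  rw [h3, norm_mul, norm_mul]
  calc ‖a‖ * (‖(2 : ℚ_[2]) ^ m‖ * ‖(s : ℚ_[2])‖) ≤ 1 / 2 * (1 / 2 * ‖(s : ℚ_[2])‖) := by
        refine mul_le_mul ha ?_ (by positivity) (by norm_num)
        exact mul_le_mul_of_nonneg_right (nM hm) (norm_nonneg _)
    _ = 1 / 4 * ‖(s : ℚ_[2])‖ := by ring

lemma fa {m : ℕ} (hm : 1 ≤ m) (t0 i : ℕ) :
    (∀ t : ℕ, ‖1 - 2 * (((t0 + 2 ^ m * t : ℕ) : ℚ_[2]) + (i : ℚ_[2]))‖ = 1) ∧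
    LL 1 (1 / 4) (fun t => 1 - 2 * (((t0 + 2 ^ m * t : ℕ) : ℚ_[2]) + (i : ℚ_[2]))) := by
  have h := fac (-2) (by rw [norm_neg, n2]) hm t0 i
  simpa [sub_eq_add_neg] using h

lemma fb {m : ℕ} (hm : 1 ≤ m) (t0 i : ℕ) :
    (∀ t : ℕ, ‖1 + 4 * (((t0 + 2 ^ m * t : ℕ) : ℚ_[2]) + (i : ℚ_[2]))‖ = 1) ∧
    LL 1 (1 / 4) (fun t => 1 + 4 * (((t0 + 2 ^ m * t : ℕ) : ℚ_[2]) + (i : ℚ_[2]))) :=
  fac 4 (by rw [n4]; norm_num) hm t0 i

lemma wn {m : ℕ} (hm : 1 ≤ m) (t0 t : ℕ) : ‖wq m (t0 + 2 ^ m * t)‖ = 1 := by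
  unfold wq
  rw [norm_div, norm_pow, norm_pow, norm_prod, norm_prod]
  rw [Finset.prod_congr rfl fun i _ => (fa hm t0 i).1 t,
    Finset.prod_congr rfl fun i _ => (fb hm t0 i).1 t]
  simp

lemma wl {m : ℕ} (hm : 1 ≤ m) (t0 : ℕ) : LL 1 (1 / 4) (fun t => wq m (t0 + 2 ^ m * t)) := by
  have h1 := LL.pow (by norm_num) (LL.prod (Icc 1 (2 ^ m - 1)) _ (by norm_num : (0 : ℝ) ≤ 1 / 4)
    (fun i _ => (fa hm t0 i).2)) 4
  have h2 := LL.pow (by norm_num) (LL.prod (range (2 ^ m)) _ (by norm_num : (0 : ℝ) ≤ 1 / 4)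
    (fun i _ => LL.inv (fb hm t0 i).1 (fb hm t0 i).2)) 8
  have h3 := h1.mul h2 (N := 1) (C := 1 / 4) (by norm_num) (by norm_num) (by norm_num)
  have h4 : (fun t => wq m (t0 + 2 ^ m * t)) = fun t : ℕ =>
      (∏ i ∈ (Icc 1 (2 ^ m - 1) : Finset ℕ),
        (1 - 2 * (((t0 + 2 ^ m * t : ℕ) : ℚ_[2]) + (i : ℚ_[2])))) ^ 4 *
      (∏ i ∈ range (2 ^ m), (1 + 4 * (((t0 + 2 ^ m * t : ℕ) : ℚ_[2]) + (i : ℚ_[2])))⁻¹) ^ 8 := by
    funext t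
    unfold wq
    rw [div_eq_mul_inv, ← inv_pow, ← Finset.prod_inv_distrib]
  rw [h4]
  exact h3

lemma u1l {m : ℕ} (hm : 1 ≤ m) (t0 : ℕ) :
    LL (1 / 8) (1 / 8) (fun t => U1q m (t0 + 2 ^ m * t)) := by
  have h1 := (LL.sum (N := 1) (C := 1 / 4) (Icc 1 (2 ^ m - 1)) _ (by norm_num) (by norm_num)
    (fun i _ => LL.inv (fa hm t0 i).1 (fa hm t0 i).2)).cmul (-8) (N := 1 / 8) (C := 1 / 8)
    (by rw [norm_neg, n8]; norm_num) (by rw [norm_neg, n8]; norm_num)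
  have h2 := (LL.sum (N := 1) (C := 1 / 4) (range (2 ^ m)) _ (by norm_num) (by norm_num)
    (fun i _ => LL.inv (fb hm t0 i).1 (fb hm t0 i).2)).cmul 32 (N := 1 / 8) (C := 1 / 8)
    (by rw [n32]; norm_num) (by rw [n32]; norm_num)
  exact h1.sub h2

lemma u2l {m : ℕ} (hm : 1 ≤ m) (t0 : ℕ) :
    LL (1 / 16) (1 / 16) (fun t => U2q m (t0 + 2 ^ m * t)) := by
  have h1 := (LL.sum (N := 1) (C := 1 / 4) (Icc 1 (2 ^ m - 1) : Finset ℕ)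
    (fun i t => ((1 - 2 * (((t0 + 2 ^ m * t : ℕ) : ℚ_[2]) + (i : ℚ_[2]))) ^ 2)⁻¹)
    (by norm_num) (by norm_num)
    (fun i _ => LL.inv (f := fun t : ℕ =>
      (1 - 2 * (((t0 + 2 ^ m * t : ℕ) : ℚ_[2]) + (i : ℚ_[2]))) ^ 2)
      (fun t => by rw [norm_pow, (fa hm t0 i).1, one_pow])
      (LL.pow (by norm_num) (fa hm t0 i).2 2))).cmul 16 (N := 1 / 16) (C := 1 / 16)
    (by rw [n16]; norm_num) (by rw [n16]; norm_num)
  have h2 := (LL.sum (N := 1) (C := 1 / 4) (range (2 ^ m))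
    (fun i t => ((1 + 4 * (((t0 + 2 ^ m * t : ℕ) : ℚ_[2]) + (i : ℚ_[2]))) ^ 2)⁻¹)
    (by norm_num) (by norm_num)
    (fun i _ => LL.inv (f := fun t : ℕ =>
      (1 + 4 * (((t0 + 2 ^ m * t : ℕ) : ℚ_[2]) + (i : ℚ_[2]))) ^ 2)
      (fun t => by rw [norm_pow, (fb hm t0 i).1, one_pow])
      (LL.pow (by norm_num) (fb hm t0 i).2 2))).cmul 128 (N := 1 / 16) (C := 1 / 16)
    (by rw [n128]; norm_num) (by rw [n128]; norm_num)
  exact h1.sub h2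

/-- The part with `E`. -/
lemma el {m : ℕ} (hm : 1 ≤ m) (t0 : ℕ) :
    LL (1 / 32) (1 / 32) (fun t => ((2 : ℚ_[2]) ^ m) ^ 2 *
      ((U1q m (t0 + 2 ^ m * t) ^ 2 - U2q m (t0 + 2 ^ m * t)) / 2)) := by
  have h1 := ((u1l hm t0).mul (u1l hm t0) (N := 1 / 16) (C := 1 / 16) (by norm_num) (by norm_num)
    (by norm_num)).sub (u2l hm t0)
  have hc : ‖((2 : ℚ_[2]) ^ m) ^ 2 / 2‖ ≤ 1 / 2 := by
    rw [norm_div, norm_pow, n2]
    have h2 : ‖(2 : ℚ_[2]) ^ m‖ ^ 2 ≤ (1 / 2) ^ 2 := pow_le_pow_left₀ (norm_nonneg _) (nM hm) 2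
    rw [div_le_iff₀ (by norm_num)]
    refine h2.trans ?_
    norm_num
  have h2 := h1.cmul (((2 : ℚ_[2]) ^ m) ^ 2 / 2) (N := 1 / 32) (C := 1 / 32)
    (by
      calc ‖((2 : ℚ_[2]) ^ m) ^ 2 / 2‖ * (1 / 16) ≤ 1 / 2 * (1 / 16) :=
            mul_le_mul_of_nonneg_right hc (by norm_num)
        _ = 1 / 32 := by norm_num)
    (by
      calc ‖((2 : ℚ_[2]) ^ m) ^ 2 / 2‖ * (1 / 16) ≤ 1 / 2 * (1 / 16) :=
            mul_le_mul_of_nonneg_right hc (by norm_num)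
        _ = 1 / 32 := by norm_num)
  have h3 : (fun t => ((2 : ℚ_[2]) ^ m) ^ 2 *
      ((U1q m (t0 + 2 ^ m * t) ^ 2 - U2q m (t0 + 2 ^ m * t)) / 2)) = fun t =>
      ((2 : ℚ_[2]) ^ m) ^ 2 / 2 * (U1q m (t0 + 2 ^ m * t) * U1q m (t0 + 2 ^ m * t) -
        U2q m (t0 + 2 ^ m * t)) := by
    funext t
    ring
  rw [h3]
  exact h2

/-- `z / (1 + z t)`. -/
lemma zl {z : ℚ_[2]} {c : ℝ} (hc : c < 1) (hz : ‖z‖ ≤ c) :
    LL c c (fun t => z * (1 + z * (t : ℚ_[2]))⁻¹) := by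
  have hc0 : 0 ≤ c := (norm_nonneg _).trans hz
  have h1 : ∀ t : ℕ, ‖1 + z * (t : ℚ_[2])‖ = 1 := by
    intro t
    apply one_add
    rw [norm_mul]
    exact lt_of_le_of_lt (mul_le_of_le_one_right (norm_nonneg _) (nat_le t)) (lt_of_le_of_lt hz hc)
  have h2 : LL 1 1 (fun t : ℕ => 1 + z * (t : ℚ_[2])) := by
    refine ⟨fun t => (h1 t).le, fun t s => ?_⟩
    have h3 : 1 + z * ((t + s : ℕ) : ℚ_[2]) - (1 + z * (t : ℚ_[2])) = z * (s : ℚ_[2]) := by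
      push_cast
      ring
    simp only
    rw [h3, norm_mul]
    exact mul_le_mul_of_nonneg_right (hz.trans hc.le) (norm_nonneg _)
  exact (LL.inv h1 h2).cmul z (by simpa using hz) (by simpa using hz)

lemma yl : LL 1 1 (fun t : ℕ => 1 + (t : ℚ_[2])) := by
  refine ⟨fun t => ?_, fun t s => ?_⟩
  · have := nat_le (1 + t)
    push_cast at this
    exact this
  · have h3 : 1 + ((t + s : ℕ) : ℚ_[2]) - (1 + (t : ℚ_[2])) = (s : ℚ_[2]) := by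
      push_cast
      ring
    simp only
    rw [h3, one_mul]

lemma prod_Icc {R : Type*} [CommMonoid R] (f : ℕ → R) (K : ℕ) :
    ∏ i ∈ Icc 1 K, f i = ∏ i ∈ range K, f (i + 1) := by
  induction K with
  | zero => simp
  | succ n ih =>
    rw [Finset.prod_Icc_succ_top (by omega), ih, Finset.prod_range_succ]

/-- The quotients `2 ^ m / (t0 + i)`. -/
noncomputable def zz (m t0 i : ℕ) : ℚ_[2] := (2 : ℚ_[2]) ^ m / ((t0 + i : ℕ) : ℚ_[2])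

lemma cast_ne {a : ℕ} (h : a ≠ 0) : ((a : ℕ) : ℚ_[2]) ≠ 0 := by exact_mod_cast h

lemma Aq_prod (m t0 t : ℕ) : Aq m (t0 + 2 ^ m * t) =
    Aq m t0 * ∏ i ∈ Icc 1 (2 ^ m - 1), (1 + zz m t0 i * (t : ℚ_[2])) := by
  unfold Aq
  rw [V2.choose_prod, V2.choose_prod, prod_Icc, ← Finset.prod_mul_distrib]
  apply Finset.prod_congr rfl
  intro i _
  have h1 : ((t0 : ℚ_[2]) + 1 + i) ≠ 0 := by
    have := cast_ne (a := t0 + 1 + i) (by omega)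
    push_cast at this
    exact this
  have h2 : ((i : ℚ_[2]) + 1) ≠ 0 := by exact_mod_cast Nat.succ_ne_zero i
  have h3 : zz m t0 (i + 1) = 2 ^ m / ((t0 : ℚ_[2]) + 1 + i) := by
    unfold zz
    congr 1
    push_cast
    ring
  rw [h3]
  push_cast
  field_simp
  ring

lemma inv_term (m t0 i t : ℕ) (h : t0 + i ≠ 0) :
    (2 : ℚ_[2]) ^ m * (((t0 + 2 ^ m * t : ℕ) : ℚ_[2]) + (i : ℚ_[2]))⁻¹ =
      zz m t0 i * (1 + zz m t0 i * (t : ℚ_[2]))⁻¹ := by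
  have h1 := cast_ne h
  have h2 : (((t0 + 2 ^ m * t : ℕ) : ℚ_[2]) + (i : ℚ_[2])) =
      ((t0 + i : ℕ) : ℚ_[2]) * (1 + zz m t0 i * (t : ℚ_[2])) := by
    unfold zz
    rw [mul_add, ← mul_assoc, mul_one, mul_div_cancel₀ _ h1]
    push_cast
    ring
  rw [h2, mul_inv]
  unfold zz
  ring

lemma H1_sum (m t0 t : ℕ) : (2 : ℚ_[2]) ^ m * H1q m (t0 + 2 ^ m * t) =
    ∑ i ∈ Icc 1 (2 ^ m - 1), zz m t0 i * (1 + zz m t0 i * (t : ℚ_[2]))⁻¹ := by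
  unfold H1q
  rw [Finset.mul_sum]
  apply Finset.sum_congr rfl
  intro i hi
  rw [mem_Icc] at hi
  exact inv_term m t0 i t (by omega)

lemma H2_sum (m t0 t : ℕ) : ((2 : ℚ_[2]) ^ m) ^ 2 * H2q m (t0 + 2 ^ m * t) =
    ∑ i ∈ Icc 1 (2 ^ m - 1), (zz m t0 i * (1 + zz m t0 i * (t : ℚ_[2]))⁻¹) ^ 2 := by
  unfold H2q
  rw [Finset.mul_sum]
  apply Finset.sum_congr rfl
  intro i hi
  rw [mem_Icc] at hi
  rw [← inv_term m t0 i t (by omega), mul_pow, inv_pow]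

lemma zz_le {m t0 i : ℕ} (h0 : t0 + i ≠ 0) (h : ¬ 2 ^ m ∣ t0 + i) : ‖zz m t0 i‖ ≤ 1 / 2 := by
  have h1 := V2.nrm_ge (p := 2) m (t0 + i) h
  have h2 : (0 : ℝ) < ‖((t0 + i : ℕ) : ℚ_[2])‖ := norm_pos_iff.2 (cast_ne h0)
  unfold zz
  rw [norm_div, div_le_iff₀ h2]
  push_cast at h1 ⊢
  rw [one_div]
  exact h1

lemma zz_le4 {m i : ℕ} (hm : 1 ≤ m) (h0 : i ≠ 0) (h : ¬ 2 ^ (m - 1) ∣ i) :
    ‖zz m 0 i‖ ≤ 1 / 4 := by
  have h1 := V2.nrm_ge (p := 2) (m - 1) i h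
  have h2 : (0 : ℝ) < ‖((i : ℕ) : ℚ_[2])‖ := norm_pos_iff.2 (cast_ne h0)
  unfold zz
  rw [zero_add, norm_div, div_le_iff₀ h2]
  have h3 : (2 : ℚ_[2]) ^ m = 2 * 2 ^ (m - 1) := by
    rw [← pow_succ']
    congr 1
    omega
  rw [h3, norm_mul, n2]
  push_cast at h1 ⊢
  have h4 : (1 / 2 : ℝ) * ‖(2 : ℚ_[2]) ^ (m - 1)‖ ≤ 1 / 2 * (2⁻¹ * ‖(i : ℚ_[2])‖) :=
    mul_le_mul_of_nonneg_left h1 (by norm_num)
  refine h4.trans (le_of_eq ?_)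
  ring

/-- Block V1 for functions with a Lipschitz constant. -/
lemma avl (hV1 : S_V1) (h : LL N C f) (n : ℕ) : ‖av 2 f n - f 0‖ ≤ 2 * C := by
  have h1 := hV1 2 f C h.C0 (fun t n => by
    have h2 := h.2 t (2 ^ n)
    have h3 : ‖((2 ^ n : ℕ) : ℚ_[2])‖ = (((2 : ℕ) : ℝ) ^ n)⁻¹ := by
      push_cast
      rw [npow, one_div, inv_pow]
    rwa [h3] at h2) n
  exact_mod_cast h1

/-- The values along the class of `t0`. -/
lemma val (m t0 t : ℕ) : ((2 : ℚ_[2]) ^ m) ^ 2 * qq m (t0 + 2 ^ m * t) =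
    Aq m (t0 + 2 ^ m * t) ^ 4 * wq m (t0 + 2 ^ m * t) *
      (8 * (2 ^ m * H1q m (t0 + 2 ^ m * t)) ^ 2 -
        2 * ((2 ^ m) ^ 2 * H2q m (t0 + 2 ^ m * t)) +
        4 * 2 ^ m * (2 ^ m * H1q m (t0 + 2 ^ m * t)) * U1q m (t0 + 2 ^ m * t) +
        (2 ^ m) ^ 2 * ((U1q m (t0 + 2 ^ m * t) ^ 2 - U2q m (t0 + 2 ^ m * t)) / 2)) := by
  unfold qq
  ring

end W8x

end Pool.Agent.Work.MP_03df5c_pb
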