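import Pool.Agent.Work.MP_03df5c_pb.Interface8
import Pool.Agent.Work.MP_03df5c_pb.W8x

/-!
# Blocks X8a and X8b: the unit part
-/

open Finset Filter Topology

namespace Pool.Agent.Work.MP_03df5c_pb

open Pool.Agent.Work.MP_03df5c_h91

namespace W8x

lemma fc {m : ℕ} (hm : 1 ≤ m) (t0 i : ℕ) :
    (∀ t : ℕ, ‖2 * (((t0 + 2 ^ m * t : ℕ) : ℚ_[2]) + (i : ℚ_[2])) - 1‖ = 1) ∧
    LL 1 (1 / 4) (fun t => 2 * (((t0 + 2 ^ m * t : ℕ) : ℚ_[2]) + (i : ℚ_[2])) - 1) := by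
  obtain ⟨h1, h2⟩ := fa hm t0 i
  refine ⟨fun t => ?_, ?_⟩
  · rw [← norm_neg, neg_sub]
    exact h1 t
  · have h3 := h2.cmul (-1) (N := 1) (C := 1 / 4) (by simp) (by simp)
    have h4 : (fun t : ℕ => 2 * (((t0 + 2 ^ m * t : ℕ) : ℚ_[2]) + (i : ℚ_[2])) - 1) =
        fun t : ℕ => (-1) * (1 - 2 * (((t0 + 2 ^ m * t : ℕ) : ℚ_[2]) + (i : ℚ_[2]))) := by
      funext t
      ring
    rw [h4]
    exact h3

lemma wxn {m : ℕ} (hm : 1 ≤ m) (t0 t : ℕ) : ‖wx m (t0 + 2 ^ m * t)‖ = 1 := by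
  unfold wx
  rw [norm_div, norm_pow, norm_pow, norm_prod, norm_prod]
  rw [Finset.prod_congr rfl fun i _ => (fc hm t0 i).1 t,
    Finset.prod_congr rfl fun i _ => (fb hm t0 i).1 t]
  simp

lemma wxl {m : ℕ} (hm : 1 ≤ m) (t0 : ℕ) : LL 1 (1 / 4) (fun t => wx m (t0 + 2 ^ m * t)) := by
  have h1 := LL.pow (by norm_num) (LL.prod (Icc 1 (2 ^ m - 1)) _ (by norm_num : (0 : ℝ) ≤ 1 / 4)
    (fun i _ => (fc hm t0 i).2)) 3
  have h2 := LL.pow (by norm_num) (LL.prod (range (2 ^ m)) _ (by norm_num : (0 : ℝ) ≤ 1 / 4)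
    (fun i _ => LL.inv (fb hm t0 i).1 (fb hm t0 i).2)) 6
  have h3 := h1.mul h2 (N := 1) (C := 1 / 4) (by norm_num) (by norm_num) (by norm_num)
  have h4 : (fun t => wx m (t0 + 2 ^ m * t)) = fun t : ℕ =>
      (∏ i ∈ (Icc 1 (2 ^ m - 1) : Finset ℕ),
        (2 * (((t0 + 2 ^ m * t : ℕ) : ℚ_[2]) + (i : ℚ_[2])) - 1)) ^ 3 *
      (∏ i ∈ range (2 ^ m), (1 + 4 * (((t0 + 2 ^ m * t : ℕ) : ℚ_[2]) + (i : ℚ_[2])))⁻¹) ^ 6 := by
    funext t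
    unfold wx
    rw [div_eq_mul_inv, ← inv_pow, ← Finset.prod_inv_distrib]
  rw [h4]
  exact h3

lemma n6 : ‖(6 : ℚ_[2])‖ ≤ 1 / 2 := by
  have h : (6 : ℚ_[2]) = 2 * ((3 : ℕ) : ℚ_[2]) := by norm_num
  rw [h, norm_mul, n2]
  exact mul_le_of_le_one_right (by norm_num) (nat_le 3)

lemma n24 : ‖(24 : ℚ_[2])‖ ≤ 1 / 8 := by
  have h : (24 : ℚ_[2]) = 8 * ((3 : ℕ) : ℚ_[2]) := by norm_num
  rw [h, norm_mul, n8]
  exact mul_le_of_le_one_right (by norm_num) (nat_le 3)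

lemma n3 : ‖(3 : ℚ_[2])‖ ≤ 1 := by
  have := nat_le 3
  push_cast at this
  exact this

lemma n3' : ‖(3 : ℚ_[2])‖ = 1 := by
  have h : (3 : ℚ_[2]) = 1 + 2 := by norm_num
  rw [h]
  exact one_add (by rw [n2]; norm_num)

lemma u1xl {m : ℕ} (hm : 1 ≤ m) (t0 : ℕ) :
    LL (1 / 2) (1 / 8) (fun t => U1x m (t0 + 2 ^ m * t)) := by
  have h1 := (LL.sum (N := 1) (C := 1 / 4) (Icc 1 (2 ^ m - 1)) _ (by norm_num) (by norm_num)
    (fun i _ => LL.inv (fc hm t0 i).1 (fc hm t0 i).2)).cmul 6 (N := 1 / 2) (C := 1 / 8)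
    (by have := n6; linarith) (by have := n6; linarith)
  have h2 := (LL.sum (N := 1) (C := 1 / 4) (range (2 ^ m)) _ (by norm_num) (by norm_num)
    (fun i _ => LL.inv (fb hm t0 i).1 (fb hm t0 i).2)).cmul 24 (N := 1 / 2) (C := 1 / 8)
    (by have := n24; linarith) (by have := n24; linarith)
  exact h1.sub h2

/-- Twice the linear factor. -/
noncomputable def ss (m T : ℕ) : ℚ_[2] := 1 + 4 * (T : ℚ_[2]) + 2 * ((2 ^ m - 1 : ℕ) : ℚ_[2])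

lemma ssn (m T : ℕ) : ‖ss m T‖ = 1 := by
  unfold ss
  have h1 : 1 + 4 * (T : ℚ_[2]) + 2 * ((2 ^ m - 1 : ℕ) : ℚ_[2]) =
      1 + 2 * ((2 * T + (2 ^ m - 1) : ℕ) : ℚ_[2]) := by
    rw [Nat.cast_add (2 * T)]
    push_cast
    ring
  rw [h1]
  apply one_add
  rw [norm_mul, n2]
  have := nat_le (2 * T + (2 ^ m - 1))
  linarith

lemma ssl {m : ℕ} (hm : 1 ≤ m) (t0 : ℕ) : LL 1 (1 / 8) (fun t => ss m (t0 + 2 ^ m * t)) := by
  refine ⟨fun t => (ssn m _).le, fun t s => ?_⟩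
  have h1 : ss m (t0 + 2 ^ m * (t + s)) - ss m (t0 + 2 ^ m * t) =
      4 * (2 ^ m * (s : ℚ_[2])) := by
    unfold ss
    push_cast
    ring
  simp only
  rw [h1, norm_mul, norm_mul, n4]
  calc 1 / 4 * (‖(2 : ℚ_[2]) ^ m‖ * ‖(s : ℚ_[2])‖) ≤ 1 / 4 * (1 / 2 * ‖(s : ℚ_[2])‖) := by
        refine mul_le_mul_of_nonneg_left ?_ (by norm_num)
        exact mul_le_mul_of_nonneg_right (nM hm) (norm_nonneg _)
    _ = 1 / 8 * ‖(s : ℚ_[2])‖ := by ring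

/-- `z / (1 + z t)` with the square in the Lipschitz constant. -/
lemma zl2 {z : ℚ_[2]} {c : ℝ} (hc : c < 1) (hz : ‖z‖ ≤ c) :
    LL c (c * c) (fun t => z * (1 + z * (t : ℚ_[2]))⁻¹) := by
  have hc0 : 0 ≤ c := (norm_nonneg _).trans hz
  have h1 : ∀ t : ℕ, ‖1 + z * (t : ℚ_[2])‖ = 1 := by
    intro t
    apply one_add
    rw [norm_mul]
    exact lt_of_le_of_lt (mul_le_of_le_one_right (norm_nonneg _) (nat_le t)) (lt_of_le_of_lt hz hc)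
  have h2 : LL 1 c (fun t : ℕ => 1 + z * (t : ℚ_[2])) := by
    refine ⟨fun t => (h1 t).le, fun t s => ?_⟩
    have h3 : 1 + z * ((t + s : ℕ) : ℚ_[2]) - (1 + z * (t : ℚ_[2])) = z * (s : ℚ_[2]) := by
      push_cast
      ring
    simp only
    rw [h3, norm_mul]
    exact mul_le_mul_of_nonneg_right hz (norm_nonneg _)
  exact (LL.inv h1 h2).cmul z (by simpa using hz) (mul_le_mul_of_nonneg_right hz hc0)

lemma fz {z : ℚ_[2]} {c : ℝ} (hc : c ≤ 1) (hz : ‖z‖ ≤ c) :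
    LL 1 c (fun t : ℕ => 1 + z * (t : ℚ_[2])) := by
  refine ⟨fun t => ?_, fun t s => ?_⟩
  · refine MP_03df5c_h91.norm_add_le_of_le (by simp) ?_
    rw [norm_mul]
    exact mul_le_one₀ (hz.trans hc) (norm_nonneg _) (nat_le t)
  · have h3 : 1 + z * ((t + s : ℕ) : ℚ_[2]) - (1 + z * (t : ℚ_[2])) = z * (s : ℚ_[2]) := by
      push_cast
      ring
    simp only
    rw [h3, norm_mul]
    exact mul_le_mul_of_nonneg_right hz (norm_nonneg _)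

/-- The values along the class of `t0`. -/
lemma valx (m t0 t : ℕ) : (2 : ℚ_[2]) ^ m * qx m (t0 + 2 ^ m * t) =
    Aq m (t0 + 2 ^ m * t) ^ 3 * wx m (t0 + 2 ^ m * t) *
      (2 * 2 ^ m + ss m (t0 + 2 ^ m * t) / 2 * (3 * (2 ^ m * H1q m (t0 + 2 ^ m * t)) +
        2 ^ m * U1x m (t0 + 2 ^ m * t))) := by
  unfold qx ss
  ring

end W8x

end Pool.Agent.Work.MP_03df5c_pb
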