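import Pool.Agent.Work.MP_03df5c_pb.Interface8
import Pool.Agent.Work.MP_03df5c_pb.X8x

/-!
# Block X8a: the class of `0`
-/

open Finset Filter Topology

namespace Pool.Agent.Work.MP_03df5c_pb

open Pool.Agent.Work.MP_03df5c_h91

open W8x in
theorem p_X8a (hV1 : S_V1) : S_X8a := by
  intro m n hm
  set I : Finset ℕ := Icc 1 (2 ^ m - 1) with hI
  have hpm : 2 ^ m = 2 * 2 ^ (m - 1) := by
    rw [← pow_succ']
    congr 1
    omega
  have hp1 : 1 ≤ 2 ^ (m - 1) := Nat.one_le_two_pow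
  have hi0 : 2 ^ (m - 1) ∈ I := by
    rw [hI, mem_Icc]
    omega
  set J : Finset ℕ := I.erase (2 ^ (m - 1)) with hJ
  have hz0 : zz m 0 (2 ^ (m - 1)) = 2 := by
    unfold zz
    rw [zero_add]
    have h1 : (2 : ℚ_[2]) ^ m = 2 * 2 ^ (m - 1) := by exact_mod_cast hpm
    rw [h1]
    push_cast
    exact mul_div_cancel_right₀ _ (pow_ne_zero _ two_ne_zero)
  have hzJ : ∀ i ∈ J, ‖zz m 0 i‖ ≤ 1 / 4 := by
    intro i hi
    rw [hJ, mem_erase, hI, mem_Icc] at hi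
    apply zz_le4 hm (by omega)
    intro hd
    obtain ⟨k, hk⟩ := hd
    have h1 : k < 2 := by
      by_contra h2
      have h3 : 2 ^ (m - 1) * 2 ≤ 2 ^ (m - 1) * k := Nat.mul_le_mul_left _ (by omega)
      omega
    have h4 : k = 0 ∨ k = 1 := by omega
    rcases h4 with h4 | h4
    · subst h4
      omega
    · subst h4
      omega
  set X : ℕ → ℚ_[2] := fun t => ∑ i ∈ J, zz m 0 i * (1 + zz m 0 i * (t : ℚ_[2]))⁻¹ with hX
  set U : ℕ → ℚ_[2] := fun t => ∏ i ∈ J, (1 + zz m 0 i * (t : ℚ_[2])) with hU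
  have hXl : LL (1 / 4) (1 / 16) X :=
    LL.sum J (fun i (t : ℕ) => zz m 0 i * (1 + zz m 0 i * (t : ℚ_[2]))⁻¹)
      (by norm_num) (by norm_num) (fun i hi => (zl2 (c := 1 / 4) (by norm_num) (hzJ i hi)).mono
        le_rfl (by norm_num))
  have hUl : LL 1 (1 / 4) U :=
    LL.prod J (fun i (t : ℕ) => 1 + zz m 0 i * (t : ℚ_[2])) (by norm_num)
      (fun i hi => fz (c := 1 / 4) (by norm_num) (hzJ i hi))
  have hyn : ∀ t : ℕ, ‖1 + 2 * (t : ℚ_[2])‖ = 1 := by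
    intro t
    apply one_add
    rw [norm_mul, n2]
    have := nat_le t
    linarith
  have hyl : LL 1 (1 / 2) (fun t : ℕ => 1 + 2 * (t : ℚ_[2])) :=
    fz (c := 1 / 2) (by norm_num) n2.le
  have hy2 : LL 1 (1 / 4) (fun t : ℕ => (1 + 2 * (t : ℚ_[2])) ^ 2) := by
    refine ⟨fun t => by rw [norm_pow, hyn, one_pow], fun t s => ?_⟩
    have h1 : (1 + 2 * ((t + s : ℕ) : ℚ_[2])) ^ 2 - (1 + 2 * (t : ℚ_[2])) ^ 2 =
        4 * (((2 * t + s + 1 : ℕ) : ℚ_[2]) * (s : ℚ_[2])) := by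
      push_cast
      ring
    simp only
    rw [h1, norm_mul, norm_mul, n4]
    exact mul_le_mul_of_nonneg_left (mul_le_of_le_one_left (norm_nonneg _) (nat_le _))
      (by norm_num)
  have hA0 : Aq m 0 = 1 := by simp [Aq]
  have hA : ∀ t : ℕ, Aq m (0 + 2 ^ m * t) = (1 + 2 * (t : ℚ_[2])) * U t := by
    intro t
    rw [Aq_prod, hU, ← Finset.mul_prod_erase _ _ hi0, hz0, hA0, one_mul]
  have hH1 : ∀ t : ℕ, (2 : ℚ_[2]) ^ m * H1q m (0 + 2 ^ m * t) =
      2 * (1 + 2 * (t : ℚ_[2]))⁻¹ + X t := by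
    intro t
    rw [H1_sum, hX, ← Finset.add_sum_erase _ _ hi0, hz0]
  have hg : ∀ t : ℕ, (2 : ℚ_[2]) ^ m * qx m (2 ^ m * t) =
      3 * ((ss m (0 + 2 ^ m * t) * wx m (0 + 2 ^ m * t)) *
        ((1 + 2 * (t : ℚ_[2])) ^ 2 * U t ^ 3)) +
      (((1 + 2 * (t : ℚ_[2])) ^ 3 * U t ^ 3) * wx m (0 + 2 ^ m * t)) *
        (((3 / 2) * (ss m (0 + 2 ^ m * t) * X t) + 2 * 2 ^ m) +
          (2 ^ m / 2) * (ss m (0 + 2 ^ m * t) * U1x m (0 + 2 ^ m * t))) := by
    intro t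
    have h0 := valx m 0 t
    rw [hH1, hA] at h0
    have hy : (1 + 2 * (t : ℚ_[2])) ≠ 0 := by
      intro h1
      have := hyn t
      rw [h1, norm_zero] at this
      exact zero_ne_one this
    rw [zero_add] at h0 ⊢
    rw [h0]
    generalize U1x m (2 ^ m * t) = u1
    generalize wx m (2 ^ m * t) = w
    generalize ss m (2 ^ m * t) = s
    generalize X t = x1
    generalize U t = u
    generalize (2 : ℚ_[2]) ^ m = M
    generalize (1 + 2 * (t : ℚ_[2])) = y at hy ⊢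
    field_simp
    ring
  have hs := (ssl hm 0).mono (N1 := 1) (C1 := 1 / 4) le_rfl (by norm_num)
  have hU3 : LL 1 (1 / 4) (fun t => U t ^ 3) := LL.pow (by norm_num) hUl 3
  have hmain := ((hs.mul (wxl hm 0) (N := 1) (C := 1 / 4) (by norm_num) (by norm_num)
    (by norm_num)).mul (hy2.mul hU3 (N := 1) (C := 1 / 4) (by norm_num) (by norm_num)
    (by norm_num)) (N := 1) (C := 1 / 4) (by norm_num) (by norm_num) (by norm_num)).cmul 3
    (N := 1) (C := 1 / 4) (by have := n3; linarith) (by have := n3; linarith)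
  have hy3 : LL 1 (1 / 2) (fun t : ℕ => (1 + 2 * (t : ℚ_[2])) ^ 3) :=
    LL.pow (by norm_num) hyl 3
  have hAw := (hy3.mul hU3 (N := 1) (C := 1 / 2) (by norm_num) (by norm_num) (by norm_num)).mul
    (wxl hm 0) (N := 1) (C := 1 / 2) (by norm_num) (by norm_num) (by norm_num)
  have hM2 : ‖(2 : ℚ_[2]) * 2 ^ m‖ ≤ 1 / 4 := by
    rw [norm_mul, n2]
    have := nM hm
    linarith
  have h32 : ‖(3 / 2 : ℚ_[2])‖ ≤ 2 := by
    rw [norm_div, n2]
    have := n3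
    linarith
  have hMd : ‖(2 : ℚ_[2]) ^ m / 2‖ ≤ 1 := by
    rw [norm_div, n2]
    have := nM hm
    linarith
  have hb1 := ((ssl hm 0).mul hXl (N := 1 / 4) (C := 1 / 16) (by norm_num) (by norm_num)
    (by norm_num)).cmul (3 / 2) (N := 1 / 2) (C := 1 / 4) (by linarith) (by linarith)
  have hb2 : LL (1 / 2) (1 / 4) (fun _ => (2 : ℚ_[2]) * 2 ^ m) :=
    LL.const _ (hM2.trans (by norm_num)) (by norm_num)
  have hb3 := ((ssl hm 0).mul (u1xl hm 0) (N := 1 / 2) (C := 1 / 8) (by norm_num) (by norm_num)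
    (by norm_num)).cmul (2 ^ m / 2) (N := 1 / 2) (C := 1 / 4) (by linarith) (by linarith)
  have hb := (hb1.add hb2).add hb3
  have hrest := hAw.mul hb (N := 1 / 2) (C := 1 / 4) (by norm_num) (by norm_num) (by norm_num)
  have hgl : LL 1 (1 / 4) (fun t => (2 : ℚ_[2]) ^ m * qx m (2 ^ m * t)) := by
    have h3 : (fun t => (2 : ℚ_[2]) ^ m * qx m (2 ^ m * t)) = _ := funext hg
    rw [h3]
    exact hmain.add (hrest.mono (by norm_num) le_rfl)
  have h3 := avl hV1 hgl n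
  set φ : ℕ → ℚ_[2] := fun t => (2 : ℚ_[2]) ^ m * qx m (2 ^ m * t) with hφ
  have h4 : ‖φ 0‖ = 1 := by
    have h5 : φ 0 = _ := hg 0
    have h6 := hrest.1 0
    have h7 : ‖3 * ((ss m (0 + 2 ^ m * 0) * wx m (0 + 2 ^ m * 0)) *
        ((1 + 2 * ((0 : ℕ) : ℚ_[2])) ^ 2 * U 0 ^ 3))‖ = 1 := by
      have h8 : U 0 = 1 := by simp [hU]
      rw [norm_mul, norm_mul, norm_mul, wxn hm 0 0, ssn, n3', h8]
      simp
    rw [h5, IsUltrametricDist.norm_add_eq_max_of_norm_ne_norm, h7, max_eq_left]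
    · exact h6.trans (by norm_num)
    · rw [h7]
      exact ne_of_gt (lt_of_le_of_lt h6 (by norm_num))
  have h5 : av 2 φ n = φ 0 + (av 2 φ n - φ 0) := by ring
  have h6 : ‖φ 0‖ ≠ ‖av 2 φ n - φ 0‖ := by
    rw [h4]
    exact ne_of_gt (lt_of_le_of_lt h3 (by norm_num))
  rw [h5, IsUltrametricDist.norm_add_eq_max_of_norm_ne_norm h6, h4, max_eq_left]
  exact h3.trans (by norm_num)

end Pool.Agent.Work.MP_03df5c_pb
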