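import Pool.Agent.Work.MP_03df5c_pb.Interface8
import Pool.Agent.Work.MP_03df5c_pb.X8x

/-!
# Block X8b: the other classes
-/

open Finset Filter Topology

namespace Pool.Agent.Work.MP_03df5c_pb

open Pool.Agent.Work.MP_03df5c_h91

open W8x in
theorem p_X8b (hV1 : S_V1) : S_X8b := by
  intro m n t0 hm ht ht'
  set I : Finset ℕ := Icc 1 (2 ^ m - 1) with hI
  have hi0 : 2 ^ m - t0 ∈ I := by
    rw [hI, mem_Icc]
    omega
  set J : Finset ℕ := I.erase (2 ^ m - t0) with hJ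
  have hz0 : zz m t0 (2 ^ m - t0) = 1 := by
    unfold zz
    have h1 : t0 + (2 ^ m - t0) = 2 ^ m := by omega
    rw [h1]
    push_cast
    exact div_self (pow_ne_zero _ two_ne_zero)
  have hzJ : ∀ i ∈ J, ‖zz m t0 i‖ ≤ 1 / 2 := by
    intro i hi
    rw [hJ, mem_erase, hI, mem_Icc] at hi
    apply zz_le (by omega)
    intro hd
    obtain ⟨k, hk⟩ := hd
    have h1 : k < 2 := by
      by_contra h2
      have h3 : 2 ^ m * 2 ≤ 2 ^ m * k := Nat.mul_le_mul_left _ (by omega)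
      omega
    have h4 : k = 0 ∨ k = 1 := by omega
    rcases h4 with h4 | h4
    · subst h4
      omega
    · subst h4
      omega
  set U : ℕ → ℚ_[2] := fun t => ∏ i ∈ J, (1 + zz m t0 i * (t : ℚ_[2])) with hU
  set h1 : ℕ → ℚ_[2] := fun t => ∑ i ∈ J, zz m t0 i * (1 + zz m t0 i * (t : ℚ_[2]))⁻¹ with hh1
  have hUl : LL 1 1 U :=
    LL.prod J (fun i (t : ℕ) => 1 + zz m t0 i * (t : ℚ_[2])) (by norm_num)
      (fun i hi => (fz (c := 1 / 2) (by norm_num) (hzJ i hi)).mono le_rfl (by norm_num))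
  have hh1l : LL (1 / 2) (1 / 2) h1 :=
    LL.sum J (fun i (t : ℕ) => zz m t0 i * (1 + zz m t0 i * (t : ℚ_[2]))⁻¹)
      (by norm_num) (by norm_num) (fun i hi => zl (by norm_num) (hzJ i hi))
  have hA : ∀ t : ℕ, Aq m (t0 + 2 ^ m * t) = Aq m t0 * ((1 + (t : ℚ_[2])) * U t) := by
    intro t
    rw [Aq_prod, hU, ← Finset.mul_prod_erase _ _ hi0, hz0, one_mul]
  have hH1 : ∀ t : ℕ, (2 : ℚ_[2]) ^ m * H1q m (t0 + 2 ^ m * t) =
      (1 + (t : ℚ_[2]))⁻¹ + h1 t := by
    intro t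
    rw [H1_sum, hh1, ← Finset.add_sum_erase _ _ hi0, hz0, one_mul, one_mul]
  have hc0 : ‖Aq m t0‖ ≤ 1 / 2 := by
    have h3 := V2.choose_le (p := 2) m t0 0 (by omega) ht'
    rw [mul_zero, add_zero] at h3
    unfold Aq
    rw [one_div]
    exact_mod_cast h3
  set X : ℕ → ℚ_[2] := fun t => 1 + (1 + (t : ℚ_[2])) * h1 t with hX
  have hXl : LL 1 1 X := (LL.const 1 (by simp) (by norm_num)).add
    ((yl.mul hh1l (N := 1) (C := 1) (by norm_num) (by norm_num) (by norm_num)))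
  have hyy : LL 1 1 (fun t : ℕ => (1 + (t : ℚ_[2])) * (1 + (t : ℚ_[2]))) :=
    yl.mul yl (by norm_num) (by norm_num) (by norm_num)
  have hg : ∀ t : ℕ, (2 : ℚ_[2]) ^ m * qx m (t0 + 2 ^ m * t) =
      (((Aq m t0 * U t) * (Aq m t0 * U t)) * (Aq m t0 * U t)) * wx m (t0 + 2 ^ m * t) *
      (((2 * 2 ^ m) * (((1 + (t : ℚ_[2])) * (1 + (t : ℚ_[2]))) * (1 + (t : ℚ_[2]))) +
        (3 / 2) * (ss m (t0 + 2 ^ m * t) *
          (((1 + (t : ℚ_[2])) * (1 + (t : ℚ_[2]))) * X t))) +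
        (2 ^ m / 2) * (ss m (t0 + 2 ^ m * t) *
          ((((1 + (t : ℚ_[2])) * (1 + (t : ℚ_[2]))) * (1 + (t : ℚ_[2]))) *
            U1x m (t0 + 2 ^ m * t)))) := by
    intro t
    rw [valx, hA, hH1]
    have hy : (1 + (t : ℚ_[2])) ≠ 0 := by
      have := cast_ne (a := 1 + t) (by omega)
      push_cast at this
      exact this
    simp only [hX]
    generalize U1x m (t0 + 2 ^ m * t) = u1
    generalize wx m (t0 + 2 ^ m * t) = w
    generalize ss m (t0 + 2 ^ m * t) = s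
    generalize h1 t = x1
    generalize U t = u
    generalize Aq m t0 = a
    generalize (2 : ℚ_[2]) ^ m = M
    generalize (1 + (t : ℚ_[2])) = y at hy ⊢
    field_simp
    ring
  have hAU : LL (1 / 2) (1 / 2) (fun t => Aq m t0 * U t) :=
    hUl.cmul (Aq m t0) (by simpa using hc0) (by simpa using hc0)
  have hAU3 := (hAU.mul hAU (N := 1 / 4) (C := 1 / 4) (by norm_num) (by norm_num)
    (by norm_num)).mul hAU (N := 1 / 8) (C := 1 / 8) (by norm_num) (by norm_num) (by norm_num)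
  have hAUw := hAU3.mul ((wxl hm t0).mono le_rfl (by norm_num : (1 / 4 : ℝ) ≤ 1))
    (N := 1 / 8) (C := 1 / 8) (by norm_num) (by norm_num) (by norm_num)
  have hyyy := hyy.mul yl (N := 1) (C := 1) (by norm_num) (by norm_num) (by norm_num)
  have hs := (ssl hm t0).mono (N1 := 1) (C1 := 1) le_rfl (by norm_num)
  have hM2 : ‖(2 : ℚ_[2]) * 2 ^ m‖ ≤ 1 := by
    rw [norm_mul, n2]
    have := nM hm
    linarith
  have h32 : ‖(3 / 2 : ℚ_[2])‖ ≤ 2 := by
    rw [norm_div, n2]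
    have := n3
    linarith
  have hMd : ‖(2 : ℚ_[2]) ^ m / 2‖ ≤ 1 := by
    rw [norm_div, n2]
    have := nM hm
    linarith
  have hb1 := hyyy.cmul (2 * 2 ^ m) (N := 2) (C := 2) (by linarith) (by linarith)
  have hb2 := (hs.mul (hyy.mul hXl (N := 1) (C := 1) (by norm_num) (by norm_num) (by norm_num))
    (N := 1) (C := 1) (by norm_num) (by norm_num) (by norm_num)).cmul (3 / 2)
    (N := 2) (C := 2) (by linarith) (by linarith)
  have hb3 := (hs.mul (hyyy.mul ((u1xl hm t0).mono (N1 := 1) (C1 := 1) (by norm_num)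
    (by norm_num)) (N := 1) (C := 1) (by norm_num) (by norm_num) (by norm_num))
    (N := 1) (C := 1) (by norm_num) (by norm_num) (by norm_num)).cmul (2 ^ m / 2)
    (N := 2) (C := 2) (by linarith) (by linarith)
  have hb := (hb1.add hb2).add hb3
  have hall := hAUw.mul hb (N := 1 / 4) (C := 1 / 4) (by norm_num) (by norm_num) (by norm_num)
  have hgl : LL (1 / 4) (1 / 4) (fun t => (2 : ℚ_[2]) ^ m * qx m (t0 + 2 ^ m * t)) := by
    have h3 : (fun t => (2 : ℚ_[2]) ^ m * qx m (t0 + 2 ^ m * t)) = _ := funext hg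
    rw [h3]
    exact hall
  have h3 := avl hV1 hgl n
  have h4 := hgl.1 0
  have h5 := MP_03df5c_h91.norm_add_le_of_le (C := 1 / 2) (h3.trans (by norm_num))
    (h4.trans (by norm_num))
  simpa using h5

end Pool.Agent.Work.MP_03df5c_pb
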