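import Pool.Agent.Work.MP_03df5c_pb.Interface9
import Pool.Agent.Work.MP_03df5c_pb.B_X1b

/-!
# Block Y1: the sum of the residues
-/

namespace Pool.Agent.Work.MP_03df5c_pb

theorem p_Y1 : S_Y1 := fun K s c F hs hF hlim => BX1b.res0 K s c F hs hF hlim

end Pool.Agent.Work.MP_03df5c_pb
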