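import Pool.Agent.Work.MP_03df5c_pb.Interface9

/-!
# Block Y10: `ζ(5)` is not in `ℚ(x)`
-/

open Finset Filter Topology

namespace Pool.Agent.Work.MP_03df5c_pb

open Pool.Agent.Work.MP_03df5c_h91

theorem p_Y10 (hT2 : S_T2) (hY9 : S_Y9) : S_Y10 := by
  intro hTr y hy hy0 hmem
  have hset : ({Real.pi} ∪ Set.range (fun i => zetaR ((![5] : Fin 1 → ℕ) i)) : Set ℝ) =
      {Real.pi, zetaR 5} := by
    ext x
    simp only [Set.mem_union, Set.mem_singleton_iff, Set.mem_range, Set.mem_insert_iff]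
    constructor
    · rintro (h | ⟨i, h⟩)
      · exact Or.inl h
      · fin_cases i
        exact Or.inr h.symm
    · rintro (h | h)
      · exact Or.inl h
      · exact Or.inr ⟨0, h.symm⟩
  have hodd : ∀ i, 3 ≤ (![5] : Fin 1 → ℕ) i ∧ Odd ((![5] : Fin 1 → ℕ) i) := by
    decide
  have hind : LinearIndependent ℚ
      (Fin.cons 1 (fun i => zetaP 2 ((![5] : Fin 1 → ℕ) (id i))) : Fin (1 + 1) → ℚ_[2]) := by
    rw [Fintype.linearIndependent_iff]
    intro g hg
    have h3 : g 0 • (1 : ℚ_[2]) + g 1 • zetaP 2 5 = 0 := by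
      have h := hg
      rw [Fin.sum_univ_two] at h
      exact h
    rw [Algebra.smul_def, Algebra.smul_def, mul_one] at h3
    have hg1 : g 1 = 0 := by
      by_contra hne
      refine hY9 (-(g 0 / g 1)) ?_
      have hne' : (algebraMap ℚ ℚ_[2]) (g 1) ≠ 0 := by
        rw [Ne, FaithfulSMul.algebraMap_eq_zero_iff]
        exact hne
      have e : ((-(g 0 / g 1) : ℚ) : ℚ_[2]) =
          -((algebraMap ℚ ℚ_[2]) (g 0) / (algebraMap ℚ ℚ_[2]) (g 1)) := by
        rw [← eq_ratCast (algebraMap ℚ ℚ_[2]), map_neg, map_div₀]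
      rw [e, ← neg_div, eq_div_iff hne']
      linear_combination h3
    have hg0 : g 0 = 0 := by
      rw [hg1, map_zero, zero_mul, add_zero, FaithfulSMul.algebraMap_eq_zero_iff] at h3
      exact h3
    intro i
    fin_cases i
    · exact hg0
    · exact hg1
  have hy' : y ∈ Algebra.adjoin ℚ
      ({Real.pi} ∪ Set.range (fun i => zetaR ((![5] : Fin 1 → ℕ) i)) : Set ℝ) := by
    rw [hset]
    exact hy
  have h := hT2 2 1 ![5] hodd hTr y hy' hy0 1 id hind
  rw [Fintype.linearIndependent_iff] at h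
  have h1 := h ![⟨zetaR 5, hmem⟩, -1] ?_ 1
  · exact one_ne_zero (neg_eq_zero.1 h1)
  · rw [Fin.sum_univ_two]
    change (⟨zetaR 5, hmem⟩ : IntermediateField.adjoin ℚ {Real.pi * y}) • (1 : ℝ) +
      (-1 : IntermediateField.adjoin ℚ {Real.pi * y}) • zetaR 5 = 0
    rw [neg_smul, one_smul]
    change zetaR 5 * 1 + -zetaR 5 = 0
    ring

end Pool.Agent.Work.MP_03df5c_pb
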