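import Pool.Agent.Work.MP_03df5c_pb.Interface9
import Pool.Agent.Work.MP_03df5c_pb.B_L1

/-!
# Block Y2a: partial fractions with `e` blocks replaced, without the factor `2 u + K`
-/

open Finset Filter Topology

namespace Pool.Agent.Work.MP_03df5c_pb

namespace BY2a

theorem size_one (hP4 : S_P4) (K : ℕ) (θ : ℚ) (h0 : 0 < θ) (h1 : θ < 1) :
    ∑ j ∈ range (K + 1), |(bet K θ j : ℝ)| ≤ (K : ℝ) + 1 := by
  calc ∑ j ∈ range (K + 1), |(bet K θ j : ℝ)| ≤ ∑ _j ∈ range (K + 1), (1 : ℝ) := by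
        refine Finset.sum_le_sum fun j hj => ?_
        have h := hP4 K θ h0 h1 j (by have := Finset.mem_range.1 hj; omega)
        exact_mod_cast h
    _ = (K : ℝ) + 1 := by
        rw [Finset.sum_const, Finset.card_range, nsmul_eq_mul, mul_one]
        push_cast
        ring

end BY2a

/-- Block Y2a. -/
theorem p_Y2a (hP1 : S_P1) (hP4 : S_P4) (hP5 : S_P5) (hD1 : S_D1) : S_Y2a := by
  intro K β N B hN hB e he
  have hd : ∀ n, 1 ≤ n → n ≤ K → n ∣ dd K := (hD1.2.1 K).2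
  have h1 : ∀ j ≤ K, ∃ z : ℤ, ((2 ^ (2 * K) : ℕ) : ℚ) * bh K j = z := by
    intro j _
    exact BL1.int_bet hP5 2 1 K 1 j
  have s1 : ∑ j ∈ range (K + 1), |(bh K j : ℝ)| ≤ (K : ℝ) + 1 :=
    BY2a.size_one hP4 K _ (by unfold th; norm_num) (by unfold th; norm_num)
  have hB0 : 0 ≤ B := le_trans (Finset.sum_nonneg fun j _ => abs_nonneg _) hB
  have hK0 : (0 : ℝ) ≤ (K : ℝ) := Nat.cast_nonneg K
  have e6 : (5 * ((K : ℝ) + 1)) ^ 4 ≤ (9 * ((K : ℝ) + 1)) ^ 4 := by
    refine pow_le_pow_left₀ (by positivity) ?_ 4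
    nlinarith
  rcases Nat.lt_or_ge e 4 with h4 | h4
  · have a2 := BL1.base K (dd K) _ _ _ h1 s1
    have a3 := BL1.power hP1 K (dd K) _ hd _ _ _ a2 _ _ _ h1 s1 (3 - e)
    have a4 := BL1.power hP1 K (dd K) _ hd _ _ _ a3 _ _ _ hN hB e
    have en : 1 + (3 - e) + e = 4 := by omega
    rw [en] at a4
    obtain ⟨_, _, c, hc, hi, hs⟩ := a4
    have e4 : 4 - e = (3 - e) + 1 := by omega
    refine ⟨c, ?_, ?_, ?_⟩
    · have e1 : (fun u => (sf K β u) ^ e * (sf K (bh K) u) ^ (4 - e)) = fun u => (sf K β u) ^ e *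
            ((sf K (bh K) u) ^ (3 - e) * sf K (bh K) u) := by
        funext u
        rw [e4]
        ring
      rw [e1]
      exact hc
    · intro i hin j hj
      obtain ⟨z, hz⟩ := hi i hin j hj
      refine ⟨z, ?_⟩
      rw [← hz]
      have e2 : N ^ e * 2 ^ (2 * K * (4 - e)) = 2 ^ (2 * K) * (2 ^ (2 * K)) ^ (3 - e) * N ^ e := by
        rw [e4, pow_mul, pow_add, pow_one]
        ring
      rw [e2]
    · intro i hin j hj
      have e5 : |(c i j : ℝ)| ≤ (5 * ((K : ℝ) + 1)) ^ 4 * (B ^ e * ((K : ℝ) + 1) ^ (4 - e)) := by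
        refine le_trans (hs i hin j hj) (le_of_eq ?_)
        rw [e4, pow_add, pow_one]
        push_cast
        ring
      refine le_trans e5 ?_
      exact mul_le_mul_of_nonneg_right e6 (by positivity)
  · have he4 : e = 4 := by omega
    subst he4
    have a2 := BL1.base K (dd K) _ _ _ hN hB
    have a4 := BL1.power hP1 K (dd K) _ hd _ _ _ a2 _ _ _ hN hB 3
    norm_num only at a4
    obtain ⟨_, _, c, hc, hi, hs⟩ := a4
    refine ⟨c, ?_, ?_, ?_⟩
    · have e1 : (fun u => (sf K β u) ^ 4 * (sf K (bh K) u) ^ (4 - 4)) = fun u =>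
          (sf K β u) ^ 3 * sf K β u := by
        funext u
        rw [Nat.sub_self]
        ring
      rw [e1]
      exact hc
    · intro i hin j hj
      obtain ⟨z, hz⟩ := hi i hin j hj
      refine ⟨z, ?_⟩
      rw [← hz]
      have e2 : N ^ 4 * 2 ^ (2 * K * (4 - 4)) = N * N ^ 3 := by
        rw [Nat.sub_self, mul_zero, pow_zero]
        ring
      rw [e2]
    · intro i hin j hj
      have e5 : |(c i j : ℝ)| ≤ (5 * ((K : ℝ) + 1)) ^ 4 * (B ^ 4 * ((K : ℝ) + 1) ^ (4 - 4)) := by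
        refine le_trans (hs i hin j hj) (le_of_eq ?_)
        rw [Nat.sub_self]
        push_cast
        ring
      refine le_trans e5 ?_
      exact mul_le_mul_of_nonneg_right e6 (by positivity)

end Pool.Agent.Work.MP_03df5c_pb
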