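import Pool.Agent.Work.MP_03df5c_pb.Interface9

/-!
# Block Y2b: multiplication of a partial fraction expansion by `2 u + K`
-/

open Finset Filter Topology

namespace Pool.Agent.Work.MP_03df5c_pb

theorem p_Y2b : S_Y2b := by
  intro K c F hF h0 u hu
  have h1 : ∀ j ∈ range (K + 1), (2 * u + (K : ℚ)) * ∑ i ∈ range 4, c i j / (u + (j : ℚ)) ^ (i + 1) =
      2 * c 0 j + ∑ i ∈ range 4, (((K : ℚ) - 2 * (j : ℚ)) * c i j +
        if i < 3 then 2 * c (i + 1) j else 0) / (u + (j : ℚ)) ^ (i + 1) := by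
    intro j hj
    have hx : u + (j : ℚ) ≠ 0 := hu j (by have := mem_range.1 hj; omega)
    obtain ⟨x, hxe⟩ : ∃ x, x = u + (j : ℚ) := ⟨_, rfl⟩
    have hue : 2 * u + (K : ℚ) = 2 * x + ((K : ℚ) - 2 * (j : ℚ)) := by rw [hxe]; ring
    rw [hue, ← hxe]
    rw [← hxe] at hx
    generalize (K : ℚ) - 2 * (j : ℚ) = a
    simp only [sum_range_succ, sum_range_zero, zero_add]
    norm_num
    field_simp
    ring
  show (2 * u + (K : ℚ)) * F u = _
  rw [hF u hu]
  unfold ev
  rw [mul_sum, sum_congr rfl h1, sum_add_distrib, ← mul_sum, h0, mul_zero, zero_add]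

end Pool.Agent.Work.MP_03df5c_pb
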