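import Pool.Agent.Work.MP_03df5c_pb.Interface9
import Pool.Agent.Work.MP_03df5c_pb.B_X3

/-!
# Block Y3: symmetry and the residues
-/

open Finset Filter Topology

namespace Pool.Agent.Work.MP_03df5c_pb

open Pool.Agent.Work.MP_03df5c_h91

namespace BY3

theorem th2 : th 2 1 1 = 1 / 2 := by unfold th; norm_num

theorem bh_eq (K : ℕ) : bh K = bet K (1 / 2) := by
  funext j
  unfold bh
  rw [th2]

theorem RZ_refl (K : ℕ) (u : ℚ) : RZ K (-(K : ℚ) - u) = - RZ K u := by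
  unfold RZ
  rw [bh_eq, BX3.sf_refl]
  have h1 : (1 : ℚ) - 1 / 2 = 1 / 2 := by norm_num
  rw [h1]
  ring

theorem symm_c (hP2 : S_P2) (K : ℕ) (c : ℕ → ℕ → ℚ) (hPF : PF K 4 c (RZ K)) :
    ∀ i < 4, ∀ j ≤ K, c i j = -((-1) ^ (i + 1) * c i (K - j)) := by
  refine hP2 K 4 c (fun i j => -((-1) ^ (i + 1) * c i (K - j))) 0 fun u hu => ?_
  have h1 : RZ K u = ev K 4 c u := hPF u hu
  have h2 : RZ K (-(K : ℚ) - u) = ev K 4 c (-(K : ℚ) - u) := hPF _ (BX3.good_refl K u hu)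
  rw [RZ_refl, BX3.ev_refl] at h2
  have h3 : ev K 4 (fun i j => -((-1) ^ (i + 1) * c i (K - j))) u =
      - ev K 4 (fun i j => (-1) ^ (i + 1) * c i (K - j)) u := by
    unfold ev
    rw [← Finset.sum_neg_distrib]
    refine Finset.sum_congr rfl fun j _ => ?_
    rw [← Finset.sum_neg_distrib]
    refine Finset.sum_congr rfl fun i _ => ?_
    rw [neg_div]
  rw [← h1, h3, ← h2]
  ring

theorem tends_RZ (h1b : S_X1b) (K : ℕ) :
    Tendsto (fun n : ℕ => ((n : ℚ) + 1) * RZ K ((n : ℚ) + 1)) atTop (𝓝 0) := by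
  have hq : Tendsto (fun n : ℕ => 1 / ((n : ℚ) + 1)) atTop (𝓝 0) :=
    tendsto_one_div_add_atTop_nhds_zero_nat
  have ha := h1b K (bh K)
  have h := (ha.pow 4).mul
    (((hq.pow 2).const_mul 2).add ((hq.pow 3).const_mul (K : ℚ)))
  have e0 : ((∑ j ∈ range (K + 1), bh K j) ^ 4) * (2 * (0 : ℚ) ^ 2 + (K : ℚ) * 0 ^ 3) = 0 := by
    ring
  rw [e0] at h
  refine h.congr fun n => ?_
  have hn : ((n : ℚ) + 1) ≠ 0 := by positivity
  unfold RZ
  field_simp

end BY3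

theorem p_Y3 (hP2 : S_P2) (h1 : S_Y1) (h1b : S_X1b) : S_Y3 := by
  intro K c hPF i hi hi2
  by_cases h0 : i = 0
  · subst h0
    exact h1 K 4 c (RZ K) (by norm_num) hPF (BY3.tends_RZ h1b K)
  · apply BX3.odd_sum K (c i)
    intro j hj
    have h := BY3.symm_c hP2 K c hPF i hi j hj
    have hcase : i = 1 ∨ i = 3 := by omega
    rcases hcase with rfl | rfl
    · norm_num at h ⊢
      exact h
    · norm_num at h ⊢
      exact h

end Pool.Agent.Work.MP_03df5c_pb
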