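import Pool.Agent.Work.MP_03df5c_pb.Interface9

/-!
# Block Y5: the coefficients of the linear forms for `ζ(5)`, with the saving of `PP K`
-/

open Finset Filter Topology

namespace Pool.Agent.Work.MP_03df5c_pb

open Pool.Agent.Work.MP_03df5c_h91

namespace BY5

lemma th_eq : th 2 1 1 = 1 / 2 := by
  unfold th; norm_num

lemma half (l j j' : ℕ) : (1 : ℝ) / 2 ≤ |(((1 / 2 : ℚ) + (l : ℚ) - (j : ℚ) + (j' : ℚ) : ℚ) : ℝ)| := by
  have e : (((1 / 2 : ℚ) + (l : ℚ) - (j : ℚ) + (j' : ℚ) : ℚ) : ℝ) =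
      ((1 + 2 * ((l : ℤ) - (j : ℤ) + (j' : ℤ)) : ℤ) : ℝ) / 2 := by
    push_cast; ring
  rw [e, abs_div]
  have h0 : (1 + 2 * ((l : ℤ) - (j : ℤ) + (j' : ℤ)) : ℤ) ≠ 0 := by omega
  have h1 : (1 : ℤ) ≤ |(1 + 2 * ((l : ℤ) - (j : ℤ) + (j' : ℤ)) : ℤ)| := Int.one_le_abs h0
  have h2 : (1 : ℝ) ≤ |((1 + 2 * ((l : ℤ) - (j : ℤ) + (j' : ℤ)) : ℤ) : ℝ)| := by
    rw [← Int.cast_abs]; exact_mod_cast h1
  have h4 : |(2 : ℝ)| = 2 := by norm_num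
  rw [h4]
  linarith

lemma key (hP4 : S_P4) (hP7 : S_P7) (hY2 : S_Y2) (hY5a : S_Y5a)
    (K : ℕ) (c : ℕ → ℕ → ℚ) (hc : PF K 4 c (RZ K)) (j l : ℕ) (hj : j ≤ K)
    (hl : l < j) :
    (∃ z : ℤ, ((2 ^ (8 * K) * dd K ^ 6 : ℕ) : ℚ) * TT c j l = z) ∧
      |(TT c j l : ℝ)| ≤ (9 * ((K : ℝ) + 1)) ^ 5 * ((2 * ((K : ℝ) + 1)) ^ 3 * ((K : ℝ) + 1)) := by
  have hN : ∀ j' ≤ K, ∃ z : ℤ, ((dd K * 2 ^ (2 * K) : ℕ) : ℚ) * bhh K l j j' = z := by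
    intro j' hj'
    have : Fact (Nat.Prime 2) := ⟨Nat.prime_two⟩
    obtain ⟨z, hz'⟩ := hP7 2 1 1 K (j - l) j' (by norm_num) (by norm_num) (by omega) (by omega) hj'
    refine ⟨z, ?_⟩
    rw [← hz', bhh, bh, th_eq, Nat.cast_sub hl.le]
    have e : (1 : ℚ) / 2 + (l : ℚ) - (j : ℚ) + (j' : ℚ) = 1 / 2 - ((j : ℚ) - (l : ℚ)) + (j' : ℚ) := by ring
    rw [e]
  have hB : ∑ j' ∈ range (K + 1), |(bhh K l j j' : ℝ)| ≤ 2 * ((K : ℝ) + 1) := by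
    have h3 : ∀ j' ∈ range (K + 1), |(bhh K l j j' : ℝ)| ≤ 2 := by
      intro j' hj'
      have hj'' : j' ≤ K := by rw [mem_range] at hj'; omega
      have h4 : |bet K (th 2 1 1) j'| ≤ 1 := hP4 K (th 2 1 1) (by rw [th_eq]; norm_num)
        (by rw [th_eq]; norm_num) j' hj''
      have h5 : |((bet K (th 2 1 1) j' : ℚ) : ℝ)| ≤ 1 := by exact_mod_cast h4
      have h6 := half l j j'
      rw [bhh, bh, Rat.cast_div, abs_div, div_le_iff₀ (by linarith)]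
      linarith
    calc ∑ j' ∈ range (K + 1), |(bhh K l j j' : ℝ)| ≤ ∑ _j' ∈ range (K + 1), (2 : ℝ) := sum_le_sum h3
      _ = 2 * ((K : ℝ) + 1) := by rw [sum_const, card_range, nsmul_eq_mul]; push_cast; ring
  obtain ⟨c3, hc3, hi3, hs3⟩ := hY2 K (bhh K l j) (dd K * 2 ^ (2 * K)) (2 * ((K : ℝ) + 1)) hN hB 3
    (by norm_num)
  have hT : TT c j l = c3 0 j := by
    apply hY5a K c c3 j l hl hj hc
    intro u hu
    rw [← hc3 u hu]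
    norm_num
  rw [hT]
  refine ⟨?_, ?_⟩
  · obtain ⟨z, hz3⟩ := hi3 0 (by norm_num) j hj
    refine ⟨z, ?_⟩
    rw [← hz3]
    push_cast
    have e : 8 * K = 2 * K * 3 + 2 * K * (4 - 3) := by omega
    rw [e, pow_add, pow_mul (2 : ℚ) (2 * K) 3]
    ring
  · have := hs3 0 (by norm_num) j hj
    simpa using this

lemma dvd_dd (K q : ℕ) (h1 : 1 ≤ q) (h2 : q ≤ K) : q ∣ dd K := by
  unfold dd Nat.lcmUpto
  exact Finset.dvd_lcm (f := id) (Finset.mem_Icc.2 ⟨h1, h2⟩)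

lemma PP_dvd (K : ℕ) (z : ℤ) (h : ∀ q : ℕ, q.Prime → 3 < q → q ≤ K → K < 2 * q → (q : ℤ) ∣ z) :
    (PP K : ℤ) ∣ z := by
  rw [Int.natCast_dvd, PP]
  apply Finset.prod_primes_dvd
  · intro q hq
    rw [mem_filter] at hq
    exact hq.2.1.prime
  · intro q hq
    rw [mem_filter, mem_range] at hq
    rw [← Int.natCast_dvd]
    exact h q hq.2.1 hq.2.2.2 (by omega) hq.2.2.1

lemma PP_dvd_dd (K : ℕ) : (PP K : ℤ) ∣ (dd K : ℤ) := by
  apply PP_dvd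
  intro q hq _ h2 _
  exact Int.natCast_dvd_natCast.2 (dvd_dd K q hq.one_lt.le h2)

lemma local_dvd (hYq8 : S_Yq8) (K : ℕ) (c : ℕ → ℕ → ℚ) (hc : PF K 4 c (RZ K)) (j l : ℕ) (hj : j ≤ K)
    (hl : l < j) (z : ℤ) (hz : ((2 ^ (8 * K) * dd K ^ 6 : ℕ) : ℚ) * TT c j l = z) :
    (PP K : ℤ) ∣ z := by
  apply PP_dvd
  intro q hq h3 hqK hK2
  have hfq : Fact q.Prime := ⟨hq⟩
  have h1 := hYq8 K q h3 hqK hK2 c hc j l hl hj
  have hq0 : (0 : ℝ) < q := by exact_mod_cast hq.pos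
  have h2 : ‖((z : ℤ) : ℚ_[q])‖ ≤ (q : ℝ)⁻¹ := by
    have e : ((z : ℤ) : ℚ_[q]) = (2 : ℚ_[q]) ^ (8 * K) * (dd K : ℚ_[q]) ^ 6 * ((TT c j l : ℚ) : ℚ_[q]) := by
      have h9 : ((((2 ^ (8 * K) * dd K ^ 6 : ℕ) : ℚ) * TT c j l : ℚ) : ℚ_[q]) = (((z : ℤ) : ℚ) : ℚ_[q]) := by
        rw [hz]
      rw [Rat.cast_intCast] at h9
      rw [← h9]
      push_cast
      rfl
    rw [e, norm_mul, norm_mul, norm_pow, norm_pow]
    have a1 : ‖(2 : ℚ_[q])‖ ≤ 1 := by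
      have := Padic.norm_int_le_one (p := q) 2
      exact_mod_cast this
    have a2 : ‖(dd K : ℚ_[q])‖ ≤ (q : ℝ)⁻¹ := by
      have a4 := (Padic.norm_int_le_pow_iff_dvd (p := q) (dd K : ℤ) 1).2
        (by simpa using (Int.natCast_dvd_natCast.2 (dvd_dd K q hq.one_lt.le hqK)))
      simpa [zpow_neg] using a4
    calc ‖(2 : ℚ_[q])‖ ^ (8 * K) * ‖(dd K : ℚ_[q])‖ ^ 6 * ‖((TT c j l : ℚ) : ℚ_[q])‖
        ≤ 1 * ((q : ℝ)⁻¹) ^ 6 * (q : ℝ) ^ 5 := by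
          gcongr
          exact pow_le_one₀ (norm_nonneg _) a1
      _ = (q : ℝ)⁻¹ := by field_simp
  have h4 := (Padic.norm_int_le_pow_iff_dvd (p := q) z 1).1 (by simpa [zpow_neg] using h2)
  simpa using h4

end BY5

theorem p_Y5 (hP4 : S_P4) (hP7 : S_P7) (hY2 : S_Y2) (hY5a : S_Y5a) (hYq8 : S_Yq8) :
    S_Y5 := by
  refine ⟨2 * 9 ^ 5 * 2 ^ 3, 11, fun K hK => ?_⟩
  obtain ⟨c, hc, hi, hs⟩ := hY2 K (fun _ => 0) 1 0 (fun j _ => ⟨0, by simp⟩) (by simp) 0 (by norm_num)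
  have hcR : PF K 4 c (RZ K) := fun u hu => by
    rw [← hc u hu]; unfold RZ; ring
  have hK1 : (1 : ℝ) ≤ (K : ℝ) + 1 := by
    have : (0 : ℝ) ≤ K := by positivity
    linarith
  have hxz : ∀ j l : ℕ, j ≤ K → l < j →
      ∃ z : ℤ, ((2 ^ (8 * K) * dd K ^ 6 : ℕ) : ℚ) * TT c j l = (PP K : ℚ) * z := by
    intro j l hj hl
    obtain ⟨z, hz⟩ := (BY5.key hP4 hP7 hY2 hY5a K c hcR j l hj hl).1
    obtain ⟨w, hw⟩ := BY5.local_dvd hYq8 K c hcR j l hj hl z hz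
    refine ⟨w, ?_⟩
    rw [hz, hw]
    push_cast
    ring
  have hxs : ∀ j l : ℕ, j ≤ K → l < j →
      |(TT c j l : ℝ)| ≤ (9 * ((K : ℝ) + 1)) ^ 5 * ((2 * ((K : ℝ) + 1)) ^ 3 * ((K : ℝ) + 1)) :=
    fun j l hj hl => (BY5.key hP4 hP7 hY2 hY5a K c hcR j l hj hl).2
  choose! z hzz using hxz
  refine ⟨c, hcR, ?_, ?_, ?_, ?_⟩
  · obtain ⟨P, hP⟩ := BY5.PP_dvd_dd K
    have h1 : ∀ j ∈ range (K + 1), ∃ z : ℤ, ((2 ^ (8 * K) * dd K ^ 6 : ℕ) : ℚ) * c 2 j = (PP K : ℚ) * z := by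
      intro j hj
      rw [mem_range] at hj
      obtain ⟨w, hw⟩ := hi 2 (by norm_num) j (by omega)
      refine ⟨w * (dd K : ℤ) ^ 4 * P, ?_⟩
      have hP' : (dd K : ℚ) = (PP K : ℚ) * (P : ℚ) := by exact_mod_cast congrArg (fun x : ℤ => (x : ℚ)) hP
      have e8 : 8 * K = 2 * K * (4 - 0) := by omega
      push_cast
      rw [← hw, e8]
      push_cast
      have e : (dd K : ℚ) ^ 6 = (dd K : ℚ) ^ (3 - 2) * (dd K : ℚ) ^ 4 * (dd K : ℚ) := by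
        norm_num
        ring
      rw [e]
      nth_rewrite 3 [hP']
      ring
    choose! w hw using h1
    refine ⟨∑ j ∈ range (K + 1), w j, ?_⟩
    rw [mul_sum]
    push_cast
    rw [mul_sum]
    refine sum_congr rfl fun j hj => ?_
    have := hw j hj
    push_cast at this
    exact this
  · refine ⟨-2 * ∑ j ∈ range (K + 1), ∑ l ∈ range j, z j l, ?_⟩
    unfold ratZ
    have e1 : ((2 ^ (8 * K) * dd K ^ 6 : ℕ) : ℚ) * ∑ j ∈ range (K + 1), ∑ l ∈ range j, TT c j l =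
        (PP K : ℚ) * ∑ j ∈ range (K + 1), ∑ l ∈ range j, (z j l : ℚ) := by
      rw [mul_sum, mul_sum]
      refine sum_congr rfl fun j hj => ?_
      rw [mul_sum, mul_sum]
      refine sum_congr rfl fun l hl => ?_
      rw [mem_range] at hj hl
      exact hzz j l (by omega) hl
    have e2 : ((-2 * ∑ j ∈ range (K + 1), ∑ l ∈ range j, z j l : ℤ) : ℚ) =
        -2 * ∑ j ∈ range (K + 1), ∑ l ∈ range j, (z j l : ℚ) := by
      push_cast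
      rfl
    rw [e2]
    linear_combination (-2 : ℚ) * e1
  · have h1 : ∀ j ∈ range (K + 1), |(c 2 j : ℝ)| ≤ (9 * ((K : ℝ) + 1)) ^ 5 * ((K : ℝ) + 1) ^ 4 := by
      intro j hj
      rw [mem_range] at hj
      have := hs 2 (by norm_num) j (by omega)
      simpa using this
    calc |((∑ j ∈ range (K + 1), c 2 j : ℚ) : ℝ)| = |∑ j ∈ range (K + 1), (c 2 j : ℝ)| := by
          push_cast; rfl
      _ ≤ ∑ j ∈ range (K + 1), |(c 2 j : ℝ)| := abs_sum_le_sum_abs _ _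
      _ ≤ ∑ _j ∈ range (K + 1), (9 * ((K : ℝ) + 1)) ^ 5 * ((K : ℝ) + 1) ^ 4 := sum_le_sum h1
      _ = 9 ^ 5 * ((K : ℝ) + 1) ^ 10 := by
          rw [sum_const, card_range, nsmul_eq_mul]; push_cast; ring
      _ ≤ (2 * 9 ^ 5 * 2 ^ 3) * ((K : ℝ) + 1) ^ 11 := by
          refine mul_le_mul (by norm_num) (pow_le_pow_right₀ hK1 (by norm_num)) (by positivity)
            (by norm_num)
  · unfold ratZ
    have h2 : ∀ j ∈ range (K + 1), |∑ l ∈ range j, (TT c j l : ℝ)| ≤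
        ((K : ℝ) + 1) * ((9 * ((K : ℝ) + 1)) ^ 5 * ((2 * ((K : ℝ) + 1)) ^ 3 * ((K : ℝ) + 1))) := by
      intro j hj
      rw [mem_range] at hj
      calc |∑ l ∈ range j, (TT c j l : ℝ)| ≤ ∑ l ∈ range j, |(TT c j l : ℝ)| := abs_sum_le_sum_abs _ _
        _ ≤ ∑ _l ∈ range j, (9 * ((K : ℝ) + 1)) ^ 5 *
            ((2 * ((K : ℝ) + 1)) ^ 3 * ((K : ℝ) + 1)) := by
            refine sum_le_sum fun l hl => ?_
            rw [mem_range] at hl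
            exact hxs j l (by omega) hl
        _ = (j : ℝ) * ((9 * ((K : ℝ) + 1)) ^ 5 *
            ((2 * ((K : ℝ) + 1)) ^ 3 * ((K : ℝ) + 1))) := by
            rw [sum_const, card_range, nsmul_eq_mul]
        _ ≤ _ := by
            refine mul_le_mul_of_nonneg_right ?_ (by positivity)
            have : (j : ℝ) ≤ K := by exact_mod_cast (by omega : j ≤ K)
            linarith
    have e : ((-2 * ∑ j ∈ range (K + 1), ∑ l ∈ range j, TT c j l : ℚ) : ℝ) =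
        -2 * ∑ j ∈ range (K + 1), ∑ l ∈ range j, (TT c j l : ℝ) := by
      push_cast; rfl
    rw [e, abs_mul]
    have h3 : |(-2 : ℝ)| = 2 := by norm_num
    rw [h3]
    calc 2 * |∑ j ∈ range (K + 1), ∑ l ∈ range j, (TT c j l : ℝ)|
        ≤ 2 * ∑ j ∈ range (K + 1), |∑ l ∈ range j, (TT c j l : ℝ)| :=
          mul_le_mul_of_nonneg_left (abs_sum_le_sum_abs _ _) (by norm_num)
      _ ≤ 2 * ∑ _j ∈ range (K + 1), ((K : ℝ) + 1) *
          ((9 * ((K : ℝ) + 1)) ^ 5 * ((2 * ((K : ℝ) + 1)) ^ 3 * ((K : ℝ) + 1))) :=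
          mul_le_mul_of_nonneg_left (sum_le_sum h2) (by norm_num)
      _ = (2 * 9 ^ 5 * 2 ^ 3) * ((K : ℝ) + 1) ^ 11 := by
          rw [sum_const, card_range, nsmul_eq_mul]; push_cast; ring

end Pool.Agent.Work.MP_03df5c_pb
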