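import Pool.Agent.Work.MP_03df5c_pb.Interface9

/-!
# Block Y5a: one term of the rational part as a coefficient with three blocks replaced
-/

open Finset Filter Topology

namespace Pool.Agent.Work.MP_03df5c_pb

open Pool.Agent.Work.MP_03df5c_h91

namespace BY5a

lemma th_eq : th 2 1 1 = 1 / 2 := by
  unfold th; norm_num

lemma good (K h : ℕ) : Good K (1 / 2 - (h : ℚ)) := by
  intro j _ h0
  have h1 : ((1 + 2 * ((j : ℤ) - (h : ℤ)) : ℤ) : ℚ) = 0 := by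
    push_cast; linarith
  have h2 : (1 + 2 * ((j : ℤ) - (h : ℤ)) : ℤ) = 0 := by exact_mod_cast h1
  omega

lemma zero (hP3 : S_P3) (K h : ℕ) (h1 : 1 ≤ h) (hK : h ≤ K) :
    sf K (bh K) (1 / 2 - (h : ℚ)) = 0 := by
  have e0 : sf K (bh K) (1 / 2 - (h : ℚ)) = sf K (bet K (th 2 1 1)) (1 / 2 - (h : ℚ)) := rfl
  rw [e0, (hP3 K _ (good K h)).2 (th 2 1 1)]
  have e : bin (1 / 2 - (h : ℚ) - th 2 1 1 + (K : ℚ)) K = 0 := by
    unfold bin
    have e2 : ∏ m ∈ range K, (1 / 2 - (h : ℚ) - th 2 1 1 + (K : ℚ) - (m : ℚ)) = 0 := by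
      refine prod_eq_zero (i := K - h) (mem_range.2 (by omega)) ?_
      rw [Nat.cast_sub hK, th_eq]; ring
    rw [e2, zero_div]
  rw [e, zero_mul]

lemma exists_N (K : ℕ) (β : ℕ → ℚ) : ∃ N : ℕ, ∀ j ≤ K, ∃ z : ℤ, (N : ℚ) * β j = z := by
  refine ⟨∏ j ∈ range (K + 1), (β j).den, fun j hj => ?_⟩
  have hmem : j ∈ range (K + 1) := mem_range.2 (by omega)
  refine ⟨(∏ i ∈ (range (K + 1)).erase j, ((β i).den : ℤ)) * (β j).num, ?_⟩
  rw [← mul_prod_erase _ _ hmem]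
  push_cast
  have h1 : ((β j).den : ℚ) * β j = (β j).num := by
    rw [mul_comm]; exact Rat.mul_den_eq_num (β j)
  calc ((β j).den : ℚ) * (∏ x ∈ (range (K + 1)).erase j, ((β x).den : ℚ)) * β j
      = (∏ x ∈ (range (K + 1)).erase j, ((β x).den : ℚ)) * (((β j).den : ℚ) * β j) := by ring
    _ = _ := by rw [h1]

end BY5a

open BY5a in
/-- Y5a -/
theorem p_Y5a (hP3 : S_P3) (hP9 : S_P9) (hW1 : S_W1) (hY2 : S_Y2) : S_Y5a := by
  intro K c c3 j l hl hj hc hc3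
  obtain ⟨h, hh⟩ : ∃ h, h = j - l := ⟨_, rfl⟩
  have h1 : 1 ≤ h := by omega
  have hhK : h ≤ K := by omega
  have hjl : (h : ℚ) = (j : ℚ) - (l : ℚ) := by rw [hh, Nat.cast_sub hl.le]
  set u0 : ℚ := 1 / 2 - (h : ℚ) with hu0
  have hg : Good K u0 := good K h
  have hz : sf K (bh K) u0 = 0 := zero hP3 K h h1 hhK
  have huj : u0 + (j : ℚ) = 1 / 2 + (l : ℚ) := by rw [hu0, hjl]; ring
  have hβ : (fun j' : ℕ => bh K j' / (u0 + (j' : ℚ))) = bhh K l j := by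
    funext j'
    unfold bhh
    congr 1
    rw [hu0, hjl]; ring
  obtain ⟨N, hN⟩ := exists_N K (bhh K l j)
  obtain ⟨c1, hc1, _, _⟩ := hY2 K (bhh K l j) N _ hN le_rfl 1 (by norm_num)
  obtain ⟨c2, hc2, _, _⟩ := hY2 K (bhh K l j) N _ hN le_rfl 2 (by norm_num)
  have s1 := hW1 K 4 (by norm_num) (bh K)
    (fun u => (2 * u + (K : ℚ)) * (sf K (bh K) u) ^ 3) u0 c c1 hg hz
    (by
      intro u hu
      rw [← hc u hu]
      simp only [RZ]
      ring)
    (by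
      intro u hu
      rw [← hc1 u hu, hβ]
      simp only []
      ring) 1 j hj
  have s2 := hW1 K 4 (by norm_num) (bh K)
    (fun u => (2 * u + (K : ℚ)) * (sf K (bhh K l j) u * (sf K (bh K) u) ^ 2)) u0 c1 c2 hg hz
    (by
      intro u hu
      rw [← hc1 u hu]
      simp only []
      ring)
    (by
      intro u hu
      rw [← hc2 u hu, hβ]
      simp only []
      ring) 0 j hj
  have s3 := hP9 K 4 (by norm_num) (bh K)
    (fun u => (2 * u + (K : ℚ)) * ((sf K (bhh K l j) u) ^ 2 * sf K (bh K) u)) u0 c2 c3 hg hz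
    (by
      intro u hu
      rw [← hc2 u hu]
      simp only []
      ring)
    (by
      intro u hu
      rw [← hc3 u hu, hβ]
      simp only []
      ring) j hj
  rw [← s3]
  unfold TT
  rw [huj] at s1 s2 s3
  have e1 : ∀ i : ℕ, i + 1 + 1 = i + 2 := fun i => rfl
  have e2 : ∀ i : ℕ, i + 1 + 2 = i + 3 := fun i => rfl
  simp only [Nat.add_zero, Nat.choose_zero_right, Nat.zero_add, Nat.cast_one, one_mul] at s1 s2
  rw [huj]
  calc ∑ i ∈ range 4, ((i + 2).choose 2 : ℚ) * c i j / (1 / 2 + (l : ℚ)) ^ (i + 3)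
      = ∑ i ∈ range 4, ((i + 1).choose 1 : ℚ) * c1 i j / (1 / 2 + (l : ℚ)) ^ (i + 2) := s1
    _ = ∑ i ∈ range 4, c2 i j / (1 / 2 + (l : ℚ)) ^ (i + 1) := s2

end Pool.Agent.Work.MP_03df5c_pb
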