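import Pool.Agent.Work.MP_03df5c_pb.Interface9

/-! # Block Y6 (helper92): the limits of the averages of `(1/2 + t)^(1-k)`, `p = 2`, `k` odd. -/

open Finset Filter Topology

namespace Pool.Agent.Work.MP_03df5c_pb

open Pool.Agent.Work.MP_03df5c_h91

namespace BY6

lemma range2 {M : Type*} [AddCommMonoid M] (G : ℕ → M) (m : ℕ) :
    ∑ n ∈ range (2 * m), G n = ∑ t ∈ range m, (G (2 * t) + G (2 * t + 1)) := by
  induction m with
  | zero => simp
  | succ m ih =>
    rw [sum_range_succ, ← ih, show 2 * (m + 1) = 2 * m + 1 + 1 by ring, sum_range_succ,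
      sum_range_succ]
    simp only [add_assoc]

lemma odd_sum (e N : ℕ) :
    invPowSum 2 e (N + 1) = ∑ t ∈ range (2 ^ N), (((1 + 2 * t : ℕ) : ℚ_[2]) ^ e)⁻¹ := by
  unfold invPowSum
  rw [sum_filter, show 2 ^ (N + 1) = 2 * 2 ^ N by ring, range2]
  refine sum_congr rfl fun t _ => ?_
  rw [if_neg (by omega), if_pos (by omega), zero_add, Nat.add_comm (2 * t) 1]

end BY6

open BY6 in
theorem p_Y6 : S_Y6 := by
  intro k hk hk3
  obtain ⟨e, rfl⟩ : ∃ e, k = e + 1 := ⟨k - 1, by omega⟩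
  rw [Nat.add_sub_cancel]
  have hkk := tendsto_klSum 2 (k := e + 1) (by omega)
  have hkl := kubotaLeopoldt_eq (p := 2) (k := e + 1) (by omega)
  set L := limUnder atTop (klSum 2 (e + 1)) with hL
  have hu : Tendsto (fun N => klSum 2 (e + 1) (N + 1)) atTop (𝓝 L) :=
    (tendsto_add_atTop_iff_nat 1).2 hkk
  have hav : ∀ N, av 2 (fun t => ((xa 2 1 1 t) ^ e)⁻¹) N =
      (2 : ℚ_[2]) ^ (e + 1) * klSum 2 (e + 1) (N + 1) := by
    intro N
    have hx : ∀ t, ((xa 2 1 1 t) ^ e)⁻¹ =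
        (2 : ℚ_[2]) ^ e * (((1 + 2 * t : ℕ) : ℚ_[2]) ^ e)⁻¹ := by
      intro t
      have e1 : xa 2 1 1 t = ((1 + 2 * t : ℕ) : ℚ_[2]) / 2 := by
        unfold xa
        push_cast
        ring
      rw [e1, div_pow, inv_div, div_eq_mul_inv]
    have hkls : klSum 2 (e + 1) (N + 1) = ((2 : ℚ_[2]) ^ (N + 1))⁻¹ * invPowSum 2 e (N + 1) := by
      unfold klSum
      rw [Nat.add_sub_cancel]
      norm_cast
    have hA : ∑ t ∈ range (2 ^ N), ((xa 2 1 1 t) ^ e)⁻¹ =
        (2 : ℚ_[2]) ^ e * invPowSum 2 e (N + 1) := by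
      rw [odd_sum, mul_sum]
      exact sum_congr rfl fun t _ => hx t
    unfold av
    rw [hA, hkls]
    have hpN : (2 : ℚ_[2]) ^ N ≠ 0 := pow_ne_zero _ (by norm_num)
    push_cast
    rw [pow_succ, pow_succ]
    field_simp
  have hlim := hu.const_mul ((2 : ℚ_[2]) ^ (e + 1))
  refine (hlim.congr fun N => (hav N).symm).trans (le_of_eq ?_)
  congr 1
  rw [hkl]
  have he0 : (e : ℚ_[2]) ≠ 0 := by
    have : e ≠ 0 := by omega
    exact_mod_cast this
  push_cast
  rw [add_sub_cancel_right]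
  field_simp

end Pool.Agent.Work.MP_03df5c_pb
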