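import Pool.Agent.Work.MP_03df5c_pb.Interface9
import Pool.Agent.Work.MP_03df5c_pb.B_N2b

/-!
# Block Y7q: minus the derivative in `ℚ_2`
-/

set_option autoImplicit false

open Finset Filter Topology

namespace Pool.Agent.Work.MP_03df5c_pb

namespace BY7q

theorem th_eq (t : ℕ) : th 2 1 1 + (t : ℚ) = 1 / 2 + (t : ℚ) := by
  unfold th
  norm_num

theorem th1_eq : th 2 1 1 = 1 / 2 := by
  unfold th
  norm_num

theorem good (K t : ℕ) : Good K (1 / 2 + (t : ℚ)) := by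
  intro j _
  positivity

theorem prod_den (K t : ℕ) : ∏ j ∈ range (K + 1), (1 / 2 + (t : ℚ) + (j : ℚ)) =
    (∏ j ∈ range (K + 1), (1 + 2 * ((t : ℚ) + (j : ℚ)))) / 2 ^ (K + 1) := by
  have h : ∀ j : ℕ, (1 / 2 + (t : ℚ) + (j : ℚ)) = (1 + 2 * ((t : ℚ) + (j : ℚ))) / 2 := by
    intro j; ring
  simp only [h]
  rw [Finset.prod_div_distrib, Finset.prod_const, Finset.card_range]

theorem bl_eq (h3 : S_P3) (K t : ℕ) : (sf K (bh K) (1 / 2 + (t : ℚ))) ^ 4 =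
    (K.factorial : ℚ) ^ 4 * 2 ^ (4 * (K + 1)) * ((((t + K).choose K : ℕ) : ℚ) ^ 4 *
      ((∏ j ∈ range (K + 1), (1 + 2 * ((t : ℚ) + (j : ℚ)))) ^ 4)⁻¹) := by
  have hg := good K t
  have hp : (∏ j ∈ range (K + 1), (1 + 2 * ((t : ℚ) + (j : ℚ)))) ≠ 0 := by
    rw [Finset.prod_ne_zero_iff]
    intro j _
    positivity
  have hf : (K.factorial : ℚ) ≠ 0 := by exact_mod_cast K.factorial_ne_zero
  have h2 : sf K (bh K) (1 / 2 + (t : ℚ)) = sf K (bet K (th 2 1 1)) (1 / 2 + (t : ℚ)) := rfl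
  rw [h2, (h3 K _ hg).2, th1_eq, prod_den,
    show 1 / 2 + (t : ℚ) - 1 / 2 + K = (t : ℚ) + K by ring, BN2b.bin_choose]
  obtain ⟨P, hP⟩ : ∃ P, P = ∏ j ∈ range (K + 1), (1 + 2 * ((t : ℚ) + (j : ℚ))) := ⟨_, rfl⟩
  rw [← hP]
  rw [← hP] at hp
  have e2 : (2 : ℚ) ^ (4 * (K + 1)) = (2 ^ (K + 1)) ^ 4 := by
    rw [mul_comm 4, pow_mul]
  rw [e2]
  field_simp

theorem cast_fac (K t : ℕ) :
    (((∑ i ∈ (Icc 1 K : Finset ℕ), 4 / ((t : ℚ) + (i : ℚ)) -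
        ∑ j ∈ range (K + 1), 4 / (1 / 2 + (t : ℚ) + (j : ℚ)) : ℚ)) : ℚ_[2]) =
      4 * ∑ i ∈ (Icc 1 K : Finset ℕ), ((t : ℚ_[2]) + (i : ℚ_[2]))⁻¹ +
      (-8 * ∑ j ∈ range (K + 1), (1 + 2 * ((t : ℚ_[2]) + (j : ℚ_[2])))⁻¹) := by
  have e2 : ∀ j : ℕ, (4 : ℚ_[2]) / (1 / 2 + (t : ℚ_[2]) + (j : ℚ_[2])) =
      8 * (1 + 2 * ((t : ℚ_[2]) + (j : ℚ_[2])))⁻¹ := by
    intro j
    obtain ⟨x, hx⟩ : ∃ x, x = 1 + 2 * ((t : ℚ_[2]) + (j : ℚ_[2])) := ⟨_, rfl⟩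
    have : 1 / 2 + (t : ℚ_[2]) + (j : ℚ_[2]) = x * (1 / 2) := by rw [hx]; ring
    rw [this, ← hx]
    ring
  push_cast
  simp only [e2, ← Finset.mul_sum, div_eq_mul_inv (4 : ℚ_[2])]
  ring

end BY7q

/-- Y7q, from Y7 and P3 -/
theorem p_Y7q (hY7 : S_Y7) (hP3 : S_P3) : S_Y7q := by
  intro m c hc t
  have hpos : 0 < 2 ^ m := by positivity
  have hK : 2 ^ m - 1 + 1 = 2 ^ m := by omega
  have hKq : ((2 ^ m - 1 : ℕ) : ℚ) = 2 ^ m - 1 := by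
    rw [Nat.cast_sub (by omega)]
    push_cast
    ring
  have e1 : 2 * (1 / 2 + (t : ℚ)) + ((2 ^ m - 1 : ℕ) : ℚ) = 2 * (t : ℚ) + 2 ^ m := by
    rw [hKq]
    ring
  unfold vv
  rw [BY7q.th_eq, hY7 _ c hc t, BY7q.bl_eq hP3, e1, Rat.cast_mul, Rat.cast_add, Rat.cast_mul,
    BY7q.cast_fac]
  unfold qz Aq wz H1q U1z
  rw [hK]
  push_cast
  ring

end Pool.Agent.Work.MP_03df5c_pb
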