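import Pool.Agent.Work.MP_03df5c_pb.Interface9
import Pool.Agent.Work.MP_03df5c_pb.X8x

/-!
# Block Y8: the unit part
-/

open Finset Filter Topology

namespace Pool.Agent.Work.MP_03df5c_pb

open Pool.Agent.Work.MP_03df5c_h91

namespace W8x

lemma fd {m : ℕ} (hm : 1 ≤ m) (t0 i : ℕ) :
    (∀ t : ℕ, ‖1 + 2 * (((t0 + 2 ^ m * t : ℕ) : ℚ_[2]) + (i : ℚ_[2]))‖ = 1) ∧
    LL 1 (1 / 4) (fun t => 1 + 2 * (((t0 + 2 ^ m * t : ℕ) : ℚ_[2]) + (i : ℚ_[2]))) :=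
  fac 2 n2.le hm t0 i

lemma wzn {m : ℕ} (hm : 1 ≤ m) (t0 t : ℕ) : ‖wz m (t0 + 2 ^ m * t)‖ = 1 := by
  unfold wz
  rw [norm_inv, norm_pow, norm_prod]
  rw [Finset.prod_congr rfl fun i _ => (fd hm t0 i).1 t]
  simp

lemma wzl {m : ℕ} (hm : 1 ≤ m) (t0 : ℕ) : LL 1 (1 / 4) (fun t => wz m (t0 + 2 ^ m * t)) := by
  have h1 := LL.pow (by norm_num) (LL.prod (range (2 ^ m))
    (fun (j t : ℕ) => (1 + 2 * (((t0 + 2 ^ m * t : ℕ) : ℚ_[2]) + (j : ℚ_[2]))))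
    (by norm_num : (0 : ℝ) ≤ 1 / 4) (fun i _ => (fd hm t0 i).2)) 4
  refine LL.inv (fun t => ?_) h1
  rw [norm_pow, norm_prod, Finset.prod_congr rfl fun i _ => (fd hm t0 i).1 t]
  simp

lemma u1zl {m : ℕ} (hm : 1 ≤ m) (t0 : ℕ) :
    LL (1 / 8) (1 / 8) (fun t => U1z m (t0 + 2 ^ m * t)) :=
  (LL.sum (N := 1) (C := 1 / 4) (range (2 ^ m)) _ (by norm_num) (by norm_num)
    (fun i _ => LL.inv (fd hm t0 i).1 (fd hm t0 i).2)).cmul (-8) (N := 1 / 8) (C := 1 / 8)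
    (by rw [norm_neg, n8]; norm_num) (by rw [norm_neg, n8]; norm_num)

lemma n10 : ‖(10 : ℚ_[2])‖ = 1 / 2 := by
  have h : (10 : ℚ_[2]) = 2 * (1 + 4) := by norm_num
  have h4 : ‖(1 : ℚ_[2]) + 4‖ = 1 := one_add (by rw [n4]; norm_num)
  rw [h, norm_mul, n2, h4, mul_one]

/-- The coefficient of the class of `t0`. -/
lemma coef (m t0 : ℕ) (h0 : 1 ≤ t0) :
    (2 : ℚ_[2]) ^ m * (((t0 + (2 ^ m - 1)).choose (t0 - 1) : ℕ) : ℚ_[2]) =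
      (t0 : ℚ_[2]) * Aq m t0 := by
  have hM : 1 ≤ 2 ^ m := Nat.one_le_two_pow
  obtain ⟨k, hk⟩ : ∃ k, t0 = k + 1 := ⟨t0 - 1, by omega⟩
  have h1 := Nat.choose_succ_right_eq (t0 + (2 ^ m - 1)) k
  have h2 : (t0 + (2 ^ m - 1)).choose (2 ^ m - 1) = (t0 + (2 ^ m - 1)).choose (k + 1) := by
    rw [← hk]
    exact (Nat.choose_symm_add).symm
  have h3 : t0 + (2 ^ m - 1) - k = 2 ^ m := by omega
  rw [h3, ← h2] at h1
  have h4 : t0 - 1 = k := by omega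
  unfold Aq
  rw [h4]
  have h5 : 2 ^ m * (t0 + (2 ^ m - 1)).choose k = t0 * (t0 + (2 ^ m - 1)).choose (2 ^ m - 1) := by
    rw [mul_comm, ← h1, hk]
    ring
  exact_mod_cast h5

end W8x

end Pool.Agent.Work.MP_03df5c_pb
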