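import Pool.Agent.Work.MP_03df5c_pb.Interface9
import Pool.Agent.Work.MP_03df5c_pb.Y8x

/-!
# Block Y8a: the class of `0`
-/

open Finset Filter Topology

namespace Pool.Agent.Work.MP_03df5c_pb

open Pool.Agent.Work.MP_03df5c_h91

open W8x in
theorem p_Y8a (hV1 : S_V1) : S_Y8a := by
  intro m n hm
  set I : Finset ℕ := Icc 1 (2 ^ m - 1) with hI
  have hpm : 2 ^ m = 2 * 2 ^ (m - 1) := by
    rw [← pow_succ']
    congr 1
    omega
  have hp1 : 1 ≤ 2 ^ (m - 1) := Nat.one_le_two_pow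
  have hi0 : 2 ^ (m - 1) ∈ I := by
    rw [hI, mem_Icc]
    omega
  set J : Finset ℕ := I.erase (2 ^ (m - 1)) with hJ
  have hz0 : zz m 0 (2 ^ (m - 1)) = 2 := by
    unfold zz
    rw [zero_add]
    have h1 : (2 : ℚ_[2]) ^ m = 2 * 2 ^ (m - 1) := by exact_mod_cast hpm
    rw [h1]
    push_cast
    exact mul_div_cancel_right₀ _ (pow_ne_zero _ two_ne_zero)
  have hzJ : ∀ i ∈ J, ‖zz m 0 i‖ ≤ 1 / 4 := by
    intro i hi
    rw [hJ, mem_erase, hI, mem_Icc] at hi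
    apply zz_le4 hm (by omega)
    intro hd
    obtain ⟨k, hk⟩ := hd
    have h1 : k < 2 := by
      by_contra h2
      have h3 : 2 ^ (m - 1) * 2 ≤ 2 ^ (m - 1) * k := Nat.mul_le_mul_left _ (by omega)
      omega
    have h4 : k = 0 ∨ k = 1 := by omega
    rcases h4 with h4 | h4
    · subst h4
      omega
    · subst h4
      omega
  set X : ℕ → ℚ_[2] := fun t => ∑ i ∈ J, zz m 0 i * (1 + zz m 0 i * (t : ℚ_[2]))⁻¹ with hX
  set P : ℕ → ℚ_[2] := fun t => Aq m (0 + 2 ^ m * t) ^ 2 with hP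
  have hXl : LL (1 / 4) (1 / 16) X :=
    LL.sum J (fun i (t : ℕ) => zz m 0 i * (1 + zz m 0 i * (t : ℚ_[2]))⁻¹)
      (by norm_num) (by norm_num) (fun i hi => (zl2 (c := 1 / 4) (by norm_num) (hzJ i hi)).mono
        le_rfl (by norm_num))
  have hyn : ∀ t : ℕ, ‖1 + 2 * (t : ℚ_[2])‖ = 1 := by
    intro t
    apply one_add
    rw [norm_mul, n2]
    have := nat_le t
    linarith
  have hyl : LL 1 (1 / 2) (fun t : ℕ => 1 + 2 * (t : ℚ_[2])) :=
    fz (c := 1 / 2) (by norm_num) n2.le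
  have hPl : LL 1 (1 / 4) P := by
    have h1 := V2.lip_sq (p := 2) m
    refine ⟨fun t => ?_, fun t s => ?_⟩
    · simp only [hP]
      rw [zero_add]
      exact h1.1 t
    · simp only [hP]
      rw [zero_add, zero_add]
      have h2 := h1.2 t s
      have h3 : (((2 : ℕ) : ℝ)⁻¹ * ((2 : ℕ) : ℝ)⁻¹) = 1 / 4 := by norm_num
      rw [h3] at h2
      exact h2
  have hH1 : ∀ t : ℕ, (2 : ℚ_[2]) ^ m * H1q m (0 + 2 ^ m * t) =
      2 * (1 + 2 * (t : ℚ_[2]))⁻¹ + X t := by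
    intro t
    rw [H1_sum, hX, ← Finset.add_sum_erase _ _ hi0, hz0]
  have hg : ∀ t : ℕ, qz m (2 ^ m * t) =
      10 * ((P t * P t) * wz m (0 + 2 ^ m * t)) +
      ((P t * P t) * wz m (0 + 2 ^ m * t)) *
        (4 * ((1 + 2 * (t : ℚ_[2])) * X t) +
          2 ^ m * ((1 + 2 * (t : ℚ_[2])) * U1z m (0 + 2 ^ m * t))) := by
    intro t
    have hy : (1 + 2 * (t : ℚ_[2])) ≠ 0 := by
      intro h1
      have := hyn t
      rw [h1, norm_zero] at this
      exact zero_ne_one this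
    have h1 := hH1 t
    have h2 : (2 * ((2 ^ m * t : ℕ) : ℚ_[2]) + 2 ^ m) = 2 ^ m * (1 + 2 * (t : ℚ_[2])) := by
      push_cast
      ring
    have h3 : qz m (2 ^ m * t) = Aq m (2 ^ m * t) ^ 4 * wz m (2 ^ m * t) *
        (2 + (1 + 2 * (t : ℚ_[2])) * (4 * (2 ^ m * H1q m (2 ^ m * t)) +
          2 ^ m * U1z m (2 ^ m * t))) := by
      unfold qz
      rw [h2]
      ring
    simp only [hP]
    rw [zero_add] at h1 ⊢
    rw [h3, h1]
    have h4 : (1 + 2 * (t : ℚ_[2])) * (4 * (2 * (1 + 2 * (t : ℚ_[2]))⁻¹ + X t) +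
          2 ^ m * U1z m (2 ^ m * t)) = 8 * ((1 + 2 * (t : ℚ_[2])) * (1 + 2 * (t : ℚ_[2]))⁻¹) +
          (4 * ((1 + 2 * (t : ℚ_[2])) * X t) +
          2 ^ m * ((1 + 2 * (t : ℚ_[2])) * U1z m (2 ^ m * t))) := by ring
    rw [h4, mul_inv_cancel₀ hy]
    ring
  have hPw := (hPl.mul hPl (N := 1) (C := 1 / 4) (by norm_num) (by norm_num) (by norm_num)).mul
    (wzl hm 0) (N := 1) (C := 1 / 4) (by norm_num) (by norm_num) (by norm_num)
  have hmain := hPw.cmul 10 (N := 1 / 2) (C := 1 / 8) (by rw [n10]; norm_num)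
    (by rw [n10]; norm_num)
  have hb1 := (hyl.mul hXl (N := 1 / 4) (C := 1 / 8) (by norm_num) (by norm_num)
    (by norm_num)).cmul 4 (N := 1 / 16) (C := 1 / 16) (by rw [n4]; norm_num)
    (by rw [n4]; norm_num)
  have hMn := nM hm
  have hb2 := (hyl.mul (u1zl hm 0) (N := 1 / 8) (C := 1 / 8) (by norm_num) (by norm_num)
    (by norm_num)).cmul (2 ^ m) (N := 1 / 16) (C := 1 / 16) (by linarith) (by linarith)
  have hrest := hPw.mul (hb1.add hb2) (N := 1 / 16) (C := 1 / 8) (by norm_num) (by norm_num)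
    (by norm_num)
  have hgl : LL (1 / 2) (1 / 8) (fun t => qz m (2 ^ m * t)) := by
    have h3 : (fun t => qz m (2 ^ m * t)) = _ := funext hg
    rw [h3]
    exact hmain.add (hrest.mono (by norm_num) le_rfl)
  have h3 := avl hV1 hgl n
  set φ : ℕ → ℚ_[2] := fun t => qz m (2 ^ m * t) with hφ
  have h4 : ‖φ 0‖ = 1 / 2 := by
    have h5 : φ 0 = _ := hg 0
    have h6 := hrest.1 0
    have h7 : ‖10 * ((P 0 * P 0) * wz m (0 + 2 ^ m * 0))‖ = 1 / 2 := by
      have h8 : P 0 = 1 := by simp [hP, Aq]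
      rw [norm_mul, norm_mul, wzn hm 0 0, n10, h8]
      simp
    rw [h5, IsUltrametricDist.norm_add_eq_max_of_norm_ne_norm, h7, max_eq_left]
    · exact h6.trans (by norm_num)
    · rw [h7]
      exact ne_of_gt (lt_of_le_of_lt h6 (by norm_num))
  have h5 : av 2 φ n = φ 0 + (av 2 φ n - φ 0) := by ring
  have h6 : ‖φ 0‖ ≠ ‖av 2 φ n - φ 0‖ := by
    rw [h4]
    exact ne_of_gt (lt_of_le_of_lt h3 (by norm_num))
  rw [h5, IsUltrametricDist.norm_add_eq_max_of_norm_ne_norm h6, h4, max_eq_left]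
  exact h3.trans (by norm_num)

end Pool.Agent.Work.MP_03df5c_pb
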