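import Pool.Agent.Work.MP_03df5c_pb.Interface9
import Pool.Agent.Work.MP_03df5c_pb.Y8x

/-!
# Block Y8b: the other classes
-/

open Finset Filter Topology

namespace Pool.Agent.Work.MP_03df5c_pb

open Pool.Agent.Work.MP_03df5c_h91

open W8x in
theorem p_Y8b (hV1 : S_V1) : S_Y8b := by
  intro m n t0 hm ht ht'
  set I : Finset ℕ := Icc 1 (2 ^ m - 1) with hI
  have hi0 : 2 ^ m - t0 ∈ I := by
    rw [hI, mem_Icc]
    omega
  set J : Finset ℕ := I.erase (2 ^ m - t0) with hJ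
  have hz0 : zz m t0 (2 ^ m - t0) = 1 := by
    unfold zz
    have h1 : t0 + (2 ^ m - t0) = 2 ^ m := by omega
    rw [h1]
    push_cast
    exact div_self (pow_ne_zero _ two_ne_zero)
  have hzJ : ∀ i ∈ J, ‖zz m t0 i‖ ≤ 1 / 2 := by
    intro i hi
    rw [hJ, mem_erase, hI, mem_Icc] at hi
    apply zz_le (by omega)
    intro hd
    obtain ⟨k, hk⟩ := hd
    have h1 : k < 2 := by
      by_contra h2
      have h3 : 2 ^ m * 2 ≤ 2 ^ m * k := Nat.mul_le_mul_left _ (by omega)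
      omega
    have h4 : k = 0 ∨ k = 1 := by omega
    rcases h4 with h4 | h4
    · subst h4
      omega
    · subst h4
      omega
  set U : ℕ → ℚ_[2] := fun t => ∏ i ∈ J, (1 + zz m t0 i * (t : ℚ_[2])) with hU
  set h1 : ℕ → ℚ_[2] := fun t => ∑ i ∈ J, zz m t0 i * (1 + zz m t0 i * (t : ℚ_[2]))⁻¹ with hh1
  have hUl : LL 1 1 U :=
    LL.prod J (fun i (t : ℕ) => 1 + zz m t0 i * (t : ℚ_[2])) (by norm_num)
      (fun i hi => (fz (c := 1 / 2) (by norm_num) (hzJ i hi)).mono le_rfl (by norm_num))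
  have hh1l : LL (1 / 2) (1 / 2) h1 :=
    LL.sum J (fun i (t : ℕ) => zz m t0 i * (1 + zz m t0 i * (t : ℚ_[2]))⁻¹)
      (by norm_num) (by norm_num) (fun i hi => zl (by norm_num) (hzJ i hi))
  have hA : ∀ t : ℕ, Aq m (t0 + 2 ^ m * t) = Aq m t0 * ((1 + (t : ℚ_[2])) * U t) := by
    intro t
    rw [Aq_prod, hU, ← Finset.mul_prod_erase _ _ hi0, hz0, one_mul]
  have hH1 : ∀ t : ℕ, (2 : ℚ_[2]) ^ m * H1q m (t0 + 2 ^ m * t) =
      (1 + (t : ℚ_[2]))⁻¹ + h1 t := by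
    intro t
    rw [H1_sum, hh1, ← Finset.add_sum_erase _ _ hi0, hz0, one_mul, one_mul]
  have hc0 : ‖Aq m t0‖ ≤ 1 / 2 := by
    have h3 := V2.choose_le (p := 2) m t0 0 (by omega) ht'
    rw [mul_zero, add_zero] at h3
    unfold Aq
    rw [one_div]
    exact_mod_cast h3
  have hcoef := coef m t0 ht
  set e0 : ℚ_[2] := (((t0 + (2 ^ m - 1)).choose (t0 - 1) : ℕ) : ℚ_[2]) with he0
  have he0n : ‖e0‖ ≤ 1 := nat_le _
  set X : ℕ → ℚ_[2] := fun t => 1 + (1 + (t : ℚ_[2])) * h1 t with hX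
  have hXl : LL 1 1 X := (LL.const 1 (by simp) (by norm_num)).add
    ((yl.mul hh1l (N := 1) (C := 1) (by norm_num) (by norm_num) (by norm_num)))
  have hyy : LL 1 1 (fun t : ℕ => (1 + (t : ℚ_[2])) * (1 + (t : ℚ_[2]))) :=
    yl.mul yl (by norm_num) (by norm_num) (by norm_num)
  have hM0 : (2 : ℚ_[2]) ^ m ≠ 0 := pow_ne_zero _ two_ne_zero
  have hg : ∀ t : ℕ, qz m (t0 + 2 ^ m * t) =
      (2 * ((((Aq m t0 * U t) * (Aq m t0 * U t)) * ((Aq m t0 * U t) * (Aq m t0 * U t))) *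
        ((((1 + (t : ℚ_[2])) * (1 + (t : ℚ_[2]))) * ((1 + (t : ℚ_[2])) * (1 + (t : ℚ_[2])))) *
          wz m (t0 + 2 ^ m * t))) +
      4 * ((2 * e0 + Aq m t0 * (1 + 2 * (t : ℚ_[2]))) *
        ((((Aq m t0 * U t) * (Aq m t0 * U t)) * (Aq m t0 * U t)) *
          ((U t * ((((1 + (t : ℚ_[2])) * (1 + (t : ℚ_[2]))) * (1 + (t : ℚ_[2]))) * X t)) *
            wz m (t0 + 2 ^ m * t))))) +
      ((((Aq m t0 * U t) * (Aq m t0 * U t)) * ((Aq m t0 * U t) * (Aq m t0 * U t))) *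
        ((((1 + (t : ℚ_[2])) * (1 + (t : ℚ_[2]))) * ((1 + (t : ℚ_[2])) * (1 + (t : ℚ_[2])))) *
          wz m (t0 + 2 ^ m * t))) *
        ((2 * ((t0 + 2 ^ m * t : ℕ) : ℚ_[2]) + 2 ^ m) * U1z m (t0 + 2 ^ m * t)) := by
    intro t
    have hy : (1 + (t : ℚ_[2])) ≠ 0 := by
      have := cast_ne (a := 1 + t) (by omega)
      push_cast at this
      exact this
    have hT : ((t0 + 2 ^ m * t : ℕ) : ℚ_[2]) = (t0 : ℚ_[2]) + 2 ^ m * (t : ℚ_[2]) := by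
      push_cast
      ring
    have hH : H1q m (t0 + 2 ^ m * t) = ((1 + (t : ℚ_[2]))⁻¹ + h1 t) / 2 ^ m := by
      rw [← hH1 t]
      field_simp
    have hkey : Aq m t0 * (2 * ((t0 : ℚ_[2]) + 2 ^ m * (t : ℚ_[2])) + 2 ^ m) =
        2 ^ m * (2 * e0 + Aq m t0 * (1 + 2 * (t : ℚ_[2]))) := by
      have h5 : Aq m t0 * (2 * ((t0 : ℚ_[2]) + 2 ^ m * (t : ℚ_[2])) + 2 ^ m) =
          2 * ((t0 : ℚ_[2]) * Aq m t0) + 2 ^ m * (Aq m t0 * (1 + 2 * (t : ℚ_[2]))) := by ring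
      rw [h5, ← hcoef]
      ring
    unfold qz
    rw [hT, hA, hH]
    simp only [hX]
    set s := (2 * ((t0 : ℚ_[2]) + 2 ^ m * (t : ℚ_[2])) + 2 ^ m) with hs
    set r := (2 * e0 + Aq m t0 * (1 + 2 * (t : ℚ_[2]))) with hr
    have h6 : (Aq m t0 * ((1 + (t : ℚ_[2])) * U t)) ^ 4 * wz m (t0 + 2 ^ m * t) *
        (2 + s * (4 * (((1 + (t : ℚ_[2]))⁻¹ + h1 t) / 2 ^ m) + U1z m (t0 + 2 ^ m * t))) =
        2 * ((Aq m t0 * ((1 + (t : ℚ_[2])) * U t)) ^ 4 * wz m (t0 + 2 ^ m * t)) +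
        (Aq m t0 * s) / 2 ^ m * (4 * (Aq m t0 ^ 3 * (((1 + (t : ℚ_[2])) * U t)) ^ 4 *
          wz m (t0 + 2 ^ m * t) * ((1 + (t : ℚ_[2]))⁻¹ + h1 t))) +
        (Aq m t0 * ((1 + (t : ℚ_[2])) * U t)) ^ 4 * wz m (t0 + 2 ^ m * t) *
          (s * U1z m (t0 + 2 ^ m * t)) := by ring
    rw [h6, hkey, mul_div_cancel_left₀ _ hM0]
    have h7 : (((1 + (t : ℚ_[2])) * U t)) ^ 4 * ((1 + (t : ℚ_[2]))⁻¹ + h1 t) =
        (1 + (t : ℚ_[2])) ^ 3 * U t ^ 4 * (1 + (1 + (t : ℚ_[2])) * h1 t) := by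
      generalize (1 + (t : ℚ_[2])) = y at hy ⊢
      field_simp
    have h8 : r * (4 * (Aq m t0 ^ 3 * (((1 + (t : ℚ_[2])) * U t)) ^ 4 *
          wz m (t0 + 2 ^ m * t) * ((1 + (t : ℚ_[2]))⁻¹ + h1 t))) =
        r * (4 * (Aq m t0 ^ 3 * wz m (t0 + 2 ^ m * t) *
          ((((1 + (t : ℚ_[2])) * U t)) ^ 4 * ((1 + (t : ℚ_[2]))⁻¹ + h1 t)))) := by ring
    rw [h8, h7]
    ring
  have hAU : LL (1 / 2) (1 / 2) (fun t => Aq m t0 * U t) :=
    hUl.cmul (Aq m t0) (by simpa using hc0) (by simpa using hc0)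
  have hAU2 := hAU.mul hAU (N := 1 / 4) (C := 1 / 4) (by norm_num) (by norm_num) (by norm_num)
  have hAU3 := hAU2.mul hAU (N := 1 / 8) (C := 1 / 8) (by norm_num) (by norm_num) (by norm_num)
  have hAU4 := hAU2.mul hAU2 (N := 1 / 16) (C := 1 / 16) (by norm_num) (by norm_num) (by norm_num)
  have hw := (wzl hm t0).mono (N1 := 1) (C1 := 1) le_rfl (by norm_num)
  have hyyy := hyy.mul yl (N := 1) (C := 1) (by norm_num) (by norm_num) (by norm_num)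
  have hy4 := hyy.mul hyy (N := 1) (C := 1) (by norm_num) (by norm_num) (by norm_num)
  have hmain := hAU4.mul (hy4.mul hw (N := 1) (C := 1) (by norm_num) (by norm_num) (by norm_num))
    (N := 1 / 16) (C := 1 / 16) (by norm_num) (by norm_num) (by norm_num)
  have ht1 := hmain.cmul 2 (N := 1 / 32) (C := 1 / 32) (by rw [n2]; norm_num)
    (by rw [n2]; norm_num)
  have hr : LL (1 / 2) (1 / 2) (fun t : ℕ => 2 * e0 + Aq m t0 * (1 + 2 * (t : ℚ_[2]))) := by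
    refine (LL.const (2 * e0) ?_ (by norm_num)).add ?_
    · rw [norm_mul, n2]
      linarith
    · exact (fz (z := 2) (c := 1) le_rfl (by rw [n2]; norm_num)).cmul (Aq m t0)
        (by simpa using hc0) (by simpa using hc0)
  have ht2 := (hr.mul (hAU3.mul ((hUl.mul (hyyy.mul hXl (N := 1) (C := 1) (by norm_num)
    (by norm_num) (by norm_num)) (N := 1) (C := 1) (by norm_num) (by norm_num) (by norm_num)).mul
    hw (N := 1) (C := 1) (by norm_num) (by norm_num) (by norm_num))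
    (N := 1 / 8) (C := 1 / 8) (by norm_num) (by norm_num) (by norm_num))
    (N := 1 / 16) (C := 1 / 16) (by norm_num) (by norm_num) (by norm_num)).cmul 4
    (N := 1 / 32) (C := 1 / 32) (by rw [n4]; norm_num) (by rw [n4]; norm_num)
  have hs : LL 1 1 (fun t : ℕ => 2 * ((t0 + 2 ^ m * t : ℕ) : ℚ_[2]) + 2 ^ m) := by
    refine ⟨fun t => ?_, fun t s => ?_⟩
    · have := nat_le (2 * (t0 + 2 ^ m * t) + 2 ^ m)
      push_cast at this ⊢
      exact this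
    · have h3 : 2 * ((t0 + 2 ^ m * (t + s) : ℕ) : ℚ_[2]) + 2 ^ m -
          (2 * ((t0 + 2 ^ m * t : ℕ) : ℚ_[2]) + 2 ^ m) =
          ((2 * 2 ^ m : ℕ) : ℚ_[2]) * (s : ℚ_[2]) := by
        push_cast
        ring
      simp only
      rw [h3, norm_mul]
      exact mul_le_mul_of_nonneg_right (nat_le _) (norm_nonneg _)
  have ht3 := hmain.mul (hs.mul (u1zl hm t0) (N := 1 / 8) (C := 1 / 2) (by norm_num)
    (by norm_num) (by norm_num)) (N := 1 / 32) (C := 1 / 32) (by norm_num) (by norm_num)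
    (by norm_num)
  have hgl : LL (1 / 32) (1 / 32) (fun t => qz m (t0 + 2 ^ m * t)) := by
    have h3 : (fun t => qz m (t0 + 2 ^ m * t)) = _ := funext hg
    rw [h3]
    exact (ht1.add ht2).add ht3
  have h3 := avl hV1 hgl n
  have h4 := hgl.1 0
  have h5 := MP_03df5c_h91.norm_add_le_of_le (C := 1 / 4) (h3.trans (by norm_num))
    (h4.trans (by norm_num))
  simpa using h5

end Pool.Agent.Work.MP_03df5c_pb
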