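import Pool.Agent.Work.MP_03df5c_pb.Interface9
import Pool.Agent.Work.MP_03df5c_pb.B_V7

/-!
# Block Y9: `ζ_2(5)` is irrational
-/

set_option autoImplicit false

open Finset Filter Topology

namespace Pool.Agent.Work.MP_03df5c_pb

open Pool.Agent.Work.MP_03df5c_h91

namespace BY9

/-- the size of the linear form -/
lemma cm_eq (m : ℕ) :
    ‖((2 ^ m - 1).factorial : ℚ_[2])‖ ^ 4 * ((2 : ℝ) ^ (4 * 2 ^ m))⁻¹ * ((2 : ℝ) ^ m / 2) ≤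
      ((2 : ℝ) ^ m) ^ 5 * ((256 : ℝ) ^ (2 ^ m - 1))⁻¹ := by
  have hpm : 0 < 2 ^ m := by positivity
  have hv := BV7.val_fact 2 m
  rw [BV7.norm_nat_eq 2 (Nat.factorial_ne_zero _)]
  obtain ⟨K, hK⟩ : ∃ K, 2 ^ m = K + 1 := ⟨2 ^ m - 1, by omega⟩
  rw [hK, Nat.add_sub_cancel] at hv ⊢
  set v := padicValNat 2 K.factorial with hvd
  have h1 : v + m = K := by omega
  have hpow : (256 : ℝ) ^ K = (2 : ℝ) ^ (4 * v) * 2 ^ (4 * m) * 2 ^ (4 * K) := by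
    rw [← pow_add, ← pow_add, show 4 * v + 4 * m + 4 * K = 8 * K by omega, pow_mul]
    norm_num
  have e1 : (((2 : ℕ) : ℝ) ^ v)⁻¹ ^ 4 * ((2 : ℝ) ^ (4 * (K + 1)))⁻¹ * ((2 : ℝ) ^ m / 2) =
      (((2 : ℝ) ^ m) ^ 5 * ((256 : ℝ) ^ K)⁻¹) * ((2 : ℝ) ^ 5)⁻¹ := by
    have p1 : (2 : ℝ) ^ (4 * (K + 1)) = 2 ^ (4 * K) * 2 ^ 4 := by rw [mul_add, pow_add]
    have p3 : (2 : ℝ) ^ (4 * v) = (2 ^ v) ^ 4 := by rw [mul_comm, pow_mul]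
    have p4 : (2 : ℝ) ^ (4 * m) = (2 ^ m) ^ 4 := by rw [mul_comm, pow_mul]
    rw [hpow, p1, p3, p4, Nat.cast_ofNat]
    obtain ⟨a, ha⟩ : ∃ a, a = (2 : ℝ) ^ v := ⟨_, rfl⟩
    obtain ⟨b, hb⟩ : ∃ b, b = (2 : ℝ) ^ m := ⟨_, rfl⟩
    obtain ⟨d, hd⟩ : ∃ d, d = (2 : ℝ) ^ (4 * K) := ⟨_, rfl⟩
    have ha0 : a ≠ 0 := by rw [ha]; positivity
    have hb0 : b ≠ 0 := by rw [hb]; positivity
    have hd0 : d ≠ 0 := by rw [hd]; positivity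
    rw [← ha, ← hb, ← hd]
    field_simp
  rw [e1]
  refine mul_le_of_le_one_right (by positivity) ?_
  norm_num

/-- the value of the linear form -/
lemma norm_S (hY4 : S_Y4) (hY6 : S_Y6) (hY7q : S_Y7q) (hY8 : S_Y8) {m : ℕ} (hm : 1 ≤ m) (c : ℕ → ℕ → ℚ)
    (hc : PF (2 ^ m - 1) 4 c (RZ (2 ^ m - 1)))
    (hz : ∀ i < 4, i ≠ 2 → ∑ j ∈ range (2 ^ m - 1 + 1), c i j = 0) (v5 : ℚ)
    (h5 : ((((5 : ℕ) : ℚ_[2]) - 1) * 2 ^ 5 * kubotaLeopoldt 2 5) = (v5 : ℚ_[2])) :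
    ‖((3 * (∑ j ∈ range (2 ^ m - 1 + 1), c 2 j) * v5 + ratZ (2 ^ m - 1) c : ℚ) : ℚ_[2])‖ =
      ‖((2 ^ m - 1).factorial : ℚ_[2])‖ ^ 4 * ((2 : ℝ) ^ (4 * 2 ^ m))⁻¹ * ((2 : ℝ) ^ m / 2) := by
  have l4 := hY4 _ c hz
  have l5 := hY6 5 (by decide) (by norm_num)
  rw [h5] at l5
  have h8 := l4.add (l5.const_mul ((3 * ∑ j ∈ range (2 ^ m - 1 + 1), c 2 j : ℚ) : ℚ_[2]))
  have h9 : Tendsto (fun N => ‖av 2 (vv 2 1 1 (T1z (2 ^ m - 1) c)) N‖) atTop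
      (𝓝 ‖((3 * (∑ j ∈ range (2 ^ m - 1 + 1), c 2 j) * v5 + ratZ (2 ^ m - 1) c : ℚ) : ℚ_[2])‖) := by
    have e : ((3 * (∑ j ∈ range (2 ^ m - 1 + 1), c 2 j) * v5 + ratZ (2 ^ m - 1) c : ℚ) : ℚ_[2]) =
        ((ratZ (2 ^ m - 1) c : ℚ) : ℚ_[2]) +
          ((3 * ∑ j ∈ range (2 ^ m - 1 + 1), c 2 j : ℚ) : ℚ_[2]) * (v5 : ℚ_[2]) := by
      push_cast
      ring
    rw [e]
    refine (h8.congr fun N => ?_).norm
    ring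
  have h10 : Tendsto (fun N => ‖av 2 (vv 2 1 1 (T1z (2 ^ m - 1) c)) N‖) atTop
      (𝓝 (‖((2 ^ m - 1).factorial : ℚ_[2])‖ ^ 4 * ((2 : ℝ) ^ (4 * 2 ^ m))⁻¹ * ((2 : ℝ) ^ m / 2))) := by
    refine tendsto_const_nhds.congr' ?_
    filter_upwards [eventually_ge_atTop m] with N hN
    have e : av 2 (vv 2 1 1 (T1z (2 ^ m - 1) c)) N =
        -(((2 ^ m - 1).factorial : ℚ_[2]) ^ 4 * 2 ^ (4 * 2 ^ m)) * av 2 (qz m) N := by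
      unfold av
      rw [mul_left_comm]
      congr 1
      rw [Finset.mul_sum]
      refine Finset.sum_congr rfl fun t _ => ?_
      rw [hY7q m c hc t]
      ring
    have e2 : ‖(2 : ℚ_[2]) ^ (4 * 2 ^ m)‖ = ((2 : ℝ) ^ (4 * 2 ^ m))⁻¹ := by
      have := Padic.norm_p_pow (p := 2) (4 * 2 ^ m)
      rw [zpow_neg, zpow_natCast] at this
      exact_mod_cast this
    rw [e, norm_mul, norm_neg, norm_mul, norm_pow, e2, hY8 m N hm hN]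
  exact tendsto_nhds_unique h9 h10

lemma PP_pos (K : ℕ) : 0 < PP K := by
  unfold PP
  refine Finset.prod_pos fun q hq => ?_
  exact (Finset.mem_filter.1 hq).2.1.pos

lemma PP_norm (K : ℕ) : ‖((PP K : ℕ) : ℚ_[2])‖ = 1 := by
  have hcop : Nat.Coprime 2 (PP K) := by
    unfold PP
    refine Nat.Coprime.prod_right fun q hq => ?_
    obtain ⟨-, hq1, -, hq3⟩ := Finset.mem_filter.1 hq
    exact (Nat.coprime_primes Nat.prime_two hq1).2 (by omega)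
  exact Padic.norm_natCast_eq_one_iff.2 hcop

/-- the main inequality -/
lemma main_le (hY3 : S_Y3) (hY4 : S_Y4) (hY6 : S_Y6) (hY7q : S_Y7q) (hY8 : S_Y8) (hD1 : ∀ K, dd K ≠ 0)
    {C : ℝ} {n0 : ℕ} {m : ℕ} (hm : 1 ≤ m)
    (hY5 : ∃ c : ℕ → ℕ → ℚ, PF (2 ^ m - 1) 4 c (RZ (2 ^ m - 1)) ∧
      (∃ z : ℤ, ((2 ^ (8 * (2 ^ m - 1)) * dd (2 ^ m - 1) ^ 6 : ℕ) : ℚ) *
        ∑ j ∈ range (2 ^ m - 1 + 1), c 2 j = (PP (2 ^ m - 1) : ℚ) * z) ∧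
      (∃ z : ℤ, ((2 ^ (8 * (2 ^ m - 1)) * dd (2 ^ m - 1) ^ 6 : ℕ) : ℚ) * ratZ (2 ^ m - 1) c =
        (PP (2 ^ m - 1) : ℚ) * z) ∧
      |((∑ j ∈ range (2 ^ m - 1 + 1), c 2 j : ℚ) : ℝ)| ≤ C * (((2 ^ m - 1 : ℕ) : ℝ) + 1) ^ n0 ∧
      |(ratZ (2 ^ m - 1) c : ℝ)| ≤ C * (((2 ^ m - 1 : ℕ) : ℝ) + 1) ^ n0) (v5 : ℚ)
    (h5 : ((((5 : ℕ) : ℚ_[2]) - 1) * 2 ^ 5 * kubotaLeopoldt 2 5) = (v5 : ℚ_[2])) :
    (PP (2 ^ m - 1) : ℝ) ≤ (dd (2 ^ m - 1) : ℝ) ^ 6 * ((3 * |(v5.num : ℝ)| + v5.den) *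
      (C * ((2 : ℝ) ^ m) ^ n0)) * (((2 : ℝ) ^ m) ^ 5 * ((256 : ℝ) ^ (2 ^ m - 1))⁻¹) := by
  obtain ⟨c, hc, hi, hr, hbi, hbr⟩ := hY5
  have hz := hY3 _ c hc
  have hS := norm_S hY4 hY6 hY7q hY8 hm c hc hz v5 h5
  have hcm := cm_eq m
  have hpm : 0 < 2 ^ m := by positivity
  obtain ⟨K, hK⟩ : ∃ K, 2 ^ m = K + 1 := ⟨2 ^ m - 1, by omega⟩
  have hKp : (2 : ℝ) ^ m = (K : ℝ) + 1 := by exact_mod_cast hK
  have hKK : 2 ^ m - 1 = K := by omega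
  rw [hKK] at hS hcm hi hr hbi hbr ⊢
  obtain ⟨z2, hz2⟩ := hi
  obtain ⟨zr, hzr⟩ := hr
  obtain ⟨S2, hS2⟩ : ∃ S, S = ∑ j ∈ range (K + 1), c 2 j := ⟨_, rfl⟩
  rw [← hS2] at hz2 hbi hS
  have n5 : (v5.num : ℚ) = v5.den * v5 := by
    rw [mul_comm]; exact (Rat.mul_den_eq_num v5).symm
  have d5 : (v5.den : ℚ) ≠ 0 := by exact_mod_cast v5.den_nz
  have hPP := PP_pos K
  have hPPn := PP_norm K
  have hPP0 : (0 : ℝ) < (PP K : ℝ) := by exact_mod_cast hPP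
  set X : ℚ := 3 * S2 * v5.num + v5.den * ratZ K c with hX
  have hXe : X = v5.den * (3 * S2 * v5 + ratZ K c) := by
    rw [hX, n5]; ring
  set n : ℤ := 3 * z2 * v5.num + v5.den * zr with hn
  have hne : (PP K : ℚ) * (n : ℚ) = ((2 ^ (8 * K) * dd K ^ 6 : ℕ) : ℚ) * X := by
    have e : (PP K : ℚ) * (n : ℚ) = 3 * ((PP K : ℚ) * z2) * v5.num + v5.den * ((PP K : ℚ) * zr) := by
      rw [hn]
      push_cast
      ring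
    rw [e, ← hz2, ← hzr, hX]
    ring
  have hcpos : 0 < ‖((K.factorial : ℕ) : ℚ_[2])‖ ^ 4 * ((2 : ℝ) ^ (4 * 2 ^ m))⁻¹ * ((2 : ℝ) ^ m / 2) := by
    have : 0 < ‖((K.factorial : ℕ) : ℚ_[2])‖ := by
      rw [norm_pos_iff]; exact_mod_cast Nat.factorial_ne_zero K
    positivity
  have hXS : ((X : ℚ) : ℚ_[2]) = ((v5.den : ℕ) : ℚ_[2]) * ((3 * S2 * v5 + ratZ K c : ℚ) : ℚ_[2]) := by
    rw [hXe, Rat.cast_mul, Rat.cast_natCast]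
  have hX0 : X ≠ 0 := by
    intro h0
    have h1 : (3 * S2 * v5 + ratZ K c : ℚ) = 0 := by
      rw [hXe] at h0
      exact (mul_eq_zero.1 h0).resolve_left d5
    rw [h1, Rat.cast_zero, norm_zero] at hS
    exact hcpos.ne hS
  have hn0 : n ≠ 0 := by
    intro h0
    rw [h0, Int.cast_zero, mul_zero] at hne
    have h1 : ((2 ^ (8 * K) * dd K ^ 6 : ℕ) : ℚ) * X ≠ 0 := by
      refine mul_ne_zero ?_ hX0
      have : 2 ^ (8 * K) * dd K ^ 6 ≠ 0 := mul_ne_zero (by positivity) (pow_ne_zero _ (hD1 K))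
      exact_mod_cast this
    exact h1 hne.symm
  have h1 := BV7.one_le_mul 2 hn0
  -- the real size
  have hnr : (PP K : ℝ) * (n : ℝ) = ((2 : ℝ) ^ (8 * K)) * (dd K : ℝ) ^ 6 * (X : ℝ) := by
    have := congrArg (fun q : ℚ => (q : ℝ)) hne
    push_cast at this
    exact this
  have hXr : |(X : ℝ)| ≤ (3 * |(v5.num : ℝ)| + v5.den) * (C * ((2 : ℝ) ^ m) ^ n0) := by
    have e : (X : ℝ) = (S2 : ℝ) * (3 * (v5.num : ℝ)) + (ratZ K c : ℝ) * (v5.den : ℝ) := by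
      rw [hX]; push_cast; ring
    rw [e, hKp]
    have t1 : |(S2 : ℝ) * (3 * (v5.num : ℝ))| ≤ (C * ((K : ℝ) + 1) ^ n0) * (3 * |(v5.num : ℝ)|) := by
      rw [abs_mul, abs_mul, abs_of_pos (by norm_num : (0 : ℝ) < 3)]
      exact mul_le_mul_of_nonneg_right hbi (by positivity)
    have t3 : |(ratZ K c : ℝ) * (v5.den : ℝ)| ≤ (C * ((K : ℝ) + 1) ^ n0) * (v5.den : ℝ) := by
      rw [abs_mul, Nat.abs_cast]
      exact mul_le_mul_of_nonneg_right hbr (by positivity)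
    have := abs_add_le ((S2 : ℝ) * (3 * (v5.num : ℝ))) ((ratZ K c : ℝ) * (v5.den : ℝ))
    calc _ ≤ _ := this
      _ ≤ _ := add_le_add t1 t3
      _ = _ := by ring
  -- the 2-adic size
  have hnp : ‖(n : ℚ_[2])‖ ≤ ((2 : ℝ) ^ (8 * K))⁻¹ * (((2 : ℝ) ^ m) ^ 5 * ((256 : ℝ) ^ K)⁻¹) := by
    have e : ((PP K : ℕ) : ℚ_[2]) * (n : ℚ_[2]) = (2 : ℚ_[2]) ^ (8 * K) * (dd K : ℚ_[2]) ^ 6 *
        (((v5.den : ℕ) : ℚ_[2]) * ((3 * S2 * v5 + ratZ K c : ℚ) : ℚ_[2])) := by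
      have := congrArg (fun q : ℚ => (q : ℚ_[2])) hne
      rw [Rat.cast_mul, Rat.cast_mul, hXS, Rat.cast_natCast, Rat.cast_intCast] at this
      rw [this]
      push_cast
      ring
    have e2 : ‖(2 : ℚ_[2]) ^ (8 * K)‖ = ((2 : ℝ) ^ (8 * K))⁻¹ := by
      have := Padic.norm_p_pow (p := 2) (8 * K)
      rw [zpow_neg, zpow_natCast] at this
      exact_mod_cast this
    have e3 : ‖(n : ℚ_[2])‖ = ‖((PP K : ℕ) : ℚ_[2]) * (n : ℚ_[2])‖ := by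
      rw [norm_mul, hPPn, one_mul]
    rw [e3, e, norm_mul, norm_mul, norm_mul, norm_pow (dd K : ℚ_[2]), e2, hS]
    have hd1 : ‖(dd K : ℚ_[2])‖ ^ 6 ≤ 1 := pow_le_one₀ (norm_nonneg _) (norm_natCast_le_one _)
    have hd2 : ‖((v5.den : ℕ) : ℚ_[2])‖ ≤ 1 := norm_natCast_le_one _
    calc ((2 : ℝ) ^ (8 * K))⁻¹ * ‖(dd K : ℚ_[2])‖ ^ 6 *
          (‖((v5.den : ℕ) : ℚ_[2])‖ * (‖((K.factorial : ℕ) : ℚ_[2])‖ ^ 4 *
            ((2 : ℝ) ^ (4 * 2 ^ m))⁻¹ * ((2 : ℝ) ^ m / 2)))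
        ≤ ((2 : ℝ) ^ (8 * K))⁻¹ * 1 * (1 * (‖((K.factorial : ℕ) : ℚ_[2])‖ ^ 4 *
            ((2 : ℝ) ^ (4 * 2 ^ m))⁻¹ * ((2 : ℝ) ^ m / 2))) := by
          refine mul_le_mul ?_ ?_ (by positivity) (by positivity)
          · exact mul_le_mul_of_nonneg_left hd1 (by positivity)
          · exact mul_le_mul_of_nonneg_right hd2 hcpos.le
      _ = ((2 : ℝ) ^ (8 * K))⁻¹ * (‖((K.factorial : ℕ) : ℚ_[2])‖ ^ 4 *
            ((2 : ℝ) ^ (4 * 2 ^ m))⁻¹ * ((2 : ℝ) ^ m / 2)) := by ring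
      _ ≤ _ := mul_le_mul_of_nonneg_left hcm (by positivity)
  have hPpos : (0 : ℝ) < (2 : ℝ) ^ (8 * K) := by positivity
  have hX2 : (PP K : ℝ) * |(n : ℝ)| ≤ (2 : ℝ) ^ (8 * K) * (dd K : ℝ) ^ 6 *
        ((3 * |(v5.num : ℝ)| + v5.den) * (C * ((2 : ℝ) ^ m) ^ n0)) := by
    have e : (PP K : ℝ) * |(n : ℝ)| = |(PP K : ℝ) * (n : ℝ)| := by
      rw [abs_mul, abs_of_pos hPP0]
    rw [e, hnr, abs_mul, abs_mul, abs_of_pos hPpos, abs_of_nonneg (by positivity : (0 : ℝ) ≤ (dd K : ℝ) ^ 6)]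
    exact mul_le_mul_of_nonneg_left hXr (by positivity)
  calc (PP K : ℝ) = (PP K : ℝ) * 1 := (mul_one _).symm
    _ ≤ (PP K : ℝ) * (|(n : ℝ)| * ‖(n : ℚ_[2])‖) := mul_le_mul_of_nonneg_left h1 hPP0.le
    _ = ((PP K : ℝ) * |(n : ℝ)|) * ‖(n : ℚ_[2])‖ := by ring
    _ ≤ ((2 : ℝ) ^ (8 * K) * (dd K : ℝ) ^ 6 *
        ((3 * |(v5.num : ℝ)| + v5.den) * (C * ((2 : ℝ) ^ m) ^ n0))) *
        (((2 : ℝ) ^ (8 * K))⁻¹ * (((2 : ℝ) ^ m) ^ 5 * ((256 : ℝ) ^ K)⁻¹)) :=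
      mul_le_mul hX2 hnp (norm_nonneg _) ((mul_nonneg hPP0.le (abs_nonneg _)).trans hX2)
    _ = _ := by
      field_simp

/-- the rational value -/
lemma val_of (k : ℕ) (hk : 1 ≤ k) (q : ℚ) (hq : zetaP 2 k = (q : ℚ_[2])) :
    (((k : ℚ_[2]) - 1) * 2 ^ k * kubotaLeopoldt 2 k) =
      ((((k : ℚ) - 1) * 2 ^ k * ((1 - ((2 : ℚ) ^ k)⁻¹) * q) : ℚ) : ℚ_[2]) := by
  have hKL : kubotaLeopoldt 2 k = (1 - ((2 : ℚ_[2]) ^ k)⁻¹) * (q : ℚ_[2]) := by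
    rw [← hq]
    unfold zetaP
    have h1 : (1 : ℚ_[2]) - ((2 : ℚ_[2]) ^ k)⁻¹ ≠ 0 := by
      intro h
      have h2 : ((2 : ℚ_[2]) ^ k)⁻¹ = 1 := (sub_eq_zero.1 h).symm
      have h3 : ((2 ^ k : ℕ) : ℚ_[2]) = ((1 : ℕ) : ℚ_[2]) := by
        push_cast
        rw [← inv_inv ((2 : ℚ_[2]) ^ k), h2, inv_one]
      have h4 : 2 ^ k = 1 := by exact_mod_cast h3
      have h5 : 1 < 2 ^ k := Nat.one_lt_pow (by omega) (by norm_num)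
      omega
    rw [show ((2 : ℕ) : ℚ_[2]) = 2 by norm_num, ← mul_assoc, mul_inv_cancel₀ h1, one_mul]
  rw [hKL]
  push_cast
  ring

end BY9

/-- Y9, from Y3, Y4, Y5, Y6, Y7q, Y8, D6, D1 -/
theorem p_Y9 (hY3 : S_Y3) (hY4 : S_Y4) (hY5 : S_Y5) (hY6 : S_Y6) (hY7q : S_Y7q) (hY8 : S_Y8) (hD6 : S_D6)
    (hD1 : S_D1) : S_Y9 := by
  intro q5 hq5
  obtain ⟨v5, hv5⟩ : ∃ v : ℚ, (((5 : ℕ) : ℚ_[2]) - 1) * 2 ^ 5 * kubotaLeopoldt 2 5 = (v : ℚ_[2]) :=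
    ⟨_, BY9.val_of 5 (by norm_num) q5 hq5⟩
  obtain ⟨C0, n0, hX⟩ := hY5
  obtain ⟨C, hC, hd⟩ := hD6 (1 / 100) (by norm_num)
  have hdd : ∀ K, dd K ≠ 0 := fun K => (hD1.2.1 K).1
  set ρ : ℝ := Real.exp (11 / 2 + 1 / 100) / 256 with hρ
  have hρ0 : 0 < ρ := by positivity
  have hρ1 : ρ < 1 := by
    rw [hρ, div_lt_one (by norm_num)]
    have h1 : (256 : ℝ) = Real.exp (8 * Real.log 2) := by
      rw [show 8 * Real.log 2 = Real.log (2 ^ 8) by rw [Real.log_pow]; norm_num,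
        Real.exp_log (by norm_num)]
      norm_num
    rw [h1]
    have h2 := Real.log_two_gt_d9
    exact Real.exp_lt_exp.2 (by linarith)
  have hlim : Tendsto (fun n : ℕ => (n : ℝ) ^ (n0 + 5) * ρ ^ n) atTop (𝓝 0) :=
    tendsto_pow_const_mul_const_pow_of_abs_lt_one (n0 + 5) (by rw [abs_of_pos hρ0]; exact hρ1)
  have hpow : Tendsto (fun m : ℕ => 2 ^ m) atTop atTop :=
    tendsto_pow_atTop_atTop_of_one_lt (by norm_num)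
  obtain ⟨B, hB⟩ : ∃ B : ℝ, B = 3 * |(v5.num : ℝ)| + v5.den := ⟨_, rfl⟩
  have hB0 : 0 ≤ B := by rw [hB]; positivity
  set D : ℝ := C * (B * |C0|) * ρ⁻¹ with hD
  have hlim2 : Tendsto (fun m : ℕ => D * (((2 ^ m : ℕ) : ℝ) ^ (n0 + 5) * ρ ^ (2 ^ m))) atTop (𝓝 0) := by
    have := (hlim.comp hpow).const_mul D
    rw [mul_zero] at this
    exact this
  have hge : ∀ᶠ m : ℕ in atTop, (1 : ℝ) ≤ D * (((2 ^ m : ℕ) : ℝ) ^ (n0 + 5) * ρ ^ (2 ^ m)) := by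
    filter_upwards [eventually_ge_atTop 1] with m hm
    have hm2 : 2 ≤ 2 ^ m := by
      calc 2 = 2 ^ 1 := rfl
        _ ≤ 2 ^ m := Nat.pow_le_pow_right (by norm_num) hm
    have hmain := BY9.main_le hY3 hY4 hY6 hY7q hY8 hdd hm (hX (2 ^ m - 1) (by omega)) v5 hv5
    rw [← hB] at hmain
    obtain ⟨K, hK⟩ : ∃ K, 2 ^ m = K + 1 := ⟨2 ^ m - 1, by omega⟩
    have hKp : (2 : ℝ) ^ m = (K : ℝ) + 1 := by exact_mod_cast hK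
    have hKK : 2 ^ m - 1 = K := by omega
    rw [hKK, hKp] at hmain
    have hPP0 : (0 : ℝ) < (PP K : ℝ) := by exact_mod_cast BY9.PP_pos K
    have hd1 : (dd K : ℝ) ^ 6 ≤ C * (ρ ^ K * 256 ^ K) * (PP K : ℝ) := by
      have h1 := hd K
      have h2 : Real.exp ((11 / 2 + 1 / 100) * K) = ρ ^ K * 256 ^ K := by
        rw [hρ, div_pow, div_mul_cancel₀ _ (by positivity), ← Real.exp_nat_mul]
        congr 1
        ring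
      rwa [h2] at h1
    rw [hK]
    push_cast
    have hfin : (PP K : ℝ) * 1 ≤ (PP K : ℝ) * (D * (((K : ℝ) + 1) ^ (n0 + 5) * ρ ^ (K + 1))) := by
      calc (PP K : ℝ) * 1 = (PP K : ℝ) := mul_one _
        _ ≤ (dd K : ℝ) ^ 6 * (B * (C0 * ((K : ℝ) + 1) ^ n0)) * (((K : ℝ) + 1) ^ 5 * ((256 : ℝ) ^ K)⁻¹) :=
          hmain
        _ ≤ (dd K : ℝ) ^ 6 * (B * (|C0| * ((K : ℝ) + 1) ^ n0)) * (((K : ℝ) + 1) ^ 5 * ((256 : ℝ) ^ K)⁻¹) := by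
            refine mul_le_mul_of_nonneg_right ?_ (by positivity)
            refine mul_le_mul_of_nonneg_left ?_ (by positivity)
            refine mul_le_mul_of_nonneg_left ?_ hB0
            exact mul_le_mul_of_nonneg_right (le_abs_self C0) (by positivity)
        _ ≤ (C * (ρ ^ K * 256 ^ K) * (PP K : ℝ)) * (B * (|C0| * ((K : ℝ) + 1) ^ n0)) *
            (((K : ℝ) + 1) ^ 5 * ((256 : ℝ) ^ K)⁻¹) := by
            refine mul_le_mul_of_nonneg_right ?_ (by positivity)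
            exact mul_le_mul_of_nonneg_right hd1 (by positivity)
        _ = (PP K : ℝ) * (D * (((K : ℝ) + 1) ^ (n0 + 5) * ρ ^ (K + 1))) := by
            rw [hD]
            field_simp
            ring
    exact le_of_mul_le_mul_left hfin hPP0
  have := ge_of_tendsto hlim2 hge
  linarith

end Pool.Agent.Work.MP_03df5c_pb
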