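import Pool.Agent.Work.MP_03df5c_pb.Interface9

/-!
# Block Yq0: the coefficients by central binomial coefficients
-/

open Finset

namespace Pool.Agent.Work.MP_03df5c_pb

theorem Yq0_half (n : ℕ) : (∏ i ∈ range n, ((i : ℚ) + 1 / 2)) * 4 ^ n =
    (((2 * n).choose n : ℕ) : ℚ) * (n.factorial : ℚ) := by
  induction n with
  | zero => simp
  | succ n ih =>
    have h := Nat.succ_mul_centralBinom_succ n
    rw [Nat.centralBinom_eq_two_mul_choose, Nat.centralBinom_eq_two_mul_choose] at h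
    have h' : ((n : ℚ) + 1) * (((2 * (n + 1)).choose (n + 1) : ℕ) : ℚ) =
        2 * (2 * (n : ℚ) + 1) * (((2 * n).choose n : ℕ) : ℚ) := by exact_mod_cast h
    rw [Finset.prod_range_succ, Nat.factorial_succ]
    push_cast
    have e : (∏ i ∈ range n, ((i : ℚ) + 1 / 2)) * ((n : ℚ) + 1 / 2) * 4 ^ (n + 1) =
        ((∏ i ∈ range n, ((i : ℚ) + 1 / 2)) * 4 ^ n) * (4 * (n : ℚ) + 2) := by ring
    rw [e, ih]
    linear_combination (-(n.factorial : ℚ)) * h'

theorem p_Yq0 : S_Yq0 := by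
  intro K j hj
  obtain ⟨n, rfl⟩ := Nat.exists_eq_add_of_le hj
  have hsub : j + n - j = n := by omega
  rw [hsub]
  unfold bh bet bin th
  have e1 : ∏ m ∈ range (j + n), ((((j + n : ℕ) : ℚ) - (j : ℚ) - ((1 : ℕ) : ℚ) / ((2 : ℕ) : ℚ) ^ 1) - (m : ℚ)) =
      (∏ i ∈ range n, ((i : ℚ) + 1 / 2)) * ((-1) ^ j * ∏ i ∈ range j, ((i : ℚ) + 1 / 2)) := by
    rw [add_comm j n, Finset.prod_range_add]
    congr 1
    · rw [← Finset.prod_range_reflect]
      refine Finset.prod_congr rfl fun i hi => ?_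
      rw [Finset.mem_range] at hi
      have : ((n - 1 - i : ℕ) : ℚ) = (n : ℚ) - 1 - i := by
        rw [Nat.cast_sub (by omega), Nat.cast_sub (by omega)]
        simp
      rw [this]
      push_cast
      ring
    · have : ((-1 : ℚ)) ^ j = ∏ i ∈ range j, (-1 : ℚ) := by simp
      rw [this, ← Finset.prod_mul_distrib]
      refine Finset.prod_congr rfl fun i _ => ?_
      push_cast
      ring
  rw [e1]
  have h1 := Yq0_half n
  have h2 := Yq0_half j
  have h3 : (((j + n).choose j : ℕ) : ℚ) * (j.factorial : ℚ) * (n.factorial : ℚ) =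
      ((j + n).factorial : ℚ) := by
    have := Nat.add_choose_mul_factorial_mul_factorial j n
    rw [← Nat.choose_symm_add] at this
    exact_mod_cast this
  have hf : ((j + n).factorial : ℚ) ≠ 0 := by positivity
  have hs : ((-1 : ℚ)) ^ j * (-1) ^ j = 1 := by
    rw [← mul_pow]
    simp
  rw [eq_div_iff (by positivity), ← mul_div_assoc, div_mul_eq_mul_div, div_eq_iff hf, ← h3, pow_add]
  push_cast
  calc (-1 : ℚ) ^ j * (((j + n).choose j : ℕ) : ℚ) *
        ((∏ i ∈ range n, ((i : ℚ) + 1 / 2)) * ((-1) ^ j * ∏ i ∈ range j, ((i : ℚ) + 1 / 2))) *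
        (4 ^ j * 4 ^ n) =
      ((-1 : ℚ) ^ j * (-1) ^ j) * (((j + n).choose j : ℕ) : ℚ) *
        ((∏ i ∈ range n, ((i : ℚ) + 1 / 2)) * 4 ^ n) *
        ((∏ i ∈ range j, ((i : ℚ) + 1 / 2)) * 4 ^ j) := by ring
    _ = _ := by
      rw [hs, h1, h2]
      ring

end Pool.Agent.Work.MP_03df5c_pb
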