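import Pool.Agent.Work.MP_03df5c_pb.Interface9

/-!
# Block Yq1: a congruence (helper24)
-/

open Finset Filter Topology

namespace Pool.Agent.Work.MP_03df5c_pb

open Pool.Agent.Work.MP_03df5c_h91

namespace Yq1h

theorem luc (q j : ℕ) (hq : q.Prime) (hj : j < q) :
    (2 * (j + q)).choose (j + q) ≡ 2 * (2 * j).choose j [MOD q] := by
  haveI : Fact q.Prime := ⟨hq⟩
  have h1 : (2 * (j + q)).choose (j + q) ≡
      ((2 * (j + q)) % q).choose ((j + q) % q) * ((2 * (j + q)) / q).choose ((j + q) / q)
        [MOD q] := Choose.choose_modEq_choose_mod_mul_choose_div_nat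
  have h2 : (2 * j).choose j ≡ ((2 * j) % q).choose (j % q) * ((2 * j) / q).choose (j / q)
      [MOD q] := Choose.choose_modEq_choose_mod_mul_choose_div_nat
  have e1 : (j + q) % q = j := by rw [Nat.add_mod_right, Nat.mod_eq_of_lt hj]
  have e2 : (j + q) / q = 1 := by rw [Nat.add_div_right _ hq.pos, Nat.div_eq_of_lt hj]
  have e3 : j % q = j := Nat.mod_eq_of_lt hj
  have e4 : j / q = 0 := Nat.div_eq_of_lt hj
  have e5 : (2 * (j + q)) % q = (2 * j) % q := by
    rw [show 2 * (j + q) = 2 * j + q + q by ring, Nat.add_mod_right, Nat.add_mod_right]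
  rw [e1, e2, e5] at h1
  rw [e3, e4] at h2
  rcases Nat.lt_or_ge (2 * j) q with h | h
  · have e6 : (2 * j) % q = 2 * j := Nat.mod_eq_of_lt h
    have e7 : (2 * (j + q)) / q = 2 := by
      rw [show 2 * (j + q) = 2 * j + q + q by ring, Nat.add_div_right _ hq.pos,
        Nat.add_div_right _ hq.pos, Nat.div_eq_of_lt h]
    rw [e6, e7] at h1
    have : (2 : ℕ).choose 1 = 2 := by decide
    rw [this] at h1
    calc _ ≡ (2 * j).choose j * 2 [MOD q] := h1
      _ = 2 * (2 * j).choose j := by ring
  · have e6 : (2 * j) % q = 2 * j - q := by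
      rw [Nat.mod_eq_sub_mod h, Nat.mod_eq_of_lt (by omega)]
    have e8 : (2 * j - q).choose j = 0 := Nat.choose_eq_zero_of_lt (by omega)
    rw [e6, e8, zero_mul] at h1 h2
    have h4 : 2 * (2 * j).choose j ≡ 0 [MOD q] := by
      have := h2.mul_left 2
      simpa using this
    exact h1.trans h4.symm

end Yq1h

theorem p_Yq1 (h0 : S_Yq0) : S_Yq1 := by
  intro K q j hq h3 hK hjq
  have hk : K - (j + q) < q := by omega
  have hj : j < q := by omega
  have e : K - j = (K - (j + q)) + q := by omega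
  set k := K - (j + q) with hkdef
  have l1 := Yq1h.luc q j hq hj
  have l2 := Yq1h.luc q k hq hk
  have hb1 : (4 : ℚ) ^ K * bh K (j + q) =
      (((2 * (j + q)).choose (j + q) * (2 * k).choose k : ℕ) : ℚ) := by
    rw [h0 K (j + q) hjq, ← hkdef]
    field_simp
  have hb2 : (4 : ℚ) ^ K * bh K j =
      (((2 * j).choose j * (2 * (k + q)).choose (k + q) : ℕ) : ℚ) := by
    rw [h0 K j (by omega), e]
    field_simp
  have hmod : (2 * j).choose j * (2 * (k + q)).choose (k + q) ≡
      (2 * (j + q)).choose (j + q) * (2 * k).choose k [MOD q] := by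
    have m1 : (2 * j).choose j * (2 * (k + q)).choose (k + q) ≡
        (2 * j).choose j * (2 * (2 * k).choose k) [MOD q] := l2.mul_left _
    have m2 : (2 * (j + q)).choose (j + q) * (2 * k).choose k ≡
        2 * (2 * j).choose j * (2 * k).choose k [MOD q] := l1.mul_right _
    have m3 : (2 * j).choose j * (2 * (2 * k).choose k) =
        2 * (2 * j).choose j * (2 * k).choose k := by ring
    rw [m3] at m1
    exact m1.trans m2.symm
  obtain ⟨z, hz⟩ := (Nat.modEq_iff_dvd.1 hmod)
  refine ⟨z, ?_⟩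
  rw [mul_sub, hb1, hb2]
  have := congrArg (fun n : ℤ => (n : ℚ)) hz
  push_cast at this ⊢
  rw [← this]

end Pool.Agent.Work.MP_03df5c_pb
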