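import Pool.Agent.Work.MP_03df5c_pb.Interface9

/-!
# Block Yq2: a divisibility (helper24)
-/

open Finset Filter Topology

namespace Pool.Agent.Work.MP_03df5c_pb

open Pool.Agent.Work.MP_03df5c_h91

theorem p_Yq2 (h0 : S_Yq0) : S_Yq2 := by
  intro K q j hq h3 hj h2j hjK
  have hdvd : q ∣ (2 * j).choose j := by
    have h1 := Nat.choose_mul_factorial_mul_factorial (show j ≤ 2 * j by omega)
    have h2 : q ∣ (2 * j).factorial := (hq.dvd_factorial).2 (by omega)
    have h4 : ¬ q ∣ j.factorial := by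
      rw [hq.dvd_factorial]; omega
    have h5 : 2 * j - j = j := by omega
    rw [h5] at h1
    rw [← h1] at h2
    rcases hq.dvd_mul.1 h2 with h | h
    · rcases hq.dvd_mul.1 h with h | h
      · exact h
      · exact absurd h h4
    · exact absurd h h4
  obtain ⟨w, hw⟩ := hdvd
  refine ⟨((w * (2 * (K - j)).choose (K - j) : ℕ) : ℤ), ?_⟩
  rw [h0 K j hjK, hw]
  push_cast
  field_simp

end Pool.Agent.Work.MP_03df5c_pb
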