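import Pool.Agent.Work.MP_03df5c_pb.Interface9
import Pool.Agent.Work.MP_03df5c_pb.B_P1

/-!
# Block Yq3: multiplication by a function with simple poles, locally at a prime
-/

open Finset

namespace Pool.Agent.Work.MP_03df5c_pb

namespace BYq3

open BP1

/-- The explicit coefficients of the product. -/
noncomputable def cc (K s : ℕ) (c : ℕ → ℕ → ℚ) (β : ℕ → ℚ) (i' m : ℕ) : ℚ :=
  ∑ j ∈ range (K + 1), ∑ l ∈ range (K + 1), ∑ i ∈ range s, β j * c i l * p1A j l i i' m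

lemma pf_cc (K s : ℕ) (c : ℕ → ℕ → ℚ) (F : ℚ → ℚ) (β : ℕ → ℚ) (hF : PF K s c F) :
    PF K (s + 1) (cc K s c β) (fun u => sf K β u * F u) := by
  intro u hu
  show sf K β u * F u = _
  rw [hF u hu]
  unfold sf ev cc
  rw [sum_mul_sum]
  have h1 : ∀ j ∈ range (K + 1), ∀ l ∈ range (K + 1),
      β j / (u + (j : ℚ)) * ∑ i ∈ range s, c i l / (u + (l : ℚ)) ^ (i + 1)
        = ∑ i ∈ range s, ∑ m ∈ range (K + 1), ∑ i' ∈ range (s + 1),
            β j * c i l * p1A j l i i' m / (u + (m : ℚ)) ^ (i' + 1) := by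
    intro j hj l hl
    rw [mul_sum]
    apply sum_congr rfl
    intro i hi
    have h2 := p1A_expand K s u hu j l i (by have := mem_range.1 hj; omega)
      (by have := mem_range.1 hl; omega) (mem_range.1 hi)
    have h3 : β j / (u + (j : ℚ)) * (c i l / (u + (l : ℚ)) ^ (i + 1))
        = β j * c i l * (1 / (u + (j : ℚ)) * (1 / (u + (l : ℚ)) ^ (i + 1))) := by ring
    rw [h3, h2, mul_sum]
    apply sum_congr rfl
    intro m _
    rw [mul_sum]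
    apply sum_congr rfl
    intro i' _
    ring
  rw [sum_congr rfl (fun j hj => sum_congr rfl (fun l hl => h1 j hj l hl))]
  have h4 : ∀ j ∈ range (K + 1), ∀ l ∈ range (K + 1),
      (∑ i ∈ range s, ∑ m ∈ range (K + 1), ∑ i' ∈ range (s + 1),
            β j * c i l * p1A j l i i' m / (u + (m : ℚ)) ^ (i' + 1))
        = ∑ m ∈ range (K + 1), ∑ i' ∈ range (s + 1), ∑ i ∈ range s,
            β j * c i l * p1A j l i i' m / (u + (m : ℚ)) ^ (i' + 1) := by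
    intro j _ l _
    rw [sum_comm]
    apply sum_congr rfl
    intro m _
    rw [sum_comm]
  rw [sum_congr rfl (fun j hj => sum_congr rfl (fun l hl => h4 j hj l hl))]
  have h5 : ∀ j ∈ range (K + 1),
      (∑ l ∈ range (K + 1), ∑ m ∈ range (K + 1), ∑ i' ∈ range (s + 1), ∑ i ∈ range s,
            β j * c i l * p1A j l i i' m / (u + (m : ℚ)) ^ (i' + 1))
        = ∑ m ∈ range (K + 1), ∑ i' ∈ range (s + 1), ∑ l ∈ range (K + 1), ∑ i ∈ range s,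
            β j * c i l * p1A j l i i' m / (u + (m : ℚ)) ^ (i' + 1) := by
    intro j _
    rw [sum_comm]
    apply sum_congr rfl
    intro m _
    rw [sum_comm]
  rw [sum_congr rfl h5, sum_comm]
  apply sum_congr rfl
  intro m _
  rw [sum_comm]
  apply sum_congr rfl
  intro i' _
  simp only [sum_div]

/-- The norm of the inverse of a difference. -/
lemma norm_inv_sub (K q : ℕ) [hq : Fact q.Prime] (hK : K < 2 * q) (j l : ℕ) (hj : j ≤ K)
    (hl : l ≤ K) (hjl : j ≠ l) : ‖(((j : ℚ) - l : ℚ) : ℚ_[q])‖⁻¹ ≤ (q : ℝ) := by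
  have hq1 : 1 < q := hq.out.one_lt
  have hq0 : (0 : ℝ) < q := by exact_mod_cast (by omega : 0 < q)
  have hz : ((j : ℤ) - l) ≠ 0 := by omega
  have hnd : ¬ ((q ^ 2 : ℕ) : ℤ) ∣ ((j : ℤ) - l) := by
    intro h
    have h1 := Int.le_of_dvd (by positivity : 0 < |(j : ℤ) - l|) ((dvd_abs _ _).2 h)
    have h2 : |(j : ℤ) - l| ≤ K := by
      rw [abs_le]; constructor <;> omega
    have h3 : ((q ^ 2 : ℕ) : ℤ) ≤ (K : ℤ) := le_trans h1 h2
    have h4 : q ^ 2 ≤ K := by exact_mod_cast h3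
    nlinarith
  have hn : (q : ℝ) ^ (-(1 : ℤ)) ≤ ‖(((j : ℤ) - l : ℤ) : ℚ_[q])‖ := by
    by_contra hcon
    rw [not_le] at hcon
    rw [Padic.norm_lt_pow_iff_norm_le_pow_sub_one] at hcon
    have h5 : ‖(((j : ℤ) - l : ℤ) : ℚ_[q])‖ ≤ (q : ℝ) ^ (-((2 : ℕ) : ℤ)) := by
      refine le_trans hcon (le_of_eq ?_)
      norm_num
    have h6 := (Padic.norm_int_le_pow_iff_dvd ((j : ℤ) - l) 2).1 h5
    exact hnd (by exact_mod_cast h6)
  have he : (((j : ℚ) - l : ℚ) : ℚ_[q]) = (((j : ℤ) - l : ℤ) : ℚ_[q]) := by push_cast; rfl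
  rw [he]
  have h7 : (0 : ℝ) < (q : ℝ) ^ (-(1 : ℤ)) := by positivity
  calc ‖(((j : ℤ) - l : ℤ) : ℚ_[q])‖⁻¹ ≤ ((q : ℝ) ^ (-(1 : ℤ)))⁻¹ := by
        apply inv_anti₀ h7 hn
    _ = q := by simp

/-- The norm of the structure constants. -/
lemma norm_p1A (K q : ℕ) [hq : Fact q.Prime] (hK : K < 2 * q) (j l i i' m s : ℕ) (hj : j ≤ K)
    (hl : l ≤ K) (hi : i < s) (_hi' : i' < s + 1) :
    (q : ℝ) ^ (s - 1 - i) * ‖((p1A j l i i' m : ℚ) : ℚ_[q])‖ ≤ (q : ℝ) ^ (s - i') := by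
  have hq1 : 1 < q := hq.out.one_lt
  have hq0 : (0 : ℝ) < q := by exact_mod_cast (by omega : 0 < q)
  have hq1' : (1 : ℝ) ≤ q := by exact_mod_cast hq1.le
  have hzero : (q : ℝ) ^ (s - 1 - i) * ‖((0 : ℚ) : ℚ_[q])‖ ≤ (q : ℝ) ^ (s - i') := by
    simp only [Rat.cast_zero, norm_zero, mul_zero]
    positivity
  have key : ∀ e f : ℕ, j ≠ l → s - 1 - i + e ≤ s - i' →
      (q : ℝ) ^ (s - 1 - i) * ‖(((-1 : ℚ) ^ f / ((j : ℚ) - l) ^ e : ℚ) : ℚ_[q])‖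
        ≤ (q : ℝ) ^ (s - i') := by
    intro e f hjl he
    have h1 := norm_inv_sub K q hK j l hj hl hjl
    have h2 : ‖(((-1 : ℚ) ^ f / ((j : ℚ) - l) ^ e : ℚ) : ℚ_[q])‖
        = (‖(((j : ℚ) - l : ℚ) : ℚ_[q])‖⁻¹) ^ e := by
      rw [Rat.cast_div, Rat.cast_pow, Rat.cast_pow, norm_div, norm_pow, norm_pow]
      simp
    rw [h2]
    calc (q : ℝ) ^ (s - 1 - i) * (‖(((j : ℚ) - l : ℚ) : ℚ_[q])‖⁻¹) ^ e
        ≤ (q : ℝ) ^ (s - 1 - i) * (q : ℝ) ^ e := by gcongr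
      _ = (q : ℝ) ^ (s - 1 - i + e) := by rw [pow_add]
      _ ≤ _ := pow_le_pow_right₀ hq1' he
  unfold p1A
  split_ifs with h1 h2 h3 h4 h5 h6
  · simp only [Rat.cast_one, norm_one, mul_one]
    apply pow_le_pow_right₀ hq1'
    omega
  · exact hzero
  · exact key _ _ h1 (by omega)
  · exact hzero
  · exact key _ _ h1 (by omega)
  · exact hzero
  · exact hzero

lemma norm_sum_le' (q : ℕ) [hq : Fact q.Prime] {ι : Type*} (S : Finset ι) (f : ι → ℚ) (B : ℝ)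
    (hB : 0 ≤ B) (h : ∀ i ∈ S, ‖((f i : ℚ) : ℚ_[q])‖ ≤ B) :
    ‖((∑ i ∈ S, f i : ℚ) : ℚ_[q])‖ ≤ B := by
  rw [Rat.cast_sum]
  exact IsUltrametricDist.norm_sum_le_of_forall_le_of_nonneg hB h

end BYq3

open BP1 BYq3 in
/-- Block Yq3. -/
theorem p_Yq3 (hP2 : S_P2) : S_Yq3 := by
  intro K q hq hqK hK s hs c c' F β e f hF hc hβ hc' i' hi' m hm
  have hq1 : 1 < q := hq.out.one_lt
  have hq0 : (0 : ℝ) < q := by exact_mod_cast (by omega : 0 < q)
  have h1 : c' i' m = cc K s c β i' m := by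
    refine hP2 K (s + 1) c' (cc K s c β) 0 ?_ i' hi' m hm
    intro u hu
    rw [add_zero, ← hc' u hu, ← pf_cc K s c F β hF u hu]
  rw [h1]
  unfold cc
  have hB : (0 : ℝ) ≤ (q : ℝ) ^ (e + f + (s - i')) := by positivity
  apply norm_sum_le' q _ _ _ hB
  intro j hj
  apply norm_sum_le' q _ _ _ hB
  intro l hl
  apply norm_sum_le' q _ _ _ hB
  intro i hi
  have hj' : j ≤ K := by have := mem_range.1 hj; omega
  have hl' : l ≤ K := by have := mem_range.1 hl; omega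
  have hi'' := mem_range.1 hi
  have h2 := hc i hi'' l hl'
  have h3 := hβ j hj'
  have h4 := norm_p1A K q hK j l i i' m s hj' hl' hi'' hi'
  rw [Rat.cast_mul, Rat.cast_mul, norm_mul, norm_mul]
  calc ‖((β j : ℚ) : ℚ_[q])‖ * ‖((c i l : ℚ) : ℚ_[q])‖ * ‖((p1A j l i i' m : ℚ) : ℚ_[q])‖
      ≤ (q : ℝ) ^ f * (q : ℝ) ^ (e + (s - 1 - i)) * ‖((p1A j l i i' m : ℚ) : ℚ_[q])‖ := by
        gcongr
    _ = (q : ℝ) ^ (e + f) * ((q : ℝ) ^ (s - 1 - i) * ‖((p1A j l i i' m : ℚ) : ℚ_[q])‖) := by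
        rw [pow_add, pow_add]; ring
    _ ≤ (q : ℝ) ^ (e + f) * (q : ℝ) ^ (s - i') := by gcongr
    _ = _ := by rw [← pow_add]

end Pool.Agent.Work.MP_03df5c_pb
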