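import Pool.Agent.Work.MP_03df5c_pb.B_Yq3

/-!
# Block Yq4: four factors, locally at a prime
-/

open Finset

namespace Pool.Agent.Work.MP_03df5c_pb

open BYq3 in
/-- Block Yq4. -/
theorem p_Yq4 (hYq3 : S_Yq3) : S_Yq4 := by
  intro K q hq hqK hK β f hβ
  have hF1 : PF K 1 (fun _ j => β 3 j) (fun u => sf K (β 3) u) := by
    intro u _
    simp [sf, ev]
  have hF2 := pf_cc K 1 _ _ (β 2) hF1
  have hF3 := pf_cc K 2 _ _ (β 1) hF2
  have hF4 := pf_cc K 3 _ _ (β 0) hF3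
  have h1 : ∀ i < 1, ∀ j ≤ K, ‖(((fun (_ : ℕ) (j : ℕ) => β 3 j) i j : ℚ) : ℚ_[q])‖
      ≤ (q : ℝ) ^ (f 3 + (1 - 1 - i)) := by
    intro i hi j hj
    have h := hβ 3 j hj
    have hi0 : i = 0 := by omega
    subst hi0
    simpa using h
  have h2 := hYq3 K q hqK hK 1 le_rfl _ _ _ (β 2) (f 3) (f 2) hF1 h1 (fun j hj => hβ 2 j hj) hF2
  have h3 := hYq3 K q hqK hK 2 (by omega) _ _ _ (β 1) (f 3 + f 2) (f 1) hF2
    (fun i hi j hj => by simpa using h2 i hi j hj) (fun j hj => hβ 1 j hj) hF3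
  have h4 := hYq3 K q hqK hK 3 (by omega) _ _ _ (β 0) (f 3 + f 2 + f 1) (f 0) hF3
    (fun i hi j hj => by simpa using h3 i hi j hj) (fun j hj => hβ 0 j hj) hF4
  refine ⟨_, hF4, fun i hi j hj => ?_⟩
  have h5 := h4 i hi j hj
  have h6 : f 3 + f 2 + f 1 + f 0 + (3 - i) = f 0 + f 1 + f 2 + f 3 + (3 - i) := by ring
  rw [h6] at h5
  exact h5

end Pool.Agent.Work.MP_03df5c_pb
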