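import Pool.Agent.Work.MP_03df5c_pb.Interface9

/-!
# Block Yq5: the residue of a derivative
-/

open Finset

namespace Pool.Agent.Work.MP_03df5c_pb

theorem Yq5_alg (b q Y : ℚ) (hq : q ≠ 0) (hY : Y ≠ 0) (hX : Y + q ≠ 0) :
    (b / (Y + q) + b / Y) * (2 * b / q * (1 / (Y + q) - 1 / Y)) ^ 3 =
      (b * (2 * b / q) ^ 3 * (2 / q ^ 2) / (Y + q) ^ 2 + b * (2 * b / q) ^ 3 * (2 / q) / (Y + q) ^ 3 +
        b * (2 * b / q) ^ 3 / (Y + q) ^ 4) +
      (-(b * (2 * b / q) ^ 3 * (2 / q ^ 2)) / Y ^ 2 + b * (2 * b / q) ^ 3 * (2 / q) / Y ^ 3 +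
        -(b * (2 * b / q) ^ 3) / Y ^ 4) := by
  field_simp
  ring

theorem p_Yq5 : S_Yq5 := by
  intro K q j b hq hqj hj
  have hq0 : (q : ℚ) ≠ 0 := by
    have : 0 < q := hq
    exact_mod_cast this.ne'
  refine ⟨fun i j' => (if j' = j then
      (if i = 1 then b * (2 * b / q) ^ 3 * (2 / (q : ℚ) ^ 2) else
        if i = 2 then b * (2 * b / q) ^ 3 * (2 / (q : ℚ)) else
        if i = 3 then b * (2 * b / q) ^ 3 else 0) else 0) + (if j' = j - q then
      (if i = 1 then -(b * (2 * b / q) ^ 3 * (2 / (q : ℚ) ^ 2)) else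
        if i = 2 then b * (2 * b / q) ^ 3 * (2 / (q : ℚ)) else
        if i = 3 then -(b * (2 * b / q) ^ 3) else 0) else 0), ?_, ?_⟩
  · intro u hu
    have hY : u + ((j - q : ℕ) : ℚ) ≠ 0 := hu _ (by omega)
    have hX : u + (j : ℚ) ≠ 0 := hu _ hj
    have e : u + (j : ℚ) = u + ((j - q : ℕ) : ℚ) + q := by
      rw [Nat.cast_sub hqj]
      ring
    show (b / (u + (j : ℚ)) + b / (u + ((j - q : ℕ) : ℚ))) *
     (2 * b / (q : ℚ) * (1 / (u + (j : ℚ)) - 1 / (u + ((j - q : ℕ) : ℚ)))) ^ 3 = _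
    rw [e] at hX ⊢
    rw [Yq5_alg b q _ hq0 hY hX]
    unfold ev
    generalize b * (2 * b / (q : ℚ)) ^ 3 * (2 / (q : ℚ) ^ 2) = c1
    generalize b * (2 * b / (q : ℚ)) ^ 3 * (2 / (q : ℚ)) = c2
    generalize b * (2 * b / (q : ℚ)) ^ 3 = c3
    simp only [add_div, Finset.sum_add_distrib, ite_div, zero_div]
    rw [Finset.sum_comm, Finset.sum_comm (s := range (K + 1)) (t := range 4)]
    simp only [Finset.sum_ite_eq', Finset.mem_range]
    have k1 : j < K + 1 := by omega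
    have k2 : j - q < K + 1 := by omega
    simp only [k1, k2, if_true]
    simp only [Finset.sum_range_succ, Finset.sum_range_zero, ← e]
    norm_num
  · have h1 : j ≠ j - q := by omega
    simp [h1]

end Pool.Agent.Work.MP_03df5c_pb
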