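import Pool.Agent.Work.MP_03df5c_pb.B_Yq8

/-!
# Block Yq6: three blocks replaced, the middle case
-/

open Finset Filter Topology

namespace Pool.Agent.Work.MP_03df5c_pb

namespace BYq6

theorem sf_two (K j j0 : ℕ) (hj : j ≤ K) (hj0 : j0 ≤ K) (x y u : ℚ) :
    sf K (fun j' => (if j' = j then x else 0) + (if j' = j0 then y else 0)) u =
      x / (u + (j : ℚ)) + y / (u + (j0 : ℚ)) := by
  unfold sf
  simp only [add_div, ite_div, zero_div, Finset.sum_add_distrib, Finset.sum_ite_eq', Finset.mem_range]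
  rw [if_pos (by omega), if_pos (by omega)]

theorem sf_sub (K : ℕ) (f g : ℕ → ℚ) (u : ℚ) :
    sf K (fun j => f j - g j) u = sf K f u - sf K g u := by
  unfold sf
  rw [← Finset.sum_sub_distrib]
  exact Finset.sum_congr rfl fun j _ => by ring

theorem half_ne (l j j' : ℕ) : (1 / 2 + (l : ℚ) - (j : ℚ) + (j' : ℚ)) ≠ 0 := by
  intro h
  have h2 : ((1 + 2 * (l : ℤ) - 2 * (j : ℤ) + 2 * (j' : ℤ) : ℤ) : ℚ) = 0 := by
    push_cast
    linarith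
  have h3 : (1 + 2 * (l : ℤ) - 2 * (j : ℤ) + 2 * (j' : ℤ) : ℤ) = 0 := by exact_mod_cast h2
  omega

theorem zero_at (hP3 : S_P3) (K l j : ℕ) (hlj : l < j) (hj : j ≤ K) :
    ∑ j' ∈ range (K + 1), bh K j' / (1 / 2 + (l : ℚ) - (j : ℚ) + (j' : ℚ)) = 0 := by
  have h := (hP3 K (1 / 2 + (l : ℚ) - (j : ℚ)) (fun j' _ => half_ne l j j')).2 (th 2 1 1)
  have hs : sf K (bet K (th 2 1 1)) (1 / 2 + (l : ℚ) - (j : ℚ)) =
      ∑ j' ∈ range (K + 1), bh K j' / (1 / 2 + (l : ℚ) - (j : ℚ) + (j' : ℚ)) := rfl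
  rw [← hs, h]
  have hb : bin (1 / 2 + (l : ℚ) - (j : ℚ) - th 2 1 1 + K) K = 0 := by
    unfold bin
    rw [div_eq_zero_iff]
    left
    refine Finset.prod_eq_zero (i := K + l - j) (Finset.mem_range.2 (by omega)) ?_
    rw [Nat.cast_sub (by omega)]
    unfold th
    push_cast
    ring
  rw [hb, zero_mul]

theorem lin (hP3 : S_P3) (K l j : ℕ) (hlj : l < j) (hj : j ≤ K) (u : ℚ) (hu : Good K u) :
    (u - (1 / 2 + (l : ℚ) - (j : ℚ))) * sf K (bhh K l j) u = - sf K (bh K) u := by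
  have h0 := zero_at hP3 K l j hlj hj
  have e : (u - (1 / 2 + (l : ℚ) - (j : ℚ))) * sf K (bhh K l j) u =
      ∑ j' ∈ range (K + 1), bh K j' / (1 / 2 + (l : ℚ) - (j : ℚ) + (j' : ℚ)) - sf K (bh K) u := by
    unfold sf
    rw [Finset.mul_sum, ← Finset.sum_sub_distrib]
    refine Finset.sum_congr rfl fun j' hj' => ?_
    have h1 := half_ne l j j'
    have h2 : u + (j' : ℚ) ≠ 0 := hu j' (by have := Finset.mem_range.1 hj'; omega)
    unfold bhh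
    generalize bh K j' = b
    rw [div_div, ← mul_div_assoc, div_sub_div _ _ h1 h2, div_eq_div_iff (mul_ne_zero h1 h2)
      (mul_ne_zero h1 h2)]
    ring
  rw [e, h0, zero_sub]

theorem norm_two (q : ℕ) [Fact q.Prime] (hq3 : 3 < q) : ‖((2 : ℚ) : ℚ_[q])‖ = 1 := by
  have hp : q.Prime := Fact.out
  have h5 : ‖((2 : ℕ) : ℚ_[q])‖ = 1 := by
    rw [Padic.norm_natCast_eq_one_iff]
    exact (Nat.coprime_primes hp Nat.prime_two).2 (by omega)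
  simpa using h5

theorem norm_q (q : ℕ) [Fact q.Prime] : ‖((q : ℚ) : ℚ_[q])‖ = (q : ℝ)⁻¹ := by
  have := Padic.norm_p (p := q)
  simpa using this

/-- The value `2 (1/2 + l - j + j')` is an integer. -/
theorem two_mul_half (l j j' : ℕ) : 2 * (1 / 2 + (l : ℚ) - (j : ℚ) + (j' : ℚ)) =
    ((1 + 2 * (l : ℤ) - 2 * (j : ℤ) + 2 * (j' : ℤ) : ℤ) : ℚ) := by
  push_cast
  ring

theorem norm_half (q : ℕ) [Fact q.Prime] (hq3 : 3 < q) (l j j' : ℕ)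
    (h : ¬ (q : ℤ) ∣ 1 + 2 * (l : ℤ) - 2 * (j : ℤ) + 2 * (j' : ℤ)) :
    ‖((1 / 2 + (l : ℚ) - (j : ℚ) + (j' : ℚ) : ℚ) : ℚ_[q])‖ = 1 := by
  have h1 : ‖((1 + 2 * (l : ℤ) - 2 * (j : ℤ) + 2 * (j' : ℤ) : ℤ) : ℚ_[q])‖ = 1 := by
    have h2 := Padic.norm_int_le_one (p := q) (1 + 2 * (l : ℤ) - 2 * (j : ℤ) + 2 * (j' : ℤ))
    rcases h2.lt_or_eq with h3 | h3
    · exact absurd (Padic.norm_intCast_lt_one_iff.1 h3) h
    · exact h3
  have h4 : ((1 + 2 * (l : ℤ) - 2 * (j : ℤ) + 2 * (j' : ℤ) : ℤ) : ℚ_[q]) =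
      ((2 : ℚ) : ℚ_[q]) * ((1 / 2 + (l : ℚ) - (j : ℚ) + (j' : ℚ) : ℚ) : ℚ_[q]) := by
    rw [← Rat.cast_mul, two_mul_half]
    push_cast
    ring
  rw [h4, norm_mul, norm_two q hq3, one_mul] at h1
  exact h1

/-- For `j'` different from `j`, `j - q` the coefficient is integral at `q`. -/
theorem norm_other (hYq0 : S_Yq0) (K q : ℕ) [Fact q.Prime] (hq3 : 3 < q) (hK2 : K < 2 * q)
    (j l j' : ℕ) (hqj : q ≤ j) (hjK : j ≤ K) (hl : 2 * l + 1 = q) (hj' : j' ≤ K) (h1 : j' ≠ j)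
    (h2 : j' ≠ j - q) : ‖((bhh K l j j' : ℚ) : ℚ_[q])‖ ≤ 1 := by
  unfold bhh
  have hp : q.Prime := Fact.out
  rw [Rat.cast_div, norm_div, norm_half q hq3 l j j' ?_, div_one]
  · exact Yq8aux.norm_bh hYq0 K q hq3 j' hj'
  · rintro ⟨k, hk⟩
    have e : (q : ℤ) * (k - 1) = 2 * ((j' : ℤ) - j) := by
      have : (q : ℤ) = 2 * l + 1 := by exact_mod_cast hl.symm
      linear_combination -hk - this
    have h3 : (q : ℤ) ∣ 2 * ((j' : ℤ) - j) := ⟨k - 1, e.symm⟩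
    have h4 : IsCoprime (q : ℤ) 2 := by
      have := (Nat.coprime_primes hp Nat.prime_two).2 (by omega)
      exact_mod_cast Nat.isCoprime_iff_coprime.2 this
    have h5 : (q : ℤ) ∣ (j' : ℤ) - j := h4.dvd_of_dvd_mul_left h3
    obtain ⟨w, hw⟩ := h5
    have hw1 : w < 1 := by
      by_contra hcon
      have : (q : ℤ) ≤ q * w := by nlinarith
      omega
    have hw2 : -2 < w := by
      by_contra hcon
      have : (q : ℤ) * w ≤ -2 * q := by nlinarith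
      omega
    have hw3 : w = 0 ∨ w = -1 := by omega
    rcases hw3 with rfl | rfl <;> omega

theorem norm_bhh (hYq0 : S_Yq0) (K q : ℕ) [Fact q.Prime] (hq3 : 3 < q) (hK2 : K < 2 * q)
    (j l j' : ℕ) (hqj : q ≤ j) (hjK : j ≤ K) (hl : 2 * l + 1 = q) (hj' : j' ≤ K) :
    ‖((bhh K l j j' : ℚ) : ℚ_[q])‖ ≤ (q : ℝ) ^ 1 := by
  have hq1 : (1 : ℝ) ≤ q := by exact_mod_cast (by omega : 1 ≤ q)
  have hq0 : (0 : ℝ) < q := by linarith
  have hlq : (q : ℚ) = 2 * (l : ℚ) + 1 := by exact_mod_cast hl.symm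
  have hb := Yq8aux.norm_bh hYq0 K q hq3 j' hj'
  have hn2 := norm_two q hq3
  by_cases h1 : j' = j
  · subst h1
    have e : (1 / 2 + (l : ℚ) - (j' : ℚ) + (j' : ℚ)) = (q : ℚ) / 2 := by rw [hlq]; ring
    unfold bhh
    rw [e, Rat.cast_div, Rat.cast_div, norm_div, norm_div, norm_q, hn2, div_one, div_inv_eq_mul,
      pow_one]
    nlinarith [norm_nonneg ((bh K j' : ℚ) : ℚ_[q])]
  · by_cases h2 : j' = j - q
    · have h2' : (j' : ℚ) = (j : ℚ) - (q : ℚ) := by rw [h2, Nat.cast_sub hqj]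
      have e : (1 / 2 + (l : ℚ) - (j : ℚ) + (j' : ℚ)) = -((q : ℚ) / 2) := by
        rw [h2', hlq]
        ring
      unfold bhh
      rw [e, Rat.cast_div, Rat.cast_neg, Rat.cast_div, norm_div, norm_neg, norm_div, norm_q, hn2,
        div_one, div_inv_eq_mul, pow_one]
      nlinarith [norm_nonneg ((bh K j' : ℚ) : ℚ_[q])]
    · refine (norm_other hYq0 K q hq3 hK2 j l j' hqj hjK hl hj' h1 h2).trans ?_
      rw [pow_one]
      exact hq1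

theorem norm_del (hYq0 : S_Yq0) (hYq1 : S_Yq1) (K q : ℕ) [Fact q.Prime] (hq3 : 3 < q)
    (hK2 : K < 2 * q) (j l j' : ℕ) (hqj : q ≤ j) (hjK : j ≤ K) (hl : 2 * l + 1 = q) (hj' : j' ≤ K) :
    ‖((bhh K l j j' - ((if j' = j then 2 * bh K j / (q : ℚ) else 0) +
      (if j' = j - q then -(2 * bh K j / (q : ℚ)) else 0)) : ℚ) : ℚ_[q])‖ ≤ 1 := by
  have hp : q.Prime := Fact.out
  have hlq : (q : ℚ) = 2 * (l : ℚ) + 1 := by exact_mod_cast hl.symm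
  have hq0 : (q : ℚ) ≠ 0 := by exact_mod_cast hp.pos.ne'
  have hn2 := norm_two q hq3
  by_cases h1 : j' = j
  · have h2 : j' ≠ j - q := by have := hp.pos; omega
    have e : (1 / 2 + (l : ℚ) - (j : ℚ) + (j' : ℚ)) = (q : ℚ) / 2 := by rw [h1, hlq]; ring
    rw [if_pos h1, if_neg h2]
    unfold bhh
    rw [e, h1]
    have : bh K j / ((q : ℚ) / 2) - (2 * bh K j / (q : ℚ) + 0) = 0 := by
      field_simp
      ring
    rw [this]
    simp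
  · by_cases h2 : j' = j - q
    · have h2' : (j' : ℚ) = (j : ℚ) - (q : ℚ) := by rw [h2, Nat.cast_sub hqj]
      have e : (1 / 2 + (l : ℚ) - (j : ℚ) + (j' : ℚ)) = -((q : ℚ) / 2) := by
        rw [h2', hlq]
        ring
      rw [if_neg h1, if_pos h2]
      unfold bhh
      rw [e]
      obtain ⟨z, hz⟩ := hYq1 K q j' hp hq3 hK2 (by omega)
      have e2 : j' + q = j := by omega
      rw [e2] at hz
      have h4 : (4 : ℚ) ^ K ≠ 0 := by positivity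
      have e3 : bh K j' / -((q : ℚ) / 2) - (0 + -(2 * bh K j / (q : ℚ))) =
          2 * (z : ℚ) / ((2 : ℚ) * 2) ^ K := by
        have h5 : bh K j - bh K j' = (q : ℚ) * z / 4 ^ K := by
          rw [eq_div_iff h4]
          linear_combination hz
        have h6 : bh K j' / -((q : ℚ) / 2) - (0 + -(2 * bh K j / (q : ℚ))) =
            2 * (bh K j - bh K j') / (q : ℚ) := by
          field_simp
          ring
        rw [h6, h5]
        norm_num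
        field_simp
      rw [e3, Rat.cast_div, Rat.cast_mul, Rat.cast_pow, Rat.cast_mul, norm_div, norm_mul, norm_pow,
        norm_mul, hn2]
      have := Padic.norm_int_le_one (p := q) z
      simpa using this
    · rw [if_neg h1, if_neg h2, add_zero, sub_zero]
      exact norm_other hYq0 K q hq3 hK2 j l j' hqj hjK hl hj' h1 h2

theorem ev_add (K s : ℕ) (a b : ℕ → ℕ → ℚ) (u : ℚ) :
    ev K s (fun i j => a i j + b i j) u = ev K s a u + ev K s b u := by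
  unfold ev
  rw [← Finset.sum_add_distrib]
  refine Finset.sum_congr rfl fun j _ => ?_
  rw [← Finset.sum_add_distrib]
  exact Finset.sum_congr rfl fun i _ => by ring

theorem ev_mul (K s : ℕ) (x : ℚ) (a : ℕ → ℕ → ℚ) (u : ℚ) :
    ev K s (fun i j => x * a i j) u = x * ev K s a u := by
  unfold ev
  rw [Finset.mul_sum]
  refine Finset.sum_congr rfl fun j _ => ?_
  rw [Finset.mul_sum]
  exact Finset.sum_congr rfl fun i _ => by ring

theorem four (hYq4 : S_Yq4) (K q : ℕ) [Fact q.Prime] (hqK : q ≤ K) (hK2 : K < 2 * q)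
    (a0 a1 a2 a3 : ℕ → ℚ) (f0 f1 f2 f3 : ℕ) (h0 : ∀ j ≤ K, ‖((a0 j : ℚ) : ℚ_[q])‖ ≤ (q : ℝ) ^ f0)
    (h1 : ∀ j ≤ K, ‖((a1 j : ℚ) : ℚ_[q])‖ ≤ (q : ℝ) ^ f1)
    (h2 : ∀ j ≤ K, ‖((a2 j : ℚ) : ℚ_[q])‖ ≤ (q : ℝ) ^ f2)
    (h3 : ∀ j ≤ K, ‖((a3 j : ℚ) : ℚ_[q])‖ ≤ (q : ℝ) ^ f3) (hf : f0 + f1 + f2 + f3 ≤ 2) :
    ∃ c : ℕ → ℕ → ℚ, PF K 4 c (fun u => sf K a0 u * (sf K a1 u * (sf K a2 u * sf K a3 u))) ∧
      ∀ j ≤ K, ‖((c 0 j : ℚ) : ℚ_[q])‖ ≤ (q : ℝ) ^ 5 := by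
  obtain ⟨c, hc, hn⟩ := hYq4 K q hqK hK2 ![a0, a1, a2, a3] ![f0, f1, f2, f3] (by
    intro k
    fin_cases k
    exacts [h0, h1, h2, h3])
  have hq1 : (1 : ℝ) ≤ q := by
    have hp : q.Prime := Fact.out
    exact_mod_cast hp.pos
  refine ⟨c, hc, fun j hj => (hn 0 (by norm_num) j hj).trans ?_⟩
  refine pow_le_pow_right₀ hq1 ?_
  show f0 + f1 + f2 + f3 + (3 - 0) ≤ 5
  omega

theorem vC (b q X : ℚ) (hq : q ≠ 0) (hX : X ≠ 0) (hY : X - q ≠ 0) :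
    (X - q / 2) * (2 * b / q / X + (-(2 * b / q)) / (X - q)) = -(b / X + b / (X - q)) := by
  field_simp
  ring

theorem key (v κ H A C E : ℚ) (hA : A = -(v * H)) (hE : E = -(v * C)) :
    (2 * v + κ) * (H ^ 3 * A) = (-2) * (H * (H * (A * A))) + (κ * (E * C ^ 3) +
      ((4 * κ) * (E * (C * (C * (H - C)))) + ((6 * κ) * (E * (C * ((H - C) * (H - C)))) +
      ((4 * κ) * (E * ((H - C) * ((H - C) * (H - C)))) +
        κ * ((A - E) * ((H - C) * ((H - C) * (H - C)))))))) := by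
  rw [hA, hE]
  ring

end BYq6

theorem p_Yq6 (hP2 : S_P2) (hP3 : S_P3) (hYq0 : S_Yq0) (hYq1 : S_Yq1) (hYq4 : S_Yq4)
    (hYq5 : S_Yq5) : S_Yq6 := by
  intro K q _ hq3 hqK hK2 j l hlj hqj hjK hl c3 hc3
  have hp : q.Prime := Fact.out
  have hq0 : (q : ℚ) ≠ 0 := by exact_mod_cast hp.pos.ne'
  have hlq : (q : ℚ) = 2 * (l : ℚ) + 1 := by exact_mod_cast hl.symm
  have hqR : (1 : ℝ) ≤ q := by exact_mod_cast hp.pos
  obtain ⟨b, hb⟩ : ∃ b, b = bh K j := ⟨_, rfl⟩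
  obtain ⟨gam, hgam⟩ : ∃ gam : ℕ → ℚ, gam = fun j' => (if j' = j then 2 * b / (q : ℚ) else 0) +
    (if j' = j - q then -(2 * b / (q : ℚ)) else 0) := ⟨_, rfl⟩
  obtain ⟨eps, heps⟩ : ∃ eps : ℕ → ℚ, eps = fun j' => (if j' = j then b else 0) +
    (if j' = j - q then b else 0) := ⟨_, rfl⟩
  have hnb := BYq6.norm_two q hq3
  have nbh : ∀ j' ≤ K, ‖((bh K j' : ℚ) : ℚ_[q])‖ ≤ (q : ℝ) ^ 0 := fun j' hj' => by
    rw [pow_zero]
    exact Yq8aux.norm_bh hYq0 K q hq3 j' hj'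
  have nbhh : ∀ j' ≤ K, ‖((bhh K l j j' : ℚ) : ℚ_[q])‖ ≤ (q : ℝ) ^ 1 := fun j' hj' =>
    BYq6.norm_bhh hYq0 K q hq3 hK2 j l j' hqj hjK hl hj'
  have nb : ‖((b : ℚ) : ℚ_[q])‖ ≤ 1 := by
    rw [hb]
    exact Yq8aux.norm_bh hYq0 K q hq3 j hjK
  have n2bq : ‖((2 * b / (q : ℚ) : ℚ) : ℚ_[q])‖ ≤ (q : ℝ) ^ 1 := by
    rw [Rat.cast_div, Rat.cast_mul, norm_div, norm_mul, hnb, BYq6.norm_q, one_mul, div_inv_eq_mul,
      pow_one]
    nlinarith [norm_nonneg ((b : ℚ) : ℚ_[q])]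
  have neps : ∀ j' ≤ K, ‖((eps j' : ℚ) : ℚ_[q])‖ ≤ (q : ℝ) ^ 0 := by
    intro j' _
    rw [heps, pow_zero]
    show ‖(((if j' = j then b else 0) + (if j' = j - q then b else 0) : ℚ) : ℚ_[q])‖ ≤ 1
    have hne : j ≠ j - q := by have := hp.pos; omega
    by_cases h1 : j' = j
    · rw [if_pos h1, if_neg (by omega), add_zero]
      exact nb
    · rw [if_neg h1, zero_add]
      split_ifs
      · exact nb
      · simp
  have ngam : ∀ j' ≤ K, ‖((gam j' : ℚ) : ℚ_[q])‖ ≤ (q : ℝ) ^ 1 := by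
    intro j' _
    rw [hgam]
    show ‖(((if j' = j then 2 * b / (q : ℚ) else 0) +
      (if j' = j - q then -(2 * b / (q : ℚ)) else 0) : ℚ) : ℚ_[q])‖ ≤ (q : ℝ) ^ 1
    have hne : j ≠ j - q := by have := hp.pos; omega
    by_cases h1 : j' = j
    · rw [if_pos h1, if_neg (by omega), add_zero]
      exact n2bq
    · rw [if_neg h1, zero_add]
      split_ifs
      · rw [Rat.cast_neg, norm_neg]
        exact n2bq
      · simp
  have ndel : ∀ j' ≤ K, ‖(((fun j' => bhh K l j j' - gam j') j' : ℚ) : ℚ_[q])‖ ≤ (q : ℝ) ^ 0 := by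
    intro j' hj'
    rw [hgam, hb, pow_zero]
    exact BYq6.norm_del hYq0 hYq1 K q hq3 hK2 j l j' hqj hjK hl hj'
  have nalp : ∀ j' ≤ K, ‖(((fun j' => bh K j' - eps j') j' : ℚ) : ℚ_[q])‖ ≤ (q : ℝ) ^ 0 := by
    intro j' hj'
    show ‖((bh K j' - eps j' : ℚ) : ℚ_[q])‖ ≤ (q : ℝ) ^ 0
    have h1 := nbh j' hj'
    have h2 := neps j' hj'
    rw [sub_eq_add_neg, Rat.cast_add, Rat.cast_neg]
    refine (Padic.nonarchimedean _ _).trans (max_le h1 ?_)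
    rw [norm_neg]
    exact h2
  obtain ⟨c1, hc1, hn1⟩ := BYq6.four hYq4 K q hqK hK2 (bhh K l j) (bhh K l j) (bh K) (bh K) 1 1 0 0
    nbhh nbhh nbh nbh (by norm_num)
  obtain ⟨c2, hc2, hn2⟩ := hYq5 K q j b hp.pos hqj hjK
  obtain ⟨c4, hc4, hn4⟩ := BYq6.four hYq4 K q hqK hK2 eps gam gam (fun j' => bhh K l j j' - gam j')
    0 1 1 0 neps ngam ngam ndel (by norm_num)
  obtain ⟨c5, hc5, hn5⟩ := BYq6.four hYq4 K q hqK hK2 eps gam (fun j' => bhh K l j j' - gam j')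
    (fun j' => bhh K l j j' - gam j') 0 1 0 0 neps ngam ndel ndel (by norm_num)
  obtain ⟨c6, hc6, hn6⟩ := BYq6.four hYq4 K q hqK hK2 eps (fun j' => bhh K l j j' - gam j')
    (fun j' => bhh K l j j' - gam j') (fun j' => bhh K l j j' - gam j') 0 0 0 0 neps ndel ndel ndel
    (by norm_num)
  obtain ⟨c7, hc7, hn7⟩ := BYq6.four hYq4 K q hqK hK2 (fun j' => bh K j' - eps j')
    (fun j' => bhh K l j j' - gam j') (fun j' => bhh K l j j' - gam j')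
    (fun j' => bhh K l j j' - gam j') 0 0 0 0 nalp ndel ndel ndel (by norm_num)
  obtain ⟨κ, hκ⟩ : ∃ κ : ℤ, κ = 1 + 2 * (l : ℤ) - 2 * (j : ℤ) + (K : ℤ) := ⟨_, rfl⟩
  have hkey : ∀ u, Good K u → ev K 4 c3 u = ev K 4 (fun i j => (-2) * c1 i j + ((κ : ℚ) * c2 i j +
      ((4 * (κ : ℚ)) * c4 i j + ((6 * (κ : ℚ)) * c5 i j + ((4 * (κ : ℚ)) * c6 i j +
        (κ : ℚ) * c7 i j))))) u + 0 := by
    intro u hu
    rw [BYq6.ev_add, BYq6.ev_add, BYq6.ev_add, BYq6.ev_add, BYq6.ev_add, BYq6.ev_mul, BYq6.ev_mul,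
      BYq6.ev_mul, BYq6.ev_mul, BYq6.ev_mul, BYq6.ev_mul, ← hc1 u hu, ← hc2 u hu, ← hc4 u hu,
      ← hc5 u hu, ← hc6 u hu, ← hc7 u hu, ← hc3 u hu, add_zero]
    have hj0 : ((j - q : ℕ) : ℚ) = (j : ℚ) - (q : ℚ) := by rw [Nat.cast_sub hqj]
    have hX : u + (j : ℚ) ≠ 0 := hu j hjK
    have hY : u + (j : ℚ) - (q : ℚ) ≠ 0 := by
      have := hu (j - q) (by omega)
      rw [hj0] at this
      intro h
      exact this (by linear_combination h)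
    have eY : u + ((j - q : ℕ) : ℚ) = u + (j : ℚ) - (q : ℚ) := by rw [hj0]; ring
    have hC : sf K gam u = 2 * b / (q : ℚ) / (u + (j : ℚ)) +
        (-(2 * b / (q : ℚ))) / (u + (j : ℚ) - (q : ℚ)) := by
      rw [hgam, BYq6.sf_two K j (j - q) hjK (by omega), eY]
    have hE : sf K eps u = b / (u + (j : ℚ)) + b / (u + (j : ℚ) - (q : ℚ)) := by
      rw [heps, BYq6.sf_two K j (j - q) hjK (by omega), eY]
    have hv : u - (1 / 2 + (l : ℚ) - (j : ℚ)) = u + (j : ℚ) - (q : ℚ) / 2 := by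
      rw [hlq]
      ring
    have h3 := BYq6.lin hP3 K l j hlj hjK u hu
    have h4 := BYq6.vC b q (u + (j : ℚ)) hq0 hX hY
    rw [← hC, ← hE, ← hv] at h4
    have hk := BYq6.key (u - (1 / 2 + (l : ℚ) - (j : ℚ))) (κ : ℚ) (sf K (bhh K l j) u)
      (sf K (bh K) u) (sf K gam u) (sf K eps u) (by linear_combination h3) (by linear_combination h4)
    have hL : 2 * (u - (1 / 2 + (l : ℚ) - (j : ℚ))) + (κ : ℚ) = 2 * u + (K : ℚ) := by
      rw [hκ]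
      push_cast
      ring
    rw [hL] at hk
    have hD : sf K (fun j' => bhh K l j j' - gam j') u = sf K (bhh K l j) u - sf K gam u :=
      BYq6.sf_sub K _ _ u
    have hA' : sf K (fun j' => bh K j' - eps j') u = sf K (bh K) u - sf K eps u :=
      BYq6.sf_sub K _ _ u
    have hEC : (b / (u + (j : ℚ)) + b / (u + ((j - q : ℕ) : ℚ))) *
        (2 * b / (q : ℚ) * (1 / (u + (j : ℚ)) - 1 / (u + ((j - q : ℕ) : ℚ)))) ^ 3 =
        sf K eps u * sf K gam u ^ 3 := by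
      rw [hC, hE, eY]
      ring
    simp only [hD, hA', hEC]
    exact hk
  have huniq := hP2 K 4 c3 _ 0 hkey 0 (by norm_num) j hjK
  rw [huniq]
  have hκn : ‖(((κ : ℤ) : ℚ) : ℚ_[q])‖ ≤ 1 := by
    have := Padic.norm_int_le_one (p := q) κ
    simpa using this
  have hint : ∀ n : ℤ, ∀ x : ℚ, ‖((x : ℚ) : ℚ_[q])‖ ≤ (q : ℝ) ^ 5 →
      ‖((((n : ℤ) : ℚ) * x : ℚ) : ℚ_[q])‖ ≤ (q : ℝ) ^ 5 := by
    intro n x hx
    have h1 : ‖(((n : ℤ) : ℚ) : ℚ_[q])‖ ≤ 1 := by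
      have := Padic.norm_int_le_one (p := q) n
      simpa using this
    rw [Rat.cast_mul, norm_mul]
    calc _ ≤ 1 * (q : ℝ) ^ 5 := mul_le_mul h1 hx (norm_nonneg _) zero_le_one
      _ = _ := one_mul _
  have hadd : ∀ x y : ℚ, ‖((x : ℚ) : ℚ_[q])‖ ≤ (q : ℝ) ^ 5 → ‖((y : ℚ) : ℚ_[q])‖ ≤ (q : ℝ) ^ 5 →
      ‖((x + y : ℚ) : ℚ_[q])‖ ≤ (q : ℝ) ^ 5 := by
    intro x y hx hy
    rw [Rat.cast_add]
    exact (Padic.nonarchimedean _ _).trans (max_le hx hy)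
  have t1 : ‖(((-2) * c1 0 j : ℚ) : ℚ_[q])‖ ≤ (q : ℝ) ^ 5 := by
    have := hint (-2) (c1 0 j) (hn1 j hjK)
    push_cast at this ⊢
    exact this
  have t2 : ‖(((κ : ℚ) * c2 0 j : ℚ) : ℚ_[q])‖ ≤ (q : ℝ) ^ 5 := by
    rw [hn2, mul_zero, Rat.cast_zero, norm_zero]
    positivity
  have t4 : ‖(((4 * (κ : ℚ)) * c4 0 j : ℚ) : ℚ_[q])‖ ≤ (q : ℝ) ^ 5 := by
    have := hint (4 * κ) (c4 0 j) (hn4 j hjK)
    push_cast at this ⊢
    exact this
  have t5 : ‖(((6 * (κ : ℚ)) * c5 0 j : ℚ) : ℚ_[q])‖ ≤ (q : ℝ) ^ 5 := by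
    have := hint (6 * κ) (c5 0 j) (hn5 j hjK)
    push_cast at this ⊢
    exact this
  have t6 : ‖(((4 * (κ : ℚ)) * c6 0 j : ℚ) : ℚ_[q])‖ ≤ (q : ℝ) ^ 5 := by
    have := hint (4 * κ) (c6 0 j) (hn6 j hjK)
    push_cast at this ⊢
    exact this
  have t7 : ‖(((κ : ℚ) * c7 0 j : ℚ) : ℚ_[q])‖ ≤ (q : ℝ) ^ 5 := by
    have := hint κ (c7 0 j) (hn7 j hjK)
    push_cast at this ⊢
    exact this
  exact hadd _ _ t1 (hadd _ _ t2 (hadd _ _ t4 (hadd _ _ t5 (hadd _ _ t6 t7))))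

end Pool.Agent.Work.MP_03df5c_pb
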