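import Pool.Agent.Work.MP_03df5c_pb.Interface9

/-!
# Block Yq7: three blocks replaced, the case of coefficients divisible by `q`
-/

open Finset Filter Topology

namespace Pool.Agent.Work.MP_03df5c_pb

namespace BYq7

variable {q : ℕ} [hq : Fact q.Prime]

omit hq in
lemma not_dvd_two (h : 3 < q) : ¬ ((q : ℤ) ∣ 2) := by
  intro h1
  have := Int.le_of_dvd (by norm_num) h1
  omega

lemma dvd_of_two (h : 3 < q) {a : ℤ} (h1 : (q : ℤ) ∣ 2 * a) : (q : ℤ) ∣ a := by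
  have hp : Prime (q : ℤ) := Nat.prime_iff_prime_int.1 hq.out
  exact (hp.dvd_or_dvd h1).resolve_left (not_dvd_two h)

lemma norm_two (h : 3 < q) : ‖(2 : ℚ_[q])‖ = 1 := by
  have h1 : ‖((2 : ℤ) : ℚ_[q])‖ = 1 := by
    refine le_antisymm (Padic.norm_int_le_one _) ?_
    by_contra hcon
    exact not_dvd_two h (Padic.norm_intCast_lt_one_iff.1 (not_le.1 hcon))
  exact_mod_cast h1

lemma norm_four (h : 3 < q) (K : ℕ) : ‖(4 : ℚ_[q]) ^ K‖ = 1 := by
  have e : (4 : ℚ_[q]) = 2 * 2 := by norm_num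
  rw [norm_pow, e, norm_mul, norm_two h, one_mul, one_pow]

/-- all the coefficients are integral at `q` -/
lemma bh_le (hYq0 : S_Yq0) (h : 3 < q) (K j : ℕ) (hj : j ≤ K) : ‖((bh K j : ℚ) : ℚ_[q])‖ ≤ 1 := by
  rw [hYq0 K j hj, Rat.cast_div, norm_div]
  push_cast
  rw [norm_four h, div_one]
  have := Padic.norm_int_le_one (p := q)
    (((2 * j).choose j * (2 * (K - j)).choose (K - j) : ℕ) : ℤ)
  push_cast at this
  exact this

/-- a multiple of `q`, up to a power of `4` -/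
lemma bh_small (h : 3 < q) (K j : ℕ) (z : ℤ) (hz : (4 : ℚ) ^ K * bh K j = (q : ℚ) * z) :
    ‖((bh K j : ℚ) : ℚ_[q])‖ ≤ (q : ℝ)⁻¹ := by
  have h1 := congrArg (fun x : ℚ => ‖((x : ℚ) : ℚ_[q])‖) hz
  simp only [Rat.cast_mul, Rat.cast_pow, Rat.cast_natCast, Rat.cast_intCast, norm_mul] at h1
  have h4 : ‖(((4 : ℚ) : ℚ_[q])) ^ K‖ = 1 := by
    have := norm_four h K
    exact_mod_cast this
  rw [h4, one_mul, Padic.norm_p] at h1
  rw [h1]
  exact mul_le_of_le_one_right (by positivity) (Padic.norm_int_le_one z)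

/-- the coefficients of the quotients are integral at `q` -/
lemma bhh_le (hYq0 : S_Yq0) (hYq1 : S_Yq1) (hYq2 : S_Yq2) (h : 3 < q) (K : ℕ)
    (hK : K < 2 * q) (j l : ℕ) (hl : l < j) (hj : j ≤ K) (hd : q ∣ 2 * l + 1)
    (hd1 : 2 * l + 1 = q → j < q) (j' : ℕ) (hj' : j' ≤ K) :
    ‖((bhh K l j j' : ℚ) : ℚ_[q])‖ ≤ 1 := by
  obtain ⟨w, hw⟩ : ∃ w : ℤ, w = 2 * (l : ℤ) + 1 + 2 * ((j' : ℤ) - j) := ⟨_, rfl⟩
  have hw0 : w ≠ 0 := by omega
  have e1 : bhh K l j j' = 2 * bh K j' / (w : ℚ) := by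
    unfold bhh
    have hw' : (w : ℚ) ≠ 0 := by exact_mod_cast hw0
    have e2 : (1 / 2 + (l : ℚ) - (j : ℚ) + (j' : ℚ)) = (w : ℚ) / 2 := by
      rw [hw]
      push_cast
      ring
    rw [e2]
    field_simp
  rw [e1, Rat.cast_div, Rat.cast_mul, norm_div, norm_mul]
  have h2 : ‖((2 : ℚ) : ℚ_[q])‖ = 1 := by
    have := norm_two h
    exact_mod_cast this
  rw [h2, one_mul, Rat.cast_intCast]
  have hwn : 0 < ‖(w : ℚ_[q])‖ := norm_pos_iff.2 (by exact_mod_cast hw0)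
  rw [div_le_one hwn]
  by_cases hqw : (q : ℤ) ∣ w
  · -- exactly one factor `q`
    have hge : (q : ℝ)⁻¹ ≤ ‖(w : ℚ_[q])‖ := by
      by_contra hcon
      rw [not_le] at hcon
      have hcon' : ‖(w : ℚ_[q])‖ < (q : ℝ) ^ (-(1 : ℤ)) := by
        rw [zpow_neg, zpow_one]
        exact hcon
      rw [Padic.norm_lt_pow_iff_norm_le_pow_sub_one] at hcon'
      have h5 : ‖(w : ℚ_[q])‖ ≤ (q : ℝ) ^ (-((2 : ℕ) : ℤ)) := by
        refine le_trans hcon' (le_of_eq ?_)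
        norm_num
      have h6 := (Padic.norm_int_le_pow_iff_dvd w 2).1 h5
      have h7 := Int.le_of_dvd (by positivity : 0 < |w|) ((dvd_abs _ _).2 h6)
      have h8 : |w| ≤ 2 * (K : ℤ) := by
        rw [abs_le]
        constructor <;> omega
      have h9 : (q : ℤ) ^ 2 < 4 * q := by
        have : (2 * (K : ℤ)) < 4 * q := by omega
        linarith
      nlinarith
    refine le_trans ?_ hge
    -- `j'` is congruent to `j`
    have hcong : (q : ℤ) ∣ (j' : ℤ) - j := by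
      apply dvd_of_two h
      have h3 : (q : ℤ) ∣ 2 * (l : ℤ) + 1 := by exact_mod_cast hd
      have h4 := dvd_sub hqw h3
      rw [hw] at h4
      have e3 : 2 * (l : ℤ) + 1 + 2 * ((j' : ℤ) - j) - (2 * (l : ℤ) + 1) = 2 * ((j' : ℤ) - j) := by
        ring
      rwa [e3] at h4
    -- the residue
    obtain ⟨r, hr1, hr2, hr3, hr4⟩ : ∃ r : ℕ, r < q ∧ q < 2 * r ∧ (j' = r ∨ j' = r + q) ∧
        r ≤ K := by
      obtain ⟨k, hk⟩ := hd
      have hk3 : k < 4 := by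
        by_contra hc
        have : q * 4 ≤ q * k := Nat.mul_le_mul_left q (by omega)
        omega
      obtain ⟨x, hx⟩ := hcong
      have hx1 : x < 2 := by
        by_contra hc
        have : (q : ℤ) * 2 ≤ q * x := mul_le_mul_of_nonneg_left (by omega) (by positivity)
        omega
      have hx2 : -2 < x := by
        by_contra hc
        have : (q : ℤ) * x ≤ q * (-2) := mul_le_mul_of_nonneg_left (by omega) (by positivity)
        omega
      have hxx : x = -1 ∨ x = 0 ∨ x = 1 := by omega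
      have hkk : k = 0 ∨ k = 1 ∨ k = 2 ∨ k = 3 := by omega
      rcases hkk with rfl | rfl | rfl | rfl
      · omega
      · have hj1 : j < q := hd1 (by omega)
        refine ⟨j, hj1, by omega, ?_, hj⟩
        rcases hxx with rfl | rfl | rfl <;> omega
      · omega
      · refine ⟨j - q, by omega, by omega, ?_, by omega⟩
        rcases hxx with rfl | rfl | rfl <;> omega
    obtain ⟨z, hz⟩ := hYq2 K q r hq.out h hr1 hr2 hr4
    rcases hr3 with rfl | rfl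
    · exact bh_small h K _ z hz
    · obtain ⟨z', hz'⟩ := hYq1 K q r hq.out h hK hj'
      refine bh_small h K _ (z' + z) ?_
      have e4 : (4 : ℚ) ^ K * bh K (r + q) =
          (4 : ℚ) ^ K * (bh K (r + q) - bh K r) + (4 : ℚ) ^ K * bh K r := by ring
      rw [e4, hz, hz']
      push_cast
      ring
  · have hw1 : ‖(w : ℚ_[q])‖ = 1 := by
      refine le_antisymm (Padic.norm_int_le_one _) ?_
      by_contra hcon
      exact hqw (Padic.norm_intCast_lt_one_iff.1 (not_le.1 hcon))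
    rw [hw1]
    exact bh_le hYq0 h K j' hj'

omit hq in
/-- `n` times a product of four blocks tends to `0` -/
lemma tend (h1b : S_X1b) (K : ℕ) (b : Fin 4 → ℕ → ℚ) :
    Tendsto (fun n : ℕ => ((n : ℚ) + 1) * (sf K (b 0) ((n : ℚ) + 1) * (sf K (b 1) ((n : ℚ) + 1) *
      (sf K (b 2) ((n : ℚ) + 1) * sf K (b 3) ((n : ℚ) + 1))))) atTop (𝓝 0) := by
  have hinv : Tendsto (fun n : ℕ => ((n : ℚ) + 1)⁻¹) atTop (𝓝 0) := by
    have h1 : Tendsto (fun n : ℕ => ((n : ℚ) + 1)) atTop atTop :=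
      tendsto_atTop_add_const_right _ 1 tendsto_natCast_atTop_atTop
    exact tendsto_inv_atTop_zero.comp h1
  have hz : ∀ k, Tendsto (fun n : ℕ => sf K (b k) ((n : ℚ) + 1)) atTop (𝓝 0) := by
    intro k
    have h1 := hinv.mul (h1b K (b k))
    rw [zero_mul] at h1
    refine h1.congr fun n => ?_
    have hn : ((n : ℚ) + 1) ≠ 0 := by positivity
    rw [← mul_assoc, inv_mul_cancel₀ hn, one_mul]
  have h1 := (h1b K (b 0)).mul ((hz 1).mul ((hz 2).mul (hz 3)))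
  simp only [mul_zero] at h1
  refine h1.congr fun n => ?_
  ring

end BYq7

open BYq7 in
theorem p_Yq7 (hP2 : S_P2) (h1 : S_Y1) (h1b : S_X1b) (hY2b : S_Y2b) (hYq0 : S_Yq0)
    (hYq1 : S_Yq1) (hYq2 : S_Yq2) (hYq4 : S_Yq4) : S_Yq7 := by
  intro K q hq h3 hqK hK j l hl hj hd hd1 c3 hc3
  have hq1 : (1 : ℝ) ≤ q := by exact_mod_cast hq.out.one_lt.le
  obtain ⟨b, hb⟩ : ∃ b : Fin 4 → ℕ → ℚ, b = ![bhh K l j, bhh K l j, bhh K l j, bh K] := ⟨_, rfl⟩
  have hb0 : b 0 = bhh K l j := by rw [hb]; rfl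
  have hb1 : b 1 = bhh K l j := by rw [hb]; rfl
  have hb2 : b 2 = bhh K l j := by rw [hb]; rfl
  have hb3 : b 3 = bh K := by rw [hb]; rfl
  obtain ⟨c, hc, hcn⟩ := hYq4 K q hqK hK b (fun _ => 0) (by
    intro k j' hj'
    rw [pow_zero]
    have hA := bhh_le hYq0 hYq1 hYq2 h3 K hK j l hl hj hd hd1 j' hj'
    have hB := bh_le hYq0 h3 K j' hj'
    fin_cases k
    · show ‖((b 0 j' : ℚ) : ℚ_[q])‖ ≤ 1
      rw [hb0]; exact hA
    · show ‖((b 1 j' : ℚ) : ℚ_[q])‖ ≤ 1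
      rw [hb1]; exact hA
    · show ‖((b 2 j' : ℚ) : ℚ_[q])‖ ≤ 1
      rw [hb2]; exact hA
    · show ‖((b 3 j' : ℚ) : ℚ_[q])‖ ≤ 1
      rw [hb3]; exact hB)
  have hsum := h1 K 4 c _ (by norm_num) hc (tend h1b K b)
  have h2b := hY2b K c _ hc hsum
  have hu : c3 0 j = ((K : ℚ) - 2 * (j : ℚ)) * c 0 j + if (0 : ℕ) < 3 then 2 * c (0 + 1) j else 0 := by
    refine hP2 K 4 c3 (fun i j => ((K : ℚ) - 2 * (j : ℚ)) * c i j +
      if i < 3 then 2 * c (i + 1) j else 0) 0 ?_ 0 (by norm_num) j hj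
    intro u hgood
    rw [add_zero, ← hc3 u hgood, ← h2b u hgood, hb0, hb1, hb2, hb3]
    ring
  rw [if_pos (by norm_num)] at hu
  rw [hu]
  have n0 := hcn 0 (by norm_num) j hj
  have n1 := hcn 1 (by norm_num) j hj
  have hp3 : (q : ℝ) ^ 3 ≤ (q : ℝ) ^ 5 := pow_le_pow_right₀ hq1 (by norm_num)
  have hp2 : (q : ℝ) ^ 2 ≤ (q : ℝ) ^ 5 := pow_le_pow_right₀ hq1 (by norm_num)
  have n0' : ‖((c 0 j : ℚ) : ℚ_[q])‖ ≤ (q : ℝ) ^ 5 := n0.trans (by simpa using hp3)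
  have n1' : ‖((c 1 j : ℚ) : ℚ_[q])‖ ≤ (q : ℝ) ^ 5 := n1.trans (by simpa using hp2)
  have hi : ‖(((K : ℚ) - 2 * (j : ℚ) : ℚ) : ℚ_[q])‖ ≤ 1 := by
    have e : (((K : ℚ) - 2 * (j : ℚ) : ℚ) : ℚ_[q]) = (((K : ℤ) - 2 * (j : ℤ) : ℤ) : ℚ_[q]) := by
      push_cast
      ring
    rw [e]
    exact Padic.norm_int_le_one _
  have h2 : ‖((2 : ℚ) : ℚ_[q])‖ ≤ 1 := by
    have := norm_two h3
    have h2' : ‖((2 : ℚ) : ℚ_[q])‖ = 1 := by exact_mod_cast this
    exact h2'.le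
  rw [Rat.cast_add]
  refine (IsUltrametricDist.norm_add_le_max _ _).trans (max_le ?_ ?_)
  · rw [Rat.cast_mul, norm_mul]
    calc ‖(((K : ℚ) - 2 * (j : ℚ) : ℚ) : ℚ_[q])‖ * ‖((c 0 j : ℚ) : ℚ_[q])‖
        ≤ 1 * (q : ℝ) ^ 5 := mul_le_mul hi n0' (norm_nonneg _) zero_le_one
      _ = _ := one_mul _
  · rw [Rat.cast_mul, norm_mul]
    calc ‖((2 : ℚ) : ℚ_[q])‖ * ‖((c (0 + 1) j : ℚ) : ℚ_[q])‖
        ≤ 1 * (q : ℝ) ^ 5 := mul_le_mul h2 n1' (norm_nonneg _) zero_le_one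
      _ = _ := one_mul _

end Pool.Agent.Work.MP_03df5c_pb
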