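import Pool.Agent.Work.MP_03df5c_pb.Interface9

set_option autoImplicit false

open Finset Filter Topology

namespace Pool.Agent.Work.MP_03df5c_pb

open Pool.Agent.Work.MP_03df5c_h91

namespace Yq8aux

/-- The coefficients `bh K j` are integral at `q`. -/
lemma norm_bh (hYq0 : S_Yq0) (K q : ℕ) [Fact q.Prime] (hq3 : 3 < q) (j : ℕ) (hj : j ≤ K) :
    ‖((bh K j : ℚ) : ℚ_[q])‖ ≤ 1 := by
  rw [hYq0 K j hj]
  push_cast
  rw [norm_div, norm_pow]
  have h4 : ‖(4 : ℚ_[q])‖ = 1 := by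
    have h5 : ‖((4 : ℕ) : ℚ_[q])‖ = 1 := by
      rw [Padic.norm_natCast_eq_one_iff]
      have hp : q.Prime := Fact.out
      have h2 : q ≠ 2 := by omega
      have h6 : Nat.Coprime q 2 := (Nat.coprime_primes hp Nat.prime_two).2 h2
      have h7 : Nat.Coprime q (2 ^ 2) := Nat.Coprime.pow_right 2 h6
      simpa using h7
    simpa using h5
  rw [h4, one_pow, div_one]
  have := Padic.norm_int_le_one (p := q)
    (((2 * j).choose j * (2 * (K - j)).choose (K - j) : ℕ) : ℤ)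
  push_cast at this
  exact this

/-- `(n + 1) F(n + 1) → 0` for the product of four blocks. -/
lemma tendsto_four (h1b : S_X1b) (K : ℕ) (β : ℕ → ℚ) :
    Tendsto (fun n : ℕ => ((n : ℚ) + 1) * ((fun u => sf K β u * (sf K β u * (sf K β u * sf K β u)))
      ((n : ℚ) + 1))) atTop (𝓝 0) := by
  have h := h1b K β
  have h4 := h.mul (h.mul (h.mul h))
  have hinv : Tendsto (fun n : ℕ => (((n : ℚ) + 1) ^ 3)⁻¹) atTop (𝓝 0) := by
    have h5 : Tendsto (fun n : ℕ => ((n : ℚ) + 1)⁻¹) atTop (𝓝 0) := by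
      have h6 : Tendsto (fun n : ℕ => (n : ℚ) + 1) atTop atTop :=
        tendsto_atTop_add_const_right _ _ tendsto_natCast_atTop_atTop
      exact h6.inv_tendsto_atTop
    have h7 := (h5.mul (h5.mul h5))
    simp only [mul_zero] at h7
    refine h7.congr (fun n => ?_)
    rw [pow_succ, pow_two, mul_inv, mul_inv]
    ring
  have h8 := h4.mul hinv
  rw [mul_zero] at h8
  refine h8.congr (fun n => ?_)
  have hn : ((n : ℚ) + 1) ≠ 0 := by positivity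
  field_simp

/-- The coefficients of `RZ` are bounded by `q ^ 3`. -/
lemma norm_c (hP2 : S_P2) (h1 : S_Y1) (h1b : S_X1b) (hY2b : S_Y2b) (hYq0 : S_Yq0) (hYq4 : S_Yq4)
    (K q : ℕ) [Fact q.Prime] (hq3 : 3 < q) (hqK : q ≤ K) (hK2 : K < 2 * q) (c : ℕ → ℕ → ℚ)
    (hc : PF K 4 c (RZ K)) (i : ℕ) (hi : i < 4) (j : ℕ) (hj : j ≤ K) :
    ‖((c i j : ℚ) : ℚ_[q])‖ ≤ (q : ℝ) ^ 3 := by
  have hq1 : (1 : ℝ) ≤ q := by exact_mod_cast (by omega : 1 ≤ q)
  obtain ⟨c0, hc0, hn0⟩ := hYq4 K q hqK hK2 (fun _ => bh K) (fun _ => 0)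
    (fun _ j hj => by simpa using norm_bh hYq0 K q hq3 j hj)
  have hres := h1 K 4 c0 _ (by norm_num) hc0 (tendsto_four h1b K (bh K))
  have h2b := hY2b K c0 _ hc0 hres
  have huniq := hP2 K 4 c (fun i j => ((K : ℚ) - 2 * (j : ℚ)) * c0 i j +
    if i < 3 then 2 * c0 (i + 1) j else 0) 0 (fun u hu => by
      rw [← hc u hu, ← h2b u hu, add_zero]
      unfold RZ
      ring)
  have hn0' : ∀ i < 4, ‖((c0 i j : ℚ) : ℚ_[q])‖ ≤ (q : ℝ) ^ 3 := by
    intro i hi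
    refine (hn0 i hi j hj).trans ?_
    exact pow_le_pow_right₀ hq1 (by omega)
  have hq30 : (0 : ℝ) ≤ (q : ℝ) ^ 3 := by positivity
  rw [huniq i hi j hj]
  have hK : ‖(((K : ℚ) - 2 * (j : ℚ) : ℚ) : ℚ_[q])‖ ≤ 1 := by
    have := Padic.norm_int_le_one (p := q) ((K : ℤ) - 2 * (j : ℤ))
    push_cast at this ⊢
    exact this
  have h2 : ‖((2 : ℚ) : ℚ_[q])‖ ≤ 1 := by
    have := Padic.norm_int_le_one (p := q) 2
    push_cast at this ⊢
    exact this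
  have hA : ‖((((K : ℚ) - 2 * (j : ℚ)) * c0 i j : ℚ) : ℚ_[q])‖ ≤ (q : ℝ) ^ 3 := by
    rw [Rat.cast_mul, norm_mul]
    calc ‖(((K : ℚ) - 2 * (j : ℚ) : ℚ) : ℚ_[q])‖ * ‖((c0 i j : ℚ) : ℚ_[q])‖
        ≤ 1 * (q : ℝ) ^ 3 := mul_le_mul hK (hn0' i hi) (norm_nonneg _) zero_le_one
      _ = _ := one_mul _
  have hB : ‖(((if i < 3 then 2 * c0 (i + 1) j else 0 : ℚ)) : ℚ_[q])‖ ≤ (q : ℝ) ^ 3 := by
    split_ifs with h3
    · rw [Rat.cast_mul, norm_mul]
      calc ‖((2 : ℚ) : ℚ_[q])‖ * ‖((c0 (i + 1) j : ℚ) : ℚ_[q])‖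
          ≤ 1 * (q : ℝ) ^ 3 := mul_le_mul h2 (hn0' (i + 1) (by omega)) (norm_nonneg _) zero_le_one
        _ = _ := one_mul _
    · simpa using hq30
  rw [Rat.cast_add]
  exact (Padic.nonarchimedean _ _).trans (max_le hA hB)

end Yq8aux

theorem p_Yq8 (hP2 : S_P2) (h1 : S_Y1) (h1b : S_X1b) (hY2 : S_Y2) (hY2b : S_Y2b) (hY5a : S_Y5a)
    (hYq0 : S_Yq0) (hYq4 : S_Yq4) (hYq6 : S_Yq6) (hYq7 : S_Yq7) : S_Yq8 := by
  intro K q _ hq3 hqK hK2 c hc j l hlj hjK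
  have hq1 : (1 : ℝ) ≤ q := by exact_mod_cast (by omega : 1 ≤ q)
  have hp : q.Prime := Fact.out
  by_cases hdvd : q ∣ 2 * l + 1
  · -- three blocks replaced
    have hN : ∀ j' ≤ K, ∃ z : ℤ,
        ((∏ k ∈ range (K + 1), (bhh K l j k).den : ℕ) : ℚ) * bhh K l j j' = z := by
      intro j' hj'
      have hmem : j' ∈ range (K + 1) := mem_range.2 (by omega)
      rw [← mul_prod_erase (range (K + 1)) (fun k => (bhh K l j k).den) hmem]
      refine ⟨((∏ k ∈ (range (K + 1)).erase j', (bhh K l j k).den : ℕ) : ℤ) * (bhh K l j j').num, ?_⟩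
      have hden := Rat.mul_den_eq_num (bhh K l j j')
      push_cast
      rw [← hden]
      ring
    obtain ⟨c3, hc3, -, -⟩ := hY2 K (bhh K l j) _ _ hN le_rfl 3 (by norm_num)
    have hc3' : PF K 4 c3 (fun u => (2 * u + (K : ℚ)) *
        ((sf K (bhh K l j) u) ^ 3 * sf K (bh K) u)) := by
      intro u hu
      have := hc3 u hu
      simpa using this
    rw [hY5a K c c3 j l hlj hjK hc hc3']
    by_cases hmid : 2 * l + 1 = q ∧ q ≤ j
    · exact hYq6 K q hq3 hqK hK2 j l hlj hmid.2 hjK hmid.1 c3 hc3'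
    · exact hYq7 K q hq3 hqK hK2 j l hlj hjK hdvd
        (fun h => by by_contra hcon; exact hmid ⟨h, by omega⟩) c3 hc3'
  · -- the unit case
    have hq0 : (0 : ℝ) ≤ (q : ℝ) ^ 5 := by positivity
    have hhalf : ‖((1 / 2 + (l : ℚ) : ℚ) : ℚ_[q])‖ = 1 := by
      have h2 : ‖(2 : ℚ_[q])‖ = 1 := by
        have h5 : ‖((2 : ℕ) : ℚ_[q])‖ = 1 := by
          rw [Padic.norm_natCast_eq_one_iff]
          exact (Nat.coprime_primes hp Nat.prime_two).2 (by omega)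
        simpa using h5
      have h3 : ‖((2 * l + 1 : ℕ) : ℚ_[q])‖ = 1 := by
        rw [Padic.norm_natCast_eq_one_iff]
        exact (Nat.Prime.coprime_iff_not_dvd hp).2 hdvd
      have h4 : ((1 / 2 + (l : ℚ) : ℚ) : ℚ_[q]) = ((2 * l + 1 : ℕ) : ℚ_[q]) / 2 := by
        push_cast
        have : (2 : ℚ_[q]) ≠ 0 := two_ne_zero
        field_simp
        ring
      rw [h4, norm_div, h3, h2, div_one]
    unfold TT
    rw [Rat.cast_sum]
    refine IsUltrametricDist.norm_sum_le_of_forall_le_of_nonneg hq0 (fun i hi => ?_)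
    have hi4 := mem_range.1 hi
    rw [Rat.cast_div, Rat.cast_mul, norm_div, norm_mul, Rat.cast_pow, norm_pow, hhalf, one_pow,
      div_one]
    have hch : ‖((((i + 2).choose 2 : ℕ) : ℚ) : ℚ_[q])‖ ≤ 1 := by
      have := Padic.norm_int_le_one (p := q) (((i + 2).choose 2 : ℕ) : ℤ)
      push_cast at this ⊢
      exact this
    have hcc := Yq8aux.norm_c hP2 h1 h1b hY2b hYq0 hYq4 K q hq3 hqK hK2 c hc i hi4 j hjK
    calc ‖((((i + 2).choose 2 : ℕ) : ℚ) : ℚ_[q])‖ * ‖((c i j : ℚ) : ℚ_[q])‖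
        ≤ 1 * (q : ℝ) ^ 3 := mul_le_mul hch hcc (norm_nonneg _) zero_le_one
      _ = (q : ℝ) ^ 3 := one_mul _
      _ ≤ (q : ℝ) ^ 5 := pow_le_pow_right₀ hq1 (by norm_num)

end Pool.Agent.Work.MP_03df5c_pb
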