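import Pool.Agent.Work.MP_03df5c_pb.Interface2

/-!
# Block Z1
-/

open Finset Filter Topology

namespace Pool.Agent.Work.MP_03df5c_pb

theorem p_Z1 (hC4 : S_C4) (hL5 : S_L5) (hD2 : S_D2) (hN3 : S_N3) : S_Z1 := by
  intro p _ hp2 r s hr hs
  obtain ⟨h1, -, -⟩ := hN3 p r hr
  have hb : 1 ≤ bb p r := by
    have h2 : ee 1 ≤ ∑ a ∈ AA p r, ee a :=
      Finset.single_le_sum (f := ee) (fun a _ => Nat.zero_le _) h1
    have h3 : ee 1 = 1 := by simp [ee]
    have h4 : bb p r = ∑ a ∈ AA p r, ee a := rfl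
    omega
  obtain ⟨c, C, n0, k1, k2, k3⟩ := hL5 p hp2 r s hr hs
  obtain ⟨d1, -⟩ := hD2 p r s hr hs
  have hs0 : (0 : ℝ) < s := by
    have : 1 ≤ s := le_trans hb hs
    exact_mod_cast this
  have hr0 : (0 : ℝ) < r := by exact_mod_cast hr
  have hp : (1 : ℝ) ≤ p := by
    have := (Fact.out : p.Prime).one_lt
    exact_mod_cast this.le
  refine hC4 p s (tt p) (by simp [tt]) c (psi p r s) ((r : ℝ) * s)
    (s * (Real.log 2 + (Real.log 4 + 4)) + (r + 1) * bb p r * Real.log p) C n0 (by positivity) ?_ k1 ?_ k2 k3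
  · have l2 : 0 ≤ Real.log 2 := Real.log_nonneg (by norm_num)
    have l4 : 0 ≤ Real.log 4 := Real.log_nonneg (by norm_num)
    have lp : 0 ≤ Real.log p := Real.log_nonneg hp
    positivity
  · intro K hK
    have := d1 K
    exact_mod_cast this

end Pool.Agent.Work.MP_03df5c_pb
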