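import Pool.Agent.Work.MP_03df5c_pb.Interface2

open Finset Filter Topology

namespace Pool.Agent.Work.MP_03df5c_pb

namespace BZ2

theorem bb_le (p r : ℕ) : bb p r ≤ 2 * p ^ r := by
  unfold bb
  have h1 : ∑ a ∈ AA p r, ee a ≤ ∑ a ∈ AA p r, 2 :=
    Finset.sum_le_sum (fun a _ => by unfold ee; split <;> omega)
  have h2 : (AA p r).card ≤ p ^ r := by
    have := Finset.card_filter_le (range (p ^ r)) (fun a => ¬ p ∣ a)
    rw [Finset.card_range] at this
    exact this
  rw [Finset.sum_const, smul_eq_mul] at h1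
  omega

theorem dim_pos (p : ℕ) [Fact p.Prime] (s : ℕ) :
    1 ≤ Module.finrank ℚ (Submodule.span ℚ (tt p '' (Set.Iic s))) := by
  have : FiniteDimensional ℚ (Submodule.span ℚ (tt p '' (Set.Iic s))) :=
    FiniteDimensional.span_of_finite ℚ ((Set.finite_Iic s).image _)
  have h : (1 : ℚ_[p]) ∈ Submodule.span ℚ (tt p '' (Set.Iic s)) :=
    Submodule.subset_span ⟨0, by simp, by simp [tt]⟩
  have : Nontrivial (Submodule.span ℚ (tt p '' (Set.Iic s))) :=
    ⟨⟨⟨1, h⟩, 0, fun e => one_ne_zero (congrArg Subtype.val e)⟩⟩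
  exact Module.finrank_pos

end BZ2

theorem p_Z2 (hZ1 : S_Z1) : S_Z2 := by
  intro p _ hp
  have hp1 : 1 < p := (Fact.out : p.Prime).one_lt
  obtain ⟨L, hLe⟩ : ∃ L : ℝ, L = Real.log p := ⟨_, rfl⟩
  obtain ⟨C0, hC0e⟩ : ∃ C0 : ℝ, C0 = Real.log 2 + (Real.log 4 + 4) := ⟨_, rfl⟩
  have hL : 0 < L := by
    rw [hLe]
    exact Real.log_pos (by exact_mod_cast hp1)
  have hC0 : 0 < C0 := by
    have h2 : 0 < Real.log 2 := Real.log_pos (by norm_num)
    have h4 : 0 < Real.log 4 := Real.log_pos (by norm_num)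
    rw [hC0e]
    linarith
  refine ⟨min (1 / (3 * (C0 + 2 * L))) (1 / (4 * L)), lt_min (by positivity) (by positivity), ?_⟩
  intro s hs
  have hD1 := BZ2.dim_pos p s
  have hZ := hZ1 p hp
  obtain ⟨d, hd⟩ : ∃ d : ℕ, d = Module.finrank ℚ (Submodule.span ℚ (tt p '' (Set.Iic s))) :=
    ⟨_, rfl⟩
  have hZ' : ∀ r : ℕ, 1 ≤ r → bb p r ≤ s → (r : ℝ) * s * L ≤
      (s * C0 + (r + 1) * bb p r * L) * d := by
    intro r h1 h2
    have h3 := hZ r s h1 h2
    rw [← hd, ← hLe, ← hC0e] at h3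
    exact h3
  rw [← hd] at hD1 ⊢
  have hD : (1 : ℝ) ≤ d := by exact_mod_cast hD1
  have hs0 : (0 : ℝ) < s := by
    have : 0 < s := by omega
    exact_mod_cast this
  have hlogs : 0 ≤ Real.log s := Real.log_nonneg (by exact_mod_cast (by omega : 1 ≤ s))
  by_cases h4 : p ^ 4 ≤ s
  · have hlog4 : 4 ≤ Nat.log p s := (Nat.le_log_iff_pow_le hp1 (by omega)).2 h4
    obtain ⟨r, hre⟩ : ∃ r : ℕ, r = Nat.log p s / 2 := ⟨_, rfl⟩
    have hr : 2 ≤ r := by omega
    have h2r : p ^ (2 * r) ≤ s :=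
      (Nat.pow_le_pow_right hp1.le (by omega)).trans (Nat.pow_log_le_self p (by omega))
    have hlt : s < p ^ (2 * r + 2) :=
      (Nat.lt_pow_succ_log_self hp1 s).trans_le (Nat.pow_le_pow_right hp1.le (by omega))
    have hr1 : r + 1 ≤ p ^ r := Nat.lt_pow_self hp1
    have hbb := BZ2.bb_le p r
    have hsq : p ^ (2 * r) = p ^ r * p ^ r := by rw [two_mul, pow_add]
    have h2p : 2 * p ^ r ≤ p ^ r * p ^ r := Nat.mul_le_mul_right _ (by omega)
    have hbs : bb p r ≤ s := by omega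
    have h := hZ' r (by omega) hbs
    have h5 : (r + 1) * bb p r ≤ 2 * s := by
      have h51 : (r + 1) * bb p r ≤ p ^ r * (2 * p ^ r) := Nat.mul_le_mul hr1 hbb
      have h52 : p ^ r * (2 * p ^ r) = 2 * (p ^ r * p ^ r) := by ring
      omega
    have h5' : ((r : ℝ) + 1) * bb p r ≤ 2 * s := by exact_mod_cast h5
    have h5'' : ((r : ℝ) + 1) * bb p r * L ≤ 2 * s * L := mul_le_mul_of_nonneg_right h5' hL.le
    have h6 : (r : ℝ) * s * L ≤ (s * (C0 + 2 * L)) * d :=
      h.trans (mul_le_mul_of_nonneg_right (by linarith) (by linarith))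
    have h7 : (r : ℝ) * L ≤ (C0 + 2 * L) * d := by
      have h71 : (s : ℝ) * (r * L) ≤ s * ((C0 + 2 * L) * d) := by linarith
      exact le_of_mul_le_mul_left h71 hs0
    have h8 : Real.log s ≤ (2 * r + 2) * L := by
      have h81 : Real.log s ≤ Real.log ((p : ℝ) ^ (2 * r + 2)) :=
        Real.log_le_log hs0 (by exact_mod_cast hlt.le)
      rw [Real.log_pow, ← hLe] at h81
      push_cast at h81
      exact h81
    have hr' : (2 : ℝ) ≤ r := by exact_mod_cast hr
    have h9 : (2 * (r : ℝ) + 2) * L ≤ 3 * (r * L) := by nlinarith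
    have h10 : Real.log s ≤ (3 * (C0 + 2 * L)) * d := by linarith
    have h11 : min (1 / (3 * (C0 + 2 * L))) (1 / (4 * L)) * Real.log s ≤
        1 / (3 * (C0 + 2 * L)) * Real.log s := mul_le_mul_of_nonneg_right (min_le_left _ _) hlogs
    refine h11.trans ?_
    rw [one_div, inv_mul_le_iff₀ (by positivity)]
    exact h10
  · have h8 : Real.log s ≤ 4 * L := by
      have h81 : Real.log s ≤ Real.log ((p : ℝ) ^ 4) :=
        Real.log_le_log hs0 (by exact_mod_cast (not_le.1 h4).le)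
      rw [Real.log_pow, ← hLe] at h81
      push_cast at h81
      exact h81
    have h11 : min (1 / (3 * (C0 + 2 * L))) (1 / (4 * L)) * Real.log s ≤
        1 / (4 * L) * Real.log s := mul_le_mul_of_nonneg_right (min_le_right _ _) hlogs
    refine h11.trans ?_
    rw [one_div, inv_mul_le_iff₀ (by positivity)]
    nlinarith

end Pool.Agent.Work.MP_03df5c_pb
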