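import Pool.Agent.Work.MP_03df5c_pb.Interface2

/-!
# Block Z3: the logarithmic bound for the `p`-adic zeta values
-/

open Finset Filter Topology

namespace Pool.Agent.Work.MP_03df5c_pb

open Pool.Agent.Work.MP_03df5c_h91

namespace BZ3

/-- the set of the `p`-adic zeta values -/
def W (p s : ℕ) [Fact p.Prime] : Set ℚ_[p] :=
  {(1 : ℚ_[p])} ∪ {x | ∃ k, Odd k ∧ 3 ≤ k ∧ k ≤ s ∧ x = zetaP p k}

theorem W_finite (p s : ℕ) [Fact p.Prime] : (W p s).Finite := by
  unfold W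
  apply Set.Finite.union (Set.finite_singleton _)
  apply Set.Finite.subset (Set.Finite.image (fun k => zetaP p k) (Set.finite_Iic s))
  rintro x ⟨k, _, _, h, rfl⟩
  exact ⟨k, h, rfl⟩

theorem zetaP_mul {p k : ℕ} [hp : Fact p.Prime] (hk : 1 ≤ k) :
    kubotaLeopoldt p k = (1 - ((p : ℚ_[p]) ^ k)⁻¹) * zetaP p k := by
  unfold zetaP
  have h1 : (1 : ℚ_[p]) - ((p : ℚ_[p]) ^ k)⁻¹ ≠ 0 := by
    intro h
    have h2 : ((p : ℚ_[p]) ^ k)⁻¹ = 1 := (sub_eq_zero.1 h).symm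
    have h3 : ((p ^ k : ℕ) : ℚ_[p]) = ((1 : ℕ) : ℚ_[p]) := by
      push_cast
      rw [← inv_inv ((p : ℚ_[p]) ^ k), h2, inv_one]
    have h4 : p ^ k = 1 := by exact_mod_cast h3
    have h5 : 1 < p ^ k := Nat.one_lt_pow (by omega) hp.out.one_lt
    omega
  rw [← mul_assoc, mul_inv_cancel₀ h1, one_mul]

theorem smul_rat {p : ℕ} [Fact p.Prime] (q : ℚ) (x : ℚ_[p]) : q • x = (q : ℚ_[p]) * x := by
  rw [Algebra.smul_def, eq_ratCast]

theorem tt_mem (hE4 : S_E4) (hE5 : S_E5) {p : ℕ} [hp : Fact p.Prime] (hp2 : p ≠ 2) {s i : ℕ} (hi : i ≤ s) :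
    tt p i ∈ Submodule.span ℚ (W p s ∪ {JJ p 1}) := by
  by_cases h0 : i = 0
  · subst h0
    have : tt p 0 = 1 := by simp [tt]
    rw [this]
    exact Submodule.subset_span (Or.inl (Or.inl rfl))
  have e : tt p i = JJ p i := by simp [tt, h0]
  rw [e]
  by_cases h1 : i = 1
  · subst h1
    exact Submodule.subset_span (Or.inr rfl)
  rcases Nat.even_or_odd i with he | ho
  · rw [hE4 p hp2 i he]
    exact Submodule.zero_mem _
  · have h3 : 3 ≤ i := by
      obtain ⟨m, hm⟩ := ho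
      omega
    have h2 : JJ p i = (-2 * (1 - ((2 : ℚ) ^ (i - 1))⁻¹) * (1 - ((p : ℚ) ^ i)⁻¹)) • zetaP p i := by
      rw [smul_rat, hE5 p hp2 i (by omega), zetaP_mul (by omega)]
      push_cast
      ring
    rw [h2]
    exact Submodule.smul_mem _ _ (Submodule.subset_span (Or.inl (Or.inr ⟨i, ho, h3, hi, rfl⟩)))

theorem dim_le (hE4 : S_E4) (hE5 : S_E5) {p : ℕ} [hp : Fact p.Prime] (hp2 : p ≠ 2) (s : ℕ) :
    Module.finrank ℚ (Submodule.span ℚ (tt p '' (Set.Iic s))) ≤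
      2 * Module.finrank ℚ (Submodule.span ℚ (W p s)) := by
  have hW := W_finite p s
  have f1 : Module.Finite ℚ (Submodule.span ℚ (W p s)) := FiniteDimensional.span_of_finite ℚ hW
  have f2 : Module.Finite ℚ (Submodule.span ℚ ({JJ p 1} : Set ℚ_[p])) :=
    FiniteDimensional.span_of_finite ℚ (Set.finite_singleton _)
  have f3 : Module.Finite ℚ (Submodule.span ℚ (W p s ∪ {JJ p 1})) :=
    FiniteDimensional.span_of_finite ℚ (hW.union (Set.finite_singleton _))
  have h1 : Submodule.span ℚ (tt p '' (Set.Iic s)) ≤ Submodule.span ℚ (W p s ∪ {JJ p 1}) := by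
    rw [Submodule.span_le]
    rintro _ ⟨i, hi, rfl⟩
    exact tt_mem hE4 hE5 hp2 hi
  have h2 := Submodule.finrank_mono h1
  have h3 : Module.finrank ℚ (Submodule.span ℚ (W p s ∪ {JJ p 1})) ≤
      Module.finrank ℚ (Submodule.span ℚ (W p s)) +
        Module.finrank ℚ (Submodule.span ℚ ({JJ p 1} : Set ℚ_[p])) := by
    rw [Submodule.span_union]
    exact Submodule.finrank_add_le_finrank_add_finrank _ _
  have h4 : Module.finrank ℚ (Submodule.span ℚ ({JJ p 1} : Set ℚ_[p])) ≤ 1 := by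
    have := finrank_span_le_card (R := ℚ) ({JJ p 1} : Set ℚ_[p])
    simpa using this
  have h5 : 1 ≤ Module.finrank ℚ (Submodule.span ℚ (W p s)) := by
    have h6 : (Submodule.span ℚ ({(1 : ℚ_[p])} : Set ℚ_[p])) ≤ Submodule.span ℚ (W p s) := by
      apply Submodule.span_mono
      exact Set.subset_union_left
    have h7 := Submodule.finrank_mono h6
    rw [finrank_span_singleton one_ne_zero] at h7
    exact h7
  omega

end BZ3

theorem p_Z3 (hE4 : S_E4) (hE5 : S_E5) (hZ2 : S_Z2) : S_Z3 := by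
  intro p hp hp2
  obtain ⟨c, hc, h⟩ := hZ2 p hp2
  refine ⟨c / 2, by positivity, fun s hs => ?_⟩
  have h1 := h s hs
  have h2 := BZ3.dim_le hE4 hE5 hp2 s
  have h3 : (Module.finrank ℚ (Submodule.span ℚ (tt p '' (Set.Iic s))) : ℝ) ≤
      2 * (Module.finrank ℚ (Submodule.span ℚ (BZ3.W p s)) : ℝ) := by
    exact_mod_cast h2
  change c / 2 * Real.log s ≤ (Module.finrank ℚ (Submodule.span ℚ (BZ3.W p s)) : ℝ)
  linarith

end Pool.Agent.Work.MP_03df5c_pb
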