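import Pool.Agent.Work.MP_03df5c_pb.Interface3

/-!
# Block Z4 (typed by helper83): the dimension bound with the parameter `r`, better constant
-/

open Finset Filter Topology

namespace Pool.Agent.Work.MP_03df5c_pb

theorem p_Z4 (hC4 : S_C4) (hL6 : S_L6) (hD2 : S_D2) (hN3 : S_N3) : S_Z4 := by
  intro p _ hp2 r s hr hs
  obtain ⟨h1, -, -⟩ := hN3 p r hr
  have hb : 1 ≤ bb p r := by
    have h2 : ee 1 ≤ ∑ a ∈ AA p r, ee a :=
      Finset.single_le_sum (f := ee) (fun a _ => Nat.zero_le _) h1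
    have h3 : ee 1 = 1 := by simp [ee]
    have h4 : bb p r = ∑ a ∈ AA p r, ee a := rfl
    omega
  obtain ⟨d1, -⟩ := hD2 p r s hr hs
  have hs0 : (0 : ℝ) < s := by
    have : 1 ≤ s := le_trans hb hs
    exact_mod_cast this
  have hr0 : (0 : ℝ) < r := by exact_mod_cast hr
  have hp : (1 : ℝ) ≤ p := by
    have := (Fact.out : p.Prime).one_lt
    exact_mod_cast this.le
  obtain ⟨D, hD⟩ : ∃ D : ℕ, D = Module.finrank ℚ (Submodule.span ℚ (tt p '' (Set.Iic s))) := ⟨_, rfl⟩
  rw [← hD]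
  apply le_of_forall_pos_le_add
  intro ε hε
  have hD0 : (0 : ℝ) ≤ D := by positivity
  obtain ⟨δ, hδ, hδD⟩ : ∃ δ : ℝ, 0 < δ ∧ δ * D ≤ ε := by
    refine ⟨ε / (D + 1), by positivity, ?_⟩
    rw [div_mul_eq_mul_div, div_le_iff₀ (by positivity)]
    nlinarith
  obtain ⟨c, C, n0, k1, k2, k3⟩ := hL6 p hp2 r s hr hs δ hδ
  have key := hC4 p s (tt p) (by simp [tt]) c (psi p r s) ((r : ℝ) * s)
    (s * (3 * Real.log 2) + (r + 1) * bb p r * Real.log p + δ) C n0 (by positivity) (by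
      have l2 : 0 ≤ Real.log 2 := Real.log_nonneg (by norm_num)
      have lp : 0 ≤ Real.log p := Real.log_nonneg hp
      positivity) k1 (by
      intro K hK
      have := d1 K
      exact_mod_cast this) k2 k3
  rw [← hD] at key
  calc (r : ℝ) * s * Real.log p
      ≤ (s * (3 * Real.log 2) + (r + 1) * bb p r * Real.log p + δ) * D := key
    _ = (s * (3 * Real.log 2) + (r + 1) * bb p r * Real.log p) * D + δ * D := by ring
    _ ≤ _ := by linarith

end Pool.Agent.Work.MP_03df5c_pb
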