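import Pool.Agent.Work.MP_03df5c_pb.Interface3

/-!
# Block Z5: the logarithmic bound with explicit constant
-/

open Finset Filter Topology

namespace Pool.Agent.Work.MP_03df5c_pb

namespace BZ5

theorem bb_le (p r : ℕ) : bb p r ≤ 2 * p ^ r := by
  unfold bb
  calc ∑ a ∈ AA p r, ee a ≤ ∑ a ∈ AA p r, 2 := by
        apply Finset.sum_le_sum
        intro a _
        unfold ee
        split_ifs <;> omega
    _ = 2 * (AA p r).card := by rw [Finset.sum_const, smul_eq_mul, mul_comm]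
    _ ≤ 2 * p ^ r := by
        apply Nat.mul_le_mul_left
        unfold AA
        exact (Finset.card_filter_le _ _).trans (by rw [Finset.card_range])

end BZ5

open BZ5 in
theorem p_Z5 (hZ4 : S_Z4) : S_Z5 := by
  intro p hp hp2 c hc
  obtain ⟨A, hA⟩ : ∃ A : ℝ, A = 3 * Real.log 2 := ⟨_, rfl⟩
  have hlog2 : 0 < Real.log 2 := Real.log_pos (by norm_num)
  have hA0 : 0 < A := by rw [hA]; positivity
  rw [← hA] at hc
  rcases le_or_gt c 0 with hc0 | hc0
  · refine ⟨1, fun s hs => ?_⟩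
    have h1 : (0 : ℝ) ≤ Real.log s := Real.log_nonneg (by exact_mod_cast hs)
    have h2 : c * Real.log s ≤ 0 := mul_nonpos_of_nonpos_of_nonneg hc0 h1
    exact h2.trans (Nat.cast_nonneg _)
  have hp1 : (1 : ℝ) < (p : ℝ) := by exact_mod_cast hp.out.one_lt
  obtain ⟨L, hL⟩ : ∃ L : ℝ, L = Real.log p := ⟨_, rfl⟩
  have hL0 : 0 < L := by rw [hL]; exact Real.log_pos hp1
  have hcA : c * A < 1 := by rwa [lt_div_iff₀ hA0] at hc
  obtain ⟨ε, hε⟩ : ∃ ε : ℝ, ε = (1 - c * A) / 2 := ⟨_, rfl⟩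
  have hε0 : 0 < ε := by rw [hε]; linarith
  have hcA0 : 0 < c * A := mul_pos hc0 hA0
  have hε1 : ε < 1 / 2 := by rw [hε]; linarith
  obtain ⟨η, hη⟩ : ∃ η : ℝ, η = ε / (2 * c) := ⟨_, rfl⟩
  have hη0 : 0 < η := by rw [hη]; positivity
  have hcη : c * η = ε / 2 := by
    rw [hη]
    field_simp
  obtain ⟨y0, hy0⟩ : ∃ y0 : ℝ, y0 = 1 + 2 * L / ε + 8 / (ε ^ 2 * η) + 1 / ε := ⟨_, rfl⟩
  have t1 : 0 < 2 * L / ε := by positivity
  have t2 : 0 < 8 / (ε ^ 2 * η) := by positivity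
  have t3 : 0 < 1 / ε := by positivity
  obtain ⟨s0, hs0⟩ := exists_nat_ge (Real.exp y0)
  refine ⟨s0 + 1, fun s hs => ?_⟩
  obtain ⟨y, hy⟩ : ∃ y : ℝ, y = Real.log s := ⟨_, rfl⟩
  have hspos : (0 : ℝ) < s := by
    have : 0 < s := by omega
    exact_mod_cast this
  have hsy : (s : ℝ) = Real.exp y := by rw [hy, Real.exp_log hspos]
  have hyy : y0 ≤ y := by
    rw [hy, Real.le_log_iff_exp_le hspos]
    have h1 : (s0 : ℝ) ≤ s := by
      have : s0 ≤ s := by omega
      exact_mod_cast this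
    linarith
  have hy1 : 1 ≤ y := by linarith
  have hyL : L ≤ ε / 2 * y := by
    have h1 : 2 * L / ε ≤ y := by linarith
    rw [div_le_iff₀ hε0] at h1
    linarith
  have hyη : 8 ≤ y * (ε ^ 2 * η) := by
    have h1 : 8 / (ε ^ 2 * η) ≤ y := by linarith
    rwa [div_le_iff₀ (by positivity)] at h1
  have hyε : 1 ≤ y * ε := by
    have h1 : 1 / ε ≤ y := by linarith
    rwa [div_le_iff₀ hε0] at h1
  have hyL2 : L ≤ y := by nlinarith
  have hyL3 : L ≤ (1 - ε) * y := by nlinarith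
  obtain ⟨r, hr⟩ : ∃ r : ℕ, r = ⌊(1 - ε) * y / L⌋₊ := ⟨_, rfl⟩
  have hnn : 0 ≤ (1 - ε) * y / L := by
    apply div_nonneg _ hL0.le
    apply mul_nonneg <;> linarith
  have hr1 : 1 ≤ r := by
    rw [hr, Nat.one_le_floor_iff, le_div_iff₀ hL0, one_mul]
    exact hyL3
  have hrL : (r : ℝ) * L ≤ (1 - ε) * y := by
    have h1 : (r : ℝ) ≤ (1 - ε) * y / L := by
      rw [hr]
      exact Nat.floor_le hnn
    rwa [le_div_iff₀ hL0] at h1
  have hrL2 : (1 - ε) * y ≤ ((r : ℝ) + 1) * L := by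
    have h1 : (1 - ε) * y / L < (r : ℝ) + 1 := by
      rw [hr]
      exact Nat.lt_floor_add_one _
    rw [div_lt_iff₀ hL0] at h1
    exact h1.le
  have hpr : (p : ℝ) ^ r ≤ Real.exp ((1 - ε) * y) := by
    have h1 : (p : ℝ) ^ r = Real.exp (r * L) := by
      rw [hL, Real.exp_nat_mul, Real.exp_log (by linarith)]
    rw [h1]
    exact Real.exp_le_exp.2 hrL
  have hbb : (bb p r : ℝ) ≤ 2 * Real.exp ((1 - ε) * y) := by
    have h1 : (bb p r : ℝ) ≤ ((2 * p ^ r : ℕ) : ℝ) := by exact_mod_cast bb_le p r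
    push_cast at h1
    linarith
  have hey : Real.exp y = Real.exp ((1 - ε) * y) * Real.exp (ε * y) := by
    rw [← Real.exp_add]
    congr 1
    ring
  have hE0 : 0 < Real.exp ((1 - ε) * y) := Real.exp_pos _
  have hq : 1 + ε * y + (ε * y) ^ 2 / 2 ≤ Real.exp (ε * y) :=
    Real.quadratic_le_exp_of_nonneg (by positivity)
  have hbs : bb p r ≤ s := by
    have h1 : (bb p r : ℝ) ≤ s := by
      rw [hsy, hey]
      have h2 : 2 ≤ Real.exp (ε * y) := by nlinarith [sq_nonneg (ε * y)]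
      nlinarith
    exact_mod_cast h1
  have hmain := hZ4 p hp2 r s hr1 hbs
  rw [← hA, ← hL] at hmain
  obtain ⟨d, hd⟩ : ∃ d : ℝ, d = (Module.finrank ℚ (Submodule.span ℚ (tt p '' (Set.Iic s))) : ℝ) :=
    ⟨_, rfl⟩
  rw [← hd] at hmain
  have hd0 : 0 ≤ d := by rw [hd]; exact Nat.cast_nonneg _
  rw [← hd, ← hy]
  have hbig : ((r : ℝ) + 1) * bb p r * L ≤ η * s := by
    have h1 : ((r : ℝ) + 1) * L ≤ 2 * y := by nlinarith
    have h2 : ((r : ℝ) + 1) * bb p r * L ≤ 2 * y * (2 * Real.exp ((1 - ε) * y)) := by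
      have h3 : ((r : ℝ) + 1) * bb p r * L = (((r : ℝ) + 1) * L) * bb p r := by ring
      rw [h3]
      apply mul_le_mul h1 hbb (Nat.cast_nonneg _)
      linarith
    have h4 : 4 * y ≤ η * Real.exp (ε * y) := by
      have h5 : η * ((ε * y) ^ 2 / 2) ≤ η * Real.exp (ε * y) := by
        apply mul_le_mul_of_nonneg_left _ hη0.le
        have : 0 ≤ ε * y := by positivity
        linarith
      have h6 : 4 * y ≤ η * ((ε * y) ^ 2 / 2) := by
        have h7 : 8 * y ≤ (y * (ε ^ 2 * η)) * y := by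
          apply mul_le_mul_of_nonneg_right hyη
          linarith
        have h8 : η * ((ε * y) ^ 2 / 2) = (y * (ε ^ 2 * η)) * y / 2 := by ring
        rw [h8]
        linarith
      linarith
    rw [hsy, hey]
    have h9 : 4 * y * Real.exp ((1 - ε) * y) ≤ η * Real.exp (ε * y) * Real.exp ((1 - ε) * y) :=
      mul_le_mul_of_nonneg_right h4 hE0.le
    nlinarith
  have h10 : (r : ℝ) * s * L ≤ (s * A + η * s) * d := by
    refine hmain.trans (mul_le_mul_of_nonneg_right ?_ hd0)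
    linarith
  have h11 : (r : ℝ) * L ≤ (A + η) * d := by
    have h12 : s * ((r : ℝ) * L) ≤ s * ((A + η) * d) := by
      calc s * ((r : ℝ) * L) = (r : ℝ) * s * L := by ring
        _ ≤ (s * A + η * s) * d := h10
        _ = s * ((A + η) * d) := by ring
    exact le_of_mul_le_mul_left h12 hspos
  have h13 : (A + η) * (c * y) ≤ (A + η) * d := by
    have h14 : (A + η) * (c * y) = (c * A + c * η) * y := by ring
    have h15 : c * A = 1 - 2 * ε := by rw [hε]; ring
    rw [h14, h15, hcη]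
    have h16 : (1 - 2 * ε + ε / 2) * y = (1 - ε) * y - ε / 2 * y := by ring
    rw [h16]
    linarith
  exact le_of_mul_le_mul_left h13 (by linarith)

end Pool.Agent.Work.MP_03df5c_pb
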