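import Pool.Agent.Work.MP_03df5c_pb.Interface3
import Pool.Agent.Work.MP_03df5c_pb.B_Z3

/-!
# Block Z6: the logarithmic bound with explicit constant for the `p`-adic zeta values
-/

open Finset Filter Topology

namespace Pool.Agent.Work.MP_03df5c_pb

open Pool.Agent.Work.MP_03df5c_h91

namespace BZ6

theorem dim_le1 (hE4 : S_E4) (hE5 : S_E5) {p : ℕ} [hp : Fact p.Prime] (hp2 : p ≠ 2) (s : ℕ) :
    Module.finrank ℚ (Submodule.span ℚ (tt p '' (Set.Iic s))) ≤
      Module.finrank ℚ (Submodule.span ℚ (oddP p s)) + 1 := by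
  have hW : (oddP p s).Finite := BZ3.W_finite p s
  have f1 : Module.Finite ℚ (Submodule.span ℚ (oddP p s)) := FiniteDimensional.span_of_finite ℚ hW
  have f2 : Module.Finite ℚ (Submodule.span ℚ ({JJ p 1} : Set ℚ_[p])) :=
    FiniteDimensional.span_of_finite ℚ (Set.finite_singleton _)
  have f3 : Module.Finite ℚ (Submodule.span ℚ (oddP p s ∪ {JJ p 1})) :=
    FiniteDimensional.span_of_finite ℚ (hW.union (Set.finite_singleton _))
  have h1 : Submodule.span ℚ (tt p '' (Set.Iic s)) ≤ Submodule.span ℚ (oddP p s ∪ {JJ p 1}) := by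
    rw [Submodule.span_le]
    rintro _ ⟨i, hi, rfl⟩
    exact BZ3.tt_mem hE4 hE5 hp2 hi
  have h2 := Submodule.finrank_mono h1
  have h3 : Module.finrank ℚ (Submodule.span ℚ (oddP p s ∪ {JJ p 1})) ≤
      Module.finrank ℚ (Submodule.span ℚ (oddP p s)) +
        Module.finrank ℚ (Submodule.span ℚ ({JJ p 1} : Set ℚ_[p])) := by
    rw [Submodule.span_union]
    exact Submodule.finrank_add_le_finrank_add_finrank _ _
  have h4 : Module.finrank ℚ (Submodule.span ℚ ({JJ p 1} : Set ℚ_[p])) ≤ 1 := by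
    have := finrank_span_le_card (R := ℚ) ({JJ p 1} : Set ℚ_[p])
    simpa using this
  omega

end BZ6

theorem p_Z6 (hE4 : S_E4) (hE5 : S_E5) (hZ5 : S_Z5) : S_Z6 := by
  intro p hp hp2 c hc
  obtain ⟨s0, h⟩ := hZ5 p hp2 ((c + 1 / (3 * Real.log 2)) / 2) (by linarith)
  have hd : 0 < (c + 1 / (3 * Real.log 2)) / 2 - c := by linarith
  refine ⟨max s0 (⌈Real.exp (1 / ((c + 1 / (3 * Real.log 2)) / 2 - c))⌉₊), fun s hs => ?_⟩
  have h1 := h s (le_trans (le_max_left _ _) hs)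
  have h2 := BZ6.dim_le1 hE4 hE5 hp2 s
  have h3 : (Module.finrank ℚ (Submodule.span ℚ (tt p '' (Set.Iic s))) : ℝ) ≤
      (Module.finrank ℚ (Submodule.span ℚ (oddP p s)) : ℝ) + 1 := by
    exact_mod_cast h2
  have h4 : Real.exp (1 / ((c + 1 / (3 * Real.log 2)) / 2 - c)) ≤ (s : ℝ) := by
    refine le_trans (Nat.le_ceil _) ?_
    exact_mod_cast le_trans (le_max_right _ _) hs
  have h5 : 1 / ((c + 1 / (3 * Real.log 2)) / 2 - c) ≤ Real.log s := by
    rw [Real.le_log_iff_exp_le (lt_of_lt_of_le (Real.exp_pos _) h4)]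
    exact h4
  rw [div_le_iff₀ hd] at h5
  nlinarith

end Pool.Agent.Work.MP_03df5c_pb
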