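import Pool.Agent.Work.MP_03df5c_pb.Interface6
import Pool.Agent.Work.MP_03df5c_pb.B_Z6

/-!
# Block Z9: the logarithmic bound for the `p`-adic zeta values, constant `1 / (1 + log 2)`
-/

open Finset Filter Topology

namespace Pool.Agent.Work.MP_03df5c_pb

open Pool.Agent.Work.MP_03df5c_h91

theorem p_Z9 (hE4 : S_E4) (hE5 : S_E5) (hZ8 : S_Z8) : S_Z9 := by
  intro p hp hp2 c hc
  obtain ⟨s0, h⟩ := hZ8 p hp2 ((c + 1 / (1 + Real.log 2)) / 2) (by linarith)
  have hd : 0 < (c + 1 / (1 + Real.log 2)) / 2 - c := by linarith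
  refine ⟨max s0 (⌈Real.exp (1 / ((c + 1 / (1 + Real.log 2)) / 2 - c))⌉₊), fun s hs => ?_⟩
  have h1 := h s (le_trans (le_max_left _ _) hs)
  have h2 := BZ6.dim_le1 hE4 hE5 hp2 s
  have h3 : (Module.finrank ℚ (Submodule.span ℚ (tt p '' (Set.Iic s))) : ℝ) ≤
      (Module.finrank ℚ (Submodule.span ℚ (oddP p s)) : ℝ) + 1 := by
    exact_mod_cast h2
  have h4 : Real.exp (1 / ((c + 1 / (1 + Real.log 2)) / 2 - c)) ≤ (s : ℝ) := by
    refine le_trans (Nat.le_ceil _) ?_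
    exact_mod_cast le_trans (le_max_right _ _) hs
  have h5 : 1 / ((c + 1 / (1 + Real.log 2)) / 2 - c) ≤ Real.log s := by
    rw [Real.le_log_iff_exp_le (lt_of_lt_of_le (Real.exp_pos _) h4)]
    exact h4
  rw [div_le_iff₀ hd] at h5
  nlinarith

end Pool.Agent.Work.MP_03df5c_pb
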