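import Pool.Agent.Work.MP_03df5c_h91.Interp

/-!
# Definitions for the `p`-adic Ball-Rivoal theorem (`p` odd)

Alternating sums over `t < p ^ N` and their limits (`HasI`), partial fractions with poles
`0, -1, …, -K`, and the rational function `RR` of the construction.
-/

open Finset Filter Topology

namespace Pool.Agent.Work.MP_03df5c_pb

/-- The alternating sum `∑_{t < p^N} (-1)^t f(t)`. -/
noncomputable def fs (p : ℕ) [Fact p.Prime] (f : ℕ → ℚ_[p]) (N : ℕ) : ℚ_[p] :=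
  ∑ t ∈ range (p ^ N), (-1) ^ t * f t

/-- `HasI p f L`: the alternating sums of `f` converge to `L`. -/
def HasI (p : ℕ) [Fact p.Prime] (f : ℕ → ℚ_[p]) (L : ℚ_[p]) : Prop :=
  Tendsto (fs p f) atTop (𝓝 L)

/-- A Lipschitz condition along the steps `p ^ N`. -/
def Lip (p : ℕ) [Fact p.Prime] (f : ℕ → ℚ_[p]) (C : ℝ) : Prop :=
  ∀ t N : ℕ, ‖f (t + p ^ N) - f t‖ ≤ C * ((p : ℝ) ^ N)⁻¹

/-- The value `a / p ^ r + t` in `ℚ_p`. -/
noncomputable def xa (p r a : ℕ) [Fact p.Prime] (t : ℕ) : ℚ_[p] :=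
  (a : ℚ_[p]) / (p : ℚ_[p]) ^ r + (t : ℚ_[p])

/-- The limit of the alternating sums of `(a / p^r + t)^(-i)`. -/
noncomputable def Ev (p r i a : ℕ) [Fact p.Prime] : ℚ_[p] :=
  limUnder atTop (fs p (fun t => ((xa p r a t) ^ i)⁻¹))

/-- `∑_{t < p^N, p ∤ t} (-1)^t t^(-i)`. -/
noncomputable def Jf (p i : ℕ) [Fact p.Prime] (N : ℕ) : ℚ_[p] :=
  ∑ t ∈ (range (p ^ N)).filter (fun t => ¬ p ∣ t), (-1) ^ t * ((t : ℚ_[p]) ^ i)⁻¹

/-- The limit of `Jf p i`. -/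
noncomputable def JJ (p i : ℕ) [Fact p.Prime] : ℚ_[p] := limUnder atTop (Jf p i)

/-- The binomial polynomial `y (y-1) ⋯ (y-K+1) / K!`. -/
noncomputable def bin (y : ℚ) (K : ℕ) : ℚ := (∏ m ∈ range K, (y - (m : ℚ))) / (K.factorial : ℚ)

/-- No pole at `u`. -/
def Good (K : ℕ) (u : ℚ) : Prop := ∀ j ≤ K, u + (j : ℚ) ≠ 0

/-- A function with simple poles at `0, -1, …, -K`. -/
noncomputable def sf (K : ℕ) (β : ℕ → ℚ) (u : ℚ) : ℚ :=
  ∑ j ∈ range (K + 1), β j / (u + (j : ℚ))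

/-- A function with poles of order at most `s` at `0, -1, …, -K`. -/
noncomputable def ev (K s : ℕ) (c : ℕ → ℕ → ℚ) (u : ℚ) : ℚ :=
  ∑ j ∈ range (K + 1), ∑ i ∈ range s, c i j / (u + (j : ℚ)) ^ (i + 1)

/-- `PF K s c F`: `F` has the partial fraction expansion with coefficients `c`. -/
def PF (K s : ℕ) (c : ℕ → ℕ → ℚ) (F : ℚ → ℚ) : Prop := ∀ u, Good K u → F u = ev K s c u

/-- Coefficients of the block `binom (u - θ + K) K * K! / (u (u+1) ⋯ (u+K))`. -/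
noncomputable def bet (K : ℕ) (θ : ℚ) (j : ℕ) : ℚ :=
  (-1) ^ j * (K.choose j : ℚ) * bin ((K : ℚ) - (j : ℚ) - θ) K

/-- Coefficients of `K! / (u (u+1) ⋯ (u+K))`. -/
noncomputable def bet0 (K j : ℕ) : ℚ := (-1) ^ j * (K.choose j : ℚ)

/-- The numerators `a < p^r` prime to `p`. -/
def AA (p r : ℕ) : Finset ℕ := (range (p ^ r)).filter (fun a => ¬ p ∣ a)

/-- The exponents of the blocks. -/
def ee (a : ℕ) : ℕ := if a = 1 then 1 else 2

/-- The number of blocks, `∑_{a ∈ AA} ee a`. -/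
def bb (p r : ℕ) : ℕ := ∑ a ∈ AA p r, ee a

/-- The point `a / p ^ r`. -/
noncomputable def th (p r a : ℕ) : ℚ := (a : ℚ) / (p : ℚ) ^ r

/-- The rational function of the construction. -/
noncomputable def RR (p r s K : ℕ) (u : ℚ) : ℚ :=
  (sf K (bet0 K) u) ^ (s - bb p r) * ∏ a ∈ AA p r, (sf K (bet K (th p r a)) u) ^ (ee a)

/-- The least common multiple of `1, …, K`. -/
def dd (K : ℕ) : ℕ := Nat.lcmUpto K

end Pool.Agent.Work.MP_03df5c_pb
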