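import Pool.Agent.Work.MP_03df5c_pb.B_C1
import Pool.Agent.Work.MP_03df5c_pb.B_C2
import Pool.Agent.Work.MP_03df5c_pb.B_C3
import Pool.Agent.Work.MP_03df5c_pb.B_C4
import Pool.Agent.Work.MP_03df5c_pb.B_D1
import Pool.Agent.Work.MP_03df5c_pb.B_D2
import Pool.Agent.Work.MP_03df5c_pb.B_D3
import Pool.Agent.Work.MP_03df5c_pb.B_E1
import Pool.Agent.Work.MP_03df5c_pb.B_E2
import Pool.Agent.Work.MP_03df5c_pb.B_E3
import Pool.Agent.Work.MP_03df5c_pb.B_E4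
import Pool.Agent.Work.MP_03df5c_pb.B_E5
import Pool.Agent.Work.MP_03df5c_pb.B_F1
import Pool.Agent.Work.MP_03df5c_pb.B_F2
import Pool.Agent.Work.MP_03df5c_pb.B_F3
import Pool.Agent.Work.MP_03df5c_pb.B_F4
import Pool.Agent.Work.MP_03df5c_pb.B_F5
import Pool.Agent.Work.MP_03df5c_pb.B_F6
import Pool.Agent.Work.MP_03df5c_pb.B_L0
import Pool.Agent.Work.MP_03df5c_pb.B_L1
import Pool.Agent.Work.MP_03df5c_pb.B_L2
import Pool.Agent.Work.MP_03df5c_pb.B_L3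
import Pool.Agent.Work.MP_03df5c_pb.B_L4
import Pool.Agent.Work.MP_03df5c_pb.B_L6
import Pool.Agent.Work.MP_03df5c_pb.B_N0
import Pool.Agent.Work.MP_03df5c_pb.B_N1
import Pool.Agent.Work.MP_03df5c_pb.B_N2
import Pool.Agent.Work.MP_03df5c_pb.B_N2b
import Pool.Agent.Work.MP_03df5c_pb.B_N3
import Pool.Agent.Work.MP_03df5c_pb.B_N4
import Pool.Agent.Work.MP_03df5c_pb.B_N4a
import Pool.Agent.Work.MP_03df5c_pb.B_P1
import Pool.Agent.Work.MP_03df5c_pb.B_P2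
import Pool.Agent.Work.MP_03df5c_pb.B_P3
import Pool.Agent.Work.MP_03df5c_pb.B_P4
import Pool.Agent.Work.MP_03df5c_pb.B_P5
import Pool.Agent.Work.MP_03df5c_pb.B_P6
import Pool.Agent.Work.MP_03df5c_pb.B_P7
import Pool.Agent.Work.MP_03df5c_pb.B_P9
import Pool.Agent.Work.MP_03df5c_pb.B_T2
import Pool.Agent.Work.MP_03df5c_pb.B_Z4
import Pool.Agent.Work.MP_03df5c_pb.B_Z5
import Pool.Agent.Work.MP_03df5c_pb.B_Z6
import Pool.Agent.Work.MP_03df5c_pb.B_FIN2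

/-!
# Assembly of the `p`-adic Ball-Rivoal theorem and its consequence for `ℚ(π)`
-/

namespace Pool.Agent.Work.MP_03df5c_pb

theorem f_F2 : S_F2 := p_F2 p_F1

theorem f_E1 : S_E1 := p_E1 f_F2

theorem f_E2 : S_E2 := p_E2 f_E1 p_F3

theorem f_E3 : S_E3 := p_E3 f_E1

theorem f_E4 : S_E4 := p_E4 f_E3

theorem f_F6 : S_F6 := block_F6 p_F4 (p_F5 f_F2 p_F3)

theorem f_P7 : S_P7 := p_P7 p_P5 p_P6

theorem f_P9 : S_P9 := p_P9 p_P2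

theorem f_C4 : S_C4 := p_C4 (p_C3 (p_C2 p_C1))

theorem f_N1 : S_N1 := p_N1 p_P3

theorem f_N4 : S_N4 := p_N4 p_F4 f_F6 p_N3 (p_N4a block_N0 f_N1 (p_N2 p_P3) (p_N2b p_P3))

theorem f_D2 : S_D2 := p_D2 p_D1 p_N3

theorem f_L1 : S_L1 := p_L1 p_P1 p_P4 p_P5 p_D1

theorem f_L3 : S_L3 := p_L3 f_E2 f_E3

theorem f_L2 : S_L2 := p_L2 p_P3 p_P4 p_P5 f_P7 f_P9 p_L0 f_L1 p_N3

theorem f_L4 : S_L4 := p_L4 f_L2 f_L3

theorem f_L6 : S_L6 := p_L6 f_L4 f_N4 p_D1 f_D2 p_D3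

theorem f_Z4 : S_Z4 := p_Z4 f_C4 f_L6 f_D2 p_N3

theorem f_Z5 : S_Z5 := p_Z5 f_Z4

theorem f_Z6 : S_Z6 := p_Z6 f_E4 p_E5 f_Z5

theorem f_FIN2 : S_FIN2 := p_FIN2 p_T2 f_Z6

end Pool.Agent.Work.MP_03df5c_pb
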