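import Pool.Agent.Work.MP_03df5c_pb.Final
import Pool.Agent.Work.MP_03df5c_pb.B_A
import Pool.Agent.Work.MP_03df5c_pb.B_V1
import Pool.Agent.Work.MP_03df5c_pb.B_V2
import Pool.Agent.Work.MP_03df5c_pb.B_V3
import Pool.Agent.Work.MP_03df5c_pb.B_V4
import Pool.Agent.Work.MP_03df5c_pb.B_V5
import Pool.Agent.Work.MP_03df5c_pb.B_V6
import Pool.Agent.Work.MP_03df5c_pb.B_V7
import Pool.Agent.Work.MP_03df5c_pb.B_V8
import Pool.Agent.Work.MP_03df5c_pb.B_D4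
import Pool.Agent.Work.MP_03df5c_pb.B_G1
import Pool.Agent.Work.MP_03df5c_pb.B_G2
import Pool.Agent.Work.MP_03df5c_pb.B_G3
import Pool.Agent.Work.MP_03df5c_pb.B_G4
import Pool.Agent.Work.MP_03df5c_pb.B_G5
import Pool.Agent.Work.MP_03df5c_pb.B_H1a
import Pool.Agent.Work.MP_03df5c_pb.B_H1b
import Pool.Agent.Work.MP_03df5c_pb.B_H1
import Pool.Agent.Work.MP_03df5c_pb.B_H3
import Pool.Agent.Work.MP_03df5c_pb.B_H5
import Pool.Agent.Work.MP_03df5c_pb.B_H6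
import Pool.Agent.Work.MP_03df5c_pb.B_H7
import Pool.Agent.Work.MP_03df5c_pb.B_NA
import Pool.Agent.Work.MP_03df5c_pb.B_NB
import Pool.Agent.Work.MP_03df5c_pb.B_NC
import Pool.Agent.Work.MP_03df5c_pb.B_ND
import Pool.Agent.Work.MP_03df5c_pb.B_NE
import Pool.Agent.Work.MP_03df5c_pb.B_NF
import Pool.Agent.Work.MP_03df5c_pb.B_NG
import Pool.Agent.Work.MP_03df5c_pb.B_NH
import Pool.Agent.Work.MP_03df5c_pb.B_NV

/-!
# Assembly of the items (a), (c), (d)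
-/

namespace Pool.Agent.Work.MP_03df5c_pb

theorem f_A : S_A := p_A p_T2

theorem f_V7 : S_V7 :=
  p_V7 (p_V3 p_P3 (p_N2b p_P3) (p_V2 p_V1)) p_V4 (p_V5 p_P4 p_P5 f_P7 p_D1) (p_V6 p_V1) p_D1 p_D4

theorem f_V8 : S_V8 := p_V8 p_T2 f_V7

theorem f_G1 : S_G1 := p_G1 f_F2

theorem f_G3 : S_G3 := p_G3 f_G1 f_E3

theorem f_G4 : S_G4 := p_G4 (p_G2 f_G1 p_F3) f_G3

theorem f_G5 : S_G5 := p_G5 f_G1 f_G3

theorem f_H1 : S_H1 := p_H1 p_P1 p_P3 p_P4 f_P9 p_D1 p_H1a (p_H1b p_H1a p_P6)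

theorem f_NV : S_NV :=
  p_NV (p_NA p_P3) p_NB (p_NC p_P3) (p_ND f_G5) p_NE p_NF (p_NG f_Z5) p_NH f_E4

theorem f_H5 : S_H5 := p_H5 f_NV f_G4 f_H1 (p_H3 p_P3) p_D3 f_E4

theorem f_H6 : S_H6 := B_H6 f_H5 p_E5

theorem f_H7 : S_H7 := p_H7 p_T2 f_H6

end Pool.Agent.Work.MP_03df5c_pb
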