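import Pool.Agent.Work.MP_03df5c_pb.Final2
import Pool.Agent.Work.MP_03df5c_pb.B_D5
import Pool.Agent.Work.MP_03df5c_pb.B_L7
import Pool.Agent.Work.MP_03df5c_pb.B_Z7
import Pool.Agent.Work.MP_03df5c_pb.B_Z8
import Pool.Agent.Work.MP_03df5c_pb.B_Z9
import Pool.Agent.Work.MP_03df5c_pb.B_FIN3

/-!
# Assembly of item (b) with the constant `1 / (1 + log 2)`
-/

namespace Pool.Agent.Work.MP_03df5c_pb

theorem f_Z9 : S_Z9 :=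
  p_Z9 f_E4 p_E5 (p_Z8 (p_Z7 f_C4 (p_L7 f_L4 f_N4 p_D1 f_D2 p_D5) f_D2 p_N3))

theorem f_FIN3 : S_FIN3 := p_FIN3 p_T2 f_Z9

end Pool.Agent.Work.MP_03df5c_pb
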