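import Pool.Agent.Work.MP_03df5c_pb.Final3
import Pool.Agent.Work.MP_03df5c_pb.B_W1
import Pool.Agent.Work.MP_03df5c_pb.B_X1b
import Pool.Agent.Work.MP_03df5c_pb.B_D6
import Pool.Agent.Work.MP_03df5c_pb.B_Y1
import Pool.Agent.Work.MP_03df5c_pb.B_Y2a
import Pool.Agent.Work.MP_03df5c_pb.B_Y2b
import Pool.Agent.Work.MP_03df5c_pb.B_Y2
import Pool.Agent.Work.MP_03df5c_pb.B_Y3
import Pool.Agent.Work.MP_03df5c_pb.B_Y4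
import Pool.Agent.Work.MP_03df5c_pb.B_Y5a
import Pool.Agent.Work.MP_03df5c_pb.B_Y5
import Pool.Agent.Work.MP_03df5c_pb.B_Y6
import Pool.Agent.Work.MP_03df5c_pb.B_Y7
import Pool.Agent.Work.MP_03df5c_pb.B_Y7q
import Pool.Agent.Work.MP_03df5c_pb.B_Y8a
import Pool.Agent.Work.MP_03df5c_pb.B_Y8b
import Pool.Agent.Work.MP_03df5c_pb.B_Y8
import Pool.Agent.Work.MP_03df5c_pb.B_Y9
import Pool.Agent.Work.MP_03df5c_pb.B_Y10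
import Pool.Agent.Work.MP_03df5c_pb.B_Yq0
import Pool.Agent.Work.MP_03df5c_pb.B_Yq1
import Pool.Agent.Work.MP_03df5c_pb.B_Yq2
import Pool.Agent.Work.MP_03df5c_pb.B_Yq3
import Pool.Agent.Work.MP_03df5c_pb.B_Yq4
import Pool.Agent.Work.MP_03df5c_pb.B_Yq5
import Pool.Agent.Work.MP_03df5c_pb.B_Yq6
import Pool.Agent.Work.MP_03df5c_pb.B_Yq7
import Pool.Agent.Work.MP_03df5c_pb.B_Yq8

/-!
# Assembly of the item on `ζ(5)`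
-/

namespace Pool.Agent.Work.MP_03df5c_pb

theorem f_W1 : S_W1 := p_W1 p_P2

theorem f_Y2 : S_Y2 := p_Y2 p_Y1 p_X1b (p_Y2a p_P1 p_P4 p_P5 p_D1) p_Y2b

theorem f_Y3 : S_Y3 := p_Y3 p_P2 p_Y1 p_X1b

theorem f_Y5a : S_Y5a := p_Y5a p_P3 f_P9 f_W1 f_Y2

theorem f_Yq1 : S_Yq1 := p_Yq1 p_Yq0

theorem f_Yq4 : S_Yq4 := p_Yq4 (p_Yq3 p_P2)

theorem f_Yq6 : S_Yq6 := p_Yq6 p_P2 p_P3 p_Yq0 f_Yq1 f_Yq4 p_Yq5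

theorem f_Yq7 : S_Yq7 := p_Yq7 p_P2 p_Y1 p_X1b p_Y2b p_Yq0 f_Yq1 (p_Yq2 p_Yq0) f_Yq4

theorem f_Yq8 : S_Yq8 := p_Yq8 p_P2 p_Y1 p_X1b f_Y2 p_Y2b f_Y5a p_Yq0 f_Yq4 f_Yq6 f_Yq7

theorem f_Y5 : S_Y5 := p_Y5 p_P4 f_P7 f_Y2 f_Y5a f_Yq8

theorem f_Y9 : S_Y9 :=
  p_Y9 f_Y3 p_Y4 f_Y5 p_Y6 (p_Y7q (p_Y7 p_P3) p_P3) (p_Y8 (p_Y8a p_V1) (p_Y8b p_V1)) p_D6 p_D1

theorem f_Y10 : S_Y10 := p_Y10 p_T2 f_Y9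

end Pool.Agent.Work.MP_03df5c_pb
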