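import Pool.Agent.Work.MP_03df5c_pb.Interface5

/-!
# Pieces of block H5 (typed by helper83)
-/

open Finset Filter Topology

namespace Pool.Agent.Work.MP_03df5c_pb

namespace BH5

/-- the integer weights -/
theorem weights (p : ℕ) (S I : Finset ℕ) (h : I.card + 1 < S.card) :
    ∃ w : ℕ → ℤ, (∃ n ∈ S, w n ≠ 0) ∧ Ww p S w 1 = 0 ∧ ∀ k ∈ I, Ww p S w k = 0 := by
  classical
  obtain ⟨J, hJ⟩ : ∃ J, J = insert 1 I := ⟨_, rfl⟩
  have hJc : J.card ≤ I.card + 1 := by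
    rw [hJ]
    exact Finset.card_insert_le 1 I
  have h1J : 1 ∈ J := by
    rw [hJ]
    exact mem_insert_self _ _
  obtain ⟨t, ht0, ht, _⟩ := Int.Matrix.exists_ne_zero_int_vec_norm_le
    (fun (k : J) (n : S) => ((q2 p (n : ℕ) : ℕ) : ℤ) ^ (k : ℕ) : Matrix J S ℤ)
    (by
      rw [Fintype.card_coe, Fintype.card_coe]
      omega)
    (by
      rw [Fintype.card_coe]
      exact Finset.card_pos.2 ⟨1, h1J⟩)
  obtain ⟨w, hw⟩ : ∃ w : ℕ → ℤ, ∀ n (hn : n ∈ S), w n = t ⟨n, hn⟩ :=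
    ⟨fun n => if hn : n ∈ S then t ⟨n, hn⟩ else 0, fun n hn => dif_pos hn⟩
  have hW : ∀ k ∈ J, Ww p S w k = 0 := by
    intro k hk
    have h1 := congrFun ht ⟨k, hk⟩
    change ∑ n : S, ((q2 p (n : ℕ) : ℕ) : ℤ) ^ k * t n = 0 at h1
    unfold Ww
    rw [← Finset.sum_coe_sort, ← h1]
    apply Finset.sum_congr rfl
    intro n _
    rw [hw n n.2]
    ring
  refine ⟨w, ?_, hW 1 h1J, fun k hk => hW k (by rw [hJ]; exact mem_insert_of_mem hk)⟩
  by_contra hc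
  apply ht0
  funext n
  by_contra hne
  exact hc ⟨n, n.2, by rw [hw n n.2]; exact hne⟩

/-- the growth contradiction -/
theorem final (δ C : ℝ) (c : ℕ) (hδ : 0 < δ) : ∃ K0 : ℕ, ∀ K ≥ K0,
    C * ((K : ℝ) + 1) ^ c * Real.exp (-(δ * K)) < 1 := by
  have t1 : Tendsto (fun K : ℕ => δ * ((K : ℝ) + 1)) atTop atTop :=
    (tendsto_atTop_add_const_right _ 1 tendsto_natCast_atTop_atTop).const_mul_atTop hδ
  have t2 := (Real.tendsto_pow_mul_exp_neg_atTop_nhds_zero c).comp t1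
  have t3 := t2.const_mul (C * Real.exp δ / δ ^ c)
  rw [mul_zero] at t3
  obtain ⟨K0, hK0⟩ := eventually_atTop.1 (t3.eventually (gt_mem_nhds (zero_lt_one' ℝ)))
  refine ⟨K0, fun K hK => ?_⟩
  have h1 := hK0 K hK
  simp only [Function.comp_apply] at h1
  have e : C * Real.exp δ / δ ^ c * ((δ * ((K : ℝ) + 1)) ^ c * Real.exp (-(δ * ((K : ℝ) + 1)))) =
      C * ((K : ℝ) + 1) ^ c * Real.exp (-(δ * K)) := by
    have e1 : Real.exp δ * Real.exp (-(δ * ((K : ℝ) + 1))) = Real.exp (-(δ * K)) := by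
      rw [← Real.exp_add]
      congr 1
      ring
    rw [← e1, mul_pow]
    field_simp
  rw [e] at h1
  exact h1

end BH5

end Pool.Agent.Work.MP_03df5c_pb
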