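import Pool.Agent.Work.MP_03df5c_pb.Defs

/-!
# Statements of the blocks, part 1
-/

open Finset Filter Topology

namespace Pool.Agent.Work.MP_03df5c_pb

open Pool.Agent.Work.MP_03df5c_h91

/-- F1: one step of the alternating sums. -/
def S_F1 : Prop := ∀ (p : ℕ) [Fact p.Prime], p ≠ 2 → ∀ (f : ℕ → ℚ_[p]) (C : ℝ), 0 ≤ C →
  Lip p f C → ∀ N, ‖fs p f (N + 1) - fs p f N‖ ≤ C * ((p : ℝ) ^ N)⁻¹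

/-- F2: convergence. -/
def S_F2 : Prop := ∀ (p : ℕ) [Fact p.Prime], p ≠ 2 → ∀ (f : ℕ → ℚ_[p]) (C : ℝ), 0 ≤ C →
  Lip p f C → ∃ L, HasI p f L

/-- F3: shift. -/
def S_F3 : Prop := ∀ (p : ℕ) [Fact p.Prime], p ≠ 2 → ∀ (f : ℕ → ℚ_[p]) (C : ℝ), 0 ≤ C →
  Lip p f C → ∀ L, HasI p f L → HasI p (fun t => f (t + 1)) (2 * f 0 - L)

/-- F4: norm of the limit. -/
def S_F4 : Prop := ∀ (p : ℕ) [Fact p.Prime] (f : ℕ → ℚ_[p]) (B : ℝ), (∀ t, ‖f t‖ ≤ B) →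
  ∀ L, HasI p f L → ‖L‖ ≤ B

/-- F5: the limit for `binom (t + K) K`. -/
def S_F5 : Prop := ∀ (p : ℕ) [Fact p.Prime], p ≠ 2 → ∀ K : ℕ,
  HasI p (fun t => (((t + K).choose K : ℕ) : ℚ_[p])) (((2 : ℚ_[p]) ^ K)⁻¹)

/-- F6: the exact norm of the main term. -/
def S_F6 : Prop := ∀ (p : ℕ) [Fact p.Prime], p ≠ 2 → ∀ (K : ℕ) (g : ℕ → ℚ_[p]),
  (∀ t, ‖g t - 1‖ ≤ (p : ℝ)⁻¹) →
  ∀ L, HasI p (fun t => (((t + K).choose K : ℕ) : ℚ_[p]) * g t) L → ‖L‖ = 1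

/-- E1: convergence for the powers of `a / p^r + t`. -/
def S_E1 : Prop := ∀ (p : ℕ) [Fact p.Prime], p ≠ 2 → ∀ r a i : ℕ, 1 ≤ r → ¬ p ∣ a →
  HasI p (fun t => ((xa p r a t) ^ i)⁻¹) (Ev p r i a)

/-- E2: the shifted powers. -/
def S_E2 : Prop := ∀ (p : ℕ) [Fact p.Prime], p ≠ 2 → ∀ r a i : ℕ, 1 ≤ r → ¬ p ∣ a → ∀ j : ℕ,
  HasI p (fun t => ((xa p r a (t + j)) ^ i)⁻¹)
    ((-1) ^ j * Ev p r i a + 2 * ∑ l ∈ range j, (-1) ^ (j - 1 - l) * ((xa p r a l) ^ i)⁻¹)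

/-- E3: convergence of `Jf` and the sum over the residue classes. -/
def S_E3 : Prop := ∀ (p : ℕ) [Fact p.Prime], p ≠ 2 → ∀ i : ℕ,
  Tendsto (Jf p i) atTop (𝓝 (JJ p i)) ∧
  ∀ r, 1 ≤ r → ∑ a ∈ AA p r, (-1) ^ a * Ev p r i a = (p : ℚ_[p]) ^ (r * i) * JJ p i

/-- E4: even exponents. -/
def S_E4 : Prop := ∀ (p : ℕ) [Fact p.Prime], p ≠ 2 → ∀ i : ℕ, Even i → JJ p i = 0

/-- E5: the Kubota-Leopoldt values. -/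
def S_E5 : Prop := ∀ (p : ℕ) [Fact p.Prime], p ≠ 2 → ∀ k : ℕ, 2 ≤ k →
  JJ p k = -2 * (1 - ((2 : ℚ_[p]) ^ (k - 1))⁻¹) * kubotaLeopoldt p k

/-- P1: multiplication of a partial fraction expansion by a function with simple poles. -/
def S_P1 : Prop := ∀ (K d s : ℕ), 1 ≤ s → (∀ n, 1 ≤ n → n ≤ K → n ∣ d) →
  ∀ (c : ℕ → ℕ → ℚ) (F : ℚ → ℚ) (β : ℕ → ℚ), PF K s c F →
  ∃ c' : ℕ → ℕ → ℚ, PF K (s + 1) c' (fun u => sf K β u * F u) ∧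
    (∀ N N' : ℕ, (∀ i < s, ∀ j ≤ K, ∃ z : ℤ, (N : ℚ) * (d : ℚ) ^ (s - 1 - i) * c i j = z) →
      (∀ j ≤ K, ∃ z : ℤ, (N' : ℚ) * β j = z) →
      ∀ i < s + 1, ∀ j ≤ K, ∃ z : ℤ, ((N * N' : ℕ) : ℚ) * (d : ℚ) ^ (s - i) * c' i j = z) ∧
    (∀ B B' : ℝ, (∀ i < s, ∀ j ≤ K, |(c i j : ℝ)| ≤ B) →
      ∑ j ∈ range (K + 1), |(β j : ℝ)| ≤ B' →
      ∀ i < s + 1, ∀ j ≤ K, |(c' i j : ℝ)| ≤ ((s + 1) * (K + 1) : ℝ) * (B * B'))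

/-- P2: uniqueness of partial fraction expansions (up to a constant). -/
def S_P2 : Prop := ∀ (K s : ℕ) (c c' : ℕ → ℕ → ℚ) (C0 : ℚ),
  (∀ u, Good K u → ev K s c u = ev K s c' u + C0) → ∀ i < s, ∀ j ≤ K, c i j = c' i j

/-- P3: the two product formulas. -/
def S_P3 : Prop := ∀ (K : ℕ) (u : ℚ), Good K u →
  sf K (bet0 K) u = (K.factorial : ℚ) / ∏ j ∈ range (K + 1), (u + (j : ℚ)) ∧
  ∀ θ : ℚ, sf K (bet K θ) u =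
    bin (u - θ + K) K * ((K.factorial : ℚ) / ∏ j ∈ range (K + 1), (u + (j : ℚ)))

/-- P4: size of the coefficients of a block. -/
def S_P4 : Prop := ∀ (K : ℕ) (θ : ℚ), 0 < θ → θ < 1 → ∀ j ≤ K, |bet K θ j| ≤ 1

/-- P5: denominators of the coefficients of a block. -/
def S_P5 : Prop := ∀ (p : ℕ) [Fact p.Prime] (r K : ℕ) (b : ℤ),
  ∃ z : ℤ, (p : ℚ) ^ ((r + 1) * K) * bin ((b : ℚ) / (p : ℚ) ^ r) K = z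

/-- P6: the Leibniz triangle. -/
def S_P6 : Prop := ∀ K m : ℕ, m < K → K * (K - 1).choose m ∣ Nat.lcmUpto K

/-- P7: denominators after division by a linear factor. -/
def S_P7 : Prop := ∀ (p : ℕ) [Fact p.Prime] (r a K h j : ℕ), 1 ≤ r → ¬ p ∣ a → 1 ≤ h → h ≤ K →
  j ≤ K → ∃ z : ℤ, ((dd K * p ^ ((r + 1) * K) : ℕ) : ℚ) *
    (bet K (th p r a) j / (th p r a - (h : ℚ) + (j : ℚ))) = z

/-- P9: the value of a principal part at a zero. -/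
def S_P9 : Prop := ∀ (K s : ℕ), 1 ≤ s → ∀ (β : ℕ → ℚ) (G : ℚ → ℚ) (u0 : ℚ) (c c' : ℕ → ℕ → ℚ),
  Good K u0 → sf K β u0 = 0 → PF K s c (fun u => sf K β u * G u) →
  PF K s c' (fun u => sf K (fun j => β j / (u0 + (j : ℚ))) u * G u) →
  ∀ j ≤ K, ∑ i ∈ range s, c i j / (u0 + (j : ℚ)) ^ (i + 1) = c' 0 j

/-- C1: pigeonhole. -/
def S_C1 : Prop := ∀ (p : ℕ) [Fact p.Prime] (m : ℕ) (η : Fin (m + 1) → ℚ_[p]), (∀ i, ‖η i‖ ≤ 1) →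
  η 0 = 1 → ∀ N H : ℕ, p ^ (N * m) < (H + 1) ^ (m + 1) →
  ∃ e : Fin (m + 1) → ℤ, e ≠ 0 ∧ (∀ i, |e i| ≤ H) ∧
    ∀ i, ‖(e i : ℚ_[p]) - (e 0 : ℚ_[p]) * η i‖ ≤ ((p : ℝ) ^ N)⁻¹

/-- C2: primitive approximations. -/
def S_C2 : Prop := ∀ (p : ℕ) [Fact p.Prime] (m : ℕ) (η : Fin (m + 1) → ℚ_[p]), (∀ i, ‖η i‖ ≤ 1) →
  η 0 = 1 → ∀ M0 : ℕ, ∃ N ≥ M0, ∃ e : Fin (m + 1) → ℤ, ¬ (p : ℤ) ∣ e 0 ∧
    (∀ i, |(e i : ℝ)| ≤ (p : ℝ) ^ ((N : ℝ) * (m / (m + 1)))) ∧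
    ∀ i, ‖(e i : ℚ_[p]) - (e 0 : ℚ_[p]) * η i‖ ≤ ((p : ℝ) ^ N)⁻¹

/-- C3: the criterion for a family containing `1` (no independence needed). -/
def S_C3 : Prop := ∀ (p : ℕ) [Fact p.Prime] (m : ℕ) (η : Fin (m + 1) → ℚ_[p]), (∀ i, ‖η i‖ ≤ 1) →
  η 0 = 1 → ∀ (c : ℕ → Fin (m + 1) → ℤ) (ψ : ℕ → ℕ) (α β C : ℝ) (n0 : ℕ), 0 < α → 0 ≤ β →
  (∀ K ≥ 1, ‖∑ i, (c K i : ℚ_[p]) * η i‖ = ((p : ℝ) ^ ψ K)⁻¹) →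
  (∀ K : ℕ, 1 ≤ K → α * K ≤ ψ K) →
  (∀ K : ℕ, 1 ≤ K → ψ (K + 1) ≤ ψ K + n0 * (Nat.log p (K + 1) + 1)) →
  (∀ K : ℕ, 1 ≤ K → ∀ i, |(c K i : ℝ)| ≤ C * ((K : ℝ) + 1) ^ n0 * Real.exp (β * K)) →
  α * Real.log p ≤ β * (m + 1)

/-- C4: the criterion with the dimension of the span. -/
def S_C4 : Prop := ∀ (p : ℕ) [Fact p.Prime] (n : ℕ) (θ : ℕ → ℚ_[p]), θ 0 = 1 →
  ∀ (c : ℕ → ℕ → ℤ) (ψ : ℕ → ℕ) (α β C : ℝ) (n0 : ℕ), 0 < α → 0 ≤ β →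
  (∀ K ≥ 1, ‖∑ i ∈ range (n + 1), (c K i : ℚ_[p]) * θ i‖ = ((p : ℝ) ^ ψ K)⁻¹) →
  (∀ K : ℕ, 1 ≤ K → α * K ≤ ψ K) →
  (∀ K : ℕ, 1 ≤ K → ψ (K + 1) ≤ ψ K + n0 * (Nat.log p (K + 1) + 1)) →
  (∀ K : ℕ, 1 ≤ K → ∀ i ≤ n, |(c K i : ℝ)| ≤ C * ((K : ℝ) + 1) ^ n0 * Real.exp (β * K)) →
  α * Real.log p ≤ β * Module.finrank ℚ (Submodule.span ℚ (θ '' (Set.Iic n)))

/-- T1: transfer of linear independence to `ℚ(π)`. -/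
def S_T1 : Prop := ∀ (p : ℕ) [Fact p.Prime] (m : ℕ) (k : Fin m → ℕ), (∀ i, 3 ≤ k i ∧ Odd (k i)) →
  Transfers (m + 1) (Fin.cons 2 k) p →
  LinearIndependent ℚ (Fin.cons 1 (fun i => zetaP p (k i)) : Fin (m + 1) → ℚ_[p]) →
  LinearIndependent (IntermediateField.adjoin ℚ {Real.pi})
    (Fin.cons 1 (fun i => zetaR (k i)) : Fin (m + 1) → ℝ)

end Pool.Agent.Work.MP_03df5c_pb
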