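import Pool.Agent.Work.MP_03df5c_pb.Interface1

/-!
# Statements of the blocks, part 2
-/

open Finset Filter Topology

namespace Pool.Agent.Work.MP_03df5c_pb

open Pool.Agent.Work.MP_03df5c_h91

/-- `h` has constant first digit. -/
def UC (p : ℕ) [Fact p.Prime] (h : ℕ → ℚ_[p]) : Prop :=
  h 0 ≠ 0 ∧ ∀ t, ‖h t / h 0 - 1‖ ≤ (p : ℝ)⁻¹

/-- The exponent coming from the blocks `a' ≠ a`. -/
def XX (p r a : ℕ) : ℕ :=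
  ∑ a' ∈ (AA p r).erase a, (r - padicValInt p ((a : ℤ) - (a' : ℤ))) * ee a'

/-- The value of a rational function at `a / p ^ r + t`, in `ℚ_p`. -/
noncomputable def vv (p r a : ℕ) [Fact p.Prime] (F : ℚ → ℚ) (t : ℕ) : ℚ_[p] :=
  ((F (th p r a + (t : ℚ)) : ℚ) : ℚ_[p])

/-- The product of the blocks that remain when one copy of the block `a` is removed. -/
noncomputable def GG (p r s K a : ℕ) (u : ℚ) : ℚ :=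
  (sf K (bet0 K) u) ^ (s - bb p r) * (sf K (bet K (th p r a)) u) ^ (ee a - 1) *
    ∏ a' ∈ (AA p r).erase a, (sf K (bet K (th p r a')) u) ^ (ee a')

/-- The exponent of `p` in the linear forms. -/
noncomputable def psi (p r s K : ℕ) : ℕ :=
  (r + 1) * K * bb p r + s * padicValNat p (dd K) +
    (s - bb p r + 1) * padicValNat p K.factorial + (r * (K + 1) * s - K * XX p r 1)

/-- The numbers `1, J_1, J_2, …`. -/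
noncomputable def tt (p : ℕ) [Fact p.Prime] (i : ℕ) : ℚ_[p] := if i = 0 then 1 else JJ p i

/-- The rational part of the linear form. -/
noncomputable def rat (p r s K : ℕ) (c : ℕ → ℕ → ℚ) : ℚ :=
  2 * ∑ a ∈ AA p r, ∑ j ∈ range (K + 1), ∑ l ∈ range j, (-1) ^ a * (-1) ^ (j - 1 - l) *
    ∑ i ∈ range s, c i j / (th p r a + (l : ℚ)) ^ (i + 1)

/-- N0: closure properties of `UC`. -/
def S_N0 : Prop := ∀ (p : ℕ) [Fact p.Prime],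
  (∀ h g : ℕ → ℚ_[p], UC p h → UC p g → UC p (fun t => h t * g t)) ∧
  (∀ (h : ℕ → ℚ_[p]) (n : ℕ), UC p h → UC p (fun t => h t ^ n)) ∧
  (∀ (T : Finset ℕ) (h : ℕ → ℕ → ℚ_[p]), (∀ a ∈ T, UC p (h a)) →
    UC p (fun t => ∏ a ∈ T, h a t))

/-- N1: the block without numerator. -/
def S_N1 : Prop := ∀ (p : ℕ) [Fact p.Prime] (r K a : ℕ), 1 ≤ r → a ∈ AA p r →
  UC p (vv p r a (sf K (bet0 K))) ∧
  ‖vv p r a (sf K (bet0 K)) 0‖ = ‖(K.factorial : ℚ_[p])‖ * ((p : ℝ) ^ (r * (K + 1)))⁻¹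

/-- N2: the blocks `a' ≠ a` at `a / p ^ r + t`. -/
def S_N2 : Prop := ∀ (p : ℕ) [Fact p.Prime] (r K a a' : ℕ), 1 ≤ r → a ∈ AA p r → a' ∈ AA p r →
  a ≠ a' → padicValInt p ((a : ℤ) - (a' : ℤ)) < r ∧
  UC p (vv p r a (sf K (bet K (th p r a')))) ∧
  ‖vv p r a (sf K (bet K (th p r a'))) 0‖ =
    (p : ℝ) ^ ((r - padicValInt p ((a : ℤ) - (a' : ℤ))) * K) * ((p : ℝ) ^ (r * (K + 1)))⁻¹

/-- N2b: the block `a` at `a / p ^ r + t`. -/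
def S_N2b : Prop := ∀ (p : ℕ) [Fact p.Prime] (r K a t : ℕ), 1 ≤ r → a ∈ AA p r →
  vv p r a (sf K (bet K (th p r a))) t =
    (((t + K).choose K : ℕ) : ℚ_[p]) * vv p r a (sf K (bet0 K)) t

/-- N3: the block `1` dominates. -/
def S_N3 : Prop := ∀ (p : ℕ) [Fact p.Prime] (r : ℕ), 1 ≤ r → 1 ∈ AA p r ∧
  XX p r 1 ≤ r * bb p r ∧ ∀ a ∈ AA p r, a ≠ 1 → XX p r a < XX p r 1

/-- N4a: the values of `RR` at `a / p ^ r + t`. -/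
def S_N4a : Prop := ∀ (p : ℕ) [Fact p.Prime] (r s K a : ℕ), 1 ≤ r → bb p r ≤ s → a ∈ AA p r →
  ∃ h : ℕ → ℚ_[p], UC p h ∧
    (∀ t, vv p r a (RR p r s K) t = (((t + K).choose K : ℕ) : ℚ_[p]) ^ (ee a) * h t) ∧
    ‖h 0‖ = ‖(K.factorial : ℚ_[p])‖ ^ (s - bb p r + ee a) * (p : ℝ) ^ (K * XX p r a) *
      ((p : ℝ) ^ (r * (K + 1) * s))⁻¹

/-- N4: the exact norm of the sum. -/
def S_N4 : Prop := ∀ (p : ℕ) [Fact p.Prime], p ≠ 2 → ∀ r s K : ℕ, 1 ≤ r → bb p r ≤ s → 1 ≤ K →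
  ∀ S : ℕ → ℚ_[p], (∀ a ∈ AA p r, HasI p (vv p r a (RR p r s K)) (S a)) →
  ‖∑ a ∈ AA p r, (-1) ^ a * S a‖ =
    ‖(K.factorial : ℚ_[p])‖ ^ (s - bb p r + 1) * ((p : ℝ) ^ (r * (K + 1) * s - K * XX p r 1))⁻¹

/-- L0: one block taken out of `RR`. -/
def S_L0 : Prop := ∀ (p : ℕ) [Fact p.Prime] (r s K a : ℕ), a ∈ AA p r → ∀ u,
  RR p r s K u = sf K (bet K (th p r a)) u * GG p r s K a u

/-- L1: partial fractions of a simple block times `GG`. -/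
def S_L1 : Prop := ∀ (p : ℕ) [Fact p.Prime] (r s K a : ℕ), 1 ≤ r → 1 ≤ K → bb p r ≤ s →
  a ∈ AA p r → ∀ (β : ℕ → ℚ) (N : ℕ) (B : ℝ), (∀ j ≤ K, ∃ z : ℤ, (N : ℚ) * β j = z) →
  ∑ j ∈ range (K + 1), |(β j : ℝ)| ≤ B →
  ∃ c : ℕ → ℕ → ℚ, PF K s c (fun u => sf K β u * GG p r s K a u) ∧
    (∀ i < s, ∀ j ≤ K, ∃ z : ℤ,
      ((N * p ^ ((r + 1) * K * (bb p r - 1)) : ℕ) : ℚ) * (dd K : ℚ) ^ (s - 1 - i) * c i j = z) ∧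
    (∀ i < s, ∀ j ≤ K, |(c i j : ℝ)| ≤
      (((s : ℝ) + 1) * ((K : ℝ) + 1)) ^ s * (B * 2 ^ (K * (s - 1))))

/-- L2: all the coefficients of the linear form. -/
def S_L2 : Prop := ∀ (p : ℕ) [Fact p.Prime] (r s K : ℕ), 1 ≤ r → 1 ≤ K → bb p r ≤ s →
  ∃ c : ℕ → ℕ → ℚ, PF K s c (RR p r s K) ∧
    (∀ i < s, ∀ j ≤ K, ∃ z : ℤ,
      ((p ^ ((r + 1) * K * bb p r) * dd K ^ s : ℕ) : ℚ) * c i j = z) ∧
    (∀ i < s, ∀ j ≤ K, |(c i j : ℝ)| ≤ (((s : ℝ) + 1) * ((K : ℝ) + 1)) ^ s * 2 ^ (K * s)) ∧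
    (∀ a ∈ AA p r, ∀ j ≤ K, ∀ l < j,
      (∃ z : ℤ, ((p ^ ((r + 1) * K * bb p r) * dd K ^ s : ℕ) : ℚ) *
        ∑ i ∈ range s, c i j / (th p r a + (l : ℚ)) ^ (i + 1) = z) ∧
      |((∑ i ∈ range s, c i j / (th p r a + (l : ℚ)) ^ (i + 1) : ℚ) : ℝ)| ≤
        (p : ℝ) ^ r * ((((s : ℝ) + 1) * ((K : ℝ) + 1)) ^ s * 2 ^ (K * s)))

/-- L3: the linear form. -/
def S_L3 : Prop := ∀ (p : ℕ) [Fact p.Prime], p ≠ 2 → ∀ (r s K : ℕ), 1 ≤ r →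
  ∀ c : ℕ → ℕ → ℚ, PF K s c (RR p r s K) →
  ∃ S : ℕ → ℚ_[p], (∀ a ∈ AA p r, HasI p (vv p r a (RR p r s K)) (S a)) ∧
    ∑ a ∈ AA p r, (-1) ^ a * S a =
      (∑ i ∈ range s, ((∑ j ∈ range (K + 1), (-1) ^ j * c i j : ℚ) : ℚ_[p]) *
        ((p : ℚ_[p]) ^ (r * (i + 1)) * JJ p (i + 1))) + ((rat p r s K c : ℚ) : ℚ_[p])

/-- L4: the linear forms with integer coefficients. -/
def S_L4 : Prop := ∀ (p : ℕ) [Fact p.Prime], p ≠ 2 → ∀ (r s : ℕ), 1 ≤ r → bb p r ≤ s →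
  ∃ C : ℝ, 0 ≤ C ∧ ∀ K ≥ 1, ∃ c : ℕ → ℤ, ∃ S : ℕ → ℚ_[p],
    (∀ a ∈ AA p r, HasI p (vv p r a (RR p r s K)) (S a)) ∧
    ∑ i ∈ range (s + 1), (c i : ℚ_[p]) * tt p i =
      ((p ^ ((r + 1) * K * bb p r) * dd K ^ s : ℕ) : ℚ_[p]) * ∑ a ∈ AA p r, (-1) ^ a * S a ∧
    ∀ i ≤ s, |(c i : ℝ)| ≤ C * ((K : ℝ) + 1) ^ (s + 2) *
      ((p : ℝ) ^ ((r + 1) * K * bb p r) * (dd K : ℝ) ^ s * 2 ^ (K * s))

/-- D1: the least common multiples. -/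
def S_D1 : Prop := (∀ K : ℕ, (dd K : ℝ) ≤ Real.exp ((Real.log 4 + 4) * K)) ∧
  (∀ K : ℕ, dd K ≠ 0 ∧ ∀ n, 1 ≤ n → n ≤ K → n ∣ dd K) ∧
  ∀ (p : ℕ) [Fact p.Prime] (K : ℕ),
    padicValNat p (dd (K + 1)) ≤ padicValNat p (dd K) + Nat.log p (K + 1)

/-- D2: growth of the exponents. -/
def S_D2 : Prop := ∀ (p : ℕ) [Fact p.Prime] (r s : ℕ), 1 ≤ r → bb p r ≤ s →
  (∀ K : ℕ, r * s * K ≤ psi p r s K) ∧
  ∃ n0 : ℕ, ∀ K : ℕ, 1 ≤ K → psi p r s (K + 1) ≤ psi p r s K + n0 * (Nat.log p (K + 1) + 1)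

/-- L5: the linear forms, final form. -/
def S_L5 : Prop := ∀ (p : ℕ) [Fact p.Prime], p ≠ 2 → ∀ (r s : ℕ), 1 ≤ r → bb p r ≤ s →
  ∃ (c : ℕ → ℕ → ℤ) (C : ℝ) (n0 : ℕ),
    (∀ K ≥ 1, ‖∑ i ∈ range (s + 1), (c K i : ℚ_[p]) * tt p i‖ = ((p : ℝ) ^ psi p r s K)⁻¹) ∧
    (∀ K : ℕ, 1 ≤ K → psi p r s (K + 1) ≤ psi p r s K + n0 * (Nat.log p (K + 1) + 1)) ∧
    ∀ K : ℕ, 1 ≤ K → ∀ i ≤ s, |(c K i : ℝ)| ≤ C * ((K : ℝ) + 1) ^ n0 *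
      Real.exp ((s * (Real.log 2 + (Real.log 4 + 4)) + (r + 1) * bb p r * Real.log p) * K)

/-- Z1: the dimension bound with the parameter `r`. -/
def S_Z1 : Prop := ∀ (p : ℕ) [Fact p.Prime], p ≠ 2 → ∀ (r s : ℕ), 1 ≤ r → bb p r ≤ s →
  (r : ℝ) * s * Real.log p ≤
    (s * (Real.log 2 + (Real.log 4 + 4)) + (r + 1) * bb p r * Real.log p) *
      Module.finrank ℚ (Submodule.span ℚ (tt p '' (Set.Iic s)))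

/-- Z2: the logarithmic bound. -/
def S_Z2 : Prop := ∀ (p : ℕ) [Fact p.Prime], p ≠ 2 → ∃ c : ℝ, 0 < c ∧ ∀ s : ℕ, 2 ≤ s →
  c * Real.log s ≤ Module.finrank ℚ (Submodule.span ℚ (tt p '' (Set.Iic s)))

/-- Z3: the same for the `p`-adic zeta values. -/
def S_Z3 : Prop := ∀ (p : ℕ) [Fact p.Prime], p ≠ 2 → ∃ c : ℝ, 0 < c ∧ ∀ s : ℕ, 2 ≤ s →
  c * Real.log s ≤ Module.finrank ℚ (Submodule.span ℚ
    ({(1 : ℚ_[p])} ∪ {x | ∃ k, Odd k ∧ 3 ≤ k ∧ k ≤ s ∧ x = zetaP p k}))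

/-- FIN: the theorem. -/
def S_FIN : Prop := ∀ (p : ℕ) [Fact p.Prime], p ≠ 2 →
  (∀ (m : ℕ) (k : Fin m → ℕ), (∀ i, 3 ≤ k i ∧ Odd (k i)) → Function.Injective k →
    Transfers (m + 1) (Fin.cons 2 k) p) →
  ∃ c : ℝ, 0 < c ∧ ∀ s : ℕ, 2 ≤ s →
    c * Real.log s ≤ Module.finrank (IntermediateField.adjoin ℚ {Real.pi})
      (Submodule.span (IntermediateField.adjoin ℚ {Real.pi})
        ({(1 : ℝ)} ∪ {x | ∃ k, Odd k ∧ 3 ≤ k ∧ k ≤ s ∧ x = zetaR k}))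

end Pool.Agent.Work.MP_03df5c_pb
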