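import Pool.Agent.Work.MP_03df5c_pb.Interface2

/-!
# Statements of the blocks, part 3: explicit constant and other base fields
-/

open Finset Filter Topology

namespace Pool.Agent.Work.MP_03df5c_pb

open Pool.Agent.Work.MP_03df5c_h91

/-- The odd indices up to `s`, and the number `1`: the real numbers `1, ζ(3), ζ(5), …`. -/
def oddR (s : ℕ) : Set ℝ := {(1 : ℝ)} ∪ {x | ∃ k, Odd k ∧ 3 ≤ k ∧ k ≤ s ∧ x = zetaR k}

/-- The same for the `p`-adic values. -/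
def oddP (p : ℕ) [Fact p.Prime] (s : ℕ) : Set ℚ_[p] :=
  {(1 : ℚ_[p])} ∪ {x | ∃ k, Odd k ∧ 3 ≤ k ∧ k ≤ s ∧ x = zetaP p k}

/-- All polynomial relations over `ℚ` between `ζ(2)` and the values `ζ(k)`, `3 ≤ k ≤ s` odd, hold
between the `p`-adic values. -/
def TransfersUpTo (s p : ℕ) [Fact p.Prime] : Prop :=
  ∀ (m : ℕ) (k : Fin m → ℕ), Function.Injective k → (∀ i, 3 ≤ k i ∧ k i ≤ s ∧ Odd (k i)) →
    Transfers (m + 1) (Fin.cons 2 k) p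

/-- D3: the least common multiples, with the constant `log 4`. -/
def S_D3 : Prop := ∀ δ : ℝ, 0 < δ → ∃ C : ℝ, 0 < C ∧ ∀ K : ℕ,
  (dd K : ℝ) ≤ C * Real.exp ((Real.log 4 + δ) * K)

/-- L6: the linear forms with the better constant. -/
def S_L6 : Prop := ∀ (p : ℕ) [Fact p.Prime], p ≠ 2 → ∀ (r s : ℕ), 1 ≤ r → bb p r ≤ s →
  ∀ δ : ℝ, 0 < δ → ∃ (c : ℕ → ℕ → ℤ) (C : ℝ) (n0 : ℕ),
    (∀ K ≥ 1, ‖∑ i ∈ range (s + 1), (c K i : ℚ_[p]) * tt p i‖ = ((p : ℝ) ^ psi p r s K)⁻¹) ∧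
    (∀ K : ℕ, 1 ≤ K → psi p r s (K + 1) ≤ psi p r s K + n0 * (Nat.log p (K + 1) + 1)) ∧
    ∀ K : ℕ, 1 ≤ K → ∀ i ≤ s, |(c K i : ℝ)| ≤ C * ((K : ℝ) + 1) ^ n0 *
      Real.exp ((s * (3 * Real.log 2) + (r + 1) * bb p r * Real.log p + δ) * K)

/-- Z4: the dimension bound with the parameter `r`, better constant. -/
def S_Z4 : Prop := ∀ (p : ℕ) [Fact p.Prime], p ≠ 2 → ∀ (r s : ℕ), 1 ≤ r → bb p r ≤ s →
  (r : ℝ) * s * Real.log p ≤
    (s * (3 * Real.log 2) + (r + 1) * bb p r * Real.log p) *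
      Module.finrank ℚ (Submodule.span ℚ (tt p '' (Set.Iic s)))

/-- Z5: the logarithmic bound with explicit constant. -/
def S_Z5 : Prop := ∀ (p : ℕ) [Fact p.Prime], p ≠ 2 → ∀ c : ℝ, c < 1 / (3 * Real.log 2) →
  ∃ s0 : ℕ, ∀ s ≥ s0, c * Real.log s ≤
    Module.finrank ℚ (Submodule.span ℚ (tt p '' (Set.Iic s)))

/-- Z6: the same for the `p`-adic zeta values. -/
def S_Z6 : Prop := ∀ (p : ℕ) [Fact p.Prime], p ≠ 2 → ∀ c : ℝ, c < 1 / (3 * Real.log 2) →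
  ∃ s0 : ℕ, ∀ s ≥ s0, c * Real.log s ≤ Module.finrank ℚ (Submodule.span ℚ (oddP p s))

/-- T2: transfer of linear independence to `ℚ(x)` for `x ≠ 0` in the ideal generated by `π` in
`ℚ[π, ζ(k_1), …, ζ(k_m)]`. -/
def S_T2 : Prop := ∀ (p : ℕ) [Fact p.Prime] (m : ℕ) (k : Fin m → ℕ), (∀ i, 3 ≤ k i ∧ Odd (k i)) →
  Transfers (m + 1) (Fin.cons 2 k) p →
  ∀ y ∈ Algebra.adjoin ℚ ({Real.pi} ∪ Set.range (fun i => zetaR (k i))), Real.pi * y ≠ 0 →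
  ∀ (n : ℕ) (e : Fin n → Fin m),
  LinearIndependent ℚ (Fin.cons 1 (fun i => zetaP p (k (e i))) : Fin (n + 1) → ℚ_[p]) →
  LinearIndependent (IntermediateField.adjoin ℚ {Real.pi * y})
    (Fin.cons 1 (fun i => zetaR (k (e i))) : Fin (n + 1) → ℝ)

/-- FIN2: the theorem with explicit constant, over all the fields `ℚ(x)` of T2. -/
def S_FIN2 : Prop := ∀ (p : ℕ) [Fact p.Prime], p ≠ 2 → ∀ c : ℝ, c < 1 / (3 * Real.log 2) →
  ∃ s0 : ℕ, ∀ s ≥ s0, TransfersUpTo s p →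
  ∀ y ∈ Algebra.adjoin ℚ ({Real.pi} ∪ oddR s), Real.pi * y ≠ 0 →
    c * Real.log s ≤ Module.finrank (IntermediateField.adjoin ℚ {Real.pi * y})
      (Submodule.span (IntermediateField.adjoin ℚ {Real.pi * y}) (oddR s))

end Pool.Agent.Work.MP_03df5c_pb
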