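import Pool.Agent.Work.MP_03df5c_pb.Interface3

/-!
# Statements of the blocks, part 4: the primes `2` and `3` and the number `ζ(3)`
-/

open Finset Filter Topology

namespace Pool.Agent.Work.MP_03df5c_pb

open Pool.Agent.Work.MP_03df5c_h91

/-- The average `p^(-N) ∑_{t < p^N} f(t)`. -/
noncomputable def av (p : ℕ) [Fact p.Prime] (f : ℕ → ℚ_[p]) (N : ℕ) : ℚ_[p] :=
  ((p : ℚ_[p]) ^ N)⁻¹ * ∑ t ∈ range (p ^ N), f t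

/-- The coefficients of the block `a = 1`. -/
noncomputable def b1 (p r K j : ℕ) : ℚ := bet K (th p r 1) j

/-- The coefficient of the zeta value. -/
noncomputable def rho3 (p r K : ℕ) : ℚ := ∑ j ∈ range (K + 1), b1 p r K j ^ 2

/-- The rational part of the form. -/
noncomputable def rat3 (p r K : ℕ) : ℚ :=
  -∑ j ∈ range (K + 1), ∑ l ∈ range j, 2 * ∑ j' ∈ (range (K + 1)).erase j,
    (b1 p r K j / (th p r 1 + (l : ℚ))) *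
      (b1 p r K j' / (th p r 1 + (l : ℚ) - (j : ℚ) + (j' : ℚ))) / ((j' : ℚ) - (j : ℚ))

/-- V1: averages. -/
def S_V1 : Prop := ∀ (p : ℕ) [Fact p.Prime] (φ : ℕ → ℚ_[p]) (C : ℝ), 0 ≤ C →
  (∀ t n : ℕ, ‖φ (t + p ^ n) - φ t‖ ≤ C * ((p : ℝ) ^ n)⁻¹) →
  ∀ n, ‖av p φ n - φ 0‖ ≤ p * C

/-- V2: the exact norm of the averages of `binom (t + K) K ^ 2`, `K = p ^ m - 1`. -/
def S_V2 : Prop := ∀ (p : ℕ) [Fact p.Prime] (m N : ℕ), 1 ≤ m → m ≤ N → ∀ w : ℕ → ℚ_[p],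
  (∀ t, ‖w t‖ = 1) → (∀ t s : ℕ, ‖w (t + s) - w t‖ ≤ (p : ℝ)⁻¹ * ‖(s : ℚ_[p])‖) →
  ‖av p (fun t => (((t + (p ^ m - 1)).choose (p ^ m - 1) : ℕ) : ℚ_[p]) ^ 2 * w t) N‖ = (p : ℝ) ^ m

/-- V3: the exact norm of the averages of the square of the block `1`. -/
def S_V3 : Prop := ∀ (p : ℕ) [Fact p.Prime] (r m N : ℕ), 1 ≤ r → 1 ≤ m → m ≤ N →
  ‖av p (vv p r 1 (fun u => sf (p ^ m - 1) (b1 p r (p ^ m - 1)) u ^ 2)) N‖ =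
    ‖((p ^ m - 1).factorial : ℚ_[p])‖ ^ 2 * ((p : ℝ) ^ (2 * r * p ^ m))⁻¹ * (p : ℝ) ^ m

/-- V4: the linear form. -/
def S_V4 : Prop := ∀ (p : ℕ) [Fact p.Prime] (r K : ℕ), 1 ≤ r →
  Tendsto (fun N => av p (vv p r 1 (fun u => sf K (b1 p r K) u ^ 2)) N -
    ((rho3 p r K : ℚ) : ℚ_[p]) * av p (fun t => ((xa p r 1 t) ^ 2)⁻¹) N) atTop
    (𝓝 ((rat3 p r K : ℚ) : ℚ_[p]))

/-- V5: denominators and sizes. -/
def S_V5 : Prop := ∀ (p : ℕ) [Fact p.Prime] (r K : ℕ), 1 ≤ r →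
  (∃ z : ℤ, ((p ^ (2 * ((r + 1) * K)) : ℕ) : ℚ) * rho3 p r K = z) ∧
  (∃ z : ℤ, ((p ^ (2 * ((r + 1) * K)) * dd K ^ 3 : ℕ) : ℚ) * rat3 p r K = z) ∧
  |(rho3 p r K : ℝ)| ≤ (K : ℝ) + 1 ∧
  |(rat3 p r K : ℝ)| ≤ 2 * (p : ℝ) ^ (2 * r) * ((K : ℝ) + 1) ^ 3

/-- V6: the limit of the averages of `(1/D + t)^(-2)`, `D = 4` (`p = 2`), `D = 3` (`p = 3`). -/
def S_V6 : Prop := ∀ (p r : ℕ) [Fact p.Prime], (p = 2 ∧ r = 2) ∨ (p = 3 ∧ r = 1) →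
  Tendsto (av p (fun t => ((xa p r 1 t) ^ 2)⁻¹)) atTop
    (𝓝 ((p : ℚ_[p]) ^ (3 * r) * kubotaLeopoldt p 3))

/-- D4: the least common multiples, with a constant smaller than `log 3`. -/
def S_D4 : Prop := ∃ c0 : ℝ, c0 < Real.log 3 ∧ ∃ C : ℝ, 0 < C ∧ ∀ K : ℕ,
  (dd K : ℝ) ≤ C * Real.exp (c0 * K)

/-- V7: the numbers `ζ_2(3)` and `ζ_3(3)` are irrational (Calegari). -/
def S_V7 : Prop := ∀ (p : ℕ) [Fact p.Prime], p = 2 ∨ p = 3 → ∀ q : ℚ, zetaP p 3 ≠ (q : ℚ_[p])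

/-- V8: relations between `ζ(2)` and `ζ(3)`, for `p = 2` or `p = 3`. -/
def S_V8 : Prop := ∀ (p : ℕ) [Fact p.Prime], p = 2 ∨ p = 3 → Transfers 2 ![2, 3] p →
  ∀ y ∈ Algebra.adjoin ℚ {Real.pi, zetaR 3}, Real.pi * y ≠ 0 →
    zetaR 3 ∉ IntermediateField.adjoin ℚ {Real.pi * y}

end Pool.Agent.Work.MP_03df5c_pb
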