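import Pool.Agent.Work.MP_03df5c_pb.Interface3

/-!
# Statements of the blocks, part 6: the constant `1 / (1 + log 2)`
-/

open Finset Filter Topology

namespace Pool.Agent.Work.MP_03df5c_pb

open Pool.Agent.Work.MP_03df5c_h91

/-- D5: the least common multiples, from the prime number theorem. -/
def S_D5 : Prop := ∀ δ : ℝ, 0 < δ → ∃ C : ℝ, 0 < C ∧ ∀ K : ℕ,
  (dd K : ℝ) ≤ C * Real.exp ((1 + δ) * K)

/-- L7: the linear forms with the best constant. -/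
def S_L7 : Prop := ∀ (p : ℕ) [Fact p.Prime], p ≠ 2 → ∀ (r s : ℕ), 1 ≤ r → bb p r ≤ s →
  ∀ δ : ℝ, 0 < δ → ∃ (c : ℕ → ℕ → ℤ) (C : ℝ) (n0 : ℕ),
    (∀ K ≥ 1, ‖∑ i ∈ range (s + 1), (c K i : ℚ_[p]) * tt p i‖ = ((p : ℝ) ^ psi p r s K)⁻¹) ∧
    (∀ K : ℕ, 1 ≤ K → psi p r s (K + 1) ≤ psi p r s K + n0 * (Nat.log p (K + 1) + 1)) ∧
    ∀ K : ℕ, 1 ≤ K → ∀ i ≤ s, |(c K i : ℝ)| ≤ C * ((K : ℝ) + 1) ^ n0 *
      Real.exp ((s * (1 + Real.log 2) + (r + 1) * bb p r * Real.log p + δ) * K)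

/-- Z7: the dimension bound with the parameter `r`, best constant. -/
def S_Z7 : Prop := ∀ (p : ℕ) [Fact p.Prime], p ≠ 2 → ∀ (r s : ℕ), 1 ≤ r → bb p r ≤ s →
  (r : ℝ) * s * Real.log p ≤
    (s * (1 + Real.log 2) + (r + 1) * bb p r * Real.log p) *
      Module.finrank ℚ (Submodule.span ℚ (tt p '' (Set.Iic s)))

/-- Z8: the logarithmic bound with explicit constant. -/
def S_Z8 : Prop := ∀ (p : ℕ) [Fact p.Prime], p ≠ 2 → ∀ c : ℝ, c < 1 / (1 + Real.log 2) →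
  ∃ s0 : ℕ, ∀ s ≥ s0, c * Real.log s ≤
    Module.finrank ℚ (Submodule.span ℚ (tt p '' (Set.Iic s)))

/-- Z9: the same for the `p`-adic zeta values. -/
def S_Z9 : Prop := ∀ (p : ℕ) [Fact p.Prime], p ≠ 2 → ∀ c : ℝ, c < 1 / (1 + Real.log 2) →
  ∃ s0 : ℕ, ∀ s ≥ s0, c * Real.log s ≤ Module.finrank ℚ (Submodule.span ℚ (oddP p s))

/-- FIN3: the theorem with the constant of Ball and Rivoal. -/
def S_FIN3 : Prop := ∀ (p : ℕ) [Fact p.Prime], p ≠ 2 → ∀ c : ℝ, c < 1 / (1 + Real.log 2) →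
  ∃ s0 : ℕ, ∀ s ≥ s0, TransfersUpTo s p →
  ∀ y ∈ Algebra.adjoin ℚ ({Real.pi} ∪ oddR s), Real.pi * y ≠ 0 →
    c * Real.log s ≤ Module.finrank (IntermediateField.adjoin ℚ {Real.pi * y})
      (Submodule.span (IntermediateField.adjoin ℚ {Real.pi * y}) (oddR s))

end Pool.Agent.Work.MP_03df5c_pb
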