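import Pool.Agent.Work.MP_03df5c_pb.Interface4
import Pool.Agent.Work.MP_03df5c_pb.Interface6

/-!
# Statements of the blocks, part 7: the prime `2` and the numbers `ζ(5), ζ(7), ζ(9), ζ(11)`
-/

open Finset Filter Topology

namespace Pool.Agent.Work.MP_03df5c_pb

open Pool.Agent.Work.MP_03df5c_h91

/-- The rational function, with poles of order `8`. -/
noncomputable def RY (K : ℕ) (u : ℚ) : ℚ :=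
  (sf K (bet K (th 2 2 1)) u) ^ 4 * (sf K (bet K (th 2 2 3)) u) ^ 4

/-- The second Taylor coefficient of a partial fraction expansion. -/
noncomputable def T2c (K : ℕ) (c : ℕ → ℕ → ℚ) (u : ℚ) : ℚ :=
  ∑ j ∈ range (K + 1), ∑ i ∈ range 8, ((i + 2).choose 2 : ℚ) * c i j / (u + (j : ℚ)) ^ (i + 3)

/-- The rational part. -/
noncomputable def ratY (K : ℕ) (c : ℕ → ℕ → ℚ) : ℚ :=
  -3 * ∑ j ∈ range (K + 1), ∑ l ∈ range j, ∑ i ∈ range 8,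
    ((i + 3).choose 3 : ℚ) * c i j / (th 2 2 1 + (l : ℚ)) ^ (i + 4)

/-- `binom (t + K) K`, `K = 2 ^ m - 1`. -/
noncomputable def Aq (m t : ℕ) : ℚ_[2] := (((t + (2 ^ m - 1)).choose (2 ^ m - 1) : ℕ) : ℚ_[2])

/-- The unit part. -/
noncomputable def wq (m t : ℕ) : ℚ_[2] :=
  (∏ i ∈ (Icc 1 (2 ^ m - 1) : Finset ℕ), (1 - 2 * ((t : ℚ_[2]) + (i : ℚ_[2])))) ^ 4 /
    (∏ j ∈ range (2 ^ m), (1 + 4 * ((t : ℚ_[2]) + (j : ℚ_[2])))) ^ 8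

/-- `∑ 1 / (t + i)`. -/
noncomputable def H1q (m t : ℕ) : ℚ_[2] := ∑ i ∈ (Icc 1 (2 ^ m - 1) : Finset ℕ), ((t : ℚ_[2]) + (i : ℚ_[2]))⁻¹

/-- `∑ 1 / (t + i) ^ 2`. -/
noncomputable def H2q (m t : ℕ) : ℚ_[2] :=
  ∑ i ∈ (Icc 1 (2 ^ m - 1) : Finset ℕ), (((t : ℚ_[2]) + (i : ℚ_[2])) ^ 2)⁻¹

/-- The small part of the logarithmic derivative. -/
noncomputable def U1q (m t : ℕ) : ℚ_[2] :=
  -8 * ∑ i ∈ (Icc 1 (2 ^ m - 1) : Finset ℕ), (1 - 2 * ((t : ℚ_[2]) + (i : ℚ_[2])))⁻¹ -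
    32 * ∑ j ∈ range (2 ^ m), (1 + 4 * ((t : ℚ_[2]) + (j : ℚ_[2])))⁻¹

/-- The small part of the second sum. -/
noncomputable def U2q (m t : ℕ) : ℚ_[2] :=
  16 * ∑ i ∈ (Icc 1 (2 ^ m - 1) : Finset ℕ), ((1 - 2 * ((t : ℚ_[2]) + (i : ℚ_[2]))) ^ 2)⁻¹ -
    128 * ∑ j ∈ range (2 ^ m), ((1 + 4 * ((t : ℚ_[2]) + (j : ℚ_[2]))) ^ 2)⁻¹

/-- The values, up to the constant factor. -/
noncomputable def qq (m t : ℕ) : ℚ_[2] :=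
  Aq m t ^ 4 * wq m t * (8 * H1q m t ^ 2 - 2 * H2q m t + 4 * H1q m t * U1q m t +
    (U1q m t ^ 2 - U2q m t) / 2)

/-- W1: higher derivatives of a principal part at a zero. -/
def S_W1 : Prop := ∀ (K s : ℕ), 1 ≤ s → ∀ (β : ℕ → ℚ) (G : ℚ → ℚ) (u0 : ℚ) (c c' : ℕ → ℕ → ℚ),
  Good K u0 → sf K β u0 = 0 → PF K s c (fun u => sf K β u * G u) →
  PF K s c' (fun u => sf K (fun j => β j / (u0 + (j : ℚ))) u * G u) →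
  ∀ n : ℕ, ∀ j ≤ K,
    ∑ i ∈ range s, ((i + n + 1).choose (n + 1) : ℚ) * c i j / (u0 + (j : ℚ)) ^ (i + n + 2) =
      ∑ i ∈ range s, ((i + n).choose n : ℚ) * c' i j / (u0 + (j : ℚ)) ^ (i + n + 1)

/-- W2: partial fractions with `e` blocks replaced. -/
def S_W2 : Prop := ∀ (K : ℕ) (β : ℕ → ℚ) (N : ℕ) (B : ℝ), (∀ j ≤ K, ∃ z : ℤ, (N : ℚ) * β j = z) →
  ∑ j ∈ range (K + 1), |(β j : ℝ)| ≤ B → ∀ e ≤ 4,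
  ∃ c : ℕ → ℕ → ℚ, PF K 8 c (fun u => (sf K β u) ^ e * (sf K (bet K (th 2 2 1)) u) ^ (4 - e) *
      (sf K (bet K (th 2 2 3)) u) ^ 4) ∧
    (∀ i < 8, ∀ j ≤ K, ∃ z : ℤ,
      ((N ^ e * 2 ^ (3 * K * (8 - e)) : ℕ) : ℚ) * (dd K : ℚ) ^ (7 - i) * c i j = z) ∧
    (∀ i < 8, ∀ j ≤ K, |(c i j : ℝ)| ≤
      (9 * ((K : ℝ) + 1)) ^ 8 * (B ^ e * ((K : ℝ) + 1) ^ (8 - e)))

/-- W3: symmetry. -/
def S_W3 : Prop := ∀ (K : ℕ) (c : ℕ → ℕ → ℚ), PF K 8 c (RY K) →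
  ∀ i < 8, Even i → ∑ j ∈ range (K + 1), c i j = 0

/-- W4: the linear form. -/
def S_W4 : Prop := ∀ (K : ℕ) (c : ℕ → ℕ → ℚ),
  (∀ i < 8, Even i → ∑ j ∈ range (K + 1), c i j = 0) →
  Tendsto (fun N => av 2 (vv 2 2 1 (T2c K c)) N -
    ∑ i ∈ (range 8).filter (fun i => ¬ Even i),
      ((((i + 2).choose 2 : ℚ) * ∑ j ∈ range (K + 1), c i j : ℚ) : ℚ_[2]) *
        av 2 (fun t => ((xa 2 2 1 t) ^ (i + 3))⁻¹) N) atTop (𝓝 ((ratY K c : ℚ) : ℚ_[2]))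

/-- W5: the coefficients. -/
def S_W5 : Prop := ∃ (C : ℝ) (n0 : ℕ), ∀ K ≥ 1, ∃ c : ℕ → ℕ → ℚ, PF K 8 c (RY K) ∧
  (∀ i < 8, ∃ z : ℤ, ((2 ^ (24 * K) * dd K ^ 11 : ℕ) : ℚ) * ∑ j ∈ range (K + 1), c i j = z) ∧
  (∃ z : ℤ, ((2 ^ (24 * K) * dd K ^ 11 : ℕ) : ℚ) * ratY K c = z) ∧
  (∀ i < 8, |((∑ j ∈ range (K + 1), c i j : ℚ) : ℝ)| ≤ C * ((K : ℝ) + 1) ^ n0) ∧
  |(ratY K c : ℝ)| ≤ C * ((K : ℝ) + 1) ^ n0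

/-- W6: the limits of the averages. -/
def S_W6 : Prop := ∀ k : ℕ, Odd k → 3 ≤ k →
  Tendsto (av 2 (fun t => ((xa 2 2 1 t) ^ (k - 1))⁻¹)) atTop
    (𝓝 ((((k : ℚ_[2]) - 1) / 2) * 4 ^ k * kubotaLeopoldt 2 k))

/-- W7: the second Taylor coefficient by logarithmic derivatives. -/
def S_W7 : Prop := ∀ (K : ℕ) (c : ℕ → ℕ → ℚ), PF K 8 c (RY K) → ∀ t : ℕ,
  T2c K c (1 / 4 + (t : ℚ)) = RY K (1 / 4 + (t : ℚ)) *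
    ((∑ i ∈ (Icc 1 K : Finset ℕ), (4 / ((t : ℚ) + (i : ℚ)) + 4 / ((t : ℚ) - 1 / 2 + (i : ℚ))) -
        ∑ j ∈ range (K + 1), 8 / (1 / 4 + (t : ℚ) + (j : ℚ))) ^ 2 -
      (∑ i ∈ (Icc 1 K : Finset ℕ), (4 / ((t : ℚ) + (i : ℚ)) ^ 2 + 4 / ((t : ℚ) - 1 / 2 + (i : ℚ)) ^ 2) -
        ∑ j ∈ range (K + 1), 8 / (1 / 4 + (t : ℚ) + (j : ℚ)) ^ 2)) / 2

/-- W7q: the same in `ℚ_2`. -/
def S_W7q : Prop := ∀ (m : ℕ) (c : ℕ → ℕ → ℚ), PF (2 ^ m - 1) 8 c (RY (2 ^ m - 1)) → ∀ t : ℕ,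
  vv 2 2 1 (T2c (2 ^ m - 1) c) t =
    ((2 ^ m - 1).factorial : ℚ_[2]) ^ 4 * 2 ^ (12 * (2 ^ m - 1) + 16) * qq m t

/-- W8a: the class of `0`. -/
def S_W8a : Prop := ∀ m n : ℕ, 1 ≤ m →
  ‖av 2 (fun t => ((2 : ℚ_[2]) ^ m) ^ 2 * qq m (2 ^ m * t)) n‖ = 1 / 8

/-- W8b: the other classes. -/
def S_W8b : Prop := ∀ m n t0 : ℕ, 1 ≤ m → 1 ≤ t0 → t0 < 2 ^ m →
  ‖av 2 (fun t => ((2 : ℚ_[2]) ^ m) ^ 2 * qq m (t0 + 2 ^ m * t)) n‖ ≤ 1 / 16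

/-- W8: the exact norm. -/
def S_W8 : Prop := ∀ m N : ℕ, 1 ≤ m → m ≤ N → ‖av 2 (qq m) N‖ = (2 : ℝ) ^ (3 * m) / 8

/-- W9: one of four values is irrational. -/
def S_W9 : Prop := ∃ k ∈ ({5, 7, 9, 11} : Finset ℕ), ∀ q : ℚ, zetaP 2 k ≠ (q : ℚ_[2])

/-- W10: one of four zeta values is not in `ℚ(x)`. -/
def S_W10 : Prop := Transfers 5 (Fin.cons 2 ![5, 7, 9, 11]) 2 →
  ∀ y ∈ Algebra.adjoin ℚ ({Real.pi} ∪ {zetaR 5, zetaR 7, zetaR 9, zetaR 11}), Real.pi * y ≠ 0 →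
    ∃ k ∈ ({5, 7, 9, 11} : Finset ℕ), zetaR k ∉ IntermediateField.adjoin ℚ {Real.pi * y}

end Pool.Agent.Work.MP_03df5c_pb
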