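import Pool.Agent.Work.MP_03df5c_pb.Interface7

/-!
# Statements of the blocks, part 8: the prime `2` and the numbers `ζ(5), ζ(7)`
-/

open Finset Filter Topology

namespace Pool.Agent.Work.MP_03df5c_pb

open Pool.Agent.Work.MP_03df5c_h91

/-- The rational function, with poles of order `6`. -/
noncomputable def RX (K : ℕ) (u : ℚ) : ℚ :=
  (2 * u + (K : ℚ)) * ((sf K (bet K (th 2 2 1)) u) ^ 3 * (sf K (bet K (th 2 2 3)) u) ^ 3)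

/-- Minus the derivative of a partial fraction expansion. -/
noncomputable def T1x (K : ℕ) (c : ℕ → ℕ → ℚ) (u : ℚ) : ℚ :=
  ∑ j ∈ range (K + 1), ∑ i ∈ range 6, ((i : ℚ) + 1) * c i j / (u + (j : ℚ)) ^ (i + 2)

/-- The rational part. -/
noncomputable def ratX (K : ℕ) (c : ℕ → ℕ → ℚ) : ℚ :=
  -2 * ∑ j ∈ range (K + 1), ∑ l ∈ range j, ∑ i ∈ range 6,
    ((i + 2).choose 2 : ℚ) * c i j / (th 2 2 1 + (l : ℚ)) ^ (i + 3)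

/-- The unit part. -/
noncomputable def wx (m t : ℕ) : ℚ_[2] :=
  (∏ i ∈ (Icc 1 (2 ^ m - 1) : Finset ℕ), (2 * ((t : ℚ_[2]) + (i : ℚ_[2])) - 1)) ^ 3 /
    (∏ j ∈ range (2 ^ m), (1 + 4 * ((t : ℚ_[2]) + (j : ℚ_[2])))) ^ 6

/-- The small part of the logarithmic derivative. -/
noncomputable def U1x (m t : ℕ) : ℚ_[2] :=
  6 * ∑ i ∈ (Icc 1 (2 ^ m - 1) : Finset ℕ), (2 * ((t : ℚ_[2]) + (i : ℚ_[2])) - 1)⁻¹ -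
    24 * ∑ j ∈ range (2 ^ m), (1 + 4 * ((t : ℚ_[2]) + (j : ℚ_[2])))⁻¹

/-- The values, up to the constant factor. -/
noncomputable def qx (m t : ℕ) : ℚ_[2] :=
  Aq m t ^ 3 * wx m t * (2 + (1 / 2 + 2 * (t : ℚ_[2]) + ((2 ^ m - 1 : ℕ) : ℚ_[2])) *
    (3 * H1q m t + U1x m t))

/-- X1: the residues have sum `0` when `u F(u)` tends to `0`. -/
def S_X1 : Prop := ∀ (K : ℕ) (c : ℕ → ℕ → ℚ) (F : ℚ → ℚ), PF K 6 c F →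
  Tendsto (fun n : ℕ => ((n : ℚ) + 1) * F ((n : ℚ) + 1)) atTop (𝓝 0) →
    ∑ j ∈ range (K + 1), c 0 j = 0

/-- X1b: the size of the blocks at infinity. -/
def S_X1b : Prop := ∀ (K : ℕ) (β : ℕ → ℚ),
  Tendsto (fun n : ℕ => ((n : ℚ) + 1) * sf K β ((n : ℚ) + 1)) atTop
    (𝓝 (∑ j ∈ range (K + 1), β j))

/-- X2a: partial fractions with `e` blocks replaced, without the factor `2 u + K`. -/
def S_X2a : Prop := ∀ (K : ℕ) (β : ℕ → ℚ) (N : ℕ) (B : ℝ), (∀ j ≤ K, ∃ z : ℤ, (N : ℚ) * β j = z) →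
  ∑ j ∈ range (K + 1), |(β j : ℝ)| ≤ B → ∀ e ≤ 3,
  ∃ c : ℕ → ℕ → ℚ, PF K 6 c (fun u => (sf K β u) ^ e * (sf K (bet K (th 2 2 1)) u) ^ (3 - e) *
      (sf K (bet K (th 2 2 3)) u) ^ 3) ∧
    (∀ i < 6, ∀ j ≤ K, ∃ z : ℤ,
      ((N ^ e * 2 ^ (3 * K * (6 - e)) : ℕ) : ℚ) * (dd K : ℚ) ^ (5 - i) * c i j = z) ∧
    (∀ i < 6, ∀ j ≤ K, |(c i j : ℝ)| ≤
      (9 * ((K : ℝ) + 1)) ^ 6 * (B ^ e * ((K : ℝ) + 1) ^ (6 - e)))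

/-- X2b: multiplication by `2 u + K`. -/
def S_X2b : Prop := ∀ (K : ℕ) (c : ℕ → ℕ → ℚ) (F : ℚ → ℚ), PF K 6 c F →
  ∑ j ∈ range (K + 1), c 0 j = 0 →
  PF K 6 (fun i j => ((K : ℚ) - 2 * (j : ℚ)) * c i j + if i < 5 then 2 * c (i + 1) j else 0)
    (fun u => (2 * u + (K : ℚ)) * F u)

/-- X2: partial fractions with `e` blocks replaced. -/
def S_X2 : Prop := ∀ (K : ℕ) (β : ℕ → ℚ) (N : ℕ) (B : ℝ), (∀ j ≤ K, ∃ z : ℤ, (N : ℚ) * β j = z) →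
  ∑ j ∈ range (K + 1), |(β j : ℝ)| ≤ B → ∀ e ≤ 3,
  ∃ c : ℕ → ℕ → ℚ, PF K 6 c (fun u => (2 * u + (K : ℚ)) * ((sf K β u) ^ e *
      (sf K (bet K (th 2 2 1)) u) ^ (3 - e) * (sf K (bet K (th 2 2 3)) u) ^ 3)) ∧
    (∀ i < 6, ∀ j ≤ K, ∃ z : ℤ,
      ((N ^ e * 2 ^ (3 * K * (6 - e)) : ℕ) : ℚ) * (dd K : ℚ) ^ (5 - i) * c i j = z) ∧
    (∀ i < 6, ∀ j ≤ K, |(c i j : ℝ)| ≤
      (9 * ((K : ℝ) + 1)) ^ 7 * (B ^ e * ((K : ℝ) + 1) ^ (6 - e)))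

/-- X3: symmetry and the residues. -/
def S_X3 : Prop := ∀ (K : ℕ) (c : ℕ → ℕ → ℚ), PF K 6 c (RX K) →
  ∀ i < 6, i ≠ 2 → i ≠ 4 → ∑ j ∈ range (K + 1), c i j = 0

/-- X4: the linear form. -/
def S_X4 : Prop := ∀ (K : ℕ) (c : ℕ → ℕ → ℚ),
  (∀ i < 6, i ≠ 2 → i ≠ 4 → ∑ j ∈ range (K + 1), c i j = 0) →
  Tendsto (fun N => av 2 (vv 2 2 1 (T1x K c)) N -
    ∑ i ∈ ({2, 4} : Finset ℕ),
      (((((i : ℚ) + 1) * ∑ j ∈ range (K + 1), c i j : ℚ)) : ℚ_[2]) *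
        av 2 (fun t => ((xa 2 2 1 t) ^ (i + 2))⁻¹) N) atTop (𝓝 ((ratX K c : ℚ) : ℚ_[2]))

/-- X5: the coefficients. -/
def S_X5 : Prop := ∃ (C : ℝ) (n0 : ℕ), ∀ K ≥ 1, ∃ c : ℕ → ℕ → ℚ, PF K 6 c (RX K) ∧
  (∀ i < 6, ∃ z : ℤ, ((2 ^ (18 * K) * dd K ^ 8 : ℕ) : ℚ) * ∑ j ∈ range (K + 1), c i j = z) ∧
  (∃ z : ℤ, ((2 ^ (18 * K) * dd K ^ 8 : ℕ) : ℚ) * ratX K c = z) ∧
  (∀ i < 6, |((∑ j ∈ range (K + 1), c i j : ℚ) : ℝ)| ≤ C * ((K : ℝ) + 1) ^ n0) ∧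
  |(ratX K c : ℝ)| ≤ C * ((K : ℝ) + 1) ^ n0

/-- X7: minus the derivative by the logarithmic derivative. -/
def S_X7 : Prop := ∀ (K : ℕ) (c : ℕ → ℕ → ℚ), PF K 6 c (RX K) → ∀ t : ℕ,
  T1x K c (1 / 4 + (t : ℚ)) =
    -((sf K (bet K (th 2 2 1)) (1 / 4 + (t : ℚ))) ^ 3 *
      (sf K (bet K (th 2 2 3)) (1 / 4 + (t : ℚ))) ^ 3) *
    (2 + (2 * (1 / 4 + (t : ℚ)) + (K : ℚ)) *
      (∑ i ∈ (Icc 1 K : Finset ℕ), (3 / ((t : ℚ) + (i : ℚ)) + 3 / ((t : ℚ) - 1 / 2 + (i : ℚ))) -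
        ∑ j ∈ range (K + 1), 6 / (1 / 4 + (t : ℚ) + (j : ℚ))))

/-- X7q: the same in `ℚ_2`. -/
def S_X7q : Prop := ∀ (m : ℕ) (c : ℕ → ℕ → ℚ), PF (2 ^ m - 1) 6 c (RX (2 ^ m - 1)) → ∀ t : ℕ,
  vv 2 2 1 (T1x (2 ^ m - 1) c) t =
    -(((2 ^ m - 1).factorial : ℚ_[2]) ^ 3 * 2 ^ (9 * (2 ^ m - 1) + 12) * qx m t)

/-- X8a: the class of `0`. -/
def S_X8a : Prop := ∀ m n : ℕ, 1 ≤ m →
  ‖av 2 (fun t => (2 : ℚ_[2]) ^ m * qx m (2 ^ m * t)) n‖ = 1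

/-- X8b: the other classes. -/
def S_X8b : Prop := ∀ m n t0 : ℕ, 1 ≤ m → 1 ≤ t0 → t0 < 2 ^ m →
  ‖av 2 (fun t => (2 : ℚ_[2]) ^ m * qx m (t0 + 2 ^ m * t)) n‖ ≤ 1 / 2

/-- X8: the exact norm. -/
def S_X8 : Prop := ∀ m N : ℕ, 1 ≤ m → m ≤ N → ‖av 2 (qx m) N‖ = (2 : ℝ) ^ (2 * m)

/-- X9: one of two values is irrational. -/
def S_X9 : Prop := ∃ k ∈ ({5, 7} : Finset ℕ), ∀ q : ℚ, zetaP 2 k ≠ (q : ℚ_[2])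

/-- X10: one of two zeta values is not in `ℚ(x)`. -/
def S_X10 : Prop := Transfers 3 (Fin.cons 2 ![5, 7]) 2 →
  ∀ y ∈ Algebra.adjoin ℚ ({Real.pi} ∪ {zetaR 5, zetaR 7}), Real.pi * y ≠ 0 →
    ∃ k ∈ ({5, 7} : Finset ℕ), zetaR k ∉ IntermediateField.adjoin ℚ {Real.pi * y}

end Pool.Agent.Work.MP_03df5c_pb
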