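import Pool.Agent.Work.MP_03df5c_pb.Interface8

/-!
# Statements of the blocks, part 9: the prime `2` and the number `ζ(5)`
-/

open Finset Filter Topology

namespace Pool.Agent.Work.MP_03df5c_pb

open Pool.Agent.Work.MP_03df5c_h91

/-- The coefficients of the block at `1 / 2`. -/
noncomputable def bh (K j : ℕ) : ℚ := bet K (th 2 1 1) j

/-- The coefficients divided by the linear factor at `1 / 2 + l - j`. -/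
noncomputable def bhh (K l j j' : ℕ) : ℚ := bh K j' / (1 / 2 + (l : ℚ) - (j : ℚ) + (j' : ℚ))

/-- The rational function, with poles of order `4`. -/
noncomputable def RZ (K : ℕ) (u : ℚ) : ℚ := (2 * u + (K : ℚ)) * (sf K (bh K) u) ^ 4

/-- Minus the derivative of a partial fraction expansion. -/
noncomputable def T1z (K : ℕ) (c : ℕ → ℕ → ℚ) (u : ℚ) : ℚ :=
  ∑ j ∈ range (K + 1), ∑ i ∈ range 4, ((i : ℚ) + 1) * c i j / (u + (j : ℚ)) ^ (i + 2)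

/-- One term of the rational part. -/
noncomputable def TT (c : ℕ → ℕ → ℚ) (j l : ℕ) : ℚ :=
  ∑ i ∈ range 4, ((i + 2).choose 2 : ℚ) * c i j / (1 / 2 + (l : ℚ)) ^ (i + 3)

/-- The rational part. -/
noncomputable def ratZ (K : ℕ) (c : ℕ → ℕ → ℚ) : ℚ :=
  -2 * ∑ j ∈ range (K + 1), ∑ l ∈ range j, TT c j l

/-- The product of the primes in `(K / 2, K]` larger than `3`. -/
def PP (K : ℕ) : ℕ := ∏ q ∈ (range (K + 1)).filter (fun q => q.Prime ∧ K < 2 * q ∧ 3 < q), q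

/-- The unit part. -/
noncomputable def wz (m t : ℕ) : ℚ_[2] :=
  ((∏ j ∈ range (2 ^ m), (1 + 2 * ((t : ℚ_[2]) + (j : ℚ_[2])))) ^ 4)⁻¹

/-- The small part of the logarithmic derivative. -/
noncomputable def U1z (m t : ℕ) : ℚ_[2] :=
  -8 * ∑ j ∈ range (2 ^ m), (1 + 2 * ((t : ℚ_[2]) + (j : ℚ_[2])))⁻¹

/-- The values, up to the constant factor. -/
noncomputable def qz (m t : ℕ) : ℚ_[2] :=
  Aq m t ^ 4 * wz m t * (2 + (2 * (t : ℚ_[2]) + 2 ^ m) * (4 * H1q m t + U1z m t))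

/-- D6: sizes, from the prime number theorem. -/
def S_D6 : Prop := ∀ δ : ℝ, 0 < δ → ∃ C : ℝ, 0 < C ∧ ∀ K : ℕ,
  (dd K : ℝ) ^ 6 ≤ C * Real.exp ((11 / 2 + δ) * K) * (PP K : ℝ)

/-- Y1: the residues have sum `0` when `u F(u)` tends to `0`. -/
def S_Y1 : Prop := ∀ (K s : ℕ) (c : ℕ → ℕ → ℚ) (F : ℚ → ℚ), 1 ≤ s → PF K s c F →
  Tendsto (fun n : ℕ => ((n : ℚ) + 1) * F ((n : ℚ) + 1)) atTop (𝓝 0) →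
    ∑ j ∈ range (K + 1), c 0 j = 0

/-- Y2a: partial fractions with `e` blocks replaced, without the factor `2 u + K`. -/
def S_Y2a : Prop := ∀ (K : ℕ) (β : ℕ → ℚ) (N : ℕ) (B : ℝ), (∀ j ≤ K, ∃ z : ℤ, (N : ℚ) * β j = z) →
  ∑ j ∈ range (K + 1), |(β j : ℝ)| ≤ B → ∀ e ≤ 4,
  ∃ c : ℕ → ℕ → ℚ, PF K 4 c (fun u => (sf K β u) ^ e * (sf K (bh K) u) ^ (4 - e)) ∧
    (∀ i < 4, ∀ j ≤ K, ∃ z : ℤ,
      ((N ^ e * 2 ^ (2 * K * (4 - e)) : ℕ) : ℚ) * (dd K : ℚ) ^ (3 - i) * c i j = z) ∧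
    (∀ i < 4, ∀ j ≤ K, |(c i j : ℝ)| ≤
      (9 * ((K : ℝ) + 1)) ^ 4 * (B ^ e * ((K : ℝ) + 1) ^ (4 - e)))

/-- Y2b: multiplication by `2 u + K`. -/
def S_Y2b : Prop := ∀ (K : ℕ) (c : ℕ → ℕ → ℚ) (F : ℚ → ℚ), PF K 4 c F →
  ∑ j ∈ range (K + 1), c 0 j = 0 →
  PF K 4 (fun i j => ((K : ℚ) - 2 * (j : ℚ)) * c i j + if i < 3 then 2 * c (i + 1) j else 0)
    (fun u => (2 * u + (K : ℚ)) * F u)

/-- Y2: partial fractions with `e` blocks replaced. -/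
def S_Y2 : Prop := ∀ (K : ℕ) (β : ℕ → ℚ) (N : ℕ) (B : ℝ), (∀ j ≤ K, ∃ z : ℤ, (N : ℚ) * β j = z) →
  ∑ j ∈ range (K + 1), |(β j : ℝ)| ≤ B → ∀ e ≤ 4,
  ∃ c : ℕ → ℕ → ℚ,
    PF K 4 c (fun u => (2 * u + (K : ℚ)) * ((sf K β u) ^ e * (sf K (bh K) u) ^ (4 - e))) ∧
    (∀ i < 4, ∀ j ≤ K, ∃ z : ℤ,
      ((N ^ e * 2 ^ (2 * K * (4 - e)) : ℕ) : ℚ) * (dd K : ℚ) ^ (3 - i) * c i j = z) ∧
    (∀ i < 4, ∀ j ≤ K, |(c i j : ℝ)| ≤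
      (9 * ((K : ℝ) + 1)) ^ 5 * (B ^ e * ((K : ℝ) + 1) ^ (4 - e)))

/-- Y3: symmetry and the residues. -/
def S_Y3 : Prop := ∀ (K : ℕ) (c : ℕ → ℕ → ℚ), PF K 4 c (RZ K) →
  ∀ i < 4, i ≠ 2 → ∑ j ∈ range (K + 1), c i j = 0

/-- Y4: the linear form. -/
def S_Y4 : Prop := ∀ (K : ℕ) (c : ℕ → ℕ → ℚ),
  (∀ i < 4, i ≠ 2 → ∑ j ∈ range (K + 1), c i j = 0) →
  Tendsto (fun N => av 2 (vv 2 1 1 (T1z K c)) N -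
    ((3 * ∑ j ∈ range (K + 1), c 2 j : ℚ) : ℚ_[2]) *
        av 2 (fun t => ((xa 2 1 1 t) ^ 4)⁻¹) N) atTop (𝓝 ((ratZ K c : ℚ) : ℚ_[2]))

/-- Y5a: one term of the rational part as a coefficient with three blocks replaced. -/
def S_Y5a : Prop := ∀ (K : ℕ) (c c3 : ℕ → ℕ → ℚ) (j l : ℕ), l < j → j ≤ K → PF K 4 c (RZ K) →
  PF K 4 c3 (fun u => (2 * u + (K : ℚ)) * ((sf K (bhh K l j) u) ^ 3 * sf K (bh K) u)) →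
  TT c j l = c3 0 j

/-- Y5: the coefficients. -/
def S_Y5 : Prop := ∃ (C : ℝ) (n0 : ℕ), ∀ K ≥ 1, ∃ c : ℕ → ℕ → ℚ, PF K 4 c (RZ K) ∧
  (∃ z : ℤ, ((2 ^ (8 * K) * dd K ^ 6 : ℕ) : ℚ) * ∑ j ∈ range (K + 1), c 2 j = (PP K : ℚ) * z) ∧
  (∃ z : ℤ, ((2 ^ (8 * K) * dd K ^ 6 : ℕ) : ℚ) * ratZ K c = (PP K : ℚ) * z) ∧
  |((∑ j ∈ range (K + 1), c 2 j : ℚ) : ℝ)| ≤ C * ((K : ℝ) + 1) ^ n0 ∧
  |(ratZ K c : ℝ)| ≤ C * ((K : ℝ) + 1) ^ n0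

/-- Y6: the limits of the averages. -/
def S_Y6 : Prop := ∀ k : ℕ, Odd k → 3 ≤ k →
  Tendsto (av 2 (fun t => ((xa 2 1 1 t) ^ (k - 1))⁻¹)) atTop
    (𝓝 (((k : ℚ_[2]) - 1) * 2 ^ k * kubotaLeopoldt 2 k))

/-- Y7: minus the derivative by the logarithmic derivative. -/
def S_Y7 : Prop := ∀ (K : ℕ) (c : ℕ → ℕ → ℚ), PF K 4 c (RZ K) → ∀ t : ℕ,
  T1z K c (1 / 2 + (t : ℚ)) = -(sf K (bh K) (1 / 2 + (t : ℚ))) ^ 4 *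
    (2 + (2 * (1 / 2 + (t : ℚ)) + (K : ℚ)) *
      (∑ i ∈ (Icc 1 K : Finset ℕ), 4 / ((t : ℚ) + (i : ℚ)) -
        ∑ j ∈ range (K + 1), 4 / (1 / 2 + (t : ℚ) + (j : ℚ))))

/-- Y7q: the same in `ℚ_2`. -/
def S_Y7q : Prop := ∀ (m : ℕ) (c : ℕ → ℕ → ℚ), PF (2 ^ m - 1) 4 c (RZ (2 ^ m - 1)) → ∀ t : ℕ,
  vv 2 1 1 (T1z (2 ^ m - 1) c) t =
    -(((2 ^ m - 1).factorial : ℚ_[2]) ^ 4 * 2 ^ (4 * 2 ^ m) * qz m t)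

/-- Y8a: the class of `0`. -/
def S_Y8a : Prop := ∀ m n : ℕ, 1 ≤ m → ‖av 2 (fun t => qz m (2 ^ m * t)) n‖ = 1 / 2

/-- Y8b: the other classes. -/
def S_Y8b : Prop := ∀ m n t0 : ℕ, 1 ≤ m → 1 ≤ t0 → t0 < 2 ^ m →
  ‖av 2 (fun t => qz m (t0 + 2 ^ m * t)) n‖ ≤ 1 / 4

/-- Y8: the exact norm. -/
def S_Y8 : Prop := ∀ m N : ℕ, 1 ≤ m → m ≤ N → ‖av 2 (qz m) N‖ = (2 : ℝ) ^ m / 2

/-- Yq0: the coefficients by central binomial coefficients. -/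
def S_Yq0 : Prop := ∀ K j : ℕ, j ≤ K →
  bh K j = (((2 * j).choose j * (2 * (K - j)).choose (K - j) : ℕ) : ℚ) / 4 ^ K

/-- Yq1: a congruence. -/
def S_Yq1 : Prop := ∀ K q j : ℕ, q.Prime → 3 < q → K < 2 * q → j + q ≤ K →
  ∃ z : ℤ, (4 : ℚ) ^ K * (bh K (j + q) - bh K j) = (q : ℚ) * z

/-- Yq2: a divisibility. -/
def S_Yq2 : Prop := ∀ K q j : ℕ, q.Prime → 3 < q → j < q → q < 2 * j → j ≤ K →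
  ∃ z : ℤ, (4 : ℚ) ^ K * bh K j = (q : ℚ) * z

/-- Yq3: multiplication, locally at `q`. -/
def S_Yq3 : Prop := ∀ (K q : ℕ) [Fact q.Prime], q ≤ K → K < 2 * q → ∀ (s : ℕ), 1 ≤ s →
  ∀ (c c' : ℕ → ℕ → ℚ) (F : ℚ → ℚ) (β : ℕ → ℚ) (e f : ℕ), PF K s c F →
  (∀ i < s, ∀ j ≤ K, ‖((c i j : ℚ) : ℚ_[q])‖ ≤ (q : ℝ) ^ (e + (s - 1 - i))) →
  (∀ j ≤ K, ‖((β j : ℚ) : ℚ_[q])‖ ≤ (q : ℝ) ^ f) →
  PF K (s + 1) c' (fun u => sf K β u * F u) →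
  ∀ i < s + 1, ∀ j ≤ K, ‖((c' i j : ℚ) : ℚ_[q])‖ ≤ (q : ℝ) ^ (e + f + (s - i))

/-- Yq4: four factors. -/
def S_Yq4 : Prop := ∀ (K q : ℕ) [Fact q.Prime], q ≤ K → K < 2 * q →
  ∀ (β : Fin 4 → ℕ → ℚ) (f : Fin 4 → ℕ), (∀ k, ∀ j ≤ K, ‖((β k j : ℚ) : ℚ_[q])‖ ≤ (q : ℝ) ^ f k) →
  ∃ c : ℕ → ℕ → ℚ,
    PF K 4 c (fun u => sf K (β 0) u * (sf K (β 1) u * (sf K (β 2) u * sf K (β 3) u))) ∧
    ∀ i < 4, ∀ j ≤ K,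
      ‖((c i j : ℚ) : ℚ_[q])‖ ≤ (q : ℝ) ^ (f 0 + f 1 + f 2 + f 3 + (3 - i))

/-- Yq5: the residue of a derivative. -/
def S_Yq5 : Prop := ∀ (K q j : ℕ) (b : ℚ), 1 ≤ q → q ≤ j → j ≤ K →
  ∃ c : ℕ → ℕ → ℚ, PF K 4 c (fun u => (b / (u + (j : ℚ)) + b / (u + ((j - q : ℕ) : ℚ))) *
    (2 * b / (q : ℚ) * (1 / (u + (j : ℚ)) - 1 / (u + ((j - q : ℕ) : ℚ)))) ^ 3) ∧ c 0 j = 0

/-- Yq6: three blocks replaced, the middle case. -/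
def S_Yq6 : Prop := ∀ (K q : ℕ) [Fact q.Prime], 3 < q → q ≤ K → K < 2 * q → ∀ (j l : ℕ), l < j →
  q ≤ j → j ≤ K → 2 * l + 1 = q → ∀ c3 : ℕ → ℕ → ℚ,
  PF K 4 c3 (fun u => (2 * u + (K : ℚ)) * ((sf K (bhh K l j) u) ^ 3 * sf K (bh K) u)) →
  ‖((c3 0 j : ℚ) : ℚ_[q])‖ ≤ (q : ℝ) ^ 5

/-- Yq7: three blocks replaced, the case of coefficients divisible by `q`. -/
def S_Yq7 : Prop := ∀ (K q : ℕ) [Fact q.Prime], 3 < q → q ≤ K → K < 2 * q → ∀ (j l : ℕ), l < j →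
  j ≤ K → q ∣ 2 * l + 1 → (2 * l + 1 = q → j < q) → ∀ c3 : ℕ → ℕ → ℚ,
  PF K 4 c3 (fun u => (2 * u + (K : ℚ)) * ((sf K (bhh K l j) u) ^ 3 * sf K (bh K) u)) →
  ‖((c3 0 j : ℚ) : ℚ_[q])‖ ≤ (q : ℝ) ^ 5

/-- Yq8: the saving of one factor `q`. -/
def S_Yq8 : Prop := ∀ (K q : ℕ) [Fact q.Prime], 3 < q → q ≤ K → K < 2 * q → ∀ (c : ℕ → ℕ → ℚ),
  PF K 4 c (RZ K) → ∀ j l : ℕ, l < j → j ≤ K → ‖((TT c j l : ℚ) : ℚ_[q])‖ ≤ (q : ℝ) ^ 5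

/-- Y9: `ζ_2(5)` is irrational (Calegari, Dimitrov and Tang). -/
def S_Y9 : Prop := ∀ q : ℚ, zetaP 2 5 ≠ (q : ℚ_[2])

/-- Y10: `ζ(5)` is not in `ℚ(x)`. -/
def S_Y10 : Prop := Transfers 2 ![2, 5] 2 →
  ∀ y ∈ Algebra.adjoin ℚ {Real.pi, zetaR 5}, Real.pi * y ≠ 0 →
    zetaR 5 ∉ IntermediateField.adjoin ℚ {Real.pi * y}

end Pool.Agent.Work.MP_03df5c_pb
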