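import Mathlib

/-!
# Bounds and Lipschitz constants of functions `ℕ → ℚ_2`
-/

open Finset

namespace Pool.Agent.Work.MP_03df5c_pb

/-- `f` is bounded by `B` and `C`-Lipschitz for the steps `2 ^ n`. -/
def LB (f : ℕ → ℚ_[2]) (B C : ℝ) : Prop :=
  0 ≤ B ∧ 0 ≤ C ∧ (∀ t, ‖f t‖ ≤ B) ∧ ∀ t n : ℕ, ‖f (t + 2 ^ n) - f t‖ ≤ C * ((2 : ℝ) ^ n)⁻¹

theorem LB.mono {f : ℕ → ℚ_[2]} {B C B' C' : ℝ} (h : LB f B C) (hB : B ≤ B') (hC : C ≤ C') :
    LB f B' C' :=
  ⟨h.1.trans hB, h.2.1.trans hC, fun t => (h.2.2.1 t).trans hB, fun t n =>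
    (h.2.2.2 t n).trans (by gcongr)⟩

theorem LB.const (c : ℚ_[2]) {B C : ℝ} (hc : ‖c‖ ≤ B) (hC : 0 ≤ C) : LB (fun _ => c) B C :=
  ⟨(norm_nonneg _).trans hc, hC, fun _ => hc, fun t n => by
    simp only [sub_self, norm_zero]; positivity⟩

theorem LB.add {f g : ℕ → ℚ_[2]} {B C : ℝ} (hf : LB f B C) (hg : LB g B C) :
    LB (fun t => f t + g t) B C :=
  ⟨hf.1, hf.2.1, fun t => (Padic.nonarchimedean _ _).trans (max_le (hf.2.2.1 t) (hg.2.2.1 t)),
    fun t n => by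
      have h : f (t + 2 ^ n) + g (t + 2 ^ n) - (f t + g t) =
        (f (t + 2 ^ n) - f t) + (g (t + 2 ^ n) - g t) := by ring
      rw [h]
      exact (Padic.nonarchimedean _ _).trans (max_le (hf.2.2.2 t n) (hg.2.2.2 t n))⟩

theorem LB.neg {f : ℕ → ℚ_[2]} {B C : ℝ} (hf : LB f B C) : LB (fun t => - f t) B C :=
  ⟨hf.1, hf.2.1, fun t => by rw [norm_neg]; exact hf.2.2.1 t, fun t n => by
    have h : - f (t + 2 ^ n) - - f t = -(f (t + 2 ^ n) - f t) := by ring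
    rw [h, norm_neg]; exact hf.2.2.2 t n⟩

theorem LB.sub {f g : ℕ → ℚ_[2]} {B C : ℝ} (hf : LB f B C) (hg : LB g B C) :
    LB (fun t => f t - g t) B C := by
  have := hf.add hg.neg
  simpa [sub_eq_add_neg] using this

theorem LB.mul {f g : ℕ → ℚ_[2]} {B C B' C' : ℝ} (hf : LB f B C) (hg : LB g B' C') :
    LB (fun t => f t * g t) (B * B') (max (C * B') (B * C')) :=
  ⟨mul_nonneg hf.1 hg.1, le_max_of_le_left (mul_nonneg hf.2.1 hg.1), fun t => by
      rw [norm_mul]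
      exact mul_le_mul (hf.2.2.1 t) (hg.2.2.1 t) (norm_nonneg _) hf.1,
    fun t n => by
      have h : f (t + 2 ^ n) * g (t + 2 ^ n) - f t * g t =
        (f (t + 2 ^ n) - f t) * g (t + 2 ^ n) + f t * (g (t + 2 ^ n) - g t) := by ring
      rw [h]
      have hp : (0 : ℝ) ≤ ((2 : ℝ) ^ n)⁻¹ := by positivity
      refine (Padic.nonarchimedean _ _).trans (max_le ?_ ?_)
      · rw [norm_mul]
        calc ‖f (t + 2 ^ n) - f t‖ * ‖g (t + 2 ^ n)‖ ≤ (C * ((2 : ℝ) ^ n)⁻¹) * B' :=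
              mul_le_mul (hf.2.2.2 t n) (hg.2.2.1 _) (norm_nonneg _) (mul_nonneg hf.2.1 hp)
          _ = (C * B') * ((2 : ℝ) ^ n)⁻¹ := by ring
          _ ≤ _ := mul_le_mul_of_nonneg_right (le_max_left _ _) hp
      · rw [norm_mul]
        calc ‖f t‖ * ‖g (t + 2 ^ n) - g t‖ ≤ B * (C' * ((2 : ℝ) ^ n)⁻¹) :=
              mul_le_mul (hf.2.2.1 t) (hg.2.2.2 t n) (norm_nonneg _) hf.1
          _ = (B * C') * ((2 : ℝ) ^ n)⁻¹ := by ring
          _ ≤ _ := mul_le_mul_of_nonneg_right (le_max_right _ _) hp⟩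

/-- Products, with the constants to be checked. -/
theorem LB.mul' {f g : ℕ → ℚ_[2]} {B C B' C' B'' C'' : ℝ} (hf : LB f B C) (hg : LB g B' C')
    (h1 : B * B' ≤ B'') (h2 : C * B' ≤ C'') (h3 : B * C' ≤ C'') :
    LB (fun t => f t * g t) B'' C'' :=
  (hf.mul hg).mono h1 (max_le h2 h3)

theorem LB.sum {ι : Type*} (s : Finset ι) {f : ι → ℕ → ℚ_[2]} {B C : ℝ} (hB : 0 ≤ B) (hC : 0 ≤ C)
    (h : ∀ i ∈ s, LB (f i) B C) : LB (fun t => ∑ i ∈ s, f i t) B C := by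
  classical
  induction s using Finset.induction_on with
  | empty => simpa using LB.const 0 (by simpa using hB) hC
  | insert a s ha ih =>
    have h1 := (h a (mem_insert_self a s)).add (ih fun i hi => h i (mem_insert_of_mem hi))
    simpa [sum_insert ha] using h1

theorem LB.prod {ι : Type*} (s : Finset ι) {f : ι → ℕ → ℚ_[2]} {C : ℝ} (hC : 0 ≤ C)
    (h : ∀ i ∈ s, LB (f i) 1 C) : LB (fun t => ∏ i ∈ s, f i t) 1 C := by
  classical
  induction s using Finset.induction_on with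
  | empty => simpa using LB.const 1 (B := 1) (by simp) hC
  | insert a s ha ih =>
    have h1 := (h a (mem_insert_self a s)).mul' (ih fun i hi => h i (mem_insert_of_mem hi))
      (B'' := 1) (C'' := C) (by norm_num) (by simp) (by simp)
    simpa [prod_insert ha] using h1

theorem LB.pow {f : ℕ → ℚ_[2]} {C : ℝ} (hf : LB f 1 C) (k : ℕ) : LB (fun t => f t ^ k) 1 C := by
  have := LB.prod (range k) (f := fun _ t => f t) hf.2.1 (fun _ _ => hf)
  simpa using this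

/-- The inverse of a function of norm `1`. -/
theorem LB.inv {f : ℕ → ℚ_[2]} {C : ℝ} (hf : LB f 1 C) (h1 : ∀ t, ‖f t‖ = 1) :
    LB (fun t => (f t)⁻¹) 1 C :=
  ⟨hf.1, hf.2.1, fun t => by rw [norm_inv, h1 t, inv_one], fun t n => by
    have h0 : ∀ t, f t ≠ 0 := fun t h => by
      have := h1 t
      rw [h, norm_zero] at this
      exact zero_ne_one this
    have h : (f (t + 2 ^ n))⁻¹ - (f t)⁻¹ = -((f (t + 2 ^ n) - f t) * (f (t + 2 ^ n))⁻¹ * (f t)⁻¹) := by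
      have h2 := h0 t
      have h3 := h0 (t + 2 ^ n)
      field_simp
      ring
    rw [h, norm_neg, norm_mul, norm_mul, norm_inv, norm_inv, h1, h1]
    simpa using hf.2.2.2 t n⟩

/-- Affine functions. -/
theorem LB.aff (a b : ℚ_[2]) {B C : ℝ} (hb : ‖b‖ ≤ B) (ha : ‖a‖ ≤ C) (ha' : ‖a‖ ≤ B) :
    LB (fun t => a * (t : ℚ_[2]) + b) B C := by
  have hn : ∀ k : ℕ, ‖(k : ℚ_[2])‖ ≤ 1 := fun k => Padic.norm_int_le_one k
  refine ⟨(norm_nonneg _).trans hb, (norm_nonneg _).trans ha, fun t => ?_, fun t n => ?_⟩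
  · refine (Padic.nonarchimedean _ _).trans (max_le ?_ hb)
    rw [norm_mul]
    calc ‖a‖ * ‖(t : ℚ_[2])‖ ≤ ‖a‖ * 1 := mul_le_mul_of_nonneg_left (hn t) (norm_nonneg _)
      _ ≤ B := by rw [mul_one]; exact ha'
  · have h : a * ((t + 2 ^ n : ℕ) : ℚ_[2]) + b - (a * (t : ℚ_[2]) + b) = a * (2 : ℚ_[2]) ^ n := by
      push_cast; ring
    have h2 : ‖(2 : ℚ_[2])‖ = (2 : ℝ)⁻¹ := by
      have := Padic.norm_p (p := 2)
      simpa using this
    rw [h, norm_mul, norm_pow, h2, inv_pow]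
    gcongr

/-- A unit plus something small is a unit. -/
theorem norm_one_add_eq {x : ℚ_[2]} (hx : ‖x‖ < 1) : ‖1 + x‖ = 1 := by
  rw [Padic.add_eq_max_of_ne (by rw [norm_one]; exact hx.ne')]
  rw [norm_one]; exact max_eq_left hx.le

end Pool.Agent.Work.MP_03df5c_pb
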