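import Mathlib

/-!
# The p-adic Nesterenko criterion for linear forms of exact size, by the pigeonhole principle
-/

open Filter Topology Finset

namespace Pool.Agent.Work.MP_03df5c_pb

lemma pigeon {p : ℕ} [hp : Fact p.Prime] {d : ℕ} (ω : Fin d → ℤ_[p]) (j0 : Fin d)
    (hω : ω j0 = 1) (n : ℕ) :
    ∃ b : Fin d → ℤ, b ≠ 0 ∧ (∀ j, |b j| ≤ (p : ℤ) ^ (n * (d - 1))) ∧
      ∀ j, ((p : ℤ_[p]) ^ (n * d)) ∣ ((b j : ℤ_[p]) - (b j0 : ℤ_[p]) * ω j) := by
  classical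
  haveI : NeZero (p ^ (n * d)) := ⟨pow_ne_zero _ hp.out.ne_zero⟩
  let Q : ℕ := p ^ (n * (d - 1))
  let f : (Fin d → Fin (Q + 1)) → ({j : Fin d // j ≠ j0} → ZMod (p ^ (n * d))) :=
    fun a j => PadicInt.toZModPow (n * d)
      (((a j.1 : ℕ) : ℤ_[p]) - ((a j0 : ℕ) : ℤ_[p]) * ω j.1)
  have hd : 1 ≤ d := j0.pos
  have hcard : Fintype.card ({j : Fin d // j ≠ j0} → ZMod (p ^ (n * d)))
      < Fintype.card (Fin d → Fin (Q + 1)) := by
    have h1 : Fintype.card {j : Fin d // j ≠ j0} = d - 1 := by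
      rw [Fintype.card_subtype_compl, Fintype.card_fin, Fintype.card_subtype_eq]
    rw [Fintype.card_fun, Fintype.card_fun, ZMod.card, Fintype.card_fin, Fintype.card_fin, h1]
    have h2 : (p ^ (n * d)) ^ (d - 1) = Q ^ d := by
      show _ = (p ^ (n * (d - 1))) ^ d
      rw [← pow_mul, ← pow_mul]
      congr 1
      ring
    rw [h2]
    exact Nat.pow_lt_pow_left (Nat.lt_succ_self Q) (by omega)
  obtain ⟨a, a', hne, heq⟩ := Fintype.exists_ne_map_eq_of_card_lt f hcard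
  refine ⟨fun j => ((a j : ℕ) : ℤ) - ((a' j : ℕ) : ℤ), ?_, ?_, ?_⟩
  · intro h0
    apply hne
    funext j
    have h1 := congrFun h0 j
    simp only [Pi.zero_apply] at h1
    apply Fin.ext
    omega
  · intro j
    have h1 := (a j).2
    have h2 := (a' j).2
    have hQ : (Q : ℤ) = (p : ℤ) ^ (n * (d - 1)) := by
      show ((p ^ (n * (d - 1)) : ℕ) : ℤ) = _
      push_cast
      rfl
    rw [← hQ, abs_le]
    constructor <;> (simp only; omega)
  · intro j
    by_cases hj : j = j0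
    · subst hj
      rw [hω]
      simp
    · have h1 := congrFun heq ⟨j, hj⟩
      have h2 : PadicInt.toZModPow (n * d)
          ((((((a j : ℕ) : ℤ) - ((a' j : ℕ) : ℤ) : ℤ)) : ℤ_[p])
            - (((((a j0 : ℕ) : ℤ) - ((a' j0 : ℕ) : ℤ) : ℤ)) : ℤ_[p]) * ω j) = 0 := by
        have h3 : (((((a j : ℕ) : ℤ) - ((a' j : ℕ) : ℤ) : ℤ)) : ℤ_[p])
            - (((((a j0 : ℕ) : ℤ) - ((a' j0 : ℕ) : ℤ) : ℤ)) : ℤ_[p]) * ω j
            = (((a j : ℕ) : ℤ_[p]) - ((a j0 : ℕ) : ℤ_[p]) * ω j)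
              - (((a' j : ℕ) : ℤ_[p]) - ((a' j0 : ℕ) : ℤ_[p]) * ω j) := by
          push_cast
          ring
        rw [h3, map_sub, sub_eq_zero]
        exact h1
      rw [← RingHom.mem_ker, PadicInt.ker_toZModPow, Ideal.mem_span_singleton] at h2
      exact h2

lemma dvd_of_norm {p : ℕ} [hp : Fact p.Prime] (x : ℤ) (k : ℕ)
    (h : ‖(x : ℤ_[p])‖ ≤ (p : ℝ) ^ (-(k : ℤ))) : ((p : ℤ) ^ k) ∣ x := by
  have h1 := PadicInt.norm_int_le_pow_iff_dvd.1 h
  exact_mod_cast h1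

lemma key {p : ℕ} [hp : Fact p.Prime] {d : ℕ} (ω : Fin d → ℤ_[p]) (j0 : Fin d)
    (hω : ω j0 = 1) (n : ℕ) (hn : 1 ≤ n) :
    ∃ w : ℕ, w ≤ n * (d - 1) ∧ ∀ (m : Fin d → ℤ) (u : ℤ),
      ‖∑ j, (m j : ℤ_[p]) * ω j‖ = (p : ℝ) ^ (-u) → (w : ℤ) + u < (n * d : ℕ) →
      (p : ℝ) ^ ((w : ℤ) + u) ≤ (∑ j, |(m j : ℝ)|) * (p : ℝ) ^ (n * (d - 1)) := by
  classical
  obtain ⟨b, hb0, hbQ, hbd⟩ := pigeon ω j0 hω n
  have hd : 1 ≤ d := j0.pos
  have hp1 : (1 : ℝ) < p := by exact_mod_cast hp.out.one_lt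
  have hp0 : (0 : ℝ) < p := by linarith
  have hpZ : (1 : ℤ) < p := by exact_mod_cast hp.out.one_lt
  have hlt : (p : ℤ) ^ (n * (d - 1)) < (p : ℤ) ^ (n * d) := by
    apply pow_lt_pow_right₀ hpZ
    apply Nat.mul_lt_mul_of_pos_left (by omega) (by omega)
  have ht : b j0 ≠ 0 := by
    intro h0
    apply hb0
    funext j
    have h1 := hbd j
    rw [h0] at h1
    simp only [Int.cast_zero, zero_mul, sub_zero] at h1
    have h2 : ((p : ℤ) ^ (n * d)) ∣ b j := by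
      apply dvd_of_norm (p := p)
      have h3 := (PadicInt.norm_le_pow_iff_mem_span_pow ((b j : ℤ_[p])) (n * d)).2
        (Ideal.mem_span_singleton.2 h1)
      exact h3
    exact Int.eq_zero_of_abs_lt_dvd h2 ((hbQ j).trans_lt hlt)
  have htp : ((b j0 : ℤ) : ℤ_[p]) ≠ 0 := by exact_mod_cast ht
  refine ⟨((b j0 : ℤ) : ℤ_[p]).valuation, ?_, ?_⟩
  · have h1 := PadicInt.norm_eq_zpow_neg_valuation htp
    have h2 := dvd_of_norm (p := p) (b j0) _ h1.le
    have h3 := Int.le_of_dvd (abs_pos.2 ht) ((dvd_abs _ _).2 h2)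
    have h4 := h3.trans (hbQ j0)
    exact (pow_le_pow_iff_right₀ hpZ).1 h4
  · intro m u hu hwu
    set w : ℕ := ((b j0 : ℤ) : ℤ_[p]).valuation with hw
    set I : ℤ := ∑ j, m j * b j with hI
    have hIeq : (I : ℤ_[p]) = (∑ j, (m j : ℤ_[p]) * ((b j : ℤ_[p]) - (b j0 : ℤ_[p]) * ω j))
        + (b j0 : ℤ_[p]) * ∑ j, (m j : ℤ_[p]) * ω j := by
      rw [hI, Finset.mul_sum, ← Finset.sum_add_distrib]
      push_cast
      refine Finset.sum_congr rfl fun j _ => ?_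
      ring
    have hA : ‖∑ j, (m j : ℤ_[p]) * ((b j : ℤ_[p]) - (b j0 : ℤ_[p]) * ω j)‖
        ≤ (p : ℝ) ^ (-((n * d : ℕ) : ℤ)) := by
      apply (PadicInt.norm_le_pow_iff_mem_span_pow _ (n * d)).2
      apply Ideal.mem_span_singleton.2
      exact Finset.dvd_sum fun j _ => (hbd j).mul_left _
    have hB : ‖(b j0 : ℤ_[p]) * ∑ j, (m j : ℤ_[p]) * ω j‖ = (p : ℝ) ^ (-((w : ℤ) + u)) := by
      rw [norm_mul, hu, PadicInt.norm_eq_zpow_neg_valuation htp, ← zpow_add₀ hp0.ne']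
      congr 1
      rw [← hw]
      ring
    have hAB : ‖∑ j, (m j : ℤ_[p]) * ((b j : ℤ_[p]) - (b j0 : ℤ_[p]) * ω j)‖
        < ‖(b j0 : ℤ_[p]) * ∑ j, (m j : ℤ_[p]) * ω j‖ := by
      rw [hB]
      refine hA.trans_lt ?_
      apply zpow_lt_zpow_right₀ hp1
      linarith
    have hN : ‖(I : ℤ_[p])‖ = (p : ℝ) ^ (-((w : ℤ) + u)) := by
      rw [hIeq, PadicInt.norm_add_eq_max_of_ne hAB.ne, max_eq_right hAB.le, hB]
    have hnn : 0 ≤ (w : ℤ) + u := by
      by_contra hneg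
      push Not at hneg
      have h1 := PadicInt.norm_le_one (I : ℤ_[p])
      rw [hN] at h1
      have h2 : (1 : ℝ) < (p : ℝ) ^ (-((w : ℤ) + u)) := one_lt_zpow₀ hp1 (by omega)
      linarith
    obtain ⟨z, hz⟩ := Int.eq_ofNat_of_zero_le hnn
    have hI0 : I ≠ 0 := by
      intro h0
      rw [h0] at hN
      simp only [Int.cast_zero, norm_zero] at hN
      have : (0 : ℝ) < (p : ℝ) ^ (-((w : ℤ) + u)) := zpow_pos hp0 _
      linarith
    have hdv : ((p : ℤ) ^ z) ∣ I := by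
      apply dvd_of_norm (p := p)
      rw [hN, hz]
    have hle := Int.le_of_dvd (abs_pos.2 hI0) ((dvd_abs _ _).2 hdv)
    have hle' : (p : ℝ) ^ z ≤ |(I : ℝ)| := by exact_mod_cast hle
    rw [hz]
    have h5 : (p : ℝ) ^ (Int.ofNat z) = (p : ℝ) ^ z := by
      show (p : ℝ) ^ ((z : ℕ) : ℤ) = _
      exact zpow_natCast _ _
    have h6 : |(I : ℝ)| ≤ (∑ j, |(m j : ℝ)|) * (p : ℝ) ^ (n * (d - 1)) := by
      rw [hI]
      push_cast
      refine (Finset.abs_sum_le_sum_abs _ _).trans ?_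
      rw [Finset.sum_mul]
      refine Finset.sum_le_sum fun j _ => ?_
      rw [abs_mul]
      apply mul_le_mul_of_nonneg_left _ (abs_nonneg _)
      exact_mod_cast hbQ j
    first
      | exact h5 ▸ (hle'.trans h6)
      | (rw [h5]; exact hle'.trans h6)
      | (simpa using hle'.trans h6)

lemma analytic (d : ℕ) (hd : 1 ≤ d) (α1 α2 γ L : ℝ) (h1 : 0 < α1) (h12 : α1 ≤ α2) (hγ : 0 ≤ γ)
    (hL : 0 < L) (c : ℤ) (M : ℝ) (v : ℕ → ℤ) (K0 : ℕ)
    (hv1 : ∀ K : ℕ, K0 ≤ K → α1 * K ≤ (v K : ℝ))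
    (hv2 : ∀ K : ℕ, K0 ≤ K → (v K : ℝ) ≤ α2 * K)
    (hkey : ∀ n : ℕ, 1 ≤ n → ∃ w : ℕ, w ≤ n * (d - 1) ∧ ∀ K : ℕ, K0 ≤ K →
      (w : ℤ) + (v K + c) < (n * d : ℕ) →
      ((w : ℝ) + (v K + c)) * L ≤ M + γ * K + (n * (d - 1) : ℕ) * L) :
    α1 * d * L ≤ γ * d + (d - 1) * α2 * L := by
  have h2 : 0 < α2 := h1.trans_le h12
  set C : ℝ := |(c : ℝ)| + 1 with hC
  have hC0 : 0 < C := by positivity
  obtain ⟨n0, hn0⟩ := exists_nat_gt (C + α2 * (K0 + 1))
  have hcR : (c : ℝ) ≤ |(c : ℝ)| := le_abs_self _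
  have hcR' : -|(c : ℝ)| ≤ (c : ℝ) := neg_abs_le _
  have hdR : (1 : ℝ) ≤ d := by exact_mod_cast hd
  -- the main inequality for all n ≥ n0
  have main : ∀ n : ℕ, n0 ≤ n → 1 ≤ n →
      (α1 * (n * d - C - α2) / α2 - C) * L ≤ M + γ * (n * d / α2) + n * (d - 1) * L := by
    intro n hn hn1
    obtain ⟨w, hw, hK⟩ := hkey n hn1
    have hnR : (n0 : ℝ) ≤ n := by exact_mod_cast hn
    have hwR : (w : ℝ) ≤ n * (d - 1) := by
      have : (w : ℝ) ≤ ((n * (d - 1) : ℕ) : ℝ) := by exact_mod_cast hw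
      rw [Nat.cast_mul, Nat.cast_sub hd, Nat.cast_one] at this
      exact this
    have hw0 : (0 : ℝ) ≤ w := Nat.cast_nonneg _
    have hx0 : 0 ≤ (n * d - w - C) / α2 := by
      apply div_nonneg _ h2.le
      have : 0 < α2 * ((K0 : ℝ) + 1) := by positivity
      nlinarith
    set K : ℕ := ⌊(n * d - w - C) / α2⌋₊ with hKdef
    have hKle : (K : ℝ) ≤ (n * d - w - C) / α2 := Nat.floor_le hx0
    have hKge : (n * d - w - C) / α2 < K + 1 := Nat.lt_floor_add_one _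
    have hKα : α2 * K ≤ n * d - w - C := by
      rw [le_div_iff₀ h2] at hKle
      linarith
    have hKα' : n * d - w - C < α2 * (K + 1) := by
      rw [div_lt_iff₀ h2] at hKge
      linarith
    have hK0 : K0 ≤ K := by
      have h3 : α2 * (K0 + 1) < α2 * (K + 1) := by nlinarith
      have h4 := lt_of_mul_lt_mul_left h3 h2.le
      have h5 : (K0 : ℝ) < K := by linarith
      exact_mod_cast h5.le
    have hlt : (w : ℤ) + (v K + c) < (n * d : ℕ) := by
      have h3 := hv2 K hK0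
      have h4 : (w : ℝ) + (v K + c) < ((n * d : ℕ) : ℝ) := by
        push_cast
        linarith
      exact_mod_cast h4
    have h3 := hK K hK0 hlt
    have h4 := hv1 K hK0
    rw [Nat.cast_mul, Nat.cast_sub hd, Nat.cast_one] at h3
    -- lower bound
    have h5 : α1 * (n * d - C - α2) / α2 - C ≤ (w : ℝ) + (v K + c) := by
      have h6 : (n * d - w - C - α2) / α2 ≤ K := by
        rw [div_le_iff₀ h2]
        linarith
      have h7 : α1 * ((n * d - w - C - α2) / α2) ≤ v K :=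
        (mul_le_mul_of_nonneg_left h6 h1.le).trans h4
      have h8 : α1 * (n * d - C - α2) / α2
          = α1 * ((n * d - w - C - α2) / α2) + (α1 / α2) * w := by
        field_simp
        ring
      have h9 : (α1 / α2) * w ≤ w := by
        have : α1 / α2 ≤ 1 := (div_le_one h2).2 h12
        nlinarith
      rw [h8]
      linarith
    have h10 : γ * K ≤ γ * (n * d / α2) := by
      apply mul_le_mul_of_nonneg_left _ hγ
      refine hKle.trans ?_
      apply div_le_div_of_nonneg_right _ h2.le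
      linarith
    have h11 := mul_le_mul_of_nonneg_right h5 hL.le
    linarith
  -- pass to the limit
  by_contra hcon
  push Not at hcon
  set δ : ℝ := α1 * d * L - (γ * d + (d - 1) * α2 * L) with hδ
  have hδ0 : 0 < δ := by linarith
  set E : ℝ := M * α2 + (α1 * (C + α2) + C * α2) * L with hE
  have main' : ∀ n : ℕ, n0 ≤ n → 1 ≤ n → n * δ ≤ E := by
    intro n hn hn1
    have h3 := main n hn hn1
    have h4 := mul_le_mul_of_nonneg_left h3 h2.le
    have h5 : α2 * ((α1 * (n * d - C - α2) / α2 - C) * L)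
        = (α1 * (n * d - C - α2) - C * α2) * L := by
      field_simp
    have h6 : α2 * (M + γ * (n * d / α2) + n * (d - 1) * L)
        = M * α2 + γ * (n * d) + n * (d - 1) * α2 * L := by
      field_simp
    rw [h5, h6] at h4
    rw [hδ, hE]
    nlinarith
  obtain ⟨N, hN⟩ := exists_nat_gt (E / δ)
  have h3 := main' (max (max n0 1) N) (le_trans (le_max_left _ _) (le_max_left _ _))
    (le_trans (le_max_right _ _) (le_max_left _ _))
  have h4 : (N : ℝ) ≤ ((max (max n0 1) N : ℕ) : ℝ) := by exact_mod_cast le_max_right _ _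
  have h5 : E < N * δ := by
    rw [div_lt_iff₀ hδ0] at hN
    exact hN
  nlinarith

theorem padic_nesterenko {p : ℕ} [hp : Fact p.Prime] {ι : Type*} [Fintype ι] (θ : ι → ℚ_[p])
    (l : ℕ → ι → ℤ) (v : ℕ → ℤ) (α β : ℝ) (hα : 0 < α) (hβ : 0 ≤ β)
    (hv : ∀ K, ‖∑ i, (l K i : ℚ_[p]) * θ i‖ = (p : ℝ) ^ (-(v K)))
    (hvK : Tendsto (fun K : ℕ => (v K : ℝ) / K) atTop (𝓝 α))
    (hl : ∀ ε : ℝ, 0 < ε → ∀ᶠ K : ℕ in atTop, ∀ i, |(l K i : ℝ)| ≤ Real.exp ((β + ε) * K)) :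
    α * Real.log p ≤ Module.finrank ℚ (Submodule.span ℚ (Set.range θ)) * β := by
  classical
  have hp1 : (1 : ℝ) < p := by exact_mod_cast hp.out.one_lt
  have hp0 : (0 : ℝ) < p := by linarith
  have hL : 0 < Real.log p := Real.log_pos hp1
  set V := Submodule.span ℚ (Set.range θ) with hV
  haveI : FiniteDimensional ℚ V := FiniteDimensional.span_of_finite ℚ (Set.finite_range θ)
  set d := Module.finrank ℚ V with hd
  let B : Module.Basis (Fin d) ℚ V := Module.finBasis ℚ V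
  have hmem : ∀ i, θ i ∈ V := fun i => Submodule.subset_span ⟨i, rfl⟩
  let cf : ι → Fin d → ℚ := fun i j => B.repr ⟨θ i, hmem i⟩ j
  have hθ : ∀ i, θ i = ∑ j, (cf i j : ℚ_[p]) * ((B j : V) : ℚ_[p]) := by
    intro i
    have h1 := congrArg (fun x : V => (x : ℚ_[p])) (B.sum_repr ⟨θ i, hmem i⟩)
    simp only [Submodule.coe_sum, Submodule.coe_smul] at h1
    rw [← h1]
    refine Finset.sum_congr rfl fun j _ => ?_
    rw [Rat.smul_def]
  have hdpos : 1 ≤ d := by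
    by_contra h0
    have h0' : d = 0 := by omega
    have hz : ∀ i, θ i = 0 := by
      intro i
      rw [hθ i]
      apply Finset.sum_eq_zero
      intro j _
      exact absurd j.2 (by omega)
    have h1 := hv 0
    simp only [hz, mul_zero, Finset.sum_const_zero, norm_zero] at h1
    have : (0 : ℝ) < (p : ℝ) ^ (-(v 0)) := zpow_pos hp0 _
    linarith
  haveI : Nonempty (Fin d) := ⟨⟨0, hdpos⟩⟩
  obtain ⟨j0, -, hj0⟩ := Finset.exists_max_image (Finset.univ : Finset (Fin d))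
    (fun j => ‖((B j : V) : ℚ_[p])‖) Finset.univ_nonempty
  have hB0 : ((B j0 : V) : ℚ_[p]) ≠ 0 := by
    intro h0
    exact B.ne_zero j0 (Subtype.ext h0)
  have hnorm : ∀ j, ‖((B j : V) : ℚ_[p]) / ((B j0 : V) : ℚ_[p])‖ ≤ 1 := by
    intro j
    rw [norm_div, div_le_one (norm_pos_iff.2 hB0)]
    exact hj0 j (Finset.mem_univ _)
  let ω : Fin d → ℤ_[p] := fun j => ⟨((B j : V) : ℚ_[p]) / ((B j0 : V) : ℚ_[p]), hnorm j⟩
  have hω : ω j0 = 1 := by
    apply Subtype.ext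
    show ((B j0 : V) : ℚ_[p]) / ((B j0 : V) : ℚ_[p]) = 1
    exact div_self hB0
  -- common denominator
  let D : ℕ := ∏ i, ∏ j, (cf i j).den
  have hD0 : D ≠ 0 := by
    apply Finset.prod_ne_zero_iff.2
    intro i _
    apply Finset.prod_ne_zero_iff.2
    intro j _
    exact (cf i j).den_nz
  have hDdvd : ∀ i j, (cf i j).den ∣ D := by
    intro i j
    exact (Finset.dvd_prod_of_mem (fun j => (cf i j).den) (Finset.mem_univ j)).trans
      (Finset.dvd_prod_of_mem (fun i => ∏ j, (cf i j).den) (Finset.mem_univ i))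
  have hk : ∀ i j, ∃ k : ℤ, (k : ℚ) = D * cf i j := by
    intro i j
    obtain ⟨e, he⟩ := hDdvd i j
    refine ⟨e * (cf i j).num, ?_⟩
    rw [he]
    push_cast
    have h1 : (cf i j) * ((cf i j).den : ℚ) = (cf i j).num := Rat.mul_den_eq_num _
    rw [← h1]
    ring
  choose k hk using hk
  let m : ℕ → Fin d → ℤ := fun K j => ∑ i, l K i * k i j
  have hDp : ((D : ℕ) : ℚ_[p]) ≠ 0 := by exact_mod_cast hD0
  have hform : ∀ K, ((∑ j, (m K j : ℤ_[p]) * ω j : ℤ_[p]) : ℚ_[p])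
      = ((D : ℚ_[p]) / ((B j0 : V) : ℚ_[p])) * ∑ i, (l K i : ℚ_[p]) * θ i := by
    intro K
    have h1 : ((∑ j, (m K j : ℤ_[p]) * ω j : ℤ_[p]) : ℚ_[p])
        = ∑ j, (m K j : ℚ_[p]) * (((B j : V) : ℚ_[p]) / ((B j0 : V) : ℚ_[p])) := by
      rw [PadicInt.coe_sum]
      refine Finset.sum_congr rfl fun j _ => ?_
      rw [PadicInt.coe_mul, PadicInt.coe_intCast]
    rw [h1, Finset.mul_sum]
    have h2 : ∀ j, (m K j : ℚ_[p]) * (((B j : V) : ℚ_[p]) / ((B j0 : V) : ℚ_[p]))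
        = ∑ i, ((D : ℚ_[p]) / ((B j0 : V) : ℚ_[p])) * ((l K i : ℚ_[p])
          * ((cf i j : ℚ_[p]) * ((B j : V) : ℚ_[p]))) := by
      intro j
      show ((∑ i, l K i * k i j : ℤ) : ℚ_[p]) * _ = _
      rw [Int.cast_sum, Finset.sum_mul]
      refine Finset.sum_congr rfl fun i _ => ?_
      have h3 : ((k i j : ℤ) : ℚ_[p]) = (D : ℚ_[p]) * (cf i j : ℚ_[p]) := by
        have := congrArg (fun x : ℚ => (x : ℚ_[p])) (hk i j)
        push_cast at this
        exact this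
      rw [Int.cast_mul, h3]
      ring
    rw [Finset.sum_congr rfl fun j _ => h2 j, Finset.sum_comm]
    refine Finset.sum_congr rfl fun i _ => ?_
    rw [← Finset.mul_sum, ← Finset.mul_sum, ← hθ i]
  have hDB : ((D : ℚ_[p]) / ((B j0 : V) : ℚ_[p])) ≠ 0 := div_ne_zero hDp hB0
  set c : ℤ := ((D : ℚ_[p]) / ((B j0 : V) : ℚ_[p])).valuation with hc
  have hcn : ‖((D : ℚ_[p]) / ((B j0 : V) : ℚ_[p]))‖ = (p : ℝ) ^ (-c) :=
    Padic.norm_eq_zpow_neg_valuation hDB
  have hmn : ∀ K, ‖∑ j, (m K j : ℤ_[p]) * ω j‖ = (p : ℝ) ^ (-(v K + c)) := by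
    intro K
    rw [PadicInt.norm_def, hform K, norm_mul, hcn, hv K, ← zpow_add₀ hp0.ne']
    congr 1
    ring
  set M : ℝ := (∑ j, ∑ i, |(k i j : ℝ)|) + 1 with hM
  have hM1 : 1 ≤ M := by
    have : 0 ≤ ∑ j, ∑ i, |(k i j : ℝ)| :=
      Finset.sum_nonneg fun j _ => Finset.sum_nonneg fun i _ => abs_nonneg _
    linarith
  have hmM : ∀ K (X : ℝ), 0 ≤ X → (∀ i, |(l K i : ℝ)| ≤ X) → ∑ j, |(m K j : ℝ)| ≤ M * X := by
    intro K X hX hlX
    have h1 : ∑ j, |(m K j : ℝ)| ≤ (∑ j, ∑ i, |(k i j : ℝ)|) * X := by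
      rw [Finset.sum_mul]
      refine Finset.sum_le_sum fun j _ => ?_
      rw [Finset.sum_mul]
      show |((∑ i, l K i * k i j : ℤ) : ℝ)| ≤ _
      push_cast
      refine (Finset.abs_sum_le_sum_abs _ _).trans ?_
      refine Finset.sum_le_sum fun i _ => ?_
      rw [abs_mul, mul_comm]
      exact mul_le_mul_of_nonneg_left (hlX i) (abs_nonneg _)
    rw [hM]
    nlinarith
  -- the inequality for every small ε
  have hall : ∀ ε : ℝ, 0 < ε → ε < α →
      (α - ε) * d * Real.log p ≤ (β + ε) * d + (d - 1) * (α + ε) * Real.log p := by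
    intro ε hε hεα
    have e1 : ∀ᶠ K : ℕ in atTop, α - ε < (v K : ℝ) / K := hvK.eventually (lt_mem_nhds (by linarith))
    have e2 : ∀ᶠ K : ℕ in atTop, (v K : ℝ) / K < α + ε := hvK.eventually (gt_mem_nhds (by linarith))
    obtain ⟨K0, hK0⟩ := eventually_atTop.1 ((e1.and e2).and ((hl ε hε).and (eventually_ge_atTop 1)))
    apply analytic d hdpos (α - ε) (α + ε) (β + ε) (Real.log p) (by linarith) (by linarith)
      (by linarith) hL c (Real.log M) v K0
    · intro K hK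
      obtain ⟨⟨h1, h2⟩, -, h4⟩ := hK0 K hK
      have hKp : (0 : ℝ) < K := by exact_mod_cast h4
      rw [lt_div_iff₀ hKp] at h1
      exact h1.le
    · intro K hK
      obtain ⟨⟨h1, h2⟩, -, h4⟩ := hK0 K hK
      have hKp : (0 : ℝ) < K := by exact_mod_cast h4
      rw [div_lt_iff₀ hKp] at h2
      exact h2.le
    · intro n hn
      obtain ⟨w, hw, hwm⟩ := key ω j0 hω n hn
      refine ⟨w, hw, fun K hK hlt => ?_⟩
      obtain ⟨-, h3, -⟩ := hK0 K hK
      have h5 := hwm (m K) (v K + c) (hmn K) hlt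
      have h6 := hmM K (Real.exp ((β + ε) * K)) (Real.exp_pos _).le h3
      have h7 : (p : ℝ) ^ ((w : ℤ) + (v K + c)) ≤
          (M * Real.exp ((β + ε) * K)) * (p : ℝ) ^ (n * (d - 1)) :=
        h5.trans (mul_le_mul_of_nonneg_right h6 (by positivity))
      have h8 := Real.log_le_log (zpow_pos hp0 _) h7
      have hM0 : M ≠ 0 := by linarith
      rw [Real.log_zpow, Real.log_mul (mul_ne_zero hM0 (Real.exp_ne_zero _)) (by positivity),
        Real.log_mul hM0 (Real.exp_ne_zero _), Real.log_exp, Real.log_pow] at h8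
      push_cast at h8 ⊢
      linarith
  by_contra hcon
  push Not at hcon
  set δ : ℝ := α * Real.log p - d * β with hδ
  have hδ0 : 0 < δ := by linarith
  have hdR : (1 : ℝ) ≤ d := by exact_mod_cast hdpos
  set E : ℝ := d * Real.log p + d + (d - 1) * Real.log p with hE
  have hE0 : 0 < E := by
    have : 0 < (d : ℝ) * Real.log p := by positivity
    nlinarith
  set ε : ℝ := min (α / 2) (δ / (2 * E)) with hεdef
  have hε0 : 0 < ε := lt_min (by linarith) (by positivity)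
  have hεα : ε < α := (min_le_left _ _).trans_lt (by linarith)
  have h1 := hall ε hε0 hεα
  have h2 : ε * E ≤ δ / 2 := by
    have h3 : ε ≤ δ / (2 * E) := min_le_right _ _
    calc ε * E ≤ δ / (2 * E) * E := mul_le_mul_of_nonneg_right h3 hE0.le
      _ = δ / 2 := by field_simp
  have h4 : δ ≤ ε * E := by
    rw [hδ, hE]
    nlinarith
  linarith

end Pool.Agent.Work.MP_03df5c_pb
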