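import Pool.Agent.Work.MP_03df5c_pb.Interface4
import Pool.Agent.Work.MP_03df5c_pb.B_L6

/-!
# Pieces of block V7 (typed by helper83): the size of the form and the final inequality
-/

open Finset Filter Topology

namespace Pool.Agent.Work.MP_03df5c_pb

namespace BV7

theorem vfac (p m : ℕ) [hp : Fact p.Prime] :
    (p - 1) * padicValNat p ((p ^ m - 1).factorial) + 1 + (p - 1) * m = p ^ m := by
  have hpos : 0 < p ^ m := pow_pos hp.out.pos m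
  have h1 : ∀ m, (p - 1) * padicValNat p ((p ^ m).factorial) + 1 = p ^ m := by
    intro m
    induction m with
    | zero => simp
    | succ m ih =>
      rw [pow_succ', padicValNat_factorial_mul, mul_add]
      obtain ⟨q, hq⟩ : ∃ q, p = q + 1 := ⟨p - 1, by have := hp.out.pos; omega⟩
      have h2 : p * p ^ m = (p - 1) * p ^ m + p ^ m := by
        rw [← Nat.succ_mul]
        congr 1
        omega
      rw [h2]
      omega
  have h3 := h1 m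
  rw [← Nat.mul_factorial_pred hpos.ne', padicValNat.mul hpos.ne' (Nat.factorial_ne_zero _),
    padicValNat.prime_pow, mul_add] at h3
  omega

theorem size (p r m : ℕ) [hp : Fact p.Prime] (h : (p = 2 ∧ r = 2) ∨ (p = 3 ∧ r = 1)) :
    (27 : ℝ) ^ (p ^ m - 1) ≤ ((p : ℝ) ^ m) ^ 3 *
      (‖((p ^ m - 1).factorial : ℚ_[p])‖ ^ 2 * ((p : ℝ) ^ (2 * r * p ^ m))⁻¹ * (p : ℝ) ^ m)⁻¹ := by
  have hp0 : (0 : ℝ) < p := by exact_mod_cast hp.out.pos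
  have hpos : 0 < p ^ m := pow_pos hp.out.pos m
  obtain ⟨v, hv⟩ : ∃ v, v = padicValNat p ((p ^ m - 1).factorial) := ⟨_, rfl⟩
  have h1 := vfac p m
  rw [← hv] at h1
  have h2 : ((p : ℝ) ^ m) ^ 3 *
      (‖((p ^ m - 1).factorial : ℚ_[p])‖ ^ 2 * ((p : ℝ) ^ (2 * r * p ^ m))⁻¹ * (p : ℝ) ^ m)⁻¹ =
      (p : ℝ) ^ (2 * m + 2 * v + 2 * r * p ^ m) := by
    rw [BL6.norm_nat (Nat.factorial_ne_zero _), ← hv]
    have e1 : ((p : ℝ) ^ m) ≠ 0 := by positivity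
    have e2 : ((p : ℝ) ^ v) ≠ 0 := by positivity
    have e3 : ((p : ℝ) ^ (2 * r * p ^ m)) ≠ 0 := by positivity
    rw [pow_add, pow_add, pow_mul' (p : ℝ) 2 m, pow_mul' (p : ℝ) 2 v]
    field_simp
  rw [h2]
  rcases h with ⟨rfl, rfl⟩ | ⟨rfl, rfl⟩
  · have h3 : 2 * m + 2 * v + 2 * 2 * 2 ^ m = 6 * (2 ^ m - 1) + 4 := by
      norm_num at h1 ⊢
      omega
    rw [h3, pow_add, pow_mul]
    have h4 : (27 : ℝ) ^ (2 ^ m - 1) ≤ (((2 : ℕ) : ℝ) ^ 6) ^ (2 ^ m - 1) :=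
      pow_le_pow_left₀ (by norm_num) (by norm_num) _
    have h5 : (1 : ℝ) ≤ ((2 : ℕ) : ℝ) ^ 4 := by norm_num
    calc (27 : ℝ) ^ (2 ^ m - 1) ≤ (((2 : ℕ) : ℝ) ^ 6) ^ (2 ^ m - 1) * 1 := by rw [mul_one]; exact h4
      _ ≤ _ := mul_le_mul_of_nonneg_left h5 (by positivity)
  · have h3 : 2 * m + 2 * v + 2 * 1 * 3 ^ m = 3 * (3 ^ m - 1) + 2 := by
      norm_num at h1 ⊢
      omega
    rw [h3, pow_add, pow_mul]
    have h4 : (27 : ℝ) ^ (3 ^ m - 1) ≤ (((3 : ℕ) : ℝ) ^ 3) ^ (3 ^ m - 1) :=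
      pow_le_pow_left₀ (by norm_num) (by norm_num) _
    have h5 : (1 : ℝ) ≤ ((3 : ℕ) : ℝ) ^ 2 := by norm_num
    calc (27 : ℝ) ^ (3 ^ m - 1) ≤ (((3 : ℕ) : ℝ) ^ 3) ^ (3 ^ m - 1) * 1 := by rw [mul_one]; exact h4
      _ ≤ _ := mul_le_mul_of_nonneg_left h5 (by positivity)

theorem far (p : ℕ) [hp : Fact p.Prime] (c0 C D : ℝ) (hc : c0 < Real.log 3) : ∃ m, 1 ≤ m ∧
    D * ((p : ℝ) ^ m) ^ 6 * (C * Real.exp (c0 * ((p ^ m - 1 : ℕ) : ℝ))) ^ 3 < (27 : ℝ) ^ (p ^ m - 1) := by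
  have hp1 : (1 : ℝ) < p := by exact_mod_cast hp.out.one_lt
  obtain ⟨δ, hδd⟩ : ∃ δ : ℝ, δ = 3 * (Real.log 3 - c0) := ⟨_, rfl⟩
  have hδ : 0 < δ := by
    rw [hδd]
    linarith
  have t1 : Tendsto (fun m : ℕ => δ * (p : ℝ) ^ m) atTop atTop :=
    (tendsto_pow_atTop_atTop_of_one_lt hp1).const_mul_atTop hδ
  have t2 := (Real.tendsto_pow_mul_exp_neg_atTop_nhds_zero 6).comp t1
  have t3 := t2.const_mul (D * C ^ 3 * Real.exp δ / δ ^ 6)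
  rw [mul_zero] at t3
  have t4 := (t3.eventually (gt_mem_nhds (zero_lt_one' ℝ))).and (eventually_ge_atTop 1)
  obtain ⟨m, hm1, hm2⟩ := t4.exists
  refine ⟨m, hm2, ?_⟩
  have hpos : 0 < p ^ m := pow_pos hp.out.pos m
  have hK : ((p ^ m - 1 : ℕ) : ℝ) = (p : ℝ) ^ m - 1 := by
    rw [Nat.cast_sub hpos]
    push_cast
    ring
  have h27 : (27 : ℝ) ^ (p ^ m - 1) = Real.exp (3 * Real.log 3 * ((p ^ m - 1 : ℕ) : ℝ)) := by
    have e1 : (27 : ℝ) = Real.exp (3 * Real.log 3) := by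
      rw [mul_comm, Real.exp_mul, Real.exp_log (by norm_num)]
      norm_num
    rw [e1, ← Real.exp_nat_mul]
    congr 1
    ring
  rw [h27, hK]
  simp only [Function.comp_apply] at hm1
  have e2 : D * C ^ 3 * Real.exp δ / δ ^ 6 * ((δ * (p : ℝ) ^ m) ^ 6 * Real.exp (-(δ * (p : ℝ) ^ m))) =
      (D * ((p : ℝ) ^ m) ^ 6 * (C * Real.exp (c0 * ((p : ℝ) ^ m - 1))) ^ 3) *
        Real.exp (-(3 * Real.log 3 * ((p : ℝ) ^ m - 1))) := by
    have e3 : (C * Real.exp (c0 * ((p : ℝ) ^ m - 1))) ^ 3 =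
        C ^ 3 * Real.exp (3 * (c0 * ((p : ℝ) ^ m - 1))) := by
      rw [mul_pow, ← Real.exp_nat_mul]
      norm_num
    have e4 : Real.exp δ * Real.exp (-(δ * (p : ℝ) ^ m)) =
        Real.exp (3 * (c0 * ((p : ℝ) ^ m - 1))) * Real.exp (-(3 * Real.log 3 * ((p : ℝ) ^ m - 1))) := by
      rw [← Real.exp_add, ← Real.exp_add]
      congr 1
      rw [hδd]
      ring
    rw [e3]
    calc D * C ^ 3 * Real.exp δ / δ ^ 6 * ((δ * (p : ℝ) ^ m) ^ 6 * Real.exp (-(δ * (p : ℝ) ^ m)))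
        = D * C ^ 3 * ((p : ℝ) ^ m) ^ 6 * (Real.exp δ * Real.exp (-(δ * (p : ℝ) ^ m))) := by
          field_simp
      _ = D * C ^ 3 * ((p : ℝ) ^ m) ^ 6 * (Real.exp (3 * (c0 * ((p : ℝ) ^ m - 1))) *
            Real.exp (-(3 * Real.log 3 * ((p : ℝ) ^ m - 1)))) := by rw [e4]
      _ = _ := by ring
  rw [e2, Real.exp_neg, ← div_eq_mul_inv, div_lt_one (Real.exp_pos _)] at hm1
  exact hm1

end BV7

end Pool.Agent.Work.MP_03df5c_pb
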